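import Mathlib

/-!
Cyclic lists of pairs (label, length of the edge to the next label), and the collapse of a
maximal run of shortest edges.
-/

namespace Pool.Agent.FlatFold

/-- result of looking at a cyclic list -/
inductive View (α : Type) where
  /-- all lengths are equal -/
  | done : View α
  /-- not closed -/
  | bad : View α
  /-- the list is a rotation of `(x, a) :: us.map (·, t) ++ (u, b) :: rest` with `t` the minimal
  length, `us` nonempty, `t < a`, `t < b` -/
  | red (x : α) (a : ℕ) (us : List α) (t : ℕ) (u : α) (b : ℕ) (rest : List (α × ℕ)) : View α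

/-- the minimum of the lengths (0 for the empty list) -/
def minLen {α : Type} : List (α × ℕ) → ℕ
  | [] => 0
  | [p] => p.2
  | p :: q :: l => min p.2 (minLen (q :: l))

/-- rotate so that the head has length `≠ t` and the second entry has length `t`
(if there are entries of both kinds) -/
def normRot {α : Type} (t : ℕ) (c : List (α × ℕ)) : List (α × ℕ) :=
  let c1 := c.dropWhile (fun p => p.2 == t) ++ c.takeWhile (fun p => p.2 == t)
  let q := c1.takeWhile (fun p => p.2 != t)
  let r := c1.dropWhile (fun p => p.2 != t)
  q.drop (q.length - 1) ++ r ++ q.take (q.length - 1)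

/-- look at a cyclic list -/
def view {α : Type} (c : List (α × ℕ)) : View α :=
  let t := minLen c
  if c.all (fun p => p.2 == t) then View.done
  else
    match normRot t c with
    | [] => View.bad
    | (x, a) :: L =>
      match L.dropWhile (fun p => p.2 == t) with
      | [] => View.bad
      | (u, b) :: rest =>
        View.red x a ((L.takeWhile (fun p => p.2 == t)).map Prod.fst) t u b rest

/-- the collapse process succeeds on the cyclic list `c` of pairs (sign, length) -/
def algGood (target : ℤ) : ℕ → List (ℤ × ℕ) → Prop
  | 0, _ => False
  | k + 1, c =>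
    match view c with
    | View.done => (c.map Prod.fst).sum = target
    | View.bad => False
    | View.red x a us t u b rest =>
      if (us.length + 1) % 2 = 0 then
        us.sum + u = 0 ∧ algGood target k ((x, a + b - t) :: rest)
      else
        |us.sum + u| = 1 ∧ algGood target k ((x, a) :: (us.sum + u, b) :: rest)

/-- heights of a zigzag: starting at height `h`, going up (`true`) or down first;
the list of heights after each step -/
def heights (h : ℤ) : Bool → List ℕ → List ℤ
  | _, [] => []
  | true, l :: ls => (h + l) :: heights (h + l) false ls
  | false, l :: ls => (h - l) :: heights (h - l) true ls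

/-- closed zigzag: even number of steps and total displacement zero -/
def Balanced (c : List (ℤ × ℕ)) : Prop :=
  c.length % 2 = 0 ∧ (heights 0 true (c.map Prod.snd)).getLastD 0 = 0

/-- Window condition for a cyclic list of (sign, length).  Whenever the cyclic list reads
`(s0, l0), m, r`, the turns in `m` are strictly above the turn `0`; if they are all strictly
below the turn after `m`, the signs in `m` sum up to `0`, and if they are all strictly above
the turn after `m`, the signs sum up to `1` or `-1`. -/
def WC (c : List (ℤ × ℕ)) : Prop :=
  ∀ (s0 : ℤ) (l0 : ℕ) (m r : List (ℤ × ℕ)), ((s0, l0) :: (m ++ r)) ~r c → m ≠ [] →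
    (∀ h ∈ heights 0 true (l0 :: m.dropLast.map Prod.snd), 0 < h) →
    ((∀ h ∈ heights 0 true (l0 :: m.dropLast.map Prod.snd),
        h < (heights 0 true (l0 :: m.map Prod.snd)).getLastD 0) → (m.map Prod.fst).sum = 0) ∧
    ((∀ h ∈ heights 0 true (l0 :: m.dropLast.map Prod.snd),
        (heights 0 true (l0 :: m.map Prod.snd)).getLastD 0 < h) → |(m.map Prod.fst).sum| = 1)

/-- unit word: a sign `-1` gives the letter `0` (valley), `1` gives `2` (mountain), followed by
`l - 1` letters `1` (straight) -/
def unitWord (c : List (ℤ × ℕ)) : List ℕ :=
  c.flatMap (fun p => (p.1 + 1).toNat :: List.replicate (p.2 - 1) 1)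

/-- one reduction step of cyclic words over `{0, 1, 2}` -/
inductive ZipStep : List ℕ → List ℕ → Prop
  | rot (w w' : List ℕ) (h : w ~r w') : ZipStep w w'
  | zip (A B : ℕ) (rest : List ℕ) (h : 2 ≤ A + B) :
      ZipStep (A :: 0 :: B :: rest) ((A + B - 2) :: rest)

end Pool.Agent.FlatFold
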