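import Mathlib
import Pool.Agent.Lib.MP_b92007_lc.CycDefs

/-! General lemmas on looking at cyclic lists. -/

namespace Pool.Agent.FlatFold

/-! ### `view` is natural in the labels -/

/-- relabel -/
def View.lmap {α β : Type} (f : α → β) : View α → View β
  | View.done => View.done
  | View.bad => View.bad
  | View.red x a us t u b rest =>
    View.red (f x) a (us.map f) t (f u) b (rest.map (fun p => (f p.1, p.2)))

theorem minLen_lmap {α β : Type} (f : α → β) :
    ∀ c : List (α × ℕ), minLen (c.map (fun p => (f p.1, p.2))) = minLen c
  | [] => rfl
  | [p] => rfl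
  | p :: q :: l => by
    have := minLen_lmap f (q :: l)
    simp only [List.map_cons, minLen] at this ⊢
    rw [this]

/-- the amount of rotation of `normRot` -/
def rotAmt (t : ℕ) (ls : List ℕ) : ℕ :=
  (ls.takeWhile (fun l => l == t)).length +
    (((ls.rotate (ls.takeWhile (fun l => l == t)).length).takeWhile (fun l => l != t)).length - 1)


theorem rotate_takeWhile {α : Type} (p : α → Bool) (c : List α) :
    c.rotate (c.takeWhile p).length = c.dropWhile p ++ c.takeWhile p := by
  have h := List.rotate_append_length_eq (c.takeWhile p) (c.dropWhile p)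
  rw [List.takeWhile_append_dropWhile] at h
  exact h

theorem normRot_eq {α : Type} (t : ℕ) (c : List (α × ℕ)) :
    normRot t c = c.rotate (rotAmt t (c.map Prod.snd)) := by
  unfold normRot rotAmt
  simp only
  rw [← rotate_takeWhile]
  have h1 : ((c.map Prod.snd).takeWhile (fun l => l == t)).length
      = (c.takeWhile (fun p => p.2 == t)).length := by
    rw [List.takeWhile_map, List.length_map]
    rfl
  rw [h1, ← List.map_rotate, ← List.rotate_rotate]
  generalize c.rotate (c.takeWhile (fun p => p.2 == t)).length = c1
  have h2 : ((c1.map Prod.snd).takeWhile (fun l => l != t)).length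
      = (c1.takeWhile (fun p => p.2 != t)).length := by
    rw [List.takeWhile_map, List.length_map]
    rfl
  rw [h2]
  generalize hq : c1.takeWhile (fun p => p.2 != t) = q
  generalize hr : c1.dropWhile (fun p => p.2 != t) = r
  have h3 : c1 = q ++ r := by
    rw [← hq, ← hr, List.takeWhile_append_dropWhile]
  rw [h3]
  have h4 := List.rotate_append_length_eq (q.take (q.length - 1)) (q.drop (q.length - 1) ++ r)
  rw [← List.append_assoc, List.take_append_drop, List.length_take,
    Nat.min_eq_left (Nat.sub_le _ _)] at h4
  exact h4.symm

theorem normRot_lmap {α β : Type} (f : α → β) (t : ℕ) (c : List (α × ℕ)) :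
    normRot t (c.map (fun p => (f p.1, p.2))) = (normRot t c).map (fun p => (f p.1, p.2)) := by
  rw [normRot_eq, normRot_eq, List.map_rotate, List.map_map]
  rfl

theorem normRot_perm {α : Type} (t : ℕ) (c : List (α × ℕ)) : (normRot t c).Perm c := by
  rw [normRot_eq]
  exact List.rotate_perm c _

theorem exists_lift {α β : Type} (f : α → β) (t : ℕ) (c : List (β × ℕ)) (d : List (α × ℕ))
    (h : d.map (fun p => (f p.1, p.2)) = normRot t c) :
    ∃ c' : List (α × ℕ), c'.map (fun p => (f p.1, p.2)) = c ∧ normRot t c' = d := by
  rw [normRot_eq] at h
  generalize hn : rotAmt t (c.map Prod.snd) = n at h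
  have hlen : d.length = c.length := by
    have := congrArg List.length h
    simpa using this
  rcases Nat.eq_zero_or_pos c.length with h0 | h0
  · have hc : c = [] := List.length_eq_zero_iff.1 h0
    have hd : d = [] := List.length_eq_zero_iff.1 (by omega)
    refine ⟨[], by rw [hc]; rfl, ?_⟩
    rw [hd, normRot_eq]
    simp
  · refine ⟨d.rotate ((c.length - 1) * n), ?_, ?_⟩
    · rw [List.map_rotate, h, List.rotate_rotate]
      have : n + (c.length - 1) * n = c.length * n := by
        obtain ⟨m, hm⟩ := Nat.exists_eq_succ_of_ne_zero (Nat.pos_iff_ne_zero.1 h0)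
        rw [hm]
        simp only [Nat.succ_eq_add_one, Nat.add_sub_cancel]
        ring
      rw [this, List.rotate_length_mul]
    · have h1 : ((d.rotate ((c.length - 1) * n)).map Prod.snd) = c.map Prod.snd := by
        have h2 : (d.map (fun p => (f p.1, p.2))).map Prod.snd = d.map Prod.snd := by
          rw [List.map_map]
          rfl
        rw [List.map_rotate, ← h2, h, List.map_rotate, List.rotate_rotate]
        have : n + (c.length - 1) * n = (c.map Prod.snd).length * n := by
          rw [List.length_map]
          obtain ⟨m, hm⟩ := Nat.exists_eq_succ_of_ne_zero (Nat.pos_iff_ne_zero.1 h0)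
          rw [hm]
          simp only [Nat.succ_eq_add_one, Nat.add_sub_cancel]
          ring
        rw [this, List.rotate_length_mul]
      rw [normRot_eq, h1, hn, List.rotate_rotate]
      have : (c.length - 1) * n + n = d.length * n := by
        rw [hlen]
        obtain ⟨m, hm⟩ := Nat.exists_eq_succ_of_ne_zero (Nat.pos_iff_ne_zero.1 h0)
        rw [hm]
        simp only [Nat.succ_eq_add_one, Nat.add_sub_cancel]
        ring
      rw [this, List.rotate_length_mul]

theorem all_lmap {α β : Type} (f : α → β) (t : ℕ) (c : List (α × ℕ)) :
    (c.map (fun p => (f p.1, p.2))).all (fun p => p.2 == t) = c.all (fun p => p.2 == t) := by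
  rw [List.all_map]
  rfl

theorem takeWhile_eq_map {α : Type} (t : ℕ) (L : List (α × ℕ)) :
    L.takeWhile (fun p => p.2 == t)
      = ((L.takeWhile (fun p => p.2 == t)).map Prod.fst).map (fun y => (y, t)) := by
  induction L with
  | nil => rfl
  | cons p L ih =>
    rw [List.takeWhile_cons]
    split
    · rename_i h
      rw [List.map_cons, List.map_cons, ← ih]
      congr 1
      exact Prod.ext rfl (by simpa using h)
    · rfl

theorem dropWhile_head {α : Type} (p : α → Bool) (L : List α) (y : α) (rest : List α)
    (h : L.dropWhile p = y :: rest) : p y = false := by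
  induction L with
  | nil => simp at h
  | cons a L ih =>
    rw [List.dropWhile_cons] at h
    split at h
    · exact ih h
    · rename_i h1
      simp only [List.cons.injEq] at h
      rw [← h.1]
      simpa using h1

theorem view_red_iff {α : Type} (c : List (α × ℕ)) (x : α) (a : ℕ) (us : List α) (t : ℕ) (u : α)
    (b : ℕ) (rest : List (α × ℕ)) :
    view c = View.red x a us t u b rest ↔
      t = minLen c ∧ c.all (fun p => p.2 == minLen c) = false ∧
      normRot (minLen c) c = (x, a) :: (us.map (fun y => (y, t)) ++ (u, b) :: rest) ∧ b ≠ t := by
  constructor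
  · intro h
    unfold view at h
    simp only at h
    split at h
    · simp at h
    · rename_i hall
      split at h
      · simp at h
      · rename_i x' a' L hL
        split at h
        · simp at h
        · rename_i u' b' rest' hD
          simp only [View.red.injEq] at h
          obtain ⟨rfl, rfl, rfl, rfl, rfl, rfl, rfl⟩ := h
          refine ⟨rfl, by simpa using hall, ?_, ?_⟩
          · rw [hL, ← takeWhile_eq_map, ← hD, List.takeWhile_append_dropWhile]
          · have := dropWhile_head _ _ _ _ hD
            simpa using this
  · rintro ⟨ht, hall, hn, hb⟩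
    unfold view
    simp only
    rw [if_neg (by simp only [hall]; simp), hn]
    simp only
    have h1 : ∀ p ∈ us.map (fun y => (y, t)), (fun p : α × ℕ => p.2 == minLen c) p = true := by
      intro p hp
      obtain ⟨y, _, rfl⟩ := List.mem_map.1 hp
      simpa using ht
    have h2 : ((us.map (fun y => (y, t)) ++ (u, b) :: rest).dropWhile
        (fun p => p.2 == minLen c)) = (u, b) :: rest := by
      rw [List.dropWhile_append_of_pos h1, List.dropWhile_cons_of_neg]
      simpa [ht] using hb
    have h3 : ((us.map (fun y => (y, t)) ++ (u, b) :: rest).takeWhile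
        (fun p => p.2 == minLen c)) = us.map (fun y => (y, t)) := by
      rw [List.takeWhile_append_of_pos h1, List.takeWhile_cons_of_neg, List.append_nil]
      simpa [ht] using hb
    rw [h2, h3]
    simp only [View.red.injEq, List.map_map, true_and, and_true]
    refine ⟨?_, ht.symm⟩
    simp [Function.comp_def]

theorem view_lmap {α β : Type} (f : α → β) (c : List (α × ℕ)) :
    view (c.map (fun p => (f p.1, p.2))) = (view c).lmap f := by
  unfold view
  simp only
  rw [minLen_lmap, all_lmap]
  split
  · rfl
  · rw [normRot_lmap]
    cases hn : normRot (minLen c) c with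
    | nil => rfl
    | cons p L =>
      obtain ⟨x, a⟩ := p
      simp only [List.map_cons]
      rw [List.dropWhile_map, List.takeWhile_map]
      have h1 : ((fun p : β × ℕ => p.2 == minLen c) ∘ fun p : α × ℕ => (f p.1, p.2))
          = fun p => p.2 == minLen c := rfl
      rw [h1]
      cases hD : L.dropWhile (fun p => p.2 == minLen c) with
      | nil => rfl
      | cons p' rest =>
        obtain ⟨u, b⟩ := p'
        simp only [List.map_cons, View.lmap, List.map_map]
        rfl

theorem view_red_perm {α : Type} {c : List (α × ℕ)} {x : α} {a : ℕ} {us : List α} {t : ℕ} {u : α}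
    {b : ℕ} {rest : List (α × ℕ)} (h : view c = View.red x a us t u b rest) :
    ((x, a) :: (us.map (fun y => (y, t)) ++ (u, b) :: rest)).Perm c := by
  rw [view_red_iff] at h
  rw [← h.2.2.1]
  exact normRot_perm _ _

end Pool.Agent.FlatFold
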