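import Mathlib
import Pool.Agent.Lib.MP_b92007_lc.ViewLemmas

/-! The collapse of a run is a sequence of zips. -/

set_option linter.unusedSectionVars false
set_option linter.unusedVariables false

namespace Pool.Agent.FlatFold

theorem minLen_le {α : Type} : ∀ (c : List (α × ℕ)), ∀ p ∈ c, minLen c ≤ p.2
  | [], p, hp => by simp at hp
  | [q], p, hp => by
    rw [List.mem_singleton] at hp
    rw [hp]
    exact le_rfl
  | q :: q' :: l, p, hp => by
    rw [minLen]
    rcases List.mem_cons.1 hp with rfl | hp
    · exact min_le_left _ _
    · exact (min_le_right _ _).trans (minLen_le (q' :: l) p hp)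

theorem minLen_mem {α : Type} : ∀ (c : List (α × ℕ)), c ≠ [] → ∃ p ∈ c, p.2 = minLen c
  | [], h => absurd rfl h
  | [q], _ => ⟨q, List.mem_cons_self, rfl⟩
  | q :: q' :: l, _ => by
    rw [minLen]
    rcases min_choice q.2 (minLen (q' :: l)) with h | h
    · exact ⟨q, List.mem_cons_self, h.symm⟩
    · obtain ⟨p, hp, h2⟩ := minLen_mem (q' :: l) (by simp)
      exact ⟨p, List.mem_cons_of_mem _ hp, by rw [h2, h]⟩

theorem normRot_spec {α : Type} (t : ℕ) (c : List (α × ℕ)) (h1 : ∃ p ∈ c, p.2 ≠ t)
    (h2 : ∃ p ∈ c, p.2 = t) :
    ∃ x a y L, normRot t c = (x, a) :: (y, t) :: L ∧ a ≠ t := by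
  unfold normRot
  dsimp only
  set c1 := c.dropWhile (fun p => p.2 == t) ++ c.takeWhile (fun p => p.2 == t) with hc1
  have hmem : ∀ p, p ∈ c1 ↔ p ∈ c := by
    intro p
    rw [hc1, List.mem_append, or_comm, ← List.mem_append, List.takeWhile_append_dropWhile]
  -- head of c1
  have hd : c.dropWhile (fun p => p.2 == t) ≠ [] := by
    intro h
    rw [List.dropWhile_eq_nil_iff] at h
    obtain ⟨p, hp, hpt⟩ := h1
    exact hpt (by simpa using h p hp)
  obtain ⟨p0, l0, hp0⟩ := List.exists_cons_of_ne_nil hd
  have hp0t : p0.2 ≠ t := by
    have := dropWhile_head _ _ _ _ hp0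
    simpa using this
  have hc1' : c1 = p0 :: (l0 ++ c.takeWhile (fun p => p.2 == t)) := by
    rw [hc1, hp0]; rfl
  set q := c1.takeWhile (fun p => p.2 != t) with hq
  set r := c1.dropWhile (fun p => p.2 != t) with hr
  have hqne : q ≠ [] := by
    rw [hq, hc1', List.takeWhile_cons_of_pos (by simpa using hp0t)]
    simp
  have hrne : r ≠ [] := by
    intro h
    rw [hr, List.dropWhile_eq_nil_iff] at h
    obtain ⟨p, hp, hpt⟩ := h2
    have := h p ((hmem p).2 hp)
    simp [hpt] at this
  obtain ⟨y, r', hr'⟩ := List.exists_cons_of_ne_nil hrne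
  have hyt : y.2 = t := by
    have := dropWhile_head _ _ _ _ hr'
    simpa using this
  have hlast : q.drop (q.length - 1) = [q.getLast hqne] := List.drop_length_sub_one hqne
  have hlt : (q.getLast hqne).2 ≠ t := by
    have h3 : q.getLast hqne ∈ q := List.getLast_mem hqne
    have h4 := List.mem_takeWhile_imp h3
    simpa using h4
  refine ⟨(q.getLast hqne).1, (q.getLast hqne).2, y.1, r' ++ q.take (q.length - 1), ?_, hlt⟩
  rw [hlast, hr', ← hyt]
  rfl

theorem view_red_spec {α : Type} {c : List (α × ℕ)} {x : α} {a : ℕ} {us : List α} {t : ℕ} {u : α}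
    {b : ℕ} {rest : List (α × ℕ)} (h : view c = View.red x a us t u b rest) :
    t < a ∧ t < b ∧ us ≠ [] ∧ (∀ p ∈ c, t ≤ p.2) ∧
      ((x, a) :: (us.map (fun y => (y, t)) ++ (u, b) :: rest)) ~r c := by
  have hperm := view_red_perm h
  rw [view_red_iff] at h
  obtain ⟨ht, hall, hn, hbt⟩ := h
  have hle : ∀ p ∈ c, t ≤ p.2 := by
    intro p hp; rw [ht]; exact minLen_le c p hp
  have hne : c ≠ [] := by
    rintro rfl
    have := hperm.length_eq
    simp at this
  have h1 : ∃ p ∈ c, p.2 ≠ t := by
    by_contra hcon
    push Not at hcon
    have : c.all (fun p => p.2 == minLen c) = true := by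
      rw [List.all_eq_true]
      intro p hp
      rw [← ht]
      simpa using hcon p hp
    rw [this] at hall
    simp at hall
  have h2 : ∃ p ∈ c, p.2 = t := by rw [ht]; exact minLen_mem c hne
  obtain ⟨x', a', y, L, hn', hat⟩ := normRot_spec t c h1 h2
  rw [← ht] at hn
  rw [hn, List.cons.injEq, Prod.mk.injEq] at hn'
  obtain ⟨⟨rfl, rfl⟩, hL⟩ := hn'
  have husne : us ≠ [] := by
    rintro rfl
    simp only [List.map_nil, List.nil_append, List.cons.injEq, Prod.mk.injEq] at hL
    exact hbt hL.1.2
  have ha : t ≤ a := hle (x, a) (hperm.mem_iff.1 (by simp))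
  have hb : t ≤ b := hle (u, b) (hperm.mem_iff.1 (by simp))
  refine ⟨lt_of_le_of_ne ha (Ne.symm hat), lt_of_le_of_ne hb (Ne.symm hbt), husne, hle, ?_⟩
  rw [← hn, normRot_eq]
  exact List.IsRotated.symm ⟨_, rfl⟩

theorem view_done_spec {α : Type} {c : List (α × ℕ)} (h : view c = View.done) :
    ∀ p ∈ c, p.2 = minLen c := by
  unfold view at h
  dsimp only at h
  split_ifs at h with hall
  · rw [List.all_eq_true] at hall
    intro p hp
    simpa using hall p hp
  · split at h
    · simp at h
    · split at h <;> simp at h

theorem view_bad_spec {α : Type} {c : List (α × ℕ)} (hne : c ≠ []) (h : view c = View.bad) :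
    ∃ (x : α) (a : ℕ) (us : List α), minLen c < a ∧ us ≠ [] ∧
      ((x, a) :: us.map (fun y => (y, minLen c))) ~r c := by
  have hcopy := h
  unfold view at h
  dsimp only at h
  split_ifs at h with hall
  have h1 : ∃ p ∈ c, p.2 ≠ minLen c := by
    by_contra hcon
    push Not at hcon
    apply hall
    rw [List.all_eq_true]
    intro p hp
    simpa using hcon p hp
  have h2 : ∃ p ∈ c, p.2 = minLen c := minLen_mem c hne
  obtain ⟨x, a, y, L, hn, hat⟩ := normRot_spec (minLen c) c h1 h2
  have hrot : normRot (minLen c) c ~r c := by
    rw [normRot_eq]; exact List.IsRotated.symm ⟨_, rfl⟩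
  rw [hn] at h hrot
  dsimp only at h
  split at h
  · rename_i hD
    rw [List.dropWhile_eq_nil_iff] at hD
    refine ⟨x, a, ((y, minLen c) :: L).map Prod.fst, ?_, by simp, ?_⟩
    · exact lt_of_le_of_ne (minLen_le c (x, a) (hrot.mem_iff.1 List.mem_cons_self)) (Ne.symm hat)
    · have : ((y, minLen c) :: L).map (fun p => (p.1, minLen c)) = (y, minLen c) :: L := by
        conv_rhs => rw [← List.map_id ((y, minLen c) :: L)]
        apply List.map_congr_left
        intro p hp
        have h6 : p.2 = minLen c := by simpa using hD p hp
        exact Prod.ext rfl h6.symm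
      rw [List.map_map]
      have h5 : ((fun y => (y, minLen c)) ∘ Prod.fst : α × ℕ → α × ℕ) =
        (fun p => (p.1, minLen c)) := rfl
      rw [h5, this]
      exact hrot
  · simp at h

/-- the collapse preserves the sum -/
theorem sum_of_algGood (target : ℤ) (k : ℕ) :
    ∀ (c : List (ℤ × ℕ)), algGood target k c → (c.map Prod.fst).sum = target := by
  induction k with
  | zero => intro c h; exact h.elim
  | succ k ih =>
    intro c h
    unfold algGood at h
    cases hv : view c with
    | done => rw [hv] at h; exact h
    | bad => rw [hv] at h; exact h.elim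
    | red x a us t u b rest =>
      rw [hv] at h
      dsimp only at h
      have hp := (view_red_perm hv).map Prod.fst
      rw [← hp.sum_eq]
      have hus : (List.map Prod.fst (List.map (fun y => (y, t)) us)) = us := by
        rw [List.map_map]
        exact List.map_id us
      simp only [List.map_cons, List.map_append, List.sum_cons, List.sum_append, hus]
      split_ifs at h with hpar
      · have := ih _ h.2
        simp only [List.map_cons, List.sum_cons] at this
        linarith [h.1]
      · have := ih _ h.2
        simp only [List.map_cons, List.sum_cons] at this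
        linarith

/-! ### zips -/

/-- reduction of words -/
abbrev RW : List ℕ → List ℕ → Prop := Relation.ReflTransGen ZipStep

theorem RW.rot {w w' : List ℕ} (h : w ~r w') : RW w w' := Relation.ReflTransGen.single
  (ZipStep.rot _ _ h)

/-- zip inside a word -/
theorem RW.zip_mid (P : List ℕ) (A B : ℕ) (Q : List ℕ) (h : 2 ≤ A + B) :
    RW (P ++ A :: 0 :: B :: Q) (P ++ (A + B - 2) :: Q) := by
  refine (RW.rot (List.isRotated_append)).trans ?_
  refine Relation.ReflTransGen.head (ZipStep.zip A B (Q ++ P) h) ?_
  refine RW.rot ?_
  have : (A + B - 2) :: (Q ++ P) = ((A + B - 2) :: Q) ++ P := rfl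
  rw [this]
  exact List.isRotated_append

/-- zip ones around a valley -/
theorem RW.ones (P Q : List ℕ) (n i j : ℕ) :
    RW (P ++ List.replicate (n + i) 1 ++ 0 :: (List.replicate (n + j) 1 ++ Q))
      (P ++ List.replicate i 1 ++ 0 :: (List.replicate j 1 ++ Q)) := by
  induction n with
  | zero => simp only [Nat.zero_add]; exact Relation.ReflTransGen.refl
  | succ n ih =>
    refine Relation.ReflTransGen.trans ?_ ih
    have e1 : List.replicate (n + 1 + i) 1 = List.replicate (n + i) 1 ++ [1] := by
      rw [show n + 1 + i = (n + i) + 1 by ring, List.replicate_succ']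
    have e2 : List.replicate (n + 1 + j) 1 = 1 :: List.replicate (n + j) 1 := by
      rw [show n + 1 + j = (n + j) + 1 by ring, List.replicate_succ]
    have := RW.zip_mid (P ++ List.replicate (n + i) 1) 1 1 (List.replicate (n + j) 1 ++ Q) (by norm_num)
    rw [e1, e2]
    simpa using this

/-- crimp with the valley first -/
theorem RW.crimp_valley (P Q : List ℕ) (A p t q : ℕ) (ht : 1 ≤ t) (htp : t ≤ p) (hq : 1 ≤ q) :
    RW (P ++ A :: (List.replicate (p - 1) 1 ++ 0 :: (List.replicate (t - 1) 1 ++ 2 ::
        (List.replicate (q - 1) 1 ++ Q))))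
      (P ++ A :: (List.replicate (p + q - t - 1) 1 ++ Q)) := by
  have h1 := RW.ones (P ++ [A]) (2 :: (List.replicate (q - 1) 1 ++ Q)) (t - 1) (p - t) 0
  have e1 : t - 1 + (p - t) = p - 1 := by omega
  rw [e1, Nat.add_zero] at h1
  simp only [List.replicate_zero, List.nil_append, List.append_assoc, List.singleton_append] at h1
  have h1' : RW (P ++ A :: (List.replicate (p - 1) 1 ++ 0 :: (List.replicate (t - 1) 1 ++ 2 ::
      (List.replicate (q - 1) 1 ++ Q))))
      (P ++ A :: (List.replicate (p - t) 1 ++ 0 :: 2 :: (List.replicate (q - 1) 1 ++ Q))) := by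
    simpa using h1
  refine h1'.trans ?_
  rcases Nat.eq_zero_or_pos (p - t) with h0 | h0
  · rw [h0]
    have h2 := RW.zip_mid P A 2 (List.replicate (q - 1) 1 ++ Q) (by omega)
    have e2 : p + q - t - 1 = q - 1 := by omega
    rw [e2]
    simpa using h2
  · have e3 : List.replicate (p - t) 1 = List.replicate (p - t - 1) 1 ++ [1] := by
      conv_lhs => rw [show p - t = (p - t - 1) + 1 by omega]
      rw [List.replicate_succ']
    have h2 := RW.zip_mid (P ++ A :: List.replicate (p - t - 1) 1) 1 2
      (List.replicate (q - 1) 1 ++ Q) (by omega)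
    have e4 : List.replicate (p + q - t - 1) 1 = List.replicate (p - t - 1) 1 ++ 1 ::
        List.replicate (q - 1) 1 := by
      rw [← List.replicate_succ, ← List.replicate_add]
      congr 1
      omega
    rw [e3, e4]
    simpa using h2

/-- crimp with the mountain first -/
theorem RW.crimp_mountain (P Q : List ℕ) (B p t q : ℕ) (ht : 1 ≤ t) (htq : t ≤ q) (hp : 1 ≤ p) :
    RW (P ++ (List.replicate (p - 1) 1 ++ 2 :: (List.replicate (t - 1) 1 ++ 0 ::
        (List.replicate (q - 1) 1 ++ B :: Q))))
      (P ++ (List.replicate (p + q - t - 1) 1 ++ B :: Q)) := by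
  have h1 := RW.ones (P ++ List.replicate (p - 1) 1 ++ [2]) (B :: Q) (t - 1) 0 (q - t)
  have e1 : t - 1 + (q - t) = q - 1 := by omega
  rw [e1, Nat.add_zero] at h1
  have h1' : RW (P ++ (List.replicate (p - 1) 1 ++ 2 :: (List.replicate (t - 1) 1 ++ 0 ::
        (List.replicate (q - 1) 1 ++ B :: Q))))
      (P ++ (List.replicate (p - 1) 1 ++ 2 :: 0 :: (List.replicate (q - t) 1 ++ B :: Q))) := by
    simpa using h1
  refine h1'.trans ?_
  rcases Nat.eq_zero_or_pos (q - t) with h0 | h0
  · rw [h0]
    have h2 := RW.zip_mid (P ++ List.replicate (p - 1) 1) 2 B Q (by omega)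
    have e2 : p + q - t - 1 = p - 1 := by omega
    rw [e2]
    simpa using h2
  · have e3 : List.replicate (q - t) 1 = 1 :: List.replicate (q - t - 1) 1 := by
      conv_lhs => rw [show q - t = (q - t - 1) + 1 by omega]
      rw [List.replicate_succ]
    have h2 := RW.zip_mid (P ++ List.replicate (p - 1) 1) 2 1
      (List.replicate (q - t - 1) 1 ++ B :: Q) (by omega)
    have e4 : List.replicate (p + q - t - 1) 1 = List.replicate (p - 1) 1 ++ 1 ::
        List.replicate (q - t - 1) 1 := by
      rw [← List.replicate_succ, ← List.replicate_add]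
      congr 1
      omega
    rw [e3, e4]
    simpa using h2

/-- letter of a sign -/
def ltr (s : ℤ) : ℕ := (s + 1).toNat

theorem unitWord_cons (s : ℤ) (l : ℕ) (c : List (ℤ × ℕ)) :
    unitWord ((s, l) :: c) = ltr s :: (List.replicate (l - 1) 1 ++ unitWord c) := rfl

theorem unitWord_append (c d : List (ℤ × ℕ)) :
    unitWord (c ++ d) = unitWord c ++ unitWord d := by
  unfold unitWord; rw [List.flatMap_append]

theorem unitWord_rot {c d : List (ℤ × ℕ)} (h : c ~r d) : unitWord c ~r unitWord d := by
  obtain ⟨n, rfl⟩ := h
  have h1 : c.rotate n = c.rotate (n % c.length) := (List.rotate_mod c n).symm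
  rw [h1]
  by_cases hl : c = []
  · subst hl; exact List.IsRotated.refl _
  · have hlt : n % c.length ≤ c.length :=
      (Nat.mod_lt _ (List.length_pos_iff.2 hl)).le
    rw [List.rotate_eq_drop_append_take hlt, unitWord_append]
    conv_lhs => rw [← List.take_append_drop (n % c.length) c, unitWord_append]
    exact List.isRotated_append

/-- reduction of cyclic lists -/
def Red (c d : List (ℤ × ℕ)) : Prop := RW (unitWord c) (unitWord d)

theorem Red.refl (c : List (ℤ × ℕ)) : Red c c := Relation.ReflTransGen.refl

theorem Red.trans {c d e : List (ℤ × ℕ)} (h1 : Red c d) (h2 : Red d e) : Red c e :=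
  Relation.ReflTransGen.trans h1 h2

theorem Red.rot {c d : List (ℤ × ℕ)} (h : c ~r d) : Red c d := RW.rot (unitWord_rot h)

/-- the crimp at the front -/
theorem Red.crimp0 (x s : ℤ) (p t q : ℕ) (rest : List (ℤ × ℕ)) (hs : s = 1 ∨ s = -1)
    (ht : 1 ≤ t) (htp : t ≤ p) (htq : t ≤ q) :
    Red ((x, p) :: (s, t) :: (-s, q) :: rest) ((x, p + q - t) :: rest) := by
  rcases hs with rfl | rfl
  · -- mountain first: rotate so that the word ends after B
    unfold Red
    simp only [unitWord_cons]
    have hl1 : ltr 1 = 2 := rfl
    have hl2 : ltr (-1) = 0 := rfl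
    rw [hl1, hl2]
    cases rest with
    | nil =>
      have h := RW.crimp_mountain [] [] (ltr x) p t q ht htq (by omega)
      have e0 : unitWord ([] : List (ℤ × ℕ)) = [] := rfl
      rw [e0]
      simp only [List.nil_append, List.append_nil] at h ⊢
      refine (RW.rot ?_).trans (h.trans (RW.rot ?_))
      · have e1 : ltr x :: (List.replicate (p - 1) 1 ++ 2 :: (List.replicate (t - 1) 1 ++
          0 :: List.replicate (q - 1) 1)) = [ltr x] ++ (List.replicate (p - 1) 1 ++ 2 ::
            (List.replicate (t - 1) 1 ++ 0 :: List.replicate (q - 1) 1)) := rfl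
        have e2 : List.replicate (p - 1) 1 ++ 2 :: (List.replicate (t - 1) 1 ++
          0 :: (List.replicate (q - 1) 1 ++ [ltr x])) = (List.replicate (p - 1) 1 ++ 2 ::
            (List.replicate (t - 1) 1 ++ 0 :: List.replicate (q - 1) 1)) ++ [ltr x] := by simp
        rw [e1, e2]
        exact List.isRotated_append
      · have e1 : ltr x :: List.replicate (p + q - t - 1) 1 =
          [ltr x] ++ List.replicate (p + q - t - 1) 1 := rfl
        rw [e1]
        exact List.isRotated_append
    | cons y rest =>
      obtain ⟨y1, y2⟩ := y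
      rw [unitWord_cons]
      have h := RW.crimp_mountain [ltr x] (List.replicate (y2 - 1) 1 ++ unitWord rest) (ltr y1)
        p t q ht htq (by omega)
      simpa using h
  · unfold Red
    simp only [unitWord_cons]
    have hl1 : ltr (-1) = 0 := rfl
    have hl2 : ltr (-(-1)) = 2 := rfl
    rw [hl1, hl2]
    have h := RW.crimp_valley [] (unitWord rest) (ltr x) p t q ht htp (by omega)
    simpa using h

/-- the crimp anywhere -/
theorem Red.crimp (P : List (ℤ × ℕ)) (x s : ℤ) (p t q : ℕ) (rest : List (ℤ × ℕ))
    (hs : s = 1 ∨ s = -1) (ht : 1 ≤ t) (htp : t ≤ p) (htq : t ≤ q) :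
    Red (P ++ (x, p) :: (s, t) :: (-s, q) :: rest) (P ++ (x, p + q - t) :: rest) := by
  refine (Red.rot List.isRotated_append).trans ?_
  refine (Red.crimp0 x s p t q (rest ++ P) hs ht htp htq).trans ?_
  apply Red.rot
  have : (x, p + q - t) :: (rest ++ P) = ((x, p + q - t) :: rest) ++ P := rfl
  rw [this]
  exact List.isRotated_append

theorem abs_sum_le : ∀ (l : List ℤ), (∀ s ∈ l, s = 1 ∨ s = -1) → |l.sum| ≤ l.length := by
  intro l
  induction l with
  | nil => intro _; simp
  | cons a l ih =>
    intro h
    have h1 := ih (fun s hs => h s (List.mem_cons_of_mem _ hs))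
    have h2 := h a List.mem_cons_self
    simp only [List.sum_cons, List.length_cons]
    push_cast
    rw [abs_le] at h1 ⊢
    rcases h2 with h2 | h2 <;> rw [h2] <;> constructor <;> linarith [h1.1, h1.2]

/-- adjacent opposite signs -/
theorem exists_opp : ∀ (l : List ℤ), (∀ s ∈ l, s = 1 ∨ s = -1) → |l.sum| < l.length →
    ∃ P s Q, l = P ++ s :: (-s) :: Q := by
  intro l
  induction l with
  | nil => intro _ h; simp at h
  | cons a l ih =>
    intro hs hlt
    cases l with
    | nil =>
      exfalso
      rcases hs a List.mem_cons_self with rfl | rfl <;> simp at hlt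
    | cons b l =>
      by_cases hab : b = -a
      · exact ⟨[], a, l, by rw [hab]; rfl⟩
      · have hab' : b = a := by
          rcases hs a List.mem_cons_self with ha | ha <;>
          rcases hs b (by simp) with hb | hb <;> rw [ha, hb] at hab ⊢ <;> simp at hab
        obtain ⟨P, s, Q, hPQ⟩ := ih (fun s h => hs s (List.mem_cons_of_mem _ h)) (by
          subst hab'
          have hl := abs_sum_le l (fun s h => hs s (by simp [h]))
          rw [abs_le] at hl
          rcases hs b List.mem_cons_self with rfl | rfl
          · simp only [List.sum_cons, List.length_cons, abs_lt] at hlt ⊢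
            push_cast at hlt ⊢
            constructor <;> linarith [hlt.1, hlt.2, hl.1, hl.2]
          · simp only [List.sum_cons, List.length_cons, abs_lt] at hlt ⊢
            push_cast at hlt ⊢
            constructor <;> linarith [hlt.1, hlt.2, hl.1, hl.2])
        exact ⟨a :: P, s, Q, by rw [hPQ]; rfl⟩

/-- the collapse of a run -/
theorem Red.run (x : ℤ) (a t b : ℕ) (rest : List (ℤ × ℕ)) (ht : 1 ≤ t) (hta : t ≤ a)
    (htb : t ≤ b) : ∀ (n : ℕ) (us : List ℤ) (u : ℤ), us.length = n →
      (∀ s ∈ us, s = 1 ∨ s = -1) → (u = 1 ∨ u = -1) → |us.sum + u| ≤ 1 →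
      ((us.length + 1) % 2 = 0 → Red ((x, a) :: (us.map (fun y => (y, t)) ++ (u, b) :: rest))
        ((x, a + b - t) :: rest)) ∧
      ((us.length + 1) % 2 = 1 → Red ((x, a) :: (us.map (fun y => (y, t)) ++ (u, b) :: rest))
        ((x, a) :: (us.sum + u, b) :: rest)) := by
  intro n
  induction n using Nat.strong_induction_on with
  | _ n IH =>
    intro us u hn hs hu hsum
    rcases Nat.eq_zero_or_pos n with h0 | h0
    · have : us = [] := List.length_eq_zero_iff.1 (hn.trans h0)
      subst this
      refine ⟨by simp, fun _ => ?_⟩
      simp only [List.map_nil, List.nil_append, List.sum_nil, zero_add]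
      exact Red.refl _
    · have hlt : |(us ++ [u]).sum| < (us ++ [u]).length := by
        rw [List.sum_append, List.length_append]
        simp only [List.sum_cons, List.sum_nil, add_zero, List.length_cons, List.length_nil]
        push_cast
        have : (0 : ℤ) < us.length := by rw [hn]; exact_mod_cast h0
        linarith
      obtain ⟨P, s, Q, hPQ⟩ := exists_opp (us ++ [u]) (by
        intro s h
        rw [List.mem_append, List.mem_singleton] at h
        rcases h with h | rfl
        · exact hs s h
        · exact hu) hlt
      have hsmem : s = 1 ∨ s = -1 := by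
        have : s ∈ us ++ [u] := by rw [hPQ]; simp
        rw [List.mem_append, List.mem_singleton] at this
        rcases this with h | rfl
        · exact hs s h
        · exact hu
      rcases List.eq_nil_or_concat Q with hQ | ⟨Q', v, hQ⟩
      · -- the pair is at the end
        subst hQ
        have h1 : us ++ [u] = (P ++ [s]) ++ [-s] := by rw [hPQ]; simp
        have h2 := List.append_inj' h1 rfl
        obtain ⟨hus, hus2⟩ := h2
        have hus2' : u = -s := by simpa using hus2
        subst hus2'
        subst hus
        rcases List.eq_nil_or_concat P with hP | ⟨P', p, hP⟩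
        · subst hP
          refine ⟨fun _ => ?_, fun h => by simp at h⟩
          exact Red.crimp0 x s a t b rest hsmem ht hta htb
        · rw [List.concat_eq_append] at hP
          subst hP
          have hstep : Red ((x, a) :: (((P' ++ [p]) ++ [s]).map (fun y => (y, t)) ++
              (-s, b) :: rest)) ((x, a) :: (P'.map (fun y => (y, t)) ++ (p, b) :: rest)) := by
            have := Red.crimp ((x, a) :: P'.map (fun y => (y, t))) p s t t b rest hsmem ht le_rfl htb
            rw [Nat.add_sub_cancel_left] at this
            simpa using this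
          have hih := IH P'.length (by
            rw [← hn]; simp only [List.length_append, List.length_cons, List.length_nil]; omega)
            P' p rfl (by intro s' h; apply hs; simp [h])
            (by apply hs; simp) (by
              have : (((P' ++ [p]) ++ [s]).sum + -s) = P'.sum + p := by
                simp only [List.sum_append, List.sum_cons, List.sum_nil]; ring
              rw [this] at hsum
              exact hsum)
          constructor
          · intro hpar
            refine hstep.trans (hih.1 ?_)
            simp only [List.length_append, List.length_cons, List.length_nil] at hpar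
            omega
          · intro hpar
            refine hstep.trans ?_
            have h3 := hih.2 (by
              simp only [List.length_append, List.length_cons, List.length_nil] at hpar
              omega)
            have : (((P' ++ [p]) ++ [s]).sum + -s) = P'.sum + p := by
              simp only [List.sum_append, List.sum_cons, List.sum_nil]; ring
            rw [this]
            exact h3
      · rw [List.concat_eq_append] at hQ
        subst hQ
        have h1 : us ++ [u] = (P ++ s :: (-s) :: Q') ++ [v] := by rw [hPQ]; simp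
        have h2 := List.append_inj' h1 rfl
        obtain ⟨hus, hus2⟩ := h2
        have hus2' : u = v := by simpa using hus2
        subst hus2'
        subst hus
        have hsumeq : (P ++ s :: (-s) :: Q').sum = (P ++ Q').sum := by
          simp only [List.sum_append, List.sum_cons]; ring
        have hleneq : (P ++ s :: (-s) :: Q').length = (P ++ Q').length + 2 := by
          simp only [List.length_append, List.length_cons]; ring
        have hih := IH (P ++ Q').length (by rw [← hn, hleneq]; omega) (P ++ Q') u rfl (by
          intro s' h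
          apply hs
          rw [List.mem_append] at h
          rw [List.mem_append]
          rcases h with h | h
          · exact Or.inl h
          · exact Or.inr (by simp [h])) hu (by rw [← hsumeq]; exact hsum)
        have hstep : Red ((x, a) :: ((P ++ s :: (-s) :: Q').map (fun y => (y, t)) ++
            (u, b) :: rest)) ((x, a) :: ((P ++ Q').map (fun y => (y, t)) ++ (u, b) :: rest)) := by
          rcases List.eq_nil_or_concat P with hP | ⟨P', p, hP⟩
          · subst hP
            have := Red.crimp0 x s a t t (Q'.map (fun y => (y, t)) ++ (u, b) :: rest) hsmem ht hta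
              le_rfl
            rw [Nat.add_sub_cancel] at this
            simpa using this
          · rw [List.concat_eq_append] at hP
            subst hP
            have := Red.crimp ((x, a) :: P'.map (fun y => (y, t))) p s t t t
              (Q'.map (fun y => (y, t)) ++ (u, b) :: rest) hsmem ht le_rfl le_rfl
            rw [Nat.add_sub_cancel] at this
            simpa using this
        constructor
        · intro hpar
          refine hstep.trans (hih.1 ?_)
          rw [hleneq] at hpar; omega
        · intro hpar
          refine hstep.trans ?_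
          rw [hsumeq]
          apply hih.2
          rw [hleneq] at hpar; omega

/-- all edges are equal: reduce to two corners -/
theorem Red.allEqual (t : ℕ) (ht : 1 ≤ t) : ∀ (n : ℕ) (c : List (ℤ × ℕ)) (σ : ℤ),
    c.length = n → (σ = 1 ∨ σ = -1) → (∀ p ∈ c, p.2 = t) → (∀ p ∈ c, p.1 = 1 ∨ p.1 = -1) →
    (c.map Prod.fst).sum = 2 * σ → Red c [(σ, t), (σ, t)] := by
  intro n
  induction n using Nat.strong_induction_on with
  | _ n IH =>
    intro c σ hn hσ hct hcs hsum
    -- parity and size
    have habs : |(c.map Prod.fst).sum| = 2 := by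
      rw [hsum]; rcases hσ with rfl | rfl <;> norm_num
    have hpar : ∀ l : List (ℤ × ℕ), (∀ p ∈ l, p.1 = 1 ∨ p.1 = -1) →
        ((l.map Prod.fst).sum - l.length) % 2 = 0 ∧ |(l.map Prod.fst).sum| ≤ l.length := by
      intro l
      induction l with
      | nil => intro _; simp
      | cons p l ih =>
        intro h
        have h1 := ih (fun q hq => h q (List.mem_cons_of_mem _ hq))
        have h2 := h p List.mem_cons_self
        simp only [List.map_cons, List.sum_cons, List.length_cons]
        push_cast
        rw [abs_le] at h1 ⊢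
        rcases h2 with h2 | h2 <;> rw [h2] <;> omega
    have hp := hpar c hcs
    rw [habs] at hp
    by_cases h2 : c.length = 2
    · -- two corners
      match c, h2 with
      | [p, q], _ =>
        obtain ⟨p1, p2⟩ := p
        obtain ⟨q1, q2⟩ := q
        have e1 : p2 = t := hct (p1, p2) (by simp)
        have e2 : q2 = t := hct (q1, q2) (by simp)
        have f1 := hcs (p1, p2) (by simp)
        have f2 := hcs (q1, q2) (by simp)
        simp only [List.map_cons, List.map_nil, List.sum_cons, List.sum_nil] at hsum
        dsimp only at f1 f2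
        have g1 : p1 = σ := by
          rcases hσ with rfl | rfl <;> rcases f1 with rfl | rfl <;> rcases f2 with rfl | rfl <;>
            simp at hsum ⊢
        have g2 : q1 = σ := by
          rcases hσ with rfl | rfl <;> rcases f1 with rfl | rfl <;> rcases f2 with rfl | rfl <;>
            simp at hsum ⊢
        rw [e1, e2, g1, g2]
        exact Red.refl _
    · have hlen3 : 3 ≤ c.length := by
        have h3 := hp.2
        have h4 := hp.1
        have h5 : (2 : ℤ) ≤ c.length := h3
        have h6 : 2 ≤ c.length := by exact_mod_cast h5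
        omega
      -- an opposite pair
      obtain ⟨P, s, Q, hPQ⟩ := exists_opp (c.map Prod.fst) (by
        intro s hs
        obtain ⟨p, hp, rfl⟩ := List.mem_map.1 hs
        exact hcs p hp) (by
        rw [habs, List.length_map]
        exact_mod_cast hlen3)
      -- lift to c
      obtain ⟨cP, cR, hcPR, hcP, hcR⟩ := List.map_eq_append_iff.1 hPQ
      obtain ⟨p, cR', hcR', hps, hcR2⟩ := List.map_eq_cons_iff.1 hcR
      obtain ⟨q, cQ, hcQ', hqs, hcQ⟩ := List.map_eq_cons_iff.1 hcR2
      subst hcPR hcR' hcQ'
      obtain ⟨p1, p2⟩ := p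
      obtain ⟨q1, q2⟩ := q
      have e1 : p2 = t := hct (p1, p2) (by simp)
      have e2 : q2 = t := hct (q1, q2) (by simp)
      dsimp only at hps hqs
      subst hps
      subst e1
      have hsm : p1 = 1 ∨ p1 = -1 := hcs (p1, p2) (by simp)
      -- the rest is nonempty
      have hne : cQ ++ cP ≠ [] := by
        intro h
        have := congrArg List.length h
        simp only [List.length_append, List.length_cons, List.length_nil] at this hlen3
        omega
      obtain ⟨R, z, hRz⟩ : ∃ R z, cQ ++ cP = R ++ [z] := by
        rcases List.eq_nil_or_concat (cQ ++ cP) with h | ⟨R, z, h⟩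
        · exact absurd h hne
        · exact ⟨R, z, by rw [h, List.concat_eq_append]⟩
      obtain ⟨z1, z2⟩ := z
      have hzmem : (z1, z2) ∈ cP ++ (p1, p2) :: (q1, q2) :: cQ := by
        have : (z1, z2) ∈ cQ ++ cP := by rw [hRz]; simp
        rw [List.mem_append] at this
        simp only [List.mem_append, List.mem_cons]
        tauto
      have e3 : z2 = p2 := hct _ hzmem
      have hrot1 : cP ++ (p1, p2) :: (q1, q2) :: cQ ~r (z1, z2) :: (p1, p2) :: (q1, q2) :: R := by
        have h1 : cP ++ (p1, p2) :: (q1, q2) :: cQ ~r (p1, p2) :: (q1, q2) :: cQ ++ cP :=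
          List.isRotated_append
        have h2 : (p1, p2) :: (q1, q2) :: cQ ++ cP = ((p1, p2) :: (q1, q2) :: R) ++ [(z1, z2)] := by
          rw [List.cons_append, List.cons_append, hRz]; rfl
        rw [h2] at h1
        exact h1.trans List.isRotated_append
      have hrot2 : (z1, z2) :: R ~r cQ ++ cP := by
        rw [hRz]
        have : (z1, z2) :: R = [(z1, z2)] ++ R := rfl
        rw [this]
        exact List.isRotated_append
      have hred : Red (cP ++ (p1, p2) :: (q1, q2) :: cQ) (cQ ++ cP) := by
        refine (Red.rot hrot1).trans (Red.trans ?_ (Red.rot hrot2))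
        rw [e3, hqs, e2]
        have := Red.crimp0 z1 p1 p2 p2 p2 R hsm ht le_rfl le_rfl
        rwa [Nat.add_sub_cancel] at this
      refine hred.trans (IH (cQ ++ cP).length ?_ (cQ ++ cP) σ rfl hσ ?_ ?_ ?_)
      · rw [← hn]
        simp only [List.length_append, List.length_cons]
        omega
      · intro w hw
        apply hct
        rw [List.mem_append] at hw
        simp only [List.mem_append, List.mem_cons]
        tauto
      · intro w hw
        apply hcs
        rw [List.mem_append] at hw
        simp only [List.mem_append, List.mem_cons]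
        tauto
      · rw [← hsum]
        simp only [List.map_append, List.map_cons, List.sum_append, List.sum_cons]
        rw [hqs]
        ring

/-- all collapses are reductions; at the end there are two equal corners -/
theorem Red.of_algGood (σ : ℤ) (hσ : σ = 1 ∨ σ = -1) (k : ℕ) : ∀ (c : List (ℤ × ℕ)),
    (∀ p ∈ c, 0 < p.2) → (∀ p ∈ c, p.1 = 1 ∨ p.1 = -1) → c ≠ [] → algGood (2 * σ) k c →
    ∃ t, 1 ≤ t ∧ Red c [(σ, t), (σ, t)] := by
  induction k with
  | zero => intro c _ _ _ h; exact h.elim
  | succ k ih =>
    intro c hpos hs hne h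
    unfold algGood at h
    cases hv : view c with
    | done =>
      rw [hv] at h
      have h1 := view_done_spec hv
      obtain ⟨p, hp⟩ := List.exists_mem_of_ne_nil c hne
      have ht : 1 ≤ minLen c := by
        rw [← h1 p hp]; exact hpos p hp
      exact ⟨minLen c, ht, Red.allEqual (minLen c) ht _ c σ rfl hσ h1 hs h⟩
    | bad => rw [hv] at h; exact h.elim
    | red x a us t u b rest =>
      rw [hv] at h
      dsimp only at h
      obtain ⟨hta, htb, husne, hle, hrot⟩ := view_red_spec hv
      have hmem : ∀ p, p ∈ (x, a) :: (us.map (fun y => (y, t)) ++ (u, b) :: rest) → p ∈ c :=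
        fun p hp => hrot.mem_iff.1 hp
      have hus : ∀ s ∈ us, s = 1 ∨ s = -1 := by
        intro s hs'
        exact hs (s, t) (hmem _ (by simp [hs']))
      have hu : u = 1 ∨ u = -1 := hs (u, b) (hmem _ (by simp))
      have hx : x = 1 ∨ x = -1 := hs (x, a) (hmem _ (by simp))
      obtain ⟨s0, hs0⟩ := List.exists_mem_of_ne_nil us husne
      have ht : 1 ≤ t := hpos (s0, t) (hmem _ (by simp [hs0]))
      have hrestpos : ∀ p ∈ rest, 0 < p.2 := fun p hp => hpos p (hmem _ (by simp [hp]))
      have hrests : ∀ p ∈ rest, p.1 = 1 ∨ p.1 = -1 := fun p hp => hs p (hmem _ (by simp [hp]))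
      have hrun := Red.run x a t b rest ht hta.le htb.le us.length us u rfl hus hu
      split_ifs at h with hpar
      · have h1 := (hrun (by rw [h.1]; norm_num)).1 hpar
        obtain ⟨t', ht', hred⟩ := ih ((x, a + b - t) :: rest) (by
          intro p hp
          rcases List.mem_cons.1 hp with rfl | hp
          · dsimp only; omega
          · exact hrestpos p hp) (by
          intro p hp
          rcases List.mem_cons.1 hp with rfl | hp
          · exact hx
          · exact hrests p hp) (by simp) h.2
        exact ⟨t', ht', (Red.rot hrot.symm).trans (h1.trans hred)⟩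
      · have hpar' : (us.length + 1) % 2 = 1 := by omega
        have h1 := (hrun (by rw [h.1])).2 hpar'
        obtain ⟨t', ht', hred⟩ := ih ((x, a) :: (us.sum + u, b) :: rest) (by
          intro p hp
          rcases List.mem_cons.1 hp with rfl | hp
          · dsimp only; omega
          · rcases List.mem_cons.1 hp with rfl | hp
            · dsimp only; omega
            · exact hrestpos p hp) (by
          intro p hp
          rcases List.mem_cons.1 hp with rfl | hp
          · exact hx
          · rcases List.mem_cons.1 hp with rfl | hp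
            · have := h.1
              dsimp only
              rcases abs_eq (by norm_num : (0 : ℤ) ≤ 1) |>.1 this with h3 | h3
              · exact Or.inl h3
              · exact Or.inr h3
            · exact hrests p hp) (by simp) h.2
        exact ⟨t', ht', (Red.rot hrot.symm).trans (h1.trans hred)⟩

/-- Module B1, inner faces -/
theorem reduces_of_algGood_inner (c : List (ℤ × ℕ)) (hpos : ∀ p ∈ c, 0 < p.2)
    (hs : ∀ p ∈ c, p.1 = 1 ∨ p.1 = -1) (hne : c ≠ []) (k : ℕ) (h : algGood (-2) k c) :
    Relation.ReflTransGen ZipStep (unitWord c) [0, 0] := by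
  obtain ⟨t, ht, hred⟩ := Red.of_algGood (-1) (Or.inr rfl) k c hpos hs hne h
  refine Relation.ReflTransGen.trans hred ?_
  have e : unitWord [((-1 : ℤ), t), (-1, t)] =
      0 :: (List.replicate (t - 1) 1 ++ 0 :: List.replicate (t - 1) 1) := by
    rw [unitWord_cons, unitWord_cons]
    have e0 : unitWord ([] : List (ℤ × ℕ)) = [] := rfl
    rw [e0, List.append_nil]
    rfl
  rw [e]
  have h1 := RW.ones [0] [] (t - 1) 0 0
  simpa using h1

/-- Module B1, outer face -/
theorem reduces_of_algGood_outer (c : List (ℤ × ℕ)) (hpos : ∀ p ∈ c, 0 < p.2)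
    (hs : ∀ p ∈ c, p.1 = 1 ∨ p.1 = -1) (hne : c ≠ []) (k : ℕ) (h : algGood 2 k c) :
    ∃ w, Relation.ReflTransGen ZipStep (unitWord c) w ∧ ∀ x ∈ w, 1 ≤ x := by
  obtain ⟨t, ht, hred⟩ := Red.of_algGood 1 (Or.inl rfl) k c hpos hs hne h
  refine ⟨_, hred, ?_⟩
  intro x hx
  rw [unitWord_cons, unitWord_cons] at hx
  have e0 : unitWord ([] : List (ℤ × ℕ)) = [] := rfl
  rw [e0, List.append_nil] at hx
  simp only [List.mem_cons, List.mem_append, List.mem_replicate] at hx
  have e1 : ltr 1 = 2 := rfl
  rw [e1] at hx
  omega

end Pool.Agent.FlatFold
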