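import Mathlib
import Pool.Agent.Lib.MP_b92007_lc.CycReduce

/-! The window condition is preserved by the collapse of a run of shortest edges. -/

set_option linter.unusedSectionVars false
set_option linter.unusedVariables false

namespace Pool.Agent.FlatFold

/-- sign of a direction -/
def dsg (d : Bool) : ℤ := if d then 1 else -1

theorem dsg_not (d : Bool) : dsg (!d) = - dsg d := by cases d <;> rfl

/-- height at the end -/
def hE (h : ℤ) : Bool → List ℕ → ℤ
  | _, [] => h
  | d, l :: ls => hE (h + dsg d * l) (!d) ls

/-- direction at the end -/
def dE : Bool → List ℕ → Bool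
  | d, [] => d
  | d, _ :: ls => dE (!d) ls

theorem heights_nil (h : ℤ) (d : Bool) : heights h d [] = [] := by cases d <;> rfl

theorem heights_cons (h : ℤ) (d : Bool) (l : ℕ) (ls : List ℕ) :
    heights h d (l :: ls) = (h + dsg d * l) :: heights (h + dsg d * l) (!d) ls := by
  cases d
  · show (h - l) :: heights (h - l) true ls = _
    have : h + dsg false * l = h - l := by unfold dsg; simp; ring
    rw [this]; rfl
  · show (h + l) :: heights (h + l) false ls = _
    have : h + dsg true * l = h + l := by unfold dsg; simp
    rw [this]; rfl

theorem hE_nil (h : ℤ) (d : Bool) : hE h d [] = h := rfl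

theorem hE_cons (h : ℤ) (d : Bool) (l : ℕ) (ls : List ℕ) :
    hE h d (l :: ls) = hE (h + dsg d * l) (!d) ls := rfl

theorem dE_cons (d : Bool) (l : ℕ) (ls : List ℕ) : dE d (l :: ls) = dE (!d) ls := rfl

theorem getLastD_heights : ∀ (ls : List ℕ) (h : ℤ) (d : Bool),
    (heights h d ls).getLastD h = hE h d ls := by
  intro ls
  induction ls with
  | nil => intro h d; rw [heights_nil]; rfl
  | cons l ls ih =>
    intro h d
    rw [heights_cons, hE_cons, ← ih, List.getLastD_cons]

theorem heights_append : ∀ (l1 l2 : List ℕ) (h : ℤ) (d : Bool),
    heights h d (l1 ++ l2) = heights h d l1 ++ heights (hE h d l1) (dE d l1) l2 := by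
  intro l1
  induction l1 with
  | nil => intro l2 h d; rw [heights_nil]; rfl
  | cons l l1 ih =>
    intro l2 h d
    rw [List.cons_append, heights_cons, heights_cons, ih]
    rfl

theorem hE_append : ∀ (l1 l2 : List ℕ) (h : ℤ) (d : Bool),
    hE h d (l1 ++ l2) = hE (hE h d l1) (dE d l1) l2 := by
  intro l1
  induction l1 with
  | nil => intro l2 h d; rfl
  | cons l l1 ih =>
    intro l2 h d
    rw [List.cons_append, hE_cons, ih]
    rfl

theorem hE_mem : ∀ (ls : List ℕ) (h : ℤ) (d : Bool), ls ≠ [] → hE h d ls ∈ heights h d ls := by
  intro ls
  induction ls with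
  | nil => intro h d hne; exact absurd rfl hne
  | cons l ls ih =>
    intro h d _
    rw [heights_cons, hE_cons]
    by_cases hls : ls = []
    · subst hls; rw [hE_nil]; simp
    · exact List.mem_cons_of_mem _ (ih _ _ hls)

theorem heights_translate : ∀ (ls : List ℕ) (h δ : ℤ) (d : Bool),
    heights (h + δ) d ls = (heights h d ls).map (fun z => z + δ) := by
  intro ls
  induction ls with
  | nil => intro h δ d; rw [heights_nil, heights_nil]; rfl
  | cons l ls ih =>
    intro h δ d
    rw [heights_cons, heights_cons, List.map_cons]
    have : h + δ + dsg d * l = (h + dsg d * l) + δ := by ring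
    rw [this, ih]

theorem hE_translate : ∀ (ls : List ℕ) (h δ : ℤ) (d : Bool),
    hE (h + δ) d ls = hE h d ls + δ := by
  intro ls
  induction ls with
  | nil => intro h δ d; rfl
  | cons l ls ih =>
    intro h δ d
    rw [hE_cons, hE_cons]
    have : h + δ + dsg d * l = (h + dsg d * l) + δ := by ring
    rw [this, ih]

theorem hE_replicate (t : ℕ) : ∀ (k : ℕ) (h : ℤ) (d : Bool),
    hE h d (List.replicate k t) = h + (if k % 2 = 0 then 0 else dsg d * t) ∧
      dE d (List.replicate k t) = (if k % 2 = 0 then d else !d) := by
  intro k
  induction k with
  | zero => intro h d; simp [hE_nil, dE]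
  | succ k ih =>
    intro h d
    rw [List.replicate_succ, hE_cons, dE_cons, (ih _ _).1, (ih (h + dsg d * t) _).2, dsg_not]
    rcases Nat.mod_two_eq_zero_or_one k with hk | hk
    · have : (k + 1) % 2 = 1 := by omega
      rw [hk, this]
      simp
    · have : (k + 1) % 2 = 0 := by omega
      rw [hk, this]
      simp

theorem heights_replicate (t : ℕ) : ∀ (k : ℕ) (h : ℤ) (d : Bool),
    ∀ z ∈ heights h d (List.replicate k t), z = h ∨ z = h + dsg d * t := by
  intro k
  induction k with
  | zero => intro h d z hz; rw [List.replicate_zero, heights_nil] at hz; simp at hz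
  | succ k ih =>
    intro h d z hz
    rw [List.replicate_succ, heights_cons, List.mem_cons] at hz
    rcases hz with hz | hz
    · exact Or.inr hz
    · rcases ih _ _ z hz with h1 | h1
      · exact Or.inr h1
      · left; rw [h1, dsg_not]; ring

/-- the heights along the first edge and the run -/
theorem heights_run (a t k : ℕ) (h : ℤ) (d : Bool) :
    ∀ z ∈ heights h d (a :: List.replicate k t),
      z = h + dsg d * a ∨ z = h + dsg d * (a - t) := by
  intro z hz
  rw [heights_cons, List.mem_cons] at hz
  rcases hz with hz | hz
  · exact Or.inl hz
  · rcases heights_replicate t k _ _ z hz with h1 | h1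
    · exact Or.inl h1
    · right; rw [h1, dsg_not]; ring

theorem heights_odd_run (a t b k : ℕ) (ls : List ℕ) (h : ℤ) (d : Bool) (hk : k % 2 = 1)
    (htb : t ≤ b) : heights h d (a :: (List.replicate k t ++ b :: ls)) =
      heights h d (a :: List.replicate k t) ++ heights h d ((a + b - t) :: ls) := by
  have e0 : a :: (List.replicate k t ++ b :: ls) = (a :: List.replicate k t) ++ b :: ls := rfl
  rw [e0, heights_append]
  congr 1
  rw [hE_cons, dE_cons, (hE_replicate t k _ _).1, (hE_replicate t k (h + dsg d * a) _).2, hk]
  simp only [one_ne_zero, if_false, Bool.not_not]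
  rw [heights_cons, heights_cons]
  have : h + dsg d * a + dsg (!d) * t + dsg d * b = h + dsg d * ((a + b - t : ℕ) : ℤ) := by
    rw [dsg_not]
    push_cast [Nat.cast_sub (show t ≤ a + b by omega)]
    ring
  rw [this]

theorem hE_odd_run (a t b k : ℕ) (ls : List ℕ) (h : ℤ) (d : Bool) (hk : k % 2 = 1)
    (htb : t ≤ b) : hE h d (a :: (List.replicate k t ++ b :: ls)) =
      hE h d ((a + b - t) :: ls) := by
  have e0 : a :: (List.replicate k t ++ b :: ls) = (a :: List.replicate k t) ++ b :: ls := rfl
  rw [e0, hE_append, hE_cons h d a (List.replicate k t), dE_cons, (hE_replicate t k _ _).1,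
    (hE_replicate t k (h + dsg d * a) _).2, hk]
  simp only [one_ne_zero, if_false, Bool.not_not]
  rw [hE_cons, hE_cons]
  have : h + dsg d * a + dsg (!d) * t + dsg d * b = h + dsg d * ((a + b - t : ℕ) : ℤ) := by
    rw [dsg_not]
    push_cast [Nat.cast_sub (show t ≤ a + b by omega)]
    ring
  rw [this]

theorem heights_even_run (a t b k : ℕ) (ls : List ℕ) (h : ℤ) (d : Bool) (hk : k % 2 = 0) :
    heights h d (a :: (List.replicate k t ++ b :: ls)) =
      heights h d (a :: List.replicate k t) ++ heights (h + dsg d * a) (!d) (b :: ls) := by
  have e0 : a :: (List.replicate k t ++ b :: ls) = (a :: List.replicate k t) ++ b :: ls := rfl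
  rw [e0, heights_append]
  congr 1
  rw [hE_cons, dE_cons, (hE_replicate t k _ _).1, (hE_replicate t k (h + dsg d * a) _).2, hk]
  simp

theorem hE_even_run (a t b k : ℕ) (ls : List ℕ) (h : ℤ) (d : Bool) (hk : k % 2 = 0) :
    hE h d (a :: (List.replicate k t ++ b :: ls)) = hE h d (a :: b :: ls) := by
  have e0 : a :: (List.replicate k t ++ b :: ls) = (a :: List.replicate k t) ++ b :: ls := rfl
  rw [e0, hE_append, hE_cons h d a (List.replicate k t), dE_cons, (hE_replicate t k _ _).1,
    (hE_replicate t k (h + dsg d * a) _).2, hk, hE_cons h d a (b :: ls)]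
  simp

/-- the window condition, with the last element separated -/
def WC' (c : List (ℤ × ℕ)) : Prop :=
  ∀ (s0 : ℤ) (l0 : ℕ) (mi : List (ℤ × ℕ)) (sl : ℤ) (ll : ℕ) (r : List (ℤ × ℕ)),
    ((s0, l0) :: (mi ++ (sl, ll) :: r)) ~r c →
    (∀ h ∈ heights 0 true (l0 :: mi.map Prod.snd), 0 < h) →
    ((∀ h ∈ heights 0 true (l0 :: mi.map Prod.snd),
        h < hE 0 true (l0 :: (mi.map Prod.snd ++ [ll]))) → (mi.map Prod.fst).sum + sl = 0) ∧
    ((∀ h ∈ heights 0 true (l0 :: mi.map Prod.snd),
        hE 0 true (l0 :: (mi.map Prod.snd ++ [ll])) < h) → |(mi.map Prod.fst).sum + sl| = 1)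

theorem WC.toWC' {c : List (ℤ × ℕ)} (h : WC c) : WC' c := by
  intro s0 l0 mi sl ll r hrot hpos
  have h1 := h s0 l0 (mi ++ [(sl, ll)]) r (by simpa using hrot) (by simp)
  have e1 : (mi ++ [(sl, ll)]).dropLast = mi := List.dropLast_concat
  rw [e1] at h1
  have h2 := h1 hpos
  have e2 : (heights 0 true (l0 :: (mi ++ [(sl, ll)]).map Prod.snd)).getLastD 0 =
      hE 0 true (l0 :: (mi.map Prod.snd ++ [ll])) := by
    rw [getLastD_heights, List.map_append]; rfl
  rw [e2] at h2
  simpa using h2

theorem split_of_isRotated {α : Type} {l : List α} {z : α} {rest : List α}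
    (h : l ~r (z :: rest)) : ∃ X Y, l = X ++ z :: Y ∧ rest = Y ++ X := by
  obtain ⟨n, hn⟩ := h.symm
  have h1 : (z :: rest).rotate n = (z :: rest).rotate (n % (z :: rest).length) :=
    (List.rotate_mod _ n).symm
  have hlt : n % (z :: rest).length ≤ (z :: rest).length :=
    (Nat.mod_lt _ (by simp)).le
  rw [h1, List.rotate_eq_drop_append_take hlt] at hn
  cases hm : n % (z :: rest).length with
  | zero =>
    rw [hm] at hn
    simp only [List.drop_zero, List.take_zero, List.append_nil] at hn
    exact ⟨[], rest, by rw [← hn]; rfl, by simp⟩
  | succ m =>
    rw [hm] at hn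
    simp only [List.drop_succ_cons, List.take_succ_cons] at hn
    exact ⟨rest.drop m, rest.take m, hn.symm, (List.take_append_drop m rest).symm⟩

theorem rot_insert {α : Type} {c P X Y : List α} (hc : c ~r P ++ (Y ++ X)) :
    X ++ (P ++ Y) ~r c := by
  have h1 : X ++ (P ++ Y) ~r (P ++ Y) ++ X := List.isRotated_append
  rw [List.append_assoc] at h1
  exact h1.trans hc.symm

theorem map_snd_run (us : List ℤ) (t : ℕ) :
    (us.map (fun y => (y, t))).map Prod.snd = List.replicate us.length t := by
  rw [List.map_map]
  induction us with
  | nil => rfl
  | cons y us ih => rw [List.map_cons, ih]; rfl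

theorem map_fst_run (us : List ℤ) (t : ℕ) :
    (us.map (fun y => (y, t))).map Prod.fst = us := by
  rw [List.map_map]; exact List.map_id us

theorem WC'.even {c : List (ℤ × ℕ)} (hW : WC' c) (x : ℤ) (a : ℕ) (us : List ℤ) (t : ℕ) (u : ℤ)
    (b : ℕ) (rest : List (ℤ × ℕ))
    (hc : ((x, a) :: (us.map (fun y => (y, t)) ++ (u, b) :: rest)) ~r c)
    (hta : t < a) (htb : t < b) (hk : us.length % 2 = 1) (hsum : us.sum + u = 0) :
    WC' ((x, a + b - t) :: rest) := by
  intro s0 l0 mi sl ll r hrot hpos
  obtain ⟨X, Y, hl, hrest⟩ := split_of_isRotated hrot
  subst hrest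
  have hc' : c ~r ((x, a) :: (us.map (fun y => (y, t)) ++ [(u, b)])) ++ (Y ++ X) := by
    have : ((x, a) :: (us.map (fun y => (y, t)) ++ [(u, b)])) ++ (Y ++ X) =
      (x, a) :: (us.map (fun y => (y, t)) ++ (u, b) :: (Y ++ X)) := by simp
    rw [this]; exact hc.symm
  have hins := rot_insert hc'
  have he1 : ((a + b - t : ℕ) : ℤ) = a + b - t := by
    push_cast [Nat.cast_sub (show t ≤ a + b by omega)]; ring
  have hta' : (t : ℤ) < a := by exact_mod_cast hta
  have htb' : (t : ℤ) < b := by exact_mod_cast htb
  have ht0 : (0 : ℤ) ≤ t := by positivity
  cases X with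
  | nil =>
    rw [List.nil_append, List.cons.injEq, Prod.mk.injEq] at hl
    obtain ⟨⟨rfl, rfl⟩, hY⟩ := hl
    subst hY
    rw [List.nil_append] at hins
    -- first window
    have hW1 := hW s0 a (us.map (fun y => (y, t)) ++ (u, b) :: mi) sl ll r (by
      simpa using hins)
    -- second window
    have hW2 := hW u b mi sl ll (r ++ (s0, a) :: us.map (fun y => (y, t))) (by
      refine List.IsRotated.trans ?_ hins
      have e1 : (u, b) :: (mi ++ (sl, ll) :: (r ++ (s0, a) :: us.map (fun y => (y, t)))) =
        ((u, b) :: (mi ++ (sl, ll) :: r)) ++ ((s0, a) :: us.map (fun y => (y, t))) := by simp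
      have e2 : ((s0, a) :: (us.map (fun y => (y, t)) ++ [(u, b)])) ++ (mi ++ (sl, ll) :: r) =
        ((s0, a) :: us.map (fun y => (y, t))) ++ ((u, b) :: (mi ++ (sl, ll) :: r)) := by simp
      rw [e1, e2]
      exact List.isRotated_append)
    have m1 : (us.map (fun y => (y, t)) ++ (u, b) :: mi).map Prod.snd =
        List.replicate us.length t ++ b :: mi.map Prod.snd := by
      rw [List.map_append, map_snd_run]; rfl
    have s1 : ((us.map (fun y => (y, t)) ++ (u, b) :: mi).map Prod.fst).sum =
        (mi.map Prod.fst).sum := by
      rw [List.map_append, map_fst_run]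
      simp only [List.map_cons, List.sum_append, List.sum_cons]
      linarith
    have F1 : hE 0 true (a :: ((List.replicate us.length t ++ b :: mi.map Prod.snd) ++ [ll])) =
        hE 0 true ((a + b - t) :: (mi.map Prod.snd ++ [ll])) := by
      have := hE_odd_run a t b us.length (mi.map Prod.snd ++ [ll]) 0 true hk htb.le
      rw [← this]; simp
    rw [m1, s1, F1, heights_odd_run a t b us.length _ 0 true hk htb.le] at hW1
    -- translation
    have T2 : heights 0 true ((a + b - t) :: mi.map Prod.snd) =
        (heights 0 true (b :: mi.map Prod.snd)).map (fun z => z + ((a : ℤ) - t)) := by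
      rw [← heights_translate, heights_cons, heights_cons]
      have : (0 : ℤ) + dsg true * ((a + b - t : ℕ) : ℤ) = 0 + ((a : ℤ) - t) + dsg true * b := by
        rw [he1]; unfold dsg; simp; ring
      rw [this]
    have F2 : hE 0 true ((a + b - t) :: (mi.map Prod.snd ++ [ll])) =
        hE 0 true (b :: (mi.map Prod.snd ++ [ll])) + ((a : ℤ) - t) := by
      rw [← hE_translate, hE_cons, hE_cons]
      have : (0 : ℤ) + dsg true * ((a + b - t : ℕ) : ℤ) = 0 + ((a : ℤ) - t) + dsg true * b := by
        rw [he1]; unfold dsg; simp; ring
      rw [this]
    have hemem : ((a + b - t : ℕ) : ℤ) ∈ heights 0 true ((a + b - t) :: mi.map Prod.snd) := by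
      rw [heights_cons]
      have : (0 : ℤ) + dsg true * ((a + b - t : ℕ) : ℤ) = ((a + b - t : ℕ) : ℤ) := by
        unfold dsg; simp
      rw [this]; simp
    have hZ : ∀ z ∈ heights 0 true (a :: List.replicate us.length t), z = a ∨ z = a - t := by
      intro z hz
      rcases heights_run a t us.length 0 true z hz with h | h
      · left; rw [h]; unfold dsg; simp
      · right; rw [h]; unfold dsg; simp
    constructor
    · intro hlt
      refine (hW1 ?_).1 ?_
      · intro h hh
        rw [List.mem_append] at hh
        rcases hh with hh | hh
        · rcases hZ h hh with h1 | h1 <;> linarith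
        · exact hpos h hh
      · intro h hh
        rw [List.mem_append] at hh
        rcases hh with hh | hh
        · have h3 := hlt _ hemem
          rw [he1] at h3
          rcases hZ h hh with h1 | h1 <;> linarith
        · exact hlt h hh
    · intro hlt
      by_cases hF : hE 0 true ((a + b - t) :: (mi.map Prod.snd ++ [ll])) < a - t
      · refine (hW1 ?_).2 ?_
        · intro h hh
          rw [List.mem_append] at hh
          rcases hh with hh | hh
          · rcases hZ h hh with h1 | h1 <;> linarith
          · exact hpos h hh
        · intro h hh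
          rw [List.mem_append] at hh
          rcases hh with hh | hh
          · rcases hZ h hh with h1 | h1 <;> linarith
          · exact hlt h hh
      · rw [not_lt] at hF
        have hlt2 : ∀ h ∈ heights 0 true (b :: mi.map Prod.snd),
            hE 0 true (b :: (mi.map Prod.snd ++ [ll])) < h := by
          intro h hh
          have h1 : h + ((a : ℤ) - t) ∈ heights 0 true ((a + b - t) :: mi.map Prod.snd) := by
            rw [T2]; exact List.mem_map.2 ⟨h, hh, rfl⟩
          have h2 := hlt _ h1
          rw [F2] at h2
          linarith
        refine (hW2 ?_).2 hlt2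
        intro h hh
        have := hlt2 h hh
        rw [F2] at hF
        linarith
  | cons y X' =>
    rw [List.cons_append, List.cons.injEq] at hl
    obtain ⟨rfl, hl⟩ := hl
    rw [List.append_eq_append_iff] at hl
    have hcaseD : ∀ (hX : X' = mi) (hz : (sl, ll) = (x, a + b - t)) (hY : Y = r),
        ((∀ h ∈ heights 0 true (l0 :: mi.map Prod.snd),
        h < hE 0 true (l0 :: (mi.map Prod.snd ++ [ll]))) → (mi.map Prod.fst).sum + sl = 0) ∧
        ((∀ h ∈ heights 0 true (l0 :: mi.map Prod.snd),
        hE 0 true (l0 :: (mi.map Prod.snd ++ [ll])) < h) →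
          |(mi.map Prod.fst).sum + sl| = 1) := by
      intro hX hz hY
      subst hX
      subst hY
      rw [Prod.mk.injEq] at hz
      obtain ⟨rfl, rfl⟩ := hz
      have hW1 := hW s0 l0 (X' ++ (sl, a) :: us.map (fun y => (y, t))) u b Y (by
        simpa using hins)
      have hW3 := hW s0 l0 X' sl a (us.map (fun y => (y, t)) ++ (u, b) :: Y) (by
        simpa using hins)
      have m1 : (X' ++ (sl, a) :: us.map (fun y => (y, t))).map Prod.snd =
          X'.map Prod.snd ++ a :: List.replicate us.length t := by
        rw [List.map_append, List.map_cons, map_snd_run]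
      have s1 : ((X' ++ (sl, a) :: us.map (fun y => (y, t))).map Prod.fst).sum + u =
          (X'.map Prod.fst).sum + sl := by
        rw [List.map_append, List.map_cons, map_fst_run]
        simp only [List.sum_append, List.sum_cons]
        linarith
      set H := hE 0 true (l0 :: X'.map Prod.snd) with hH
      set D := dE true (l0 :: X'.map Prod.snd) with hD
      have hHmem : H ∈ heights 0 true (l0 :: X'.map Prod.snd) := hE_mem _ _ _ (by simp)
      have hH0 := hpos H hHmem
      have T1 : heights 0 true (l0 :: (X'.map Prod.snd ++ a :: List.replicate us.length t)) =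
          heights 0 true (l0 :: X'.map Prod.snd) ++
            heights H D (a :: List.replicate us.length t) := by
        rw [← List.cons_append, heights_append]
      have F0 : hE 0 true (l0 :: (X'.map Prod.snd ++ [a + b - t])) = H + dsg D * (a + b - t) := by
        rw [← List.cons_append, hE_append, ← hH, ← hD, hE_cons, hE_nil, he1]
      have F1 : hE 0 true (l0 :: ((X'.map Prod.snd ++ a :: List.replicate us.length t) ++ [b])) =
          H + dsg D * (a + b - t) := by
        have e1 : l0 :: ((X'.map Prod.snd ++ a :: List.replicate us.length t) ++ [b]) =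
          (l0 :: X'.map Prod.snd) ++ (a :: (List.replicate us.length t ++ b :: [])) := by simp
        rw [e1, hE_append, ← hH, ← hD, hE_odd_run a t b us.length [] H D hk htb.le, hE_cons,
          hE_nil, he1]
      have F3 : hE 0 true (l0 :: (X'.map Prod.snd ++ [a])) = H + dsg D * a := by
        rw [← List.cons_append, hE_append, ← hH, ← hD, hE_cons, hE_nil]
      have hZ := heights_run a t us.length H D
      rw [m1, s1, T1, F1] at hW1
      rw [F3] at hW3
      rw [F0]
      cases hDD : D
      · rw [hDD] at hW1 hW3 hZ
        have hd : dsg false = -1 := rfl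
        rw [hd] at hW1 hW3 hZ ⊢
        constructor
        · intro hlt
          have := hlt H hHmem
          exfalso; linarith
        · intro hlt
          by_cases hpa : 0 < H - a
          · refine (hW1 ?_).2 ?_
            · intro h hh
              rw [List.mem_append] at hh
              rcases hh with hh | hh
              · exact hpos h hh
              · rcases hZ h hh with h1 | h1 <;> linarith
            · intro h hh
              rw [List.mem_append] at hh
              rcases hh with hh | hh
              · exact hlt h hh
              · rcases hZ h hh with h1 | h1 <;> linarith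
          · refine (hW3 hpos).2 ?_
            intro h hh
            have := hpos h hh
            linarith
      · rw [hDD] at hW1 hW3 hZ
        have hd : dsg true = 1 := rfl
        rw [hd] at hW1 hW3 hZ ⊢
        constructor
        · intro hlt
          refine (hW1 ?_).1 ?_
          · intro h hh
            rw [List.mem_append] at hh
            rcases hh with hh | hh
            · exact hpos h hh
            · rcases hZ h hh with h1 | h1 <;> linarith
          · intro h hh
            rw [List.mem_append] at hh
            rcases hh with hh | hh
            · exact hlt h hh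
            · rcases hZ h hh with h1 | h1 <;> linarith
        · intro hlt
          have := hlt H hHmem
          exfalso; linarith
    rcases hl with ⟨m', h1, h2⟩ | ⟨m', h1, h2⟩
    · cases m' with
      | nil =>
        rw [List.nil_append, List.cons.injEq] at h2
        rw [List.append_nil] at h1
        exact hcaseD h1 h2.1 h2.2.symm
      | cons w m'' =>
        rw [List.cons_append, List.cons.injEq] at h2
        obtain ⟨rfl, h2⟩ := h2
        subst h1
        -- the long edge is outside
        exact hW s0 l0 mi sl ll (m'' ++ (((x, a) :: (us.map (fun y => (y, t)) ++ [(u, b)])) ++ Y))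
          (by simpa using hins) hpos
    · cases m' with
      | nil =>
        rw [List.nil_append, List.cons.injEq] at h2
        rw [List.append_nil] at h1
        exact hcaseD h1.symm h2.1.symm h2.2
      | cons w m'' =>
        rw [List.cons_append, List.cons.injEq] at h2
        obtain ⟨rfl, h2⟩ := h2
        subst h1
        subst h2
        -- the long edge is in the middle
        have hW1 := hW s0 l0 (X' ++ (x, a) :: (us.map (fun y => (y, t)) ++ (u, b) :: m'')) sl ll r
          (by simpa using hins)
        have m0 : (X' ++ (x, a + b - t) :: m'').map Prod.snd =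
            X'.map Prod.snd ++ (a + b - t) :: m''.map Prod.snd := by
          rw [List.map_append]; rfl
        have m1 : (X' ++ (x, a) :: (us.map (fun y => (y, t)) ++ (u, b) :: m'')).map Prod.snd =
            X'.map Prod.snd ++ a :: (List.replicate us.length t ++ b :: m''.map Prod.snd) := by
          rw [List.map_append, List.map_cons, List.map_append, map_snd_run]; rfl
        have s1 : ((X' ++ (x, a) :: (us.map (fun y => (y, t)) ++ (u, b) :: m'')).map
            Prod.fst).sum = ((X' ++ (x, a + b - t) :: m'').map Prod.fst).sum := by
          rw [List.map_append, List.map_cons, List.map_append, map_fst_run]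
          simp only [List.map_append, List.map_cons, List.sum_append, List.sum_cons]
          linarith
        set H := hE 0 true (l0 :: X'.map Prod.snd) with hH
        set D := dE true (l0 :: X'.map Prod.snd) with hD
        have T0 : heights 0 true (l0 :: (X'.map Prod.snd ++ (a + b - t) :: m''.map Prod.snd)) =
            heights 0 true (l0 :: X'.map Prod.snd) ++
              heights H D ((a + b - t) :: m''.map Prod.snd) := by
          rw [← List.cons_append, heights_append]
        have T1 : heights 0 true (l0 :: (X'.map Prod.snd ++ a ::
            (List.replicate us.length t ++ b :: m''.map Prod.snd))) =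
            heights 0 true (l0 :: X'.map Prod.snd) ++
              (heights H D (a :: List.replicate us.length t) ++
              heights H D ((a + b - t) :: m''.map Prod.snd)) := by
          rw [← List.cons_append, heights_append, ← hH, ← hD,
            heights_odd_run a t b us.length _ H D hk htb.le]
        have F1 : hE 0 true (l0 :: ((X'.map Prod.snd ++ a ::
            (List.replicate us.length t ++ b :: m''.map Prod.snd)) ++ [ll])) =
            hE 0 true (l0 :: ((X'.map Prod.snd ++ (a + b - t) :: m''.map Prod.snd) ++ [ll])) := by
          have e1 : l0 :: ((X'.map Prod.snd ++ a ::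
            (List.replicate us.length t ++ b :: m''.map Prod.snd)) ++ [ll]) =
            (l0 :: X'.map Prod.snd) ++ (a :: (List.replicate us.length t ++ b ::
              (m''.map Prod.snd ++ [ll]))) := by simp
          have e2 : l0 :: ((X'.map Prod.snd ++ (a + b - t) :: m''.map Prod.snd) ++ [ll]) =
            (l0 :: X'.map Prod.snd) ++ ((a + b - t) :: (m''.map Prod.snd ++ [ll])) := by simp
          rw [e1, e2, hE_append, hE_append, ← hH, ← hD,
            hE_odd_run a t b us.length _ H D hk htb.le]
        rw [m0] at hpos ⊢
        rw [T0] at hpos ⊢
        rw [m1, s1, T1, F1] at hW1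
        have hHmem : H ∈ heights 0 true (l0 :: X'.map Prod.snd) := hE_mem _ _ _ (by simp)
        have hEmem : H + dsg D * (a + b - t) ∈ heights H D ((a + b - t) :: m''.map Prod.snd) := by
          rw [heights_cons, he1]; simp
        have hZ := heights_run a t us.length H D
        set F := hE 0 true (l0 :: ((X'.map Prod.snd ++ (a + b - t) :: m''.map Prod.snd) ++ [ll]))
          with hF
        have p1 := hpos H (List.mem_append_left _ hHmem)
        have p2 := hpos _ (List.mem_append_right _ hEmem)
        have hZb : ∀ z ∈ heights H D (a :: List.replicate us.length t),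
            (H < z ∧ z < H + dsg D * (a + b - t)) ∨ (H + dsg D * (a + b - t) < z ∧ z < H) := by
          intro z hz
          cases hDD : D
          · have hd : dsg false = -1 := rfl
            right
            rcases hZ z hz with h1 | h1 <;> rw [h1, hDD, hd] <;> constructor <;> linarith
          · have hd : dsg true = 1 := rfl
            left
            rcases hZ z hz with h1 | h1 <;> rw [h1, hDD, hd] <;> constructor <;> linarith
        have hpos1 : ∀ h ∈ heights 0 true (l0 :: X'.map Prod.snd) ++
              (heights H D (a :: List.replicate us.length t) ++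
              heights H D ((a + b - t) :: m''.map Prod.snd)), 0 < h := by
          intro h hh
          rw [List.mem_append, List.mem_append] at hh
          rcases hh with hh | hh | hh
          · exact hpos h (List.mem_append_left _ hh)
          · rcases hZb h hh with h1 | h1 <;> linarith
          · exact hpos h (List.mem_append_right _ hh)
        constructor
        · intro hlt
          refine (hW1 hpos1).1 ?_
          intro h hh
          rw [List.mem_append, List.mem_append] at hh
          have q1 := hlt H (List.mem_append_left _ hHmem)
          have q2 := hlt _ (List.mem_append_right _ hEmem)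
          rcases hh with hh | hh | hh
          · exact hlt h (List.mem_append_left _ hh)
          · rcases hZb h hh with h1 | h1 <;> linarith
          · exact hlt h (List.mem_append_right _ hh)
        · intro hlt
          refine (hW1 hpos1).2 ?_
          intro h hh
          rw [List.mem_append, List.mem_append] at hh
          have q1 := hlt H (List.mem_append_left _ hHmem)
          have q2 := hlt _ (List.mem_append_right _ hEmem)
          rcases hh with hh | hh | hh
          · exact hlt h (List.mem_append_left _ hh)
          · rcases hZb h hh with h1 | h1 <;> linarith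
          · exact hlt h (List.mem_append_right _ hh)

theorem WC'.odd {c : List (ℤ × ℕ)} (hW : WC' c) (x : ℤ) (a : ℕ) (us : List ℤ) (t : ℕ) (u : ℤ)
    (b : ℕ) (rest : List (ℤ × ℕ))
    (hc : ((x, a) :: (us.map (fun y => (y, t)) ++ (u, b) :: rest)) ~r c)
    (hta : t < a) (htb : t < b) (hk : us.length % 2 = 0) :
    WC' ((x, a) :: (us.sum + u, b) :: rest) := by
  intro s0 l0 mi sl ll r hrot hpos
  have hrot' : ((s0, l0) :: (mi ++ (sl, ll) :: r)) ~r ((us.sum + u, b) :: (rest ++ [(x, a)])) := by
    refine hrot.trans ?_
    have e1 : (x, a) :: (us.sum + u, b) :: rest = [(x, a)] ++ ((us.sum + u, b) :: rest) := rfl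
    have e2 : (us.sum + u, b) :: (rest ++ [(x, a)]) = ((us.sum + u, b) :: rest) ++ [(x, a)] := rfl
    rw [e1, e2]
    exact List.isRotated_append
  obtain ⟨X, Y, hl, hrest⟩ := split_of_isRotated hrot'
  have hc' : c ~r (us.map (fun y => (y, t)) ++ [(u, b)]) ++ (Y ++ X) := by
    rw [← hrest]
    refine hc.symm.trans ?_
    have e1 : (x, a) :: (us.map (fun y => (y, t)) ++ (u, b) :: rest) =
      [(x, a)] ++ (us.map (fun y => (y, t)) ++ (u, b) :: rest) := rfl
    have e2 : (us.map (fun y => (y, t)) ++ [(u, b)]) ++ (rest ++ [(x, a)]) =
      (us.map (fun y => (y, t)) ++ (u, b) :: rest) ++ [(x, a)] := by simp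
    rw [e1, e2]
    exact List.isRotated_append
  have hins := rot_insert hc'
  have hta' : (t : ℤ) < a := by exact_mod_cast hta
  have htb' : (t : ℤ) < b := by exact_mod_cast htb
  have ht0 : (0 : ℤ) ≤ t := by positivity
  cases X with
  | nil =>
    rw [List.nil_append, List.cons.injEq, Prod.mk.injEq] at hl
    obtain ⟨⟨rfl, rfl⟩, hY⟩ := hl
    subst hY
    rw [List.nil_append] at hins
    exact hW u l0 mi sl ll (r ++ us.map (fun y => (y, t))) (by
      refine List.IsRotated.trans ?_ hins
      have e1 : (u, l0) :: (mi ++ (sl, ll) :: (r ++ us.map (fun y => (y, t)))) =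
        ((u, l0) :: (mi ++ (sl, ll) :: r)) ++ us.map (fun y => (y, t)) := by simp
      have e2 : us.map (fun y => (y, t)) ++ [(u, l0)] ++ (mi ++ (sl, ll) :: r) =
        us.map (fun y => (y, t)) ++ ((u, l0) :: (mi ++ (sl, ll) :: r)) := by simp
      rw [e1, e2]
      exact List.isRotated_append) hpos
  | cons y X' =>
    rw [List.cons_append, List.cons.injEq] at hl
    obtain ⟨rfl, hl⟩ := hl
    -- the last element of X is (x, a)
    obtain ⟨X0, hX0⟩ : ∃ X0, (s0, l0) :: X' = X0 ++ [(x, a)] := by
      rcases List.eq_nil_or_concat ((s0, l0) :: X') with h | ⟨X0, z, h⟩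
      · simp at h
      · rw [List.concat_eq_append] at h
        rw [h, ← List.append_assoc] at hrest
        have h2 := List.append_inj' hrest rfl
        have h3 : (x, a) = z := by simpa using h2.2
        exact ⟨X0, by rw [h, h3]⟩
    have hX0s : l0 :: X'.map Prod.snd = X0.map Prod.snd ++ [a] := by
      have := congrArg (List.map Prod.snd) hX0
      simpa using this
    set H := hE 0 true (X0.map Prod.snd) with hH
    set D := dE true (X0.map Prod.snd) with hD
    rw [List.append_eq_append_iff] at hl
    have hcaseD : ∀ (hX : X' = mi) (hz : (sl, ll) = (us.sum + u, b)) (hY : Y = r),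
        ((∀ h ∈ heights 0 true (l0 :: mi.map Prod.snd),
        h < hE 0 true (l0 :: (mi.map Prod.snd ++ [ll]))) → (mi.map Prod.fst).sum + sl = 0) ∧
        ((∀ h ∈ heights 0 true (l0 :: mi.map Prod.snd),
        hE 0 true (l0 :: (mi.map Prod.snd ++ [ll])) < h) →
          |(mi.map Prod.fst).sum + sl| = 1) := by
      intro hX hz hY
      subst hX
      subst hY
      rw [Prod.mk.injEq] at hz
      obtain ⟨rfl, rfl⟩ := hz
      have hW1 := hW s0 l0 (X' ++ us.map (fun y => (y, t))) u ll Y (by simpa using hins)
      have m1 : l0 :: (X' ++ us.map (fun y => (y, t))).map Prod.snd =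
          X0.map Prod.snd ++ (a :: List.replicate us.length t) := by
        rw [List.map_append, map_snd_run, ← List.cons_append, hX0s]; simp
      have m2 : l0 :: ((X' ++ us.map (fun y => (y, t))).map Prod.snd ++ [ll]) =
          X0.map Prod.snd ++ (a :: (List.replicate us.length t ++ ll :: [])) := by
        rw [← List.cons_append, m1]; simp
      have s1 : ((X' ++ us.map (fun y => (y, t))).map Prod.fst).sum + u =
          (X'.map Prod.fst).sum + (us.sum + u) := by
        rw [List.map_append, map_fst_run, List.sum_append]; ring
      have T0 : heights 0 true (l0 :: X'.map Prod.snd) =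
          heights 0 true (X0.map Prod.snd) ++ [H + dsg D * a] := by
        rw [hX0s, heights_append, ← hH, ← hD, heights_cons, heights_nil]
      have F0 : hE 0 true (l0 :: (X'.map Prod.snd ++ [ll])) = H + dsg D * a - dsg D * ll := by
        rw [← List.cons_append, hX0s, List.append_assoc, hE_append, ← hH, ← hD]
        show hE H D (a :: ll :: []) = _
        rw [hE_cons, hE_cons, hE_nil, dsg_not]; ring
      have F1 : hE 0 true (X0.map Prod.snd ++ (a :: (List.replicate us.length t ++ ll :: []))) =
          H + dsg D * a - dsg D * ll := by
        rw [hE_append, ← hH, ← hD, hE_even_run a t ll us.length [] H D hk, hE_cons, hE_cons,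
          hE_nil, dsg_not]
        ring
      have hZ := heights_run a t us.length H D
      rw [m1, m2, s1, heights_append, ← hH, ← hD, F1] at hW1
      rw [T0] at hpos ⊢
      rw [F0]
      have hlastmem : H + dsg D * a ∈ heights 0 true (X0.map Prod.snd) ++ [H + dsg D * a] := by
        simp
      have p1 := hpos _ hlastmem
      have hH0 : 0 ≤ H := by
        by_cases hne : X0.map Prod.snd = []
        · rw [hH, hne, hE_nil]
        · exact (hpos H (List.mem_append_left _ (hE_mem _ _ _ hne))).le
      cases hDD : D
      · have hd : dsg false = -1 := rfl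
        rw [hDD, hd] at hW1 hZ hpos p1
        rw [hDD, hd] at hlastmem
        rw [hd]
        constructor
        · intro hlt
          refine (hW1 ?_).1 ?_
          · intro h hh
            rw [List.mem_append] at hh
            rcases hh with hh | hh
            · exact hpos h (List.mem_append_left _ hh)
            · rcases hZ h hh with h1 | h1 <;> linarith
          · intro h hh
            rw [List.mem_append] at hh
            rcases hh with hh | hh
            · exact hlt h (List.mem_append_left _ hh)
            · have := hlt _ hlastmem
              rcases hZ h hh with h1 | h1 <;> linarith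
        · intro hlt
          have := hlt _ hlastmem
          exfalso; linarith
      · have hd : dsg true = 1 := rfl
        rw [hDD, hd] at hW1 hZ hpos p1
        rw [hDD, hd] at hlastmem
        rw [hd]
        constructor
        · intro hlt
          have := hlt _ hlastmem
          exfalso; linarith
        · intro hlt
          refine (hW1 ?_).2 ?_
          · intro h hh
            rw [List.mem_append] at hh
            rcases hh with hh | hh
            · exact hpos h (List.mem_append_left _ hh)
            · rcases hZ h hh with h1 | h1 <;> linarith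
          · intro h hh
            rw [List.mem_append] at hh
            rcases hh with hh | hh
            · exact hlt h (List.mem_append_left _ hh)
            · rcases hZ h hh with h1 | h1 <;> linarith
    rcases hl with ⟨m', h1, h2⟩ | ⟨m', h1, h2⟩
    · cases m' with
      | nil =>
        rw [List.nil_append, List.cons.injEq] at h2
        rw [List.append_nil] at h1
        exact hcaseD h1 h2.1 h2.2.symm
      | cons w m'' =>
        rw [List.cons_append, List.cons.injEq] at h2
        obtain ⟨rfl, h2⟩ := h2
        subst h1
        exact hW s0 l0 mi sl ll (m'' ++ ((us.map (fun y => (y, t)) ++ [(u, b)]) ++ Y))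
          (by simpa using hins) hpos
    · cases m' with
      | nil =>
        rw [List.nil_append, List.cons.injEq] at h2
        rw [List.append_nil] at h1
        exact hcaseD h1.symm h2.1.symm h2.2
      | cons w m'' =>
        rw [List.cons_append, List.cons.injEq] at h2
        obtain ⟨rfl, h2⟩ := h2
        subst h1
        subst h2
        have hW1 := hW s0 l0 (X' ++ (us.map (fun y => (y, t)) ++ (u, b) :: m'')) sl ll r
          (by simpa using hins)
        have m0 : l0 :: (X' ++ (us.sum + u, b) :: m'').map Prod.snd =
            X0.map Prod.snd ++ (a :: b :: m''.map Prod.snd) := by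
          rw [List.map_append, ← List.cons_append, hX0s]; simp
        have m0' : l0 :: ((X' ++ (us.sum + u, b) :: m'').map Prod.snd ++ [ll]) =
            X0.map Prod.snd ++ (a :: b :: (m''.map Prod.snd ++ [ll])) := by
          rw [← List.cons_append, m0]; simp
        have m1 : l0 :: (X' ++ (us.map (fun y => (y, t)) ++ (u, b) :: m'')).map Prod.snd =
            X0.map Prod.snd ++ (a :: (List.replicate us.length t ++ b :: m''.map Prod.snd)) := by
          rw [List.map_append, ← List.cons_append, hX0s, List.map_append, map_snd_run]; simp
        have m1' : l0 :: ((X' ++ (us.map (fun y => (y, t)) ++ (u, b) :: m'')).map Prod.snd ++ [ll])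
            = X0.map Prod.snd ++ (a :: (List.replicate us.length t ++ b ::
              (m''.map Prod.snd ++ [ll]))) := by
          rw [← List.cons_append, m1]; simp
        have s1 : ((X' ++ (us.map (fun y => (y, t)) ++ (u, b) :: m'')).map Prod.fst).sum =
            ((X' ++ (us.sum + u, b) :: m'').map Prod.fst).sum := by
          rw [List.map_append, List.map_append, map_fst_run]
          simp only [List.map_append, List.map_cons, List.sum_append, List.sum_cons]
          ring
        have F1 : hE 0 true (X0.map Prod.snd ++ (a :: (List.replicate us.length t ++ b ::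
            (m''.map Prod.snd ++ [ll])))) =
            hE 0 true (X0.map Prod.snd ++ (a :: b :: (m''.map Prod.snd ++ [ll]))) := by
          rw [hE_append, hE_append, ← hH, ← hD, hE_even_run a t b us.length _ H D hk]
        have T0 : heights 0 true (X0.map Prod.snd ++ (a :: b :: m''.map Prod.snd)) =
            heights 0 true (X0.map Prod.snd) ++ ((H + dsg D * a) ::
              heights (H + dsg D * a) (!D) (b :: m''.map Prod.snd)) := by
          rw [heights_append, ← hH, ← hD, heights_cons]
        have T1 : heights 0 true (X0.map Prod.snd ++ (a :: (List.replicate us.length t ++ b ::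
            m''.map Prod.snd))) = heights 0 true (X0.map Prod.snd) ++
            (heights H D (a :: List.replicate us.length t) ++
              heights (H + dsg D * a) (!D) (b :: m''.map Prod.snd)) := by
          rw [heights_append, ← hH, ← hD, heights_even_run a t b us.length _ H D hk]
        rw [m1, m1', s1, F1, T1] at hW1
        rw [m0, T0] at hpos
        rw [m0, m0', T0]
        set F := hE 0 true (X0.map Prod.snd ++ (a :: b :: (m''.map Prod.snd ++ [ll]))) with hF
        have hm1 : H + dsg D * a ∈ heights 0 true (X0.map Prod.snd) ++ ((H + dsg D * a) ::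
              heights (H + dsg D * a) (!D) (b :: m''.map Prod.snd)) := by simp
        have hm2 : H + dsg D * a - dsg D * b ∈ heights 0 true (X0.map Prod.snd) ++
            ((H + dsg D * a) :: heights (H + dsg D * a) (!D) (b :: m''.map Prod.snd)) := by
          rw [heights_cons, dsg_not]
          have : H + dsg D * a - dsg D * b = H + dsg D * a + -dsg D * b := by ring
          rw [this]; simp
        have hZ := heights_run a t us.length H D
        have hZb : ∀ z ∈ heights H D (a :: List.replicate us.length t), z = H + dsg D * a ∨
            (H + dsg D * a < z ∧ z < H + dsg D * a - dsg D * b) ∨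
            (H + dsg D * a - dsg D * b < z ∧ z < H + dsg D * a) := by
          intro z hz
          rcases hZ z hz with h1 | h1
          · exact Or.inl h1
          · rcases ht0.eq_or_lt with ht1 | ht1
            · left; rw [h1, ← ht1]; ring
            right
            cases hDD : D
            · have hd : dsg false = -1 := rfl
              left
              rw [h1, hDD, hd]; constructor <;> linarith
            · have hd : dsg true = 1 := rfl
              right
              rw [h1, hDD, hd]; constructor <;> linarith
        have p1 := hpos _ hm1
        have p2 := hpos _ hm2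
        have hpos1 : ∀ h ∈ heights 0 true (X0.map Prod.snd) ++
            (heights H D (a :: List.replicate us.length t) ++
              heights (H + dsg D * a) (!D) (b :: m''.map Prod.snd)), 0 < h := by
          intro h hh
          rw [List.mem_append, List.mem_append] at hh
          rcases hh with hh | hh | hh
          · exact hpos h (List.mem_append_left _ hh)
          · rcases hZb h hh with h1 | h1 | h1 <;> linarith
          · exact hpos h (List.mem_append_right _ (List.mem_cons_of_mem _ hh))
        constructor
        · intro hlt
          refine (hW1 hpos1).1 ?_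
          intro h hh
          rw [List.mem_append, List.mem_append] at hh
          have q1 := hlt _ hm1
          have q2 := hlt _ hm2
          rcases hh with hh | hh | hh
          · exact hlt h (List.mem_append_left _ hh)
          · rcases hZb h hh with h1 | h1 | h1 <;> linarith
          · exact hlt h (List.mem_append_right _ (List.mem_cons_of_mem _ hh))
        · intro hlt
          refine (hW1 hpos1).2 ?_
          intro h hh
          rw [List.mem_append, List.mem_append] at hh
          have q1 := hlt _ hm1
          have q2 := hlt _ hm2
          rcases hh with hh | hh | hh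
          · exact hlt h (List.mem_append_left _ hh)
          · rcases hZb h hh with h1 | h1 | h1 <;> linarith
          · exact hlt h (List.mem_append_right _ (List.mem_cons_of_mem _ hh))

/-- alternating sum -/
def alt : List ℕ → ℤ
  | [] => 0
  | l :: ls => l - alt ls

theorem hE_alt : ∀ (ls : List ℕ) (h : ℤ) (d : Bool), hE h d ls = h + dsg d * alt ls := by
  intro ls
  induction ls with
  | nil => intro h d; rw [hE_nil]; unfold alt; ring
  | cons l ls ih =>
    intro h d
    rw [hE_cons, ih, dsg_not]
    show _ = h + dsg d * ((l : ℤ) - alt ls)
    ring

theorem alt_append : ∀ (l1 l2 : List ℕ), alt (l1 ++ l2) = alt l1 + (-1) ^ l1.length * alt l2 := by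
  intro l1
  induction l1 with
  | nil => intro l2; show alt l2 = 0 + _; simp
  | cons l l1 ih =>
    intro l2
    show (l : ℤ) - alt (l1 ++ l2) = ((l : ℤ) - alt l1) + _
    rw [ih, List.length_cons, pow_succ]
    ring

theorem balanced_iff (c : List (ℤ × ℕ)) : Balanced c ↔
    c.length % 2 = 0 ∧ alt (c.map Prod.snd) = 0 := by
  unfold Balanced
  rw [getLastD_heights, hE_alt]
  simp [dsg]

theorem alt_rot {l l' : List ℕ} (h : l ~r l') (hl : l.length % 2 = 0) (h0 : alt l = 0) :
    alt l' = 0 := by
  obtain ⟨n, rfl⟩ := h
  have h1 : l.rotate n = l.rotate (n % l.length) := (List.rotate_mod l n).symm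
  rw [h1]
  by_cases hne : l = []
  · subst hne; rfl
  · have hlt : n % l.length ≤ l.length :=
      (Nat.mod_lt _ (List.length_pos_iff.2 hne)).le
    rw [List.rotate_eq_drop_append_take hlt]
    set m := n % l.length with hm
    have h2 : alt (l.take m ++ l.drop m) = 0 := by rw [List.take_append_drop]; exact h0
    rw [alt_append] at h2 ⊢
    rw [List.length_take, Nat.min_eq_left hlt] at h2
    rw [List.length_drop]
    have h3 : ((-1 : ℤ)) ^ (l.length - m) = (-1) ^ m := by
      rcases Nat.even_or_odd m with he | ho
      · rw [he.neg_one_pow, Even.neg_one_pow]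
        rw [Nat.even_iff] at he ⊢
        omega
      · rw [ho.neg_one_pow, Odd.neg_one_pow]
        rw [Nat.odd_iff] at ho ⊢
        omega
    rw [h3]
    rcases neg_one_pow_eq_or ℤ m with h4 | h4 <;> rw [h4] at h2 ⊢ <;> linarith

theorem alt_replicate (t : ℕ) : ∀ k : ℕ, alt (List.replicate k t) = if k % 2 = 0 then 0 else t := by
  intro k
  induction k with
  | zero => rfl
  | succ k ih =>
    rw [List.replicate_succ]
    show (t : ℤ) - alt (List.replicate k t) = _
    rw [ih]
    rcases Nat.mod_two_eq_zero_or_one k with hk | hk
    · have : (k + 1) % 2 = 1 := by omega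
      rw [hk, this]; simp
    · have : (k + 1) % 2 = 0 := by omega
      rw [hk, this]; simp

/-- Module A2 -/
theorem algGood_of_WC' (target : ℤ) (k : ℕ) : ∀ (c : List (ℤ × ℕ)), (∀ p ∈ c, 0 < p.2) →
    (∀ p ∈ c, p.1 = 1 ∨ p.1 = -1) → c ≠ [] → c.length % 2 = 0 → alt (c.map Prod.snd) = 0 →
    WC' c → (c.map Prod.fst).sum = target → c.length ≤ k → algGood target k c := by
  induction k with
  | zero =>
    intro c _ _ hne _ _ _ _ hlen
    exact absurd (List.length_eq_zero_iff.1 (Nat.le_zero.1 hlen)) hne
  | succ k ih =>
    intro c hpos hs hne hpar halt hW hsum hlen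
    unfold algGood
    cases hv : view c with
    | done => exact hsum
    | bad =>
      obtain ⟨x, a, us, hta, husne, hrot⟩ := view_bad_spec hne hv
      exfalso
      have h1 := hrot.perm.length_eq
      rw [List.length_cons, List.length_map] at h1
      have h2 := alt_rot (List.IsRotated.map hrot.symm Prod.snd) (by rwa [List.length_map]) halt
      rw [List.map_cons, map_snd_run] at h2
      have h3 : (a : ℤ) - alt (List.replicate us.length (minLen c)) = 0 := h2
      have h4 : us.length % 2 = 1 := by omega
      rw [alt_replicate, if_neg (by omega)] at h3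
      have : (minLen c : ℤ) < a := by exact_mod_cast hta
      linarith
    | red x a us t u b rest =>
      dsimp only
      obtain ⟨hta, htb, husne, hle, hrot⟩ := view_red_spec hv
      have hta' : (t : ℤ) < a := by exact_mod_cast hta
      have htb' : (t : ℤ) < b := by exact_mod_cast htb
      have hmem : ∀ p, p ∈ (x, a) :: (us.map (fun y => (y, t)) ++ (u, b) :: rest) → p ∈ c :=
        fun p hp => hrot.mem_iff.1 hp
      have hus : ∀ s ∈ us, s = 1 ∨ s = -1 := by
        intro s hs'
        exact hs (s, t) (hmem _ (by simp [hs']))
      have hx : x = 1 ∨ x = -1 := hs (x, a) (hmem _ (by simp))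
      have hrestpos : ∀ p ∈ rest, 0 < p.2 := fun p hp => hpos p (hmem _ (by simp [hp]))
      have hrests : ∀ p ∈ rest, p.1 = 1 ∨ p.1 = -1 := fun p hp => hs p (hmem _ (by simp [hp]))
      have hlen1 := hrot.perm.length_eq
      rw [List.length_cons, List.length_append, List.length_map, List.length_cons] at hlen1
      have hus1 : 1 ≤ us.length := List.length_pos_iff.2 husne
      have halt1 := alt_rot (List.IsRotated.map hrot.symm Prod.snd) (by rwa [List.length_map]) halt
      rw [List.map_cons, List.map_append, map_snd_run, List.map_cons] at halt1
      have halt2 : (a : ℤ) - alt (List.replicate us.length t ++ b :: rest.map Prod.snd) = 0 := halt1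
      rw [alt_append, alt_replicate, List.length_replicate] at halt2
      have halt3 : alt (b :: rest.map Prod.snd) = b - alt (rest.map Prod.snd) := rfl
      rw [halt3] at halt2
      have hsum1 := (hrot.perm.map Prod.fst).sum_eq
      rw [hsum, List.map_cons, List.map_append, map_fst_run, List.map_cons, List.sum_cons,
        List.sum_append, List.sum_cons] at hsum1
      -- the window of the run
      have hwin := hW x a (us.map (fun y => (y, t))) u b rest hrot
      rw [map_snd_run, map_fst_run] at hwin
      have hZ : ∀ z ∈ heights 0 true (a :: List.replicate us.length t), z = a ∨ z = a - t := by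
        intro z hz
        rcases heights_run a t us.length 0 true z hz with h | h
        · left; rw [h]; unfold dsg; simp
        · right; rw [h]; unfold dsg; simp
      have hwin1 := hwin (by
        intro h hh
        have : (0 : ℤ) ≤ t := by positivity
        rcases hZ h hh with h1 | h1 <;> linarith)
      have ht0 : (0 : ℤ) ≤ t := by positivity
      split_ifs with hpar2
      · have hk : us.length % 2 = 1 := by omega
        have hF : hE 0 true (a :: (List.replicate us.length t ++ [b])) = a + b - t := by
          rw [hE_odd_run a t b us.length [] 0 true hk htb.le, hE_cons, hE_nil]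
          push_cast [Nat.cast_sub (show t ≤ a + b by omega)]
          unfold dsg; simp
        rw [hF] at hwin1
        have hS : us.sum + u = 0 := hwin1.1 (by
          intro h hh
          rcases hZ h hh with h1 | h1 <;> linarith)
        refine ⟨hS, ih _ ?_ ?_ (by simp) ?_ ?_ ?_ ?_ ?_⟩
        · intro p hp
          rcases List.mem_cons.1 hp with rfl | hp
          · dsimp only; omega
          · exact hrestpos p hp
        · intro p hp
          rcases List.mem_cons.1 hp with rfl | hp
          · exact hx
          · exact hrests p hp
        · rw [List.length_cons]; omega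
        · rw [if_neg (by omega), (Nat.odd_iff.2 hk).neg_one_pow] at halt2
          show ((a + b - t : ℕ) : ℤ) - alt (rest.map Prod.snd) = 0
          push_cast [Nat.cast_sub (show t ≤ a + b by omega)]
          linarith
        · exact WC'.even hW x a us t u b rest hrot hta htb hk hS
        · rw [List.map_cons, List.sum_cons]
          linarith
        · rw [List.length_cons]; omega
      · have hk : us.length % 2 = 0 := by omega
        have hF : hE 0 true (a :: (List.replicate us.length t ++ [b])) = a - b := by
          rw [hE_even_run a t b us.length [] 0 true hk, hE_cons, hE_cons, hE_nil, dsg_not]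
          unfold dsg; simp; ring
        rw [hF] at hwin1
        have hS : |us.sum + u| = 1 := hwin1.2 (by
          intro h hh
          rcases hZ h hh with h1 | h1 <;> linarith)
        refine ⟨hS, ih _ ?_ ?_ (by simp) ?_ ?_ ?_ ?_ ?_⟩
        · intro p hp
          rcases List.mem_cons.1 hp with rfl | hp
          · dsimp only; omega
          · rcases List.mem_cons.1 hp with rfl | hp
            · dsimp only; omega
            · exact hrestpos p hp
        · intro p hp
          rcases List.mem_cons.1 hp with rfl | hp
          · exact hx
          · rcases List.mem_cons.1 hp with rfl | hp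
            · rcases abs_eq (by norm_num : (0 : ℤ) ≤ 1) |>.1 hS with h3 | h3
              · exact Or.inl h3
              · exact Or.inr h3
            · exact hrests p hp
        · rw [List.length_cons, List.length_cons]; omega
        · rw [if_pos hk, (Nat.even_iff.2 hk).neg_one_pow] at halt2
          show (a : ℤ) - ((b : ℤ) - alt (rest.map Prod.snd)) = 0
          simp only [Nat.cast_zero] at halt2
          linarith
        · exact WC'.odd hW x a us t u b rest hrot hta htb hk
        · rw [List.map_cons, List.map_cons, List.sum_cons, List.sum_cons]
          linarith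
        · rw [List.length_cons, List.length_cons]; omega

/-- Module A2 -/
theorem algGood_of_WC (target : ℤ) (c : List (ℤ × ℕ)) (hpos : ∀ p ∈ c, 0 < p.2)
    (hs : ∀ p ∈ c, p.1 = 1 ∨ p.1 = -1) (hne : c ≠ [])
    (hb : Balanced c) (hw : WC c) (ht : (c.map Prod.fst).sum = target) (k : ℕ)
    (hk : c.length ≤ k) : algGood target k c := by
  rw [balanced_iff] at hb
  exact algGood_of_WC' target k c hpos hs hne hb.1 hb.2 hw.toWC' ht hk

end Pool.Agent.FlatFold
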