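import Mathlib

/-!
Definitions for the flat folding problem of plane graphs (problem MP_b92007_lc).
-/

open Real

namespace Pool.Agent.FlatFold

/-- A connected graph on the vertices `0, ..., n-1` with a combinatorial embedding.
`nbr v` lists the neighbours of `v` in counterclockwise order, `len` gives the prescribed
positive integer edge lengths, and the outer face is the one to the left of the directed
edge `outer`. -/
structure PlaneGraph where
  /-- number of vertices -/
  n : ℕ
  /-- neighbours in counterclockwise order -/
  nbr : Fin n → List (Fin n)
  /-- edge lengths -/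
  len : Fin n → Fin n → ℕ
  /-- a directed edge with the outer face on its left -/
  outer : Fin n × Fin n
  nodup : ∀ v, (nbr v).Nodup
  irrefl : ∀ v, v ∉ nbr v
  symm : ∀ u v, v ∈ nbr u → u ∈ nbr v
  connected : ∀ u v, Relation.ReflTransGen (fun a b => b ∈ nbr a) u v
  len_pos : ∀ u v, v ∈ nbr u → 0 < len u v
  len_symm : ∀ u v, v ∈ nbr u → len u v = len v u
  outer_mem : outer.2 ∈ nbr outer.1

namespace PlaneGraph

variable (G : PlaneGraph)

/-- Rotation: the directed edge `(v, w)` is sent to `(v, w')` where `w'` is the neighbour of `v`
that follows `w` in counterclockwise order around `v`. -/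
def rot : Equiv.Perm (Fin G.n × Fin G.n) :=
  Equiv.prodCongrRight (fun v => (G.nbr v).formPerm)

/-- The next directed edge along the boundary walk of the face to the left: the directed edge
`(u, v)` is sent to `(v, w)` where `u` follows `w` in counterclockwise order around `v`. -/
def faceNext : Equiv.Perm (Fin G.n × Fin G.n) :=
  (Equiv.prodComm _ _).trans G.rot.symm

/-- `p`, with the directions `θ` of the edges, is a straight-line drawing of `G` in the complex
plane which realises the embedding of `G`, has all vertices within `ε` of the real line, all edge
lengths within `ε` of the prescribed ones and all angles within `ε` of `0` or of `2 * π`.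
Here `θ v i` is the direction of the edge from `v` to its `i`-th neighbour (counted
counterclockwise, and going once around `v` adds `2 * π`), so `θ v (i + 1) - θ v i` is the angle
at `v` between the `i`-th neighbour and the next one. -/
structure IsFoldApprox (ε : ℝ) (p : Fin G.n → ℂ) (θ : Fin G.n → ℕ → ℝ) : Prop where
  /-- distinct vertices are at distinct points -/
  inj : Function.Injective p
  /-- distinct edges meet only in common end vertices -/
  planar : ∀ u v a b, v ∈ G.nbr u → b ∈ G.nbr a → s(u, v) ≠ s(a, b) →
    ∀ z, z ∈ segment ℝ (p u) (p v) → z ∈ segment ℝ (p a) (p b) →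
      ∃ w, w ∈ s(u, v) ∧ w ∈ s(a, b) ∧ z = p w
  /-- `θ v i` is the direction of the edge from `v` to its `i`-th neighbour -/
  dir : ∀ v i (hi : i < (G.nbr v).length),
    p (G.nbr v)[i] - p v = ‖p (G.nbr v)[i] - p v‖ * Complex.exp (θ v i * Complex.I)
  /-- the neighbours are in counterclockwise order around `v` -/
  ccw : ∀ v i, i < (G.nbr v).length → θ v i < θ v (i + 1)
  /-- going through all neighbours is exactly one turn around `v` -/
  full_turn : ∀ v, θ v (G.nbr v).length = θ v 0 + 2 * π
  /-- the outer face of the drawing is the outer face of `G`: the angle of a leftmost vertex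
  that contains the direction to the left belongs to the face to the left of `G.outer` -/
  outer : ∀ v, (∀ w, (p v).re ≤ (p w).re) → ∀ i (hi : i < (G.nbr v).length) (k : ℤ),
    θ v i < π + 2 * π * k → π + 2 * π * k < θ v (i + 1) →
      G.faceNext.SameCycle (v, (G.nbr v)[i]) G.outer
  /-- every vertex is within `ε` of the line -/
  near_line : ∀ v, |(p v).im| < ε
  /-- edge lengths are within `ε` of the prescribed ones -/
  near_len : ∀ u v, v ∈ G.nbr u → |‖p u - p v‖ - G.len u v| < ε
  /-- no angle is flat: every angle is a valley or a mountain -/
  no_flat : ∀ v i, i < (G.nbr v).length →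
    θ v (i + 1) - θ v i < ε ∨ 2 * π - ε < θ v (i + 1) - θ v i

/-- `G` has a flat folded state in which no angle is flat. -/
def FlatFoldable : Prop :=
  ∀ ε > 0, ∃ p θ, G.IsFoldApprox ε p θ

end PlaneGraph

end Pool.Agent.FlatFold
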