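import Mathlib
import Pool.Agent.Lib.MP_b92007_lc.Defs

/-!
Combinatorial sweeps.  Lists of edges are from bottom to top; an edge is a pair `(l, r)` with
`l` its left end and `r` its right end.  `typ v = true` means that `v` is the left end of all its
edges (an opening vertex), `typ v = false` that it is the right end of all its edges.
`ord v` is the list of the neighbours of `v` in counterclockwise order such that the mountain
angle of `v` is the one after the last neighbour.
-/

namespace Pool.Agent.FlatFold

open PlaneGraph

/-- Processing the vertices of a list one after the other, from one state to another. -/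
inductive Run {V : Type} (typ : V → Bool) (ord : V → List V) :
    List V → List (V × V) → List (V × V) → Prop
  | nil (B : List (V × V)) : Run typ ord [] B B
  | opn (v : V) (vs : List V) (A C B' : List (V × V)) (hv : typ v = true)
      (h : Run typ ord vs (A ++ (ord v).map (fun w => (v, w)) ++ C) B') :
      Run typ ord (v :: vs) (A ++ C) B'
  | cls (v : V) (vs : List V) (A C B' : List (V × V)) (hv : typ v = false)
      (h : Run typ ord vs (A ++ C) B') :
      Run typ ord (v :: vs) (A ++ ((ord v).map (fun w => (w, v))).reverse ++ C) B'

/-- A level function: `typ` tells for every vertex whether its edges go to the right,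
`X` is the exact position on the line. -/
structure IsLevel (G : PlaneGraph) (typ : Fin G.n → Bool) (X : Fin G.n → ℤ) : Prop where
  typ_ne : ∀ u v, v ∈ G.nbr u → typ v = !(typ u)
  level : ∀ u v, v ∈ G.nbr u → typ u = true → X v = X u + G.len u v

/-- A combinatorial flat folded state (a sweep). -/
structure Sweep (G : PlaneGraph) where
  typ : Fin G.n → Bool
  X : Fin G.n → ℤ
  ord : Fin G.n → List (Fin G.n)
  vs : List (Fin G.n)
  isLevel : IsLevel G typ X
  ord_rot : ∀ v, ord v ~r G.nbr v
  nodup : vs.Nodup
  complete : ∀ v, v ∈ vs
  sorted : vs.Pairwise (fun u v => X u ≤ X v)
  run : Run typ ord vs [] []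
  /-- the mountain corner of the first vertex is in the outer face -/
  outer : ∀ v w, vs.head? = some v → (ord v).getLast? = some w →
    G.faceNext.SameCycle (v, w) G.outer

end Pool.Agent.FlatFold
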