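import Mathlib
import Pool.Agent.Lib.MP_b92007_lc.Sweep
import Pool.Agent.Lib.MP_b92007_lc.Cyc

/-! Faces of a plane graph with a mountain assignment. -/

namespace Pool.Agent.FlatFold

open PlaneGraph

/-- sign of a corner: the corner of the dart `(v, w)` (between `w` and the next neighbour of `v`)
is the mountain of `v` iff `w = mv v` -/
def sgn {V : Type} [DecidableEq V] (mv : V → V) (d : V × V) : ℤ := if d.2 = mv d.1 then 1 else -1

/-- the cyclic list of (sign, length) along the face to the left of the dart `d` -/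
def faceCyc (G : PlaneGraph) (mv : Fin G.n → Fin G.n) (d : Fin G.n × Fin G.n) : List (ℤ × ℕ) :=
  (G.faceNext.toList d).map (fun e => (sgn mv e, G.len e.1 e.2))

open Classical in
/-- all faces can be collapsed -/
def MVGood (G : PlaneGraph) (mv : Fin G.n → Fin G.n) : Prop :=
  (∀ v, mv v ∈ G.nbr v) ∧
  ∀ d : Fin G.n × Fin G.n, d.2 ∈ G.nbr d.1 →
    algGood (if G.faceNext.SameCycle d G.outer then 2 else -2) (faceCyc G mv d).length
      (faceCyc G mv d)

open Classical in
/-- every face can be collapsed, starting at some dart of the face -/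
def MVGoodW (G : PlaneGraph) (mv : Fin G.n → Fin G.n) : Prop :=
  (∀ v, mv v ∈ G.nbr v) ∧
  ∀ d : Fin G.n × Fin G.n, d.2 ∈ G.nbr d.1 → ∃ e, G.faceNext.SameCycle d e ∧
    algGood (if G.faceNext.SameCycle d G.outer then 2 else -2) (faceCyc G mv e).length
      (faceCyc G mv e)

theorem MVGood.weak {G : PlaneGraph} {mv : Fin G.n → Fin G.n} (h : MVGood G mv) :
    MVGoodW G mv :=
  ⟨h.1, fun d hd => ⟨d, Equiv.Perm.SameCycle.refl _ _, h.2 d hd⟩⟩

end Pool.Agent.FlatFold
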