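import Mathlib

/-! Perfect matchings by the auction algorithm. -/

namespace Pool.Agent.FlatFold

/-- `L` (list of slots, each a list of allowed tokens) can be filled with the tokens
`0, ..., N-1`, each used exactly once -/
def IsSDR (L : List (List ℕ)) (N : ℕ) : Prop :=
  ∃ F : List ℕ, List.Forall₂ (fun x l => x ∈ l) F L ∧ F.Perm (List.range N)

/-- state of the auction: unassigned slots (indices into `L`), prices of the tokens,
owners of the tokens (`0` = nobody, `i + 1` = slot `i`), failure flag -/
structure AState where
  stack : List ℕ
  price : List ℕ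
  owner : List ℕ
  fail : Bool

/-- the token of `l` with the least price (first one), or `none` if `l = []` -/
def cheapest (price : List ℕ) : List ℕ → Option ℕ
  | [] => none
  | x :: l =>
    match cheapest price l with
    | none => some x
    | some y => if price.getD y 0 < price.getD x 0 then some y else some x

/-- one step of the auction: the first unassigned slot takes its cheapest token (evicting the
owner, if any) and the price of the token goes up by one; failure if the price is at least
`L.length + 1` -/
def auctionStep (L : List (List ℕ)) (s : AState) : AState :=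
  match s.stack with
  | [] => s
  | i :: st =>
    match cheapest s.price (L.getD i []) with
    | none => { s with fail := true, stack := [] }
    | some x =>
      if s.price.getD x 0 ≥ L.length + 1 then { s with fail := true, stack := [] }
      else
        { stack := if s.owner.getD x 0 = 0 then st else (s.owner.getD x 0 - 1) :: st
          price := s.price.set x (s.price.getD x 0 + 1)
          owner := s.owner.set x (i + 1)
          fail := s.fail }

/-- the auction -/
def auction (L : List (List ℕ)) (N : ℕ) : Bool :=
  if L.length = N then
    !((auctionStep L)^[(L.length + 2) * (N + 1)]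
      ⟨List.range L.length, List.replicate N 0, List.replicate N 0, false⟩).fail
  else false

theorem cheapest_none {price l : List ℕ} (h : cheapest price l = none) : l = [] := by
  cases l with
  | nil => rfl
  | cons x l =>
    simp only [cheapest] at h
    split at h
    · simp at h
    · split at h <;> simp at h

theorem cheapest_some {price l : List ℕ} {x : ℕ} (h : cheapest price l = some x) :
    x ∈ l ∧ ∀ y ∈ l, price.getD x 0 ≤ price.getD y 0 := by
  induction l generalizing x with
  | nil => simp [cheapest] at h
  | cons a l ih =>
    simp only [cheapest] at h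
    split at h
    · rename_i h0
      have h1 := cheapest_none h0
      simp only [Option.some.injEq] at h
      subst h
      subst h1
      simp
    · rename_i y h0
      obtain ⟨h1, h2⟩ := ih h0
      split at h
      · rename_i h3
        simp only [Option.some.injEq] at h
        subst h
        refine ⟨List.mem_cons_of_mem _ h1, ?_⟩
        intro z hz
        rcases List.mem_cons.1 hz with rfl | hz
        · exact h3.le
        · exact h2 z hz
      · rename_i h3
        simp only [Option.some.injEq] at h
        subst h
        refine ⟨List.mem_cons_self, ?_⟩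
        intro z hz
        rcases List.mem_cons.1 hz with rfl | hz
        · exact le_rfl
        · exact (not_lt.1 h3).trans (h2 z hz)

/-- invariant of the auction -/
structure AInv (L : List (List ℕ)) (N : ℕ) (s : AState) : Prop where
  lenP : s.price.length = N
  lenO : s.owner.length = N
  nodup : s.stack.Nodup
  stack_lt : ∀ i ∈ s.stack, i < L.length
  own : ∀ x < N, ∀ i, s.owner.getD x 0 = i + 1 → i < L.length ∧ i ∉ s.stack ∧
    x ∈ L.getD i [] ∧ ∀ y ∈ L.getD i [], s.price.getD x 0 ≤ s.price.getD y 0 + 1
  inj : ∀ x < N, ∀ y < N, s.owner.getD x 0 = s.owner.getD y 0 → s.owner.getD x 0 ≠ 0 → x = y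
  cover : ∀ i < L.length, i ∈ s.stack ∨ ∃ x < N, s.owner.getD x 0 = i + 1
  pos : ∀ x < N, s.owner.getD x 0 = 0 ↔ s.price.getD x 0 = 0
  bound : ∀ x < N, s.price.getD x 0 ≤ L.length + 1

theorem getD_set_nat (l : List ℕ) (x y v : ℕ) (hx : x < l.length) :
    (l.set x v).getD y 0 = if y = x then v else l.getD y 0 := by
  rw [List.getD_eq_getElem?_getD, List.getD_eq_getElem?_getD, List.getElem?_set]
  split
  · rename_i h
    subst h
    simp
  · rename_i h
    rw [if_neg (fun h' => h h'.symm)]

theorem getD_mem {L : List (List ℕ)} {i : ℕ} (hi : i < L.length) : L.getD i [] ∈ L := by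
  rw [List.getD_eq_getElem _ _ hi]
  exact List.getElem_mem hi

/-- the invariant is preserved by a successful step -/
theorem AInv.step {L : List (List ℕ)} {N : ℕ} (hL : ∀ l ∈ L, ∀ x ∈ l, x < N)
    {s : AState} (h : AInv L N s) {i : ℕ} {st : List ℕ} (hst : s.stack = i :: st) {x : ℕ}
    (hx : cheapest s.price (L.getD i []) = some x) (hp : ¬ s.price.getD x 0 ≥ L.length + 1) :
    AInv L N { stack := if s.owner.getD x 0 = 0 then st else (s.owner.getD x 0 - 1) :: st
               price := s.price.set x (s.price.getD x 0 + 1)
               owner := s.owner.set x (i + 1)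
               fail := s.fail } := by
  have hi : i < L.length := h.stack_lt i (by rw [hst]; exact List.mem_cons_self)
  obtain ⟨hxi, hmin⟩ := cheapest_some hx
  have hxN : x < N := hL _ (getD_mem hi) x hxi
  have hxP : x < s.price.length := by rw [h.lenP]; exact hxN
  have hxO : x < s.owner.length := by rw [h.lenO]; exact hxN
  have hnd := h.nodup
  rw [hst] at hnd
  have hist : i ∉ st := (List.nodup_cons.1 hnd).1
  have hP : ∀ y, (s.price.set x (s.price.getD x 0 + 1)).getD y 0
      = if y = x then s.price.getD x 0 + 1 else s.price.getD y 0 :=
    fun y => getD_set_nat _ _ _ _ hxP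
  have hO : ∀ y, (s.owner.set x (i + 1)).getD y 0
      = if y = x then i + 1 else s.owner.getD y 0 :=
    fun y => getD_set_nat _ _ _ _ hxO
  have hPge : ∀ y, s.price.getD y 0 ≤ (s.price.set x (s.price.getD x 0 + 1)).getD y 0 := by
    intro y
    rw [hP]
    split
    · rename_i h1
      subst h1
      omega
    · exact le_rfl
  -- the new stack
  have hstack : ∀ j, j ∈ (if s.owner.getD x 0 = 0 then st else (s.owner.getD x 0 - 1) :: st) ↔
      (j ∈ st ∨ s.owner.getD x 0 = j + 1) := by
    intro j
    split
    · rename_i h0
      rw [h0]
      constructor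
      · intro hj
        exact Or.inl hj
      · rintro (hj | hj)
        · exact hj
        · omega
    · rename_i h0
      rw [List.mem_cons]
      constructor
      · rintro (hj | hj)
        · right
          omega
        · exact Or.inl hj
      · rintro (hj | hj)
        · exact Or.inr hj
        · left
          omega
  refine ⟨?_, ?_, ?_, ?_, ?_, ?_, ?_, ?_, ?_⟩
  · simp [h.lenP]
  · simp [h.lenO]
  · show List.Nodup (if s.owner.getD x 0 = 0 then st else (s.owner.getD x 0 - 1) :: st)
    split
    · exact (List.nodup_cons.1 hnd).2
    · rename_i h0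
      refine List.nodup_cons.2 ⟨?_, (List.nodup_cons.1 hnd).2⟩
      intro hj
      have := (h.own x hxN (s.owner.getD x 0 - 1) (by omega)).2.1
      rw [hst] at this
      exact this (List.mem_cons_of_mem _ hj)
  · intro j hj
    rcases (hstack j).1 hj with hj | hj
    · exact h.stack_lt j (by rw [hst]; exact List.mem_cons_of_mem _ hj)
    · exact (h.own x hxN j hj).1
  · intro y hy j hj
    simp only at hj ⊢
    rw [hO] at hj
    by_cases hyx : y = x
    · rw [if_pos hyx] at hj
      have hji : j = i := by omega
      subst hji
      refine ⟨hi, ?_, ?_, ?_⟩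
      · intro hj'
        rcases (hstack j).1 hj' with hj' | hj'
        · exact hist hj'
        · have := (h.own x hxN j hj').2.1
          rw [hst] at this
          exact this List.mem_cons_self
      · rw [hyx]
        exact hxi
      · intro z hz
        rw [hP, if_pos hyx]
        have := hmin z hz
        have := hPge z
        omega
    · rw [if_neg hyx] at hj
      obtain ⟨h1, h2, h3, h4⟩ := h.own y hy j hj
      refine ⟨h1, ?_, h3, ?_⟩
      · intro hj'
        rcases (hstack j).1 hj' with hj' | hj'
        · apply h2
          rw [hst]
          exact List.mem_cons_of_mem _ hj'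
        · exact hyx (h.inj y hy x hxN (by rw [hj, hj']) (by rw [hj]; omega))
      · intro z hz
        rw [hP, if_neg hyx]
        have := h4 z hz
        have := hPge z
        omega
  · intro y hy z hz
    simp only
    rw [hO, hO]
    by_cases hyx : y = x
    · rw [if_pos hyx]
      by_cases hzx : z = x
      · intro _ _
        rw [hyx, hzx]
      · rw [if_neg hzx]
        intro h1 _
        have := (h.own z hz i h1.symm).2.1
        rw [hst] at this
        exact absurd List.mem_cons_self this
    · rw [if_neg hyx]
      by_cases hzx : z = x
      · rw [if_pos hzx]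
        intro h1 _
        have := (h.own y hy i h1).2.1
        rw [hst] at this
        exact absurd List.mem_cons_self this
      · rw [if_neg hzx]
        exact h.inj y hy z hz
  · intro j hj
    simp only
    rcases h.cover j hj with hj' | ⟨y, hy, hyj⟩
    · rw [hst] at hj'
      rcases List.mem_cons.1 hj' with hj' | hj'
      · right
        refine ⟨x, hxN, ?_⟩
        rw [hO, if_pos rfl, hj']
      · left
        exact (hstack j).2 (Or.inl hj')
    · by_cases hyx : y = x
      · left
        refine (hstack j).2 (Or.inr ?_)
        rw [← hyx]
        exact hyj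
      · right
        refine ⟨y, hy, ?_⟩
        rw [hO, if_neg hyx]
        exact hyj
  · intro y hy
    simp only
    rw [hO, hP]
    by_cases hyx : y = x
    · rw [if_pos hyx, if_pos hyx]
      omega
    · rw [if_neg hyx, if_neg hyx]
      exact h.pos y hy
  · intro y hy
    simp only
    rw [hP]
    by_cases hyx : y = x
    · rw [if_pos hyx]
      omega
    · rw [if_neg hyx]
      exact h.bound y hy

/-- an SDR gives an injection -/
theorem IsSDR.exists_inj {L : List (List ℕ)} {N : ℕ} (h : IsSDR L N) :
    L.length = N ∧ ∃ f : ℕ → ℕ, (∀ i < L.length, f i ∈ L.getD i []) ∧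
      ∀ i < L.length, ∀ j < L.length, f i = f j → i = j := by
  obtain ⟨F, hF, hp⟩ := h
  have hlen : F.length = L.length := hF.length_eq
  have hlen2 : F.length = N := by rw [hp.length_eq, List.length_range]
  have hnd : F.Nodup := hp.nodup_iff.2 List.nodup_range
  refine ⟨by omega, fun i => F.getD i 0, ?_, ?_⟩
  · intro i hi
    have hi' : i < F.length := by omega
    simp only
    rw [List.getD_eq_getElem _ _ hi, List.getD_eq_getElem _ _ hi']
    exact hF.get (by omega) (by omega)
  · intro i hi j hj hij
    have hi' : i < F.length := by omega
    have hj' : j < F.length := by omega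
    simp only at hij
    rw [List.getD_eq_getElem _ _ hi', List.getD_eq_getElem _ _ hj'] at hij
    exact (hnd.getElem_inj_iff).1 hij

/-- failure of the auction proves that there is no SDR -/
theorem AInv.not_isSDR {L : List (List ℕ)} {N : ℕ} (hL : ∀ l ∈ L, ∀ x ∈ l, x < N)
    {s : AState} (h : AInv L N s) {i : ℕ} (hi : i < L.length) (his : i ∈ s.stack)
    (hp : ∀ y ∈ L.getD i [], L.length + 1 ≤ s.price.getD y 0) : ¬ IsSDR L N := by
  intro hsdr
  obtain ⟨hN, f, hf, hinj⟩ := hsdr.exists_inj
  -- tokens of price at least k
  let S : ℕ → Finset ℕ := fun k => (Finset.range N).filter (fun x => k ≤ s.price.getD x 0)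
  let T : ℕ → Finset ℕ := fun k => insert i ((S k).image (fun x => s.owner.getD x 0 - 1))
  have hSmem : ∀ k x, x ∈ S k ↔ x < N ∧ k ≤ s.price.getD x 0 := by
    intro k x
    simp [S]
  have hown : ∀ k, 1 ≤ k → ∀ x ∈ S k, s.owner.getD x 0 ≠ 0 := by
    intro k hk x hx h0
    obtain ⟨hx1, hx2⟩ := (hSmem k x).1 hx
    have := (h.pos x hx1).1 h0
    omega
  have hTcard : ∀ k, 1 ≤ k → (T k).card = (S k).card + 1 := by
    intro k hk
    have h1 : i ∉ (S k).image (fun x => s.owner.getD x 0 - 1) := by
      intro h2
      obtain ⟨x, hx, hxi⟩ := Finset.mem_image.1 h2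
      have h3 := hown k hk x hx
      obtain ⟨hx1, hx2⟩ := (hSmem k x).1 hx
      exact (h.own x hx1 i (by omega)).2.1 his
    rw [Finset.card_insert_of_notMem h1, Finset.card_image_of_injOn]
    intro x hx y hy hxy
    have h3 := hown k hk x hx
    have h4 := hown k hk y hy
    simp only at hxy
    exact h.inj x ((hSmem k x).1 hx).1 y ((hSmem k y).1 hy).1 (by omega) h3
  have hTlt : ∀ k, 1 ≤ k → ∀ j ∈ T k, j < L.length := by
    intro k hk j hj
    rcases Finset.mem_insert.1 hj with rfl | hj
    · exact hi
    · obtain ⟨x, hx, hxj⟩ := Finset.mem_image.1 hj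
      have h3 := hown k hk x hx
      obtain ⟨hx1, hx2⟩ := (hSmem k x).1 hx
      exact (h.own x hx1 j (by omega)).1
  have hTS : ∀ k, k ≤ L.length → (T (k + 1)).card ≤ (S k).card := by
    intro k hk
    apply Finset.card_le_card_of_injOn f
    · intro j hj
      have hjl := hTlt (k + 1) (by omega) j hj
      have hfj := hf j hjl
      have hfN : f j < N := hL _ (getD_mem hjl) _ hfj
      rw [Finset.mem_coe, hSmem]
      refine ⟨hfN, ?_⟩
      rcases Finset.mem_insert.1 hj with rfl | hj
      · have := hp _ hfj
        omega
      · obtain ⟨x, hx, hxj⟩ := Finset.mem_image.1 hj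
        have h3 := hown (k + 1) (by omega) x hx
        obtain ⟨hx1, hx2⟩ := (hSmem (k + 1) x).1 hx
        have := (h.own x hx1 j (by omega)).2.2.2 _ hfj
        omega
    · intro a ha b hb hab
      exact hinj a (hTlt (k + 1) (by omega) a ha) b (hTlt (k + 1) (by omega) b hb) hab
  have hS : ∀ m, m ≤ L.length → m ≤ (S (L.length + 1 - m)).card := by
    intro m
    induction m with
    | zero => intro _; exact Nat.zero_le _
    | succ m ih =>
      intro hm
      have h1 := ih (by omega)
      have h2 := hTS (L.length - m) (by omega)
      rw [hTcard _ (by omega)] at h2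
      have h3 : L.length - m + 1 = L.length + 1 - m := by omega
      rw [h3] at h2
      have h4 : L.length + 1 - (m + 1) = L.length - m := by omega
      rw [h4]
      omega
  have h1 := hS L.length le_rfl
  have h2 : L.length + 1 - L.length = 1 := by omega
  rw [h2] at h1
  have h3 := hTcard 1 le_rfl
  have h4 : (T 1).card ≤ L.length := by
    have : T 1 ⊆ Finset.range L.length := by
      intro j hj
      exact Finset.mem_range.2 (hTlt 1 le_rfl j hj)
    simpa using Finset.card_le_card this
  omega

/-- at the end of a successful auction we have an SDR -/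
theorem AInv.isSDR {L : List (List ℕ)} {N : ℕ} (hN : L.length = N)
    {s : AState} (h : AInv L N s) (hs : s.stack = []) : IsSDR L N := by
  have hc : ∀ i : ℕ, i < L.length → ∃ x < N, s.owner.getD x 0 = i + 1 := by
    intro i hi
    rcases h.cover i hi with h1 | h1
    · rw [hs] at h1
      simp at h1
    · exact h1
  choose! g hg1 hg2 using hc
  refine ⟨(List.range L.length).map g, ?_, ?_⟩
  · rw [List.forall₂_iff_get]
    refine ⟨by simp, ?_⟩
    intro i h1 h2
    have h3 := (h.own (g i) (hg1 i h2) i (hg2 i h2)).2.2.1
    rw [List.getD_eq_getElem _ _ h2] at h3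
    simpa using h3
  · have hnd : ((List.range L.length).map g).Nodup := by
      rw [List.nodup_map_iff_inj_on List.nodup_range]
      intro a ha b hb hab
      rw [List.mem_range] at ha hb
      have h1 := hg2 a ha
      have h2 := hg2 b hb
      rw [hab] at h1
      omega
    refine List.perm_of_nodup_nodup_toFinset_eq hnd List.nodup_range ?_
    apply Finset.eq_of_subset_of_card_le
    · intro y hy
      rw [List.mem_toFinset, List.mem_map] at hy
      obtain ⟨a, ha, rfl⟩ := hy
      rw [List.mem_toFinset, List.mem_range]
      exact hg1 a (List.mem_range.1 ha)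
    · rw [List.toFinset_card_of_nodup hnd, List.toFinset_card_of_nodup List.nodup_range]
      simp [hN]

/-- total price -/
def total (N : ℕ) (s : AState) : ℕ := ∑ x ∈ Finset.range N, s.price.getD x 0

theorem total_le {L : List (List ℕ)} {N : ℕ} {s : AState} (h : AInv L N s) :
    total N s ≤ N * (L.length + 1) := by
  unfold total
  have : ∑ x ∈ Finset.range N, s.price.getD x 0 ≤ ∑ x ∈ Finset.range N, (L.length + 1) :=
    Finset.sum_le_sum (fun x hx => h.bound x (Finset.mem_range.1 hx))
  simpa using this

/-- the invariant of the whole run -/
def AGood (L : List (List ℕ)) (N m : ℕ) (s : AState) : Prop :=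
  (s.fail = true ∧ s.stack = [] ∧ ¬ IsSDR L N) ∨
  (s.fail = false ∧ AInv L N s ∧ (s.stack = [] ∨ m ≤ total N s))

theorem AGood.step {L : List (List ℕ)} {N : ℕ} (hL : ∀ l ∈ L, ∀ x ∈ l, x < N)
    {m : ℕ} {s : AState} (h : AGood L N m s) : AGood L N (m + 1) (auctionStep L s) := by
  unfold auctionStep
  cases hst : s.stack with
  | nil =>
    simp only
    rcases h with ⟨h1, h2, h3⟩ | ⟨h1, h2, h3⟩
    · exact Or.inl ⟨h1, h2, h3⟩
    · exact Or.inr ⟨h1, h2, Or.inl hst⟩
  | cons i st =>
    simp only
    rcases h with ⟨h1, h2, h3⟩ | ⟨h1, h2, h3⟩
    · rw [h2] at hst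
      simp at hst
    have his : i ∈ s.stack := by rw [hst]; exact List.mem_cons_self
    have hi : i < L.length := h2.stack_lt i his
    cases hx : cheapest s.price (L.getD i []) with
    | none =>
      simp only
      left
      refine ⟨rfl, rfl, h2.not_isSDR hL hi his ?_⟩
      rw [cheapest_none hx]
      simp
    | some x =>
      simp only
      by_cases hp : s.price.getD x 0 ≥ L.length + 1
      · rw [if_pos hp]
        left
        refine ⟨rfl, rfl, h2.not_isSDR hL hi his ?_⟩
        intro y hy
        exact le_trans hp ((cheapest_some hx).2 y hy)
      · rw [if_neg hp]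
        right
        have h4 := h2.step hL hst hx hp
        refine ⟨h1, h4, Or.inr ?_⟩
        have hm : m ≤ total N s := by
          rcases h3 with h3 | h3
          · rw [h3] at hst
            simp at hst
          · exact h3
        have hxN : x < N := hL _ (getD_mem hi) x (cheapest_some hx).1
        have hxP : x < s.price.length := by rw [h2.lenP]; exact hxN
        have : total N { stack := if s.owner.getD x 0 = 0 then st else (s.owner.getD x 0 - 1) :: st
                         price := s.price.set x (s.price.getD x 0 + 1)
                         owner := s.owner.set x (i + 1)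
                         fail := s.fail : AState } = total N s + 1 := by
          unfold total
          simp only
          have h5 : ∀ y ∈ Finset.range N, (s.price.set x (s.price.getD x 0 + 1)).getD y 0
              = s.price.getD y 0 + if y = x then 1 else 0 := by
            intro y _
            rw [getD_set_nat _ _ _ _ hxP]
            split
            · rename_i h6
              rw [h6]
            · rfl
          rw [Finset.sum_congr rfl h5, Finset.sum_add_distrib]
          congr 1
          rw [Finset.sum_ite_eq' (Finset.range N) x (fun _ => 1), if_pos (Finset.mem_range.2 hxN)]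
        rw [this]
        omega

theorem AInv.init (L : List (List ℕ)) (N : ℕ) :
    AInv L N ⟨List.range L.length, List.replicate N 0, List.replicate N 0, false⟩ := by
  have h0 : ∀ x, (List.replicate N 0).getD x 0 = 0 := by
    intro x
    rw [List.getD_eq_getElem?_getD, List.getElem?_replicate]
    split <;> rfl
  refine ⟨by simp, by simp, List.nodup_range, ?_, ?_, ?_, ?_, ?_, ?_⟩
  · intro i hi
    exact List.mem_range.1 hi
  · intro x _ i hi
    simp only [h0] at hi
    omega
  · intro x _ y _ _ hx
    simp only [h0] at hx
    exact absurd rfl hx
  · intro i hi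
    exact Or.inl (List.mem_range.2 hi)
  · intro x _
    simp only
  · intro x _
    simp only [h0]
    omega

/-- Module S -/
theorem auction_iff (L : List (List ℕ)) (N : ℕ) (hL : ∀ l ∈ L, ∀ x ∈ l, x < N) :
    auction L N = true ↔ IsSDR L N := by
  unfold auction
  by_cases hN : L.length = N
  · rw [if_pos hN]
    have hrun : ∀ m, AGood L N m ((auctionStep L)^[m]
        ⟨List.range L.length, List.replicate N 0, List.replicate N 0, false⟩) := by
      intro m
      induction m with
      | zero => exact Or.inr ⟨rfl, AInv.init L N, Or.inr (Nat.zero_le _)⟩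
      | succ m ih =>
        rw [Function.iterate_succ_apply']
        exact ih.step hL
    have h := hrun ((L.length + 2) * (N + 1))
    generalize (auctionStep L)^[(L.length + 2) * (N + 1)]
        ⟨List.range L.length, List.replicate N 0, List.replicate N 0, false⟩ = s at h
    rcases h with ⟨h1, h2, h3⟩ | ⟨h1, h2, h3⟩
    · rw [h1]
      simp [h3]
    · rw [h1]
      have h4 := total_le h2
      have h5 : s.stack = [] := by
        rcases h3 with h3 | h3
        · exact h3
        · exfalso
          have : N * (L.length + 1) < (L.length + 2) * (N + 1) := by nlinarith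
          omega
      simp [h2.isSDR hN h5]
  · rw [if_neg hN]
    simp only [Bool.false_eq_true, false_iff]
    intro h
    exact hN h.exists_inj.1

end Pool.Agent.FlatFold
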