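import Mathlib
import Pool.Agent.Lib.MP_b92007_lc.Cyc
import Pool.Agent.Lib.MP_b92007_lc.Auction

/-! The collapse process produces the slots of the matching problem. -/

namespace Pool.Agent.FlatFold

/-- Slots for one face.  `c` is the cyclic list of (token, length), tokens `< q` are the tokens
already in use, fresh tokens are `q, q + 1, ...`; the result is the list of slots and the next
fresh token. -/
def procFace (outer : Bool) : ℕ → ℕ → List (ℕ × ℕ) → Option (List (List ℕ) × ℕ)
  | 0, _, _ => none
  | k + 1, q, c =>
    match view c with
    | View.done =>
      if c.length % 2 = 0 then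
        some (List.replicate (if outer then c.length / 2 + 1 else c.length / 2 - 1)
          (c.map Prod.fst), q)
      else none
    | View.bad => none
    | View.red x a us t u b rest =>
      if (us.length + 1) % 2 = 0 then
        match procFace outer k q ((x, a + b - t) :: rest) with
        | none => none
        | some (L, q') => some (List.replicate ((us.length + 1) / 2) (us ++ [u]) ++ L, q')
      else
        match procFace outer k (q + 1) ((x, a) :: (q, b) :: rest) with
        | none => none
        | some (L, q') => some (List.replicate ((us.length + 2) / 2) (q :: us ++ [u]) ++ L, q')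

/-- the tokens with sign `1` -/
def plusTokens (c : List ((ℕ × ℤ) × ℕ)) : List ℕ :=
  (c.filter (fun p => p.1.2 == 1)).map (fun p => p.1.1)

/-! ### signs -/

/-- labels with sign `1` -/
def plusL (ls : List (ℕ × ℤ)) : List ℕ := (ls.filter (fun p => p.2 == 1)).map Prod.fst

theorem plusTokens_eq (c : List ((ℕ × ℤ) × ℕ)) : plusTokens c = plusL (c.map Prod.fst) := by
  unfold plusTokens plusL
  rw [List.filter_map, List.map_map]
  rfl

theorem plusL_append (l m : List (ℕ × ℤ)) : plusL (l ++ m) = plusL l ++ plusL m := by
  unfold plusL
  rw [List.filter_append, List.map_append]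

theorem plusL_perm {l m : List (ℕ × ℤ)} (h : l.Perm m) : (plusL l).Perm (plusL m) :=
  (h.filter _).map _

theorem plusL_sub (l : List (ℕ × ℤ)) : ∀ x ∈ plusL l, x ∈ l.map Prod.fst := by
  intro x hx
  unfold plusL at hx
  obtain ⟨p, hp, rfl⟩ := List.mem_map.1 hx
  exact List.mem_map_of_mem (List.mem_of_mem_filter hp)

theorem sum_signs (ls : List (ℕ × ℤ)) (h : ∀ p ∈ ls, p.2 = 1 ∨ p.2 = -1) :
    (ls.map Prod.snd).sum = 2 * ((plusL ls).length : ℤ) - (ls.length : ℤ) := by
  induction ls with
  | nil => simp [plusL]
  | cons p l ih =>
    have ih' := ih (fun q hq => h q (List.mem_cons_of_mem _ hq))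
    rw [List.map_cons, List.sum_cons, ih']
    have h1 : plusL (p :: l) = plusL [p] ++ plusL l := plusL_append [p] l
    rw [h1, List.length_append, List.length_cons]
    rcases h p List.mem_cons_self with hp | hp
    · have : plusL [p] = [p.1] := by simp [plusL, hp]
      rw [this, hp]
      push_cast
      simp only [List.length_cons, List.length_nil]
      ring
    · have : plusL [p] = [] := by simp [plusL, hp]
      rw [this, hp]
      push_cast
      simp only [List.length_nil]
      ring

theorem choose_signs (ls : List ℕ) : ∀ (F : List ℕ), F.Nodup → (∀ x ∈ F, x ∈ ls) →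
    ∃ ls' : List (ℕ × ℤ), ls'.map Prod.fst = ls ∧ (∀ p ∈ ls', p.2 = 1 ∨ p.2 = -1) ∧
      (plusL ls').Perm F := by
  induction ls with
  | nil =>
    intro F _ hF
    have : F = [] := List.eq_nil_iff_forall_not_mem.2 (fun x hx => by simpa using hF x hx)
    subst this
    exact ⟨[], rfl, by simp, by simp [plusL]⟩
  | cons y l ih =>
    intro F hnd hF
    by_cases hy : y ∈ F
    · obtain ⟨ls', h1, h2, h3⟩ := ih (F.erase y) (hnd.erase y) (by
        intro x hx
        have h4 := (hnd.mem_erase_iff).1 hx
        rcases List.mem_cons.1 (hF x h4.2) with h5 | h5
        · exact absurd h5 h4.1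
        · exact h5)
      refine ⟨(y, 1) :: ls', by rw [List.map_cons, h1], ?_, ?_⟩
      · intro p hp
        rcases List.mem_cons.1 hp with rfl | hp
        · exact Or.inl rfl
        · exact h2 p hp
      · have h4 : plusL ((y, 1) :: ls') = y :: plusL ls' := by simp [plusL]
        rw [h4]
        exact (h3.cons y).trans (List.perm_cons_erase hy).symm
    · obtain ⟨ls', h1, h2, h3⟩ := ih F hnd (by
        intro x hx
        rcases List.mem_cons.1 (hF x hx) with h5 | h5
        · rw [h5] at hx
          exact absurd hx hy
        · exact h5)
      refine ⟨(y, -1) :: ls', by rw [List.map_cons, h1], ?_, ?_⟩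
      · intro p hp
        rcases List.mem_cons.1 hp with rfl | hp
        · exact Or.inr rfl
        · exact h2 p hp
      · have h4 : plusL ((y, -1) :: ls') = plusL ls' := by simp [plusL]
        rw [h4]
        exact h3

theorem forall₂_replicate {F : List ℕ} {n : ℕ} {l : List ℕ} :
    List.Forall₂ (fun x l => x ∈ l) F (List.replicate n l) ↔ F.length = n ∧ ∀ x ∈ F, x ∈ l := by
  induction n generalizing F with
  | zero =>
    simp only [List.replicate_zero, List.forall₂_nil_right_iff]
    constructor
    · rintro rfl
      simp
    · rintro ⟨h, _⟩
      exact List.length_eq_zero_iff.1 h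
  | succ n ih =>
    rw [List.replicate_succ]
    cases F with
    | nil => simp
    | cons y F =>
      rw [List.forall₂_cons, ih]
      simp only [List.length_cons, Nat.add_right_cancel_iff, List.mem_cons, forall_eq_or_imp]
      tauto

theorem forall₂_append_split {F : List ℕ} {L₁ L₂ : List (List ℕ)}
    (h : List.Forall₂ (fun x l => x ∈ l) F (L₁ ++ L₂)) :
    ∃ F₁ F₂, F = F₁ ++ F₂ ∧ List.Forall₂ (fun x l => x ∈ l) F₁ L₁ ∧
      List.Forall₂ (fun x l => x ∈ l) F₂ L₂ := by
  induction L₁ generalizing F with
  | nil => exact ⟨[], F, rfl, List.Forall₂.nil, h⟩
  | cons l L₁ ih =>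
    cases F with
    | nil => simp at h
    | cons y F =>
      rw [List.cons_append, List.forall₂_cons] at h
      obtain ⟨F₁, F₂, h1, h2, h3⟩ := ih h.2
      exact ⟨y :: F₁, F₂, by rw [h1]; rfl, List.Forall₂.cons h.1 h2, h3⟩

theorem procFace_le (outer : Bool) (k q q' : ℕ) (L : List (List ℕ)) (c : List (ℕ × ℕ))
    (h : procFace outer k q c = some (L, q')) : q ≤ q' := by
  induction k generalizing q q' L c with
  | zero => simp [procFace] at h
  | succ k ih =>
    rw [procFace] at h
    split at h
    · split at h
      · simp only [Option.some.injEq, Prod.mk.injEq] at h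
        exact h.2.le
      · simp at h
    · simp at h
    · split at h
      · split at h
        · simp at h
        · rename_i hr
          simp only [Option.some.injEq, Prod.mk.injEq] at h
          rw [← h.2]
          exact ih _ _ _ _ hr
      · split at h
        · simp at h
        · rename_i hr
          simp only [Option.some.injEq, Prod.mk.injEq] at h
          rw [← h.2]
          have := ih _ _ _ _ hr
          omega

theorem sum_target (c : List ((ℕ × ℤ) × ℕ)) (h : ∀ p ∈ c, p.1.2 = 1 ∨ p.1.2 = -1) :
    ((c.map (fun p => (p.1.2, p.2))).map Prod.fst).sum
      = 2 * ((plusTokens c).length : ℤ) - (c.length : ℤ) := by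
  have h1 := sum_signs (c.map Prod.fst) (by
    intro p hp
    obtain ⟨y, hy, rfl⟩ := List.mem_map.1 hp
    exact h y hy)
  rw [plusTokens_eq]
  rw [List.length_map] at h1
  rw [← h1, List.map_map, List.map_map]
  rfl

theorem sum_group (us : List (ℕ × ℤ)) (u : ℕ × ℤ) (h : ∀ p ∈ us ++ [u], p.2 = 1 ∨ p.2 = -1) :
    (us.map Prod.snd).sum + u.2
      = 2 * ((plusL (us ++ [u])).length : ℤ) - ((us.length + 1 : ℕ) : ℤ) := by
  have h1 := sum_signs (us ++ [u]) h
  rw [List.length_append, List.length_singleton] at h1
  rw [← h1]
  simp

theorem red_signs {c : List ((ℕ × ℤ) × ℕ)} (hs : ∀ p ∈ c, p.1.2 = 1 ∨ p.1.2 = -1)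
    {x : ℕ × ℤ} {a : ℕ} {us : List (ℕ × ℤ)} {t : ℕ} {u : ℕ × ℤ} {b : ℕ}
    {rest : List ((ℕ × ℤ) × ℕ)} (h : view c = View.red x a us t u b rest) :
    (x.2 = 1 ∨ x.2 = -1) ∧ (∀ p ∈ us ++ [u], p.2 = 1 ∨ p.2 = -1) ∧
      ∀ p ∈ rest, p.1.2 = 1 ∨ p.1.2 = -1 := by
  have hp := view_red_perm h
  refine ⟨?_, ?_, ?_⟩
  · exact hs (x, a) (hp.subset (by simp))
  · intro p hpm
    rcases List.mem_append.1 hpm with h1 | h1
    · exact hs (p, t) (hp.subset (by simp [h1]))
    · rw [List.mem_singleton.1 h1]
      exact hs (u, b) (hp.subset (by simp))
  · intro p hpm
    exact hs p (hp.subset (by simp [hpm]))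

theorem red_plus {c : List ((ℕ × ℤ) × ℕ)}
    {x : ℕ × ℤ} {a : ℕ} {us : List (ℕ × ℤ)} {t : ℕ} {u : ℕ × ℤ} {b : ℕ}
    {rest : List ((ℕ × ℤ) × ℕ)} (hv : view c = View.red x a us t u b rest) :
    (plusTokens c).Perm (plusL (us ++ [u]) ++ (plusL [x] ++ plusL (rest.map Prod.fst))) := by
  have hperm := view_red_perm hv
  rw [plusTokens_eq]
  refine (plusL_perm (hperm.map Prod.fst)).symm.trans ?_
  rw [List.map_cons, List.map_append, List.map_map, List.map_cons]
  have h1 : (x, a).1 :: (us.map (Prod.fst ∘ fun y => (y, t)) ++ (u, b).1 :: rest.map Prod.fst)
      = [x] ++ ((us ++ [u]) ++ rest.map Prod.fst) := by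
    simp [Function.comp_def]
  rw [h1, plusL_append, plusL_append (us ++ [u])]
  rw [← List.append_assoc, ← List.append_assoc]
  exact List.Perm.append_right _ List.perm_append_comm

/-- Module T, failure -/
theorem procFace_none (outer : Bool) (k q : ℕ) (c : List ((ℕ × ℤ) × ℕ))
    (hs : ∀ p ∈ c, p.1.2 = 1 ∨ p.1.2 = -1) (hne : c ≠ [])
    (h : procFace outer k q (c.map (fun p => (p.1.1, p.2))) = none) :
    ¬ algGood (if outer then 2 else -2) k (c.map (fun p => (p.1.2, p.2))) := by
  induction k generalizing q c with
  | zero => simp [algGood]
  | succ k ih =>
    intro hg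
    have hv1 := view_lmap Prod.fst c
    have hv2 := view_lmap Prod.snd c
    rw [procFace, hv1] at h
    rw [algGood, hv2] at hg
    cases hv : view c with
    | done =>
      rw [hv] at h hg
      simp only [View.lmap] at h hg
      rw [sum_target c hs] at hg
      split at h
      · simp at h
      · rename_i hodd
        rw [List.length_map] at hodd
        split at hg <;> omega
    | bad =>
      rw [hv] at hg
      simp only [View.lmap] at hg
    | red x a us t u b rest =>
      obtain ⟨hx, hus, hrest⟩ := red_signs hs hv
      rw [hv] at h hg
      simp only [View.lmap, List.length_map] at h hg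
      split at h
      · rename_i heven
        rw [if_pos heven] at hg
        split at h
        · rename_i hr
          refine ih q ((x, a + b - t) :: rest) ?_ (by simp) hr hg.2
          intro p hp
          rcases List.mem_cons.1 hp with rfl | hp
          · exact hx
          · exact hrest p hp
        · simp at h
      · rename_i hodd
        rw [if_neg hodd] at hg
        split at h
        · rename_i hr
          have habs := (abs_eq (by norm_num : (0 : ℤ) ≤ 1)).1 hg.1
          refine ih (q + 1) ((x, a) :: ((q, (us.map Prod.snd).sum + u.2), b) :: rest)
            ?_ (by simp) hr hg.2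
          intro p hp
          rcases List.mem_cons.1 hp with rfl | hp
          · exact hx
          · rcases List.mem_cons.1 hp with rfl | hp
            · exact habs
            · exact hrest p hp
        · simp at h

/-- Module T, from signs to a filling -/
theorem procFace_fill (outer : Bool) (k q q' : ℕ) (L : List (List ℕ)) (c : List ((ℕ × ℤ) × ℕ))
    (hs : ∀ p ∈ c, p.1.2 = 1 ∨ p.1.2 = -1) (hne : c ≠ [])
    (h : procFace outer k q (c.map (fun p => (p.1.1, p.2))) = some (L, q'))
    (hg : algGood (if outer then 2 else -2) k (c.map (fun p => (p.1.2, p.2)))) :
    ∃ F : List ℕ, List.Forall₂ (fun x l => x ∈ l) F L ∧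
      F.Perm (plusTokens c ++ List.range' q (q' - q)) := by
  induction k generalizing q q' L c with
  | zero => simp [algGood] at hg
  | succ k ih =>
    have hv1 := view_lmap Prod.fst c
    have hv2 := view_lmap Prod.snd c
    rw [procFace, hv1] at h
    rw [algGood, hv2] at hg
    cases hv : view c with
    | done =>
      rw [hv] at h hg
      simp only [View.lmap] at h hg
      rw [sum_target c hs] at hg
      split at h
      · rename_i heven
        simp only [Option.some.injEq, Prod.mk.injEq] at h
        obtain ⟨rfl, rfl⟩ := h
        refine ⟨plusTokens c, ?_, by simp⟩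
        rw [forall₂_replicate]
        constructor
        · rw [List.length_map] at heven ⊢
          split at hg
          · rename_i ho
            rw [if_pos ho]
            omega
          · rename_i ho
            rw [if_neg ho]
            omega
        · intro y hy
          rw [plusTokens_eq] at hy
          have := plusL_sub _ y hy
          rw [List.map_map] at this ⊢
          exact this
      · simp at h
    | bad =>
      rw [hv] at hg
      simp only [View.lmap] at hg
    | red x a us t u b rest =>
      obtain ⟨hx, hus, hrest⟩ := red_signs hs hv
      have hplus := red_plus hv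
      have hgroup := sum_group us u hus
      rw [hv] at h hg
      simp only [View.lmap, List.length_map] at h hg
      split at h
      · rename_i heven
        rw [if_pos heven] at hg
        split at h
        · simp at h
        · rename_i L' q'' hr
          simp only [Option.some.injEq, Prod.mk.injEq] at h
          obtain ⟨rfl, rfl⟩ := h
          obtain ⟨F, hF1, hF2⟩ := ih q q'' L' ((x, a + b - t) :: rest) (by
            intro p hp
            rcases List.mem_cons.1 hp with rfl | hp
            · exact hx
            · exact hrest p hp) (by simp) hr hg.2
          rw [plusTokens_eq, List.map_cons] at hF2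
          refine ⟨plusL (us ++ [u]) ++ F, ?_, ?_⟩
          · refine List.rel_append ?_ hF1
            rw [forall₂_replicate]
            constructor
            · omega
            · intro y hy
              have := plusL_sub _ y hy
              simpa using this
          · refine (hF2.append_left _).trans ?_
            rw [← List.append_assoc]
            refine List.Perm.append_right _ ?_
            refine (List.Perm.append_left _ ?_).trans hplus.symm
            have h2 : plusL (x :: rest.map Prod.fst) = plusL [x] ++ plusL (rest.map Prod.fst) :=
              plusL_append [x] _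
            exact List.Perm.of_eq h2
      · rename_i hodd
        rw [if_neg hodd] at hg
        split at h
        · simp at h
        · rename_i L' q'' hr
          simp only [Option.some.injEq, Prod.mk.injEq] at h
          obtain ⟨rfl, rfl⟩ := h
          have hle := procFace_le _ _ _ _ _ _ hr
          have habs := (abs_eq (by norm_num : (0 : ℤ) ≤ 1)).1 hg.1
          obtain ⟨F, hF1, hF2⟩ := ih (q + 1) q'' L'
            ((x, a) :: ((q, (us.map Prod.snd).sum + u.2), b) :: rest) (by
            intro p hp
            rcases List.mem_cons.1 hp with rfl | hp
            · exact hx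
            · rcases List.mem_cons.1 hp with rfl | hp
              · exact habs
              · exact hrest p hp) (by simp) hr hg.2
          rw [plusTokens_eq, List.map_cons, List.map_cons] at hF2
          have h2 : plusL (x :: (q, (us.map Prod.snd).sum + u.2) :: rest.map Prod.fst)
              = plusL [x] ++ (plusL [(q, (us.map Prod.snd).sum + u.2)]
                ++ plusL (rest.map Prod.fst)) := by
            rw [← plusL_append, ← plusL_append]
            rfl
          simp only at hF2
          rw [h2] at hF2
          have hrange : List.range' q (q'' - q) = q :: List.range' (q + 1) (q'' - (q + 1)) := by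
            have : q'' - q = (q'' - (q + 1)) + 1 := by omega
            rw [this, List.range'_succ]
          -- the tokens placed in the slots of the group
          have key : ∃ G : List ℕ, G.length = (us.length + 2) / 2 ∧
              (∀ y ∈ G, y ∈ q :: us.map Prod.fst ++ [u.1]) ∧
              (G ++ plusL [(q, (us.map Prod.snd).sum + u.2)]).Perm
                (plusL (us ++ [u]) ++ [q]) := by
            rcases habs with hq1 | hq1
            · refine ⟨plusL (us ++ [u]), by omega, ?_, ?_⟩
              · intro y hy
                have := plusL_sub _ y hy
                rw [List.map_append] at this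
                exact List.mem_cons_of_mem _ this
              · rw [hq1]
                have : plusL [(q, (1 : ℤ))] = [q] := by simp [plusL]
                rw [this]
            · refine ⟨q :: plusL (us ++ [u]), by rw [List.length_cons]; omega, ?_, ?_⟩
              · intro y hy
                rcases List.mem_cons.1 hy with rfl | hy
                · exact List.mem_cons_self
                · have := plusL_sub _ y hy
                  rw [List.map_append] at this
                  exact List.mem_cons_of_mem _ this
              · rw [hq1]
                have : plusL [(q, (-1 : ℤ))] = [] := by simp [plusL]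
                rw [this, List.append_nil]
                exact (List.perm_append_comm (l₁ := [q]) (l₂ := plusL (us ++ [u])))
          obtain ⟨G, hG1, hG2, hG3⟩ := key
          refine ⟨G ++ F, ?_, ?_⟩
          · refine List.rel_append ?_ hF1
            rw [forall₂_replicate]
            exact ⟨hG1, hG2⟩
          · rw [hrange]
            generalize plusL [(q, (us.map Prod.snd).sum + u.2)] = Q at *
            generalize plusL [x] = X at *
            generalize plusL (rest.map Prod.fst) = R at *
            generalize plusL (us ++ [u]) = U at *
            generalize List.range' (q + 1) (q'' - (q + 1)) = Z at *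
            have e1 : (G ++ F).Perm (G ++ (X ++ (Q ++ R) ++ Z)) := hF2.append_left _
            have e2 : (G ++ (X ++ (Q ++ R) ++ Z)).Perm ((G ++ Q) ++ (X ++ R ++ Z)) := by
              rw [List.perm_iff_count]
              intro w
              simp only [List.count_append]
              ring
            have e3 : ((G ++ Q) ++ (X ++ R ++ Z)).Perm ((U ++ [q]) ++ (X ++ R ++ Z)) :=
              hG3.append_right _
            have e4 : ((U ++ [q]) ++ (X ++ R ++ Z)).Perm ((U ++ (X ++ R)) ++ q :: Z) := by
              have : (U ++ (X ++ R)) ++ q :: Z = (U ++ (X ++ R)) ++ ([q] ++ Z) := rfl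
              rw [this, List.perm_iff_count]
              intro w
              simp only [List.count_append]
              ring
            exact ((e1.trans e2).trans (e3.trans e4)).trans (hplus.symm.append_right _)

theorem assemble {c : List (ℕ × ℕ)} {x : ℕ} {a : ℕ} {us : List ℕ} {t : ℕ} {u : ℕ} {b : ℕ}
    {rest : List (ℕ × ℕ)} (hv : view c = View.red x a us t u b rest) (x' : ℕ × ℤ)
    (us' : List (ℕ × ℤ)) (u' : ℕ × ℤ) (rest' : List ((ℕ × ℤ) × ℕ)) (hx : x'.1 = x)
    (hus : us'.map Prod.fst = us) (hu : u'.1 = u)
    (hrest : rest'.map (fun p => (p.1.1, p.2)) = rest) :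
    ∃ c' : List ((ℕ × ℤ) × ℕ), c'.map (fun p => (p.1.1, p.2)) = c ∧
      view c' = View.red x' a us' t u' b rest' := by
  rw [view_red_iff] at hv
  obtain ⟨h1, h2, h3, h4⟩ := hv
  obtain ⟨c', h5, h6⟩ := exists_lift Prod.fst (minLen c) c
    ((x', a) :: (us'.map (fun y => (y, t)) ++ (u', b) :: rest')) (by
      rw [h3, ← hx, ← hus, ← hu, ← hrest]
      simp [Function.comp_def])
  refine ⟨c', h5, ?_⟩
  rw [view_red_iff]
  have h7 : minLen c' = minLen c := by
    rw [← h5, minLen_lmap]
  have h8 := all_lmap Prod.fst (minLen c) c'
  rw [h5] at h8
  rw [h7]
  exact ⟨h1, by rw [← h8]; exact h2, h6, h4⟩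

theorem tok_exists_split {P G : List ℕ} (hP : P.Nodup) (hG : G.Nodup) (h : ∀ x ∈ G, x ∈ P) :
    ∃ P₂, P.Perm (G ++ P₂) := by
  refine ⟨P.filter (fun x => decide (x ∉ G)), ?_⟩
  rw [List.perm_ext_iff_of_nodup hP]
  · intro y
    rw [List.mem_append, List.mem_filter]
    constructor
    · intro hy
      by_cases hyG : y ∈ G
      · exact Or.inl hyG
      · exact Or.inr ⟨hy, by simpa using hyG⟩
    · rintro (hy | hy)
      · exact h y hy
      · exact hy.1
  · rw [List.nodup_append]
    refine ⟨hG, hP.filter _, ?_⟩
    intro y hy z hz hyz
    subst hyz
    have := (List.mem_filter.1 hz).2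
    simp only [decide_not, Bool.not_eq_eq_eq_not, Bool.not_true, decide_eq_false_iff_not] at this
    exact this hy

theorem exists_labels (c : List (ℕ × ℕ)) : ∀ ls' : List (ℕ × ℤ),
    ls'.map Prod.fst = c.map Prod.fst →
    ∃ c' : List ((ℕ × ℤ) × ℕ), c'.map (fun p => (p.1.1, p.2)) = c ∧ c'.map Prod.fst = ls' := by
  induction c with
  | nil =>
    intro ls' h
    have : ls' = [] := by simpa using h
    subst this
    exact ⟨[], rfl, rfl⟩
  | cons p c ih =>
    intro ls' h
    cases ls' with
    | nil => simp at h
    | cons l ls' =>
      rw [List.map_cons, List.map_cons, List.cons.injEq] at h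
      obtain ⟨c', h1, h2⟩ := ih ls' h.2
      refine ⟨(l, p.2) :: c', ?_, ?_⟩
      · rw [List.map_cons, h1]
        simp only [h.1]
      · rw [List.map_cons, h2]

theorem nodup_append_range' {P : List ℕ} (hP : P.Nodup) {q n : ℕ} (h : ∀ x ∈ P, x < q) :
    (P ++ List.range' q n).Nodup := by
  rw [List.nodup_append]
  refine ⟨hP, List.nodup_range', ?_⟩
  intro y hy z hz hyz
  have h1 := h y hy
  have h2 := (List.mem_range'_1.1 hz).1
  omega

/-- Module T, from a filling to signs -/
theorem procFace_signs (outer : Bool) (k q q' : ℕ) (L : List (List ℕ)) (c : List (ℕ × ℕ))
    (hne : c ≠ []) (hq : ∀ p ∈ c, p.1 < q)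
    (h : procFace outer k q c = some (L, q')) (P F : List ℕ) (hP : ∀ x ∈ P, x < q)
    (hnd : P.Nodup) (hF : List.Forall₂ (fun x l => x ∈ l) F L)
    (hp : F.Perm (P ++ List.range' q (q' - q))) :
    ∃ c' : List ((ℕ × ℤ) × ℕ), c'.map (fun p => (p.1.1, p.2)) = c ∧
      (∀ p ∈ c', p.1.2 = 1 ∨ p.1.2 = -1) ∧
      algGood (if outer then 2 else -2) k (c'.map (fun p => (p.1.2, p.2))) ∧
      (plusTokens c').Perm P := by
  induction k generalizing q q' L c P F with
  | zero => simp [procFace] at h
  | succ k ih =>
    rw [procFace] at h
    cases hv : view c with
    | done =>
      rw [hv] at h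
      simp only at h
      split at h
      · rename_i heven
        simp only [Option.some.injEq, Prod.mk.injEq] at h
        obtain ⟨rfl, rfl⟩ := h
        rw [Nat.sub_self, List.range'_zero, List.append_nil] at hp
        rw [forall₂_replicate] at hF
        obtain ⟨ls', h1, h2, h3⟩ := choose_signs (c.map Prod.fst) F (hp.nodup_iff.2 hnd) hF.2
        obtain ⟨c', h4, h5⟩ := exists_labels c ls' h1
        have hs : ∀ p ∈ c', p.1.2 = 1 ∨ p.1.2 = -1 := by
          intro p hp
          refine h2 p.1 ?_
          rw [← h5]
          exact List.mem_map_of_mem hp
        refine ⟨c', h4, hs, ?_, ?_⟩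
        · have hv1 := view_lmap Prod.fst c'
          have hv2 := view_lmap Prod.snd c'
          rw [h4, hv] at hv1
          cases hv' : view c' with
          | bad =>
            rw [hv'] at hv1
            simp [View.lmap] at hv1
          | red x a us t u b rest =>
            rw [hv'] at hv1
            simp [View.lmap] at hv1
          | done =>
            rw [hv'] at hv2
            rw [algGood, hv2]
            simp only [View.lmap]
            rw [sum_target c' hs, plusTokens_eq, h5, h3.length_eq, hF.1]
            have h6 : c'.length = c.length := by
              rw [← h4, List.length_map]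
            have h7 : 0 < c.length := List.length_pos_iff.2 hne
            rw [h6]
            split
            · push_cast
              omega
            · omega
        · rw [plusTokens_eq, h5]
          exact h3.trans hp
      · simp at h
    | bad =>
      rw [hv] at h
      simp at h
    | red x a us t u b rest =>
      have hperm := view_red_perm hv
      have hxq : x < q := hq (x, a) (hperm.subset (by simp))
      have husq : ∀ y ∈ us ++ [u], y < q := by
        intro y hy
        rcases List.mem_append.1 hy with h1 | h1
        · exact hq (y, t) (hperm.subset (by simp [h1]))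
        · rw [List.mem_singleton.1 h1]
          exact hq (u, b) (hperm.subset (by simp))
      have hrestq : ∀ p ∈ rest, p.1 < q := by
        intro p hpm
        exact hq p (hperm.subset (by simp [hpm]))
      rw [hv] at h
      simp only at h
      split at h
      · rename_i heven
        split at h
        · simp at h
        · rename_i L' q'' hr
          simp only [Option.some.injEq, Prod.mk.injEq] at h
          obtain ⟨rfl, rfl⟩ := h
          obtain ⟨F₁, F₂, rfl, hF₁, hF₂⟩ := forall₂_append_split hF
          rw [forall₂_replicate] at hF₁
          have hnd2 := hp.nodup_iff.2 (nodup_append_range' hnd hP)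
          have hndF₁ : F₁.Nodup := (List.nodup_append.1 hnd2).1
          obtain ⟨P₂, hP₂⟩ := tok_exists_split hnd hndF₁ (by
            intro y hy
            have h1 : y ∈ P ++ List.range' q (q'' - q) :=
              hp.subset (List.mem_append_left _ hy)
            rcases List.mem_append.1 h1 with h1 | h1
            · exact h1
            · have h2 := husq y (hF₁.2 y hy)
              have h3 := (List.mem_range'_1.1 h1).1
              omega)
          have hp2 : F₂.Perm (P₂ ++ List.range' q (q'' - q)) := by
            have h1 : (F₁ ++ F₂).Perm ((F₁ ++ P₂) ++ List.range' q (q'' - q)) :=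
              hp.trans (hP₂.append_right _)
            rw [List.append_assoc] at h1
            exact (List.perm_append_left_iff F₁).1 h1
          have hndP₂ : P₂.Nodup := (List.nodup_append.1 (hP₂.nodup_iff.1 hnd)).2.1
          obtain ⟨c₂, hc1, hc2, hc3, hc4⟩ := ih q q'' L' ((x, a + b - t) :: rest) (by simp) (by
            intro p hpm
            rcases List.mem_cons.1 hpm with rfl | hpm
            · exact hxq
            · exact hrestq p hpm) hr P₂ F₂ (by
            intro y hy
            exact hP y (hP₂.symm.subset (List.mem_append_right _ hy))) hndP₂ hF₂ hp2
          obtain ⟨ls', hl1, hl2, hl3⟩ := choose_signs (us ++ [u]) F₁ hndF₁ hF₁.2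
          obtain ⟨us', m', rfl, hus', hm'⟩ := List.map_eq_append_iff.1 hl1
          obtain ⟨u', m'', rfl, hu', hm''⟩ := List.map_eq_cons_iff.1 hm'
          have hm3 : m'' = [] := by simpa using hm''
          subst hm3
          obtain ⟨p', rest', rfl, hx', hrest'⟩ := List.map_eq_cons_iff.1 hc1
          obtain ⟨x', ab⟩ := p'
          simp only [Prod.mk.injEq] at hx'
          obtain ⟨hx', rfl⟩ := hx'
          obtain ⟨c', hc', hv'⟩ := assemble hv x' us' u' rest' hx' hus' hu' hrest'
          have hs' : ∀ p ∈ c', p.1.2 = 1 ∨ p.1.2 = -1 := by
            intro p hpm
            have h1 := (view_red_perm hv').symm.subset hpm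
            rcases List.mem_cons.1 h1 with rfl | h1
            · exact hc2 (x', a + b - t) List.mem_cons_self
            · rcases List.mem_append.1 h1 with h1 | h1
              · obtain ⟨y, hy, rfl⟩ := List.mem_map.1 h1
                exact hl2 y (List.mem_append_left _ hy)
              · rcases List.mem_cons.1 h1 with rfl | h1
                · exact hl2 u' (by simp)
                · exact hc2 p (List.mem_cons_of_mem _ h1)
          refine ⟨c', hc', hs', ?_, ?_⟩
          · have hlen : us'.length = us.length := by rw [← hus', List.length_map]
            rw [algGood, view_lmap Prod.snd c', hv']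
            simp only [View.lmap, List.length_map]
            rw [hlen, if_pos heven]
            have h1 := sum_group us' u' hl2
            rw [hl3.length_eq, hF₁.1, hlen] at h1
            refine ⟨?_, hc3⟩
            omega
          · refine (red_plus hv').trans ?_
            refine List.Perm.trans ?_ hP₂.symm
            refine hl3.append ?_
            rw [plusTokens_eq, List.map_cons] at hc4
            have h2 : plusL (x' :: rest'.map Prod.fst) = plusL [x'] ++ plusL (rest'.map Prod.fst) :=
              plusL_append [x'] _
            simp only at hc4
            rw [h2] at hc4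
            exact hc4
      · rename_i hodd
        split at h
        · simp at h
        · rename_i L' q'' hr
          simp only [Option.some.injEq, Prod.mk.injEq] at h
          obtain ⟨rfl, rfl⟩ := h
          have hle := procFace_le _ _ _ _ _ _ hr
          have hrange : List.range' q (q'' - q) = q :: List.range' (q + 1) (q'' - (q + 1)) := by
            have : q'' - q = (q'' - (q + 1)) + 1 := by omega
            rw [this, List.range'_succ]
          obtain ⟨F₁, F₂, rfl, hF₁, hF₂⟩ := forall₂_append_split hF
          rw [forall₂_replicate] at hF₁
          have hnd2 := hp.nodup_iff.2 (nodup_append_range' hnd hP)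
          have hndF₁ : F₁.Nodup := (List.nodup_append.1 hnd2).1
          -- the part of the group, and the set `P'` for the recursive call
          have key : ∃ G P₂ P' : List ℕ, ∃ s : ℤ, G.Nodup ∧ (∀ y ∈ G, y ∈ us ++ [u]) ∧
              P.Perm (G ++ P₂) ∧ F₂.Perm (P' ++ List.range' (q + 1) (q'' - (q + 1))) ∧
              (s = 1 ∨ s = -1) ∧
              P' = plusL [(q, s)] ++ P₂ ∧ 2 * (G.length : ℤ) - ((us.length + 1 : ℕ) : ℤ) = s := by
            by_cases hqF : q ∈ F₁
            · have hsub : ∀ y ∈ F₁.erase q, y ∈ us ++ [u] := by
                intro y hy
                have h1 := (hndF₁.mem_erase_iff).1 hy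
                rcases List.mem_cons.1 (hF₁.2 y h1.2) with h2 | h2
                · exact absurd h2 h1.1
                · exact h2
              obtain ⟨P₂, hP₂⟩ := tok_exists_split hnd (hndF₁.erase q) (by
                intro y hy
                have h1 : y ∈ P ++ List.range' q (q'' - q) :=
                  hp.subset (List.mem_append_left _ (List.mem_of_mem_erase hy))
                rcases List.mem_append.1 h1 with h1 | h1
                · exact h1
                · have h2 := husq y (hsub y hy)
                  have h3 := (List.mem_range'_1.1 h1).1
                  omega)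
              refine ⟨F₁.erase q, P₂, P₂, -1, hndF₁.erase q, hsub, hP₂, ?_, Or.inr rfl, ?_, ?_⟩
              · have h1 : (F₁ ++ F₂).Perm ((F₁.erase q ++ P₂) ++ List.range' q (q'' - q)) :=
                  hp.trans (hP₂.append_right _)
                rw [hrange] at h1
                have h2 : (F₁ ++ F₂).Perm ((q :: F₁.erase q) ++ F₂) :=
                  (List.perm_cons_erase hqF).append_right _
                have h3 := h2.symm.trans h1
                have h4 : ((F₁.erase q ++ P₂) ++ q :: List.range' (q + 1) (q'' - (q + 1))).Perm
                    ((q :: F₁.erase q) ++ (P₂ ++ List.range' (q + 1) (q'' - (q + 1)))) := by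
                  rw [List.perm_iff_count]
                  intro w
                  simp only [List.count_append, List.count_cons]
                  ring
                exact (List.perm_append_left_iff _).1 (h3.trans h4)
              · simp [plusL]
              · have h1 := List.length_erase_of_mem hqF
                have h2 : 0 < F₁.length := List.length_pos_of_mem hqF
                omega
            · have hsub : ∀ y ∈ F₁, y ∈ us ++ [u] := by
                intro y hy
                rcases List.mem_cons.1 (hF₁.2 y hy) with h2 | h2
                · rw [h2] at hy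
                  exact absurd hy hqF
                · exact h2
              obtain ⟨P₂, hP₂⟩ := tok_exists_split hnd hndF₁ (by
                intro y hy
                have h1 : y ∈ P ++ List.range' q (q'' - q) :=
                  hp.subset (List.mem_append_left _ hy)
                rcases List.mem_append.1 h1 with h1 | h1
                · exact h1
                · have h2 := husq y (hsub y hy)
                  have h3 := (List.mem_range'_1.1 h1).1
                  omega)
              refine ⟨F₁, P₂, q :: P₂, 1, hndF₁, hsub, hP₂, ?_, Or.inl rfl, ?_, ?_⟩
              · have h1 : (F₁ ++ F₂).Perm ((F₁ ++ P₂) ++ List.range' q (q'' - q)) :=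
                  hp.trans (hP₂.append_right _)
                rw [hrange] at h1
                have h4 : ((F₁ ++ P₂) ++ q :: List.range' (q + 1) (q'' - (q + 1))).Perm
                    (F₁ ++ ((q :: P₂) ++ List.range' (q + 1) (q'' - (q + 1)))) := by
                  rw [List.perm_iff_count]
                  intro w
                  simp only [List.count_append, List.count_cons]
                  ring
                exact (List.perm_append_left_iff _).1 (h1.trans h4)
              · simp [plusL]
              · omega
          obtain ⟨G, P₂, P', s, hG1, hG2, hG3, hG4, hs, rfl, hG6⟩ := key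
          have hP₂q : ∀ y ∈ P₂, y < q := by
            intro y hy
            exact hP y (hG3.symm.subset (List.mem_append_right _ hy))
          have hndP₂ : P₂.Nodup := (List.nodup_append.1 (hG3.nodup_iff.1 hnd)).2.1
          have hplusq : ∀ y ∈ plusL [(q, s)], y = q := by
            intro y hy
            simpa using plusL_sub _ y hy
          obtain ⟨c₂, hc1, hc2, hc3, hc4⟩ := ih (q + 1) q'' L' ((x, a) :: (q, b) :: rest) (by simp)
            (by
              intro p hpm
              rcases List.mem_cons.1 hpm with rfl | hpm
              · exact Nat.lt_succ_of_lt hxq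
              · rcases List.mem_cons.1 hpm with rfl | hpm
                · exact Nat.lt_succ_self _
                · exact Nat.lt_succ_of_lt (hrestq p hpm)) hr (plusL [(q, s)] ++ P₂) F₂ (by
              intro y hy
              rcases List.mem_append.1 hy with hy | hy
              · rw [hplusq y hy]
                exact Nat.lt_succ_self _
              · exact Nat.lt_succ_of_lt (hP₂q y hy)) (by
              rw [List.nodup_append]
              refine ⟨?_, hndP₂, ?_⟩
              · rcases hs with rfl | rfl <;> simp [plusL]
              · intro y hy z hz hyz
                have h1 := hplusq y hy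
                have h2 := hP₂q z hz
                omega) hF₂ hG4
          obtain ⟨ls', hl1, hl2, hl3⟩ := choose_signs (us ++ [u]) G hG1 hG2
          obtain ⟨us', m', rfl, hus', hm'⟩ := List.map_eq_append_iff.1 hl1
          obtain ⟨u', m'', rfl, hu', hm''⟩ := List.map_eq_cons_iff.1 hm'
          have hm3 : m'' = [] := by simpa using hm''
          subst hm3
          obtain ⟨p', rest₁, rfl, hx', hrest₁⟩ := List.map_eq_cons_iff.1 hc1
          obtain ⟨p'', rest', rfl, hq', hrest'⟩ := List.map_eq_cons_iff.1 hrest₁
          obtain ⟨x', a'⟩ := p'
          obtain ⟨⟨q₁, s₁⟩, b'⟩ := p''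
          simp only [Prod.mk.injEq] at hx' hq'
          obtain ⟨hx', rfl⟩ := hx'
          obtain ⟨rfl, rfl⟩ := hq'
          obtain ⟨c', hc', hv'⟩ := assemble hv x' us' u' rest' hx' hus' hu' hrest'
          have hs' : ∀ p ∈ c', p.1.2 = 1 ∨ p.1.2 = -1 := by
            intro p hpm
            have h1 := (view_red_perm hv').symm.subset hpm
            rcases List.mem_cons.1 h1 with rfl | h1
            · exact hc2 (x', a') List.mem_cons_self
            · rcases List.mem_append.1 h1 with h1 | h1
              · obtain ⟨y, hy, rfl⟩ := List.mem_map.1 h1
                exact hl2 y (List.mem_append_left _ hy)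
              · rcases List.mem_cons.1 h1 with rfl | h1
                · exact hl2 u' (by simp)
                · exact hc2 p (List.mem_cons_of_mem _ (List.mem_cons_of_mem _ h1))
          -- decomposition of the plus tokens of the recursive list
          rw [plusTokens_eq, List.map_cons, List.map_cons] at hc4
          have h2 : plusL (x' :: (q₁, s₁) :: rest'.map Prod.fst)
              = plusL [x'] ++ (plusL [(q₁, s₁)] ++ plusL (rest'.map Prod.fst)) := by
            rw [← plusL_append, ← plusL_append]
            rfl
          simp only at hc4
          rw [h2] at hc4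
          have hs₁ : s₁ = 1 ∨ s₁ = -1 :=
            hc2 ((q₁, s₁), b') (List.mem_cons_of_mem _ List.mem_cons_self)
          have hxn : q₁ ∉ plusL [x'] := by
            intro h3
            have h4 := plusL_sub _ _ h3
            simp only [List.map_cons, List.map_nil, List.mem_singleton] at h4
            omega
          have hrn : q₁ ∉ plusL (rest'.map Prod.fst) := by
            intro h3
            have h4 := plusL_sub _ _ h3
            rw [List.map_map] at h4
            obtain ⟨p, hp1, hp2⟩ := List.mem_map.1 h4
            have h5 : (p.1.1, p.2) ∈ rest := by
              rw [← hrest']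
              exact List.mem_map.2 ⟨p, hp1, rfl⟩
            have h6 := hrestq _ h5
            simp only [Function.comp] at hp2
            simp only at h6
            omega
          have hPn : q₁ ∉ P₂ := by
            intro h3
            have := hP₂q _ h3
            omega
          have hss : s₁ = s := by
            rcases hs₁ with rfl | rfl
            · rcases hs with rfl | rfl
              · rfl
              · exfalso
                have h3 : q₁ ∈ plusL [x'] ++ (plusL [(q₁, (1 : ℤ))] ++ plusL (rest'.map Prod.fst)) := by
                  simp [plusL]
                have h4 := hc4.subset h3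
                have h5 : plusL [(q₁, (-1 : ℤ))] = [] := by simp [plusL]
                rw [h5, List.nil_append] at h4
                exact hPn h4
            · rcases hs with rfl | rfl
              · exfalso
                have h3 : q₁ ∈ plusL [(q₁, (1 : ℤ))] ++ P₂ := by
                  simp [plusL]
                have h4 := hc4.symm.subset h3
                have h5 : plusL [(q₁, (-1 : ℤ))] = [] := by simp [plusL]
                rw [h5, List.nil_append] at h4
                rcases List.mem_append.1 h4 with h4 | h4
                · exact hxn h4
                · exact hrn h4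
              · rfl
          subst hss
          have hcancel : (plusL [x'] ++ plusL (rest'.map Prod.fst)).Perm P₂ := by
            have h3 : (plusL [x'] ++ (plusL [(q₁, s₁)] ++ plusL (rest'.map Prod.fst))).Perm
                (plusL [(q₁, s₁)] ++ (plusL [x'] ++ plusL (rest'.map Prod.fst))) := by
              rw [← List.append_assoc, ← List.append_assoc]
              exact List.Perm.append_right _ List.perm_append_comm
            exact (List.perm_append_left_iff _).1 (h3.symm.trans hc4)
          refine ⟨c', hc', hs', ?_, ?_⟩
          · have hlen : us'.length = us.length := by rw [← hus', List.length_map]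
            rw [algGood, view_lmap Prod.snd c', hv']
            simp only [View.lmap, List.length_map]
            rw [hlen, if_neg hodd]
            have h1 := sum_group us' u' hl2
            rw [hl3.length_eq, hlen, hG6] at h1
            rw [h1]
            refine ⟨?_, hc3⟩
            rcases hs₁ with h3 | h3 <;> rw [h3] <;> norm_num
          · refine (red_plus hv').trans ?_
            refine List.Perm.trans ?_ hG3.symm
            exact hl3.append hcancel

end Pool.Agent.FlatFold
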