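import Mathlib
import Pool.Agent.Lib.MP_b92007_lc.Tokens
import Pool.Agent.Lib.MP_b92007_lc.Faces

/-!
The polynomial time algorithm.  An instance is a pair of the adjacency lists (for every vertex
the list of the pairs (neighbour, length) in counterclockwise order) and the outer dart.
-/

namespace Pool.Agent.FlatFold

open PlaneGraph

/-- the instance of a plane graph -/
def PlaneGraph.data (G : PlaneGraph) : List (List (ℕ × ℕ)) × (ℕ × ℕ) :=
  ((List.finRange G.n).map (fun u => (G.nbr u).map (fun v => (v.val, G.len u v))),
    ((G.outer.1 : ℕ), (G.outer.2 : ℕ)))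

/-- neighbours -/
def nbrL (A : List (List (ℕ × ℕ))) (u : ℕ) : List ℕ := (A.getD u []).map Prod.fst

/-- all darts -/
def dartsL (A : List (List (ℕ × ℕ))) : List (ℕ × ℕ) :=
  (List.range A.length).flatMap (fun u => (nbrL A u).map (fun v => (u, v)))

/-- length of a dart -/
def lenL (A : List (List (ℕ × ℕ))) (d : ℕ × ℕ) : ℕ := ((A.getD d.1 []).lookup d.2).getD 0

/-- cyclic predecessor -/
def prevL (l : List ℕ) (u : ℕ) : ℕ := ((l.zip (l.getLastD 0 :: l)).lookup u).getD 0

/-- the next dart in the face -/
def nextL (A : List (List (ℕ × ℕ))) (d : ℕ × ℕ) : ℕ × ℕ := (d.2, prevL (nbrL A d.2) d.1)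

/-- one step of the computation of the face of `d` -/
def orbStep (A : List (List (ℕ × ℕ))) (d : ℕ × ℕ) (s : List (ℕ × ℕ) × (ℕ × ℕ) × Bool) :
    List (ℕ × ℕ) × (ℕ × ℕ) × Bool :=
  if s.2.2 then s else
    (s.2.1 :: s.1, nextL A s.2.1, decide (nextL A s.2.1 = d))

/-- the darts of the face of `d` -/
def orbitL (A : List (List (ℕ × ℕ))) (d : ℕ × ℕ) : List (ℕ × ℕ) :=
  ((orbStep A d)^[(dartsL A).length] ([], d, false)).1.reverse

/-- the token of a dart -/
def tokL (A : List (List (ℕ × ℕ))) (d : ℕ × ℕ) : ℕ := (dartsL A).idxOf d

/-- is the dart the first one of its face? -/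
def isRep (A : List (List (ℕ × ℕ))) (d : ℕ × ℕ) : Bool :=
  (orbitL A d).all (fun e => decide (tokL A d ≤ tokL A e))

/-- one dart of every face -/
def repsL (A : List (List (ℕ × ℕ))) : List (ℕ × ℕ) := (dartsL A).filter (isRep A)

/-- the cyclic list (token, length) of the face of a dart -/
def faceL (A : List (List (ℕ × ℕ))) (d : ℕ × ℕ) : List (ℕ × ℕ) :=
  (orbitL A d).map (fun e => (tokL A e, lenL A e))

/-- process one more face -/
def slotStep (A : List (List (ℕ × ℕ))) (o : ℕ × ℕ) (s : Option (List (List ℕ) × ℕ))
    (d : ℕ × ℕ) : Option (List (List ℕ) × ℕ) :=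
  match s with
  | none => none
  | some (L, q) =>
    match procFace (decide (o ∈ orbitL A d)) (faceL A d).length q (faceL A d) with
    | none => none
    | some (L', q') => some (L ++ L', q')

/-- the slots of all faces and the number of tokens -/
def slotsL (I : List (List (ℕ × ℕ)) × (ℕ × ℕ)) : Option (List (List ℕ) × ℕ) :=
  (repsL I.1).foldl (slotStep I.1 I.2) (some ([], (dartsL I.1).length))

/-- the slots of the vertices: one slot less than the degree -/
def vertSlots (A : List (List (ℕ × ℕ))) : List (List ℕ) :=
  (List.range A.length).flatMap (fun u => List.replicate ((nbrL A u).length - 1)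
    ((nbrL A u).map (fun v => tokL A (u, v))))

/-- a partial level function: type of the vertex and the level as a difference -/
abbrev Lev := List (Option (Bool × ℕ × ℕ))

/-- initial partial level function -/
def levInit (A : List (List (ℕ × ℕ))) : Lev :=
  (List.range A.length).map (fun v => if v = 0 then some (true, 0, 0) else none)

/-- propagate the levels -/
def levStep (A : List (List (ℕ × ℕ))) (s : Lev) : Lev :=
  (List.range A.length).map (fun v =>
    match s.getD v none with
    | some x => some x
    | none => (A.getD v []).findSome? (fun p =>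
        (s.getD p.1 none).map (fun x => (!x.1, if x.1 then x.2.1 + p.2 else x.2.1,
          if x.1 then x.2.2 else x.2.2 + p.2))))

/-- the computed levels -/
def levL (A : List (List (ℕ × ℕ))) : Lev := (levStep A)^[A.length] (levInit A)

/-- check one dart -/
def levCheck (A : List (List (ℕ × ℕ))) (s : Lev) (d : ℕ × ℕ) : Bool :=
  match s.getD d.1 none, s.getD d.2 none with
  | some x, some y => (y.1 == !x.1) &&
      (!x.1 || decide (y.2.1 + x.2.2 = x.2.1 + lenL A d + y.2.2))
  | _, _ => false

/-- is there a level function? -/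
def levOK (A : List (List (ℕ × ℕ))) : Bool := (dartsL A).all (levCheck A (levL A))

/-- the algorithm -/
def algo (I : List (List (ℕ × ℕ)) × (ℕ × ℕ)) : Bool :=
  levOK I.1 &&
    match slotsL I with
    | none => false
    | some (L, q) => auction (vertSlots I.1 ++ L) q

end Pool.Agent.FlatFold
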