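import Mathlib
import Pool.Agent.Lib.MP_b92007_lc.AlgoDefs

/-! Correctness of the computation of the levels. -/

namespace Pool.Agent.FlatFold

open PlaneGraph

variable (G : PlaneGraph)

theorem data_length : G.data.1.length = G.n := by
  simp [PlaneGraph.data]

theorem data_getD (v : Fin G.n) :
    G.data.1.getD v [] = (G.nbr v).map (fun w => (w.val, G.len v w)) := by
  unfold PlaneGraph.data
  rw [List.getD_eq_getElem?_getD, List.getElem?_map, List.getElem?_eq_getElem (by simp)]
  simp

theorem nbrL_data (v : Fin G.n) : nbrL G.data.1 v = (G.nbr v).map Fin.val := by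
  unfold nbrL
  rw [data_getD, List.map_map]
  rfl

theorem mem_dartsL (d : ℕ × ℕ) : d ∈ dartsL G.data.1 ↔
    ∃ u v : Fin G.n, v ∈ G.nbr u ∧ d = (u.val, v.val) := by
  unfold dartsL
  rw [List.mem_flatMap, data_length]
  constructor
  · rintro ⟨u, hu, hd⟩
    rw [List.mem_range] at hu
    have h1 : nbrL G.data.1 u = (G.nbr ⟨u, hu⟩).map Fin.val := nbrL_data G ⟨u, hu⟩
    rw [h1, List.map_map, List.mem_map] at hd
    obtain ⟨v, hv, rfl⟩ := hd
    exact ⟨⟨u, hu⟩, v, hv, rfl⟩
  · rintro ⟨u, v, hv, rfl⟩
    refine ⟨u.val, List.mem_range.2 u.2, ?_⟩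
    rw [nbrL_data, List.map_map, List.mem_map]
    exact ⟨v, hv, rfl⟩

theorem lookup_map_val {n : ℕ} (l : List (Fin n)) (f : Fin n → ℕ) (v : Fin n) (hv : v ∈ l) :
    (l.map (fun w => (w.val, f w))).lookup v.val = some (f v) := by
  induction l with
  | nil => simp at hv
  | cons w l ih =>
    rw [List.map_cons, List.lookup_cons]
    by_cases h : v = w
    · subst h; simp
    · have h1 : (v.val == w.val) = false := by
        rw [beq_eq_false_iff_ne]
        intro h2; exact h (Fin.ext h2)
      rw [h1]
      exact ih ((List.mem_cons.1 hv).resolve_left h)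

theorem lenL_data (u v : Fin G.n) (hv : v ∈ G.nbr u) :
    lenL G.data.1 (u.val, v.val) = G.len u v := by
  unfold lenL
  rw [data_getD]
  have := lookup_map_val (G.nbr u) (fun w => G.len u w) v hv
  rw [this]
  rfl

/-- the root -/
def rootV : Fin G.n := ⟨0, lt_of_le_of_lt (Nat.zero_le _) G.outer.1.2⟩

variable {G}

theorem IsLevel.normalize {typ : Fin G.n → Bool} {X : Fin G.n → ℤ} (h : IsLevel G typ X) :
    ∃ typ X, IsLevel G typ X ∧ typ (rootV G) = true ∧ X (rootV G) = 0 := by
  cases hr : typ (rootV G)
  · refine ⟨fun v => !typ v, fun v => -(X v) + X (rootV G), ⟨?_, ?_⟩, by simp [hr], by simp⟩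
    · intro u v hv
      rw [h.typ_ne u v hv]
    · intro u v hv hu
      have hu' : typ u = false := by simpa using hu
      have h1 := h.typ_ne u v hv
      rw [hu'] at h1
      have h2 := h.level v u (G.symm _ _ hv) (by simpa using h1)
      rw [← G.len_symm _ _ hv] at h2
      omega
  · refine ⟨typ, fun v => X v - X (rootV G), ⟨h.typ_ne, ?_⟩, hr, by simp⟩
    intro u v hv hu
    have := h.level u v hv hu
    omega

variable (G)

/-- the partial levels after `k` rounds -/
def levK (k : ℕ) : Lev := (levStep G.data.1)^[k] (levInit G.data.1)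

theorem levInit_getD (v : Fin G.n) : (levInit G.data.1).getD v none =
    if v.val = 0 then some (true, 0, 0) else none := by
  unfold levInit
  rw [List.getD_eq_getElem?_getD, List.getElem?_map, data_length,
    List.getElem?_range v.2]
  rfl

theorem levStep_getD (s : Lev) (v : Fin G.n) : (levStep G.data.1 s).getD v none =
    match s.getD v none with
    | some x => some x
    | none => ((G.nbr v).map (fun w => (w.val, G.len v w))).findSome? (fun p =>
        (s.getD p.1 none).map (fun x => (!x.1, if x.1 then x.2.1 + p.2 else x.2.1,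
          if x.1 then x.2.2 else x.2.2 + p.2))) := by
  unfold levStep
  rw [List.getD_eq_getElem?_getD, List.getElem?_map, data_length,
    List.getElem?_range v.2]
  show (match s.getD v none with
    | some x => some x
    | none => (G.data.1.getD v []).findSome? _) = _
  rw [data_getD]

theorem levK_succ (k : ℕ) : levK G (k + 1) = levStep G.data.1 (levK G k) := by
  unfold levK
  rw [Function.iterate_succ_apply']

theorem levK_root (k : ℕ) : ((levK G k).getD (rootV G) none).isSome := by
  induction k with
  | zero =>
    show ((levInit G.data.1).getD (rootV G) none).isSome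
    rw [levInit_getD]
    rfl
  | succ k ih =>
    rw [levK_succ, levStep_getD]
    obtain ⟨x, hx⟩ := Option.isSome_iff_exists.1 ih
    rw [hx]
    rfl

theorem levK_mono (k : ℕ) (v : Fin G.n) (h : ((levK G k).getD v none).isSome) :
    ((levK G (k + 1)).getD v none).isSome := by
  rw [levK_succ, levStep_getD]
  obtain ⟨x, hx⟩ := Option.isSome_iff_exists.1 h
  rw [hx]
  rfl

theorem levK_nbr (k : ℕ) (v w : Fin G.n) (hw : w ∈ G.nbr v)
    (h : ((levK G k).getD w none).isSome) : ((levK G (k + 1)).getD v none).isSome := by
  by_cases hv : ((levK G k).getD v none).isSome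
  · exact levK_mono G k v hv
  · rw [levK_succ, levStep_getD]
    rw [Option.not_isSome_iff_eq_none] at hv
    rw [hv]
    dsimp only
    rw [List.findSome?_isSome_iff]
    refine ⟨(w.val, G.len v w), List.mem_map.2 ⟨w, hw, rfl⟩, ?_⟩
    rw [Option.isSome_map]
    exact h

/-- vertices with a level after `k` rounds -/
def RK (k : ℕ) : Finset (Fin G.n) :=
  Finset.univ.filter (fun v => ((levK G k).getD v none).isSome)

theorem mem_RK (k : ℕ) (v : Fin G.n) : v ∈ RK G k ↔ ((levK G k).getD v none).isSome := by
  simp [RK]

theorem RK_card (k : ℕ) : k + 1 ≤ (RK G k).card ∨ RK G k = Finset.univ := by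
  induction k with
  | zero =>
    left
    rw [Nat.zero_add, Nat.one_le_iff_ne_zero, ← Nat.pos_iff_ne_zero, Finset.card_pos]
    exact ⟨rootV G, (mem_RK G 0 _).2 (levK_root G 0)⟩
  | succ k ih =>
    have hsub : RK G k ⊆ RK G (k + 1) := by
      intro v hv
      rw [mem_RK] at hv ⊢
      exact levK_mono G k v hv
    by_cases huniv : RK G k = Finset.univ
    · right
      rw [Finset.eq_univ_iff_forall] at huniv ⊢
      exact fun v => hsub (huniv v)
    · left
      have h1 := ih.resolve_right huniv
      -- a crossing edge
      have hex : ∃ a ∈ RK G k, ∃ b, b ∈ G.nbr a ∧ b ∉ RK G k := by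
        by_contra hcon
        push Not at hcon
        apply huniv
        rw [Finset.eq_univ_iff_forall]
        intro v
        have := G.connected (rootV G) v
        induction this with
        | refl => exact (mem_RK G k _).2 (levK_root G k)
        | tail _ hab ih => exact hcon _ ih _ hab
      obtain ⟨a, ha, b, hb, hbn⟩ := hex
      have hb' : b ∈ RK G (k + 1) := by
        rw [mem_RK] at ha ⊢
        exact levK_nbr G k b a (G.symm _ _ hb) ha
      have : (RK G k).card < (RK G (k + 1)).card := by
        apply Finset.card_lt_card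
        rw [Finset.ssubset_iff_of_subset hsub]
        exact ⟨b, hb', hbn⟩
      omega

theorem levL_isSome (v : Fin G.n) : ((levL G.data.1).getD v none).isSome := by
  have h : RK G G.n = Finset.univ := by
    rcases RK_card G G.n with h | h
    · exfalso
      have := Finset.card_le_univ (RK G G.n)
      rw [Fintype.card_fin] at this
      omega
    · exact h
  have h2 : v ∈ RK G G.n := by rw [h]; exact Finset.mem_univ _
  rw [mem_RK] at h2
  unfold levL
  rw [data_length]
  exact h2

variable {G}

theorem levK_agree {typ : Fin G.n → Bool} {X : Fin G.n → ℤ} (hX : IsLevel G typ X)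
    (h1 : typ (rootV G) = true) (h2 : X (rootV G) = 0) (k : ℕ) :
    ∀ (v : Fin G.n) (x : Bool × ℕ × ℕ), (levK G k).getD v none = some x →
      x.1 = typ v ∧ (x.2.1 : ℤ) - x.2.2 = X v := by
  induction k with
  | zero =>
    intro v x hx
    have hx' : (levInit G.data.1).getD v none = some x := hx
    rw [levInit_getD] at hx'
    split_ifs at hx' with h0
    have hv : v = rootV G := Fin.ext h0
    rw [Option.some.injEq] at hx'
    subst hx'
    rw [hv, h1, h2]
    simp
  | succ k ih =>
    intro v x hx
    rw [levK_succ, levStep_getD] at hx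
    cases hs : (levK G k).getD v none with
    | some y =>
      rw [hs] at hx
      dsimp only at hx
      rw [Option.some.injEq] at hx
      subst hx
      exact ih v y hs
    | none =>
      rw [hs] at hx
      dsimp only at hx
      obtain ⟨p, hp, hpx⟩ := List.exists_of_findSome?_eq_some hx
      rw [List.mem_map] at hp
      obtain ⟨w, hw, rfl⟩ := hp
      rw [Option.map_eq_some_iff] at hpx
      obtain ⟨y, hy, rfl⟩ := hpx
      obtain ⟨e1, e2⟩ := ih w y hy
      have hty := hX.typ_ne _ _ hw
      cases hyt : y.1
      · rw [hyt] at e1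
        have hv : typ v = true := by
          rw [← e1] at hty
          cases h : typ v
          · rw [h] at hty; simp at hty
          · rfl
        have hl := hX.level v w hw hv
        refine ⟨by simp [hv], ?_⟩
        simp only [Bool.false_eq_true, if_false]
        push_cast
        omega
      · rw [hyt] at e1
        have hv : typ v = false := by
          rw [← e1] at hty
          cases h : typ v
          · rfl
          · rw [h] at hty; simp at hty
        have hl := hX.level w v (G.symm _ _ hw) e1.symm
        rw [← G.len_symm _ _ hw] at hl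
        refine ⟨by simp [hv], ?_⟩
        simp only [if_true]
        push_cast
        omega

variable (G)

/-- Module L: correctness of the level computation -/
theorem levOK_iff : levOK G.data.1 = true ↔ ∃ typ X, IsLevel G typ X := by
  unfold levOK
  rw [List.all_eq_true]
  constructor
  · intro h
    refine ⟨fun v => (((levL G.data.1).getD v none).getD (true, 0, 0)).1,
      fun v => ((((levL G.data.1).getD v none).getD (true, 0, 0)).2.1 : ℤ) -
        (((levL G.data.1).getD v none).getD (true, 0, 0)).2.2, ?_⟩
    have key : ∀ u v, v ∈ G.nbr u → ∀ x, (levL G.data.1).getD (u : Fin G.n) none = some x →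
        ∀ y, (levL G.data.1).getD (v : Fin G.n) none = some y →
        y.1 = !x.1 ∧ (x.1 = true → y.2.1 + x.2.2 = x.2.1 + G.len u v + y.2.2) := by
      intro u v hv x hx y hy
      have h1 := h (u.val, v.val) ((mem_dartsL G _).2 ⟨u, v, hv, rfl⟩)
      unfold levCheck at h1
      rw [hx, hy, lenL_data G u v hv] at h1
      simp only [Bool.and_eq_true, beq_iff_eq, Bool.or_eq_true, Bool.not_eq_true',
        decide_eq_true_eq] at h1
      refine ⟨h1.1, ?_⟩
      intro hx1
      rcases h1.2 with h2 | h2
      · rw [hx1] at h2; simp at h2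
      · exact h2
    constructor
    · intro u v hv
      obtain ⟨x, hx⟩ := Option.isSome_iff_exists.1 (levL_isSome G u)
      obtain ⟨y, hy⟩ := Option.isSome_iff_exists.1 (levL_isSome G v)
      rw [hx, hy]
      exact (key u v hv x hx y hy).1
    · intro u v hv hu
      obtain ⟨x, hx⟩ := Option.isSome_iff_exists.1 (levL_isSome G u)
      obtain ⟨y, hy⟩ := Option.isSome_iff_exists.1 (levL_isSome G v)
      rw [hx] at hu
      rw [hx, hy]
      have := (key u v hv x hx y hy).2 hu
      show (y.2.1 : ℤ) - y.2.2 = x.2.1 - x.2.2 + G.len u v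
      have h2 : ((y.2.1 + x.2.2 : ℕ) : ℤ) = ((x.2.1 + G.len u v + y.2.2 : ℕ) : ℤ) := by
        exact_mod_cast this
      push_cast at h2
      omega
  · rintro ⟨typ0, X0, h0⟩ d hd
    obtain ⟨typ, X, hX, h1, h2⟩ := h0.normalize
    obtain ⟨u, v, hv, rfl⟩ := (mem_dartsL G _).1 hd
    obtain ⟨x, hx⟩ := Option.isSome_iff_exists.1 (levL_isSome G u)
    obtain ⟨y, hy⟩ := Option.isSome_iff_exists.1 (levL_isSome G v)
    have hL : levL G.data.1 = levK G G.n := by
      unfold levL levK
      rw [data_length]
    have ax := levK_agree hX h1 h2 G.n u x (hL ▸ hx)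
    have ay := levK_agree hX h1 h2 G.n v y (hL ▸ hy)
    unfold levCheck
    rw [hx, hy, lenL_data G u v hv]
    simp only [Bool.and_eq_true, beq_iff_eq, Bool.or_eq_true, Bool.not_eq_true',
      decide_eq_true_eq]
    have hty := hX.typ_ne _ _ hv
    refine ⟨by rw [ax.1, ay.1, hty], ?_⟩
    cases hxt : x.1
    · left; rfl
    · right
      have hl := hX.level u v hv (by rw [← ax.1, hxt])
      have h3 := ax.2
      have h4 := ay.2
      have : ((y.2.1 + x.2.2 : ℕ) : ℤ) = ((x.2.1 + G.len u v + y.2.2 : ℕ) : ℤ) := by
        push_cast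
        omega
      exact_mod_cast this

end Pool.Agent.FlatFold
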