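import Mathlib
import Pool.Agent.Lib.MP_b92007_lc.AlgoDefs
import Pool.Agent.Lib.MP_b92007_lc.Levels

/-! Correctness of the matching formulation (module C). -/

namespace Pool.Agent.FlatFold

open PlaneGraph

/-! ### generic list facts -/

theorem ac_lookup_zip_getElem (a b : List ℕ) (ha : a.Nodup) (hab : a.length ≤ b.length) (i : ℕ)
    (hi : i < a.length) : (a.zip b).lookup a[i] = some (b[i]'(by omega)) := by
  induction a generalizing b i with
  | nil => simp at hi
  | cons x a ih =>
    cases b with
    | nil => simp at hab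
    | cons y b =>
      rw [List.zip_cons_cons, List.lookup_cons]
      cases i with
      | zero => simp
      | succ i =>
        rw [List.nodup_cons] at ha
        have h1 : ((x :: a)[i + 1] == x) = false := by
          rw [beq_eq_false_iff_ne, List.getElem_cons_succ]
          intro h2
          exact ha.1 (h2 ▸ List.getElem_mem _)
        rw [h1]
        simp only [List.getElem_cons_succ]
        exact ih b ha.2 (by simpa using hab) i (by simpa using hi)

theorem ac_prevL_eq {n : ℕ} (l : List (Fin n)) (hl : l.Nodup) (u : Fin n) (hu : u ∈ l) :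
    prevL (l.map Fin.val) u.val = (l.formPerm.symm u).val := by
  obtain ⟨j, hj, rfl⟩ := List.getElem_of_mem hu
  have hnd : (l.map Fin.val).Nodup := hl.map Fin.val_injective
  have h1 := ac_lookup_zip_getElem (l.map Fin.val) ((l.map Fin.val).getLastD 0 :: l.map Fin.val) hnd
    (by simp) j (by simpa using hj)
  unfold prevL
  rw [List.getElem_map] at h1
  rw [h1, Option.getD_some]
  cases j with
  | zero =>
    have hlen : l.length - 1 < l.length := by omega
    have h2 : l.formPerm.symm l[0] = l[l.length - 1] := by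
      rw [Equiv.symm_apply_eq, List.formPerm_apply_getElem _ hl]
      congr 1
      rw [Nat.sub_add_cancel (by omega), Nat.mod_self]
    rw [h2, List.getElem_cons_zero]
    have hne : l.map Fin.val ≠ [] := by
      intro h3
      rw [List.map_eq_nil_iff] at h3
      subst h3
      simp at hj
    rw [List.getLastD_eq_getLast?, List.getLast?_eq_getElem?, List.length_map,
      List.getElem?_eq_getElem (by simpa using hlen), List.getElem_map]
    rfl
  | succ j =>
    have h2 : l.formPerm.symm l[j + 1] = l[j] := by
      rw [Equiv.symm_apply_eq, List.formPerm_apply_getElem _ hl]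
      congr 1
      rw [Nat.mod_eq_of_lt hj]
    rw [h2, List.getElem_cons_succ, List.getElem_map]

section

variable (G : PlaneGraph)

/-- a dart as a pair of numbers -/
def ac_castD (d : Fin G.n × Fin G.n) : ℕ × ℕ := (d.1.val, d.2.val)

theorem ac_castD_inj : Function.Injective (ac_castD G) := by
  rintro ⟨a, b⟩ ⟨c, d⟩ h
  simp only [ac_castD, Prod.mk.injEq] at h
  exact Prod.ext (Fin.ext h.1) (Fin.ext h.2)

theorem ac_mem_dartsL' (d : ℕ × ℕ) : d ∈ dartsL G.data.1 ↔
    ∃ e : Fin G.n × Fin G.n, e.2 ∈ G.nbr e.1 ∧ d = ac_castD G e := by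
  rw [mem_dartsL]
  constructor
  · rintro ⟨u, v, h, rfl⟩
    exact ⟨(u, v), h, rfl⟩
  · rintro ⟨e, h, rfl⟩
    exact ⟨e.1, e.2, h, rfl⟩

theorem ac_castD_mem_dartsL (e : Fin G.n × Fin G.n) :
    ac_castD G e ∈ dartsL G.data.1 ↔ e.2 ∈ G.nbr e.1 := by
  rw [ac_mem_dartsL']
  constructor
  · rintro ⟨e', h, h'⟩
    rw [ac_castD_inj G h']
    exact h
  · intro h
    exact ⟨e, h, rfl⟩

theorem ac_faceNext_apply (d : Fin G.n × Fin G.n) :
    G.faceNext d = (d.2, (G.nbr d.2).formPerm.symm d.1) := rfl

theorem ac_nextL_castD (d : Fin G.n × Fin G.n) (hd : d.2 ∈ G.nbr d.1) :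
    nextL G.data.1 (ac_castD G d) = ac_castD G (G.faceNext d) := by
  unfold nextL
  rw [ac_faceNext_apply]
  show (d.2.val, prevL (nbrL G.data.1 d.2.val) d.1.val) = _
  rw [nbrL_data, ac_prevL_eq _ (G.nodup _) _ (G.symm _ _ hd)]
  rfl

theorem ac_dart_faceNext {d : Fin G.n × Fin G.n} (hd : d.2 ∈ G.nbr d.1) :
    (G.faceNext d).2 ∈ G.nbr (G.faceNext d).1 := by
  rw [ac_faceNext_apply]
  show (G.nbr d.2).formPerm.symm d.1 ∈ G.nbr d.2
  rw [← List.formPerm_mem_iff_mem, Equiv.apply_symm_apply]
  exact G.symm _ _ hd

theorem ac_dart_pow {d : Fin G.n × Fin G.n} (hd : d.2 ∈ G.nbr d.1) (k : ℕ) :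
    ((G.faceNext ^ k) d).2 ∈ G.nbr ((G.faceNext ^ k) d).1 := by
  induction k with
  | zero => exact hd
  | succ k ih =>
    rw [pow_succ', Equiv.Perm.mul_apply]
    exact ac_dart_faceNext G ih

theorem ac_dart_sameCycle {d e : Fin G.n × Fin G.n} (hd : d.2 ∈ G.nbr d.1)
    (h : G.faceNext.SameCycle d e) : e.2 ∈ G.nbr e.1 := by
  obtain ⟨k, rfl⟩ := h.exists_nat_pow_eq
  exact ac_dart_pow G hd k

theorem ac_dart_ne {d : Fin G.n × Fin G.n} (hd : d.2 ∈ G.nbr d.1) : G.faceNext d ≠ d := by
  intro h
  rw [ac_faceNext_apply] at h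
  have h1 := congrArg Prod.fst h
  simp only at h1
  rw [h1] at hd
  exact G.irrefl _ hd

theorem ac_nextL_iterate (d : Fin G.n × Fin G.n) (hd : d.2 ∈ G.nbr d.1) (k : ℕ) :
    (nextL G.data.1)^[k] (ac_castD G d) = ac_castD G ((G.faceNext ^ k) d) := by
  induction k with
  | zero => rfl
  | succ k ih =>
    rw [Function.iterate_succ_apply', ih, ac_nextL_castD _ _ (ac_dart_pow G hd k), pow_succ',
      Equiv.Perm.mul_apply]

theorem ac_orbStep_iterate (A : List (List (ℕ × ℕ))) (d : ℕ × ℕ) (m : ℕ) (hm : 0 < m)
    (h1 : (nextL A)^[m] d = d) (h2 : ∀ k, 0 < k → k < m → (nextL A)^[k] d ≠ d) (k : ℕ)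
    (hk : k ≤ m) :
    (orbStep A d)^[k] ([], d, false) =
      (((List.range k).map (fun i => (nextL A)^[i] d)).reverse, (nextL A)^[k] d,
        decide (k = m)) := by
  induction k with
  | zero =>
    have : decide (0 = m) = false := by simpa using hm.ne
    rw [this]
    rfl
  | succ k ih =>
    rw [Function.iterate_succ_apply', ih (by omega)]
    have h3 : decide (k = m) = false := by
      rw [decide_eq_false_iff_not]; omega
    rw [h3]
    unfold orbStep
    simp only [Bool.false_eq_true, if_false]
    rw [List.range_succ, List.map_append, List.reverse_append, List.map_singleton,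
      List.reverse_singleton, List.singleton_append, ← Function.iterate_succ_apply' (nextL A)]
    refine Prod.ext rfl (Prod.ext rfl ?_)
    show decide ((nextL A)^[k + 1] d = d) = decide (k + 1 = m)
    rw [decide_eq_decide]
    constructor
    · intro h4
      by_contra h5
      exact h2 (k + 1) (by omega) (by omega) h4
    · intro h4
      rw [h4, h1]

theorem ac_orbStep_stable (A : List (List (ℕ × ℕ))) (d : ℕ × ℕ) (s : List (ℕ × ℕ) × (ℕ × ℕ) × Bool)
    (hs : s.2.2 = true) (k : ℕ) : (orbStep A d)^[k] s = s := by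
  induction k with
  | zero => rfl
  | succ k ih =>
    rw [Function.iterate_succ_apply', ih]
    unfold orbStep
    rw [if_pos hs]

theorem ac_orbitL_castD (d : Fin G.n × Fin G.n) (hd : d.2 ∈ G.nbr d.1) :
    orbitL G.data.1 (ac_castD G d) = (G.faceNext.toList d).map (ac_castD G) := by
  set m := (G.faceNext.cycleOf d).support.card with hm
  have hlen : (G.faceNext.toList d).length = m := Equiv.Perm.length_toList _ _
  have hpos : 0 < m := by
    rw [← hlen, List.length_pos_iff, Ne, Equiv.Perm.toList_eq_nil_iff, not_not,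
      Equiv.Perm.mem_support]
    exact ac_dart_ne G hd
  have hpow : (G.faceNext ^ m) d = d := by
    have h := Equiv.Perm.pow_mod_card_support_cycleOf_self_apply G.faceNext m d
    rw [← hm, Nat.mod_self] at h
    exact h.symm
  have hnd := Equiv.Perm.nodup_toList G.faceNext d
  have h1 : (nextL G.data.1)^[m] (ac_castD G d) = ac_castD G d := by
    rw [ac_nextL_iterate G d hd, hpow]
  have h2 : ∀ k, 0 < k → k < m → (nextL G.data.1)^[k] (ac_castD G d) ≠ ac_castD G d := by
    intro k hk hkm h
    rw [ac_nextL_iterate G d hd] at h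
    have h3 := ac_castD_inj G h
    have h4 : (G.faceNext.toList d)[k]'(by omega) = (G.faceNext.toList d)[0]'(by omega) := by
      rw [Equiv.Perm.getElem_toList, Equiv.Perm.getElem_toList, h3]
      rfl
    have := (hnd.getElem_inj_iff).1 h4
    omega
  have h3 := ac_orbStep_iterate G.data.1 (ac_castD G d) m hpos h1 h2 m le_rfl
  have hle : m ≤ (dartsL G.data.1).length := by
    rw [← hlen, ← List.length_map (f := ac_castD G)]
    refine List.Subperm.length_le ((hnd.map (ac_castD_inj G)).subperm ?_)
    intro x hx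
    obtain ⟨e, he, rfl⟩ := List.mem_map.1 hx
    rw [ac_castD_mem_dartsL]
    rw [Equiv.Perm.mem_toList_iff] at he
    exact ac_dart_sameCycle G hd he.1
  obtain ⟨j, hj⟩ := Nat.exists_eq_add_of_le hle
  unfold orbitL
  rw [hj, Nat.add_comm, Function.iterate_add_apply, h3, ac_orbStep_stable _ _ _ (by simp)]
  simp only [List.reverse_reverse]
  apply List.ext_getElem
  · rw [List.length_map, List.length_map, List.length_range, hlen]
  · intro i hi hi'
    rw [List.getElem_map, List.getElem_map, List.getElem_range, ac_nextL_iterate G d hd,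
      Equiv.Perm.getElem_toList]

end

/-! ### members of the slots -/

theorem ac_procFace_mem (outer : Bool) (k q q' : ℕ) (L : List (List ℕ)) (c : List (ℕ × ℕ))
    (h : procFace outer k q c = some (L, q')) :
    ∀ l ∈ L, ∀ x ∈ l, x ∈ c.map Prod.fst ∨ (q ≤ x ∧ x < q') := by
  induction k generalizing q q' L c with
  | zero => simp [procFace] at h
  | succ k ih =>
    rw [procFace] at h
    split at h
    · split at h
      · simp only [Option.some.injEq, Prod.mk.injEq] at h
        obtain ⟨rfl, rfl⟩ := h
        intro l hl x hx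
        rw [List.eq_of_mem_replicate hl] at hx
        exact Or.inl hx
      · simp at h
    · simp at h
    · rename_i x a us t u b rest hv
      have hperm := (view_red_perm hv).map Prod.fst
      have hmem : ∀ y, (y = x ∨ y ∈ us ∨ y = u ∨ y ∈ rest.map Prod.fst) → y ∈ c.map Prod.fst := by
        intro y hy
        rw [← hperm.mem_iff]
        simp only [List.map_cons, List.map_append, List.map_map, List.mem_cons, List.mem_append]
        have : (Prod.fst ∘ fun y : ℕ => (y, t)) = id := rfl
        rw [this, List.map_id]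
        tauto
      split at h
      · split at h
        · simp at h
        · rename_i L1 q1 hr
          simp only [Option.some.injEq, Prod.mk.injEq] at h
          obtain ⟨rfl, rfl⟩ := h
          intro l hl y hy
          rw [List.mem_append] at hl
          rcases hl with hl | hl
          · rw [List.eq_of_mem_replicate hl] at hy
            left
            apply hmem
            rcases List.mem_append.1 hy with h1 | h1
            · exact Or.inr (Or.inl h1)
            · exact Or.inr (Or.inr (Or.inl (List.mem_singleton.1 h1)))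
          · rcases ih _ _ _ _ hr l hl y hy with h1 | h1
            · left
              apply hmem
              rw [List.map_cons, List.mem_cons] at h1
              rcases h1 with h1 | h1
              · exact Or.inl h1
              · exact Or.inr (Or.inr (Or.inr h1))
            · exact Or.inr h1
      · split at h
        · simp at h
        · rename_i L1 q1 hr
          simp only [Option.some.injEq, Prod.mk.injEq] at h
          obtain ⟨rfl, rfl⟩ := h
          have hle := procFace_le _ _ _ _ _ _ hr
          intro l hl y hy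
          rw [List.mem_append] at hl
          rcases hl with hl | hl
          · rw [List.eq_of_mem_replicate hl] at hy
            rcases List.mem_append.1 hy with h1 | h1
            · rcases List.mem_cons.1 h1 with h1 | h1
              · right
                omega
              · exact Or.inl (hmem _ (Or.inr (Or.inl h1)))
            · exact Or.inl (hmem _ (Or.inr (Or.inr (Or.inl (List.mem_singleton.1 h1)))))
          · rcases ih _ _ _ _ hr l hl y hy with h1 | h1
            · rw [List.map_cons, List.map_cons, List.mem_cons, List.mem_cons] at h1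
              rcases h1 with h1 | h1 | h1
              · exact Or.inl (hmem _ (Or.inl h1))
              · right
                dsimp only at h1
                omega
              · exact Or.inl (hmem _ (Or.inr (Or.inr (Or.inr h1))))
            · right
              omega

theorem ac_foldl_slotStep_none (A : List (List (ℕ × ℕ))) (o : ℕ × ℕ) (ds : List (ℕ × ℕ)) :
    ds.foldl (slotStep A o) none = none := by
  induction ds with
  | nil => rfl
  | cons d ds ih => exact ih

/-- unfolding one step -/
theorem ac_foldl_slotStep_cons (A : List (List (ℕ × ℕ))) (o d : ℕ × ℕ) (ds : List (ℕ × ℕ))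
    (L0 : List (List ℕ)) (q0 : ℕ) (L : List (List ℕ)) (q : ℕ)
    (h : (d :: ds).foldl (slotStep A o) (some (L0, q0)) = some (L, q)) :
    ∃ L1 q1, procFace (decide (o ∈ orbitL A d)) (faceL A d).length q0 (faceL A d) = some (L1, q1) ∧
      ds.foldl (slotStep A o) (some (L0 ++ L1, q1)) = some (L, q) := by
  rw [List.foldl_cons] at h
  cases hp : procFace (decide (o ∈ orbitL A d)) (faceL A d).length q0 (faceL A d) with
  | none =>
    have : slotStep A o (some (L0, q0)) d = none := by
      unfold slotStep
      simp only [hp]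
    rw [this, ac_foldl_slotStep_none] at h
    simp at h
  | some r =>
    obtain ⟨L1, q1⟩ := r
    have : slotStep A o (some (L0, q0)) d = some (L0 ++ L1, q1) := by
      unfold slotStep
      simp only [hp]
    rw [this] at h
    exact ⟨L1, q1, rfl, h⟩

theorem ac_map_fst_faceL (A : List (List (ℕ × ℕ))) (d : ℕ × ℕ) :
    (faceL A d).map Prod.fst = (orbitL A d).map (tokL A) := by
  unfold faceL
  rw [List.map_map]
  rfl

theorem ac_fold_mem (A : List (List (ℕ × ℕ))) (o : ℕ × ℕ) (ds : List (ℕ × ℕ))
    (L0 : List (List ℕ)) (q0 : ℕ) (L : List (List ℕ)) (q : ℕ)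
    (h : ds.foldl (slotStep A o) (some (L0, q0)) = some (L, q)) :
    ∃ L1, L = L0 ++ L1 ∧ q0 ≤ q ∧ ∀ l ∈ L1, ∀ x ∈ l,
      x ∈ ds.flatMap (fun d => (orbitL A d).map (tokL A)) ∨ (q0 ≤ x ∧ x < q) := by
  induction ds generalizing L0 q0 with
  | nil =>
    simp only [List.foldl_nil, Option.some.injEq, Prod.mk.injEq] at h
    obtain ⟨rfl, rfl⟩ := h
    exact ⟨[], by simp, le_rfl, by simp⟩
  | cons d ds ih =>
    obtain ⟨L1, q1, h1, h2⟩ := ac_foldl_slotStep_cons A o d ds L0 q0 L q h
    obtain ⟨L2, h3, h4, h5⟩ := ih _ _ h2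
    have h6 := procFace_le _ _ _ _ _ _ h1
    refine ⟨L1 ++ L2, by rw [h3, List.append_assoc], by omega, ?_⟩
    intro l hl x hx
    rw [List.flatMap_cons, List.mem_append]
    rcases List.mem_append.1 hl with hl | hl
    · rcases ac_procFace_mem _ _ _ _ _ _ h1 l hl x hx with h7 | h7
      · rw [ac_map_fst_faceL] at h7
        exact Or.inl (Or.inl h7)
      · right
        omega
    · rcases h5 l hl x hx with h7 | h7
      · exact Or.inl (Or.inr h7)
      · right
        omega

/-! ### completeness -/

theorem ac_plusTokens_map (A : List (List (ℕ × ℕ))) (M : ℕ × ℕ → Bool) (l : List (ℕ × ℕ)) :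
    plusTokens (l.map (fun e => ((tokL A e, (if M e then 1 else -1 : ℤ)), lenL A e))) =
      (l.filter M).map (tokL A) := by
  unfold plusTokens
  rw [List.filter_map, List.map_map]
  have : ((fun p : (ℕ × ℤ) × ℕ => p.1.2 == 1) ∘
      (fun e => ((tokL A e, (if M e then 1 else -1 : ℤ)), lenL A e))) = M := by
    funext e
    simp only [Function.comp_apply]
    cases M e <;> simp
  rw [this]
  rfl

theorem ac_fold_fill (A : List (List (ℕ × ℕ))) (o : ℕ × ℕ) (M : ℕ × ℕ → Bool) (ds : List (ℕ × ℕ))
    (L0 : List (List ℕ)) (q0 : ℕ)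
    (hgood : ∀ d ∈ ds, orbitL A d ≠ [] ∧
      algGood (if decide (o ∈ orbitL A d) then 2 else -2) (faceL A d).length
        ((orbitL A d).map (fun e => ((if M e then 1 else -1 : ℤ), lenL A e)))) :
    ∃ L1 q, ds.foldl (slotStep A o) (some (L0, q0)) = some (L0 ++ L1, q) ∧ q0 ≤ q ∧
      ∃ F, List.Forall₂ (fun x l => x ∈ l) F L1 ∧
        F.Perm (ds.flatMap (fun d => ((orbitL A d).filter M).map (tokL A)) ++
          List.range' q0 (q - q0)) := by
  induction ds generalizing L0 q0 with
  | nil =>
    refine ⟨[], q0, by simp, le_rfl, [], List.Forall₂.nil, ?_⟩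
    simp
  | cons d ds ih =>
    obtain ⟨hne, hg⟩ := hgood d List.mem_cons_self
    set c : List ((ℕ × ℤ) × ℕ) :=
      (orbitL A d).map (fun e => ((tokL A e, (if M e then 1 else -1 : ℤ)), lenL A e)) with hc
    have hc1 : c.map (fun p => (p.1.1, p.2)) = faceL A d := by
      rw [hc, List.map_map]
      rfl
    have hc2 : c.map (fun p => (p.1.2, p.2)) =
        (orbitL A d).map (fun e => ((if M e then 1 else -1 : ℤ), lenL A e)) := by
      rw [hc, List.map_map]
      rfl
    have hsg : ∀ p ∈ c, p.1.2 = 1 ∨ p.1.2 = -1 := by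
      intro p hp
      rw [hc, List.mem_map] at hp
      obtain ⟨e, _, rfl⟩ := hp
      dsimp only
      cases M e <;> simp
    have hcne : c ≠ [] := by
      rw [hc, Ne, List.map_eq_nil_iff]
      exact hne
    cases hp : procFace (decide (o ∈ orbitL A d)) (faceL A d).length q0 (faceL A d) with
    | none =>
      exfalso
      rw [← hc1] at hp
      refine procFace_none _ _ _ c hsg hcne hp ?_
      rw [hc1, hc2]
      exact hg
    | some r =>
      obtain ⟨L1, q1⟩ := r
      have hle := procFace_le _ _ _ _ _ _ hp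
      have hp' := hp
      rw [← hc1] at hp'
      obtain ⟨F1, hF1, hF1p⟩ := procFace_fill _ _ _ _ _ c hsg hcne hp' (by
        rw [hc1, hc2]
        exact hg)
      obtain ⟨L2, q2, h2, h2le, F2, hF2, hF2p⟩ := ih (L0 ++ L1) q1
        (fun e he => hgood e (List.mem_cons_of_mem _ he))
      refine ⟨L1 ++ L2, q2, ?_, by omega, F1 ++ F2, List.rel_append hF1 hF2, ?_⟩
      · rw [List.foldl_cons]
        have : slotStep A o (some (L0, q0)) d = some (L0 ++ L1, q1) := by
          unfold slotStep
          simp only [hp]
        rw [this, h2, List.append_assoc]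
      · rw [hc, ac_plusTokens_map] at hF1p
        have h3 := hF1p.append hF2p
        rw [List.flatMap_cons]
        have h4 : List.range' q0 (q2 - q0) = List.range' q0 (q1 - q0) ++ List.range' q1 (q2 - q1) := by
          have h5 : q2 - q0 = (q1 - q0) + (q2 - q1) := by omega
          rw [h5, ← List.range'_append_1]
          congr 2
          omega
        rw [h4]
        refine h3.trans ?_
        rw [List.perm_iff_count]
        intro w
        simp only [List.count_append]
        ring

/-! ### soundness -/

theorem ac_perm_split_of_pred {α : Type} (p : α → Bool) {A B C D : List α}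
    (h : (A ++ B).Perm (C ++ D)) (hA : ∀ x ∈ A, p x = true) (hC : ∀ x ∈ C, p x = true)
    (hB : ∀ x ∈ B, p x = false) (hD : ∀ x ∈ D, p x = false) : A.Perm C ∧ B.Perm D := by
  have e1 : A.filter p = A := List.filter_eq_self.2 hA
  have e2 : C.filter p = C := List.filter_eq_self.2 hC
  have e3 : B.filter p = [] := List.filter_eq_nil_iff.2 (fun x hx => by simp [hB x hx])
  have e4 : D.filter p = [] := List.filter_eq_nil_iff.2 (fun x hx => by simp [hD x hx])
  have h1 := h.filter p
  rw [List.filter_append, List.filter_append, e1, e2, e3, e4, List.append_nil,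
    List.append_nil] at h1
  refine ⟨h1, ?_⟩
  have h2 : (A ++ B).Perm (A ++ D) := h.trans (h1.symm.append_right D)
  exact (List.perm_append_left_iff A).1 h2

theorem ac_mem_of_forall₂ {F : List ℕ} {L : List (List ℕ)}
    (h : List.Forall₂ (fun x l => x ∈ l) F L) : ∀ x ∈ F, ∃ l ∈ L, x ∈ l := by
  induction h with
  | nil => simp
  | cons h1 _ ih =>
    intro x hx
    rcases List.mem_cons.1 hx with rfl | hx
    · exact ⟨_, List.mem_cons_self, h1⟩
    · obtain ⟨l, hl, hxl⟩ := ih x hx
      exact ⟨l, List.mem_cons_of_mem _ hl, hxl⟩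

theorem ac_signs_determined (c : List ((ℕ × ℤ) × ℕ)) (R : ℕ → Bool)
    (hnd : (c.map (fun p => p.1.1)).Nodup) (hs : ∀ p ∈ c, p.1.2 = 1 ∨ p.1.2 = -1)
    (hp : (plusTokens c).Perm ((c.map (fun p => p.1.1)).filter R)) :
    c.map (fun p => (p.1.2, p.2)) = c.map (fun p => ((if R p.1.1 then 1 else -1 : ℤ), p.2)) := by
  apply List.map_congr_left
  intro p hpc
  have hiff : p.1.2 = 1 ↔ R p.1.1 = true := by
    constructor
    · intro h1
      have h2 : p.1.1 ∈ plusTokens c := by
        unfold plusTokens
        rw [List.mem_map]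
        exact ⟨p, List.mem_filter.2 ⟨hpc, by simp [h1]⟩, rfl⟩
      exact (List.mem_filter.1 (hp.subset h2)).2
    · intro h1
      have h2 : p.1.1 ∈ (c.map (fun p => p.1.1)).filter R :=
        List.mem_filter.2 ⟨List.mem_map.2 ⟨p, hpc, rfl⟩, h1⟩
      have h3 := hp.symm.subset h2
      unfold plusTokens at h3
      rw [List.mem_map] at h3
      obtain ⟨p', hp', h4⟩ := h3
      rw [List.mem_filter] at hp'
      have h5 : p' = p := List.inj_on_of_nodup_map hnd hp'.1 hpc h4
      rw [← h5]
      simpa using hp'.2
  refine Prod.ext ?_ rfl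
  dsimp only
  by_cases hR : R p.1.1 = true
  · rw [if_pos hR]
    exact hiff.2 hR
  · rw [if_neg hR]
    rcases hs p hpc with h1 | h1
    · exact absurd (hiff.1 h1) hR
    · exact h1

theorem ac_fold_signs (A : List (List (ℕ × ℕ))) (o : ℕ × ℕ) (R : ℕ → Bool) (ds : List (ℕ × ℕ))
    (L0 : List (List ℕ)) (q0 : ℕ) (L : List (List ℕ)) (q : ℕ) (F : List ℕ)
    (hT : (ds.flatMap (fun d => (orbitL A d).map (tokL A))).Nodup)
    (hlt : ∀ x ∈ ds.flatMap (fun d => (orbitL A d).map (tokL A)), x < q0)
    (hne : ∀ d ∈ ds, orbitL A d ≠ [])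
    (h : ds.foldl (slotStep A o) (some (L0, q0)) = some (L0 ++ L, q))
    (hF : List.Forall₂ (fun x l => x ∈ l) F L)
    (hp : F.Perm ((ds.flatMap (fun d => (orbitL A d).map (tokL A))).filter R ++
      List.range' q0 (q - q0))) :
    ∀ d ∈ ds, algGood (if decide (o ∈ orbitL A d) then 2 else -2) (faceL A d).length
      ((orbitL A d).map (fun e => ((if R (tokL A e) then 1 else -1 : ℤ), lenL A e))) := by
  induction ds generalizing L0 q0 L F with
  | nil => simp
  | cons d ds ih =>
    obtain ⟨L1, q1, h1, h2⟩ := ac_foldl_slotStep_cons A o d ds L0 q0 _ q h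
    obtain ⟨L2, h3, h4, h5⟩ := ac_fold_mem _ _ _ _ _ _ _ h2
    have h6 := procFace_le _ _ _ _ _ _ h1
    rw [List.append_assoc, List.append_cancel_left_eq] at h3
    subst h3
    obtain ⟨F1, F2, rfl, hF1, hF2⟩ := forall₂_append_split hF
    rw [List.flatMap_cons] at hT hlt hp
    rw [List.nodup_append] at hT
    obtain ⟨hT1, hT2, hT3⟩ := hT
    have h7 : List.range' q0 (q - q0) = List.range' q0 (q1 - q0) ++ List.range' q1 (q - q1) := by
      have h5 : q - q0 = (q1 - q0) + (q - q1) := by omega
      rw [h5, ← List.range'_append_1]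
      congr 2
      omega
    rw [h7, List.filter_append] at hp
    set T1 := (orbitL A d).map (tokL A) with hT1def
    set T2 := ds.flatMap (fun d => (orbitL A d).map (tokL A)) with hT2def
    have hp' : (F1 ++ F2).Perm ((T1.filter R ++ List.range' q0 (q1 - q0)) ++
        (T2.filter R ++ List.range' q1 (q - q1))) := by
      refine hp.trans ?_
      rw [List.perm_iff_count]
      intro w
      simp only [List.count_append]
      ring
    have hm1 : ∀ x ∈ F1, x ∈ T1 ∨ (q0 ≤ x ∧ x < q1) := by
      intro x hx
      obtain ⟨l, hl, hxl⟩ := ac_mem_of_forall₂ hF1 x hx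
      have := ac_procFace_mem _ _ _ _ _ _ h1 l hl x hxl
      rw [ac_map_fst_faceL] at this
      exact this
    have hm2 : ∀ x ∈ F2, x ∈ T2 ∨ (q1 ≤ x ∧ x < q) := by
      intro x hx
      obtain ⟨l, hl, hxl⟩ := ac_mem_of_forall₂ hF2 x hx
      exact h5 l hl x hxl
    have hlt1 : ∀ x ∈ T1, x < q0 := fun x hx => hlt x (List.mem_append_left _ hx)
    have hlt2 : ∀ x ∈ T2, x < q0 := fun x hx => hlt x (List.mem_append_right _ hx)
    have hsplit := ac_perm_split_of_pred (fun x => decide (x ∈ T1 ∨ (q0 ≤ x ∧ x < q1))) hp'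
      (by
        intro x hx
        rw [decide_eq_true_iff]
        exact hm1 x hx)
      (by
        intro x hx
        rw [decide_eq_true_iff]
        rcases List.mem_append.1 hx with hx | hx
        · exact Or.inl (List.mem_of_mem_filter hx)
        · rw [List.mem_range'_1] at hx
          right
          omega)
      (by
        intro x hx
        rw [decide_eq_false_iff_not]
        rintro (hx1 | hx1)
        · rcases hm2 x hx with hx2 | hx2
          · exact hT3 x hx1 x hx2 rfl
          · have := hlt1 x hx1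
            omega
        · rcases hm2 x hx with hx2 | hx2
          · have := hlt2 x hx2
            omega
          · omega)
      (by
        intro x hx
        rw [decide_eq_false_iff_not]
        rintro (hx1 | hx1)
        · rcases List.mem_append.1 hx with hx2 | hx2
          · exact hT3 x hx1 x (List.mem_of_mem_filter hx2) rfl
          · have := hlt1 x hx1
            rw [List.mem_range'_1] at hx2
            omega
        · rcases List.mem_append.1 hx with hx2 | hx2
          · have := hlt2 x (List.mem_of_mem_filter hx2)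
            omega
          · rw [List.mem_range'_1] at hx2
            omega)
    obtain ⟨hP1, hP2⟩ := hsplit
    intro e he
    rcases List.mem_cons.1 he with rfl | he
    · have hfne : faceL A e ≠ [] := by
        unfold faceL
        rw [Ne, List.map_eq_nil_iff]
        exact hne e List.mem_cons_self
      obtain ⟨c', hc1, hc2, hc3, hc4⟩ := procFace_signs (decide (o ∈ orbitL A e))
        (faceL A e).length q0 q1 L1 (faceL A e) hfne (by
          intro p hp
          have : p.1 ∈ (faceL A e).map Prod.fst := List.mem_map_of_mem hp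
          rw [ac_map_fst_faceL] at this
          exact hlt1 _ this) h1 (T1.filter R) F1
        (fun x hx => hlt1 x (List.mem_of_mem_filter hx)) (hT1.filter _) hF1 hP1
      have hc5 : c'.map (fun p => p.1.1) = T1 := by
        rw [hT1def, ← ac_map_fst_faceL, ← hc1, List.map_map]
        rfl
      have hc6 := ac_signs_determined c' R (by rw [hc5]; exact hT1) hc2 (by rw [hc5]; exact hc4)
      rw [hc6] at hc3
      have hc7 : c'.map (fun p => ((if R p.1.1 then 1 else -1 : ℤ), p.2)) =
          (orbitL A e).map (fun e => ((if R (tokL A e) then 1 else -1 : ℤ), lenL A e)) := by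
        have h8 : c'.map (fun p => ((if R p.1.1 then 1 else -1 : ℤ), p.2)) =
            (c'.map (fun p => (p.1.1, p.2))).map
              (fun p => ((if R p.1 then 1 else -1 : ℤ), p.2)) := by
          rw [List.map_map]
          rfl
        rw [h8, hc1]
        unfold faceL
        rw [List.map_map]
        rfl
      rw [hc7] at hc3
      exact hc3
    · refine ih (L0 ++ L1) q1 L2 F2 hT2 ?_ ?_ ?_ hF2 hP2 e he
      · intro x hx
        exact lt_of_lt_of_le (hlt2 x hx) h6
      · exact fun d hd => hne d (List.mem_cons_of_mem _ hd)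
      · rw [h2, List.append_assoc]

section

variable (G : PlaneGraph)

theorem ac_nbrL_nodup (u : Fin G.n) : (nbrL G.data.1 u).Nodup := by
  rw [nbrL_data]
  exact (G.nodup u).map Fin.val_injective

theorem ac_dartsL_nodup : (dartsL G.data.1).Nodup := by
  unfold dartsL
  rw [List.nodup_flatMap]
  constructor
  · intro u hu
    rw [List.mem_range, data_length] at hu
    refine (ac_nbrL_nodup G ⟨u, hu⟩).map ?_
    intro v w h
    exact (Prod.mk.inj h).2
  · refine List.nodup_range.pairwise_of_forall_ne ?_
    intro u _ v _ huv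
    show List.Disjoint _ _
    intro x hx hx'
    rw [List.mem_map] at hx hx'
    obtain ⟨w, _, rfl⟩ := hx
    obtain ⟨w', _, h⟩ := hx'
    exact huv (Prod.mk.inj h).1.symm

theorem ac_map_tokL : (dartsL G.data.1).map (tokL G.data.1) =
    List.range (dartsL G.data.1).length := by
  apply List.ext_getElem
  · rw [List.length_map, List.length_range]
  · intro i hi hi'
    rw [List.getElem_map, List.getElem_range]
    unfold tokL
    exact (ac_dartsL_nodup G).idxOf_getElem i _

theorem ac_tokL_lt {x : ℕ × ℕ} (hx : x ∈ dartsL G.data.1) :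
    tokL G.data.1 x < (dartsL G.data.1).length := by
  unfold tokL
  exact List.idxOf_lt_length_iff.2 hx

theorem ac_tokL_inj {x y : ℕ × ℕ} (hx : x ∈ dartsL G.data.1)
    (h : tokL G.data.1 x = tokL G.data.1 y) : x = y := by
  unfold tokL at h
  exact (List.idxOf_inj hx).1 h

theorem ac_toList_ne_nil {d : Fin G.n × Fin G.n} (hd : d.2 ∈ G.nbr d.1) :
    G.faceNext.toList d ≠ [] := by
  rw [Ne, Equiv.Perm.toList_eq_nil_iff, not_not, Equiv.Perm.mem_support]
  exact ac_dart_ne G hd

theorem ac_orbitL_ne_nil {x : ℕ × ℕ} (hx : x ∈ dartsL G.data.1) : orbitL G.data.1 x ≠ [] := by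
  obtain ⟨d, hd, rfl⟩ := (ac_mem_dartsL' G x).1 hx
  rw [ac_orbitL_castD G d hd, Ne, List.map_eq_nil_iff]
  exact ac_toList_ne_nil G hd

theorem ac_castD_mem_orbitL {d : Fin G.n × Fin G.n} (hd : d.2 ∈ G.nbr d.1)
    (e : Fin G.n × Fin G.n) :
    ac_castD G e ∈ orbitL G.data.1 (ac_castD G d) ↔ G.faceNext.SameCycle d e := by
  rw [ac_orbitL_castD G d hd, List.mem_map]
  constructor
  · rintro ⟨e', he', h⟩
    rw [← ac_castD_inj G h]
    rw [Equiv.Perm.mem_toList_iff] at he'
    exact he'.1
  · intro h
    refine ⟨e, ?_, rfl⟩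
    rw [Equiv.Perm.mem_toList_iff]
    refine ⟨h, ?_⟩
    rw [Equiv.Perm.mem_support]
    exact ac_dart_ne G hd

theorem ac_orbitL_sub {x : ℕ × ℕ} (hx : x ∈ dartsL G.data.1) :
    ∀ y ∈ orbitL G.data.1 x, y ∈ dartsL G.data.1 := by
  obtain ⟨d, hd, rfl⟩ := (ac_mem_dartsL' G x).1 hx
  intro y hy
  rw [ac_orbitL_castD G d hd, List.mem_map] at hy
  obtain ⟨e, he, rfl⟩ := hy
  rw [ac_castD_mem_dartsL]
  rw [Equiv.Perm.mem_toList_iff] at he
  exact ac_dart_sameCycle G hd he.1

theorem ac_orbitL_nodup {x : ℕ × ℕ} (hx : x ∈ dartsL G.data.1) : (orbitL G.data.1 x).Nodup := by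
  obtain ⟨d, hd, rfl⟩ := (ac_mem_dartsL' G x).1 hx
  rw [ac_orbitL_castD G d hd]
  exact (Equiv.Perm.nodup_toList _ _).map (ac_castD_inj G)

theorem ac_orbitL_refl {x : ℕ × ℕ} (hx : x ∈ dartsL G.data.1) : x ∈ orbitL G.data.1 x := by
  obtain ⟨d, hd, rfl⟩ := (ac_mem_dartsL' G x).1 hx
  exact (ac_castD_mem_orbitL G hd d).2 (Equiv.Perm.SameCycle.refl _ _)

theorem ac_orbitL_symm {x y : ℕ × ℕ} (hx : x ∈ dartsL G.data.1) (hy : y ∈ orbitL G.data.1 x) :
    x ∈ orbitL G.data.1 y := by
  have hy' := ac_orbitL_sub G hx y hy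
  obtain ⟨d, hd, rfl⟩ := (ac_mem_dartsL' G x).1 hx
  obtain ⟨e, he, rfl⟩ := (ac_mem_dartsL' G y).1 hy'
  rw [ac_castD_mem_orbitL G hd] at hy
  rw [ac_castD_mem_orbitL G he]
  exact hy.symm

theorem ac_orbitL_trans {x y z : ℕ × ℕ} (hx : x ∈ dartsL G.data.1) (hy : y ∈ orbitL G.data.1 x)
    (hz : z ∈ orbitL G.data.1 y) : z ∈ orbitL G.data.1 x := by
  have hy' := ac_orbitL_sub G hx y hy
  have hz' := ac_orbitL_sub G hy' z hz
  obtain ⟨d, hd, rfl⟩ := (ac_mem_dartsL' G x).1 hx
  obtain ⟨e, he, rfl⟩ := (ac_mem_dartsL' G y).1 hy'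
  obtain ⟨f, hf, rfl⟩ := (ac_mem_dartsL' G z).1 hz'
  rw [ac_castD_mem_orbitL G hd] at hy ⊢
  rw [ac_castD_mem_orbitL G he] at hz
  exact hy.trans hz

theorem ac_mem_repsL {x : ℕ × ℕ} : x ∈ repsL G.data.1 ↔ x ∈ dartsL G.data.1 ∧
    ∀ y ∈ orbitL G.data.1 x, tokL G.data.1 x ≤ tokL G.data.1 y := by
  unfold repsL isRep
  rw [List.mem_filter, List.all_eq_true]
  simp only [decide_eq_true_eq]

theorem ac_exists_rep {x : ℕ × ℕ} (hx : x ∈ dartsL G.data.1) :
    ∃ r ∈ repsL G.data.1, x ∈ orbitL G.data.1 r := by
  obtain ⟨r, hr, hmin⟩ := Finset.exists_min_image (orbitL G.data.1 x).toFinset (tokL G.data.1)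
    ⟨x, List.mem_toFinset.2 (ac_orbitL_refl G hx)⟩
  rw [List.mem_toFinset] at hr
  refine ⟨r, (ac_mem_repsL G).2 ⟨ac_orbitL_sub G hx r hr, ?_⟩, ac_orbitL_symm G hx hr⟩
  intro y hy
  exact hmin y (List.mem_toFinset.2 (ac_orbitL_trans G hx hr hy))

theorem ac_reps_perm : ((repsL G.data.1).flatMap (orbitL G.data.1)).Perm (dartsL G.data.1) := by
  have hnd : ((repsL G.data.1).flatMap (orbitL G.data.1)).Nodup := by
    rw [List.nodup_flatMap]
    constructor
    · intro x hx
      exact ac_orbitL_nodup G ((ac_mem_repsL G).1 hx).1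
    · refine ((ac_dartsL_nodup G).filter _).pairwise_of_forall_ne ?_
      intro r hr s hs hrs
      show List.Disjoint _ _
      intro x hx hx'
      have hr' := (ac_mem_repsL G).1 hr
      have hs' := (ac_mem_repsL G).1 hs
      have h1 : s ∈ orbitL G.data.1 r :=
        ac_orbitL_trans G hr'.1 hx (ac_orbitL_symm G hs'.1 hx')
      have h2 : r ∈ orbitL G.data.1 s := ac_orbitL_symm G hr'.1 h1
      exact hrs (ac_tokL_inj G hr'.1 (le_antisymm (hr'.2 s h1) (hs'.2 r h2)))
  rw [List.perm_ext_iff_of_nodup hnd (ac_dartsL_nodup G)]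
  intro x
  rw [List.mem_flatMap]
  constructor
  · rintro ⟨r, hr, hx⟩
    exact ac_orbitL_sub G ((ac_mem_repsL G).1 hr).1 x hx
  · intro hx
    exact ac_exists_rep G hx

theorem ac_reps_map_perm : ((repsL G.data.1).flatMap
    (fun d => (orbitL G.data.1 d).map (tokL G.data.1))).Perm
      (List.range (dartsL G.data.1).length) := by
  have h := (ac_reps_perm G).map (tokL G.data.1)
  rw [ac_map_tokL, List.map_flatMap] at h
  exact h

/-- the target of a face -/
theorem ac_outer_iff {d : Fin G.n × Fin G.n} (hd : d.2 ∈ G.nbr d.1) :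
    G.data.2 ∈ orbitL G.data.1 (ac_castD G d) ↔ G.faceNext.SameCycle d G.outer :=
  ac_castD_mem_orbitL G hd G.outer

/-- the labelled face -/
theorem ac_orbitL_map_eq (mv : Fin G.n → Fin G.n) (M : ℕ × ℕ → Bool) {d : Fin G.n × Fin G.n}
    (hd : d.2 ∈ G.nbr d.1)
    (hM : ∀ x : Fin G.n × Fin G.n, x.2 ∈ G.nbr x.1 → (M (ac_castD G x) = true ↔ x.2 = mv x.1)) :
    (orbitL G.data.1 (ac_castD G d)).map
      (fun e => ((if M e then 1 else -1 : ℤ), lenL G.data.1 e)) = faceCyc G mv d := by
  rw [ac_orbitL_castD G d hd]
  unfold faceCyc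
  rw [List.map_map]
  apply List.map_congr_left
  intro x hx
  rw [Equiv.Perm.mem_toList_iff] at hx
  have hxd := ac_dart_sameCycle G hd hx.1
  have h1 : lenL G.data.1 (ac_castD G x) = G.len x.1 x.2 := lenL_data G x.1 x.2 hxd
  simp only [Function.comp_apply]
  refine Prod.ext ?_ h1
  dsimp only
  unfold sgn
  by_cases h : x.2 = mv x.1
  · rw [if_pos h, if_pos ((hM x hxd).2 h)]
  · rw [if_neg h, if_neg (fun h' => h ((hM x hxd).1 h'))]

theorem ac_faceL_length {mv : Fin G.n → Fin G.n} {d : Fin G.n × Fin G.n}
    (hd : d.2 ∈ G.nbr d.1) :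
    (faceL G.data.1 (ac_castD G d)).length = (faceCyc G mv d).length := by
  unfold faceL faceCyc
  rw [List.length_map, List.length_map, ac_orbitL_castD G d hd, List.length_map]

theorem ac_forall₂_flatMap {ι : Type} (l : List ι) (f : ι → List ℕ) (g : ι → List (List ℕ))
    (h : ∀ i ∈ l, List.Forall₂ (fun x l => x ∈ l) (f i) (g i)) :
    List.Forall₂ (fun x l => x ∈ l) (l.flatMap f) (l.flatMap g) := by
  induction l with
  | nil => exact List.Forall₂.nil
  | cons i l ih =>
    rw [List.flatMap_cons, List.flatMap_cons]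
    exact List.rel_append (h i List.mem_cons_self) (ih (fun j hj => h j (List.mem_cons_of_mem _ hj)))

theorem ac_forall₂_flatMap_split {ι : Type} [DecidableEq ι] (l : List ι) (hl : l.Nodup)
    (g : ι → List (List ℕ)) : ∀ (F : List ℕ),
    List.Forall₂ (fun x l => x ∈ l) F (l.flatMap g) →
    ∃ blk : ι → List ℕ, F = l.flatMap blk ∧
      ∀ i ∈ l, List.Forall₂ (fun x l => x ∈ l) (blk i) (g i) := by
  induction l with
  | nil =>
    intro F h
    simp only [List.flatMap_nil, List.forall₂_nil_right_iff] at h
    exact ⟨fun _ => [], by simp [h], by simp⟩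
  | cons i l ih =>
    intro F h
    rw [List.flatMap_cons] at h
    obtain ⟨F1, F2, rfl, h1, h2⟩ := forall₂_append_split h
    rw [List.nodup_cons] at hl
    obtain ⟨blk, h3, h4⟩ := ih hl.2 F2 h2
    refine ⟨fun j => if j = i then F1 else blk j, ?_, ?_⟩
    · rw [List.flatMap_cons, if_pos rfl, h3]
      congr 1
      have : ∀ j ∈ l, blk j = if j = i then F1 else blk j := by
        intro j hj
        rw [if_neg (by rintro rfl; exact hl.1 hj)]
      exact List.flatMap_congr this
    · intro j hj
      rcases List.mem_cons.1 hj with rfl | hj'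
      · dsimp only
        rw [if_pos rfl]
        exact h1
      · dsimp only
        rw [if_neg (by rintro rfl; exact hl.1 hj')]
        exact h4 j hj'

/-- Module C: completeness of the matching formulation -/
theorem slots_of_mvGood (mv : Fin G.n → Fin G.n) (h : MVGood G mv) :
    ∃ L q, slotsL G.data = some (L, q) ∧ IsSDR (vertSlots G.data.1 ++ L) q := by
  classical
  set A := G.data.1 with hA
  set M : ℕ × ℕ → Bool := fun e => decide (∃ v : Fin G.n, e = (v.val, (mv v).val)) with hMdef
  have hM : ∀ x : Fin G.n × Fin G.n, (M (ac_castD G x) = true ↔ x.2 = mv x.1) := by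
    intro x
    rw [hMdef]
    simp only [decide_eq_true_eq]
    constructor
    · rintro ⟨v, hv⟩
      simp only [ac_castD, Prod.mk.injEq] at hv
      have h1 := Fin.ext hv.1
      rw [h1]
      exact Fin.ext hv.2
    · intro hx
      refine ⟨x.1, ?_⟩
      rw [← hx]
      rfl
  obtain ⟨L, q, h1, h2, F, h3, h4⟩ := ac_fold_fill A G.data.2 M (repsL A) [] (dartsL A).length (by
    intro d hd
    have hd' := ((ac_mem_repsL G).1 hd).1
    refine ⟨ac_orbitL_ne_nil G hd', ?_⟩
    obtain ⟨e, he, rfl⟩ := (ac_mem_dartsL' G d).1 hd'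
    rw [hA, ac_orbitL_map_eq G mv M he (fun x _ => hM x), ac_faceL_length G (mv := mv) he]
    have h5 := h.2 e he
    by_cases ho : G.faceNext.SameCycle e G.outer
    · rw [if_pos ho] at h5
      rw [if_pos (by rw [decide_eq_true_iff]; exact (ac_outer_iff G he).2 ho)]
      exact h5
    · rw [if_neg ho] at h5
      rw [if_neg (by rw [decide_eq_true_iff]; exact fun h' => ho ((ac_outer_iff G he).1 h'))]
      exact h5)
  refine ⟨L, q, ?_, ?_⟩
  · unfold slotsL
    rw [List.nil_append] at h1
    exact h1
  · -- the vertex slots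
    refine ⟨((List.range A.length).flatMap (fun u => ((nbrL A u).filter (fun v => !M (u, v))).map
      (fun v => tokL A (u, v)))) ++ F, ?_, ?_⟩
    · refine List.rel_append ?_ h3
      unfold vertSlots
      apply ac_forall₂_flatMap
      intro u hu
      rw [List.mem_range, hA, data_length] at hu
      rw [forall₂_replicate]
      constructor
      · rw [List.length_map]
        have hnd := ac_nbrL_nodup G ⟨u, hu⟩
        have hfil : (nbrL A u).filter (fun v => M (u, v)) = [(mv ⟨u, hu⟩).val] := by
          have e1 : (nbrL A u).filter (fun v => M (u, v)) =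
              (nbrL A u).filter (· == (mv ⟨u, hu⟩).val) := by
            apply List.filter_congr
            intro v hv
            rw [hA] at hv
            have : nbrL G.data.1 u = (G.nbr ⟨u, hu⟩).map Fin.val := nbrL_data G ⟨u, hu⟩
            rw [this, List.mem_map] at hv
            obtain ⟨w, hw, rfl⟩ := hv
            have h5 := hM (⟨u, hu⟩, w)
            have h6 : ac_castD G (⟨u, hu⟩, w) = (u, w.val) := rfl
            rw [h6] at h5
            rw [Bool.eq_iff_iff, h5, beq_iff_eq]
            exact ⟨fun h => congrArg Fin.val h, fun h => Fin.ext h⟩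
          rw [e1, List.filter_beq]
          have : (nbrL A u).count (mv ⟨u, hu⟩).val = 1 := by
            apply List.count_eq_one_of_mem hnd
            rw [nbrL_data, List.mem_map]
            exact ⟨_, h.1 _, rfl⟩
          rw [this]
          rfl
        have h7 := List.length_eq_length_filter_add (l := nbrL A u) (fun v => M (u, v))
        rw [hfil, List.length_singleton] at h7
        omega
      · intro x hx
        rw [List.mem_map] at hx
        obtain ⟨v, hv, rfl⟩ := hx
        exact List.mem_map_of_mem (List.mem_of_mem_filter hv)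
    · have e1 : ((List.range A.length).flatMap (fun u =>
          ((nbrL A u).filter (fun v => !M (u, v))).map (fun v => tokL A (u, v)))) =
          ((dartsL A).filter (fun e => !M e)).map (tokL A) := by
        unfold dartsL
        rw [List.filter_flatMap, List.map_flatMap]
        apply List.flatMap_congr
        intro u _
        rw [List.filter_map, List.map_map]
        rfl
      have e2 : ((repsL A).flatMap (fun d => ((orbitL A d).filter M).map (tokL A))) =
          (((repsL A).flatMap (orbitL A)).filter M).map (tokL A) := by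
        rw [List.filter_flatMap, List.map_flatMap]
      rw [e2] at h4
      rw [e1]
      have e3 := h4.append_left (((dartsL A).filter (fun e => !M e)).map (tokL A))
      refine e3.trans ?_
      have e4 : ((((repsL A).flatMap (orbitL A)).filter M).map (tokL A)).Perm
          (((dartsL A).filter M).map (tokL A)) := ((ac_reps_perm G).filter M).map _
      rw [← List.append_assoc]
      have e5 : (((dartsL A).filter (fun e => !M e)).map (tokL A) ++
          (((repsL A).flatMap (orbitL A)).filter M).map (tokL A)).Perm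
          (List.range (dartsL A).length) := by
        rw [hA, ← ac_map_tokL G]
        refine (e4.append_left _).trans ?_
        rw [← List.map_append]
        apply List.Perm.map
        exact List.perm_append_comm.trans (List.filter_append_perm _ _)
      refine (e5.append_right _).trans ?_
      rw [List.range_eq_range', List.range_eq_range']
      have h8 := List.range'_append_1 (s := 0) (m := (dartsL A).length) (n := q - (dartsL A).length)
      rw [Nat.zero_add] at h8
      rw [h8, Nat.add_sub_cancel' h2]

theorem ac_slotsL_facts (L : List (List ℕ)) (q : ℕ) (h : slotsL G.data = some (L, q)) :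
    (dartsL G.data.1).length ≤ q ∧ ∀ l ∈ L, ∀ x ∈ l, x < q := by
  unfold slotsL at h
  obtain ⟨L1, h1, h2, h3⟩ := ac_fold_mem _ _ _ _ _ _ _ h
  rw [List.nil_append] at h1
  subst h1
  refine ⟨h2, ?_⟩
  intro l hl x hx
  rcases h3 l hl x hx with h4 | h4
  · have := (ac_reps_map_perm G).subset h4
    rw [List.mem_range] at this
    omega
  · exact h4.2

theorem ac_vertSlots_lt : ∀ l ∈ vertSlots G.data.1, ∀ x ∈ l, x < (dartsL G.data.1).length := by
  intro l hl x hx
  unfold vertSlots at hl
  rw [List.mem_flatMap] at hl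
  obtain ⟨u, hu, hl⟩ := hl
  rw [List.eq_of_mem_replicate hl, List.mem_map] at hx
  obtain ⟨v, hv, rfl⟩ := hx
  apply ac_tokL_lt
  unfold dartsL
  rw [List.mem_flatMap]
  exact ⟨u, hu, List.mem_map_of_mem hv⟩

/-- Module C: the tokens in the slots are bounded -/
theorem slots_lt (L : List (List ℕ)) (q : ℕ) (h : slotsL G.data = some (L, q)) :
    ∀ l ∈ vertSlots G.data.1 ++ L, ∀ x ∈ l, x < q := by
  obtain ⟨h1, h2⟩ := ac_slotsL_facts G L q h
  intro l hl x hx
  rcases List.mem_append.1 hl with hl | hl
  · exact lt_of_lt_of_le (ac_vertSlots_lt G l hl x hx) h1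
  · exact h2 l hl x hx

theorem ac_nbr_ne_nil (u : Fin G.n) : G.nbr u ≠ [] := by
  intro hu
  have hne : G.outer.1 ≠ u := by
    intro h
    have := G.outer_mem
    rw [h, hu] at this
    simp at this
  rcases Relation.ReflTransGen.cases_tail (G.connected G.outer.1 u) with h | ⟨a, _, ha⟩
  · exact hne h.symm
  · have := G.symm _ _ ha
    rw [hu] at this
    simp at this

/-- Module C: soundness of the matching formulation -/
theorem mvGoodW_of_slots (L : List (List ℕ)) (q : ℕ)
    (h : slotsL G.data = some (L, q)) (hs : IsSDR (vertSlots G.data.1 ++ L) q) :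
    ∃ mv, MVGoodW G mv := by
  classical
  obtain ⟨F, hF, hFp⟩ := hs
  obtain ⟨Fv, Ff, rfl, hFv, hFf⟩ := forall₂_append_split hF
  obtain ⟨hNq, _⟩ := ac_slotsL_facts G L q h
  set A := G.data.1 with hA
  set R : ℕ → Bool := fun t => decide (t ∉ Fv) with hR
  have hnd : (Fv ++ Ff).Nodup := hFp.nodup_iff.2 List.nodup_range
  have hndv : Fv.Nodup := (List.nodup_append.1 hnd).1
  -- vertex blocks
  have hFv' := hFv
  unfold vertSlots at hFv'
  obtain ⟨blk, hblk1, hblk2⟩ := ac_forall₂_flatMap_split _ List.nodup_range _ _ hFv'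
  have key : ∀ u : Fin G.n, ∃ v, v ∈ G.nbr u ∧ ∀ w ∈ G.nbr u,
      (R (tokL A (ac_castD G (u, w))) = true ↔ w = v) := by
    intro u
    have hu : u.val ∈ List.range A.length := by
      rw [List.mem_range, hA, data_length]; exact u.2
    have h1 := hblk2 u.val hu
    rw [forall₂_replicate] at h1
    obtain ⟨h1, h2⟩ := h1
    -- tokens of u
    set T := (nbrL A u).map (fun v => tokL A (u.val, v)) with hT
    have hmemd : ∀ u' ∈ List.range A.length, ∀ v ∈ nbrL A u', (u', v) ∈ dartsL A := by
      intro u' hu' v hv
      unfold dartsL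
      rw [List.mem_flatMap]
      exact ⟨u', hu', List.mem_map_of_mem hv⟩
    have hTnd : T.Nodup := by
      rw [hT]
      refine List.Nodup.map_on ?_ (ac_nbrL_nodup G u)
      intro v hv w hw hvw
      exact (Prod.mk.inj (ac_tokL_inj G (hmemd u hu v hv) hvw)).2
    have hblknd : (blk u).Nodup := by
      rw [hblk1, List.nodup_flatMap] at hndv
      exact hndv.1 u.val hu
    have hmemF : ∀ x ∈ T, (x ∈ Fv ↔ x ∈ blk u) := by
      intro x hx
      constructor
      · intro hxF
        rw [hblk1, List.mem_flatMap] at hxF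
        obtain ⟨u', hu', hx'⟩ := hxF
        have h3 := (forall₂_replicate.1 (hblk2 u' hu')).2 x hx'
        rw [List.mem_map] at h3 hx
        obtain ⟨v', hv', h4⟩ := h3
        obtain ⟨v, hv, h5⟩ := hx
        have h6 := ac_tokL_inj G (hmemd u' hu' v' hv') (h4.trans h5.symm)
        have h7 := (Prod.mk.inj h6).1
        rw [← h7]
        exact hx'
      · intro hx'
        rw [hblk1, List.mem_flatMap]
        exact ⟨u.val, hu, hx'⟩
    have hperm : (T.filter (fun x => decide (x ∈ Fv))).Perm (blk u) := by
      rw [List.perm_ext_iff_of_nodup (hTnd.filter _) hblknd]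
      intro x
      rw [List.mem_filter, decide_eq_true_iff]
      constructor
      · rintro ⟨hx, hx'⟩
        exact (hmemF x hx).1 hx'
      · intro hx
        have hxT := h2 x hx
        exact ⟨hxT, (hmemF x hxT).2 hx⟩
    have hlen := List.length_eq_length_filter_add (l := T) (fun x => decide (x ∈ Fv))
    rw [hperm.length_eq, h1] at hlen
    have hTlen : T.length = (nbrL A u).length := List.length_map _
    have hpos : 0 < (nbrL A u).length := by
      rw [hA, nbrL_data, List.length_map, List.length_pos_iff]
      exact ac_nbr_ne_nil G u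
    have hone : (T.filter (fun x => !decide (x ∈ Fv))).length = 1 := by omega
    obtain ⟨t, ht⟩ := List.length_eq_one_iff.1 hone
    have htm : t ∈ T.filter (fun x => !decide (x ∈ Fv)) := by rw [ht]; exact List.mem_singleton_self _
    rw [List.mem_filter] at htm
    obtain ⟨htT, _⟩ := htm
    rw [hT, List.mem_map] at htT
    obtain ⟨v, hv, hvt⟩ := htT
    rw [hA, nbrL_data, List.mem_map] at hv
    obtain ⟨v', hv', rfl⟩ := hv
    refine ⟨v', hv', ?_⟩
    intro w hw
    have hwT : tokL A (ac_castD G (u, w)) ∈ T := by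
      rw [hT, List.mem_map]
      refine ⟨w.val, ?_, rfl⟩
      rw [hA, nbrL_data]
      exact List.mem_map_of_mem hw
    have hwd : ac_castD G (u, w) ∈ dartsL A := (ac_castD_mem_dartsL G (u, w)).2 hw
    have h8 : R (tokL A (ac_castD G (u, w))) = true ↔
        tokL A (ac_castD G (u, w)) ∈ T.filter (fun x => !decide (x ∈ Fv)) := by
      rw [hR, List.mem_filter]
      simp only [decide_not]
      tauto
    rw [h8, ht, List.mem_singleton, ← hvt]
    constructor
    · intro h9
      have h10 := ac_tokL_inj G hwd h9
      exact Fin.ext (Prod.mk.inj h10).2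
    · intro h9
      rw [h9]
      rfl
  choose mv hmv1 hmv2 using key
  refine ⟨mv, hmv1, ?_⟩
  -- the faces
  have hFvlt : ∀ x ∈ Fv, x < (dartsL A).length := by
    intro x hx
    obtain ⟨l, hl, hxl⟩ := ac_mem_of_forall₂ hFv x hx
    exact ac_vertSlots_lt G l hl x hxl
  have hFfp : Ff.Perm (((repsL A).flatMap (fun d => (orbitL A d).map (tokL A))).filter R ++
      List.range' (dartsL A).length (q - (dartsL A).length)) := by
    have e1 : (List.range q) = List.range (dartsL A).length ++
        List.range' (dartsL A).length (q - (dartsL A).length) := by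
      rw [List.range_eq_range', List.range_eq_range']
      have h8 := List.range'_append_1 (s := 0) (m := (dartsL A).length)
        (n := q - (dartsL A).length)
      rw [Nat.zero_add] at h8
      rw [h8, Nat.add_sub_cancel' hNq]
    have e2 : Fv.Perm ((List.range (dartsL A).length).filter (fun x => decide (x ∈ Fv))) := by
      rw [List.perm_ext_iff_of_nodup hndv (List.nodup_range.filter _)]
      intro x
      rw [List.mem_filter, List.mem_range, decide_eq_true_iff]
      exact ⟨fun hx => ⟨hFvlt x hx, hx⟩, fun hx => hx.2⟩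
    have e3 : (List.range (dartsL A).length).Perm
        (Fv ++ (List.range (dartsL A).length).filter R) := by
      have e4 := List.filter_append_perm (fun x => decide (x ∈ Fv))
        (List.range (dartsL A).length)
      refine e4.symm.trans ?_
      have e5 : (fun x => !decide (x ∈ Fv)) = R := by
        funext x
        rw [hR]
        simp
      rw [e5]
      exact e2.symm.append_right _
    have e6 : (Fv ++ Ff).Perm (Fv ++ ((List.range (dartsL A).length).filter R ++
        List.range' (dartsL A).length (q - (dartsL A).length))) := by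
      refine hFp.trans ?_
      rw [e1, ← List.append_assoc]
      exact e3.append_right _
    refine ((List.perm_append_left_iff Fv).1 e6).trans ?_
    exact ((ac_reps_map_perm G).symm.filter R).append_right _
  have hfaces := ac_fold_signs A G.data.2 R (repsL A) [] (dartsL A).length L q Ff
    ((ac_reps_map_perm G).nodup_iff.2 List.nodup_range)
    (fun x hx => List.mem_range.1 ((ac_reps_map_perm G).subset hx))
    (fun d hd => ac_orbitL_ne_nil G ((ac_mem_repsL G).1 hd).1)
    (by rw [List.nil_append]; exact h) hFf hFfp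
  intro d hd
  obtain ⟨r, hr, hdr⟩ := ac_exists_rep G ((ac_castD_mem_dartsL G d).2 hd)
  have hr' := ((ac_mem_repsL G).1 hr).1
  obtain ⟨e, he, rfl⟩ := (ac_mem_dartsL' G r).1 hr'
  have hsc := (ac_castD_mem_orbitL G he d).1 hdr
  refine ⟨e, hsc.symm, ?_⟩
  have h9 := hfaces _ hr
  rw [hA, ac_orbitL_map_eq G mv (fun e => R (tokL A e)) he (fun x hx => hmv2 x.1 x.2 hx),
    ac_faceL_length G (mv := mv) he] at h9
  by_cases ho : G.faceNext.SameCycle d G.outer
  · rw [if_pos ho]
    rw [if_pos (by rw [decide_eq_true_iff]; exact (ac_outer_iff G he).2 (hsc.trans ho))] at h9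
    exact h9
  · rw [if_neg ho]
    rw [if_neg (by
      rw [decide_eq_true_iff]
      exact fun h' => ho (hsc.symm.trans ((ac_outer_iff G he).1 h')))] at h9
    exact h9

end

end Pool.Agent.FlatFold
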