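import Mathlib

/-! Finite sets with an injective self map which is increasing except at one point. -/

namespace Pool.Agent.FlatFold

variable {D K : Type} [DecidableEq D] [LinearOrder K]

/-- number of elements leaving `L` = number of elements entering `L` -/
theorem card_leave_eq_card_enter (C : Finset D) (f : D → D) (hf : ∀ x ∈ C, f x ∈ C)
    (hinj : ∀ x ∈ C, ∀ y ∈ C, f x = f y → x = y) (p : D → Prop) [DecidablePred p] :
    (C.filter (fun x => p x ∧ ¬ p (f x))).card = (C.filter (fun x => ¬ p x ∧ p (f x))).card := by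
  classical
  have himg : C.image f = C := by
    apply Finset.eq_of_subset_of_card_le
    · intro y hy
      obtain ⟨x, hx, rfl⟩ := Finset.mem_image.1 hy
      exact hf x hx
    · rw [Finset.card_image_of_injOn]
      intro x hx y hy hxy
      exact hinj x hx y hy hxy
  have h1 : (C.filter p).card = (C.filter (fun x => p (f x))).card := by
    have : C.filter p = (C.filter (fun x => p (f x))).image f := by
      ext y
      simp only [Finset.mem_filter, Finset.mem_image]
      constructor
      · rintro ⟨hy, hp⟩
        rw [← himg] at hy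
        obtain ⟨x, hx, rfl⟩ := Finset.mem_image.1 hy
        exact ⟨x, ⟨hx, hp⟩, rfl⟩
      · rintro ⟨x, ⟨hx, hp⟩, rfl⟩
        exact ⟨hf x hx, hp⟩
    rw [this, Finset.card_image_of_injOn]
    intro x hx y hy hxy
    simp only [Finset.coe_filter, Set.mem_setOf_eq] at hx hy
    exact hinj x hx.1 y hy.1 hxy
  have h2 : (C.filter p).card = (C.filter (fun x => p x ∧ p (f x))).card +
      (C.filter (fun x => p x ∧ ¬ p (f x))).card := by
    rw [← Finset.card_union_of_disjoint]
    · congr 1
      ext x
      simp only [Finset.mem_filter, Finset.mem_union]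
      tauto
    · rw [Finset.disjoint_filter]
      tauto
  have h3 : (C.filter (fun x => p (f x))).card = (C.filter (fun x => p x ∧ p (f x))).card +
      (C.filter (fun x => ¬ p x ∧ p (f x))).card := by
    rw [← Finset.card_union_of_disjoint]
    · congr 1
      ext x
      simp only [Finset.mem_filter, Finset.mem_union]
      tauto
    · rw [Finset.disjoint_filter]
      tauto
  omega

/-- if `f` is increasing except at one point then it is the cyclic successor -/
theorem succ_immediate (C : Finset D) (f : D → D) (key : D → K) (hf : ∀ x ∈ C, f x ∈ C)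
    (hinj : ∀ x ∈ C, ∀ y ∈ C, f x = f y → x = y)
    (hone : ∀ x ∈ C, ∀ y ∈ C, key (f x) ≤ key x → key (f y) ≤ key y → x = y)
    (x z : D) (hx : x ∈ C) (hz : z ∈ C) (hxz : key x < key z) (hzf : key z < key (f x)) :
    False := by
  classical
  have hcard := card_leave_eq_card_enter C f hf hinj (fun y => key y ≤ key z)
  -- entering set has at most one element
  have henter : (C.filter (fun y => ¬ key y ≤ key z ∧ key (f y) ≤ key z)).card ≤ 1 := by
    rw [Finset.card_le_one]
    intro a ha b hb
    simp only [Finset.mem_filter, not_le] at ha hb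
    exact hone a ha.1 b hb.1 (ha.2.2.trans ha.2.1.le) (hb.2.2.trans hb.2.1.le)
  have hxmem : x ∈ C.filter (fun y => key y ≤ key z ∧ ¬ key (f y) ≤ key z) := by
    simp only [Finset.mem_filter, not_le]
    exact ⟨hx, hxz.le, hzf⟩
  -- so there is an entering element
  have hpos : 0 < (C.filter (fun y => ¬ key y ≤ key z ∧ key (f y) ≤ key z)).card := by
    rw [← hcard]
    exact Finset.card_pos.2 ⟨x, hxmem⟩
  obtain ⟨w, hw⟩ := Finset.card_pos.1 hpos
  simp only [Finset.mem_filter, not_le] at hw
  have hzmem : z ∈ C.filter (fun y => key y ≤ key z ∧ ¬ key (f y) ≤ key z) := by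
    simp only [Finset.mem_filter, not_le]
    refine ⟨hz, le_rfl, ?_⟩
    by_contra hcon
    rw [not_lt] at hcon
    have := hone z hz w hw.1 hcon (hw.2.2.trans hw.2.1.le)
    rw [this] at hw
    exact lt_irrefl _ hw.2.1
  have hle : (C.filter (fun y => key y ≤ key z ∧ ¬ key (f y) ≤ key z)).card ≤ 1 := by
    rw [hcard]; exact henter
  rw [Finset.card_le_one] at hle
  have := hle x hxmem z hzmem
  rw [this] at hxz
  exact lt_irrefl _ hxz

/-- the image of a wrapping element is the minimum -/
theorem wrap_max (C : Finset D) (f : D → D) (key : D → K) (hf : ∀ x ∈ C, f x ∈ C)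
    (hinj : ∀ x ∈ C, ∀ y ∈ C, f x = f y → x = y)
    (hone : ∀ x ∈ C, ∀ y ∈ C, key (f x) ≤ key x → key (f y) ≤ key y → x = y)
    (x z : D) (hx : x ∈ C) (hz : z ∈ C) (hw : key (f x) ≤ key x) : key z ≤ key x := by
  classical
  by_contra hcon
  rw [not_le] at hcon
  obtain ⟨m, hm, hmax⟩ := Finset.exists_max_image C key ⟨x, hx⟩
  have h1 := hone x hx m hm hw (hmax (f m) (hf m hm))
  rw [← h1] at hmax
  exact absurd (hmax z hz) (not_le.2 hcon)

/-- every nonempty invariant set has a wrapping element -/
theorem exists_wrap (C : Finset D) (f : D → D) (key : D → K) (hf : ∀ x ∈ C, f x ∈ C)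
    (hne : C.Nonempty) : ∃ x ∈ C, key (f x) ≤ key x := by
  obtain ⟨m, hm, hmax⟩ := Finset.exists_max_image C key hne
  exact ⟨m, hm, hmax (f m) (hf m hm)⟩

end Pool.Agent.FlatFold
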