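import Mathlib
import Pool.Agent.Lib.MP_b92007_lc.CycSucc

/-! Combinatorial maps with unit edges, levels and angles. -/

namespace Pool.Agent.FlatFold

/-- a perm mapping a finite set into itself: so does its inverse -/
theorem symm_mem_of_mapsTo {D : Type} [DecidableEq D] (S : Finset D) (f : Equiv.Perm D)
    (hf : ∀ x ∈ S, f x ∈ S) : ∀ x ∈ S, f.symm x ∈ S := by
  intro x hx
  have himg : S.image f = S := by
    apply Finset.eq_of_subset_of_card_le
    · intro y hy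
      obtain ⟨z, hz, rfl⟩ := Finset.mem_image.1 hy
      exact hf z hz
    · rw [Finset.card_image_of_injective _ f.injective]
  rw [← himg] at hx
  obtain ⟨z, hz, rfl⟩ := Finset.mem_image.1 hx
  simpa using hz

/-- A combinatorial map: `φ` next dart along the face, `α` reversal, `dir` (`true` = to the
right), `lev` the level of the tail, `A` the angle (in units of 180 degrees) at the tail of the
dart in the face of the dart, `vt` the tail vertex, `S` the set of darts. -/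
structure UM (D : Type) where
  φ : Equiv.Perm D
  α : Equiv.Perm D
  dir : D → Bool
  lev : D → ℤ
  A : D → ℕ
  vt : D → ℕ
  S : Finset D

namespace UM

variable {D : Type} [DecidableEq D] (U : UM D)

/-- side of the level line: `0` right, `1` left -/
def tt (x : D) : ℤ := if U.dir x then 0 else 1

/-- position on the circle of the level, counterclockwise from the south pole -/
def key (h : D → ℤ) (x : D) : ℤ ×ₗ ℤ := toLex (U.tt x, if U.dir x then h x else - h x)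

/-- number of poles between `x` and `y` (counterclockwise) -/
def PP (h : D → ℤ) (x y : D) : ℤ :=
  U.tt y - U.tt x + 2 * (if U.key h y ≤ U.key h x then 1 else 0)

/-- the rotation -/
def sg (U : UM D) (x : D) : D := U.α (U.φ.symm x)

/-- basic validity -/
structure Pre : Prop where
  φ_S : ∀ d ∈ U.S, U.φ d ∈ U.S
  α_S : ∀ d ∈ U.S, U.α d ∈ U.S
  α_α : ∀ d ∈ U.S, U.α (U.α d) = d
  dir_α : ∀ d ∈ U.S, U.dir (U.α d) = !U.dir d
  lev_α : ∀ d ∈ U.S, U.lev (U.α d) = U.lev d + (if U.dir d then 1 else -1)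
  lev_vt : ∀ x ∈ U.S, ∀ y ∈ U.S, U.vt x = U.vt y → U.lev x = U.lev y
  vt_φ : ∀ d ∈ U.S, U.vt (U.φ d) = U.vt (U.α d)
  A_odd : ∀ d ∈ U.S, U.A (U.φ d) % 2 = 1 ↔ U.dir (U.φ d) = U.dir d
  vsum : ∀ d ∈ U.S, ∑ x ∈ U.S.filter (fun x => U.vt x = U.vt d), U.A x = 2
  orb : ∀ C ⊆ U.S, (∀ x ∈ C, U.sg x ∈ C) → ∀ x ∈ C, ∀ y ∈ U.S, U.vt y = U.vt x → y ∈ C
  conn : ∀ C ⊆ U.S, C.Nonempty → (∀ x ∈ C, U.φ x ∈ C) → (∀ x ∈ C, U.α x ∈ C) → C = U.S

/-- a flat folded state -/
structure Folded (h : D → ℤ) : Prop where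
  edge : ∀ d ∈ U.S, h (U.α d) = h d
  inj : ∀ x ∈ U.S, ∀ y ∈ U.S, U.dir x = U.dir y → U.lev x = U.lev y → h x = h y → x = y
  corner : ∀ d ∈ U.S, U.PP h (U.φ d) (U.α d) = U.A (U.φ d)
  nc : ∀ x1 ∈ U.S, ∀ y1 ∈ U.S, ∀ x2 ∈ U.S, ∀ y2 ∈ U.S, U.lev x1 = U.lev y1 →
    U.key h x1 < U.key h y1 → U.key h y1 < U.key h x2 → U.key h x2 < U.key h y2 →
    U.vt x1 = U.vt x2 → U.vt y1 = U.vt y2 → U.vt x1 = U.vt y1

variable {U}

theorem key_inj {h : D → ℤ} (hF : U.Folded h) {x y : D} (hx : x ∈ U.S) (hy : y ∈ U.S)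
    (hl : U.lev x = U.lev y) (hk : U.key h x = U.key h y) : x = y := by
  unfold key tt at hk
  rw [toLex_inj, Prod.mk.injEq] at hk
  obtain ⟨h1, h2⟩ := hk
  cases hdx : U.dir x <;> cases hdy : U.dir y <;> simp [hdx, hdy] at h1 h2
  · exact hF.inj x hx y hy (by rw [hdx, hdy]) hl h2
  · exact hF.inj x hx y hy (by rw [hdx, hdy]) hl h2

theorem φ_symm_S (hP : U.Pre) : ∀ x ∈ U.S, U.φ.symm x ∈ U.S :=
  symm_mem_of_mapsTo _ _ hP.φ_S

theorem sg_S (hP : U.Pre) {x : D} (hx : x ∈ U.S) : U.sg x ∈ U.S :=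
  hP.α_S _ (φ_symm_S hP x hx)

theorem vt_sg (hP : U.Pre) {x : D} (hx : x ∈ U.S) : U.vt (U.sg x) = U.vt x := by
  unfold sg
  rw [← hP.vt_φ _ (φ_symm_S hP x hx)]
  simp

theorem sg_inj (U : UM D) : Function.Injective U.sg := by
  intro x y hxy
  unfold sg at hxy
  simpa using hxy

theorem PP_sg (hP : U.Pre) {h : D → ℤ} (hF : U.Folded h) {x : D} (hx : x ∈ U.S) :
    U.PP h x (U.sg x) = U.A x := by
  have := hF.corner (U.φ.symm x) (φ_symm_S hP x hx)
  simpa [sg] using this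

/-- number of wrapping elements -/
def wraps (U : UM D) (h : D → ℤ) (C : Finset D) : ℕ :=
  (C.filter (fun x => U.key h (U.sg x) ≤ U.key h x)).card

theorem sum_PP_general (C : Finset D) (f : D → D) (hf : ∀ x ∈ C, f x ∈ C)
    (hinj : ∀ x ∈ C, ∀ y ∈ C, f x = f y → x = y) (h : D → ℤ) :
    ∑ x ∈ C, U.PP h x (f x) = 2 * (C.filter (fun x => U.key h (f x) ≤ U.key h x)).card := by
  unfold PP
  rw [Finset.sum_add_distrib, Finset.sum_sub_distrib]
  have h1 : ∑ x ∈ C, U.tt (f x) = ∑ x ∈ C, U.tt x := by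
    have himg : C.image f = C := by
      apply Finset.eq_of_subset_of_card_le
      · intro y hy
        obtain ⟨x, hx, rfl⟩ := Finset.mem_image.1 hy
        exact hf x hx
      · rw [Finset.card_image_of_injOn]
        intro x hx y hy hxy
        exact hinj x hx y hy hxy
    conv_rhs => rw [← himg]
    rw [Finset.sum_image]
    intro x hx y hy hxy
    exact hinj x hx y hy hxy
  rw [h1, sub_self, zero_add, ← Finset.mul_sum]
  congr 1
  rw [Finset.card_filter]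
  push_cast
  rfl

theorem sum_PP (hP : U.Pre) (h : D → ℤ) (C : Finset D) (hC : C ⊆ U.S)
    (hcl : ∀ x ∈ C, U.sg x ∈ C) : ∑ x ∈ C, U.PP h x (U.sg x) = 2 * U.wraps h C :=
  sum_PP_general C U.sg hcl (fun _ _ _ _ hxy => sg_inj U hxy) h

theorem one_le_wraps (h : D → ℤ) (C : Finset D) (hcl : ∀ x ∈ C, U.sg x ∈ C)
    (hne : C.Nonempty) : 1 ≤ U.wraps h C := by
  obtain ⟨x, hx, hw⟩ := exists_wrap C U.sg (U.key h) hcl hne
  exact Finset.card_pos.2 ⟨x, by simp [hx, hw]⟩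

/-- the class of a vertex -/
def cls (U : UM D) (v : ℕ) : Finset D := U.S.filter (fun x => U.vt x = v)

theorem mem_cls {v : ℕ} {x : D} : x ∈ U.cls v ↔ x ∈ U.S ∧ U.vt x = v := by
  simp [cls]

theorem sg_cls (hP : U.Pre) {v : ℕ} {x : D} (hx : x ∈ U.cls v) : U.sg x ∈ U.cls v := by
  rw [mem_cls] at hx ⊢
  exact ⟨sg_S hP hx.1, by rw [vt_sg hP hx.1]; exact hx.2⟩

theorem wraps_cls (hP : U.Pre) {h : D → ℤ} (hF : U.Folded h) {x : D} (hx : x ∈ U.S) :
    U.wraps h (U.cls (U.vt x)) = 1 := by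
  have h1 := sum_PP hP h (U.cls (U.vt x)) (Finset.filter_subset _ _) (fun y hy => sg_cls hP hy)
  have h2 : ∑ y ∈ U.cls (U.vt x), U.PP h y (U.sg y) = ∑ y ∈ U.cls (U.vt x), (U.A y : ℤ) := by
    apply Finset.sum_congr rfl
    intro y hy
    exact PP_sg hP hF (mem_cls.1 hy).1
  have h3 := hP.vsum x hx
  have h4 : ∑ y ∈ U.cls (U.vt x), (U.A y : ℤ) = 2 := by
    rw [← Nat.cast_sum]
    unfold cls
    rw [h3]
    rfl
  rw [h2, h4] at h1
  omega

end UM

end Pool.Agent.FlatFold
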