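import Mathlib
import Pool.Agent.Lib.MP_b92007_lc.UMap

/-! Deleting a digon face, and how to put it back. -/

set_option linter.unusedSectionVars false
set_option linter.unusedVariables false

namespace Pool.Agent.FlatFold

namespace UM

variable {D : Type} [DecidableEq D] {U : UM D}

/-- delete the digon `a`, `b` -/
def del (U : UM D) (a b : D) : UM D where
  φ := U.φ
  α := Equiv.swap b (U.α a) * U.α * Equiv.swap b (U.α a)
  dir := U.dir
  lev := U.lev
  A := U.A
  vt := U.vt
  S := (U.S.erase a).erase b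

/-- hypotheses on the digon -/
structure DH (U : UM D) (a b : D) : Prop where
  a_S : a ∈ U.S
  ab : U.φ a = b
  ba : U.φ b = a
  nab : a ≠ b
  Aa : U.A a = 0
  Ab : U.A b = 0

variable {a b : D}

theorem sg_perm_mem (hP : U.Pre) {C : Finset D} (hC : C ⊆ U.S) (h : ∀ x ∈ C, U.sg x ∈ C) :
    ∀ x ∈ U.S, U.sg x ∈ C → x ∈ C := by
  intro x hx hxC
  have himg : C.image U.sg = C := by
    apply Finset.eq_of_subset_of_card_le
    · intro y hy
      obtain ⟨z, hz, rfl⟩ := Finset.mem_image.1 hy
      exact h z hz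
    · rw [Finset.card_image_of_injective _ (sg_inj U)]
  rw [← himg, Finset.mem_image] at hxC
  obtain ⟨z, hz, hzx⟩ := hxC
  rwa [← sg_inj U hzx]

namespace DH

theorem b_S (hP : U.Pre) (H : DH U a b) : b ∈ U.S := by
  rw [← H.ab]; exact hP.φ_S _ H.a_S

theorem dir_b (hP : U.Pre) (H : DH U a b) : U.dir b = !U.dir a := by
  have := hP.A_odd a H.a_S
  rw [H.ab, H.Ab] at this
  have h2 : U.dir b ≠ U.dir a := fun h => by simpa using this.2 h
  cases hb : U.dir b <;> cases ha : U.dir a <;> simp [ha, hb] at h2 ⊢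

theorem sg_a (H : DH U a b) : U.sg a = U.α b := by
  unfold sg
  have : U.φ.symm a = b := by rw [Equiv.symm_apply_eq]; exact H.ba.symm
  rw [this]

theorem sg_b (H : DH U a b) : U.sg b = U.α a := by
  unfold sg
  have : U.φ.symm b = a := by rw [Equiv.symm_apply_eq]; exact H.ab.symm
  rw [this]

/-- the digon is not a single edge -/
theorem αa_ne (hP : U.Pre) (H : DH U a b) : U.α a ≠ b := by
  intro hcon
  have hαb : U.α b = a := by rw [← hcon]; exact hP.α_α a H.a_S
  have hsg : U.sg a = a := by rw [H.sg_a, hαb]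
  have h1 := hP.orb {a} (by simpa using H.a_S) (by simp [hsg]) a (by simp)
  have h2 := hP.vsum a H.a_S
  have h3 : U.S.filter (fun x => U.vt x = U.vt a) = {a} := by
    ext x
    rw [Finset.mem_filter, Finset.mem_singleton]
    constructor
    · intro hx
      simpa using h1 x hx.1 hx.2
    · rintro rfl
      exact ⟨H.a_S, rfl⟩
  rw [h3, Finset.sum_singleton, H.Aa] at h2
  omega

theorem αb_ne (hP : U.Pre) (H : DH U a b) : U.α b ≠ a := by
  intro hcon
  apply H.αa_ne hP
  rw [← hcon]
  exact hP.α_α b (H.b_S hP)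

theorem αa_ne_a (hP : U.Pre) (H : DH U a b) : U.α a ≠ a := by
  intro hcon
  have := hP.dir_α a H.a_S
  rw [hcon] at this
  cases h : U.dir a <;> simp [h] at this

theorem αb_ne_b (hP : U.Pre) (H : DH U a b) : U.α b ≠ b := by
  intro hcon
  have := hP.dir_α b (H.b_S hP)
  rw [hcon] at this
  cases h : U.dir b <;> simp [h] at this

theorem αa_ne_αb (H : DH U a b) : U.α a ≠ U.α b := fun h => H.nab (U.α.injective h)

theorem del_α_αa (hP : U.Pre) (H : DH U a b) : (del U a b).α (U.α a) = U.α b := by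
  show (Equiv.swap b (U.α a) * U.α * Equiv.swap b (U.α a)) (U.α a) = _
  rw [Equiv.Perm.mul_apply, Equiv.Perm.mul_apply, Equiv.swap_apply_right,
    Equiv.swap_apply_of_ne_of_ne (H.αb_ne_b hP) H.αa_ne_αb.symm]

theorem del_α_αb (hP : U.Pre) (H : DH U a b) : (del U a b).α (U.α b) = U.α a := by
  show (Equiv.swap b (U.α a) * U.α * Equiv.swap b (U.α a)) (U.α b) = _
  rw [Equiv.Perm.mul_apply, Equiv.Perm.mul_apply,
    Equiv.swap_apply_of_ne_of_ne (H.αb_ne_b hP) H.αa_ne_αb.symm,
    hP.α_α b (H.b_S hP), Equiv.swap_apply_left]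

theorem del_α_other (hP : U.Pre) (H : DH U a b) {x : D} (hx : x ∈ U.S) (hxa : x ≠ a)
    (hxb : x ≠ b) (h1 : x ≠ U.α a) (h2 : x ≠ U.α b) : (del U a b).α x = U.α x := by
  show (Equiv.swap b (U.α a) * U.α * Equiv.swap b (U.α a)) x = _
  rw [Equiv.Perm.mul_apply, Equiv.Perm.mul_apply, Equiv.swap_apply_of_ne_of_ne hxb h1,
    Equiv.swap_apply_of_ne_of_ne]
  · rintro h
    apply h2
    rw [← h, hP.α_α x hx]
  · intro h
    exact hxa (U.α.injective h)

theorem mem_del (x : D) : x ∈ (del U a b).S ↔ x ∈ U.S ∧ x ≠ a ∧ x ≠ b := by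
  show x ∈ (U.S.erase a).erase b ↔ _
  rw [Finset.mem_erase, Finset.mem_erase]
  tauto

theorem αa_S (hP : U.Pre) (H : DH U a b) : U.α a ∈ (del U a b).S := by
  rw [mem_del]
  exact ⟨hP.α_S _ H.a_S, H.αa_ne_a hP, H.αa_ne hP⟩

theorem αb_S (hP : U.Pre) (H : DH U a b) : U.α b ∈ (del U a b).S := by
  rw [mem_del]
  exact ⟨hP.α_S _ (H.b_S hP), H.αb_ne hP, H.αb_ne_b hP⟩

theorem vt_αa (hP : U.Pre) (H : DH U a b) : U.vt (U.α a) = U.vt b := by
  rw [← hP.vt_φ a H.a_S, H.ab]

theorem vt_αb (hP : U.Pre) (H : DH U a b) : U.vt (U.α b) = U.vt a := by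
  rw [← hP.vt_φ b (H.b_S hP), H.ba]

theorem lev_αa (hP : U.Pre) (H : DH U a b) : U.lev (U.α a) = U.lev b :=
  hP.lev_vt _ (hP.α_S _ H.a_S) _ (H.b_S hP) (H.vt_αa hP)

theorem lev_αb (hP : U.Pre) (H : DH U a b) : U.lev (U.α b) = U.lev a :=
  hP.lev_vt _ (hP.α_S _ (H.b_S hP)) _ H.a_S (H.vt_αb hP)

theorem del_α_S (hP : U.Pre) (H : DH U a b) : ∀ x ∈ (del U a b).S, (del U a b).α x ∈ (del U a b).S := by
  intro x hx
  have hx' := (mem_del x).1 hx
  by_cases h1 : x = U.α a
  · rw [h1, H.del_α_αa hP]; exact H.αb_S hP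
  · by_cases h2 : x = U.α b
    · rw [h2, H.del_α_αb hP]; exact H.αa_S hP
    · rw [H.del_α_other hP hx'.1 hx'.2.1 hx'.2.2 h1 h2, mem_del]
      refine ⟨hP.α_S x hx'.1, ?_, ?_⟩
      · intro h
        apply h1
        rw [← h, hP.α_α x hx'.1]
      · intro h
        apply h2
        rw [← h, hP.α_α x hx'.1]

theorem del_φ_S (hP : U.Pre) (H : DH U a b) : ∀ x ∈ (del U a b).S, U.φ x ∈ (del U a b).S := by
  intro x hx
  have hx' := (mem_del x).1 hx
  rw [mem_del]
  refine ⟨hP.φ_S x hx'.1, ?_, ?_⟩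
  · intro h
    exact hx'.2.2 (U.φ.injective (h.trans H.ba.symm))
  · intro h
    exact hx'.2.1 (U.φ.injective (h.trans H.ab.symm))

/-- induction over the darts of the smaller map -/
theorem del_cases (hP : U.Pre) (H : DH U a b) {x : D} (hx : x ∈ (del U a b).S) :
    x = U.α a ∨ x = U.α b ∨ (x ∈ U.S ∧ x ≠ a ∧ x ≠ b ∧ x ≠ U.α a ∧ x ≠ U.α b ∧
      (del U a b).α x = U.α x) := by
  have hx' := (mem_del x).1 hx
  by_cases h1 : x = U.α a
  · exact Or.inl h1
  · by_cases h2 : x = U.α b
    · exact Or.inr (Or.inl h2)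
    · exact Or.inr (Or.inr ⟨hx'.1, hx'.2.1, hx'.2.2, h1, h2,
        H.del_α_other hP hx'.1 hx'.2.1 hx'.2.2 h1 h2⟩)

theorem filter_sum (hP : U.Pre) (H : DH U a b) (p : D → Prop) [DecidablePred p] :
    ∑ x ∈ (del U a b).S.filter p, U.A x = ∑ x ∈ U.S.filter p, U.A x := by
  apply Finset.sum_subset
  · intro x hx
    rw [Finset.mem_filter] at hx ⊢
    exact ⟨((mem_del x).1 hx.1).1, hx.2⟩
  · intro x hx hx'
    rw [Finset.mem_filter] at hx hx'
    by_cases h1 : x = a
    · rw [h1, H.Aa]
    · by_cases h2 : x = b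
      · rw [h2, H.Ab]
      · exact absurd ⟨(mem_del x).2 ⟨hx.1, h1, h2⟩, hx.2⟩ hx'

theorem del_pre (hP : U.Pre) (H : DH U a b) : (del U a b).Pre := by
  have haS := H.a_S
  have hbS := H.b_S hP
  refine ⟨H.del_φ_S hP, H.del_α_S hP, ?_, ?_, ?_, ?_, ?_, ?_, ?_, ?_, ?_⟩
  · -- α_α
    intro x hx
    rcases H.del_cases hP hx with h | h | ⟨hS, h1, h2, h3, h4, h5⟩
    · rw [h, H.del_α_αa hP, H.del_α_αb hP]
    · rw [h, H.del_α_αb hP, H.del_α_αa hP]
    · rw [h5]
      have hm := H.del_α_S hP x hx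
      rw [h5] at hm
      rcases H.del_cases hP hm with h | h | ⟨_, _, _, _, _, h6⟩
      · exact absurd (U.α.injective h) h1
      · exact absurd (U.α.injective h) h2
      · rw [h6, hP.α_α x hS]
  · -- dir_α
    intro x hx
    show U.dir ((del U a b).α x) = !U.dir x
    rcases H.del_cases hP hx with h | h | ⟨hS, h1, h2, h3, h4, h5⟩
    · rw [h, H.del_α_αa hP, hP.dir_α a haS, hP.dir_α b hbS, H.dir_b hP]
    · rw [h, H.del_α_αb hP, hP.dir_α a haS, hP.dir_α b hbS, H.dir_b hP]; simp
    · rw [h5]; exact hP.dir_α x hS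
  · -- lev_α
    intro x hx
    show U.lev ((del U a b).α x) = U.lev x + (if U.dir x then 1 else -1)
    rcases H.del_cases hP hx with h | h | ⟨hS, h1, h2, h3, h4, h5⟩
    · rw [h, H.del_α_αa hP, H.lev_αb hP, hP.dir_α a haS, hP.lev_α a haS]
      cases U.dir a <;> simp
    · rw [h, H.del_α_αb hP, H.lev_αa hP, hP.dir_α b hbS, hP.lev_α b hbS]
      cases U.dir b <;> simp
    · rw [h5]; exact hP.lev_α x hS
  · -- lev_vt
    intro x hx y hy hxy
    exact hP.lev_vt x ((mem_del x).1 hx).1 y ((mem_del y).1 hy).1 hxy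
  · -- vt_φ
    intro x hx
    show U.vt (U.φ x) = U.vt ((del U a b).α x)
    rcases H.del_cases hP hx with h | h | ⟨hS, h1, h2, h3, h4, h5⟩
    · rw [h, H.del_α_αa hP, hP.vt_φ _ (hP.α_S a haS), hP.α_α a haS, H.vt_αb hP]
    · rw [h, H.del_α_αb hP, hP.vt_φ _ (hP.α_S b hbS), hP.α_α b hbS, H.vt_αa hP]
    · rw [h5]; exact hP.vt_φ x hS
  · -- A_odd
    intro x hx
    exact hP.A_odd x ((mem_del x).1 hx).1
  · -- vsum
    intro x hx
    rw [← hP.vsum x ((mem_del x).1 hx).1]
    exact H.filter_sum hP _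
  · -- orb
    intro C hC hcl x hx y hy hxy
    have hCS : C ⊆ U.S := fun z hz => ((mem_del z).1 (hC hz)).1
    have hna : a ∉ C := fun h => ((mem_del a).1 (hC h)).2.1 rfl
    have hnb : b ∉ C := fun h => ((mem_del b).1 (hC h)).2.2 rfl
    have hcl' : ∀ z ∈ C, (del U a b).α (U.φ.symm z) ∈ C := hcl
    -- the bigger set
    have h1 := hP.orb (C ∪ (U.S.filter (fun z => (z = a ∧ U.α b ∈ C) ∨ (z = b ∧ U.α a ∈ C)))) ?_ ?_
      x (Finset.mem_union_left _ hx) y ((mem_del y).1 hy).1 hxy
    · rw [Finset.mem_union, Finset.mem_filter] at h1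
      rcases h1 with h1 | ⟨_, h1 | h1⟩
      · exact h1
      · exact absurd h1.1 ((mem_del y).1 hy).2.1
      · exact absurd h1.1 ((mem_del y).1 hy).2.2
    · intro z hz
      rw [Finset.mem_union, Finset.mem_filter] at hz
      rcases hz with hz | hz
      · exact hCS hz
      · exact hz.1
    · intro z hz
      rw [Finset.mem_union, Finset.mem_filter] at hz ⊢
      rcases hz with hz | ⟨_, ⟨hz, hb⟩ | ⟨hz, hb⟩⟩
      · have hφz : U.φ.symm z ∈ (del U a b).S := by
          apply symm_mem_of_mapsTo _ _ (H.del_φ_S hP) z (hC hz)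
        have hz' := hcl' z hz
        rcases H.del_cases hP hφz with h | h | ⟨hS, h1, h2, h3, h4, h5⟩
        · right
          rw [h, H.del_α_αa hP] at hz'
          unfold sg
          rw [h, hP.α_α a haS]
          exact ⟨haS, Or.inl ⟨rfl, hz'⟩⟩
        · right
          rw [h, H.del_α_αb hP] at hz'
          unfold sg
          rw [h, hP.α_α b hbS]
          exact ⟨hbS, Or.inr ⟨rfl, hz'⟩⟩
        · left
          rw [h5] at hz'
          exact hz'
      · left
        rw [hz, H.sg_a]; exact hb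
      · left
        rw [hz, H.sg_b]; exact hb
  · -- conn
    intro C hC hne hφ hα
    have hCS : C ⊆ U.S := fun z hz => ((mem_del z).1 (hC hz)).1
    have hφ' : ∀ z ∈ C, U.φ z ∈ C := hφ
    have hiff : U.α a ∈ C ↔ U.α b ∈ C := by
      constructor
      · intro h; have := hα _ h; rwa [H.del_α_αa hP] at this
      · intro h; have := hα _ h; rwa [H.del_α_αb hP] at this
    have h1 := hP.conn (C ∪ (U.S.filter (fun z => (z = a ∨ z = b) ∧ U.α a ∈ C))) ?_
      (hne.mono Finset.subset_union_left) ?_ ?_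
    · ext z
      rw [mem_del, ← h1, Finset.mem_union, Finset.mem_filter]
      constructor
      · intro hz
        have := (mem_del z).1 (hC hz)
        exact ⟨Or.inl hz, this.2⟩
      · rintro ⟨hz | hz, h2, h3⟩
        · exact hz
        · rcases hz.2.1 with h | h
          · exact absurd h h2
          · exact absurd h h3
    · intro z hz
      rw [Finset.mem_union, Finset.mem_filter] at hz
      rcases hz with hz | hz
      · exact hCS hz
      · exact hz.1
    · intro z hz
      rw [Finset.mem_union, Finset.mem_filter] at hz ⊢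
      rcases hz with hz | ⟨_, hz | hz, hc⟩
      · left; exact hφ' z hz
      · right; rw [hz, H.ab]; exact ⟨hbS, Or.inr rfl, hc⟩
      · right; rw [hz, H.ba]; exact ⟨haS, Or.inl rfl, hc⟩
    · intro z hz
      rw [Finset.mem_union, Finset.mem_filter] at hz ⊢
      rcases hz with hz | ⟨_, hz | hz, hc⟩
      · rcases H.del_cases hP (hC hz) with h | h | ⟨hS, h1, h2, h3, h4, h5⟩
        · right; rw [h, hP.α_α a haS]; exact ⟨haS, Or.inl rfl, h ▸ hz⟩
        · right; rw [h, hP.α_α b hbS]; exact ⟨hbS, Or.inr rfl, hiff.2 (h ▸ hz)⟩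
        · left; have := hα z hz; rwa [h5] at this
      · left; rw [hz]; exact hc
      · left; rw [hz]; exact hiff.1 hc

end DH

/-- the projection from the big map to the small map -/
def pj (U : UM D) (a b x : D) : D := if x = a then U.α b else if x = b then U.α a else x

/-- the offset of a dart -/
def off (U : UM D) (a b x : D) : ℤ :=
  if x = b ∨ x = U.α b then (if U.dir a then 1 else -1) else 0

/-- the new heights -/
def hh (U : UM D) (a b : D) (h : D → ℤ) (x : D) : ℤ := 2 * h (pj U a b x) + off U a b x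

section undel

variable {h : D → ℤ}

theorem pj_a : pj U a b a = U.α b := by simp [pj]

theorem pj_b (H : DH U a b) : pj U a b b = U.α a := by simp [pj, H.nab.symm]

theorem pj_other {x : D} (h1 : x ≠ a) (h2 : x ≠ b) : pj U a b x = x := by simp [pj, h1, h2]

theorem pj_S (hP : U.Pre) (H : DH U a b) {x : D} (hx : x ∈ U.S) : pj U a b x ∈ (del U a b).S := by
  by_cases h1 : x = a
  · rw [h1, pj_a]; exact H.αb_S hP
  · by_cases h2 : x = b
    · rw [h2, pj_b H]; exact H.αa_S hP
    · rw [pj_other h1 h2, DH.mem_del]; exact ⟨hx, h1, h2⟩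

theorem dir_pj (hP : U.Pre) (H : DH U a b) {x : D} (hx : x ∈ U.S) :
    U.dir (pj U a b x) = U.dir x := by
  by_cases h1 : x = a
  · rw [h1, pj_a, hP.dir_α b (H.b_S hP), H.dir_b hP]; simp
  · by_cases h2 : x = b
    · rw [h2, pj_b H, hP.dir_α a H.a_S, H.dir_b hP]
    · rw [pj_other h1 h2]

theorem lev_pj (hP : U.Pre) (H : DH U a b) {x : D} (hx : x ∈ U.S) :
    U.lev (pj U a b x) = U.lev x := by
  by_cases h1 : x = a
  · rw [h1, pj_a, H.lev_αb hP]
  · by_cases h2 : x = b
    · rw [h2, pj_b H, H.lev_αa hP]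
    · rw [pj_other h1 h2]

theorem vt_pj (hP : U.Pre) (H : DH U a b) {x : D} (hx : x ∈ U.S) :
    U.vt (pj U a b x) = U.vt x := by
  by_cases h1 : x = a
  · rw [h1, pj_a, H.vt_αb hP]
  · by_cases h2 : x = b
    · rw [h2, pj_b H, H.vt_αa hP]
    · rw [pj_other h1 h2]

theorem off_range (x : D) : off U a b x = 0 ∨ off U a b x = (if U.dir a then 1 else -1) := by
  unfold off
  split_ifs <;> simp

theorem tt_pj (hP : U.Pre) (H : DH U a b) {x : D} (hx : x ∈ U.S) :
    U.tt (pj U a b x) = U.tt x := by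
  unfold tt
  rw [dir_pj hP H hx]

/-- order of the keys of darts with different projections -/
theorem key_lt_iff (hP : U.Pre) (H : DH U a b) (hF : (del U a b).Folded h) {x y : D}
    (hx : x ∈ U.S) (hy : y ∈ U.S) (hl : U.lev x = U.lev y) (hne : pj U a b x ≠ pj U a b y) :
    U.key (hh U a b h) x < U.key (hh U a b h) y ↔
      U.key h (pj U a b x) < U.key h (pj U a b y) := by
  unfold key
  rw [tt_pj hP H hx, tt_pj hP H hy, dir_pj hP H hx, dir_pj hP H hy]
  rw [Prod.Lex.toLex_lt_toLex, Prod.Lex.toLex_lt_toLex]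
  by_cases hd : U.dir x = U.dir y
  · have htt : U.tt x = U.tt y := by unfold tt; rw [hd]
    have hhne : h (pj U a b x) ≠ h (pj U a b y) := by
      intro heq
      apply hne
      apply hF.inj _ (pj_S hP H hx) _ (pj_S hP H hy) _ _ heq
      · show U.dir _ = U.dir _
        rw [dir_pj hP H hx, dir_pj hP H hy, hd]
      · show U.lev _ = U.lev _
        rw [lev_pj hP H hx, lev_pj hP H hy, hl]
    have o1 := off_range (U := U) (a := a) (b := b) x
    have o2 := off_range (U := U) (a := a) (b := b) y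
    rw [htt, hd]
    unfold hh
    simp only [lt_self_iff_false, false_or, true_and]
    cases U.dir y <;> simp only [if_true, Bool.false_eq_true, if_false] <;>
      rcases lt_or_gt_of_ne hhne with h5 | h5 <;>
      rcases o1 with o1 | o1 <;> rcases o2 with o2 | o2 <;> rw [o1, o2] <;>
      (try split_ifs) <;> constructor <;> intro h6 <;> omega
  · have htt : U.tt x ≠ U.tt y := by
      unfold tt
      cases hx : U.dir x <;> cases hy : U.dir y <;> simp [hx, hy] at hd ⊢
    simp [htt]

theorem key_a_lt (hP : U.Pre) (H : DH U a b) :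
    U.key (hh U a b h) a < U.key (hh U a b h) (U.α b) := by
  unfold key hh
  have h1 : pj U a b (U.α b) = U.α b := pj_other (H.αb_ne hP) (H.αb_ne_b hP)
  have h2 : U.dir (U.α b) = U.dir a := by rw [hP.dir_α b (H.b_S hP), H.dir_b hP]; simp
  have h3 : U.tt (U.α b) = U.tt a := by unfold tt; rw [h2]
  have h4 : off U a b a = 0 := by
    unfold off
    rw [if_neg]
    rintro (h | h)
    · exact H.nab h
    · exact H.αb_ne hP h.symm
  have h5 : off U a b (U.α b) = if U.dir a then 1 else -1 := by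
    unfold off
    rw [if_pos (Or.inr rfl)]
  rw [pj_a, h1, h2, h3, h4, h5, Prod.Lex.toLex_lt_toLex]
  right
  refine ⟨rfl, ?_⟩
  cases U.dir a <;> simp

theorem key_b_lt (hP : U.Pre) (H : DH U a b) :
    U.key (hh U a b h) b < U.key (hh U a b h) (U.α a) := by
  unfold key hh
  have h1 : pj U a b (U.α a) = U.α a := pj_other (H.αa_ne_a hP) (H.αa_ne hP)
  have h2 : U.dir (U.α a) = !U.dir a := hP.dir_α a H.a_S
  have h2' : U.dir b = !U.dir a := H.dir_b hP
  have h3 : U.tt (U.α a) = U.tt b := by unfold tt; rw [h2, h2']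
  have h4 : off U a b (U.α a) = 0 := by
    unfold off
    rw [if_neg]
    rintro (h | h)
    · exact H.αa_ne hP h
    · exact H.αa_ne_αb h
  have h5 : off U a b b = if U.dir a then 1 else -1 := by
    unfold off
    rw [if_pos (Or.inl rfl)]
  rw [pj_b H, h1, h2, h2', h3, h4, h5, Prod.Lex.toLex_lt_toLex]
  right
  refine ⟨rfl, ?_⟩
  cases U.dir a <;> simp

/-- the position of two darts with the same projection -/
theorem pj_eq_cases (hP : U.Pre) (H : DH U a b) {x y : D} (h : pj U a b x = pj U a b y) :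
    x = y ∨ (x = a ∧ y = U.α b) ∨ (x = U.α b ∧ y = a) ∨ (x = b ∧ y = U.α a) ∨
      (x = U.α a ∧ y = b) := by
  have n1 := H.nab
  have n2 := H.αa_ne_αb
  by_cases h1 : x = a
  · subst h1
    by_cases h2 : y = x
    · left; exact h2.symm
    · by_cases h3 : y = b
      · subst h3; rw [pj_a, pj_b H] at h; exact absurd h.symm n2
      · rw [pj_a, pj_other h2 h3] at h; right; left; exact ⟨rfl, h.symm⟩
  · by_cases h4 : x = b
    · subst h4
      by_cases h2 : y = a
      · subst h2; rw [pj_a, pj_b H] at h; exact absurd h n2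
      · by_cases h3 : y = x
        · left; exact h3.symm
        · rw [pj_b H, pj_other h2 h3] at h
          right; right; right; left; exact ⟨rfl, h.symm⟩
    · rw [pj_other h1 h4] at h
      by_cases h2 : y = a
      · subst h2; rw [pj_a] at h; right; right; left; exact ⟨h, rfl⟩
      · by_cases h3 : y = b
        · subst h3; rw [pj_b H] at h; right; right; right; right; exact ⟨h, rfl⟩
        · rw [pj_other h2 h3] at h; left; exact h

/-- weak monotonicity of the projection -/
theorem pj_mono (hP : U.Pre) (H : DH U a b) (hF : (del U a b).Folded h) {x y : D}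
    (hx : x ∈ U.S) (hy : y ∈ U.S) (hl : U.lev x = U.lev y)
    (hlt : U.key (hh U a b h) x < U.key (hh U a b h) y) :
    U.key h (pj U a b x) < U.key h (pj U a b y) ∨ U.vt x = U.vt y := by
  by_cases he : pj U a b x = pj U a b y
  · right
    rw [← vt_pj hP H hx, ← vt_pj hP H hy, he]
  · left
    rwa [← key_lt_iff hP H hF hx hy hl he]

/-- the `PP` of a dart of the small map and a dart of the big map -/
theorem PP_eq (hP : U.Pre) (H : DH U a b) (hF : (del U a b).Folded h) {z y : D}
    (hz : z ∈ (del U a b).S) (hy : y ∈ U.S) (hl : U.lev z = U.lev y) :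
    U.PP (hh U a b h) z y = U.PP h z (pj U a b y) := by
  have hzS : z ∈ U.S := ((DH.mem_del z).1 hz).1
  have hpz : pj U a b z = z := pj_other ((DH.mem_del z).1 hz).2.1 ((DH.mem_del z).1 hz).2.2
  unfold PP
  rw [tt_pj hP H hy]
  congr 3
  rw [eq_iff_iff]
  by_cases he : pj U a b z = pj U a b y
  · have h1 : U.key h (pj U a b y) ≤ U.key h z := by rw [← he, hpz]
    simp only [h1, iff_true]
    rcases pj_eq_cases hP H he with h | ⟨h, h'⟩ | ⟨h, h'⟩ | ⟨h, h'⟩ | ⟨h, h'⟩
    · rw [h]
    · exact absurd h ((DH.mem_del z).1 hz).2.1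
    · rw [h, h']; exact (key_a_lt hP H).le
    · exact absurd h ((DH.mem_del z).1 hz).2.2
    · rw [h, h']; exact (key_b_lt hP H).le
  · rw [← not_lt, ← not_lt, not_iff_not, key_lt_iff hP H hF hzS hy hl he, hpz]

theorem folded_of_del (hP : U.Pre) (H : DH U a b) (hF : (del U a b).Folded h) :
    U.Folded (hh U a b h) := by
  have haS := H.a_S
  have hbS := H.b_S hP
  have hαa := H.αa_S hP
  have hαb := H.αb_S hP
  have hPd := H.del_pre hP
  refine ⟨?_, ?_, ?_, ?_⟩
  · -- edge
    have hab : h (U.α a) = h (U.α b) := by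
      have := hF.edge (U.α b) hαb
      rwa [H.del_α_αb hP] at this
    have o1 : off U a b a = 0 := by
      unfold off
      rw [if_neg]
      rintro (h | h)
      · exact H.nab h
      · exact H.αb_ne hP h.symm
    have o2 : off U a b (U.α a) = 0 := by
      unfold off
      rw [if_neg]
      rintro (h | h)
      · exact H.αa_ne hP h
      · exact H.αa_ne_αb h
    have o3 : off U a b (U.α b) = off U a b b := by
      unfold off
      rw [if_pos (Or.inr rfl), if_pos (Or.inl rfl)]
    have p1 : pj U a b (U.α a) = U.α a := pj_other (H.αa_ne_a hP) (H.αa_ne hP)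
    have p2 : pj U a b (U.α b) = U.α b := pj_other (H.αb_ne hP) (H.αb_ne_b hP)
    intro d hd
    by_cases h1 : d = a
    · rw [h1]; unfold hh; rw [p1, pj_a, o1, o2, hab]
    · by_cases h2 : d = b
      · rw [h2]; unfold hh; rw [p2, pj_b H, o3, hab]
      · have hdd : d ∈ (del U a b).S := (DH.mem_del d).2 ⟨hd, h1, h2⟩
        rcases H.del_cases hP hdd with h3 | h3 | ⟨_, _, _, h3, h4, h5⟩
        · rw [h3, hP.α_α a haS]; unfold hh; rw [p1, pj_a, o1, o2, hab]
        · rw [h3, hP.α_α b hbS]; unfold hh; rw [p2, pj_b H, o3, hab]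
        · unfold hh
          have h6 : U.α d ≠ a := by
            intro h; apply h3; rw [← h, hP.α_α d hd]
          have h7 : U.α d ≠ b := by
            intro h; apply h4; rw [← h, hP.α_α d hd]
          rw [pj_other h1 h2, pj_other h6 h7]
          have h8 := hF.edge d hdd
          rw [h5] at h8
          rw [h8]
          congr 1
          unfold off
          have e1 : ¬ (U.α d = b ∨ U.α d = U.α b) := by
            rintro (h | h)
            · exact h7 h
            · exact h2 (U.α.injective h)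
          have e2 : ¬ (d = b ∨ d = U.α b) := by
            rintro (h | h)
            · exact h2 h
            · exact h4 h
          rw [if_neg e1, if_neg e2]
  · -- inj
    intro x hx y hy hd hl heq
    by_contra hne
    by_cases he : pj U a b x = pj U a b y
    · have hk : U.key (hh U a b h) x = U.key (hh U a b h) y := by
        unfold key tt
        rw [hd, heq]
      rcases pj_eq_cases hP H he with h | ⟨h, h'⟩ | ⟨h, h'⟩ | ⟨h, h'⟩ | ⟨h, h'⟩
      · exact hne h
      · rw [h, h'] at hk; exact (key_a_lt hP H).ne hk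
      · rw [h, h'] at hk; exact (key_a_lt hP H).ne' hk
      · rw [h, h'] at hk; exact (key_b_lt hP H).ne hk
      · rw [h, h'] at hk; exact (key_b_lt hP H).ne' hk
    · have hhne : h (pj U a b x) ≠ h (pj U a b y) := by
        intro heq
        apply he
        apply hF.inj _ (pj_S hP H hx) _ (pj_S hP H hy) _ _ heq
        · show U.dir _ = U.dir _
          rw [dir_pj hP H hx, dir_pj hP H hy, hd]
        · show U.lev _ = U.lev _
          rw [lev_pj hP H hx, lev_pj hP H hy, hl]
      have o1 := off_range (U := U) (a := a) (b := b) x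
      have o2 := off_range (U := U) (a := a) (b := b) y
      unfold hh at heq
      rcases lt_or_gt_of_ne hhne with h5 | h5 <;>
      rcases o1 with o1 | o1 <;> rcases o2 with o2 | o2 <;> rw [o1, o2] at heq <;>
      (try split_ifs at heq) <;> omega
  · -- corner
    intro d hd
    have hlev : U.lev (U.φ d) = U.lev (U.α d) :=
      hP.lev_vt _ (hP.φ_S d hd) _ (hP.α_S d hd) (hP.vt_φ d hd)
    by_cases h1 : d = a
    · rw [h1, H.ab, H.Ab]
      unfold PP
      rw [if_neg (not_le.2 (key_b_lt hP H))]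
      have : U.tt (U.α a) = U.tt b := by
        unfold tt; rw [hP.dir_α a haS, H.dir_b hP]
      rw [this]; simp
    · by_cases h2 : d = b
      · rw [h2, H.ba, H.Aa]
        unfold PP
        rw [if_neg (not_le.2 (key_a_lt hP H))]
        have : U.tt (U.α b) = U.tt a := by
          unfold tt; rw [hP.dir_α b hbS, H.dir_b hP]; simp
        rw [this]; simp
      · have hdd : d ∈ (del U a b).S := (DH.mem_del d).2 ⟨hd, h1, h2⟩
        have hφd : U.φ d ∈ (del U a b).S := H.del_φ_S hP d hdd
        rw [PP_eq hP H hF hφd (hP.α_S d hd) hlev]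
        have hc := hF.corner d hdd
        have hc' : U.PP h (U.φ d) ((del U a b).α d) = U.A (U.φ d) := hc
        rw [← hc']
        congr 1
        rcases H.del_cases hP hdd with h3 | h3 | ⟨_, _, _, h3, h4, h5⟩
        · rw [h3, hP.α_α a haS, pj_a, H.del_α_αa hP]
        · rw [h3, hP.α_α b hbS, pj_b H, H.del_α_αb hP]
        · rw [h5]
          have h6 : U.α d ≠ a := by
            intro h; apply h3; rw [← h, hP.α_α d hd]
          have h7 : U.α d ≠ b := by
            intro h; apply h4; rw [← h, hP.α_α d hd]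
          rw [pj_other h6 h7]
  · -- nc
    intro x1 hx1 y1 hy1 x2 hx2 y2 hy2 hl k1 k2 k3 v1 v2
    have l12 : U.lev x1 = U.lev x2 := hP.lev_vt _ hx1 _ hx2 v1
    have m12 : U.lev y1 = U.lev y2 := hP.lev_vt _ hy1 _ hy2 v2
    rcases pj_mono hP H hF hx1 hy1 hl k1 with g1 | g1
    · rcases pj_mono hP H hF hy1 hx2 (hl.symm.trans l12) k2 with g2 | g2
      · rcases pj_mono hP H hF hx2 hy2 (l12.symm.trans (hl.trans m12)) k3 with g3 | g3
        · have := hF.nc _ (pj_S hP H hx1) _ (pj_S hP H hy1) _ (pj_S hP H hx2) _ (pj_S hP H hy2)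
            (by show U.lev _ = U.lev _; rw [lev_pj hP H hx1, lev_pj hP H hy1, hl]) g1 g2 g3
            (by show U.vt _ = U.vt _; rw [vt_pj hP H hx1, vt_pj hP H hx2, v1])
            (by show U.vt _ = U.vt _; rw [vt_pj hP H hy1, vt_pj hP H hy2, v2])
          have h' : U.vt (pj U a b x1) = U.vt (pj U a b y1) := this
          rwa [vt_pj hP H hx1, vt_pj hP H hy1] at h'
        · rw [v1, g3, v2]
      · rw [v1, g2]
    · exact g1

end undel

end UM

end Pool.Agent.FlatFold
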