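import Mathlib
import Pool.Agent.Lib.MP_b92007_lc.Sweep

/-!
From a planar straight-line drawing with distinct abscissas, all of whose vertices are opening or
closing, to a combinatorial sweep.
-/

namespace Pool.Agent.FlatFold

open PlaneGraph

/-- A straight-line drawing with distinct abscissas, extracted from an approximation of a flat
folded state. -/
structure Drawing (G : PlaneGraph) where
  x : Fin G.n → ℝ
  y : Fin G.n → ℝ
  typ : Fin G.n → Bool
  ord : Fin G.n → List (Fin G.n)
  X : Fin G.n → ℤ
  x_inj : Function.Injective x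
  planar : ∀ u v a b, v ∈ G.nbr u → b ∈ G.nbr a → s(u, v) ≠ s(a, b) → ∀ s t : ℝ,
    0 ≤ s → s ≤ 1 → 0 ≤ t → t ≤ 1 →
    (1 - s) * x u + s * x v = (1 - t) * x a + t * x b →
    (1 - s) * y u + s * y v = (1 - t) * y a + t * y b →
    ∃ w, w ∈ s(u, v) ∧ w ∈ s(a, b) ∧ x w = (1 - s) * x u + s * x v
  ord_rot : ∀ v, ord v ~r G.nbr v
  right : ∀ u v, v ∈ G.nbr u → typ u = true → x u < x v
  left : ∀ u v, v ∈ G.nbr u → typ u = false → x v < x u
  cross : ∀ v, (ord v).Pairwise
    (fun a b => 0 < (x a - x v) * (y b - y v) - (y a - y v) * (x b - x v))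
  isLevel : IsLevel G typ X
  lvl : ∀ u v, X u < X v → x u < x v
  outer : ∀ v w, (∀ u, x v ≤ x u) → (ord v).getLast? = some w →
    G.faceNext.SameCycle (v, w) G.outer

theorem PlaneGraph.exists_nbr (G : PlaneGraph) (v : Fin G.n) : ∃ w, w ∈ G.nbr v := by
  rcases Relation.ReflTransGen.cases_head (G.connected v G.outer.1) with h | ⟨c, hc, _⟩
  · exact ⟨G.outer.2, h ▸ G.outer_mem⟩
  · exact ⟨c, hc⟩

theorem exists_split {α : Type*} (f : α → ℝ) (c : ℝ) (B : List α)
    (h : B.Pairwise (fun a b => f a ≤ f b)) :
    ∃ A M C, B = A ++ M ++ C ∧ (∀ a ∈ A, f a < c) ∧ (∀ a ∈ M, f a = c) ∧ (∀ a ∈ C, c < f a) := by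
  induction B with
  | nil => exact ⟨[], [], [], rfl, by simp, by simp, by simp⟩
  | cons e B ih =>
    rw [List.pairwise_cons] at h
    obtain ⟨A, M, C, hB, hA, hM, hC⟩ := ih h.2
    rcases lt_trichotomy (f e) c with he | he | he
    · refine ⟨e :: A, M, C, by simp [hB], ?_, hM, hC⟩
      intro a ha
      rcases List.mem_cons.1 ha with rfl | ha
      · exact he
      · exact hA a ha
    · have hA0 : A = [] := by
        by_contra hne
        obtain ⟨a, ha⟩ := List.exists_mem_of_ne_nil A hne
        have h1 := hA a ha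
        have h2 := h.1 a (by rw [hB]; simp [ha])
        linarith
      subst hA0
      refine ⟨[], e :: M, C, by simp [hB], by simp, ?_, hC⟩
      intro a ha
      rcases List.mem_cons.1 ha with rfl | ha
      · exact he
      · exact hM a ha
    · refine ⟨[], [], e :: B, by simp, by simp, by simp, ?_⟩
      intro a ha
      rcases List.mem_cons.1 ha with rfl | ha
      · exact he
      · exact lt_of_lt_of_le he (h.1 a ha)

namespace Drawing

variable {G : PlaneGraph} (D : Drawing G)

/-- an edge, from left to right -/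
def IsEdge (e : Fin G.n × Fin G.n) : Prop := e.2 ∈ G.nbr e.1 ∧ D.typ e.1 = true

theorem IsEdge.lt {e : Fin G.n × Fin G.n} {D : Drawing G} (h : D.IsEdge e) : D.x e.1 < D.x e.2 :=
  D.right _ _ h.1 h.2

theorem IsEdge.typ_right {e : Fin G.n × Fin G.n} {D : Drawing G} (h : D.IsEdge e) :
    D.typ e.2 = false := by
  rw [D.isLevel.typ_ne _ _ h.1, h.2]; rfl

/-- height of the edge `e` at the abscissa `t` -/
noncomputable def ht (e : Fin G.n × Fin G.n) (t : ℝ) : ℝ :=
  D.y e.1 + (D.y e.2 - D.y e.1) * ((t - D.x e.1) / (D.x e.2 - D.x e.1))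

/-- `e` is below `e'` -/
def Below (e e' : Fin G.n × Fin G.n) : Prop :=
  ∀ t, D.x e.1 < t → D.x e'.1 < t → t < D.x e.2 → t < D.x e'.2 → D.ht e t < D.ht e' t

theorem ht_comb (e : Fin G.n × Fin G.n) (s t l : ℝ) :
    D.ht e ((1 - l) * s + l * t) = (1 - l) * D.ht e s + l * D.ht e t := by
  unfold ht
  ring

theorem ht_left (e : Fin G.n × Fin G.n) : D.ht e (D.x e.1) = D.y e.1 := by
  unfold ht
  simp

theorem ht_right {e : Fin G.n × Fin G.n} (he : D.IsEdge e) : D.ht e (D.x e.2) = D.y e.2 := by
  have h1 : D.x e.2 - D.x e.1 ≠ 0 := sub_ne_zero.2 he.lt.ne'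
  unfold ht
  rw [div_self h1]
  ring

theorem ht_ne {e e' : Fin G.n × Fin G.n} (he : D.IsEdge e) (he' : D.IsEdge e') (hne : e ≠ e')
    {t : ℝ} (h1 : D.x e.1 < t) (h2 : D.x e'.1 < t) (h3 : t < D.x e.2) (h4 : t < D.x e'.2) :
    D.ht e t ≠ D.ht e' t := by
  intro hcon
  have p1 : 0 < D.x e.2 - D.x e.1 := sub_pos.2 he.lt
  have p2 : 0 < D.x e'.2 - D.x e'.1 := sub_pos.2 he'.lt
  have hs : s(e.1, e.2) ≠ s(e'.1, e'.2) := by
    intro hh
    rw [Sym2.eq_iff] at hh
    rcases hh with ⟨ha, hb⟩ | ⟨ha, hb⟩
    · exact hne (Prod.ext ha hb)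
    · have := he.lt
      have := he'.lt
      rw [← ha, ← hb] at this
      linarith
  obtain ⟨w, hw1, hw2, hw3⟩ := D.planar e.1 e.2 e'.1 e'.2 he.1 he'.1 hs
    ((t - D.x e.1) / (D.x e.2 - D.x e.1)) ((t - D.x e'.1) / (D.x e'.2 - D.x e'.1))
    (div_nonneg (by linarith) p1.le) ((div_le_one p1).2 (by linarith))
    (div_nonneg (by linarith) p2.le) ((div_le_one p2).2 (by linarith))
    (by field_simp; ring) (by unfold ht at hcon; linarith)
  have hw4 : D.x w = t := by
    rw [hw3]; field_simp; ring
  rcases Sym2.mem_iff.1 hw1 with rfl | rfl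
  · linarith
  · linarith

theorem ht_ne_vertex {e : Fin G.n × Fin G.n} (he : D.IsEdge e) {v : Fin G.n}
    (h1 : D.x e.1 < D.x v) (h3 : D.x v < D.x e.2) : D.ht e (D.x v) ≠ D.y v := by
  intro hcon
  obtain ⟨w, hw⟩ := G.exists_nbr v
  have p1 : 0 < D.x e.2 - D.x e.1 := sub_pos.2 he.lt
  have hs : s(e.1, e.2) ≠ s(v, w) := by
    intro hh
    rw [Sym2.eq_iff] at hh
    rcases hh with ⟨ha, hb⟩ | ⟨ha, hb⟩
    · rw [ha] at h1; exact lt_irrefl _ h1
    · rw [hb] at h3; exact lt_irrefl _ h3
  obtain ⟨w', hw1, hw2, hw3⟩ := D.planar e.1 e.2 v w he.1 hw hs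
    ((D.x v - D.x e.1) / (D.x e.2 - D.x e.1)) 0
    (div_nonneg (by linarith) p1.le) ((div_le_one p1).2 (by linarith))
    le_rfl zero_le_one
    (by field_simp; ring) (by unfold ht at hcon; linarith)
  have hw4 : D.x w' = D.x v := by
    rw [hw3]; field_simp; ring
  rcases Sym2.mem_iff.1 hw1 with rfl | rfl
  · linarith
  · linarith

theorem noCross {e e' : Fin G.n × Fin G.n} (he : D.IsEdge e) (he' : D.IsEdge e') (hne : e ≠ e')
    {s t : ℝ} (h1 : D.x e.1 < t) (h2 : D.x e'.1 < t) (h3 : t < D.x e.2) (h4 : t < D.x e'.2)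
    (k1 : D.x e.1 ≤ s) (k2 : D.x e'.1 ≤ s) (k3 : s ≤ D.x e.2) (k4 : s ≤ D.x e'.2)
    (h : D.ht e s < D.ht e' s) : D.ht e t < D.ht e' t := by
  by_contra hcon
  have hlt : D.ht e' t < D.ht e t :=
    lt_of_le_of_ne (not_lt.1 hcon) (D.ht_ne he he' hne h1 h2 h3 h4).symm
  set a : ℝ := D.ht e' s - D.ht e s with ha
  set b : ℝ := D.ht e t - D.ht e' t with hb
  have ha0 : 0 < a := by linarith
  have hb0 : 0 < b := by linarith
  set l : ℝ := a / (a + b) with hl
  have hl0 : 0 < l := div_pos ha0 (by linarith)
  have hl1 : l < 1 := (div_lt_one (by linarith)).2 (by linarith)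
  have hz : (1 - l) * a = l * b := by
    rw [hl]; field_simp; ring
  refine D.ht_ne he he' hne (t := (1 - l) * s + l * t) ?_ ?_ ?_ ?_ ?_
  · nlinarith [mul_pos hl0 (sub_pos.2 h1), mul_nonneg (sub_pos.2 hl1).le (sub_nonneg.2 k1)]
  · nlinarith [mul_pos hl0 (sub_pos.2 h2), mul_nonneg (sub_pos.2 hl1).le (sub_nonneg.2 k2)]
  · nlinarith [mul_pos hl0 (sub_pos.2 h3), mul_nonneg (sub_pos.2 hl1).le (sub_nonneg.2 k3)]
  · nlinarith [mul_pos hl0 (sub_pos.2 h4), mul_nonneg (sub_pos.2 hl1).le (sub_nonneg.2 k4)]
  · rw [ht_comb, ht_comb]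
    rw [ha, hb] at hz
    linarith

/-- the order of the edges at a vertex is the order of slopes -/
theorem below_opening {v : Fin G.n} (hv : D.typ v = true) :
    ((D.ord v).map (fun w => (v, w))).Pairwise D.Below := by
  rw [List.pairwise_map]
  refine List.Pairwise.imp_of_mem ?_ (D.cross v)
  intro a b ha hb hab t h1 _ _ _
  have ha' : 0 < D.x a - D.x v := sub_pos.2 (D.right v a ((D.ord_rot v).mem_iff.1 ha) hv)
  have hb' : 0 < D.x b - D.x v := sub_pos.2 (D.right v b ((D.ord_rot v).mem_iff.1 hb) hv)
  have h1' : 0 < t - D.x v := sub_pos.2 h1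
  unfold ht
  simp only
  have key : (D.y a - D.y v) / (D.x a - D.x v) < (D.y b - D.y v) / (D.x b - D.x v) := by
    rw [div_lt_div_iff₀ ha' hb']
    linarith
  have := mul_lt_mul_of_pos_right key h1'
  have e1 : (D.y a - D.y v) * ((t - D.x v) / (D.x a - D.x v)) =
    (D.y a - D.y v) / (D.x a - D.x v) * (t - D.x v) := by ring
  have e2 : (D.y b - D.y v) * ((t - D.x v) / (D.x b - D.x v)) =
    (D.y b - D.y v) / (D.x b - D.x v) * (t - D.x v) := by ring
  rw [e1, e2]
  linarith

theorem below_closing {v : Fin G.n} (hv : D.typ v = false) :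
    (((D.ord v).map (fun w => (w, v))).reverse).Pairwise D.Below := by
  rw [List.pairwise_reverse, List.pairwise_map]
  refine List.Pairwise.imp_of_mem ?_ (D.cross v)
  intro a b ha hb hab t _ _ h3 _
  have ha' : 0 < D.x v - D.x a := sub_pos.2 (D.left v a ((D.ord_rot v).mem_iff.1 ha) hv)
  have hb' : 0 < D.x v - D.x b := sub_pos.2 (D.left v b ((D.ord_rot v).mem_iff.1 hb) hv)
  have h1' : 0 < D.x v - t := sub_pos.2 h3
  unfold ht
  simp only
  have key : (D.y v - D.y a) / (D.x v - D.x a) < (D.y v - D.y b) / (D.x v - D.x b) := by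
    rw [div_lt_div_iff₀ ha' hb']
    linarith
  have := mul_lt_mul_of_pos_right key h1'
  have e1 : D.y a + (D.y v - D.y a) * ((t - D.x a) / (D.x v - D.x a)) =
    D.y v - (D.y v - D.y a) / (D.x v - D.x a) * (D.x v - t) := by field_simp; ring
  have e2 : D.y b + (D.y v - D.y b) * ((t - D.x b) / (D.x v - D.x b)) =
    D.y v - (D.y v - D.y b) / (D.x v - D.x b) * (D.x v - t) := by field_simp; ring
  rw [e1, e2]
  linarith

/-- the invariant of the sweep -/
structure Inv (vs : List (Fin G.n)) (B : List (Fin G.n × Fin G.n)) : Prop where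
  below : B.Pairwise D.Below
  mem : ∀ e, e ∈ B ↔ (D.IsEdge e ∧ e.1 ∉ vs ∧ e.2 ∈ vs)

theorem run_of_inv (vs : List (Fin G.n)) (hs : vs.Pairwise (fun u v => D.x u < D.x v))
    (hp : ∀ u v, u ∉ vs → v ∈ vs → D.x u < D.x v) (B : List (Fin G.n × Fin G.n))
    (hB : D.Inv vs B) : Run D.typ D.ord vs B [] := by
  induction vs generalizing B with
  | nil =>
    have : B = [] := by
      by_contra hne
      obtain ⟨a, ha⟩ := List.exists_mem_of_ne_nil B hne
      have := (hB.mem a).1 ha
      simp at this
    rw [this]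
    exact Run.nil _
  | cons v vs ih =>
    rw [List.pairwise_cons] at hs
    have hvs : v ∉ vs := fun h => lt_irrefl _ (hs.1 v h)
    have hp' : ∀ u w, u ∉ vs → w ∈ vs → D.x u < D.x w := by
      intro u w hu hw
      by_cases huv : u = v
      · rw [huv]; exact hs.1 w hw
      · exact hp u w (by simp [huv, hu]) (by simp [hw])
    have hpos : ∀ e ∈ B, D.IsEdge e ∧ D.x e.1 < D.x v ∧ D.x v ≤ D.x e.2 := by
      intro e he
      have h := (hB.mem e).1 he
      refine ⟨h.1, hp _ _ h.2.1 (by simp), ?_⟩
      rcases List.mem_cons.1 h.2.2 with h2 | h2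
      · rw [h2]
      · exact (hs.1 _ h2).le
    have hwk : B.Pairwise (fun a b => D.ht a (D.x v) ≤ D.ht b (D.x v)) := by
      refine List.Pairwise.imp_of_mem ?_ hB.below
      intro a b ha hb hab
      obtain ⟨ha1, ha2, ha3⟩ := hpos a ha
      obtain ⟨hb1, hb2, hb3⟩ := hpos b hb
      by_contra hcon
      rw [not_le] at hcon
      obtain ⟨t, ht1, ht2⟩ := exists_between (max_lt ha2 hb2)
      have ht3 := (max_lt_iff.1 ht1).1
      have ht4 := (max_lt_iff.1 ht1).2
      have h1 := hab t ht3 ht4 (lt_of_lt_of_le ht2 ha3) (lt_of_lt_of_le ht2 hb3)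
      have hne : b ≠ a := by
        rintro rfl
        exact lt_irrefl _ h1
      have h2 := D.noCross hb1 ha1 hne ht4 ht3 (lt_of_lt_of_le ht2 hb3) (lt_of_lt_of_le ht2 ha3)
        hb2.le ha2.le hb3 ha3 hcon
      linarith
    obtain ⟨A, M, C, hBe, hA, hM, hC⟩ := exists_split (fun e => D.ht e (D.x v)) (D.y v) B hwk
    have hMem : ∀ e ∈ B, D.ht e (D.x v) = D.y v ↔ e.2 = v := by
      intro e he
      obtain ⟨h1, h2, h3⟩ := hpos e he
      constructor
      · intro h
        by_contra hne
        have hne' : D.x v ≠ D.x e.2 := fun hh => hne (D.x_inj hh).symm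
        exact D.ht_ne_vertex h1 h2 (lt_of_le_of_ne h3 hne') h
      · intro h
        have := D.ht_right h1
        rw [h] at this
        exact this
    have hpwA : (A ++ M ++ C).Pairwise D.Below := by rw [← hBe]; exact hB.below
    have hpw1 := List.pairwise_append.1 hpwA
    have hpw2 := List.pairwise_append.1 hpw1.1
    have hAB : ∀ e ∈ A, e ∈ B := by intro e he; rw [hBe]; simp [he]
    have hMB : ∀ e ∈ M, e ∈ B := by intro e he; rw [hBe]; simp [he]
    have hCB : ∀ e ∈ C, e ∈ B := by intro e he; rw [hBe]; simp [he]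
    cases hv : D.typ v with
    | true =>
      have hno : ∀ e ∈ B, e.2 ≠ v := by
        intro e he hev
        have := (hpos e he).1.typ_right
        rw [hev, hv] at this
        exact Bool.noConfusion this
      have hM0 : M = [] := by
        by_contra hne
        obtain ⟨a, ha⟩ := List.exists_mem_of_ne_nil M hne
        exact hno a (hMB a ha) ((hMem a (hMB a ha)).1 (hM a ha))
      subst hM0
      rw [List.append_nil] at hBe
      rw [hBe]
      refine Run.opn v vs A C [] hv (ih hs.2 hp' _ ⟨?_, ?_⟩)
      · have hstrict : ∀ e ∈ B, D.x v < D.x e.2 := by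
          intro e he
          exact lt_of_le_of_ne (hpos e he).2.2 (fun hh => hno e he (D.x_inj hh).symm)
        rw [List.pairwise_append, List.pairwise_append]
        refine ⟨⟨hpw2.1, D.below_opening hv, ?_⟩, hpw1.2.1, ?_⟩
        · intro a ha b hb t h1 h2 h3 h4
          rw [List.mem_map] at hb
          obtain ⟨w, hw, rfl⟩ := hb
          have hw' := (D.ord_rot v).mem_iff.1 hw
          obtain ⟨ha1, ha2, ha3⟩ := hpos a (hAB a ha)
          refine D.noCross (s := D.x v) ha1 ⟨hw', hv⟩ ?_ h1 h2 h3 h4 ha2.le le_rfl ha3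
            (D.right v w hw' hv).le ?_
          · rintro rfl
            exact lt_irrefl _ ha2
          · have h5 := D.ht_left (v, w)
            simp only at h5
            rw [h5]
            exact hA a ha
        · intro a ha b hb
          rcases List.mem_append.1 ha with ha | ha
          · exact hpw1.2.2 a (by simp [ha]) b hb
          · intro t h1 h2 h3 h4
            rw [List.mem_map] at ha
            obtain ⟨w, hw, rfl⟩ := ha
            have hw' := (D.ord_rot v).mem_iff.1 hw
            obtain ⟨hb1, hb2, hb3⟩ := hpos b (hCB b hb)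
            refine D.noCross (s := D.x v) ⟨hw', hv⟩ hb1 ?_ h1 h2 h3 h4 le_rfl hb2.le
              (D.right v w hw' hv).le hb3 ?_
            · rintro rfl
              exact lt_irrefl _ hb2
            · have h5 := D.ht_left (v, w)
              simp only at h5
              rw [h5]
              exact hC b hb
      · intro e
        constructor
        · intro he
          rw [List.mem_append, List.mem_append, List.mem_map] at he
          have h2 : e ∈ B ∨ ∃ w ∈ D.ord v, (v, w) = e := by
            rcases he with (he | he) | he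
            · exact Or.inl (hAB e he)
            · exact Or.inr he
            · exact Or.inl (hCB e he)
          rcases h2 with h2 | ⟨w, hw, rfl⟩
          · obtain ⟨k1, k2, k3⟩ := (hB.mem e).1 h2
            refine ⟨k1, fun hh => k2 (by simp [hh]), ?_⟩
            rcases List.mem_cons.1 k3 with k3 | k3
            · exact absurd k3 (hno e h2)
            · exact k3
          · have hw' := (D.ord_rot v).mem_iff.1 hw
            refine ⟨⟨hw', hv⟩, hvs, ?_⟩
            by_contra hwn
            have hlt := D.right v w hw' hv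
            have hne : w ≠ v := by
              rintro rfl
              exact lt_irrefl _ hlt
            have := hp w v (by simp [hne]; exact hwn) (by simp)
            linarith
        · rintro ⟨k1, k2, k3⟩
          rw [List.mem_append, List.mem_append, List.mem_map]
          by_cases hev : e.1 = v
          · left; right
            refine ⟨e.2, (D.ord_rot v).mem_iff.2 (hev ▸ k1.1), ?_⟩
            rw [← hev]
          · have : e ∈ B := (hB.mem e).2 ⟨k1, by simp [hev, k2], by simp [k3]⟩
            rw [hBe] at this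
            rcases List.mem_append.1 this with h | h
            · left; left; exact h
            · right; exact h
    | false =>
      have hMeq : M = ((D.ord v).map (fun w => (w, v))).reverse := by
        have hbc := D.below_closing hv
        have hmem2 : ∀ e, e ∈ M ↔ e ∈ ((D.ord v).map (fun w => (w, v))).reverse := by
          intro e
          rw [List.mem_reverse, List.mem_map]
          constructor
          · intro he
            have h2 := (hMem e (hMB e he)).1 (hM e he)
            have h3 := (hpos e (hMB e he)).1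
            refine ⟨e.1, (D.ord_rot v).mem_iff.2 (G.symm _ _ (h2 ▸ h3.1)), ?_⟩
            rw [← h2]
          · rintro ⟨w, hw, rfl⟩
            have hw' := (D.ord_rot v).mem_iff.1 hw
            have hlt := D.left v w hw' hv
            have hwn : w ∉ v :: vs := by
              intro hin
              rcases List.mem_cons.1 hin with h | h
              · rw [h] at hlt; exact lt_irrefl _ hlt
              · have := hs.1 w h; linarith
            have hin : (w, v) ∈ B := by
              refine (hB.mem _).2 ⟨⟨G.symm _ _ hw', ?_⟩, hwn, by simp⟩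
              have h3 := D.isLevel.typ_ne v w hw'
              rw [hv] at h3
              exact h3
            have h4 := (hMem _ hin).2 rfl
            rw [hBe] at hin
            rcases List.mem_append.1 hin with h | h
            · rcases List.mem_append.1 h with h | h
              · exact absurd h4 (hA _ h).ne
              · exact h
            · exact absurd h4 (hC _ h).ne'
        have hov : ∀ a ∈ M, ∀ b ∈ M, ∃ t, D.x a.1 < t ∧ D.x b.1 < t ∧ t < D.x a.2 ∧
            t < D.x b.2 := by
          intro a ha b hb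
          obtain ⟨ha1, ha2, ha3⟩ := hpos a (hMB a ha)
          obtain ⟨hb1, hb2, hb3⟩ := hpos b (hMB b hb)
          obtain ⟨t, ht1, ht2⟩ := exists_between (max_lt ha2 hb2)
          have ht3 := (max_lt_iff.1 ht1).1
          have ht4 := (max_lt_iff.1 ht1).2
          exact ⟨t, ht3, ht4, lt_of_lt_of_le ht2 ha3, lt_of_lt_of_le ht2 hb3⟩
        have hnd1 : M.Nodup := by
          refine List.Pairwise.imp_of_mem ?_ hpw2.2.1
          rintro a b ha hb hab rfl
          obtain ⟨t, t1, t2, t3, t4⟩ := hov a ha a ha
          exact lt_irrefl _ (hab t t1 t2 t3 t4)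
        have hnd2 : (((D.ord v).map (fun w => (w, v))).reverse).Nodup := by
          refine List.Pairwise.imp_of_mem ?_ hbc
          rintro a b ha hb hab rfl
          obtain ⟨t, t1, t2, t3, t4⟩ := hov a ((hmem2 a).2 ha) a ((hmem2 a).2 ha)
          exact lt_irrefl _ (hab t t1 t2 t3 t4)
        have hperm := (List.perm_ext_iff_of_nodup hnd1 hnd2).2 hmem2
        refine hperm.eq_of_pairwise ?_ hpw2.2.1 hbc
        intro a b ha hb hab hba
        exfalso
        obtain ⟨t, t1, t2, t3, t4⟩ := hov a ha b ((hmem2 b).2 hb)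
        have k1 := hab t t1 t2 t3 t4
        have k2 := hba t t2 t1 t4 t3
        linarith
      rw [hBe, hMeq]
      refine Run.cls v vs A C [] hv (ih hs.2 hp' _ ⟨?_, ?_⟩)
      · rw [List.pairwise_append]
        exact ⟨hpw2.1, hpw1.2.1, fun a ha b hb => hpw1.2.2 a (by simp [ha]) b hb⟩
      · intro e
        constructor
        · intro he
          have heB : e ∈ B ∧ D.ht e (D.x v) ≠ D.y v := by
            rcases List.mem_append.1 he with h | h
            · exact ⟨hAB e h, (hA e h).ne⟩
            · exact ⟨hCB e h, (hC e h).ne'⟩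
          obtain ⟨k1, k2, k3⟩ := (hB.mem e).1 heB.1
          refine ⟨k1, fun hh => k2 (by simp [hh]), ?_⟩
          rcases List.mem_cons.1 k3 with k3 | k3
          · exact absurd ((hMem e heB.1).2 k3) heB.2
          · exact k3
        · rintro ⟨k1, k2, k3⟩
          have hev : e.1 ≠ v := by
            intro hev
            have := k1.2
            rw [hev, hv] at this
            exact Bool.noConfusion this
          have hin : e ∈ B := (hB.mem e).2 ⟨k1, by simp [hev, k2], by simp [k3]⟩
          have hev2 : e.2 ≠ v := by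
            rintro h
            rw [h] at k3
            exact hvs k3
          have hnM : e ∉ M := fun h => hev2 ((hMem e hin).1 (hM e h))
          rw [hBe] at hin
          simp only [List.mem_append] at hin ⊢
          tauto

theorem exists_sorted : ∃ vs : List (Fin G.n), vs.Pairwise (fun u v => D.x u < D.x v) ∧
    ∀ v, v ∈ vs := by
  classical
  let r : Fin G.n → Fin G.n → Prop := fun u v => D.x u ≤ D.x v
  have : Std.Total r := ⟨fun a b => le_total _ _⟩
  have : IsTrans (Fin G.n) r := ⟨fun a b c h1 h2 => le_trans h1 h2⟩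
  refine ⟨(List.finRange G.n).insertionSort r, ?_, ?_⟩
  · have h1 : ((List.finRange G.n).insertionSort r).Pairwise r :=
      List.pairwise_insertionSort r _
    have h2 : ((List.finRange G.n).insertionSort r).Nodup :=
      (List.perm_insertionSort r _).nodup_iff.2 (List.nodup_finRange _)
    refine (List.Pairwise.and h1 h2).imp ?_
    rintro a b ⟨hab, hne⟩
    exact lt_of_le_of_ne hab (fun hh => hne (D.x_inj hh))
  · intro v
    exact (List.perm_insertionSort r _).mem_iff.2 (List.mem_finRange _)

/-- a drawing gives a sweep -/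
theorem toSweep (D : Drawing G) : Nonempty (Sweep G) := by
  obtain ⟨vs, hvs, hall⟩ := D.exists_sorted
  refine ⟨{
    typ := D.typ
    X := D.X
    ord := D.ord
    vs := vs
    isLevel := D.isLevel
    ord_rot := D.ord_rot
    nodup := ?_
    complete := hall
    sorted := ?_
    run := ?_
    outer := ?_ }⟩
  · refine hvs.imp ?_
    rintro a b hab rfl
    exact lt_irrefl _ hab
  · refine hvs.imp ?_
    intro a b hab
    by_contra hcon
    rw [not_le] at hcon
    have := D.lvl _ _ hcon
    linarith
  · refine D.run_of_inv vs hvs (fun u v hu => absurd (hall u) hu) [] ⟨List.Pairwise.nil, ?_⟩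
    intro e
    simp [hall]
  · intro v w hv hw
    refine D.outer v w ?_ hw
    intro u
    cases vs with
    | nil => simp at hv
    | cons a vs =>
      simp only [List.head?_cons, Option.some.injEq] at hv
      subst hv
      rw [List.pairwise_cons] at hvs
      rcases List.mem_cons.1 (hall u) with h | h
      · rw [h]
      · exact (hvs.1 u h).le

end Drawing

end Pool.Agent.FlatFold
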