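import Mathlib
import Pool.Agent.Lib.MP_b92007_lc.DrawAux

/-! From approximations of a flat folded state to a combinatorial sweep. -/

namespace Pool.Agent.FlatFold

open Real PlaneGraph

theorem path_level (G : PlaneGraph) (v₀ v : Fin G.n) :
    ∃ K : ℕ, ∀ (x : Fin G.n → ℝ) (δ : ℝ), 0 ≤ δ →
      (∀ a b, b ∈ G.nbr a → ∃ m : ℤ, |x b - x a - m| ≤ δ) →
      ∃ m : ℤ, |x v - x v₀ - m| ≤ K * δ := by
  induction G.connected v₀ v with
  | refl => exact ⟨0, fun x δ hδ _ => ⟨0, by simp⟩⟩
  | @tail b c _ hbc ih =>
    obtain ⟨K, hK⟩ := ih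
    refine ⟨K + 1, fun x δ hδ h => ?_⟩
    obtain ⟨m, hm⟩ := hK x δ hδ h
    obtain ⟨m', hm'⟩ := h b c hbc
    refine ⟨m + m', ?_⟩
    have : x c - x v₀ - ((m + m' : ℤ) : ℝ) = (x b - x v₀ - m) + (x c - x b - m') := by
      push_cast; ring
    rw [this]
    refine (abs_add_le _ _).trans ?_
    push_cast
    linarith

/-- Shearing by a small amount makes all abscissas distinct. -/
theorem exists_shear {n : ℕ} (x y : Fin n → ℝ) (h : ∀ u v, x u = x v → y u = y v → u = v) :
    ∃ η : ℝ, (Function.Injective fun v => x v + η * y v) ∧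
      ∀ u v, x u < x v → x u + η * y u < x v + η * y v := by
  have key : ∀ᶠ η in nhdsWithin (0 : ℝ) (Set.Ioi 0), ∀ u v, x u < x v →
      x u + η * y u < x v + η * y v := by
    rw [Filter.eventually_all]
    intro u
    rw [Filter.eventually_all]
    intro v
    by_cases huv : x u < x v
    · have h1 : ContinuousAt (fun η : ℝ => (x v + η * y v) - (x u + η * y u)) 0 := by fun_prop
      have h2 : ∀ᶠ η in nhds (0 : ℝ), 0 < (x v + η * y v) - (x u + η * y u) := by
        apply h1.eventually_const_lt
        simp only [zero_mul, add_zero]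
        linarith
      filter_upwards [h2.filter_mono nhdsWithin_le_nhds] with η hη _
      linarith
    · exact Filter.Eventually.of_forall (fun η h => absurd h huv)
  obtain ⟨η, hη, hη0⟩ := (key.and self_mem_nhdsWithin).exists
  refine ⟨η, ?_, hη⟩
  intro u v huv
  simp only at huv
  rcases lt_trichotomy (x u) (x v) with h1 | h1 | h1
  · exact absurd huv (hη u v h1).ne
  · refine h u v h1 ?_
    rw [h1] at huv
    exact mul_left_cancel₀ hη0.ne' (by linarith)
  · exact absurd huv (hη v u h1).ne'

section

variable {G : PlaneGraph} {ε : ℝ} {p : Fin G.n → ℂ} {θ : Fin G.n → ℕ → ℝ}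

theorem approx_mono (H : G.IsFoldApprox ε p θ) (v : Fin G.n) {i j : ℕ} (hij : i ≤ j)
    (hj : j ≤ (G.nbr v).length) : θ v i ≤ θ v j := by
  induction j, hij using Nat.le_induction with
  | base => exact le_rfl
  | succ k hk ih => exact (ih (by omega)).trans (H.ccw v k (by omega)).le

theorem approx_lt (H : G.IsFoldApprox ε p θ) (v : Fin G.n) {i j : ℕ} (hij : i < j)
    (hj : j ≤ (G.nbr v).length) : θ v i < θ v j :=
  (H.ccw v i (by omega)).trans_le (approx_mono H v (by omega) hj)

theorem approx_re (H : G.IsFoldApprox ε p θ) (v : Fin G.n) (i : ℕ)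
    (hi : i < (G.nbr v).length) :
    (p (G.nbr v)[i]).re - (p v).re = ‖p (G.nbr v)[i] - p v‖ * Real.cos (θ v i) := by
  have h := congrArg Complex.re (H.dir v i hi)
  rw [Complex.sub_re, Complex.re_ofReal_mul, Complex.exp_ofReal_mul_I_re] at h
  exact h

theorem approx_im (H : G.IsFoldApprox ε p θ) (v : Fin G.n) (i : ℕ)
    (hi : i < (G.nbr v).length) :
    (p (G.nbr v)[i]).im - (p v).im = ‖p (G.nbr v)[i] - p v‖ * Real.sin (θ v i) := by
  have h := congrArg Complex.im (H.dir v i hi)
  rw [Complex.sub_im, Complex.im_ofReal_mul, Complex.exp_ofReal_mul_I_im] at h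
  exact h

theorem approx_bounds (H : G.IsFoldApprox ε p θ) (hε1 : ε ≤ 1 / 100) {u v : Fin G.n}
    (h : v ∈ G.nbr u) :
    |(|(p v).re - (p u).re| - G.len u v)| < 3 * ε ∧ (1 : ℝ) / 2 < ‖p v - p u‖ ∧
      |(p v).im - (p u).im| < 2 * ε := by
  have h1 : (1 : ℝ) ≤ G.len u v := by exact_mod_cast G.len_pos u v h
  have h2 := abs_lt.1 (H.near_len u v h)
  have h3 := abs_lt.1 (H.near_line u)
  have h4 := abs_lt.1 (H.near_line v)
  rw [norm_sub_rev] at h2
  have h5 : |(p v).im - (p u).im| < 2 * ε := by
    rw [abs_lt]; constructor <;> linarith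
  have h6 := Complex.abs_re_le_norm (p v - p u)
  have h7 := Complex.norm_le_abs_re_add_abs_im (p v - p u)
  rw [Complex.sub_re] at h6
  rw [Complex.sub_re, Complex.sub_im] at h7
  refine ⟨?_, ?_, h5⟩
  · rw [abs_lt]; constructor <;> linarith
  · linarith

theorem approx_cos (H : G.IsFoldApprox ε p θ) (hε0 : 0 < ε) (hε1 : ε ≤ 1 / 100) (v : Fin G.n)
    (i : ℕ) (hi : i < (G.nbr v).length) : 1 / 2 < |Real.cos (θ v i)| := by
  obtain ⟨h1, h2, h3⟩ := approx_bounds H hε1 (List.getElem_mem hi)
  rw [approx_im H v i hi, abs_mul, abs_of_nonneg (norm_nonneg _)] at h3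
  have h4 : |Real.sin (θ v i)| < 1 / 25 := by
    by_contra hcon
    rw [not_lt] at hcon
    have : (1 : ℝ) / 2 * (1 / 25) ≤ ‖p (G.nbr v)[i] - p v‖ * |Real.sin (θ v i)| :=
      mul_le_mul h2.le hcon (by norm_num) (norm_nonneg _)
    linarith
  have h5 := Real.sin_sq_add_cos_sq (θ v i)
  rw [← sq_abs (Real.sin _), ← sq_abs (Real.cos _)] at h5
  have h6 := abs_nonneg (Real.sin (θ v i))
  have h7 := abs_nonneg (Real.cos (θ v i))
  nlinarith

theorem cos_close (a b : ℝ) (ε : ℝ) (h : |a - b| < ε) : |Real.cos a - Real.cos b| < ε := by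
  have := Real.abs_cos_sub_cos_le a b
  exact lt_of_le_of_lt this h

theorem approx_cos_succ (H : G.IsFoldApprox ε p θ) (v : Fin G.n)
    (i : ℕ) (hi : i < (G.nbr v).length) :
    |Real.cos (θ v (i + 1)) - Real.cos (θ v i)| < ε := by
  have h1 := H.ccw v i hi
  rcases H.no_flat v i hi with h | h
  · apply cos_close
    rw [abs_lt]; constructor <;> linarith
  · rw [← Real.cos_add_two_pi (θ v i)]
    apply cos_close
    have h2 := approx_mono H v (i := i + 1) (j := (G.nbr v).length) (by omega) le_rfl
    have h3 := approx_mono H v (i := 0) (j := i) (by omega) (by omega)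
    have h4 := H.full_turn v
    rw [abs_lt]; constructor <;> linarith

theorem approx_sign (H : G.IsFoldApprox ε p θ) (hε0 : 0 < ε) (hε1 : ε ≤ 1 / 100) (v : Fin G.n)
    (i : ℕ) (hi : i < (G.nbr v).length) :
    (0 < Real.cos (θ v 0) ↔ 0 < Real.cos (θ v i)) := by
  induction i with
  | zero => exact Iff.rfl
  | succ k ih =>
    rw [ih (by omega)]
    have h1 := approx_cos H hε0 hε1 v k (by omega)
    have h2 := approx_cos H hε0 hε1 v (k + 1) hi
    have h3 := abs_lt.1 (approx_cos_succ H v k (by omega))
    constructor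
    · intro h
      rw [abs_of_pos h] at h1
      linarith
    · intro h
      rw [abs_of_pos h] at h2
      linarith

theorem approx_mountain (H : G.IsFoldApprox ε p θ) (v : Fin G.n)
    (hd : (G.nbr v).length * ε < 2 * π) :
    ∃ m, m < (G.nbr v).length ∧ 2 * π - ε < θ v (m + 1) - θ v m := by
  by_contra hcon
  push Not at hcon
  have h1 : ∀ i, i ≤ (G.nbr v).length → θ v i ≤ θ v 0 + i * ε := by
    intro i
    induction i with
    | zero => intro _; simp
    | succ k ih =>
      intro hk
      have h2 := ih (by omega)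
      rcases H.no_flat v k (by omega) with h | h
      · push_cast
        linarith
      · exact absurd (hcon k (by omega)) (not_le.2 h)
  have h2 := h1 _ le_rfl
  have h3 := H.full_turn v
  linarith

/-- positivity of the cross product from the directions -/
theorem cross_pos {a b z : ℂ} {α β r s : ℝ} (hr : 0 < r) (hs : 0 < s)
    (h1 : a.re - z.re = r * Real.cos α) (h2 : a.im - z.im = r * Real.sin α)
    (h3 : b.re - z.re = s * Real.cos β) (h4 : b.im - z.im = s * Real.sin β)
    (h5 : α < β) (h6 : β < α + π) :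
    0 < (a.re - z.re) * (b.im - z.im) - (a.im - z.im) * (b.re - z.re) := by
  rw [h1, h2, h3, h4]
  have : r * Real.cos α * (s * Real.sin β) - r * Real.sin α * (s * Real.cos β) =
      r * s * Real.sin (β - α) := by
    rw [Real.sin_sub]; ring
  rw [this]
  exact mul_pos (mul_pos hr hs) (Real.sin_pos_of_pos_of_lt_pi (by linarith) (by linarith))

theorem approx_cross (H : G.IsFoldApprox ε p θ) (hε0 : 0 < ε) (hε1 : ε ≤ 1 / 100) (v : Fin G.n)
    (m : ℕ) (hm : m < (G.nbr v).length) (hm2 : 2 * π - ε < θ v (m + 1) - θ v m) :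
    ((G.nbr v).rotate (m + 1)).Pairwise (fun a b =>
      0 < ((p a).re - (p v).re) * ((p b).im - (p v).im) -
        ((p a).im - (p v).im) * ((p b).re - (p v).re)) := by
  have hpi : (3 : ℝ) < π := Real.pi_gt_three
  have hft := H.full_turn v
  have hnorm : ∀ i (hi : i < (G.nbr v).length), 0 < ‖p (G.nbr v)[i] - p v‖ := by
    intro i hi
    have := (approx_bounds H hε1 (List.getElem_mem hi)).2.1
    linarith
  rw [List.rotate_eq_drop_append_take (by omega), List.pairwise_append]
  refine ⟨?_, ?_, ?_⟩
  · rw [List.pairwise_iff_getElem]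
    intro i j hi hj hij
    rw [List.length_drop] at hi hj
    rw [List.getElem_drop, List.getElem_drop]
    have hi' : m + 1 + i < (G.nbr v).length := by omega
    have hj' : m + 1 + j < (G.nbr v).length := by omega
    refine cross_pos (hnorm _ hi') (hnorm _ hj') (approx_re H v _ hi')
      (approx_im H v _ hi') (approx_re H v _ hj') (approx_im H v _ hj')
      (approx_lt H v (by omega) (by omega)) ?_
    have h1 := approx_mono H v (i := m + 1 + j) (j := (G.nbr v).length) (by omega) le_rfl
    have h2 := approx_mono H v (i := m + 1) (j := m + 1 + i) (by omega) (by omega)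
    have h3 := approx_mono H v (i := 0) (j := m) (by omega) (by omega)
    linarith
  · rw [List.pairwise_iff_getElem]
    intro i j hi hj hij
    rw [List.length_take] at hi hj
    rw [List.getElem_take, List.getElem_take]
    have hi' : i < (G.nbr v).length := by omega
    have hj' : j < (G.nbr v).length := by omega
    refine cross_pos (hnorm _ hi') (hnorm _ hj') (approx_re H v _ hi')
      (approx_im H v _ hi') (approx_re H v _ hj') (approx_im H v _ hj')
      (approx_lt H v (by omega) (by omega)) ?_
    have h1 := approx_mono H v (i := j) (j := m) (by omega) (by omega)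
    have h2 := approx_mono H v (i := m + 1) (j := (G.nbr v).length) (by omega) (by omega)
    have h3 := approx_mono H v (i := 0) (j := i) (by omega) (by omega)
    linarith
  · intro a ha b hb
    obtain ⟨i, hi, rfl⟩ := List.mem_iff_getElem.1 ha
    obtain ⟨j, hj, rfl⟩ := List.mem_iff_getElem.1 hb
    rw [List.length_drop] at hi
    rw [List.length_take] at hj
    rw [List.getElem_drop, List.getElem_take]
    have hi' : m + 1 + i < (G.nbr v).length := by omega
    have hj' : j < (G.nbr v).length := by omega
    refine cross_pos (β := θ v j + 2 * π) (hnorm _ hi') (hnorm _ hj')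
      (approx_re H v _ hi')
      (approx_im H v _ hi') ?_ ?_ ?_ ?_
    · rw [Real.cos_add_two_pi]; exact approx_re H v _ hj'
    · rw [Real.sin_add_two_pi]; exact approx_im H v _ hj'
    · have h1 := approx_lt H v (i := m + 1 + i) (j := (G.nbr v).length) (by omega) le_rfl
      have h3 := approx_mono H v (i := 0) (j := j) (by omega) (by omega)
      linarith
    · have h1 := approx_mono H v (i := j) (j := m) (by omega) (by omega)
      have h2 := approx_mono H v (i := m + 1) (j := m + 1 + i) (by omega) (by omega)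
      linarith

/-- the mountain angle of a leftmost vertex contains the direction to the left -/
theorem approx_outer (H : G.IsFoldApprox ε p θ) (hε0 : 0 < ε) (hε1 : ε ≤ 1 / 100) (v : Fin G.n)
    (hv : 0 < Real.cos (θ v 0)) (hmin : ∀ w, (p v).re ≤ (p w).re)
    (m : ℕ) (hm : m < (G.nbr v).length) (hm2 : 2 * π - ε < θ v (m + 1) - θ v m) :
    G.faceNext.SameCycle (v, (G.nbr v)[m]) G.outer := by
  have hpi : (3 : ℝ) < π := Real.pi_gt_three
  have hc : 0 < Real.cos (θ v m) := (approx_sign H hε0 hε1 v m hm).1 hv
  obtain ⟨k, hk1, hk2⟩ : ∃ k : ℤ, 2 * π * k - π / 2 < θ v m ∧ θ v m < 2 * π * k + π / 2 := by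
    set t := toIocMod (Real.two_pi_pos) (-π) (θ v m) with ht
    have h1 := toIocMod_mem_Ioc (Real.two_pi_pos) (-π) (θ v m)
    have h2 : θ v m = t + toIocDiv (Real.two_pi_pos) (-π) (θ v m) • (2 * π) :=
      (toIocMod_add_toIocDiv_zsmul _ _ _).symm
    rw [← ht, Set.mem_Ioc] at h1
    rw [zsmul_eq_mul] at h2
    have h3 : Real.cos t = Real.cos (θ v m) := by
      rw [h2, Real.cos_add_int_mul_two_pi]
    rw [← h3] at hc
    have h4 : t < π / 2 := by
      by_contra hcon
      have := Real.cos_nonpos_of_pi_div_two_le_of_le (not_lt.1 hcon) (by linarith)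
      linarith
    have h5 : -(π / 2) < t := by
      by_contra hcon
      rw [← Real.cos_neg] at hc
      have := Real.cos_nonpos_of_pi_div_two_le_of_le (x := -t) (by linarith [not_lt.1 hcon])
        (by linarith)
      linarith
    refine ⟨toIocDiv (Real.two_pi_pos) (-π) (θ v m), ?_, ?_⟩ <;> linarith
  exact H.outer v hmin m hm k (by linarith) (by linarith)

end

/-- from fold approximations to drawings -/
theorem drawing_of_flatFoldable (G : PlaneGraph) (h : G.FlatFoldable) : Nonempty (Drawing G) := by
  classical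
  choose K hK using path_level G G.outer.1
  set N : ℝ := ((∑ v, K v + G.n + 1 : ℕ) : ℝ) with hN
  have hN1 : (1 : ℝ) ≤ N := by
    rw [hN]; exact_mod_cast Nat.le_add_left 1 _
  have hNK : ∀ v, (K v : ℝ) ≤ N := by
    intro v
    rw [hN]
    have : K v ≤ ∑ v, K v := Finset.single_le_sum (f := K) (fun _ _ => Nat.zero_le _)
      (Finset.mem_univ v)
    exact_mod_cast (by omega : K v ≤ ∑ v, K v + G.n + 1)
  have hNn : (G.n : ℝ) ≤ N := by
    rw [hN]
    exact_mod_cast (by omega : G.n ≤ ∑ v, K v + G.n + 1)
  set ε : ℝ := 1 / (100 * N) with hε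
  have hε0 : 0 < ε := by positivity
  have hεN : ε * N = 1 / 100 := by rw [hε]; field_simp
  have hε1 : ε ≤ 1 / 100 := by
    rw [← hεN]; exact le_mul_of_one_le_right hε0.le hN1
  obtain ⟨p, θ, H⟩ := h ε hε0
  have hpi : (3 : ℝ) < π := Real.pi_gt_three
  -- mountain angles
  have hmt : ∀ v, ∃ m, m < (G.nbr v).length ∧ 2 * π - ε < θ v (m + 1) - θ v m := by
    intro v
    apply approx_mountain H v
    have h1 : (G.nbr v).length ≤ G.n := by
      have := (G.nodup v).length_le_card
      rwa [Fintype.card_fin] at this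
    have h2 : ((G.nbr v).length : ℝ) ≤ N := le_trans (by exact_mod_cast h1) hNn
    nlinarith
  choose m hm hm2 using hmt
  obtain ⟨η, hη1, hη2⟩ := exists_shear (fun v => (p v).re) (fun v => (p v).im)
    (fun u v h1 h2 => H.inj (Complex.ext h1 h2))
  -- the type of a vertex
  have hright : ∀ u v, v ∈ G.nbr u → 0 < Real.cos (θ u 0) → (p u).re < (p v).re := by
    intro u v huv hc
    obtain ⟨i, hi, rfl⟩ := List.mem_iff_getElem.1 huv
    have h1 := approx_re H u i hi
    have h2 := (approx_sign H hε0 hε1 u i hi).1 hc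
    have h3 := (approx_bounds H hε1 huv).2.1
    have h4 := mul_pos (lt_trans (by norm_num) h3) h2
    linarith
  have hleft : ∀ u v, v ∈ G.nbr u → ¬ 0 < Real.cos (θ u 0) → (p v).re < (p u).re := by
    intro u v huv hc
    obtain ⟨i, hi, rfl⟩ := List.mem_iff_getElem.1 huv
    have h1 := approx_re H u i hi
    have h2 : ¬ 0 < Real.cos (θ u i) := fun h => hc ((approx_sign H hε0 hε1 u i hi).2 h)
    have h2' := approx_cos H hε0 hε1 u i hi
    rw [abs_of_nonpos (not_lt.1 h2)] at h2'
    have h3 := (approx_bounds H hε1 huv).2.1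
    have h4 := mul_pos (lt_trans (by norm_num) h3) (by linarith : 0 < -Real.cos (θ u i))
    linarith
  -- levels
  have hlev : ∀ v, ∃ X : ℤ, |(p v).re - (p G.outer.1).re - X| ≤ 3 / 100 := by
    intro v
    obtain ⟨X, hX⟩ := hK v (fun v => (p v).re) (3 * ε) (by linarith) (by
      intro a b hab
      have h1 := abs_lt.1 (approx_bounds H hε1 hab).1
      by_cases hc : 0 < Real.cos (θ a 0)
      · have h2 := hright a b hab hc
        rw [abs_of_pos (by linarith)] at h1
        refine ⟨G.len a b, ?_⟩
        rw [abs_le]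
        push_cast
        constructor <;> linarith
      · have h2 := hleft a b hab hc
        rw [abs_of_neg (by linarith)] at h1
        refine ⟨-G.len a b, ?_⟩
        rw [abs_le]
        push_cast
        constructor <;> linarith)
    refine ⟨X, hX.trans ?_⟩
    have := mul_le_mul_of_nonneg_right (hNK v) hε0.le
    nlinarith
  choose X hX using hlev
  refine ⟨{
    x := fun v => (p v).re + η * (p v).im
    y := fun v => (p v).im
    typ := fun v => decide (0 < Real.cos (θ v 0))
    ord := fun v => (G.nbr v).rotate (m v + 1)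
    X := X
    x_inj := hη1
    planar := ?_
    ord_rot := ?_
    right := ?_
    left := ?_
    cross := ?_
    isLevel := ⟨?_, ?_⟩
    lvl := ?_
    outer := ?_ }⟩
  · intro u v a b huv hab hne s t hs0 hs1 ht0 ht1 hx hy
    have hre : (1 - s) * (p u).re + s * (p v).re = (1 - t) * (p a).re + t * (p b).re := by
      linear_combination hx - η * hy
    have hz : (1 - s : ℝ) • p u + (s : ℝ) • p v = (1 - t : ℝ) • p a + (t : ℝ) • p b := by
      apply Complex.ext
      · simpa using hre
      · simpa using hy
    obtain ⟨w, hw1, hw2, hw3⟩ := H.planar u v a b huv hab hne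
      ((1 - s : ℝ) • p u + (s : ℝ) • p v)
      ⟨1 - s, s, by linarith, hs0, by ring, rfl⟩
      ⟨1 - t, t, by linarith, ht0, by ring, hz.symm⟩
    refine ⟨w, hw1, hw2, ?_⟩
    rw [← hw3]
    simp
    ring
  · intro v
    exact (List.IsRotated.forall _ _)
  · intro u v huv hc
    exact hη2 _ _ (hright u v huv (by simpa using hc))
  · intro u v huv hc
    exact hη2 _ _ (hleft u v huv (by simpa using hc))
  · intro v
    refine (approx_cross H hε0 hε1 v (m v) (hm v) (hm2 v)).imp ?_
    intro a b hab
    have : ((p a).re + η * (p a).im - ((p v).re + η * (p v).im)) * ((p b).im - (p v).im) -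
        ((p a).im - (p v).im) * ((p b).re + η * (p b).im - ((p v).re + η * (p v).im)) =
        ((p a).re - (p v).re) * ((p b).im - (p v).im) -
        ((p a).im - (p v).im) * ((p b).re - (p v).re) := by ring
    rw [this]
    exact hab
  · intro u v huv
    by_cases hu : 0 < Real.cos (θ u 0)
    · have h1 := hright u v huv hu
      have hv : ¬ 0 < Real.cos (θ v 0) := fun hc => by
        have := hright v u (G.symm _ _ huv) hc
        linarith
      simp [hu, hv]
    · have h1 := hleft u v huv hu
      have hv : 0 < Real.cos (θ v 0) := by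
        by_contra hc
        have := hleft v u (G.symm _ _ huv) hc
        linarith
      simp [hu, hv]
  · intro u v huv hc
    have hu : 0 < Real.cos (θ u 0) := by simpa using hc
    have h1 := hright u v huv hu
    have h2 := abs_lt.1 (approx_bounds H hε1 huv).1
    rw [abs_of_pos (by linarith)] at h2
    have h3 := abs_le.1 (hX u)
    have h4 := abs_le.1 (hX v)
    have h5 : |(((X v - (X u + G.len u v) : ℤ)) : ℝ)| < 1 := by
      push_cast
      rw [abs_lt]
      constructor <;> linarith
    have h6 : |X v - (X u + G.len u v)| < 1 := by exact_mod_cast h5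
    have := Int.abs_lt_one_iff.1 h6
    omega
  · intro u v huv
    apply hη2
    have h3 := abs_le.1 (hX u)
    have h4 := abs_le.1 (hX v)
    have h5 : ((X u : ℝ)) + 1 ≤ X v := by exact_mod_cast huv
    linarith
  · intro v w hmin hw
    have hmin' : ∀ u, (p v).re ≤ (p u).re := by
      intro u
      by_contra hcon
      have := hη2 u v (not_le.1 hcon)
      have := hmin u
      linarith
    obtain ⟨w', hw'⟩ := G.exists_nbr v
    have hcos : 0 < Real.cos (θ v 0) := by
      by_contra hc
      have := hleft v w' hw' hc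
      have := hmin' w'
      linarith
    have key := approx_outer H hε0 hε1 v hcos hmin' (m v) (hm v) (hm2 v)
    have hlast : w = (G.nbr v)[m v]'(hm v) := by
      rw [List.rotate_eq_drop_append_take (by have := hm v; omega)] at hw
      rw [List.take_add_one, List.getElem?_eq_getElem (hm v), Option.toList_some,
        ← List.append_assoc, List.getLast?_concat, Option.some.injEq] at hw
      exact hw.symm
    rw [hlast]
    exact key

/-- Module I.a -/
theorem sweep_of_flatFoldable (G : PlaneGraph) (h : G.FlatFoldable) : Nonempty (Sweep G) := by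
  obtain ⟨D⟩ := drawing_of_flatFoldable G h
  exact D.toSweep

end Pool.Agent.FlatFold
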