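import Mathlib
import Pool.Agent.Lib.MP_b92007_lc.Defs

/-!
The instances of the flat folding problem as words over the alphabet `Bool`.
-/

namespace Pool.Agent.FlatFold

/-- The word of a list: every entry is preceded by `true`, and `false` ends the list. -/
def wList {α : Type} (w : α → List Bool) : List α → List Bool
  | [] => [false]
  | a :: l => true :: (w a ++ wList w l)

/-- The word of a natural number in unary (for the numbers of the vertices). -/
def wUnary : ℕ → List Bool
  | 0 => [false]
  | n + 1 => true :: false :: wUnary n

/-- The word of a natural number in binary (for the lengths): the word of the list of its
binary digits. -/
def wBinary (n : ℕ) : List Bool :=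
  wList (fun b => if b then [true, false, false] else [false]) (Nat.bits n)

namespace PlaneGraph

variable (G : PlaneGraph)

/-- The word of a plane graph: for every vertex the list of its neighbours in counterclockwise
order, each with the length of the edge, and then the directed edge with the outer face on its
left. -/
def encode : List Bool :=
  true :: (wList (fun u => wList (fun v => true :: (wUnary v.val ++ wBinary (G.len u v)))
      (G.nbr u)) (List.finRange G.n) ++
    true :: (wUnary G.outer.1.val ++ wUnary G.outer.2.val))

end PlaneGraph

end Pool.Agent.FlatFold
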