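import Mathlib
import Pool.Agent.Lib.MP_b92007_lc.Encode
import Pool.Agent.Lib.MP_b92007_lc.AlgoDefs
import Pool.Agent.Lib.PolyTime.NatBin

namespace Pool.Agent.FlatFold

open Pool.Agent.Lib.PolyTime

/-- adjacency lists with binary lengths -/
abbrev InstB : Type := List (List (ℕ × NBin)) × (ℕ × ℕ)

theorem wList_eq {α β : Type} [TEnc β] (w : α → List Bool) (f : α → β) (l : List α)
    (h : ∀ a ∈ l, w a = wd false true (f a)) :
    wList w l = wd false true (l.map f) := by
  induction l with
  | nil => rfl
  | cons a l ih =>
    have h1 : wd false true ((a :: l).map f) =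
        true :: (wd false true (f a) ++ wd false true (l.map f)) := rfl
    rw [h1, ← ih (fun a ha => h a (List.mem_cons_of_mem _ ha)), ← h a List.mem_cons_self]
    rfl

theorem wUnary_eq (n : ℕ) : wUnary n = wd false true n := by
  induction n with
  | zero => rfl
  | succ n ih =>
    rw [wUnary, ih]
    rfl

theorem wBinary_eq (n : ℕ) : wBinary n = wd (α := NBin) false true n := by
  unfold wBinary
  rw [wList_eq _ (fun b => b) (Nat.bits n), List.map_id']
  · rfl
  · intro b _
    cases b <;> rfl

theorem encode_eq (G : PlaneGraph) : G.encode = wd (α := InstB) false true G.data := by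
  have h1 : wd (α := InstB) false true G.data =
      true :: (wd (α := List (List (ℕ × NBin))) false true G.data.1 ++
        true :: (wd (α := ℕ) false true G.outer.1.val ++ wd (α := ℕ) false true G.outer.2.val)) :=
    rfl
  rw [h1, ← wUnary_eq, ← wUnary_eq]
  unfold PlaneGraph.encode PlaneGraph.data
  have h2 : wList (fun u => wList (fun v => true :: (wUnary v.val ++ wBinary (G.len u v)))
      (G.nbr u)) (List.finRange G.n) =
      wd (α := List (List (ℕ × NBin))) false true
        ((List.finRange G.n).map (fun u => (G.nbr u).map (fun v => (v.val, G.len u v)))) := by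
    apply wList_eq (β := List (ℕ × NBin))
    intro u _
    apply wList_eq (β := ℕ × NBin)
    intro v _
    rw [wUnary_eq, wBinary_eq]
    rfl
  rw [h2]
  rfl

end Pool.Agent.FlatFold
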