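import Mathlib

/-! Euler's inequality for combinatorial maps. -/

namespace Pool.Agent.FlatFold

/-- number of orbits of a permutation -/
noncomputable def numOrb {D : Type} (π : Equiv.Perm D) : ℕ :=
  Nat.card (Quotient (Equiv.Perm.SameCycle.setoid π))

section Euler

variable {D : Type} [Fintype D]

/-- the difference map of functions on the orbits of `π` -/
noncomputable def dmap (π α : Equiv.Perm D) :
    (Quotient (Equiv.Perm.SameCycle.setoid π) → ℚ) →ₗ[ℚ] (D → ℚ) where
  toFun f x := f (Quotient.mk _ (α x)) - f (Quotient.mk _ x)
  map_add' f g := by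
    funext x
    simp only [Pi.add_apply]
    ring
  map_smul' c f := by
    funext x
    simp only [Pi.smul_apply, smul_eq_mul, RingHom.id_apply]
    ring

omit [Fintype D] in
theorem orb_eq (π : Equiv.Perm D) (x : D) :
    (Quotient.mk (Equiv.Perm.SameCycle.setoid π) (π x)) =
      Quotient.mk (Equiv.Perm.SameCycle.setoid π) x := by
  apply Quotient.sound
  change π.SameCycle (π x) x
  exact (Equiv.Perm.sameCycle_apply_left).mpr (Equiv.Perm.SameCycle.refl π x)

omit [Fintype D] in
theorem finrank_ker_dmap [Finite D] (π α : Equiv.Perm D) (φ : Equiv.Perm D)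
    (hπ : ∀ f : Quotient (Equiv.Perm.SameCycle.setoid π) → ℚ, dmap π α f = 0 →
      ∀ x, f (Quotient.mk _ (φ x)) = f (Quotient.mk _ x))
    (conn : ∀ x y, Relation.ReflTransGen (fun a b => b = φ a ∨ b = α a) x y) :
    Module.finrank ℚ (LinearMap.ker (dmap π α)) ≤ 1 := by
  classical
  have : LinearMap.ker (dmap π α) ≤ Submodule.span ℚ {fun _ => (1 : ℚ)} := by
    intro f hf
    rw [LinearMap.mem_ker] at hf
    rcases isEmpty_or_nonempty D with hD | ⟨⟨x0⟩⟩
    · have : f = 0 := by
        funext q
        induction q using Quotient.inductionOn with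
        | h x => exact (hD.false x).elim
      rw [this]
      exact Submodule.zero_mem _
    · rw [Submodule.mem_span_singleton]
      refine ⟨f (Quotient.mk _ x0), ?_⟩
      funext q
      induction q using Quotient.inductionOn with
      | h y =>
        simp only [Pi.smul_apply, smul_eq_mul, mul_one]
        have h1 := hπ f hf
        have h2 : ∀ x, f (Quotient.mk _ (α x)) = f (Quotient.mk _ x) := by
          intro x
          have := congrFun hf x
          simp only [dmap, LinearMap.coe_mk, AddHom.coe_mk, Pi.zero_apply] at this
          linarith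
        have := conn x0 y
        induction this with
        | refl => rfl
        | tail _ hbc ih =>
          rcases hbc with h | h
          · rw [h, h1, ih]
          · rw [h, h2, ih]
  calc Module.finrank ℚ (LinearMap.ker (dmap π α))
      ≤ Module.finrank ℚ (Submodule.span ℚ
        {(fun _ => (1 : ℚ) : Quotient (Equiv.Perm.SameCycle.setoid π) → ℚ)}) :=
        Submodule.finrank_mono this
    _ ≤ 1 := (finrank_span_le_card _).trans (by simp)

end Euler

/-- Module E: `V - E + F ≤ 2` for a connected combinatorial map. -/
theorem euler_ineq {D : Type} [Fintype D] (φ α : Equiv.Perm D)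
    (hα : ∀ d, α (α d) = d) (hα' : ∀ d, α d ≠ d)
    (conn : ∀ x y, Relation.ReflTransGen (fun a b => b = φ a ∨ b = α a) x y) :
    2 * (numOrb (α * φ⁻¹) + numOrb φ) ≤ Fintype.card D + 4 := by
  classical
  set σ := α * φ⁻¹ with hσ
  have hσφ : ∀ x, σ (φ x) = α x := by
    intro x
    simp [hσ]
  -- representatives
  let e := Fintype.equivFin D
  let R : Finset D := Finset.univ.filter (fun x => e x < e (α x))
  have hR : 2 * R.card = Fintype.card D := by
    have h1 : (Finset.univ.filter (fun x => ¬ e x < e (α x))).card = R.card := by
      apply Finset.card_bij (fun x _ => α x)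
      · intro x hx
        simp only [Finset.mem_filter, Finset.mem_univ, true_and, not_lt, R] at hx ⊢
        rw [hα]
        refine lt_of_le_of_ne hx ?_
        intro h
        exact hα' x (e.injective h)
      · intro x _ y _ h
        exact α.injective h
      · intro y hy
        refine ⟨α y, ?_, hα y⟩
        simp only [Finset.mem_filter, Finset.mem_univ, true_and, not_lt, R] at hy ⊢
        rw [hα]
        exact hy.le
    have h2 := Finset.card_filter_add_card_filter_not (s := (Finset.univ : Finset D))
      (fun x => e x < e (α x))
    rw [h1] at h2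
    have h3 : (Finset.univ : Finset D).card = Fintype.card D := rfl
    have h4 : (Finset.univ.filter (fun x => e x < e (α x))).card = R.card := rfl
    omega
  -- antisymmetric functions
  let A : Submodule ℚ (D → ℚ) :=
    { carrier := {h | ∀ x, h (α x) = - h x}
      add_mem' := by
        intro a b ha hb x
        simp only [Pi.add_apply]
        rw [ha x, hb x]
        ring
      zero_mem' := by
        intro x
        simp
      smul_mem' := by
        intro c a ha x
        simp only [Pi.smul_apply, smul_eq_mul]
        rw [ha x]
        ring }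
  have hA : Module.finrank ℚ A ≤ R.card := by
    let L : A →ₗ[ℚ] (R → ℚ) :=
      { toFun := fun h x => h.1 x.1
        map_add' := by
          intro a b
          funext x
          simp
        map_smul' := by
          intro c a
          funext x
          simp }
    have hL : Function.Injective L := by
      rw [← LinearMap.ker_eq_bot, LinearMap.ker_eq_bot']
      intro h hh
      apply Subtype.ext
      funext x
      by_cases hx : e x < e (α x)
      · have hxR : x ∈ R := by simp [R, hx]
        exact congrFun hh ⟨x, hxR⟩
      · have hxR : α x ∈ R := by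
          simp only [Finset.mem_filter, Finset.mem_univ, true_and, R]
          rw [hα]
          refine lt_of_le_of_ne (not_lt.mp hx) ?_
          intro h
          exact hα' x (e.injective h)
        have h1 : h.1 (α x) = 0 := congrFun hh ⟨α x, hxR⟩
        have h2 := h.2 x
        rw [h1] at h2
        change h.1 x = 0
        linarith
    have := LinearMap.finrank_le_finrank_of_injective hL
    rw [Module.finrank_fintype_fun_eq_card] at this
    simpa using this
  -- the two difference maps
  have hdσ : Module.finrank ℚ (LinearMap.range (dmap σ α)) + 1 ≥ numOrb σ := by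
    have h1 := LinearMap.finrank_range_add_finrank_ker (dmap σ α)
    have h2 : Module.finrank ℚ (LinearMap.ker (dmap σ α)) ≤ 1 := by
      apply finrank_ker_dmap σ α φ _ conn
      intro f hf x
      have h3 : f (Quotient.mk _ (α x)) = f (Quotient.mk _ x) := by
        have := congrFun hf x
        simp only [dmap, LinearMap.coe_mk, AddHom.coe_mk, Pi.zero_apply] at this
        linarith
      have h4 := orb_eq σ (φ x)
      rw [hσφ] at h4
      rw [← h4, h3]
    rw [Module.finrank_fintype_fun_eq_card] at h1
    rw [numOrb, Nat.card_eq_fintype_card]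
    omega
  have hdφ : Module.finrank ℚ (LinearMap.range (dmap φ α)) + 1 ≥ numOrb φ := by
    have h1 := LinearMap.finrank_range_add_finrank_ker (dmap φ α)
    have h2 : Module.finrank ℚ (LinearMap.ker (dmap φ α)) ≤ 1 := by
      apply finrank_ker_dmap φ α φ _ conn
      intro f _ x
      rw [orb_eq φ x]
    rw [Module.finrank_fintype_fun_eq_card] at h1
    rw [numOrb, Nat.card_eq_fintype_card]
    omega
  -- orthogonality
  have horth : ∀ f g, ∑ x, dmap σ α f x * dmap φ α g x = 0 := by
    intro f g
    have hf : ∀ x, f (Quotient.mk _ (α x)) = f (Quotient.mk _ (φ x)) := by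
      intro x
      have h4 := orb_eq σ (φ x)
      rw [hσφ] at h4
      rw [h4]
    have hg : ∀ x, g (Quotient.mk _ (φ x)) = g (Quotient.mk _ x) := by
      intro x
      rw [orb_eq φ x]
    have e1 : ∑ x, f (Quotient.mk _ (α x)) * g (Quotient.mk _ x) =
        ∑ x, f (Quotient.mk _ x) * g (Quotient.mk _ x) := by
      rw [← Equiv.sum_comp φ (fun x => f (Quotient.mk _ x) * g (Quotient.mk _ x))]
      apply Finset.sum_congr rfl
      intro x _
      rw [hf, hg]
    have e2 : ∑ x, f (Quotient.mk _ x) * g (Quotient.mk _ (α x)) =
        ∑ x, f (Quotient.mk _ x) * g (Quotient.mk _ x) := by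
      rw [← e1, ← Equiv.sum_comp α (fun x => f (Quotient.mk _ (α x)) * g (Quotient.mk _ x))]
      apply Finset.sum_congr rfl
      intro x _
      rw [hα]
    have e3 : ∑ x, f (Quotient.mk _ (α x)) * g (Quotient.mk _ (α x)) =
        ∑ x, f (Quotient.mk _ x) * g (Quotient.mk _ x) :=
      Equiv.sum_comp α (fun x => f (Quotient.mk _ x) * g (Quotient.mk _ x))
    have e4 : ∀ x, dmap σ α f x * dmap φ α g x =
        f (Quotient.mk _ (α x)) * g (Quotient.mk _ (α x)) -
        f (Quotient.mk _ (α x)) * g (Quotient.mk _ x) -
        f (Quotient.mk _ x) * g (Quotient.mk _ (α x)) +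
        f (Quotient.mk _ x) * g (Quotient.mk _ x) := by
      intro x
      simp only [dmap, LinearMap.coe_mk, AddHom.coe_mk]
      ring
    rw [Finset.sum_congr rfl (fun x _ => e4 x), Finset.sum_add_distrib, Finset.sum_sub_distrib,
      Finset.sum_sub_distrib, e1, e2, e3]
    ring
  have hdisj : LinearMap.range (dmap σ α) ⊓ LinearMap.range (dmap φ α) = ⊥ := by
    rw [Submodule.eq_bot_iff]
    rintro h ⟨⟨f, rfl⟩, ⟨g, hg⟩⟩
    have h1 := horth f g
    rw [hg] at h1
    have h2 : ∀ x, dmap σ α f x * dmap σ α f x = 0 := by
      have := (Finset.sum_eq_zero_iff_of_nonneg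
        (s := Finset.univ) (f := fun x => dmap σ α f x * dmap σ α f x)
        (fun x _ => mul_self_nonneg _)).mp h1
      intro x
      exact this x (Finset.mem_univ x)
    funext x
    exact mul_self_eq_zero.mp (h2 x)
  have hle : LinearMap.range (dmap σ α) ⊔ LinearMap.range (dmap φ α) ≤ A := by
    rw [sup_le_iff]
    constructor
    · rintro _ ⟨f, rfl⟩ x
      simp only [dmap, LinearMap.coe_mk, AddHom.coe_mk]
      rw [hα]
      ring
    · rintro _ ⟨f, rfl⟩ x
      simp only [dmap, LinearMap.coe_mk, AddHom.coe_mk]
      rw [hα]
      ring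
  have h1 := Submodule.finrank_sup_add_finrank_inf_eq
    (LinearMap.range (dmap σ α)) (LinearMap.range (dmap φ α))
  rw [hdisj, finrank_bot] at h1
  have h2 := Submodule.finrank_mono hle
  omega

/-- sums over all darts, orbit by orbit -/
theorem sum_eq_of_orbit_sum {D : Type} [Fintype D] [DecidableEq D] (π : Equiv.Perm D)
    (f : D → ℤ) (c : ℤ)
    (h : ∀ d, ∑ x ∈ Finset.univ.filter (fun x => π.SameCycle d x), f x = c) :
    ∑ x, f x = c * numOrb π := by
  classical
  let Q := Quotient (Equiv.Perm.SameCycle.setoid π)
  have h1 : ∑ x, f x = ∑ q : Q, ∑ x ∈ Finset.univ.filter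
      (fun x => (Quotient.mk (Equiv.Perm.SameCycle.setoid π) x : Q) = q), f x := by
    rw [Finset.sum_fiberwise]
  have h2 : ∀ q : Q, ∑ x ∈ Finset.univ.filter
      (fun x => (Quotient.mk (Equiv.Perm.SameCycle.setoid π) x : Q) = q), f x = c := by
    intro q
    induction q using Quotient.inductionOn with
    | h d =>
      rw [← h d]
      apply Finset.sum_congr _ (fun _ _ => rfl)
      ext x
      simp only [Finset.mem_filter, Finset.mem_univ, true_and]
      constructor
      · intro hx
        have := Quotient.exact hx
        exact Equiv.Perm.SameCycle.symm this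
      · intro hx
        exact Quotient.sound (Equiv.Perm.SameCycle.symm hx)
  rw [h1, Finset.sum_congr rfl (fun q _ => h2 q), Finset.sum_const, numOrb,
    Nat.card_eq_fintype_card, Finset.card_univ, nsmul_eq_mul, mul_comm]

end Pool.Agent.FlatFold
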