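import Mathlib
import Pool.Agent.Lib.MP_b92007_lc.Euler

/-! Euler's inequality with labels. -/

set_option linter.unusedSectionVars false
set_option linter.unusedVariables false

namespace Pool.Agent.FlatFold

/-- sums over all darts, orbit by orbit -/
theorem sum_le_of_orbit_sum {D : Type} [Fintype D] (π : Equiv.Perm D)
    (f : D → ℤ) (c e : ℤ) (d0 : D)
    (h : ∀ d, ∀ s : Finset D, (∀ x, x ∈ s ↔ π.SameCycle d x) → ∑ x ∈ s, f x ≤ c)
    (h0 : ∀ s : Finset D, (∀ x, x ∈ s ↔ π.SameCycle d0 x) → ∑ x ∈ s, f x ≤ c - e) :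
    ∑ x, f x + e ≤ c * numOrb π := by
  classical
  let Q := Quotient (Equiv.Perm.SameCycle.setoid π)
  have h1 : ∑ x, f x = ∑ q : Q, ∑ x ∈ Finset.univ.filter
      (fun x => (Quotient.mk (Equiv.Perm.SameCycle.setoid π) x : Q) = q), f x := by
    rw [Finset.sum_fiberwise]
  have h2 : ∀ d : D, ∀ x, x ∈ Finset.univ.filter
      (fun x => (Quotient.mk (Equiv.Perm.SameCycle.setoid π) x : Q) =
        Quotient.mk (Equiv.Perm.SameCycle.setoid π) d) ↔ π.SameCycle d x := by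
    intro d x
    simp only [Finset.mem_filter, Finset.mem_univ, true_and]
    constructor
    · intro hx
      have := Quotient.exact hx
      exact Equiv.Perm.SameCycle.symm this
    · intro hx
      exact Quotient.sound (Equiv.Perm.SameCycle.symm hx)
  let q0 : Q := Quotient.mk (Equiv.Perm.SameCycle.setoid π) d0
  have h3 : ∑ q : Q, ∑ x ∈ Finset.univ.filter
      (fun x => (Quotient.mk (Equiv.Perm.SameCycle.setoid π) x : Q) = q), f x + e ≤
      ∑ q : Q, c := by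
    rw [← Finset.add_sum_erase Finset.univ _ (Finset.mem_univ q0),
      ← Finset.add_sum_erase Finset.univ (fun _ => c) (Finset.mem_univ q0)]
    have h4 : ∑ x ∈ Finset.univ.filter
      (fun x => (Quotient.mk (Equiv.Perm.SameCycle.setoid π) x : Q) = q0), f x ≤ c - e :=
      h0 _ (h2 d0)
    have h5 : ∑ q ∈ Finset.univ.erase q0, ∑ x ∈ Finset.univ.filter
      (fun x => (Quotient.mk (Equiv.Perm.SameCycle.setoid π) x : Q) = q), f x ≤
      ∑ q ∈ Finset.univ.erase q0, c := by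
      apply Finset.sum_le_sum
      intro q _
      induction q using Quotient.inductionOn with
      | h d => exact h d _ (h2 d)
    linarith
  rw [h1]
  refine h3.trans (le_of_eq ?_)
  rw [Finset.sum_const, numOrb, Nat.card_eq_fintype_card, Finset.card_univ, nsmul_eq_mul, mul_comm]

theorem sum_le_sub {D : Type} (K : Finset D) (ψ : Equiv.Perm D) (hψ : ∀ x, ψ x ∈ K ↔ x ∈ K)
    (f : D → ℤ) (c e : ℤ) (x0 : D) (hx0 : x0 ∈ K)
    (h : ∀ x ∈ K, ∀ s : Finset D, (∀ y, y ∈ s ↔ y ∈ K ∧ ψ.SameCycle x y) → ∑ y ∈ s, f y ≤ c)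
    (h0 : ∀ s : Finset D, (∀ y, y ∈ s ↔ y ∈ K ∧ ψ.SameCycle x0 y) → ∑ y ∈ s, f y ≤ c - e) :
    ∑ x ∈ K, f x + e ≤ c * numOrb (ψ.subtypePerm hψ) := by
  classical
  have hsum : ∀ (d : {x // x ∈ K}) (s : Finset {x // x ∈ K}),
      (∀ x, x ∈ s ↔ (ψ.subtypePerm hψ).SameCycle d x) →
      ∑ x ∈ s, f x.1 = ∑ y ∈ s.image Subtype.val, f y := by
    intro d s _
    rw [Finset.sum_image]
    intro x _ y _ h
    exact Subtype.ext h
  have hmem : ∀ (d : {x // x ∈ K}) (s : Finset {x // x ∈ K}),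
      (∀ x, x ∈ s ↔ (ψ.subtypePerm hψ).SameCycle d x) →
      ∀ y, y ∈ s.image Subtype.val ↔ y ∈ K ∧ ψ.SameCycle d.1 y := by
    intro d s hs y
    rw [Finset.mem_image]
    constructor
    · rintro ⟨x, hx, rfl⟩
      exact ⟨x.2, Equiv.Perm.sameCycle_subtypePerm.1 ((hs x).1 hx)⟩
    · rintro ⟨hy, hxy⟩
      exact ⟨⟨y, hy⟩, (hs _).2 (Equiv.Perm.sameCycle_subtypePerm.2 hxy), rfl⟩
  have h1 := sum_le_of_orbit_sum (ψ.subtypePerm hψ) (fun x => f x.1) c e ⟨x0, hx0⟩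
    (fun d s hs => (hsum d s hs).trans_le (h d.1 d.2 _ (hmem d s hs)))
    (fun s hs => (hsum _ s hs).trans_le (h0 _ (hmem _ s hs)))
  rwa [Finset.sum_coe_sort K f] at h1

theorem perm_mem_iff {D : Type} (K : Finset D) (ψ : Equiv.Perm D) (hψ : ∀ x ∈ K, ψ x ∈ K) :
    ∀ x, ψ x ∈ K ↔ x ∈ K := by
  classical
  intro x
  refine ⟨fun hx => ?_, hψ x⟩
  have himg : K.image ψ = K := by
    apply Finset.eq_of_subset_of_card_le
    · intro y hy
      obtain ⟨z, hz, rfl⟩ := Finset.mem_image.1 hy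
      exact hψ z hz
    · rw [Finset.card_image_of_injective _ ψ.injective]
  rw [← himg, Finset.mem_image] at hx
  obtain ⟨z, hz, hzx⟩ := hx
  rwa [← ψ.injective hzx]

/-- Euler's inequality for connected subsets -/
theorem euler_finset {D : Type} (φ α : Equiv.Perm D) (K : Finset D)
    (hφ : ∀ x, φ x ∈ K ↔ x ∈ K) (hα : ∀ x, α x ∈ K ↔ x ∈ K)
    (hσ : ∀ x, (α * φ⁻¹) x ∈ K ↔ x ∈ K)
    (hαα : ∀ x ∈ K, α (α x) = x)
    (hα' : ∀ x ∈ K, α x ≠ x)
    (conn : ∀ C ⊆ K, C.Nonempty → (∀ x ∈ C, φ x ∈ C) → (∀ x ∈ C, α x ∈ C) → C = K) :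
    2 * (numOrb ((α * φ⁻¹).subtypePerm hσ) + numOrb (φ.subtypePerm hφ)) ≤ K.card + 4 := by
  classical
  have hσeq : α.subtypePerm hα * (φ.subtypePerm hφ)⁻¹ = (α * φ⁻¹).subtypePerm hσ := by
    ext x
    rfl
  have hE := euler_ineq (φ.subtypePerm hφ) (α.subtypePerm hα) (by
      intro d
      apply Subtype.ext
      exact hαα d.1 d.2) (by
      intro d hd
      exact hα' d.1 d.2 (congrArg Subtype.val hd)) (by
      intro x y
      have hC : (Finset.univ.filter (fun z : {x // x ∈ K} =>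
          Relation.ReflTransGen (fun a b => b = φ.subtypePerm hφ a ∨ b = α.subtypePerm hα a)
            x z)).image Subtype.val = K := by
        apply conn
        · intro z hz
          obtain ⟨w, _, rfl⟩ := Finset.mem_image.1 hz
          exact w.2
        · refine ⟨x.1, Finset.mem_image.2 ⟨x, ?_, rfl⟩⟩
          rw [Finset.mem_filter]
          exact ⟨Finset.mem_univ _, Relation.ReflTransGen.refl⟩
        · intro z hz
          obtain ⟨w, hw, rfl⟩ := Finset.mem_image.1 hz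
          refine Finset.mem_image.2 ⟨φ.subtypePerm hφ w, ?_, rfl⟩
          rw [Finset.mem_filter] at hw ⊢
          exact ⟨Finset.mem_univ _, hw.2.tail (Or.inl rfl)⟩
        · intro z hz
          obtain ⟨w, hw, rfl⟩ := Finset.mem_image.1 hz
          refine Finset.mem_image.2 ⟨α.subtypePerm hα w, ?_, rfl⟩
          rw [Finset.mem_filter] at hw ⊢
          exact ⟨Finset.mem_univ _, hw.2.tail (Or.inr rfl)⟩
      have hy : (y : D) ∈ (Finset.univ.filter (fun z : {x // x ∈ K} =>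
          Relation.ReflTransGen (fun a b => b = φ.subtypePerm hφ a ∨ b = α.subtypePerm hα a)
            x z)).image Subtype.val := by
        rw [hC]; exact y.2
      obtain ⟨w, hw, hwy⟩ := Finset.mem_image.1 hy
      have : w = y := Subtype.ext hwy
      rw [this, Finset.mem_filter] at hw
      exact hw.2)
  rwa [hσeq, Fintype.card_coe] at hE

/-- Euler's inequality for labelled connected subsets -/
theorem euler_labels {D : Type} (φ α : Equiv.Perm D) (K : Finset D)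
    (hφ : ∀ x ∈ K, φ x ∈ K) (hα : ∀ x ∈ K, α x ∈ K) (hαα : ∀ x ∈ K, α (α x) = x)
    (hα' : ∀ x ∈ K, α x ≠ x)
    (conn : ∀ C ⊆ K, C.Nonempty → (∀ x ∈ C, φ x ∈ C) → (∀ x ∈ C, α x ∈ C) → C = K)
    (f g : D → ℤ)
    (hf : ∀ x ∈ K, ∀ s : Finset D, (∀ y, y ∈ s ↔ y ∈ K ∧ (α * φ⁻¹).SameCycle x y) →
      ∑ y ∈ s, f y ≤ 2)
    (hg : ∀ x ∈ K, ∀ s : Finset D, (∀ y, y ∈ s ↔ y ∈ K ∧ φ.SameCycle x y) → ∑ y ∈ s, g y ≤ 2)
    (xf xg : D) (hxf : xf ∈ K) (hxg : xg ∈ K) (ef eg : ℤ)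
    (hfx : ∀ s : Finset D, (∀ y, y ∈ s ↔ y ∈ K ∧ (α * φ⁻¹).SameCycle xf y) →
      ∑ y ∈ s, f y ≤ 2 - ef)
    (hgx : ∀ s : Finset D, (∀ y, y ∈ s ↔ y ∈ K ∧ φ.SameCycle xg y) → ∑ y ∈ s, g y ≤ 2 - eg) :
    ∑ x ∈ K, f x + ∑ x ∈ K, g x + ef + eg ≤ K.card + 4 := by
  have hφ' := perm_mem_iff K φ hφ
  have hα'' := perm_mem_iff K α hα
  have hσ' := perm_mem_iff K (α * φ⁻¹) (by
    intro x hx
    rw [Equiv.Perm.mul_apply]
    apply hα
    rw [← hφ']
    simpa using hx)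
  have hE := euler_finset φ α K hφ' hα'' hσ' hαα hα' conn
  have h1 := sum_le_sub K (α * φ⁻¹) hσ' f 2 ef xf hxf hf hfx
  have h2 := sum_le_sub K φ hφ' g 2 eg xg hxg hg hgx
  have hE' : (2 : ℤ) * (numOrb ((α * φ⁻¹).subtypePerm hσ') + numOrb (φ.subtypePerm hφ')) ≤
    K.card + 4 := by exact_mod_cast hE
  linarith

end Pool.Agent.FlatFold
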