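import Mathlib
import Pool.Agent.Lib.MP_b92007_lc.UMap

/-! Zipping two edges together: the combinatorial part, and how to unzip a folded state. -/

set_option linter.unusedSectionVars false
set_option linter.unusedVariables false

namespace Pool.Agent.FlatFold

namespace UM

variable {D : Type} [DecidableEq D] {U : UM D}

/-- identify the tails of `a` and `c`, in the face of `a` and `c` -/
def merge (U : UM D) (a c : D) : UM D where
  φ := Equiv.swap a c * U.φ
  α := U.α
  dir := U.dir
  lev := U.lev
  A := fun x => if x = a then 0 else if x = c then U.A a + U.A c - 2 else U.A x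
  vt := fun x => if U.vt x = U.vt c then U.vt a else U.vt x
  S := U.S

/-- hypotheses on the place of zipping -/
structure MH (U : UM D) (a b c : D) : Prop where
  a_S : a ∈ U.S
  ab : U.φ a = b
  bc : U.φ b = c
  nab : a ≠ b
  nac : a ≠ c
  nbc : b ≠ c
  Ab : U.A b = 0
  two : 2 ≤ U.A a + U.A c
  vt_ne : U.vt a ≠ U.vt c

theorem merge_φ_symm (a c x : D) :
    (merge U a c).φ.symm x = U.φ.symm (Equiv.swap a c x) := by
  have : (merge U a c).φ = Equiv.swap a c * U.φ := rfl
  rw [this, Equiv.symm_apply_eq]
  simp

theorem merge_sg (a c x : D) : (merge U a c).sg x = U.sg (Equiv.swap a c x) := by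
  unfold sg
  rw [merge_φ_symm]
  rfl

theorem merge_sg_a (a c : D) : (merge U a c).sg a = U.sg c := by
  rw [merge_sg, Equiv.swap_apply_left]

theorem merge_sg_c (a c : D) : (merge U a c).sg c = U.sg a := by
  rw [merge_sg, Equiv.swap_apply_right]

theorem merge_sg_of_ne (a c x : D) (h1 : x ≠ a) (h2 : x ≠ c) :
    (merge U a c).sg x = U.sg x := by
  rw [merge_sg, Equiv.swap_apply_of_ne_of_ne h1 h2]

namespace MH

variable {a b c : D}

theorem b_S (hP : U.Pre) (H : MH U a b c) : b ∈ U.S := by
  rw [← H.ab]; exact hP.φ_S _ H.a_S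

theorem c_S (hP : U.Pre) (H : MH U a b c) : c ∈ U.S := by
  rw [← H.bc]; exact hP.φ_S _ (H.b_S hP)

theorem dir_b (hP : U.Pre) (H : MH U a b c) : U.dir b = !U.dir a := by
  have := hP.A_odd a H.a_S
  rw [H.ab, H.Ab] at this
  have h2 : U.dir b ≠ U.dir a := fun h => by simpa using this.2 h
  cases hb : U.dir b <;> cases ha : U.dir a <;> simp [ha, hb] at h2 ⊢

theorem lev_c (hP : U.Pre) (H : MH U a b c) : U.lev c = U.lev a := by
  have h1 : U.lev b = U.lev (U.α a) := by
    apply hP.lev_vt _ (H.b_S hP) _ (hP.α_S _ H.a_S)
    rw [← H.ab]; exact hP.vt_φ _ H.a_S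
  have h2 : U.lev c = U.lev (U.α b) := by
    apply hP.lev_vt _ (H.c_S hP) _ (hP.α_S _ (H.b_S hP))
    rw [← H.bc]; exact hP.vt_φ _ (H.b_S hP)
  rw [h2, hP.lev_α _ (H.b_S hP), h1, hP.lev_α _ H.a_S, H.dir_b hP]
  cases U.dir a <;> simp

theorem sg_c (H : MH U a b c) : U.sg c = U.α b := by
  unfold sg
  rw [← H.bc]; simp

end MH

section pre

variable {a b c : D}

theorem merge_vt_eq (hv : U.vt a ≠ U.vt c) (x : D) :
    (merge U a c).vt x = U.vt a ↔ (U.vt x = U.vt a ∨ U.vt x = U.vt c) := by
  show (if U.vt x = U.vt c then U.vt a else U.vt x) = U.vt a ↔ _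
  split_ifs with h
  · simp [h]
  · simp [h]

theorem merge_vt_eq' (hv : U.vt a ≠ U.vt c) (x y : D) (hy : U.vt y ≠ U.vt a)
    (hy' : U.vt y ≠ U.vt c) :
    (merge U a c).vt x = (merge U a c).vt y ↔ U.vt x = U.vt y := by
  show (if U.vt x = U.vt c then U.vt a else U.vt x) = (if U.vt y = U.vt c then U.vt a else U.vt y)
    ↔ _
  rw [if_neg hy']
  split_ifs with h
  · rw [h]
    constructor
    · intro h; exact absurd h.symm hy
    · intro h; exact absurd h.symm hy'
  · rfl

theorem merge_vt_of (x y : D) (h : U.vt x = U.vt y) :
    (merge U a c).vt x = (merge U a c).vt y := by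
  show (if U.vt x = U.vt c then U.vt a else U.vt x) = (if U.vt y = U.vt c then U.vt a else U.vt y)
  rw [h]

theorem merge_pre (hP : U.Pre) (H : MH U a b c) : (merge U a c).Pre := by
  have haS := H.a_S
  have hbS := H.b_S hP
  have hcS := H.c_S hP
  have hlev := H.lev_c hP
  have hdirb := H.dir_b hP
  refine ⟨?_, hP.α_S, hP.α_α, hP.dir_α, hP.lev_α, ?_, ?_, ?_, ?_, ?_, ?_⟩
  · -- φ_S
    intro d hd
    show (Equiv.swap a c * U.φ) d ∈ U.S
    rw [Equiv.Perm.mul_apply]
    by_cases h1 : U.φ d = a
    · rw [h1, Equiv.swap_apply_left]; exact hcS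
    · by_cases h2 : U.φ d = c
      · rw [h2, Equiv.swap_apply_right]; exact haS
      · rw [Equiv.swap_apply_of_ne_of_ne h1 h2]; exact hP.φ_S d hd
  · -- lev_vt
    intro x hx y hy hxy
    show U.lev x = U.lev y
    have key : ∀ z ∈ U.S, (merge U a c).vt z = U.vt a → U.lev z = U.lev a := by
      intro z hz hz'
      rw [merge_vt_eq H.vt_ne] at hz'
      rcases hz' with h | h
      · exact hP.lev_vt z hz a haS h
      · rw [hP.lev_vt z hz c hcS h, hlev]
    by_cases h1 : (merge U a c).vt y = U.vt a
    · rw [key y hy h1, key x hx (hxy.trans h1)]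
    · rw [merge_vt_eq H.vt_ne, not_or] at h1
      rw [merge_vt_eq' H.vt_ne x y h1.1 h1.2] at hxy
      exact hP.lev_vt x hx y hy hxy
  · -- vt_φ
    intro d hd
    show (merge U a c).vt ((Equiv.swap a c * U.φ) d) = (merge U a c).vt (U.α d)
    have h0 := hP.vt_φ d hd
    rw [Equiv.Perm.mul_apply]
    by_cases h1 : U.φ d = a
    · rw [h1, Equiv.swap_apply_left]
      rw [h1] at h0
      rw [(merge_vt_eq H.vt_ne c).2 (Or.inr rfl), (merge_vt_eq H.vt_ne (U.α d)).2 (Or.inl h0.symm)]
    · by_cases h2 : U.φ d = c
      · rw [h2, Equiv.swap_apply_right]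
        rw [h2] at h0
        rw [(merge_vt_eq H.vt_ne a).2 (Or.inl rfl),
          (merge_vt_eq H.vt_ne (U.α d)).2 (Or.inr h0.symm)]
      · rw [Equiv.swap_apply_of_ne_of_ne h1 h2]
        exact merge_vt_of _ _ h0
  · -- A_odd
    intro d hd
    show (if (Equiv.swap a c * U.φ) d = a then 0 else if (Equiv.swap a c * U.φ) d = c then
      U.A a + U.A c - 2 else U.A ((Equiv.swap a c * U.φ) d)) % 2 = 1 ↔
      U.dir ((Equiv.swap a c * U.φ) d) = U.dir d
    rw [Equiv.Perm.mul_apply]
    have h0 := hP.A_odd d hd
    have hc := hP.A_odd b hbS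
    rw [H.bc] at hc
    by_cases h1 : U.φ d = a
    · rw [h1, Equiv.swap_apply_left]
      rw [h1] at h0
      rw [if_neg H.nac.symm, if_pos rfl]
      have h2 := H.two
      have h3 : (U.A a + U.A c - 2) % 2 = (U.A a + U.A c) % 2 := by omega
      rw [h3]
      have e1 := Nat.mod_two_eq_zero_or_one (U.A a)
      have e2 := Nat.mod_two_eq_zero_or_one (U.A c)
      have h4 : (U.A a + U.A c) % 2 = 1 ↔ ¬ (U.A a % 2 = 1 ↔ U.A c % 2 = 1) := by omega
      rw [h4, h0, hc, hdirb]
      cases U.dir a <;> cases U.dir c <;> cases U.dir d <;> simp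
    · by_cases h2 : U.φ d = c
      · rw [h2, Equiv.swap_apply_right, if_pos rfl]
        have hdb : d = b := U.φ.injective (h2.trans H.bc.symm)
        rw [hdb, hdirb]
        cases U.dir a <;> simp
      · rw [Equiv.swap_apply_of_ne_of_ne h1 h2, if_neg h1, if_neg h2]
        exact h0
  · -- vsum
    intro d hd
    have hfil : ∀ v, v ∈ U.S → ∑ x ∈ U.S.filter (fun x => U.vt x = U.vt v), U.A x = 2 :=
      fun v hv => hP.vsum v hv
    by_cases h1 : (merge U a c).vt d = U.vt a
    · have hset : (merge U a c).S.filter (fun x => (merge U a c).vt x = (merge U a c).vt d) =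
          U.S.filter (fun x => U.vt x = U.vt a) ∪ U.S.filter (fun x => U.vt x = U.vt c) := by
        ext x
        rw [h1]
        simp only [Finset.mem_filter, Finset.mem_union, merge_vt_eq H.vt_ne]
        show (x ∈ U.S ∧ _) ↔ _
        tauto
      rw [hset, Finset.sum_union]
      · have ha := hfil a haS
        have hc := hfil c hcS
        have haf : a ∈ U.S.filter (fun x => U.vt x = U.vt a) := by simp [haS]
        have hcf : c ∈ U.S.filter (fun x => U.vt x = U.vt c) := by simp [hcS]
        rw [← Finset.add_sum_erase _ _ haf] at ha ⊢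
        rw [← Finset.add_sum_erase _ _ hcf] at hc ⊢
        have e1 : ∑ x ∈ (U.S.filter (fun x => U.vt x = U.vt a)).erase a, (merge U a c).A x =
            ∑ x ∈ (U.S.filter (fun x => U.vt x = U.vt a)).erase a, U.A x := by
          apply Finset.sum_congr rfl
          intro x hx
          simp only [Finset.mem_erase, Finset.mem_filter] at hx
          show (if x = a then 0 else if x = c then _ else U.A x) = U.A x
          rw [if_neg hx.1, if_neg]
          rintro rfl
          exact H.vt_ne hx.2.2.symm
        have e2 : ∑ x ∈ (U.S.filter (fun x => U.vt x = U.vt c)).erase c, (merge U a c).A x =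
            ∑ x ∈ (U.S.filter (fun x => U.vt x = U.vt c)).erase c, U.A x := by
          apply Finset.sum_congr rfl
          intro x hx
          simp only [Finset.mem_erase, Finset.mem_filter] at hx
          show (if x = a then 0 else if x = c then _ else U.A x) = U.A x
          rw [if_neg, if_neg hx.1]
          rintro rfl
          exact H.vt_ne hx.2.2
        have e3 : (merge U a c).A a = 0 := by
          show (if a = a then 0 else _) = 0
          simp
        have e4 : (merge U a c).A c = U.A a + U.A c - 2 := by
          show (if c = a then 0 else if c = c then _ else _) = _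
          rw [if_neg H.nac.symm, if_pos rfl]
        rw [e1, e2, e3, e4]
        have := H.two
        omega
      · rw [Finset.disjoint_filter]
        intro x _ hx hx'
        exact H.vt_ne (hx.symm.trans hx')
    · have h1' := h1
      rw [merge_vt_eq H.vt_ne, not_or] at h1
      have hset : (merge U a c).S.filter (fun x => (merge U a c).vt x = (merge U a c).vt d) =
          U.S.filter (fun x => U.vt x = U.vt d) := by
        ext x
        simp only [Finset.mem_filter, merge_vt_eq' H.vt_ne x d h1.1 h1.2]
        rfl
      rw [hset, ← hP.vsum d hd]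
      apply Finset.sum_congr rfl
      intro x hx
      simp only [Finset.mem_filter] at hx
      show (if x = a then 0 else if x = c then _ else U.A x) = U.A x
      rw [if_neg, if_neg]
      · rintro rfl
        exact h1.2 hx.2.symm
      · rintro rfl
        exact h1.1 hx.2.symm
  · -- orb
    intro C hC hcl x hx y hy hxy
    have hcl' : ∀ z ∈ C, U.sg (Equiv.swap a c z) ∈ C := by
      intro z hz
      rw [← merge_sg]
      exact hcl z hz
    have hiff : a ∈ C ↔ c ∈ C := by
      constructor
      · intro ha
        by_contra hc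
        have h1 := hP.orb (C.filter (fun z => U.vt z = U.vt c))
          ((Finset.filter_subset _ _).trans hC) ?_ (U.sg c) ?_ c hcS ?_
        · simp only [Finset.mem_filter] at h1
          exact hc h1.1
        · intro z hz
          simp only [Finset.mem_filter] at hz ⊢
          have hza : z ≠ a := by rintro rfl; exact H.vt_ne hz.2
          have hzc : z ≠ c := by rintro rfl; exact hc hz.1
          have := hcl' z hz.1
          rw [Equiv.swap_apply_of_ne_of_ne hza hzc] at this
          exact ⟨this, by rw [vt_sg hP (hC hz.1)]; exact hz.2⟩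
        · simp only [Finset.mem_filter]
          have := hcl' a ha
          rw [Equiv.swap_apply_left] at this
          exact ⟨this, vt_sg hP hcS⟩
        · rw [vt_sg hP hcS]
      · intro hc
        by_contra ha
        have h1 := hP.orb (C.filter (fun z => U.vt z = U.vt a))
          ((Finset.filter_subset _ _).trans hC) ?_ (U.sg a) ?_ a haS ?_
        · simp only [Finset.mem_filter] at h1
          exact ha h1.1
        · intro z hz
          simp only [Finset.mem_filter] at hz ⊢
          have hza : z ≠ a := by rintro rfl; exact ha hz.1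
          have hzc : z ≠ c := by rintro rfl; exact H.vt_ne hz.2.symm
          have := hcl' z hz.1
          rw [Equiv.swap_apply_of_ne_of_ne hza hzc] at this
          exact ⟨this, by rw [vt_sg hP (hC hz.1)]; exact hz.2⟩
        · simp only [Finset.mem_filter]
          have := hcl' c hc
          rw [Equiv.swap_apply_right] at this
          exact ⟨this, vt_sg hP haS⟩
        · rw [vt_sg hP haS]
    have hclU : ∀ z ∈ C, U.sg z ∈ C := by
      intro z hz
      by_cases hza : z = a
      · rw [hza]
        have := hcl' c (hiff.1 (hza ▸ hz))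
        rwa [Equiv.swap_apply_right] at this
      · by_cases hzc : z = c
        · rw [hzc]
          have := hcl' a (hiff.2 (hzc ▸ hz))
          rwa [Equiv.swap_apply_left] at this
        · have := hcl' z hz
          rwa [Equiv.swap_apply_of_ne_of_ne hza hzc] at this
    have horb := hP.orb C hC hclU
    by_cases h1 : (merge U a c).vt x = U.vt a
    · have h2 := hxy.trans h1
      rw [merge_vt_eq H.vt_ne] at h1 h2
      have hac : a ∈ C ∧ c ∈ C := by
        rcases h1 with h | h
        · have := horb x hx a haS h.symm
          exact ⟨this, hiff.1 this⟩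
        · have := horb x hx c hcS h.symm
          exact ⟨hiff.2 this, this⟩
      rcases h2 with h | h
      · exact horb a hac.1 y hy h
      · exact horb c hac.2 y hy h
    · rw [merge_vt_eq H.vt_ne, not_or] at h1
      rw [merge_vt_eq' H.vt_ne y x h1.1 h1.2] at hxy
      exact horb x hx y hy hxy
  · -- conn
    intro C hC hne hφ hα
    have hφ' : ∀ z ∈ C, Equiv.swap a c (U.φ z) ∈ C := hφ
    have hsg : ∀ z ∈ C, (merge U a c).sg z ∈ C := by
      intro z hz
      unfold sg
      exact hα _ (symm_mem_of_mapsTo C (merge U a c).φ hφ z hz)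
    have hsg' : ∀ z ∈ C, U.sg (Equiv.swap a c z) ∈ C := by
      intro z hz
      rw [← merge_sg]
      exact hsg z hz
    have hiff : a ∈ C ↔ c ∈ C := by
      constructor
      · intro ha
        by_contra hc
        have h1 := hP.orb (C.filter (fun z => U.vt z = U.vt c))
          ((Finset.filter_subset _ _).trans hC) ?_ (U.sg c) ?_ c hcS ?_
        · simp only [Finset.mem_filter] at h1
          exact hc h1.1
        · intro z hz
          simp only [Finset.mem_filter] at hz ⊢
          have hza : z ≠ a := by rintro rfl; exact H.vt_ne hz.2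
          have hzc : z ≠ c := by rintro rfl; exact hc hz.1
          have := hsg' z hz.1
          rw [Equiv.swap_apply_of_ne_of_ne hza hzc] at this
          exact ⟨this, by rw [vt_sg hP (hC hz.1)]; exact hz.2⟩
        · simp only [Finset.mem_filter]
          have := hsg' a ha
          rw [Equiv.swap_apply_left] at this
          exact ⟨this, vt_sg hP hcS⟩
        · rw [vt_sg hP hcS]
      · intro hc
        by_contra ha
        have h1 := hP.orb (C.filter (fun z => U.vt z = U.vt a))
          ((Finset.filter_subset _ _).trans hC) ?_ (U.sg a) ?_ a haS ?_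
        · simp only [Finset.mem_filter] at h1
          exact ha h1.1
        · intro z hz
          simp only [Finset.mem_filter] at hz ⊢
          have hza : z ≠ a := by rintro rfl; exact ha hz.1
          have hzc : z ≠ c := by rintro rfl; exact H.vt_ne hz.2.symm
          have := hsg' z hz.1
          rw [Equiv.swap_apply_of_ne_of_ne hza hzc] at this
          exact ⟨this, by rw [vt_sg hP (hC hz.1)]; exact hz.2⟩
        · simp only [Finset.mem_filter]
          have := hsg' c hc
          rw [Equiv.swap_apply_right] at this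
          exact ⟨this, vt_sg hP haS⟩
        · rw [vt_sg hP haS]
    apply hP.conn C hC hne _ hα
    intro z hz
    have h2 := hφ' z hz
    by_cases h1 : U.φ z = a
    · rw [h1] at h2 ⊢
      rw [Equiv.swap_apply_left] at h2
      exact hiff.2 h2
    · by_cases h3 : U.φ z = c
      · rw [h3] at h2 ⊢
        rw [Equiv.swap_apply_right] at h2
        exact hiff.1 h2
      · rwa [Equiv.swap_apply_of_ne_of_ne h1 h3] at h2

end pre

end UM

end Pool.Agent.FlatFold
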