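import Mathlib
import Pool.Agent.Lib.MP_b92007_lc.Merge

/-! Unzipping a folded state. -/

set_option linter.unusedSectionVars false
set_option linter.unusedVariables false

namespace Pool.Agent.FlatFold

namespace UM

variable {D : Type} [DecidableEq D] {U : UM D} {a b c : D}

theorem merge_key (h : D → ℤ) (x : D) : (merge U a c).key h x = U.key h x := rfl

theorem merge_PP (h : D → ℤ) (x y : D) : (merge U a c).PP h x y = U.PP h x y := rfl

theorem merge_corner_a {h : D → ℤ} (hP : U.Pre) (H : MH U a b c)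
    (hF : (merge U a c).Folded h) : U.PP h a (U.sg c) = 0 := by
  have h1 := PP_sg (merge_pre hP H) hF (x := a) H.a_S
  rw [merge_PP, merge_sg_a] at h1
  rw [h1]
  show (((if a = a then 0 else _ : ℕ)) : ℤ) = 0
  simp

theorem merge_corner_c {h : D → ℤ} (hP : U.Pre) (H : MH U a b c)
    (hF : (merge U a c).Folded h) : U.PP h c (U.sg a) = U.A a + U.A c - 2 := by
  have hcS : c ∈ U.S := H.c_S hP
  have h1 := PP_sg (merge_pre hP H) hF (x := c) hcS
  rw [merge_PP, merge_sg_c] at h1
  rw [h1]
  show (((if c = a then 0 else if c = c then U.A a + U.A c - 2 else _ : ℕ)) : ℤ) = _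
  rw [if_neg H.nac.symm, if_pos rfl]
  have := H.two
  push_cast [Nat.cast_sub this]
  ring

theorem merge_corner_other {h : D → ℤ} (hP : U.Pre) (H : MH U a b c)
    (hF : (merge U a c).Folded h) {x : D} (hx : x ∈ U.S) (hxa : x ≠ a) (hxc : x ≠ c) :
    U.PP h x (U.sg x) = U.A x := by
  have h1 := PP_sg (merge_pre hP H) hF (x := x) hx
  rw [merge_PP, merge_sg_of_ne a c x hxa hxc] at h1
  rw [h1]
  show (((if x = a then 0 else if x = c then _ else U.A x : ℕ)) : ℤ) = _
  rw [if_neg hxa, if_neg hxc]

theorem cls_closed (hP : U.Pre) (v : ℕ) : ∀ x ∈ U.cls v, U.sg x ∈ U.cls v :=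
  fun _ hx => sg_cls hP hx

/-- the class sum for a class with one corner possibly wrong -/
theorem cls_sum {h : D → ℤ} (hP : U.Pre) {x : D} (hx : x ∈ U.S)
    (ho : ∀ y ∈ U.S, U.vt y = U.vt x → y ≠ x → U.PP h y (U.sg y) = U.A y) :
    U.PP h x (U.sg x) + 2 - U.A x = 2 * (U.wraps h (U.cls (U.vt x)) : ℤ) := by
  have hxc : x ∈ U.cls (U.vt x) := mem_cls.2 ⟨hx, rfl⟩
  have h1 := sum_PP hP h (U.cls (U.vt x)) (Finset.filter_subset _ _) (cls_closed hP _)
  have h2 : ∑ y ∈ U.cls (U.vt x), U.A y = 2 := hP.vsum x hx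
  rw [← Finset.add_sum_erase _ _ hxc] at h1 h2
  have h3 : ∑ y ∈ (U.cls (U.vt x)).erase x, U.PP h y (U.sg y) =
      ((∑ y ∈ (U.cls (U.vt x)).erase x, U.A y : ℕ) : ℤ) := by
    push_cast
    apply Finset.sum_congr rfl
    intro y hy
    rw [Finset.mem_erase, mem_cls] at hy
    exact ho y hy.2.1 hy.2.2 hy.1
  rw [h3] at h1
  rw [← h1]
  have : ((U.A x + ∑ y ∈ (U.cls (U.vt x)).erase x, U.A y : ℕ) : ℤ) = 2 := by exact_mod_cast h2
  push_cast at this
  push_cast
  linarith

theorem wraps_eq_add_erase (h : D → ℤ) (C : Finset D) {x : D} (hx : x ∈ C) :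
    (U.wraps h C : ℤ) = (if U.key h (U.sg x) ≤ U.key h x then 1 else 0) +
      ((C.erase x).filter (fun x => U.key h (U.sg x) ≤ U.key h x)).card := by
  have hins : C = insert x (C.erase x) := (Finset.insert_erase hx).symm
  unfold wraps
  conv_lhs => rw [hins, Finset.filter_insert]
  split_ifs with h1
  · rw [Finset.card_insert_of_notMem (by simp)]
    push_cast; ring
  · simp

theorem cls_merge (hP : U.Pre) (H : MH U a b c) :
    (merge U a c).cls (U.vt a) = U.cls (U.vt a) ∪ U.cls (U.vt c) := by
  ext x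
  rw [mem_cls, Finset.mem_union, mem_cls, mem_cls, merge_vt_eq H.vt_ne]
  show (x ∈ U.S ∧ _) ↔ _
  tauto

theorem wraps_merge_le {h : D → ℤ} (hP : U.Pre) (H : MH U a b c)
    (hF : (merge U a c).Folded h) :
    U.wraps h (U.cls (U.vt a)) + U.wraps h (U.cls (U.vt c)) ≤ 2 := by
  have haS := H.a_S
  have hcS := H.c_S hP
  -- wraps of the merged class is 1
  have hw := wraps_cls (merge_pre hP H) hF (x := a) H.a_S
  rw [(merge_vt_eq H.vt_ne a).2 (Or.inl rfl), cls_merge hP H] at hw
  have hdisj : Disjoint (U.cls (U.vt a)) (U.cls (U.vt c)) := by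
    rw [Finset.disjoint_left]
    intro x hx hx'
    rw [mem_cls] at hx hx'
    exact H.vt_ne (hx.2.symm.trans hx'.2)
  have hsplit : (merge U a c).wraps h (U.cls (U.vt a) ∪ U.cls (U.vt c)) =
      (merge U a c).wraps h (U.cls (U.vt a)) + (merge U a c).wraps h (U.cls (U.vt c)) := by
    unfold wraps
    rw [Finset.filter_union, Finset.card_union_of_disjoint]
    exact Finset.disjoint_filter_filter hdisj
  have ha : a ∈ U.cls (U.vt a) := mem_cls.2 ⟨haS, rfl⟩
  have hc : c ∈ U.cls (U.vt c) := mem_cls.2 ⟨hcS, rfl⟩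
  have e1 := wraps_eq_add_erase (U := U) h _ ha
  have e2 := wraps_eq_add_erase (U := U) h _ hc
  have e3 := wraps_eq_add_erase (U := merge U a c) h _ ha
  have e4 := wraps_eq_add_erase (U := merge U a c) h _ hc
  have f1 : ((U.cls (U.vt a)).erase a).filter
        (fun x => (merge U a c).key h ((merge U a c).sg x) ≤ (merge U a c).key h x) =
      ((U.cls (U.vt a)).erase a).filter (fun x => U.key h (U.sg x) ≤ U.key h x) := by
    apply Finset.filter_congr
    intro x hx
    rw [Finset.mem_erase, mem_cls] at hx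
    rw [merge_sg_of_ne a c x hx.1 (by rintro rfl; exact H.vt_ne hx.2.2.symm)]
    rfl
  have f2 : ((U.cls (U.vt c)).erase c).filter
        (fun x => (merge U a c).key h ((merge U a c).sg x) ≤ (merge U a c).key h x) =
      ((U.cls (U.vt c)).erase c).filter (fun x => U.key h (U.sg x) ≤ U.key h x) := by
    apply Finset.filter_congr
    intro x hx
    rw [Finset.mem_erase, mem_cls] at hx
    rw [merge_sg_of_ne a c x (by rintro rfl; exact H.vt_ne hx.2.2) hx.1]
    rfl
  rw [f1, merge_sg_a] at e3
  rw [f2, merge_sg_c] at e4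
  rw [hsplit] at hw
  have hca := merge_corner_a hP H hF
  have hna : ¬ U.key h (U.sg c) ≤ U.key h a := by
    intro hcon
    unfold PP at hca
    rw [if_pos hcon] at hca
    unfold tt at hca
    split_ifs at hca <;> omega
  have hna' : ¬ (merge U a c).key h (U.sg c) ≤ (merge U a c).key h a := hna
  rw [if_neg hna'] at e3
  have hk : (merge U a c).key h (U.sg a) ≤ (merge U a c).key h c ↔
    U.key h (U.sg a) ≤ U.key h c := Iff.rfl
  rw [if_congr hk rfl rfl] at e4
  -- not both wrap unless the new one wraps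
  have hmain : ((if U.key h (U.sg a) ≤ U.key h a then 1 else 0 : ℤ) +
      (if U.key h (U.sg c) ≤ U.key h c then 1 else 0)) ≤
      1 + (if U.key h (U.sg a) ≤ U.key h c then 1 else 0) := by
    by_cases g1 : U.key h (U.sg a) ≤ U.key h a
    · by_cases g2 : U.key h (U.sg c) ≤ U.key h c
      · have : U.key h (U.sg a) ≤ U.key h c :=
          g1.trans ((not_le.1 hna).le.trans g2)
        rw [if_pos g1, if_pos g2, if_pos this]
      · rw [if_pos g1, if_neg g2]
        split_ifs <;> norm_num
    · rw [if_neg g1]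
      split_ifs <;> norm_num
  omega

theorem folded_of_merge {h : D → ℤ} (hP : U.Pre) (H : MH U a b c)
    (hF : (merge U a c).Folded h) : U.Folded h := by
  have haS := H.a_S
  have hcS := H.c_S hP
  have hwle := wraps_merge_le hP H hF
  have hwa := one_le_wraps (U := U) h (U.cls (U.vt a)) (cls_closed hP _)
    ⟨a, mem_cls.2 ⟨haS, rfl⟩⟩
  have hwc := one_le_wraps (U := U) h (U.cls (U.vt c)) (cls_closed hP _)
    ⟨c, mem_cls.2 ⟨hcS, rfl⟩⟩
  have hsa := cls_sum (h := h) hP haS (by
    intro y hy hyv hya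
    exact merge_corner_other hP H hF hy hya (by rintro rfl; exact H.vt_ne hyv.symm))
  have hsc := cls_sum (h := h) hP hcS (by
    intro y hy hyv hyc
    exact merge_corner_other hP H hF hy (by rintro rfl; exact H.vt_ne hyv) hyc)
  have hall : ∀ x ∈ U.S, U.PP h x (U.sg x) = U.A x := by
    intro x hx
    by_cases hxa : x = a
    · subst hxa; omega
    · by_cases hxc : x = c
      · subst hxc; omega
      · exact merge_corner_other hP H hF hx hxa hxc
  refine ⟨hF.edge, hF.inj, ?_, ?_⟩
  · intro d hd
    have := hall (U.φ d) (hP.φ_S d hd)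
    simpa [sg] using this
  · -- noncrossing
    -- cyclic successor in the merged class
    have hCl := cls_closed (merge_pre hP H) (U.vt a)
    have hone : ∀ x ∈ (merge U a c).cls (U.vt a), ∀ y ∈ (merge U a c).cls (U.vt a),
        U.key h ((merge U a c).sg x) ≤ U.key h x → U.key h ((merge U a c).sg y) ≤ U.key h y →
        x = y := by
      have hw := wraps_cls (merge_pre hP H) hF (x := a) H.a_S
      rw [(merge_vt_eq H.vt_ne a).2 (Or.inl rfl)] at hw
      unfold wraps at hw
      rw [Finset.card_eq_one] at hw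
      obtain ⟨z, hz⟩ := hw
      intro x hx y hy h1 h2
      have hx' : x ∈ ({z} : Finset D) := by
        rw [← hz, Finset.mem_filter]; exact ⟨hx, h1⟩
      have hy' : y ∈ ({z} : Finset D) := by
        rw [← hz, Finset.mem_filter]; exact ⟨hy, h2⟩
      rw [Finset.mem_singleton] at hx' hy'
      rw [hx', hy']
    have hinj : ∀ x ∈ (merge U a c).cls (U.vt a), ∀ y ∈ (merge U a c).cls (U.vt a),
        (merge U a c).sg x = (merge U a c).sg y → x = y :=
      fun x _ y _ hxy => sg_inj _ hxy
    -- general statement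
    have hgen : ∀ (e e' : D), e ∈ U.S → e' ∈ U.S → ({e, e'} : Finset D) = {a, c} →
        ∀ x1 ∈ U.S, ∀ y1 ∈ U.S, ∀ x2 ∈ U.S, ∀ y2 ∈ U.S,
        U.key h x1 < U.key h y1 → U.key h y1 < U.key h x2 → U.key h x2 < U.key h y2 →
        U.vt x1 = U.vt e → U.vt x2 = U.vt e → U.vt y1 = U.vt e' → U.vt y2 = U.vt e' → False := by
      intro e e' he he' hee x1 hx1 y1 hy1 x2 hx2 y2 hy2 k1 k2 k3 v1 v2 w1 w2
      have hee' : (e = a ∧ e' = c) ∨ (e = c ∧ e' = a) := by
        have h1 : e = a ∨ e = c := by
          have : e ∈ ({a, c} : Finset D) := by rw [← hee]; simp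
          simpa using this
        have h2 : e' = a ∨ e' = c := by
          have : e' ∈ ({a, c} : Finset D) := by rw [← hee]; simp
          simpa using this
        have h3 : a = e ∨ a = e' := by
          have : a ∈ ({e, e'} : Finset D) := by rw [hee]; simp
          simpa using this
        have h4 : c = e ∨ c = e' := by
          have : c ∈ ({e, e'} : Finset D) := by rw [hee]; simp
          simpa using this
        have := H.nac
        rcases h1 with h1 | h1 <;> rcases h2 with h2 | h2
        · exfalso; rcases h4 with h4 | h4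
          · exact this (h1.symm.trans h4.symm)
          · exact this (h2.symm.trans h4.symm)
        · exact Or.inl ⟨h1, h2⟩
        · exact Or.inr ⟨h1, h2⟩
        · exfalso; rcases h3 with h3 | h3
          · exact this (h3.trans h1)
          · exact this (h3.trans h2)
      have hmemK : ∀ z, z ∈ (merge U a c).cls (U.vt a) ↔
          z ∈ U.S ∧ (U.vt z = U.vt e ∨ U.vt z = U.vt e') := by
        intro z
        rw [mem_cls, merge_vt_eq H.vt_ne]
        show (z ∈ U.S ∧ _) ↔ _
        rcases hee' with ⟨h1, h2⟩ | ⟨h1, h2⟩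
        · rw [h1, h2]
        · rw [h1, h2, or_comm (a := U.vt z = U.vt a)]
      have hne : U.vt e ≠ U.vt e' := by
        rcases hee' with ⟨h1, h2⟩ | ⟨h1, h2⟩
        · rw [h1, h2]; exact H.vt_ne
        · rw [h1, h2]; exact H.vt_ne.symm
      -- the image of x in class e, x ≠ e, is in class e
      have hstay : ∀ x ∈ U.S, U.vt x = U.vt e → x ≠ e → U.vt ((merge U a c).sg x) = U.vt e := by
        intro x hx hxe hne'
        have hx1 : x ≠ a ∧ x ≠ c := by
          rcases hee' with ⟨h1, h2⟩ | ⟨h1, h2⟩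
          · rw [h1] at hne'
            refine ⟨hne', ?_⟩
            rintro rfl
            rw [h1] at hxe
            exact H.vt_ne hxe.symm
          · rw [h1] at hne'
            refine ⟨?_, hne'⟩
            rintro rfl
            rw [h1] at hxe
            exact H.vt_ne hxe
        rw [merge_sg_of_ne a c x hx1.1 hx1.2, vt_sg hP hx, hxe]
      -- the largest element of class e below a given y must be e
      have hlast : ∀ y ∈ U.S, U.vt y = U.vt e' → ∀ x ∈ U.S, U.vt x = U.vt e →
          U.key h x < U.key h y → U.key h e < U.key h y ∧ U.key h x ≤ U.key h e := by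
        intro y hy hye x hx hxe hxy
        let T := (U.cls (U.vt e)).filter (fun z => U.key h z < U.key h y)
        have hT : T.Nonempty := ⟨x, by simp [T, mem_cls, hx, hxe, hxy]⟩
        obtain ⟨m, hm, hmax⟩ := Finset.exists_max_image T (U.key h) hT
        have hm' : (m ∈ U.S ∧ U.vt m = U.vt e) ∧ U.key h m < U.key h y := by
          simpa [T, mem_cls] using hm
        have hmK : m ∈ (merge U a c).cls (U.vt a) := (hmemK m).2 ⟨hm'.1.1, Or.inl hm'.1.2⟩
        have hyK : y ∈ (merge U a c).cls (U.vt a) := (hmemK y).2 ⟨hy, Or.inr hye⟩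
        have hme : m = e := by
          by_contra hme
          have hvs := hstay m hm'.1.1 hm'.1.2 hme
          have hsS : (merge U a c).sg m ∈ U.S := ((hmemK _).1 (hCl m hmK)).1
          -- does not wrap
          have hnw : ¬ U.key h ((merge U a c).sg m) ≤ U.key h m := by
            intro hw
            have := wrap_max _ (merge U a c).sg (U.key h) hCl hinj hone m y hmK hyK hw
            exact absurd hm'.2 (not_lt.2 this)
          rw [not_le] at hnw
          -- s(m) > m , s(m) < y impossible by maximality; s(m) = y impossible by class; s(m) > y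
          rcases lt_trichotomy (U.key h ((merge U a c).sg m)) (U.key h y) with hlt | heq | hgt
          · have : (merge U a c).sg m ∈ T := by simp [T, mem_cls, hsS, hvs, hlt]
            exact absurd hnw (not_lt.2 (hmax _ this))
          · have hl : U.lev ((merge U a c).sg m) = U.lev y := by
              have := (merge_pre hP H).lev_vt ((merge U a c).sg m) (hsS : _ ∈ U.S) y (hy : _ ∈ U.S)
                (by rw [((mem_cls.1 (hCl m hmK)).2), (mem_cls.1 hyK).2])
              exact this
            have h5 : (merge U a c).sg m = y :=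
              key_inj hF (U := merge U a c) (hsS : _ ∈ U.S) (hy : _ ∈ U.S) hl heq
            rw [h5] at hvs
            exact hne (hvs.symm.trans hye)
          · exact succ_immediate _ (merge U a c).sg (U.key h) hCl hinj hone m y hmK hyK hm'.2 hgt
        rw [← hme]
        refine ⟨hm'.2, hmax x ?_⟩
        simp [T, mem_cls, hx, hxe, hxy]
      have g1 := hlast y1 hy1 w1 x1 hx1 v1 k1
      have g2 := hlast y2 hy2 w2 x2 hx2 v2 k3
      exact absurd (lt_of_lt_of_le k2 g2.2) (not_lt.2 g1.1.le)
    intro x1 hx1 y1 hy1 x2 hx2 y2 hy2 hl k1 k2 k3 v1 v2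
    have h0 := hF.nc x1 hx1 y1 hy1 x2 hx2 y2 hy2 hl k1 k2 k3 (merge_vt_of x1 x2 v1)
      (merge_vt_of y1 y2 v2)
    by_contra hne
    by_cases h1 : (merge U a c).vt x1 = U.vt a
    · have h2 : (merge U a c).vt y1 = U.vt a := h0 ▸ h1
      rw [merge_vt_eq H.vt_ne] at h1 h2
      rcases h1 with h1 | h1 <;> rcases h2 with h2 | h2
      · exact hne (h1.trans h2.symm)
      · exact hgen a c haS hcS rfl x1 hx1 y1 hy1 x2 hx2 y2 hy2 k1 k2 k3 h1 (v1 ▸ h1) h2
          (v2 ▸ h2)
      · exact hgen c a hcS haS (Finset.pair_comm _ _) x1 hx1 y1 hy1 x2 hx2 y2 hy2 k1 k2 k3 h1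
          (v1 ▸ h1) h2 (v2 ▸ h2)
      · exact hne (h1.trans h2.symm)
    · have h1' := h1
      rw [merge_vt_eq H.vt_ne, not_or] at h1
      rw [eq_comm, merge_vt_eq' H.vt_ne y1 x1 h1.1 h1.2] at h0
      exact hne h0.symm

end UM

end Pool.Agent.FlatFold
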