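import Mathlib
import Pool.Agent.Lib.MP_b92007_lc.Unmerge
import Pool.Agent.Lib.MP_b92007_lc.Del
import Pool.Agent.Lib.MP_b92007_lc.Euler2

/-! Faces of a combinatorial map as lists. -/

set_option linter.unusedSectionVars false
set_option linter.unusedVariables false

namespace Pool.Agent.FlatFold

namespace UM

variable {D : Type} [DecidableEq D] {U : UM D}

/-- `F` is the list of all faces -/
structure Faces (U : UM D) (F : List (List D)) : Prop where
  nodup : F.flatten.Nodup
  mem : ∀ x, x ∈ U.S ↔ x ∈ F.flatten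
  cyc : ∀ l ∈ F, l.map U.φ = l.rotate 1

theorem Faces.perm {F F' : List (List D)} (h : U.Faces F) (hp : F.Perm F') : U.Faces F' := by
  refine ⟨?_, ?_, ?_⟩
  · exact (hp.flatten.nodup_iff).1 h.nodup
  · intro x; rw [h.mem x]; exact hp.flatten.mem_iff
  · intro l hl; exact h.cyc l (hp.mem_iff.2 hl)

theorem Faces.rot {l l' : List D} {G : List (List D)} (h : U.Faces (l :: G)) (hr : l ~r l') :
    U.Faces (l' :: G) := by
  refine ⟨?_, ?_, ?_⟩
  · have := h.nodup
    rw [List.flatten_cons, List.nodup_append] at this ⊢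
    refine ⟨hr.nodup_iff.1 this.1, this.2.1, ?_⟩
    intro a ha b hb
    exact this.2.2 a (hr.mem_iff.2 ha) b hb
  · intro x
    rw [h.mem x, List.flatten_cons, List.flatten_cons, List.mem_append, List.mem_append,
      hr.mem_iff]
  · intro l'' hl''
    rw [List.mem_cons] at hl''
    rcases hl'' with rfl | hl''
    · obtain ⟨n, rfl⟩ := hr
      rw [List.map_rotate, h.cyc l (List.mem_cons_self), List.rotate_rotate, List.rotate_rotate,
        Nat.add_comm]
    · exact h.cyc l'' (List.mem_cons_of_mem _ hl'')

theorem Faces.closed {F : List (List D)} (h : U.Faces F) {l : List D} (hl : l ∈ F) {x : D}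
    (hx : x ∈ l) : U.φ x ∈ l := by
  have h1 : U.φ x ∈ l.map U.φ := List.mem_map_of_mem hx
  rw [h.cyc l hl] at h1
  exact List.mem_rotate.1 h1

/-- the darts of a face list are in the same cycle -/
theorem Faces.sameCycle {F : List (List D)} (h : U.Faces F) {l : List D} (hl : l ∈ F) {x y : D}
    (hx : x ∈ l) (hy : y ∈ l) : U.φ.SameCycle x y := by
  have hc := h.cyc l hl
  -- all are in the same cycle as the head
  have hstep : ∀ i (hi : i < l.length), U.φ (l[i]) = l[(i + 1) % l.length]'(Nat.mod_lt _ (by omega)) := by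
    intro i hi
    have h1 : (l.map U.φ)[i]? = (l.rotate 1)[i]? := by rw [hc]
    rw [List.getElem?_map, List.getElem?_eq_getElem hi,
      List.getElem?_eq_getElem (by rwa [List.length_rotate]), List.getElem_rotate] at h1
    simpa using h1
  have hhead : ∀ i (hi : i < l.length), U.φ.SameCycle (l[0]'(by omega)) l[i] := by
    intro i
    induction i with
    | zero => intro hi; exact Equiv.Perm.SameCycle.refl _ _
    | succ i ih =>
      intro hi
      have h1 := ih (by omega)
      have h2 := hstep i (by omega)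
      have h3 : l[(i + 1) % l.length]'(Nat.mod_lt _ (by omega)) = l[i + 1] := by
        congr 1
        exact Nat.mod_eq_of_lt hi
      rw [h3] at h2
      rw [← h2]
      exact Equiv.Perm.sameCycle_apply_right.2 h1
  obtain ⟨i, hi, rfl⟩ := List.getElem_of_mem hx
  obtain ⟨j, hj, rfl⟩ := List.getElem_of_mem hy
  exact (hhead i hi).symm.trans (hhead j hj)

theorem Faces.sameCycle_iff {F : List (List D)} (h : U.Faces F) {l : List D} (hl : l ∈ F) {x y : D}
    (hx : x ∈ l) : U.φ.SameCycle x y ↔ y ∈ l := by
  constructor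
  · intro hxy
    have hcl : ∀ z ∈ l.toFinset, U.φ z ∈ l.toFinset := by
      intro z hz
      rw [List.mem_toFinset] at hz ⊢
      exact h.closed hl hz
    have hiff := perm_mem_iff l.toFinset U.φ hcl
    obtain ⟨i, rfl⟩ := hxy
    have hz : ∀ n : ℕ, ∀ z ∈ l.toFinset, (U.φ ^ n) z ∈ l.toFinset ∧ (U.φ⁻¹ ^ n) z ∈ l.toFinset := by
      intro n
      induction n with
      | zero => intro z hz; exact ⟨hz, hz⟩
      | succ n ih =>
        intro z hz
        constructor
        · rw [pow_succ', Equiv.Perm.mul_apply]
          exact hcl _ (ih z hz).1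
        · rw [pow_succ', Equiv.Perm.mul_apply, ← hiff]
          simpa using (ih z hz).2
    rw [← List.mem_toFinset]
    cases i with
    | ofNat n => simpa using (hz n x (List.mem_toFinset.2 hx)).1
    | negSucc n =>
      rw [zpow_negSucc, ← inv_pow]
      exact (hz (n + 1) x (List.mem_toFinset.2 hx)).2
  · intro hy
    exact h.sameCycle hl hx hy

section

variable {a b c : D} {r : List D} {G : List (List D)}

theorem Faces.abc (h : U.Faces ((a :: b :: c :: r) :: G)) : U.φ a = b ∧ U.φ b = c ∧
    (c :: r).map U.φ = r ++ [a] := by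
  have := h.cyc _ List.mem_cons_self
  simp only [List.map_cons, List.rotate_cons_succ, List.rotate_zero, List.cons_append,
    List.cons.injEq] at this
  exact ⟨this.1, this.2.1, this.2.2⟩

theorem faces_merge (h : U.Faces ((a :: b :: c :: r) :: G)) :
    (merge U a c).Faces ((c :: r) :: [a, b] :: G) := by
  obtain ⟨hab, hbc, hcr⟩ := h.abc
  have hnd := h.nodup
  have hperm : ((a :: b :: c :: r) :: G).flatten.Perm ((c :: r) :: [a, b] :: G).flatten := by
    simp only [List.flatten_cons]
    have : (a :: b :: c :: r ++ G.flatten) = [a, b] ++ (c :: r) ++ G.flatten := rfl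
    rw [this, ← List.append_assoc]
    exact List.Perm.append_right _ List.perm_append_comm
  have hnd2 := hnd
  simp only [List.flatten_cons, List.nodup_append, List.nodup_cons, List.mem_cons, not_or] at hnd2
  obtain ⟨⟨⟨nab, nac, har⟩, ⟨nbc, hbr⟩, hcr', hrnd⟩, hG, hdisj⟩ := hnd2
  refine ⟨hperm.nodup_iff.1 hnd, ?_, ?_⟩
  · intro x
    show x ∈ U.S ↔ _
    rw [h.mem x]
    exact hperm.mem_iff
  · intro l hl
    rw [List.mem_cons, List.mem_cons] at hl
    rcases hl with rfl | rfl | hl
    · have h1 : (c :: r).map (merge U a c).φ = ((c :: r).map U.φ).map (Equiv.swap a c) := by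
        rw [List.map_map]; rfl
      rw [h1, hcr, List.map_append, List.rotate_cons_succ, List.rotate_zero]
      congr 1
      · conv_rhs => rw [← List.map_id r]
        apply List.map_congr_left
        intro x hx
        rw [Equiv.swap_apply_of_ne_of_ne]
        · rfl
        · rintro rfl; exact har hx
        · rintro rfl; exact hcr' hx
      · simp
    · show [Equiv.swap a c (U.φ a), Equiv.swap a c (U.φ b)] = _
      rw [hab, hbc, Equiv.swap_apply_right, Equiv.swap_apply_of_ne_of_ne (Ne.symm nab) nbc]
      rfl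
    · have h1 : l.map (merge U a c).φ = (l.map U.φ).map (Equiv.swap a c) := by
        rw [List.map_map]; rfl
      rw [h1, h.cyc l (List.mem_cons_of_mem _ hl)]
      conv_rhs => rw [← List.map_id (l.rotate 1)]
      apply List.map_congr_left
      intro x hx
      rw [List.mem_rotate] at hx
      have hxG : x ∈ G.flatten := List.mem_flatten.2 ⟨l, hl, hx⟩
      rw [Equiv.swap_apply_of_ne_of_ne]
      · rfl
      · rintro rfl
        exact hdisj x (Or.inl rfl) x hxG rfl
      · rintro rfl
        exact hdisj x (Or.inr (Or.inr (Or.inl rfl))) x hxG rfl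

theorem faces_del (h : U.Faces ([a, b] :: G)) : (del U a b).Faces G := by
  have hnd := h.nodup
  simp only [List.flatten_cons, List.nodup_append, List.nodup_cons, List.mem_cons, not_or] at hnd
  obtain ⟨⟨⟨nab, _⟩, _⟩, hG, hdisj⟩ := hnd
  refine ⟨hG, ?_, ?_⟩
  · intro x
    rw [DH.mem_del, h.mem x]
    simp only [List.flatten_cons, List.mem_append, List.mem_cons, List.not_mem_nil, or_false]
    constructor
    · rintro ⟨(h1 | h1) | h1, h2, h3⟩
      · exact absurd h1 h2
      · exact absurd h1 h3
      · exact h1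
    · intro hx
      refine ⟨Or.inr hx, ?_, ?_⟩
      · rintro rfl; exact hdisj x (Or.inl rfl) x hx rfl
      · rintro rfl; exact hdisj x (Or.inr (Or.inl rfl)) x hx rfl
  · intro l hl
    exact h.cyc l (List.mem_cons_of_mem _ hl)

/-- angle sums of the faces -/
structure Sums (A : D → ℕ) (F : List (List D)) : Prop where
  le : ∀ l ∈ F, l.length ≤ (l.map A).sum + 2
  ex : ∃ o ∈ F, o.length + 2 ≤ (o.map A).sum

theorem sum_toFinset_eq {l : List D} (hnd : l.Nodup) (f : D → ℤ) (s : Finset D)
    (hs : ∀ y, y ∈ s ↔ y ∈ l) : ∑ y ∈ s, f y = (l.map f).sum := by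
  have : s = l.toFinset := by ext y; rw [hs, List.mem_toFinset]
  rw [this, List.sum_toFinset _ hnd]

theorem list_sum_one_sub (l : List D) (A : D → ℕ) :
    (l.map (fun x => 1 - (A x : ℤ))).sum = l.length - (l.map A).sum := by
  induction l with
  | nil => simp
  | cons x l ih =>
    simp only [List.map_cons, List.sum_cons, List.length_cons]
    rw [ih]; push_cast; ring

theorem vt_ne_of_euler (hP : U.Pre) (h : U.Faces ((a :: b :: c :: r) :: G))
    (hs : Sums U.A ((a :: b :: c :: r) :: G)) (hA : U.A b = 0) (h2 : 2 ≤ U.A a + U.A c) :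
    U.vt a ≠ U.vt c := by
  classical
  intro hv
  obtain ⟨hab, hbc, hcr⟩ := h.abc
  have hnd := h.nodup
  have hnd2 := hnd
  simp only [List.flatten_cons, List.nodup_append, List.nodup_cons, List.mem_cons, not_or] at hnd2
  obtain ⟨⟨⟨nab, nac, har⟩, ⟨nbc, hbr⟩, hcr', hrnd⟩, hG, hdisj⟩ := hnd2
  have haS : a ∈ U.S := by rw [h.mem]; simp
  have hbS : b ∈ U.S := by rw [h.mem]; simp
  have hcS : c ∈ U.S := by rw [h.mem]; simp
  have hM := faces_merge h
  -- the sums of the merged faces
  have hAr : r.map (merge U a c).A = r.map U.A := by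
    apply List.map_congr_left
    intro x hx
    show (if x = a then 0 else if x = c then _ else U.A x) = U.A x
    rw [if_neg, if_neg]
    · rintro rfl; exact hcr' hx
    · rintro rfl; exact har hx
  have hAc : (merge U a c).A c = U.A a + U.A c - 2 := by
    show (if c = a then 0 else if c = c then _ else _) = _
    rw [if_neg (Ne.symm nac), if_pos rfl]
  have hAa : (merge U a c).A a = 0 := by
    show (if a = a then 0 else _) = 0
    simp
  have hAb : (merge U a c).A b = 0 := by
    show (if b = a then 0 else if b = c then _ else U.A b) = 0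
    rw [if_neg (Ne.symm nab), if_neg nbc, hA]
  have hAG : ∀ l ∈ G, l.map (merge U a c).A = l.map U.A := by
    intro l hl
    apply List.map_congr_left
    intro x hx
    have hxG : x ∈ G.flatten := List.mem_flatten.2 ⟨l, hl, hx⟩
    show (if x = a then 0 else if x = c then _ else U.A x) = U.A x
    rw [if_neg, if_neg]
    · rintro rfl; exact hdisj x (Or.inr (Or.inr (Or.inl rfl))) x hxG rfl
    · rintro rfl; exact hdisj x (Or.inl rfl) x hxG rfl
  have hsM : Sums (merge U a c).A ((c :: r) :: [a, b] :: G) := by
    constructor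
    · intro l hl
      rw [List.mem_cons, List.mem_cons] at hl
      rcases hl with rfl | rfl | hl
      · have := hs.le _ List.mem_cons_self
        simp only [List.map_cons, List.sum_cons, List.length_cons] at this ⊢
        rw [hAr, hAc]
        omega
      · simp [hAa, hAb]
      · rw [hAG l hl]
        exact hs.le l (List.mem_cons_of_mem _ hl)
    · obtain ⟨o, ho, hos⟩ := hs.ex
      rw [List.mem_cons] at ho
      rcases ho with rfl | ho
      · refine ⟨c :: r, List.mem_cons_self, ?_⟩
        simp only [List.map_cons, List.sum_cons, List.length_cons] at hos ⊢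
        rw [hAr, hAc]
        omega
      · refine ⟨o, List.mem_cons_of_mem _ (List.mem_cons_of_mem _ ho), ?_⟩
        rw [hAG o ho]
        exact hos
  -- all other angles at the vertex are zero
  have hvs := hP.vsum a haS
  have hcls0 : ∑ x ∈ U.cls (U.vt a), (merge U a c).A x = 0 := by
    have hca : a ∈ U.cls (U.vt a) := mem_cls.2 ⟨haS, rfl⟩
    have hcc : c ∈ (U.cls (U.vt a)).erase a :=
      Finset.mem_erase.2 ⟨(Ne.symm nac), mem_cls.2 ⟨hcS, hv.symm⟩⟩
    have hvs' : ∑ x ∈ U.cls (U.vt a), U.A x = 2 := hvs
    rw [← Finset.add_sum_erase _ _ hca, ← Finset.add_sum_erase _ _ hcc] at hvs' ⊢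
    have h3 : ∑ x ∈ ((U.cls (U.vt a)).erase a).erase c, (merge U a c).A x =
        ∑ x ∈ ((U.cls (U.vt a)).erase a).erase c, U.A x := by
      apply Finset.sum_congr rfl
      intro x hx
      rw [Finset.mem_erase, Finset.mem_erase] at hx
      show (if x = a then 0 else if x = c then _ else U.A x) = U.A x
      rw [if_neg hx.2.1, if_neg hx.1]
    rw [h3, hAa, hAc]
    omega
  have hclsle : ∀ x ∈ U.S, ∑ y ∈ U.cls (U.vt x), (merge U a c).A y ≤ 2 := by
    intro x hx
    by_cases hxv : U.vt x = U.vt a
    · rw [hxv, hcls0]; omega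
    · have : ∑ y ∈ U.cls (U.vt x), (merge U a c).A y = ∑ y ∈ U.cls (U.vt x), U.A y := by
        apply Finset.sum_congr rfl
        intro y hy
        rw [mem_cls] at hy
        show (if y = a then 0 else if y = c then _ else U.A y) = U.A y
        rw [if_neg, if_neg]
        · rintro rfl; exact hxv (hy.2.symm.trans hv.symm)
        · rintro rfl; exact hxv hy.2.symm
      rw [this]
      exact (hP.vsum x hx).le
  -- the component of the outer dart
  obtain ⟨o, ho, hos⟩ := hsM.ex
  have hone : o ≠ [] := by
    rintro rfl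
    simp at hos
  obtain ⟨xo, hxo⟩ := List.exists_mem_of_ne_nil o hone
  let R : D → D → Prop := fun p q => q = (merge U a c).φ p ∨ q = U.α p
  let K : Finset D := U.S.filter (fun y => Relation.ReflTransGen R xo y)
  have hφS : ∀ x ∈ U.S, (merge U a c).φ x ∈ U.S := by
    intro x hx
    show Equiv.swap a c (U.φ x) ∈ U.S
    by_cases h1 : U.φ x = a
    · rw [h1, Equiv.swap_apply_left]; exact hcS
    · by_cases h2 : U.φ x = c
      · rw [h2, Equiv.swap_apply_right]; exact haS
      · rw [Equiv.swap_apply_of_ne_of_ne h1 h2]; exact hP.φ_S x hx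
  have hxoS : xo ∈ U.S := by
    have : xo ∈ (merge U a c).S := by
      rw [hM.mem]; exact List.mem_flatten.2 ⟨o, ho, hxo⟩
    exact this
  have hxoK : xo ∈ K := Finset.mem_filter.2 ⟨hxoS, Relation.ReflTransGen.refl⟩
  have hKφ : ∀ x ∈ K, (merge U a c).φ x ∈ K := by
    intro x hx
    rw [Finset.mem_filter] at hx ⊢
    exact ⟨hφS x hx.1, hx.2.tail (Or.inl rfl)⟩
  have hKα : ∀ x ∈ K, U.α x ∈ K := by
    intro x hx
    rw [Finset.mem_filter] at hx ⊢
    exact ⟨hP.α_S x hx.1, hx.2.tail (Or.inr rfl)⟩
  have hKS : K ⊆ U.S := Finset.filter_subset _ _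
  -- a or c is in K
  have hac : a ∈ K ∨ c ∈ K := by
    by_contra hcon
    rw [not_or] at hcon
    have := hP.conn K hKS ⟨xo, hxoK⟩ (by
      intro x hx
      have h1 : Equiv.swap a c (U.φ x) ∈ K := hKφ x hx
      by_cases h3 : U.φ x = a
      · rw [h3, Equiv.swap_apply_left] at h1; exact absurd h1 hcon.2
      · by_cases h4 : U.φ x = c
        · rw [h4, Equiv.swap_apply_right] at h1; exact absurd h1 hcon.1
        · rwa [Equiv.swap_apply_of_ne_of_ne h3 h4] at h1) hKα
    rw [this] at hcon
    exact hcon.1 haS
  obtain ⟨xf, hxfK, hxfv⟩ : ∃ xf ∈ K, U.vt xf = U.vt a := by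
    rcases hac with h3 | h3
    · exact ⟨a, h3, rfl⟩
    · exact ⟨c, h3, hv.symm⟩
  -- vt is constant on the orbits
  have hvσ : ∀ x ∈ K, U.vt ((U.α * (merge U a c).φ⁻¹) x) = U.vt x := by
    intro x hx
    have h3 : (U.α * (merge U a c).φ⁻¹) x = (merge U a c).sg x := rfl
    rw [h3, merge_sg]
    by_cases h4 : x = a
    · rw [h4, Equiv.swap_apply_left, vt_sg hP hcS, hv]
    · by_cases h5 : x = c
      · rw [h5, Equiv.swap_apply_right, vt_sg hP haS, hv]
      · rw [Equiv.swap_apply_of_ne_of_ne h4 h5, vt_sg hP (hKS hx)]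
  have hσK : ∀ x ∈ K, (U.α * (merge U a c).φ⁻¹) x ∈ K := by
    intro x hx
    rw [Equiv.Perm.mul_apply]
    apply hKα
    rw [← perm_mem_iff K _ hKφ]
    simpa using hx
  have hσiff := perm_mem_iff K _ hσK
  have hvorb : ∀ x ∈ K, ∀ y ∈ K, (U.α * (merge U a c).φ⁻¹).SameCycle x y → U.vt y = U.vt x := by
    intro x hx y hy hxy
    obtain ⟨i, rfl⟩ := hxy
    have hz : ∀ n : ℕ, ∀ z ∈ K, (((U.α * (merge U a c).φ⁻¹) ^ n) z ∈ K ∧
        U.vt (((U.α * (merge U a c).φ⁻¹) ^ n) z) = U.vt z) := by
      intro n
      induction n with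
      | zero => intro z hz; exact ⟨hz, rfl⟩
      | succ n ih =>
        intro z hz
        rw [pow_succ', Equiv.Perm.mul_apply]
        exact ⟨hσK _ (ih z hz).1, by rw [hvσ _ (ih z hz).1, (ih z hz).2]⟩
    cases i with
    | ofNat n => exact (hz n x hx).2
    | negSucc n =>
      have h3 := (hz (n + 1) _ hy).2
      rw [zpow_negSucc] at h3 ⊢
      rw [← h3]
      congr 1
      rw [← Equiv.Perm.mul_apply, mul_inv_cancel, Equiv.Perm.one_apply]
  have hE := euler_labels (merge U a c).φ U.α K hKφ hKα (fun x hx => hP.α_α x (hKS hx))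
    (by
      intro x hx hcon
      have := hP.dir_α x (hKS hx)
      rw [hcon] at this
      cases h : U.dir x <;> simp [h] at this)
    (by
      intro C hC hne hCφ hCα
      apply Finset.Subset.antisymm hC
      obtain ⟨y, hy⟩ := hne
      have hCφ' := perm_mem_iff C _ hCφ
      have hCα' := perm_mem_iff C _ hCα
      have hback : ∀ z, Relation.ReflTransGen R xo z → z ∈ C → xo ∈ C := by
        intro z hz
        induction hz with
        | refl => exact id
        | tail _ hst ih =>
          intro hzC
          apply ih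
          rcases hst with h3 | h3
          · rw [h3] at hzC; exact (hCφ' _).1 hzC
          · rw [h3] at hzC; exact (hCα' _).1 hzC
      have hxoC : xo ∈ C := hback y (Finset.mem_filter.1 (hC hy)).2 hy
      intro z hz
      have hz' := (Finset.mem_filter.1 hz).2
      clear hz
      induction hz' with
      | refl => exact hxoC
      | tail _ hst ih =>
        rcases hst with h3 | h3
        · rw [h3]; exact hCφ _ ih
        · rw [h3]; exact hCα _ ih)
    (fun x => ((merge U a c).A x : ℤ)) (fun x => 1 - ((merge U a c).A x : ℤ))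
    (by
      intro x hx s hs'
      have h3 : ∑ y ∈ s, (merge U a c).A y ≤ ∑ y ∈ U.cls (U.vt x), (merge U a c).A y := by
        apply Finset.sum_le_sum_of_subset
        intro y hy
        rw [hs'] at hy
        rw [mem_cls]
        exact ⟨hKS hy.1, hvorb x hx y hy.1 hy.2⟩
      have h4 := h3.trans (hclsle x (hKS hx))
      exact_mod_cast h4)
    (by
      intro x hx s hs'
      have hxM : x ∈ (merge U a c).S := hKS hx
      rw [hM.mem, List.mem_flatten] at hxM
      obtain ⟨l, hl, hxl⟩ := hxM
      have hsl : ∀ y, y ∈ s ↔ y ∈ l := by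
        intro y
        rw [hs', hM.sameCycle_iff hl hxl]
        constructor
        · exact fun h => h.2
        · intro hy
          refine ⟨?_, hy⟩
          have h3 := (hM.sameCycle_iff hl hxl).2 hy
          have hKφ' := perm_mem_iff K _ hKφ
          obtain ⟨i, rfl⟩ := h3
          have hz : ∀ n : ℕ, ∀ z, (((merge U a c).φ ^ n) z ∈ K ↔ z ∈ K) := by
            intro n
            induction n with
            | zero => intro z; rfl
            | succ n ih =>
              intro z
              rw [pow_succ', Equiv.Perm.mul_apply, hKφ', ih]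
          cases i with
          | ofNat n => exact (hz n x).2 hx
          | negSucc n =>
            rw [← hz (n + 1), zpow_negSucc, ← Equiv.Perm.mul_apply, mul_inv_cancel]
            exact hx
      have hlnd : l.Nodup := by
        have := hM.nodup
        rw [List.nodup_flatten] at this
        exact this.1 l hl
      rw [sum_toFinset_eq hlnd _ s hsl, list_sum_one_sub]
      have := hsM.le l hl
      push_cast
      have h5 : ((l.length : ℕ) : ℤ) ≤ (((l.map (merge U a c).A).sum + 2 : ℕ) : ℤ) := by
        exact_mod_cast this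
      push_cast at h5
      linarith)
    xf xo hxfK hxoK 2 4
    (by
      intro s hs'
      have h3 : ∑ y ∈ s, (merge U a c).A y ≤ ∑ y ∈ U.cls (U.vt a), (merge U a c).A y := by
        apply Finset.sum_le_sum_of_subset
        intro y hy
        rw [hs'] at hy
        rw [mem_cls]
        exact ⟨hKS hy.1, (hvorb xf hxfK y hy.1 hy.2).trans hxfv⟩
      rw [hcls0] at h3
      have h4 : ∑ y ∈ s, (merge U a c).A y ≤ 0 := h3
      have : ((∑ y ∈ s, (merge U a c).A y : ℕ) : ℤ) ≤ 0 := by exact_mod_cast h4
      push_cast at this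
      linarith)
    (by
      intro s hs'
      have hsl : ∀ y, y ∈ s ↔ y ∈ o := by
        intro y
        rw [hs', hM.sameCycle_iff ho hxo]
        constructor
        · exact fun h => h.2
        · intro hy
          refine ⟨?_, hy⟩
          have h3 := (hM.sameCycle_iff ho hxo).2 hy
          have hKφ' := perm_mem_iff K _ hKφ
          obtain ⟨i, rfl⟩ := h3
          have hz : ∀ n : ℕ, ∀ z, (((merge U a c).φ ^ n) z ∈ K ↔ z ∈ K) := by
            intro n
            induction n with
            | zero => intro z; rfl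
            | succ n ih =>
              intro z
              rw [pow_succ', Equiv.Perm.mul_apply, hKφ', ih]
          cases i with
          | ofNat n => exact (hz n xo).2 hxoK
          | negSucc n =>
            rw [← hz (n + 1), zpow_negSucc, ← Equiv.Perm.mul_apply, mul_inv_cancel]
            exact hxoK
      have hlnd : o.Nodup := by
        have := hM.nodup
        rw [List.nodup_flatten] at this
        exact this.1 o ho
      rw [sum_toFinset_eq hlnd _ s hsl, list_sum_one_sub]
      have h5 : ((o.length + 2 : ℕ) : ℤ) ≤ (((o.map (merge U a c).A).sum : ℕ) : ℤ) := by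
        exact_mod_cast hos
      push_cast at h5 ⊢
      linarith)
  rw [← Finset.sum_add_distrib] at hE
  have h6 : ∑ x ∈ K, (((merge U a c).A x : ℤ) + (1 - ((merge U a c).A x : ℤ))) = K.card := by
    rw [Finset.sum_congr rfl (fun x _ => show ((merge U a c).A x : ℤ) +
      (1 - ((merge U a c).A x : ℤ)) = 1 by ring)]
    simp
  rw [h6] at hE
  linarith

/-- zip and delete the digon -/
theorem zip_step (hP : U.Pre) (h : U.Faces ((a :: b :: c :: r) :: G))
    (hs : Sums U.A ((a :: b :: c :: r) :: G)) (hA : U.A b = 0) (h2 : 2 ≤ U.A a + U.A c) :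
    ∃ U' : UM D, U'.Pre ∧ U'.Faces ((c :: r) :: G) ∧
      (∀ h', U'.Folded h' → ∃ h, U.Folded h) ∧
      (c :: r).map U'.A = (U.A a + U.A c - 2) :: r.map U.A ∧
      ∀ l ∈ G, l.map U'.A = l.map U.A := by
  have hv := vt_ne_of_euler hP h hs hA h2
  obtain ⟨hab, hbc, hcr⟩ := h.abc
  have hnd := h.nodup
  have hnd2 := hnd
  simp only [List.flatten_cons, List.nodup_append, List.nodup_cons, List.mem_cons, not_or] at hnd2
  obtain ⟨⟨⟨nab, nac, har⟩, ⟨nbc, hbr⟩, hcr', hrnd⟩, hG, hdisj⟩ := hnd2
  have haS : a ∈ U.S := by rw [h.mem]; simp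
  have hAr : r.map (merge U a c).A = r.map U.A := by
    apply List.map_congr_left
    intro x hx
    show (if x = a then 0 else if x = c then _ else U.A x) = U.A x
    rw [if_neg, if_neg]
    · rintro rfl; exact hcr' hx
    · rintro rfl; exact har hx
  have hAc : (merge U a c).A c = U.A a + U.A c - 2 := by
    show (if c = a then 0 else if c = c then _ else _) = _
    rw [if_neg (Ne.symm nac), if_pos rfl]
  have hAa : (merge U a c).A a = 0 := by
    show (if a = a then 0 else _) = 0
    simp
  have hAb : (merge U a c).A b = 0 := by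
    show (if b = a then 0 else if b = c then _ else U.A b) = 0
    rw [if_neg (Ne.symm nab), if_neg nbc, hA]
  have hAG : ∀ l ∈ G, l.map (merge U a c).A = l.map U.A := by
    intro l hl
    apply List.map_congr_left
    intro x hx
    have hxG : x ∈ G.flatten := List.mem_flatten.2 ⟨l, hl, hx⟩
    show (if x = a then 0 else if x = c then _ else U.A x) = U.A x
    rw [if_neg, if_neg]
    · rintro rfl; exact hdisj x (Or.inr (Or.inr (Or.inl rfl))) x hxG rfl
    · rintro rfl; exact hdisj x (Or.inl rfl) x hxG rfl
  have H : MH U a b c := ⟨haS, hab, hbc, nab, nac, nbc, hA, h2, hv⟩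
  have hPM := merge_pre hP H
  have HD : DH (merge U a c) a b := by
    refine ⟨haS, ?_, ?_, nab, hAa, hAb⟩
    · show Equiv.swap a c (U.φ a) = b
      rw [hab, Equiv.swap_apply_of_ne_of_ne (Ne.symm nab) nbc]
    · show Equiv.swap a c (U.φ b) = a
      rw [hbc, Equiv.swap_apply_right]
  refine ⟨del (merge U a c) a b, HD.del_pre hPM, ?_, ?_, ?_, ?_⟩
  · apply faces_del
    exact (faces_merge h).perm (List.Perm.swap _ _ _)
  · intro h' hF'
    exact ⟨_, folded_of_merge hP H (folded_of_del hPM HD hF')⟩
  · show (c :: r).map (merge U a c).A = _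
    rw [List.map_cons, hAr, hAc]
  · exact hAG

theorem digon_step (hP : U.Pre) (h : U.Faces ([a, b] :: G)) (hAa : U.A a = 0) (hAb : U.A b = 0) :
    ∃ U' : UM D, U'.Pre ∧ U'.Faces G ∧
      (∀ h', U'.Folded h' → ∃ h, U.Folded h) ∧
      ∀ l ∈ G, l.map U'.A = l.map U.A := by
  have hnd := h.nodup
  simp only [List.flatten_cons, List.nodup_append, List.nodup_cons, List.mem_cons, not_or] at hnd
  obtain ⟨⟨⟨nab, _⟩, _⟩, hG, hdisj⟩ := hnd
  have haS : a ∈ U.S := by rw [h.mem]; simp
  have hc := h.cyc _ List.mem_cons_self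
  have hc' : [U.φ a, U.φ b] = [b, a] := hc
  simp only [List.cons.injEq, and_true] at hc'
  have H : DH U a b := ⟨haS, hc'.1, hc'.2, nab, hAa, hAb⟩
  exact ⟨del U a b, H.del_pre hP, faces_del h, fun h' hF' => ⟨_, folded_of_del hP H hF'⟩,
    fun l _ => rfl⟩

end

end UM

end Pool.Agent.FlatFold
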