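import Mathlib
import Pool.Agent.Lib.MP_b92007_lc.FaceLists
import Pool.Agent.Lib.MP_b92007_lc.Cyc

/-! A combinatorial map all of whose faces can be zipped up has a folded state. -/

set_option linter.unusedSectionVars false
set_option linter.unusedVariables false

namespace Pool.Agent.FlatFold

theorem ZipStep.inv {w w' : List ℕ} (h : ZipStep w w') :
    w.sum + w'.length = w'.sum + w.length := by
  cases h with
  | rot _ _ h => rw [h.perm.sum_eq, h.perm.length_eq]
  | zip A B rest h =>
    simp only [List.sum_cons, List.length_cons]
    omega

theorem ZipStep.inv' {w w' : List ℕ} (h : Relation.ReflTransGen ZipStep w w') :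
    w.sum + w'.length = w'.sum + w.length := by
  induction h with
  | refl => rfl
  | tail _ h ih =>
    have := h.inv
    omega

theorem map_eq_pair {D : Type} {f : D → ℕ} {l : List D} {x y : ℕ} (h : l.map f = [x, y]) :
    ∃ a b, l = [a, b] ∧ f a = x ∧ f b = y := by
  cases l with
  | nil => simp at h
  | cons a l =>
    cases l with
    | nil => simp at h
    | cons b l =>
      simp only [List.map_cons, List.cons.injEq, List.map_eq_nil_iff] at h
      obtain ⟨h1, h2, rfl⟩ := h
      exact ⟨a, b, rfl, h1, h2⟩

theorem map_eq_cons3 {D : Type} {f : D → ℕ} {l : List D} {x y z : ℕ} {w : List ℕ}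
    (h : l.map f = x :: y :: z :: w) :
    ∃ a b c r, l = a :: b :: c :: r ∧ f a = x ∧ f b = y ∧ f c = z ∧ r.map f = w := by
  cases l with
  | nil => simp at h
  | cons a l =>
    cases l with
    | nil => simp at h
    | cons b l =>
      cases l with
      | nil => simp at h
      | cons c l =>
        simp only [List.map_cons, List.cons.injEq] at h
        exact ⟨a, b, c, l, rfl, h⟩

theorem sum_map_rotate {D : Type} (f : D → ℕ) (l : List D) (k : ℕ) :
    ((l.rotate k).map f).sum = (l.map f).sum := by
  rw [List.map_rotate]
  exact (List.IsRotated.perm ⟨k, rfl⟩ : (l.map f).Perm _).sum_eq.symm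

namespace UM

variable {D : Type} [DecidableEq D] {U : UM D}

/-- base case: a path -/
theorem folded_base (hP : U.Pre) {o : List D} (h : U.Faces [o]) (hA : ∀ x ∈ o, 1 ≤ U.A x)
    (hsum : (o.map U.A).sum = o.length + 2) : U.Folded (fun _ => 0) := by
  have hmem : ∀ x, x ∈ U.S ↔ x ∈ o := by
    intro x; rw [h.mem]; simp
  have hnd : o.Nodup := by
    have := h.nodup; simpa using this
  have hSo : U.S = o.toFinset := by ext x; rw [hmem, List.mem_toFinset]
  have hA2 : ∀ x ∈ U.S, U.A x ≤ 2 := by
    intro x hx
    have := hP.vsum x hx
    rw [← this]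
    exact Finset.single_le_sum (f := U.A) (fun _ _ => Nat.zero_le _)
      (Finset.mem_filter.2 ⟨hx, rfl⟩)
  have hA1 : ∀ x ∈ U.S, 1 ≤ U.A x := fun x hx => hA x ((hmem x).1 hx)
  -- number of turns is two
  have hturn : (U.S.filter (fun x => U.A x = 2)).card = 2 := by
    have h1 : ∑ x ∈ U.S, U.A x = U.S.card + 2 := by
      rw [hSo, List.sum_toFinset _ hnd, hsum, List.toFinset_card_of_nodup hnd]
    have h2 : ∑ x ∈ U.S, U.A x = ∑ x ∈ U.S, (1 + if U.A x = 2 then 1 else 0) := by
      apply Finset.sum_congr rfl
      intro x hx
      have := hA1 x hx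
      have := hA2 x hx
      split_ifs <;> omega
    rw [h2, Finset.sum_add_distrib, Finset.sum_const, smul_eq_mul, mul_one,
      ← Finset.card_filter] at h1
    omega
  have hdir : ∀ x ∈ U.S, U.A (U.φ x) = 2 ↔ U.dir (U.φ x) ≠ U.dir x := by
    intro x hx
    have h1 := hP.A_odd x hx
    have h2 := hA1 _ (hP.φ_S x hx)
    have h3 := hA2 _ (hP.φ_S x hx)
    rw [Ne, ← h1]
    omega
  -- exactly one turn from left to right
  let P : Finset D := U.S.filter (fun x => U.dir x = true ∧ ¬ U.dir (U.φ x) = true)
  let Q : Finset D := U.S.filter (fun x => ¬ U.dir x = true ∧ U.dir (U.φ x) = true)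
  have hPQ : P.card = Q.card :=
    card_leave_eq_card_enter U.S U.φ hP.φ_S (fun x _ y _ hxy => U.φ.injective hxy)
      (fun x => U.dir x = true)
  have hPQ2 : P.card + Q.card = 2 := by
    rw [← hturn, ← Finset.card_union_of_disjoint]
    · rw [← Finset.card_image_of_injective (P ∪ Q) U.φ.injective]
      congr 1
      ext x
      simp only [Finset.mem_image, Finset.mem_union, Finset.mem_filter, P, Q]
      constructor
      · rintro ⟨y, h1 | h1, rfl⟩
        · refine ⟨hP.φ_S y h1.1, (hdir y h1.1).2 ?_⟩
          intro h2; rw [h2] at h1; exact h1.2.2 h1.2.1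
        · refine ⟨hP.φ_S y h1.1, (hdir y h1.1).2 ?_⟩
          intro h2; rw [h2] at h1; exact h1.2.1 h1.2.2
      · rintro ⟨hx, hx2⟩
        have hyS : U.φ.symm x ∈ U.S := φ_symm_S hP x hx
        refine ⟨U.φ.symm x, ?_, by simp⟩
        have h1 := (hdir _ hyS).1 (by simpa using hx2)
        rw [Equiv.apply_symm_apply] at h1
        simp only [Equiv.apply_symm_apply]
        cases h3 : U.dir x <;> cases h4 : U.dir (U.φ.symm x) <;> simp [h3, h4, hyS] at h1 ⊢
    · rw [Finset.disjoint_left]
      intro x hx hx'
      simp only [Finset.mem_filter, P, Q] at hx hx'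
      exact hx'.2.1 hx.2.1
  have hQ1 : Q.card = 1 := by omega
  have hP1 : P.card = 1 := by omega
  rw [Finset.card_eq_one] at hQ1 hP1
  obtain ⟨q, hq⟩ := hQ1
  obtain ⟨p, hp⟩ := hP1
  have hqu : ∀ x ∈ U.S, U.dir x = false → U.dir (U.φ x) = true → x = q := by
    intro x hx h1 h2
    have : x ∈ Q := by
      simp only [Finset.mem_filter, Q]; exact ⟨hx, by simp [h1], h2⟩
    rw [hq, Finset.mem_singleton] at this
    exact this
  have hpu : ∀ x ∈ U.S, U.dir x = true → U.dir (U.φ x) = false → x = p := by
    intro x hx h1 h2
    have : x ∈ P := by
      simp only [Finset.mem_filter, P]; exact ⟨hx, h1, by simp [h2]⟩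
    rw [hp, Finset.mem_singleton] at this
    exact this
  have hlevφ : ∀ x ∈ U.S, U.lev (U.φ x) = U.lev x + (if U.dir x then 1 else -1) := by
    intro x hx
    rw [← hP.lev_α x hx]
    exact hP.lev_vt _ (hP.φ_S x hx) _ (hP.α_S x hx) (hP.vt_φ x hx)
  -- injectivity
  have hinj : ∀ (n : ℕ) (x y : D), x ∈ U.S → y ∈ U.S → U.dir x = U.dir y → U.lev x = U.lev y →
      x = y := by
    -- the right darts
    have hR : ∀ x ∈ U.S, ∀ y ∈ U.S, U.dir x = true → U.dir y = true → U.lev x = U.lev y → x = y := by
      by_contra hcon
      push Not at hcon
      obtain ⟨x0, hx0, y0, hy0, hdx0, hdy0, hl0, hne0⟩ := hcon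
      -- choose such x with minimal level
      let T := U.S.filter (fun x => U.dir x = true ∧ ∃ y ∈ U.S, U.dir y = true ∧
        U.lev x = U.lev y ∧ x ≠ y)
      have hT : T.Nonempty := ⟨x0, by
        rw [Finset.mem_filter]
        exact ⟨hx0, hdx0, y0, hy0, hdy0, hl0, hne0⟩⟩
      obtain ⟨x, hx, hmin⟩ := Finset.exists_min_image T U.lev hT
      rw [Finset.mem_filter] at hx
      obtain ⟨hxS, hdx, y, hyS, hdy, hl, hne⟩ := hx
      -- minimal level among the right darts is at the turn
      let R := U.S.filter (fun x => U.dir x = true)
      obtain ⟨m, hm, hmm⟩ := Finset.exists_min_image R U.lev ⟨x, Finset.mem_filter.2 ⟨hxS, hdx⟩⟩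
      rw [Finset.mem_filter] at hm
      have hpred : ∀ z ∈ U.S, U.dir z = true → U.dir (U.φ.symm z) = true →
          U.lev (U.φ.symm z) = U.lev z - 1 := by
        intro z hz _ h2
        have := hlevφ _ (φ_symm_S hP z hz)
        rw [Equiv.apply_symm_apply, h2] at this
        simp at this
        omega
      have hmq : U.φ.symm m = q := by
        apply hqu _ (φ_symm_S hP m hm.1) _ (by rw [Equiv.apply_symm_apply]; exact hm.2)
        cases h3 : U.dir (U.φ.symm m)
        · rfl
        · have h4 := hpred m hm.1 hm.2 h3
          have h5 := hmm (U.φ.symm m) (Finset.mem_filter.2 ⟨φ_symm_S hP m hm.1, h3⟩)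
          omega
      have hprev : ∀ z ∈ U.S, U.dir z = true → z ≠ m → U.dir (U.φ.symm z) = true := by
        intro z hz hdz hzm
        cases h3 : U.dir (U.φ.symm z)
        · exfalso
          apply hzm
          have := hqu _ (φ_symm_S hP z hz) h3 (by rw [Equiv.apply_symm_apply]; exact hdz)
          rw [← hmq] at this
          exact U.φ.symm.injective this
        · rfl
      by_cases hxm : x = m
      · have hym : y ≠ m := by rintro rfl; exact hne hxm
        have h4 := hpred y hyS hdy (hprev y hyS hdy hym)
        have h5 := hmm (U.φ.symm y) (Finset.mem_filter.2 ⟨φ_symm_S hP y hyS, hprev y hyS hdy hym⟩)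
        rw [← hxm] at h5
        omega
      · by_cases hym : y = m
        · have h4 := hpred x hxS hdx (hprev x hxS hdx hxm)
          have h5 := hmm (U.φ.symm x)
            (Finset.mem_filter.2 ⟨φ_symm_S hP x hxS, hprev x hxS hdx hxm⟩)
          rw [← hym] at h5
          omega
        · have h4 := hpred x hxS hdx (hprev x hxS hdx hxm)
          have h5 := hpred y hyS hdy (hprev y hyS hdy hym)
          have h6 := hmin (U.φ.symm x) (by
            rw [Finset.mem_filter]
            refine ⟨φ_symm_S hP x hxS, hprev x hxS hdx hxm, U.φ.symm y, φ_symm_S hP y hyS,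
              hprev y hyS hdy hym, by omega, ?_⟩
            intro h; exact hne (U.φ.symm.injective h))
          omega
    intro _ x y hx hy hd hl
    cases hdx : U.dir x
    · -- use the reversal
      have hdy : U.dir y = false := by rw [← hd, hdx]
      have h1 := hR (U.α x) (hP.α_S x hx) (U.α y) (hP.α_S y hy) (by rw [hP.dir_α x hx, hdx]; rfl)
        (by rw [hP.dir_α y hy, hdy]; rfl) (by rw [hP.lev_α x hx, hP.lev_α y hy, hl, hdx, hdy])
      exact U.α.injective h1
    · exact hR x hx y hy hdx (hd ▸ hdx) hl
  refine ⟨fun _ _ => rfl, fun x hx y hy hd hl _ => hinj 0 x y hx hy hd hl, ?_, ?_⟩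
  · intro d hd
    have h1 := hA1 _ (hP.φ_S d hd)
    have h2 := hA2 _ (hP.φ_S d hd)
    have h3 := hdir d hd
    have hlev : U.lev (U.φ d) = U.lev (U.α d) :=
      hP.lev_vt _ (hP.φ_S d hd) _ (hP.α_S d hd) (hP.vt_φ d hd)
    have hda := hP.dir_α d hd
    by_cases h4 : U.dir (U.φ d) = U.dir d
    · have hA1' : U.A (U.φ d) = 1 := by
        have : ¬ U.A (U.φ d) = 2 := by rw [h3]; simpa using h4
        omega
      rw [hA1']
      unfold PP key tt
      rw [hda, h4]
      cases U.dir d <;> simp [Prod.Lex.toLex_le_toLex]
    · have hA2' : U.A (U.φ d) = 2 := h3.2 h4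
      have : U.φ d = U.α d := by
        apply hinj 0 _ _ (hP.φ_S d hd) (hP.α_S d hd) _ hlev
        rw [hda]
        cases h5 : U.dir (U.φ d) <;> cases h6 : U.dir d <;> simp [h5, h6] at h4 ⊢
      rw [hA2', this]
      unfold PP
      simp
  · intro x1 hx1 y1 hy1 x2 hx2 y2 hy2 hl k1 k2 k3 v1 v2
    exfalso
    have l12 : U.lev x1 = U.lev x2 := hP.lev_vt _ hx1 _ hx2 v1
    have m12 : U.lev y1 = U.lev y2 := hP.lev_vt _ hy1 _ hy2 v2
    have g1 : U.dir x1 ≠ U.dir y1 := by
      intro h; have := hinj 0 x1 y1 hx1 hy1 h hl; rw [this] at k1; exact lt_irrefl _ k1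
    have g2 : U.dir y1 ≠ U.dir x2 := by
      intro h; have := hinj 0 y1 x2 hy1 hx2 h (hl.symm.trans l12); rw [this] at k2
      exact lt_irrefl _ k2
    have g3 : U.dir x1 ≠ U.dir x2 := by
      intro h; have := hinj 0 x1 x2 hx1 hx2 h l12; rw [this] at k1
      exact lt_irrefl _ (k1.trans k2)
    cases h4 : U.dir x1 <;> cases h5 : U.dir y1 <;> cases h6 : U.dir x2 <;>
      simp [h4, h5, h6] at g1 g2 g3

theorem fold_main : ∀ (n : ℕ) (U : UM D) (o : List D) (fs : List (List D)), U.Pre →
    U.Faces (o :: fs) → (o :: fs).flatten.length ≤ n →
    (∀ l ∈ fs, Relation.ReflTransGen ZipStep (l.map U.A) [0, 0]) →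
    (∃ w, Relation.ReflTransGen ZipStep (o.map U.A) w ∧ ∀ x ∈ w, 1 ≤ x) →
    (o.map U.A).sum = o.length + 2 → ∃ h, U.Folded h := by
  intro n
  induction n using Nat.strong_induction_on with
  | _ n IH =>
    intro U o fs hP hF hlen hfs ho hos
    have hsums : Sums U.A (o :: fs) := by
      constructor
      · intro l hl
        rw [List.mem_cons] at hl
        rcases hl with rfl | hl
        · omega
        · have := ZipStep.inv' (hfs l hl)
          simp at this
          omega
      · exact ⟨o, List.mem_cons_self, by omega⟩
    cases fs with
    | cons l fs =>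
      -- an inner face
      have hl : Relation.ReflTransGen ZipStep (l.map U.A) [0, 0] := hfs l List.mem_cons_self
      have hF' : U.Faces (l :: o :: fs) := hF.perm (List.Perm.swap _ _ _)
      have hS' : Sums U.A (l :: o :: fs) := by
        constructor
        · intro l' hl'
          apply hsums.le
          rw [List.mem_cons, List.mem_cons] at hl' ⊢
          tauto
        · exact ⟨o, by simp, by omega⟩
      have hlen' : (l :: o :: fs).flatten.length ≤ n := by
        have : (l :: o :: fs).flatten.length = (o :: l :: fs).flatten.length := by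
          simp only [List.flatten_cons, List.length_append]; omega
        omega
      -- induction over the reduction
      have key : ∀ w, Relation.ReflTransGen ZipStep w [0, 0] → ∀ l, l.map U.A = w →
          U.Faces (l :: o :: fs) → Sums U.A (l :: o :: fs) →
          (l :: o :: fs).flatten.length ≤ n → ∃ h, U.Folded h := by
        intro w hw
        induction hw using Relation.ReflTransGen.head_induction_on with
        | refl =>
          intro l hl hF hS hlen
          obtain ⟨a, b, rfl, hl1, hl2⟩ := map_eq_pair hl
          obtain ⟨U', hP', hF', hfold, hAA⟩ := digon_step hP hF hl1 hl2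
          have hlt : (o :: fs).flatten.length < n := by
            simp only [List.flatten_cons, List.length_append, List.length_cons,
              List.length_nil] at hlen ⊢
            omega
          obtain ⟨h', hh'⟩ := IH _ hlt U' o fs hP' hF' le_rfl
            (by
              intro l' hl'
              rw [hAA l' (List.mem_cons_of_mem _ hl')]
              exact hfs l' (List.mem_cons_of_mem _ hl'))
            (by rw [hAA o List.mem_cons_self]; exact ho)
            (by rw [hAA o List.mem_cons_self]; exact hos)
          exact hfold h' hh'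
        | head hstep hrest ih =>
          intro l hl hF hS hlen
          cases hstep with
          | rot _ w' hr =>
            obtain ⟨k, hk⟩ := hr
            have hrot : l ~r l.rotate k := ⟨k, rfl⟩
            refine ih (l.rotate k) ?_ (hF.rot hrot) ?_ ?_
            · rw [List.map_rotate, hl, hk]
            · constructor
              · intro l' hl'
                rw [List.mem_cons] at hl'
                rcases hl' with rfl | hl'
                · have := hS.le l List.mem_cons_self
                  rw [List.length_rotate, sum_map_rotate]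
                  exact this
                · exact hS.le l' (List.mem_cons_of_mem _ hl')
              · exact ⟨o, by simp, by omega⟩
            · simp only [List.flatten_cons, List.length_append, List.length_rotate] at hlen ⊢
              exact hlen
          | zip A B rest h2 =>
            obtain ⟨a, b, c, r, rfl, e1, e2, e3, e4⟩ := map_eq_cons3 hl
            obtain ⟨U', hP', hF', hfold, hAc, hAA⟩ := zip_step hP hF hS e2 (by rw [e1, e3]; exact h2)
            have hlt : ((c :: r) :: o :: fs).flatten.length < n := by
              simp only [List.flatten_cons, List.length_append, List.length_cons] at hlen ⊢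
              omega
            have hlt' : (o :: (c :: r) :: fs).flatten.length < n := by
              simp only [List.flatten_cons, List.length_append, List.length_cons] at hlen ⊢
              omega
            obtain ⟨h', hh'⟩ := IH _ hlt' U' o ((c :: r) :: fs) hP'
              (hF'.perm (List.Perm.swap _ _ _)) le_rfl
              (by
                intro l' hl'
                rw [List.mem_cons] at hl'
                rcases hl' with rfl | hl'
                · rw [hAc, e1, e3, e4]; exact hrest
                · rw [hAA l' (List.mem_cons_of_mem _ hl')]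
                  exact hfs l' (List.mem_cons_of_mem _ hl'))
              (by rw [hAA o List.mem_cons_self]; exact ho)
              (by rw [hAA o List.mem_cons_self]; exact hos)
            exact hfold h' hh'
      exact key _ hl l rfl hF' hS' hlen'
    | nil =>
      obtain ⟨w, hw, hw1⟩ := ho
      have key : ∀ w0, Relation.ReflTransGen ZipStep w0 w → ∀ o, o.map U.A = w0 →
          U.Faces [o] → (o.map U.A).sum = o.length + 2 →
          [o].flatten.length ≤ n → ∃ h, U.Folded h := by
        intro w0 hw0
        induction hw0 using Relation.ReflTransGen.head_induction_on with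
        | refl =>
          intro o ho hF hos _
          refine ⟨_, folded_base hP hF ?_ hos⟩
          intro x hx
          exact hw1 _ (by rw [← ho]; exact List.mem_map_of_mem hx)
        | head hstep hrest ih =>
          intro o ho hF hos hlen
          cases hstep with
          | rot _ w' hr =>
            obtain ⟨k, hk⟩ := hr
            have hrot : o ~r o.rotate k := ⟨k, rfl⟩
            refine ih (o.rotate k) ?_ (hF.rot hrot) ?_ ?_
            · rw [List.map_rotate, ho, hk]
            · rw [List.length_rotate, ← hos, sum_map_rotate]
            · simp only [List.flatten_cons, List.length_append, List.length_rotate] at hlen ⊢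
              exact hlen
          | zip A B rest h2 =>
            obtain ⟨a, b, c, r, rfl, e1, e2, e3, e4⟩ := map_eq_cons3 ho
            have hS : Sums U.A [a :: b :: c :: r] := by
              constructor
              · intro l hl
                rw [List.mem_singleton] at hl
                rw [hl]
                omega
              · exact ⟨_, List.mem_cons_self, by omega⟩
            obtain ⟨U', hP', hF', hfold, hAc, hAA⟩ := zip_step hP hF hS e2 (by rw [e1, e3]; exact h2)
            have hlt : [c :: r].flatten.length < n := by
              simp only [List.flatten_cons, List.length_append, List.length_cons] at hlen ⊢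
              omega
            obtain ⟨h', hh'⟩ := IH _ hlt U' (c :: r) [] hP' hF' le_rfl
              (by simp)
              (by rw [hAc, e1, e3, e4]; exact ⟨w, hrest, hw1⟩)
              (by
                rw [hAc]
                simp only [List.map_cons, List.sum_cons, List.length_cons] at hos ⊢
                rw [e1, e2, e3] at hos
                rw [e1, e3]
                omega)
            exact hfold h' hh'
      exact key _ hw o rfl hF hos hlen

end UM

end Pool.Agent.FlatFold
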