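import Mathlib

/-! Sorted enumerations of finite sets. -/

set_option linter.unusedSectionVars false
set_option linter.unusedVariables false

namespace Pool.Agent.FlatFold

/-- `l` is the enumeration of `s` in increasing order of `h` -/
structure IsSorted {D : Type} (h : D → ℤ) (s : Finset D) (l : List D) : Prop where
  pw : l.Pairwise (fun a b => h a < h b)
  mem : ∀ d, d ∈ l ↔ d ∈ s

variable {D : Type} {h : D → ℤ} {s : Finset D} {l l' : List D}

theorem IsSorted.nodup (hl : IsSorted h s l) : l.Nodup :=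
  hl.pw.imp (fun hab => by rintro rfl; exact lt_irrefl _ hab)

theorem exists_sorted [DecidableEq D] (h : D → ℤ) (s : Finset D)
    (hinj : ∀ a ∈ s, ∀ b ∈ s, h a = h b → a = b) : ∃ l, IsSorted h s l := by
  let r : D → D → Prop := fun a b => h a ≤ h b
  haveI : DecidableRel r := fun a b => inferInstanceAs (Decidable (h a ≤ h b))
  haveI : Std.Total r := ⟨fun a b => le_total (h a) (h b)⟩
  haveI : IsTrans D r := ⟨fun a b c hab hbc => le_trans hab hbc⟩
  refine ⟨s.toList.insertionSort r, ?_, ?_⟩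
  · have h1 : (s.toList.insertionSort r).Pairwise r := List.pairwise_insertionSort r _
    have h2 : (s.toList.insertionSort r).Nodup :=
      (List.perm_insertionSort r s.toList).nodup_iff.2 s.nodup_toList
    have h3 : ∀ a ∈ s.toList.insertionSort r, a ∈ s := by
      intro a ha
      rw [(List.perm_insertionSort r s.toList).mem_iff] at ha
      exact Finset.mem_toList.1 ha
    have h4 : (s.toList.insertionSort r).Pairwise (fun a b => r a b ∧ a ≠ b) :=
      List.Pairwise.and h1 h2
    apply List.Pairwise.imp_of_mem _ h4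
    intro a b ha hb hab
    apply lt_of_le_of_ne hab.1
    intro heq
    exact hab.2 (hinj a (h3 a ha) b (h3 b hb) heq)
  · intro d
    rw [(List.perm_insertionSort r s.toList).mem_iff, Finset.mem_toList]

theorem IsSorted.unique (h1 : IsSorted h s l) (h2 : IsSorted h s l') : l = l' := by
  have hp : l.Perm l' := by
    rw [List.perm_ext_iff_of_nodup h1.nodup h2.nodup]
    intro a; rw [h1.mem, h2.mem]
  refine List.Perm.eq_of_pairwise ?_ h1.pw h2.pw hp
  intro a b _ _ hab hba
  exact absurd (hab.trans hba) (lt_irrefl _)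

theorem IsSorted.split [DecidableEq D] (hl : IsSorted h s l) (I : Finset D) (hI : I ⊆ s)
    (hne : I.Nonempty)
    (hconv : ∀ t ∈ s, t ∉ I → (∀ i ∈ I, h t < h i) ∨ (∀ i ∈ I, h i < h t)) :
    ∃ A m C, l = A ++ m ++ C ∧ IsSorted h I m ∧ IsSorted h (s \ I) (A ++ C) := by
  obtain ⟨i0, hi0⟩ := hne
  let A := l.filter (fun t => decide (t ∉ I ∧ h t < h i0))
  let m := l.filter (fun t => decide (t ∈ I))
  let C := l.filter (fun t => decide (t ∉ I ∧ ¬ h t < h i0))
  have hmA : ∀ t, t ∈ A ↔ t ∈ s ∧ t ∉ I ∧ h t < h i0 := by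
    intro t; simp only [A, List.mem_filter, hl.mem, decide_eq_true_eq]
  have hmm : ∀ t, t ∈ m ↔ t ∈ I := by
    intro t; simp only [m, List.mem_filter, hl.mem, decide_eq_true_eq]
    constructor
    · exact fun h => h.2
    · exact fun h => ⟨hI h, h⟩
  have hmC : ∀ t, t ∈ C ↔ t ∈ s ∧ t ∉ I ∧ ¬ h t < h i0 := by
    intro t; simp only [C, List.mem_filter, hl.mem, decide_eq_true_eq]
  have hAI : ∀ t ∈ A, ∀ i ∈ I, h t < h i := by
    intro t ht
    rw [hmA] at ht
    rcases hconv t ht.1 ht.2.1 with h1 | h1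
    · exact h1
    · exact absurd (h1 i0 hi0) (not_lt.2 ht.2.2.le)
  have hIC : ∀ t ∈ C, ∀ i ∈ I, h i < h t := by
    intro t ht
    rw [hmC] at ht
    rcases hconv t ht.1 ht.2.1 with h1 | h1
    · exact absurd (h1 i0 hi0) ht.2.2
    · exact h1
  have hpA : A.Pairwise (fun a b => h a < h b) := hl.pw.filter _
  have hpm : m.Pairwise (fun a b => h a < h b) := hl.pw.filter _
  have hpC : C.Pairwise (fun a b => h a < h b) := hl.pw.filter _
  have hAC : ∀ a ∈ A, ∀ c ∈ C, h a < h c :=
    fun a ha c hc => (hAI a ha i0 hi0).trans (hIC c hc i0 hi0)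
  refine ⟨A, m, C, ?_, ⟨hpm, hmm⟩, ⟨?_, ?_⟩⟩
  · apply hl.unique
    refine ⟨?_, ?_⟩
    · rw [List.append_assoc, List.pairwise_append, List.pairwise_append]
      refine ⟨hpA, ⟨hpm, hpC, ?_⟩, ?_⟩
      · intro a ha b hb; exact hIC b hb a ((hmm a).1 ha)
      · intro a ha b hb
        rw [List.mem_append] at hb
        rcases hb with hb | hb
        · exact hAI a ha b ((hmm b).1 hb)
        · exact hAC a ha b hb
    · intro d
      rw [List.mem_append, List.mem_append, hmA, hmm, hmC]
      constructor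
      · rintro ((h | h) | h)
        · exact h.1
        · exact hI h
        · exact h.1
      · intro hd
        by_cases h1 : d ∈ I
        · exact Or.inl (Or.inr h1)
        · by_cases h2 : h d < h i0
          · exact Or.inl (Or.inl ⟨hd, h1, h2⟩)
          · exact Or.inr ⟨hd, h1, h2⟩
  · rw [List.pairwise_append]
    exact ⟨hpA, hpC, hAC⟩
  · intro d
    rw [List.mem_append, hmA, hmC, Finset.mem_sdiff]
    constructor
    · rintro (h | h)
      · exact ⟨h.1, h.2.1⟩
      · exact ⟨h.1, h.2.1⟩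
    · rintro ⟨h1, h2⟩
      by_cases h3 : h d < h i0
      · exact Or.inl ⟨h1, h2, h3⟩
      · exact Or.inr ⟨h1, h2, h3⟩

theorem IsSorted.reverse (hl : IsSorted h s l) : IsSorted (fun d => - h d) s l.reverse := by
  refine ⟨?_, ?_⟩
  · rw [List.pairwise_reverse]
    apply hl.pw.imp
    intro a b hab; simpa using hab
  · intro d; rw [List.mem_reverse, hl.mem]

theorem IsSorted.map {D' : Type} {h' : D' → ℤ} {s' : Finset D'} (hl : IsSorted h s l) (f : D → D')
    (hmono : ∀ a ∈ s, ∀ b ∈ s, h a < h b → h' (f a) < h' (f b))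
    (hmem : ∀ d', d' ∈ s' ↔ ∃ d ∈ s, f d = d') : IsSorted h' s' (l.map f) := by
  refine ⟨?_, ?_⟩
  · rw [List.pairwise_map]
    apply List.Pairwise.imp_of_mem _ hl.pw
    intro a b ha hb hab
    exact hmono a ((hl.mem a).1 ha) b ((hl.mem b).1 hb) hab
  · intro d'
    rw [hmem, List.mem_map]
    constructor
    · rintro ⟨d, hd, rfl⟩; exact ⟨d, (hl.mem d).1 hd, rfl⟩
    · rintro ⟨d, hd, rfl⟩; exact ⟨d, (hl.mem d).2 hd, rfl⟩

end Pool.Agent.FlatFold
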