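import Mathlib
import Pool.Agent.Lib.MP_b92007_lc.Faces
import Pool.Agent.Lib.MP_b92007_lc.Fold

/-! The combinatorial map with unit edges of a plane graph with levels and a mountain
assignment. -/

set_option linter.unusedSectionVars false
set_option linter.unusedVariables false

namespace Pool.Agent.FlatFold

open PlaneGraph

variable (G : PlaneGraph)

/-- the pair is a directed edge -/
def IsDart (e : Fin G.n × Fin G.n) : Prop := e.2 ∈ G.nbr e.1

instance : DecidablePred (IsDart G) := fun e => by unfold IsDart; infer_instance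

variable {G}

theorem rot_apply (u v : Fin G.n) : G.rot (u, v) = (u, (G.nbr u).formPerm v) := rfl

theorem faceNext_apply (u v : Fin G.n) :
    G.faceNext (u, v) = (v, (G.nbr v).formPerm.symm u) := rfl

theorem faceNext_symm_apply (u v : Fin G.n) :
    G.faceNext.symm (u, v) = ((G.nbr u).formPerm v, u) := rfl

theorem isDart_swap {e : Fin G.n × Fin G.n} (h : IsDart G e) : IsDart G e.swap :=
  G.symm _ _ h

theorem isDart_faceNext {e : Fin G.n × Fin G.n} (h : IsDart G e) : IsDart G (G.faceNext e) := by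
  obtain ⟨u, v⟩ := e
  rw [faceNext_apply]
  show (G.nbr v).formPerm.symm u ∈ G.nbr v
  rw [← List.formPerm_mem_iff_mem, Equiv.apply_symm_apply]
  exact G.symm _ _ h

theorem isDart_faceNext_symm {e : Fin G.n × Fin G.n} (h : IsDart G e) :
    IsDart G (G.faceNext.symm e) := by
  obtain ⟨u, v⟩ := e
  rw [faceNext_symm_apply]
  show u ∈ G.nbr ((G.nbr u).formPerm v)
  apply G.symm
  rw [List.formPerm_mem_iff_mem]
  exact h

theorem len_swap {e : Fin G.n × Fin G.n} (h : IsDart G e) :
    G.len e.swap.1 e.swap.2 = G.len e.1 e.2 := (G.len_symm _ _ h).symm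

theorem isDart_ne {e : Fin G.n × Fin G.n} (h : IsDart G e) : e.1 ≠ e.2 := by
  intro heq
  unfold IsDart at h
  rw [← heq] at h
  exact G.irrefl _ h

variable (G)

/-- unit darts -/
abbrev UD := {p : (Fin G.n × Fin G.n) × ℕ // IsDart G p.1 ∧ p.2 < G.len p.1.1 p.1.2}

instance : Fintype (UD G) := by
  refine Fintype.subtype (((Finset.univ : Finset (Fin G.n × Fin G.n)).biUnion
    (fun e => (Finset.range (G.len e.1 e.2)).image (fun i => (e, i)))).filter
      (fun p => IsDart G p.1)) ?_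
  rintro ⟨e, i⟩
  simp only [Finset.mem_filter, Finset.mem_biUnion, Finset.mem_univ, true_and, Finset.mem_image,
    Finset.mem_range, Prod.mk.injEq]
  constructor
  · rintro ⟨⟨e', i', h1, rfl, rfl⟩, h2⟩
    exact ⟨h2, h1⟩
  · rintro ⟨h2, h1⟩
    exact ⟨⟨e, i, h1, rfl, rfl⟩, h2⟩

/-- the next unit dart in the face -/
def uφ : Equiv.Perm (UD G) where
  toFun p := if h : p.1.2 + 1 < G.len p.1.1.1 p.1.1.2 then ⟨(p.1.1, p.1.2 + 1), p.2.1, h⟩ else
    ⟨(G.faceNext p.1.1, 0), isDart_faceNext p.2.1, G.len_pos _ _ (isDart_faceNext p.2.1)⟩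
  invFun p := if h : p.1.2 = 0 then
    ⟨(G.faceNext.symm p.1.1, G.len (G.faceNext.symm p.1.1).1 (G.faceNext.symm p.1.1).2 - 1),
      isDart_faceNext_symm p.2.1,
      Nat.sub_lt (G.len_pos _ _ (isDart_faceNext_symm p.2.1)) Nat.one_pos⟩ else
    ⟨(p.1.1, p.1.2 - 1), p.2.1, lt_of_le_of_lt (Nat.sub_le _ _) p.2.2⟩
  left_inv := by
    rintro ⟨⟨e, i⟩, he, hi⟩
    dsimp only at he hi ⊢
    by_cases h : i + 1 < G.len e.1 e.2
    · rw [dif_pos h, dif_neg (by simp)]
      simp
    · rw [dif_neg h]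
      simp only [dif_pos, Subtype.mk.injEq, Prod.mk.injEq, Equiv.symm_apply_apply, true_and]
      omega
  right_inv := by
    rintro ⟨⟨e, i⟩, he, hi⟩
    dsimp only at he hi ⊢
    by_cases h : i = 0
    · rw [dif_pos h]
      have := G.len_pos _ _ (isDart_faceNext_symm he)
      rw [dif_neg (by dsimp only; omega)]
      simp [h]
    · rw [dif_neg h, dif_pos (by dsimp only; omega)]
      simp only [Subtype.mk.injEq, Prod.mk.injEq, true_and]
      omega

theorem uα_aux (p : UD G) : G.len p.1.1.1 p.1.1.2 - 1 - p.1.2 <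
    G.len p.1.1.swap.1 p.1.1.swap.2 := by
  have h1 := p.2.2
  rw [len_swap p.2.1]
  omega

/-- the reversed unit dart -/
def uα : Equiv.Perm (UD G) where
  toFun p := ⟨(p.1.1.swap, G.len p.1.1.1 p.1.1.2 - 1 - p.1.2), isDart_swap p.2.1, uα_aux G p⟩
  invFun p := ⟨(p.1.1.swap, G.len p.1.1.1 p.1.1.2 - 1 - p.1.2), isDart_swap p.2.1, uα_aux G p⟩
  left_inv := by
    rintro ⟨⟨e, i⟩, he, hi⟩
    dsimp only at he hi ⊢
    have h2 := len_swap he
    simp only [Subtype.mk.injEq, Prod.mk.injEq, Prod.swap_swap, true_and]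
    omega
  right_inv := by
    rintro ⟨⟨e, i⟩, he, hi⟩
    dsimp only at he hi ⊢
    have h2 := len_swap he
    simp only [Subtype.mk.injEq, Prod.mk.injEq, Prod.swap_swap, true_and]
    omega

/-- name of the tail vertex -/
def nm (p : UD G) : Fin G.n ⊕ ((Fin G.n × Fin G.n) × ℕ) :=
  if p.1.2 = 0 then Sum.inl p.1.1.1 else
    if p.1.1.1 < p.1.1.2 then Sum.inr p.1 else
      Sum.inr (p.1.1.swap, G.len p.1.1.1 p.1.1.2 - p.1.2)

variable {G}

theorem uφ_val (p : UD G) : (uφ G p).1 = if p.1.2 + 1 < G.len p.1.1.1 p.1.1.2 then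
    (p.1.1, p.1.2 + 1) else (G.faceNext p.1.1, 0) := by
  show (if h : p.1.2 + 1 < G.len p.1.1.1 p.1.1.2 then
    (⟨(p.1.1, p.1.2 + 1), p.2.1, h⟩ : UD G) else
    ⟨(G.faceNext p.1.1, 0), isDart_faceNext p.2.1, G.len_pos _ _ (isDart_faceNext p.2.1)⟩).1 = _
  split_ifs <;> rfl

theorem uφ_symm_val (p : UD G) : ((uφ G).symm p).1 = if p.1.2 = 0 then
    (G.faceNext.symm p.1.1, G.len (G.faceNext.symm p.1.1).1 (G.faceNext.symm p.1.1).2 - 1)
    else (p.1.1, p.1.2 - 1) := by
  show (if h : p.1.2 = 0 then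
    (⟨(G.faceNext.symm p.1.1, G.len (G.faceNext.symm p.1.1).1 (G.faceNext.symm p.1.1).2 - 1),
      isDart_faceNext_symm p.2.1,
      Nat.sub_lt (G.len_pos _ _ (isDart_faceNext_symm p.2.1)) Nat.one_pos⟩ : UD G) else
    ⟨(p.1.1, p.1.2 - 1), p.2.1, lt_of_le_of_lt (Nat.sub_le _ _) p.2.2⟩).1 = _
  split_ifs <;> rfl

theorem uα_val (p : UD G) : (uα G p).1 = (p.1.1.swap, G.len p.1.1.1 p.1.1.2 - 1 - p.1.2) := rfl

theorem nm_eq_iff (x y : UD G) : nm G x = nm G y ↔
    (x.1.2 = 0 ∧ y.1.2 = 0 ∧ x.1.1.1 = y.1.1.1) ∨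
    (x.1.2 ≠ 0 ∧ y.1.2 ≠ 0 ∧ (x = y ∨ (x.1.1 = y.1.1.swap ∧
      x.1.2 = G.len y.1.1.1 y.1.1.2 - y.1.2))) := by
  obtain ⟨⟨⟨u, v⟩, i⟩, he, hi⟩ := x
  obtain ⟨⟨⟨u', v'⟩, i'⟩, he', hi'⟩ := y
  have n1 : u ≠ v := isDart_ne he
  have n2 : u' ≠ v' := isDart_ne he'
  have l1 : G.len v u = G.len u v := len_swap he
  have l2 : G.len v' u' = G.len u' v' := len_swap he'
  have hi1 : i < G.len u v := hi
  have hi1' : i' < G.len u' v' := hi'
  dsimp only [Prod.swap, Prod.fst, Prod.snd]
  unfold nm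
  dsimp only [Prod.swap]
  by_cases h1 : i = 0
  · by_cases h2 : i' = 0
    · simp [h1, h2]
    · rw [if_pos h1, if_neg h2]
      split_ifs <;> simp [h1, h2]
  · by_cases h2 : i' = 0
    · rw [if_neg h1, if_pos h2]
      split_ifs <;> simp [h1, h2]
    · rw [if_neg h1, if_neg h2]
      simp only [h1, h2, false_and, false_or, ne_eq, not_false_eq_true, true_and,
        Subtype.mk.injEq, Prod.mk.injEq]
      split_ifs with h3 h4 h4 <;> simp only [Sum.inr.injEq, Prod.mk.injEq]
      · constructor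
        · exact fun h => Or.inl h
        · rintro (h | ⟨⟨h, h'⟩, h''⟩)
          · exact h
          · exfalso; subst h; subst h'; exact absurd h3 (not_lt.2 h4.le)
      · constructor
        · exact fun h => Or.inr h
        · rintro (⟨⟨h, h'⟩, h''⟩ | h)
          · exfalso; subst h; subst h'; exact h4 h3
          · exact h
      · constructor
        · rintro ⟨⟨h, h'⟩, h''⟩
          right
          subst h; subst h'
          refine ⟨⟨rfl, rfl⟩, ?_⟩
          omega
        · rintro (⟨⟨h, h'⟩, h''⟩ | ⟨⟨h, h'⟩, h''⟩)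
          · exfalso; subst h; subst h'; exact h3 h4
          · subst h; subst h'; refine ⟨⟨rfl, rfl⟩, ?_⟩; omega
      · constructor
        · rintro ⟨⟨h, h'⟩, h''⟩
          left
          subst h; subst h'
          refine ⟨⟨rfl, rfl⟩, ?_⟩
          omega
        · rintro (⟨⟨h, h'⟩, h''⟩ | ⟨⟨h, h'⟩, h''⟩)
          · subst h; subst h'; refine ⟨⟨rfl, rfl⟩, ?_⟩; omega
          · exfalso; subst h; subst h'
            rcases lt_or_gt_of_ne n1 with h5 | h5
            · exact h3 h5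
            · exact h4 h5

/-- the combinatorial map -/
def unitMap (G : PlaneGraph) (typ : Fin G.n → Bool) (X : Fin G.n → ℤ) (mv : Fin G.n → Fin G.n) :
    UM (UD G) where
  φ := uφ G
  α := uα G
  dir p := typ p.1.1.1
  lev p := X p.1.1.1 + if typ p.1.1.1 then (p.1.2 : ℤ) else -(p.1.2 : ℤ)
  A p := if p.1.2 = 0 then (if p.1.1.2 = mv p.1.1.1 then 2 else 0) else 1
  vt p := Encodable.encode (nm G p)
  S := Finset.univ

variable {typ : Fin G.n → Bool} {X : Fin G.n → ℤ} {mv : Fin G.n → Fin G.n}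

theorem vt_eq_iff (x y : UD G) : (unitMap G typ X mv).vt x = (unitMap G typ X mv).vt y ↔
    nm G x = nm G y := Encodable.encode_inj

theorem unitMap_sg_val (p : UD G) : ((unitMap G typ X mv).sg p).1 =
    if p.1.2 = 0 then (G.rot p.1.1, 0) else
      (p.1.1.swap, G.len p.1.1.1 p.1.1.2 - p.1.2) := by
  show (uα G ((uφ G).symm p)).1 = _
  rw [uα_val, uφ_symm_val]
  obtain ⟨⟨⟨u, v⟩, i⟩, he, hi⟩ := p
  have h1 := isDart_faceNext_symm he
  have := G.len_pos _ _ h1
  dsimp only at *
  split_ifs with h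
  · rw [faceNext_symm_apply, rot_apply]
    rw [faceNext_symm_apply] at this
    simp only [Prod.swap_prod_mk, Prod.mk.injEq, true_and]
    omega
  · simp only [Prod.mk.injEq, true_and]
    omega

/-- mountain assignment is a neighbour: sums at the original vertices -/
theorem unitMap_pre (hX : IsLevel G typ X) (hmv : ∀ v, mv v ∈ G.nbr v) :
    (unitMap G typ X mv).Pre := by
  have htyp : ∀ e, IsDart G e → typ e.2 = !typ e.1 := fun e he => hX.typ_ne _ _ he
  have hlevel : ∀ e, IsDart G e → X e.2 = X e.1 + if typ e.1 then (G.len e.1 e.2 : ℤ) else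
      -(G.len e.1 e.2 : ℤ) := by
    intro e he
    cases h : typ e.1
    · have h1 := hX.level e.2 e.1 (G.symm _ _ he) (by rw [htyp e he, h]; rfl)
      rw [← G.len_symm _ _ he] at h1
      simp only [Bool.false_eq_true, if_false]
      omega
    · have h1 := hX.level e.1 e.2 he h
      simp only [if_true]
      exact h1
  have hsgcl : ∀ (C : Finset (UD G)), (∀ x ∈ C, (unitMap G typ X mv).sg x ∈ C) →
      ∀ x ∈ C, ∀ y, (unitMap G typ X mv).vt y = (unitMap G typ X mv).vt x → y ∈ C := by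
    intro C hcl x hx y hxy
    rw [vt_eq_iff, nm_eq_iff] at hxy
    rcases hxy with ⟨h1, h2, h3⟩ | ⟨h1, h2, h3⟩
    · -- original vertex
      obtain ⟨⟨⟨u, v⟩, i⟩, he, hi⟩ := x
      obtain ⟨⟨⟨u', v'⟩, i'⟩, he', hi'⟩ := y
      dsimp only at h1 h2 h3
      subst h1 h2 h3
      have key : ∀ k : ℕ, ∀ (w : Fin G.n) (hw : IsDart G (u', w) ∧ 0 < G.len u' w),
          w = ((G.nbr u').formPerm ^ k) v → (⟨((u', w), 0), hw⟩ : UD G) ∈ C := by
        intro k
        induction k with
        | zero =>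
          intro w hw hwv
          have : w = v := hwv
          subst this
          exact hx
        | succ k ih =>
          intro w hw hwv
          rw [pow_succ', Equiv.Perm.mul_apply] at hwv
          have hz : IsDart G (u', ((G.nbr u').formPerm ^ k) v) := by
            have h4 : (G.nbr u').formPerm (((G.nbr u').formPerm ^ k) v) ∈ G.nbr u' := by
              rw [← hwv]; exact hw.1
            exact (List.formPerm_mem_iff_mem).1 h4
          have h5 := hcl _ (ih _ ⟨hz, G.len_pos _ _ hz⟩ rfl)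
          have h6 : (unitMap G typ X mv).sg ⟨((u', ((G.nbr u').formPerm ^ k) v), 0),
              ⟨hz, G.len_pos _ _ hz⟩⟩ = ⟨((u', w), 0), hw⟩ := by
            apply Subtype.ext
            rw [unitMap_sg_val]
            simp only [if_true]
            rw [rot_apply, hwv]
          rwa [h6] at h5
      -- same cycle
      have hcyc : ∃ k : ℕ, v' = ((G.nbr u').formPerm ^ k) v := by
        by_cases hlen : 2 ≤ (G.nbr u').length
        · have hp := List.pairwise_sameCycle_formPerm (G.nodup u') hlen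
          have hc := List.isCycle_formPerm (G.nodup u') hlen
          have hne : ∀ w ∈ G.nbr u', (G.nbr u').formPerm w ≠ w := by
            intro w hw
            exact (List.formPerm_apply_mem_ne_self_iff _ (G.nodup u') w hw).2 hlen
          obtain ⟨k, hk⟩ := (hc.sameCycle (hne v he) (hne v' he')).exists_nat_pow_eq
          exact ⟨k, hk.symm⟩
        · refine ⟨0, ?_⟩
          show v' = v
          have he1 : v ∈ G.nbr u' := he
          have he1' : v' ∈ G.nbr u' := he'
          match hn : G.nbr u', he1, he1', hlen with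
          | [], h, _, _ => simp at h
          | [z], h, h', _ =>
            rw [List.mem_singleton] at h h'
            rw [h, h']
          | _ :: _ :: _, _, _, h => simp at h
      obtain ⟨k, hk⟩ := hcyc
      exact key k v' ⟨he', hi'⟩ hk
    · rcases h3 with h3 | ⟨h3, h4⟩
      · rw [h3]; exact hx
      · have h5 := hcl x hx
        have h6 : (unitMap G typ X mv).sg x = y := by
          apply Subtype.ext
          rw [unitMap_sg_val, if_neg h2]
          exact Prod.ext h3.symm h4.symm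
        rwa [h6] at h5
  refine ⟨fun _ _ => Finset.mem_univ _, fun _ _ => Finset.mem_univ _, ?_, ?_, ?_, ?_, ?_, ?_, ?_,
    ?_, ?_⟩
  · intro d _
    exact (uα G).left_inv d
  · intro d _
    exact htyp _ d.2.1
  · intro d _
    show X (d.1.1.2) + (if typ d.1.1.2 then ((G.len d.1.1.1 d.1.1.2 - 1 - d.1.2 : ℕ) : ℤ) else
      -((G.len d.1.1.1 d.1.1.2 - 1 - d.1.2 : ℕ) : ℤ)) =
      X d.1.1.1 + (if typ d.1.1.1 then (d.1.2 : ℤ) else -(d.1.2 : ℤ)) +
        (if typ d.1.1.1 then 1 else -1)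
    rw [hlevel _ d.2.1, htyp _ d.2.1]
    have := d.2.2
    cases typ d.1.1.1 <;> simp <;> omega
  · intro x _ y _ hxy
    rw [vt_eq_iff, nm_eq_iff] at hxy
    show X x.1.1.1 + (if typ x.1.1.1 then (x.1.2 : ℤ) else -(x.1.2 : ℤ)) =
      X y.1.1.1 + (if typ y.1.1.1 then (y.1.2 : ℤ) else -(y.1.2 : ℤ))
    rcases hxy with ⟨h1, h2, h3⟩ | ⟨h1, h2, rfl | ⟨h3, h4⟩⟩
    · rw [h1, h2, h3]
    · rfl
    · rw [h3, h4]
      show X (y.1.1.2) + (if typ y.1.1.2 then ((G.len y.1.1.1 y.1.1.2 - y.1.2 : ℕ) : ℤ) else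
        -((G.len y.1.1.1 y.1.1.2 - y.1.2 : ℕ) : ℤ)) = _
      rw [hlevel _ y.2.1, htyp _ y.2.1]
      have := y.2.2
      cases typ y.1.1.1 <;> simp <;> omega
  · intro d _
    rw [vt_eq_iff, nm_eq_iff]
    obtain ⟨⟨⟨u, v⟩, i⟩, he, hi⟩ := d
    have hlen : G.len u v = G.len v u := G.len_symm _ _ he
    have hi' : i < G.len u v := hi
    have hαv : (uα G ⟨((u, v), i), he, hi⟩).1 = ((v, u), G.len u v - 1 - i) := rfl
    by_cases h : i + 1 < G.len u v
    · have hφv : (uφ G ⟨((u, v), i), he, hi⟩).1 = ((u, v), i + 1) := by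
        rw [uφ_val]; exact if_pos h
      right
      show (uφ G ⟨((u, v), i), he, hi⟩).1.2 ≠ 0 ∧ (uα G ⟨((u, v), i), he, hi⟩).1.2 ≠ 0 ∧
        ((uφ G ⟨((u, v), i), he, hi⟩) = (uα G ⟨((u, v), i), he, hi⟩) ∨
          ((uφ G ⟨((u, v), i), he, hi⟩).1.1 = (uα G ⟨((u, v), i), he, hi⟩).1.1.swap ∧
          (uφ G ⟨((u, v), i), he, hi⟩).1.2 = G.len (uα G ⟨((u, v), i), he, hi⟩).1.1.1
            (uα G ⟨((u, v), i), he, hi⟩).1.1.2 - (uα G ⟨((u, v), i), he, hi⟩).1.2))
      rw [hφv, hαv]
      refine ⟨by simp, ?_, Or.inr ⟨rfl, ?_⟩⟩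
      · show G.len u v - 1 - i ≠ 0
        omega
      · show i + 1 = G.len v u - (G.len u v - 1 - i)
        omega
    · have hφv : (uφ G ⟨((u, v), i), he, hi⟩).1 = (G.faceNext (u, v), 0) := by
        rw [uφ_val]; exact if_neg h
      left
      show (uφ G ⟨((u, v), i), he, hi⟩).1.2 = 0 ∧ (uα G ⟨((u, v), i), he, hi⟩).1.2 = 0 ∧
        (uφ G ⟨((u, v), i), he, hi⟩).1.1.1 = (uα G ⟨((u, v), i), he, hi⟩).1.1.1
      rw [hφv, hαv]
      refine ⟨rfl, ?_, rfl⟩
      show G.len u v - 1 - i = 0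
      omega
  · intro d _
    show (if (uφ G d).1.2 = 0 then (if (uφ G d).1.1.2 = mv (uφ G d).1.1.1 then 2 else 0) else 1) % 2
      = 1 ↔ typ (uφ G d).1.1.1 = typ d.1.1.1
    rw [uφ_val]
    by_cases h : d.1.2 + 1 < G.len d.1.1.1 d.1.1.2
    · rw [if_pos h]
      simp
    · rw [if_neg h]
      have h1 : (G.faceNext d.1.1).1 = d.1.1.2 := rfl
      rw [if_pos rfl, h1, htyp _ d.2.1]
      split_ifs <;> simp
  · intro d _
    by_cases h : d.1.2 = 0
    · obtain ⟨⟨⟨u, v⟩, i⟩, he, hi⟩ := d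
      dsimp only at h
      subst h
      have hm : IsDart G (u, mv u) := hmv u
      rw [Finset.sum_eq_single ⟨((u, mv u), 0), hm, G.len_pos _ _ hm⟩]
      · show (if 0 = 0 then (if mv u = mv u then 2 else 0) else 1) = 2
        simp
      · intro x hx hne
        rw [Finset.mem_filter] at hx
        rw [vt_eq_iff, nm_eq_iff] at hx
        rcases hx.2 with ⟨h1, h2, h3⟩ | ⟨h1, h2, h3⟩
        · show (if x.1.2 = 0 then (if x.1.1.2 = mv x.1.1.1 then 2 else 0) else 1) = 0
          rw [if_pos h1, if_neg]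
          intro h4
          apply hne
          apply Subtype.ext
          have h5 : x.1.1.1 = u := h3
          rw [h5] at h4
          exact Prod.ext (Prod.ext h5 h4) h1
        · exact absurd rfl h2
      · intro h1
        exfalso
        apply h1
        rw [Finset.mem_filter]
        refine ⟨Finset.mem_univ _, ?_⟩
        rw [vt_eq_iff, nm_eq_iff]
        exact Or.inl ⟨rfl, rfl, rfl⟩
    · -- subdivision vertex
      have hd' : IsDart G d.1.1.swap ∧ G.len d.1.1.1 d.1.1.2 - d.1.2 <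
          G.len d.1.1.swap.1 d.1.1.swap.2 := by
        refine ⟨isDart_swap d.2.1, ?_⟩
        have := len_swap d.2.1
        have := d.2.2
        omega
      let d' : UD G := ⟨(d.1.1.swap, G.len d.1.1.1 d.1.1.2 - d.1.2), hd'⟩
      have hne : d ≠ d' := by
        intro h1
        have h2 : d.1.1 = d.1.1.swap := congrArg (fun z : UD G => z.1.1) h1
        have h3 : d.1.1.1 = d.1.1.2 := congrArg Prod.fst h2
        exact isDart_ne d.2.1 h3
      have hset : (unitMap G typ X mv).S.filter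
          (fun x => (unitMap G typ X mv).vt x = (unitMap G typ X mv).vt d) = {d, d'} := by
        ext x
        rw [Finset.mem_filter, vt_eq_iff, nm_eq_iff, Finset.mem_insert, Finset.mem_singleton]
        constructor
        · rintro ⟨_, ⟨_, h1, _⟩ | ⟨_, _, h1 | ⟨h1, h2⟩⟩⟩
          · exact absurd h1 h
          · exact Or.inl h1
          · exact Or.inr (Subtype.ext (Prod.ext h1 h2))
        · rintro (rfl | rfl)
          · exact ⟨Finset.mem_univ _, Or.inr ⟨h, h, Or.inl rfl⟩⟩
          · refine ⟨Finset.mem_univ _, Or.inr ⟨?_, h, Or.inr ⟨rfl, rfl⟩⟩⟩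
            show G.len d.1.1.1 d.1.1.2 - d.1.2 ≠ 0
            have := d.2.2
            omega
      rw [hset, Finset.sum_pair hne]
      show (if d.1.2 = 0 then (if d.1.1.2 = mv d.1.1.1 then 2 else 0) else 1) +
        (if G.len d.1.1.1 d.1.1.2 - d.1.2 = 0 then (if d.1.1.1 = mv d.1.1.2 then 2 else 0) else 1)
          = 2
      have := d.2.2
      rw [if_neg h, if_neg (by omega)]
  · intro C _ hcl x hx y _ hxy
    exact hsgcl C hcl x hx y hxy
  · intro C _ hne hφ hα
    -- closed under sg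
    have hsg : ∀ z ∈ C, (unitMap G typ X mv).sg z ∈ C := by
      intro z hz
      exact hα _ (symm_mem_of_mapsTo C (uφ G) hφ z hz)
    have hcl := hsgcl C hsg
    -- going back and forth along an edge
    have hzero : ∀ (i : ℕ) (e : Fin G.n × Fin G.n) (h : IsDart G e ∧ i < G.len e.1 e.2),
        (⟨(e, i), h⟩ : UD G) ∈ C → ∀ h0, (⟨(e, 0), h0⟩ : UD G) ∈ C := by
      intro i
      induction i with
      | zero => intro e h hC h0; exact hC
      | succ i ih =>
        intro e h hC h0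
        have h1 : i < G.len e.1 e.2 := by omega
        have h2 := symm_mem_of_mapsTo C (uφ G) hφ _ hC
        have h3 : (uφ G).symm ⟨(e, i + 1), h⟩ = ⟨(e, i), h.1, h1⟩ := by
          apply Subtype.ext
          rw [uφ_symm_val]
          simp
        rw [h3] at h2
        exact ih e _ h2 h0
    have hup : ∀ (i : ℕ) (e : Fin G.n × Fin G.n) (h0 : IsDart G e ∧ 0 < G.len e.1 e.2),
        (⟨(e, 0), h0⟩ : UD G) ∈ C → ∀ h : IsDart G e ∧ i < G.len e.1 e.2,
          (⟨(e, i), h⟩ : UD G) ∈ C := by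
      intro i
      induction i with
      | zero => intro e h0 hC h; exact hC
      | succ i ih =>
        intro e h0 hC h
        have hi : i < G.len e.1 e.2 := by have := h.2; omega
        have h1 := ih e h0 hC ⟨h.1, hi⟩
        have h2 := hφ _ h1
        have h3 : (unitMap G typ X mv).φ ⟨(e, i), ⟨h.1, hi⟩⟩ = ⟨(e, i + 1), h⟩ := by
          apply Subtype.ext
          show (uφ G _).1 = _
          rw [uφ_val]
          simp only [if_pos h.2]
        rwa [h3] at h2
    have hrev : ∀ (e : Fin G.n × Fin G.n) (h0 : IsDart G e ∧ 0 < G.len e.1 e.2),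
        (⟨(e, 0), h0⟩ : UD G) ∈ C → ∀ h0', (⟨(e.swap, 0), h0'⟩ : UD G) ∈ C := by
      intro e h0 hC h0'
      have h1 : G.len e.1 e.2 - 1 < G.len e.1 e.2 := by omega
      have h2 := hα _ (hup (G.len e.1 e.2 - 1) e h0 hC ⟨h0.1, h1⟩)
      have h3 : (unitMap G typ X mv).α ⟨(e, G.len e.1 e.2 - 1), h0.1, h1⟩ = ⟨(e.swap, 0), h0'⟩ := by
        apply Subtype.ext
        show (uα G _).1 = _
        rw [uα_val]
        simp
      rwa [h3] at h2
    obtain ⟨x, hx⟩ := hne
    -- all vertices reachable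
    have hreach : ∀ v, Relation.ReflTransGen (fun a b => b ∈ G.nbr a) x.1.1.1 v →
        ∀ w (h : IsDart G (v, w) ∧ 0 < G.len v w), (⟨((v, w), 0), h⟩ : UD G) ∈ C := by
      intro v hv
      induction hv with
      | refl =>
        intro w h
        have h1 := hzero x.1.2 x.1.1 x.2 hx ⟨x.2.1, G.len_pos _ _ x.2.1⟩
        apply hcl _ h1
        rw [vt_eq_iff, nm_eq_iff]
        exact Or.inl ⟨rfl, rfl, rfl⟩
      | tail _ hab ih =>
        rename_i p q _
        intro w h
        have hpq : IsDart G (p, q) := hab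
        have h1 := ih q ⟨hpq, G.len_pos _ _ hpq⟩
        have hqp : IsDart G (q, p) := G.symm _ _ hpq
        have h2 := hrev (p, q) _ h1 ⟨hqp, G.len_pos _ _ hqp⟩
        apply hcl _ h2
        rw [vt_eq_iff, nm_eq_iff]
        exact Or.inl ⟨rfl, rfl, rfl⟩
    apply Finset.eq_univ_of_forall
    intro y
    have h1 := hreach y.1.1.1 (G.connected _ _) y.1.1.2 ⟨y.2.1, G.len_pos _ _ y.2.1⟩
    exact hup y.1.2 y.1.1 _ h1 y.2

end Pool.Agent.FlatFold
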