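import Mathlib
import Pool.Agent.Lib.MP_b92007_lc.UnitMap

/-! The faces of the combinatorial map with unit edges. -/

set_option linter.unusedSectionVars false
set_option linter.unusedVariables false

namespace Pool.Agent.FlatFold

open PlaneGraph

theorem map_toList {α : Type} [Fintype α] [DecidableEq α] (f : Equiv.Perm α) (x : α) :
    (f.toList x).map f = (f.toList x).rotate 1 := by
  have h1 := Equiv.Perm.toList_pow_apply_eq_rotate f x 1
  rw [pow_one] at h1
  rw [← h1]
  apply List.ext_getElem
  · rw [List.length_map, h1, List.length_rotate]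
  · intro i hi hi'
    rw [List.getElem_map, Equiv.Perm.getElem_toList, Equiv.Perm.getElem_toList,
      ← Equiv.Perm.mul_apply, ← Equiv.Perm.mul_apply, ← pow_succ', pow_succ]

/-- representatives of the cycles inside a closed set -/
theorem exists_reps {α : Type} [Fintype α] [DecidableEq α] (f : Equiv.Perm α) :
    ∀ (n : ℕ) (R : Finset α), R.card ≤ n → (∀ x ∈ R, f x ∈ R) → (∀ x ∈ R, f x ≠ x) →
      ∃ L : List α, (∀ e ∈ L, e ∈ R) ∧ (L.map f.toList).flatten.Nodup ∧
        ∀ x, x ∈ R ↔ x ∈ (L.map f.toList).flatten := by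
  intro n
  induction n with
  | zero =>
    intro R hR _ _
    refine ⟨[], by simp, by simp, ?_⟩
    intro x
    have : R = ∅ := by
      rw [← Finset.card_eq_zero]; omega
    simp [this]
  | succ n ih =>
    intro R hR hcl hne
    by_cases hemp : R = ∅
    · refine ⟨[], by simp, by simp, ?_⟩
      intro x; simp [hemp]
    · obtain ⟨e, he⟩ := Finset.nonempty_iff_ne_empty.2 hemp
      have hcl' := perm_mem_iff R f hcl
      have hsub : ∀ x, f.SameCycle e x → x ∈ R := by
        rintro x ⟨i, rfl⟩
        have hz : ∀ n : ℕ, ∀ z ∈ R, (f ^ n) z ∈ R ∧ (f⁻¹ ^ n) z ∈ R := by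
          intro n
          induction n with
          | zero => intro z hz; exact ⟨hz, hz⟩
          | succ n ih =>
            intro z hz
            constructor
            · rw [pow_succ', Equiv.Perm.mul_apply]
              exact hcl _ (ih z hz).1
            · rw [pow_succ', Equiv.Perm.mul_apply, ← hcl']
              simpa using (ih z hz).2
        cases i with
        | ofNat n => simpa using (hz n e he).1
        | negSucc n =>
          rw [zpow_negSucc, ← inv_pow]
          exact (hz (n + 1) e he).2
      have hR' : (R.filter (fun x => ¬ f.SameCycle e x)).card ≤ n := by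
        have : (R.filter (fun x => ¬ f.SameCycle e x)).card < R.card := by
          apply Finset.card_lt_card
          rw [Finset.filter_ssubset]
          exact ⟨e, he, not_not.2 (Equiv.Perm.SameCycle.refl _ _)⟩
        omega
      obtain ⟨L, hL1, hL2, hL3⟩ := ih (R.filter (fun x => ¬ f.SameCycle e x)) hR' (by
        intro x hx
        rw [Finset.mem_filter] at hx ⊢
        refine ⟨hcl x hx.1, ?_⟩
        rw [Equiv.Perm.sameCycle_apply_right]
        exact hx.2) (fun x hx => hne x (Finset.mem_filter.1 hx).1)
      have hmem : ∀ x, x ∈ f.toList e ↔ f.SameCycle e x := by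
        intro x
        rw [Equiv.Perm.mem_toList_iff]
        constructor
        · exact fun h => h.1
        · intro h; exact ⟨h, Equiv.Perm.mem_support.2 (hne e he)⟩
      refine ⟨e :: L, ?_, ?_, ?_⟩
      · intro x hx
        rw [List.mem_cons] at hx
        rcases hx with rfl | hx
        · exact he
        · exact (Finset.mem_filter.1 (hL1 x hx)).1
      · rw [List.map_cons, List.flatten_cons, List.nodup_append]
        refine ⟨Equiv.Perm.nodup_toList _ _, hL2, ?_⟩
        rintro a ha b hb rfl
        rw [← hL3, Finset.mem_filter] at hb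
        exact hb.2 ((hmem a).1 ha)
      · intro x
        rw [List.map_cons, List.flatten_cons, List.mem_append, ← hL3, Finset.mem_filter, hmem]
        constructor
        · intro hx
          by_cases h : f.SameCycle e x
          · exact Or.inl h
          · exact Or.inr ⟨hx, h⟩
        · rintro (h | h)
          · exact hsub x h
          · exact h.1

/-- representatives of the cycles inside a closed set, with a given first one -/
theorem exists_reps_cons {α : Type} [Fintype α] [DecidableEq α] (f : Equiv.Perm α)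
    (R : Finset α) (hcl : ∀ x ∈ R, f x ∈ R) (hne : ∀ x ∈ R, f x ≠ x) (e : α) (he : e ∈ R) :
    ∃ L : List α, (∀ x ∈ L, x ∈ R ∧ ¬ f.SameCycle x e) ∧ ((e :: L).map f.toList).flatten.Nodup ∧
      ∀ x, x ∈ R ↔ x ∈ ((e :: L).map f.toList).flatten := by
  have hcl' := perm_mem_iff R f hcl
  have hsub : ∀ x, f.SameCycle e x → x ∈ R := by
    rintro x ⟨i, rfl⟩
    have hz : ∀ n : ℕ, ∀ z ∈ R, (f ^ n) z ∈ R ∧ (f⁻¹ ^ n) z ∈ R := by
      intro n
      induction n with
      | zero => intro z hz; exact ⟨hz, hz⟩
      | succ n ih =>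
        intro z hz
        constructor
        · rw [pow_succ', Equiv.Perm.mul_apply]
          exact hcl _ (ih z hz).1
        · rw [pow_succ', Equiv.Perm.mul_apply, ← hcl']
          simpa using (ih z hz).2
    cases i with
    | ofNat n => simpa using (hz n e he).1
    | negSucc n =>
      rw [zpow_negSucc, ← inv_pow]
      exact (hz (n + 1) e he).2
  obtain ⟨L, hL1, hL2, hL3⟩ := exists_reps f _ (R.filter (fun x => ¬ f.SameCycle e x)) le_rfl (by
    intro x hx
    rw [Finset.mem_filter] at hx ⊢
    refine ⟨hcl x hx.1, ?_⟩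
    rw [Equiv.Perm.sameCycle_apply_right]
    exact hx.2) (fun x hx => hne x (Finset.mem_filter.1 hx).1)
  have hmem : ∀ x, x ∈ f.toList e ↔ f.SameCycle e x := by
    intro x
    rw [Equiv.Perm.mem_toList_iff]
    constructor
    · exact fun h => h.1
    · intro h; exact ⟨h, Equiv.Perm.mem_support.2 (hne e he)⟩
  refine ⟨L, ?_, ?_, ?_⟩
  · intro x hx
    have := Finset.mem_filter.1 (hL1 x hx)
    exact ⟨this.1, fun h => this.2 h.symm⟩
  · rw [List.map_cons, List.flatten_cons, List.nodup_append]
    refine ⟨Equiv.Perm.nodup_toList _ _, hL2, ?_⟩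
    rintro a ha b hb rfl
    rw [← hL3, Finset.mem_filter] at hb
    exact hb.2 ((hmem a).1 ha)
  · intro x
    rw [List.map_cons, List.flatten_cons, List.mem_append, ← hL3, Finset.mem_filter, hmem]
    constructor
    · intro hx
      by_cases h : f.SameCycle e x
      · exact Or.inl h
      · exact Or.inr ⟨hx, h⟩
    · rintro (h | h)
      · exact hsub x h
      · exact h.1

variable {G : PlaneGraph}

theorem faceNext_ne {e : Fin G.n × Fin G.n} (h : IsDart G e) : G.faceNext e ≠ e := by
  intro h1
  have h2 : (G.faceNext e).1 = e.2 := rfl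
  rw [h1] at h2
  exact isDart_ne h h2

variable (G)

/-- raw unit darts of a dart -/
def rseg (e : Fin G.n × Fin G.n) : List ((Fin G.n × Fin G.n) × ℕ) :=
  (List.range (G.len e.1 e.2)).map (fun i => (e, i))

/-- tail of `rseg` -/
def rtl (e : Fin G.n × Fin G.n) : List ((Fin G.n × Fin G.n) × ℕ) :=
  (List.range (G.len e.1 e.2 - 1)).map (fun i => (e, i + 1))

/-- raw version of `uφ` -/
def rφ (p : (Fin G.n × Fin G.n) × ℕ) : (Fin G.n × Fin G.n) × ℕ :=
  if p.2 + 1 < G.len p.1.1 p.1.2 then (p.1, p.2 + 1) else (G.faceNext p.1, 0)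

/-- raw face -/
def rface (e : Fin G.n × Fin G.n) : List ((Fin G.n × Fin G.n) × ℕ) :=
  (G.faceNext.toList e).flatMap (rseg G)

variable {G}

theorem rseg_eq {e : Fin G.n × Fin G.n} (h : IsDart G e) : rseg G e = (e, 0) :: rtl G e := by
  unfold rseg rtl
  obtain ⟨n, hn⟩ : ∃ n, G.len e.1 e.2 = n + 1 :=
    ⟨G.len e.1 e.2 - 1, by have := G.len_pos _ _ h; omega⟩
  rw [hn, List.range_succ_eq_map, List.map_cons, List.map_map, Nat.add_sub_cancel]
  rfl

theorem rseg_map {e : Fin G.n × Fin G.n} (h : IsDart G e) :
    (rseg G e).map (rφ G) = rtl G e ++ [(G.faceNext e, 0)] := by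
  unfold rseg rtl
  obtain ⟨n, hn⟩ : ∃ n, G.len e.1 e.2 = n + 1 :=
    ⟨G.len e.1 e.2 - 1, by have := G.len_pos _ _ h; omega⟩
  rw [hn, List.range_succ, List.map_append, List.map_append, Nat.add_sub_cancel, List.map_map]
  congr 1
  · apply List.map_congr_left
    intro i hi
    rw [List.mem_range] at hi
    show rφ G (e, i) = _
    unfold rφ
    dsimp only
    rw [hn, if_pos (by omega)]
  · show [rφ G (e, n)] = _
    unfold rφ
    dsimp only
    rw [hn, if_neg (by omega)]

theorem flatMap_step {α β : Type} (f : α → α) (hd : α → β) (tl : α → List β) :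
    ∀ (L : List α) (e z : α), (e :: L).map f = L ++ [z] →
      (e :: L).flatMap (fun x => tl x ++ [hd (f x)]) =
        tl e ++ L.flatMap (fun x => hd x :: tl x) ++ [hd z] := by
  intro L
  induction L with
  | nil =>
    intro e z h
    simp only [List.map_cons, List.map_nil, List.nil_append, List.cons.injEq, and_true] at h
    simp [h]
  | cons e' L ih =>
    intro e z h
    rw [List.map_cons, List.cons_append, List.cons.injEq] at h
    rw [List.flatMap_cons, ih e' z h.2, h.1, List.flatMap_cons]
    simp

theorem flatten_map_flatMap {α β γ : Type} (f : α → List β) (g : β → List γ) (L : List α) :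
    ((L.map f).flatten).flatMap g = (L.map (fun x => (f x).flatMap g)).flatten := by
  induction L with
  | nil => rfl
  | cons x L ih => simp [ih]

theorem rface_map {e : Fin G.n × Fin G.n} (h : IsDart G e) :
    (rface G e).map (rφ G) = (rface G e).rotate 1 := by
  have hdart : ∀ x ∈ G.faceNext.toList e, IsDart G x := by
    intro x hx
    rw [Equiv.Perm.mem_toList_iff] at hx
    obtain ⟨k, rfl⟩ := hx.1.exists_nat_pow_eq
    clear hx
    induction k with
    | zero => exact h
    | succ k ih =>
      rw [pow_succ', Equiv.Perm.mul_apply]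
      exact isDart_faceNext ih
  unfold rface
  rw [List.map_flatMap]
  have h1 : (G.faceNext.toList e).flatMap (fun a => (rseg G a).map (rφ G)) =
      (G.faceNext.toList e).flatMap (fun x => rtl G x ++ [(G.faceNext x, 0)]) := by
    apply List.flatMap_congr
    intro x hx
    exact rseg_map (hdart x hx)
  have h2 : (G.faceNext.toList e).flatMap (rseg G) =
      (G.faceNext.toList e).flatMap (fun x => (x, 0) :: rtl G x) := by
    apply List.flatMap_congr
    intro x hx
    exact rseg_eq (hdart x hx)
  rw [h1, h2]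
  have hmap := map_toList G.faceNext e
  cases hL : G.faceNext.toList e with
  | nil => rfl
  | cons x L =>
    rw [hL, List.rotate_cons_succ, List.rotate_zero] at hmap
    have := flatMap_step G.faceNext (fun x => ((x, 0) : (Fin G.n × Fin G.n) × ℕ)) (rtl G) L x x hmap
    rw [this, List.flatMap_cons, List.cons_append, List.rotate_cons_succ, List.rotate_zero]

theorem mem_rseg {e : Fin G.n × Fin G.n} {p : (Fin G.n × Fin G.n) × ℕ} :
    p ∈ rseg G e ↔ p.1 = e ∧ p.2 < G.len e.1 e.2 := by
  unfold rseg
  rw [List.mem_map]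
  constructor
  · rintro ⟨i, hi, rfl⟩
    exact ⟨rfl, List.mem_range.1 hi⟩
  · rintro ⟨h1, h2⟩
    exact ⟨p.2, List.mem_range.2 h2, by rw [← h1]⟩

theorem isDart_of_mem_toList {e x : Fin G.n × Fin G.n} (h : IsDart G e)
    (hx : x ∈ G.faceNext.toList e) : IsDart G x := by
  rw [Equiv.Perm.mem_toList_iff] at hx
  obtain ⟨k, rfl⟩ := hx.1.exists_nat_pow_eq
  clear hx
  induction k with
  | zero => exact h
  | succ k ih =>
    rw [pow_succ', Equiv.Perm.mul_apply]
    exact isDart_faceNext ih

theorem rface_mem {e : Fin G.n × Fin G.n} (h : IsDart G e) :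
    ∀ p ∈ rface G e, IsDart G p.1 ∧ p.2 < G.len p.1.1 p.1.2 := by
  intro p hp
  unfold rface at hp
  rw [List.mem_flatMap] at hp
  obtain ⟨x, hx, hp⟩ := hp
  rw [mem_rseg] at hp
  rw [hp.1]
  exact ⟨isDart_of_mem_toList h hx, hp.2⟩

/-- the face of a dart as a list of unit darts -/
def uface (e : {e : Fin G.n × Fin G.n // IsDart G e}) : List (UD G) :=
  (rface G e.1).attachWith _ (rface_mem e.2)

theorem uface_val (e : {e : Fin G.n × Fin G.n // IsDart G e}) :
    (uface e).map Subtype.val = rface G e.1 := List.attachWith_map_subtype_val _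

theorem uface_cyc (e : {e : Fin G.n × Fin G.n // IsDart G e}) :
    (uface e).map (uφ G) = (uface e).rotate 1 := by
  have hinj : Function.Injective (List.map (Subtype.val : UD G → _)) :=
    List.map_injective_iff.2 Subtype.val_injective
  apply hinj
  rw [List.map_rotate, uface_val, ← rface_map e.2, ← uface_val e, List.map_map, List.map_map]
  apply List.map_congr_left
  intro p _
  exact uφ_val p

theorem uface_word (typ : Fin G.n → Bool) (X : Fin G.n → ℤ) (mv : Fin G.n → Fin G.n)
    (e : {e : Fin G.n × Fin G.n // IsDart G e}) :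
    (uface e).map (unitMap G typ X mv).A = unitWord (faceCyc G mv e.1) := by
  have h1 : (uface e).map (unitMap G typ X mv).A = ((uface e).map Subtype.val).map
      (fun p => if p.2 = 0 then (if p.1.2 = mv p.1.1 then 2 else 0) else 1) := by
    rw [List.map_map]; rfl
  rw [h1, uface_val]
  unfold rface unitWord faceCyc
  rw [List.map_flatMap, List.flatMap_map]
  apply List.flatMap_congr
  intro x hx
  have hd := isDart_of_mem_toList e.2 hx
  rw [rseg_eq hd, List.map_cons]
  congr 1
  · simp only [if_true]
    unfold sgn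
    split_ifs <;> simp
  · unfold rtl
    rw [List.map_map, List.eq_replicate_iff]
    constructor
    · simp
    · intro b hb
      rw [List.mem_map] at hb
      obtain ⟨i, _, rfl⟩ := hb
      simp

theorem exists_faces (typ : Fin G.n → Bool) (X : Fin G.n → ℤ) (mv : Fin G.n → Fin G.n) :
    ∃ L : List {e : Fin G.n × Fin G.n // IsDart G e},
      (∀ e ∈ L, ¬ G.faceNext.SameCycle e.1 G.outer) ∧
      (unitMap G typ X mv).Faces (uface ⟨G.outer, G.outer_mem⟩ :: L.map uface) := by
  obtain ⟨L0, h1, h2, h3⟩ := exists_reps_cons G.faceNext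
    (Finset.univ.filter (fun e => IsDart G e)) (by
      intro x hx
      rw [Finset.mem_filter] at hx ⊢
      exact ⟨Finset.mem_univ _, isDart_faceNext hx.2⟩) (by
      intro x hx
      exact faceNext_ne (Finset.mem_filter.1 hx).2) G.outer (by
      rw [Finset.mem_filter]; exact ⟨Finset.mem_univ _, G.outer_mem⟩)
  have hdart : ∀ e ∈ L0, IsDart G e := fun e he => (Finset.mem_filter.1 (h1 e he).1).2
  let L := L0.attachWith (fun e => IsDart G e) hdart
  have hLv : L.map Subtype.val = L0 := List.attachWith_map_subtype_val _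
  refine ⟨L, ?_, ?_, ?_, ?_⟩
  · intro e he
    have : e.1 ∈ L0 := by rw [← hLv]; exact List.mem_map_of_mem he
    exact (h1 _ this).2
  · -- nodup
    apply List.Nodup.of_map (Subtype.val : UD G → _)
    have e1 : (uface ⟨G.outer, G.outer_mem⟩ :: L.map uface).flatten.map (Subtype.val : UD G → _) =
        (((G.outer :: L0).map G.faceNext.toList).flatten).flatMap (rseg G) := by
      rw [List.map_flatten, List.map_cons, List.map_map, uface_val, List.map_cons,
        List.flatten_cons, List.flatten_cons, List.flatMap_append]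
      congr 1
      rw [← hLv, flatten_map_flatMap, List.map_map]
      congr 1
      apply List.map_congr_left
      intro e _
      exact uface_val e
    rw [e1, List.nodup_flatMap]
    constructor
    · intro x _
      unfold rseg
      apply List.Nodup.map _ List.nodup_range
      intro i j hij
      exact (Prod.mk.injEq _ _ _ _ ▸ hij).2
    · apply List.Pairwise.imp _ h2
      intro x y hxy
      show List.Disjoint (rseg G x) (rseg G y)
      intro p hp hp'
      rw [mem_rseg] at hp hp'
      exact hxy (hp.1.symm.trans hp'.1)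
  · intro x
    constructor
    · intro _
      have hx : x.1.1 ∈ ((G.outer :: L0).map G.faceNext.toList).flatten := by
        rw [← h3, Finset.mem_filter]
        exact ⟨Finset.mem_univ _, x.2.1⟩
      rw [List.map_cons, List.flatten_cons, List.mem_append] at hx
      rw [List.flatten_cons, List.mem_append]
      rcases hx with hx | hx
      · left
        unfold uface
        rw [List.mem_attachWith]
        exact List.mem_flatMap.2 ⟨x.1.1, hx, mem_rseg.2 ⟨rfl, x.2.2⟩⟩
      · right
        rw [List.mem_flatten] at hx ⊢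
        obtain ⟨l, hl, hxl⟩ := hx
        rw [List.mem_map] at hl
        obtain ⟨e, he, rfl⟩ := hl
        rw [← hLv, List.mem_map] at he
        obtain ⟨e', he', rfl⟩ := he
        refine ⟨uface e', List.mem_map_of_mem he', ?_⟩
        unfold uface
        rw [List.mem_attachWith]
        exact List.mem_flatMap.2 ⟨x.1.1, hxl, mem_rseg.2 ⟨rfl, x.2.2⟩⟩
    · intro _
      exact Finset.mem_univ _
  · intro l hl
    rw [List.mem_cons] at hl
    rcases hl with rfl | hl
    · exact uface_cyc _
    · rw [List.mem_map] at hl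
      obtain ⟨e, _, rfl⟩ := hl
      exact uface_cyc _

theorem sum_unitWord (c : List (ℤ × ℕ)) (hpos : ∀ p ∈ c, 0 < p.2)
    (hs : ∀ p ∈ c, p.1 = 1 ∨ p.1 = -1) :
    (((unitWord c).sum : ℕ) : ℤ) = (unitWord c).length + (c.map Prod.fst).sum := by
  induction c with
  | nil => simp [unitWord]
  | cons p c ih =>
    have h1 := ih (fun q hq => hpos q (List.mem_cons_of_mem _ hq))
      (fun q hq => hs q (List.mem_cons_of_mem _ hq))
    have h2 := hpos p List.mem_cons_self
    have h3 := hs p List.mem_cons_self
    have e : unitWord (p :: c) = ((p.1 + 1).toNat :: List.replicate (p.2 - 1) 1) ++ unitWord c :=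
      rfl
    rw [e]
    simp only [List.sum_append, List.sum_cons, List.sum_replicate, smul_eq_mul, mul_one,
      List.length_append, List.length_cons, List.length_replicate, List.map_cons]
    rcases h3 with h3 | h3
    · have h4 : (p.1 + 1).toNat = 2 := by rw [h3]; rfl
      rw [h4, h3]
      omega
    · have h4 : (p.1 + 1).toNat = 0 := by rw [h3]; rfl
      rw [h4, h3]
      omega

theorem faceCyc_pos (mv : Fin G.n → Fin G.n) {e : Fin G.n × Fin G.n} (h : IsDart G e) :
    ∀ p ∈ faceCyc G mv e, 0 < p.2 := by
  intro p hp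
  unfold faceCyc at hp
  rw [List.mem_map] at hp
  obtain ⟨x, hx, rfl⟩ := hp
  exact G.len_pos _ _ (isDart_of_mem_toList h hx)

theorem faceCyc_sgn (mv : Fin G.n → Fin G.n) (e : Fin G.n × Fin G.n) :
    ∀ p ∈ faceCyc G mv e, p.1 = 1 ∨ p.1 = -1 := by
  intro p hp
  unfold faceCyc at hp
  rw [List.mem_map] at hp
  obtain ⟨x, hx, rfl⟩ := hp
  show sgn mv x = 1 ∨ sgn mv x = -1
  unfold sgn
  split_ifs <;> simp

theorem faceCyc_ne_nil (mv : Fin G.n → Fin G.n) {e : Fin G.n × Fin G.n} (h : IsDart G e) :
    faceCyc G mv e ≠ [] := by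
  unfold faceCyc
  rw [Ne, List.map_eq_nil_iff, Equiv.Perm.toList_eq_nil_iff, not_not, Equiv.Perm.mem_support]
  exact faceNext_ne h

theorem flatMap_isRotated {α β : Type} (f : α → List β) {l l' : List α} (h : l ~r l') :
    l.flatMap f ~r l'.flatMap f := by
  obtain ⟨n, rfl⟩ := h
  have h1 : l.rotate n = l.rotate (n % l.length) := (List.rotate_mod l n).symm
  rw [h1]
  by_cases hl : l = []
  · subst hl; simp
  · have hlt : n % l.length ≤ l.length :=
      (Nat.mod_lt _ (List.length_pos_iff.2 hl)).le
    rw [List.rotate_eq_drop_append_take hlt, List.flatMap_append]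
    conv_lhs => rw [← List.take_append_drop (n % l.length) l, List.flatMap_append]
    exact List.isRotated_append

theorem faceCyc_isRotated (mv : Fin G.n → Fin G.n) {d e : Fin G.n × Fin G.n}
    (h : G.faceNext.SameCycle d e) : faceCyc G mv d ~r faceCyc G mv e := by
  unfold faceCyc
  obtain ⟨n, hn⟩ := Equiv.Perm.SameCycle.toList_isRotated h
  refine ⟨n, ?_⟩
  rw [← List.map_rotate, hn]

/-- a good mountain assignment gives a folded state -/
theorem exists_folded {typ : Fin G.n → Bool} {X : Fin G.n → ℤ} (hX : IsLevel G typ X)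
    (mv : Fin G.n → Fin G.n) (h : MVGoodW G mv)
    (hsumAlg : ∀ (target : ℤ) (k : ℕ) (c : List (ℤ × ℕ)), algGood target k c →
      (c.map Prod.fst).sum = target) :
    ∃ h, (unitMap G typ X mv).Folded h := by
  classical
  obtain ⟨L, hL, hF⟩ := exists_faces (G := G) typ X mv
  refine UM.fold_main _ (unitMap G typ X mv) (uface ⟨G.outer, G.outer_mem⟩) (L.map uface)
    (unitMap_pre hX h.1) hF le_rfl ?_ ?_ ?_
  · intro l hl
    rw [List.mem_map] at hl
    obtain ⟨e, he, rfl⟩ := hl
    rw [uface_word]
    obtain ⟨d, hd, h1⟩ := h.2 e.1 e.2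
    rw [if_neg (hL e he)] at h1
    have hdd : IsDart G d := isDart_of_mem_toList e.2 (by
      rw [Equiv.Perm.mem_toList_iff, Equiv.Perm.mem_support]
      exact ⟨hd, faceNext_ne e.2⟩)
    exact Relation.ReflTransGen.head
      (ZipStep.rot _ _ (flatMap_isRotated _ (faceCyc_isRotated mv hd)))
      (reduces_of_algGood_inner _ (faceCyc_pos mv hdd) (faceCyc_sgn mv d)
        (faceCyc_ne_nil mv hdd) _ h1)
  · rw [uface_word]
    obtain ⟨d, hd, h1⟩ := h.2 G.outer G.outer_mem
    rw [if_pos (Equiv.Perm.SameCycle.refl _ _)] at h1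
    have hdd : IsDart G d := isDart_of_mem_toList G.outer_mem (by
      rw [Equiv.Perm.mem_toList_iff, Equiv.Perm.mem_support]
      exact ⟨hd, faceNext_ne G.outer_mem⟩)
    obtain ⟨w, hw1, hw2⟩ := reduces_of_algGood_outer _ (faceCyc_pos mv hdd) (faceCyc_sgn mv d)
        (faceCyc_ne_nil mv hdd) _ h1
    exact ⟨w, Relation.ReflTransGen.head
      (ZipStep.rot _ _ (flatMap_isRotated _ (faceCyc_isRotated mv hd))) hw1, hw2⟩
  · obtain ⟨d, hd, h1⟩ := h.2 G.outer G.outer_mem
    rw [if_pos (Equiv.Perm.SameCycle.refl _ _)] at h1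
    have h2 := hsumAlg _ _ _ h1
    have h3 := sum_unitWord (faceCyc G mv G.outer) (faceCyc_pos mv G.outer_mem)
      (faceCyc_sgn mv _)
    have h4 : ((faceCyc G mv G.outer).map Prod.fst).sum = 2 := by
      rw [← h2]
      exact ((faceCyc_isRotated mv hd).perm.map _).sum_eq
    rw [h4, ← uface_word typ X mv ⟨G.outer, G.outer_mem⟩, List.length_map] at h3
    exact_mod_cast h3

/-- the sum of the signs of a face -/
theorem sum_faceCyc_of_mvGoodW (mv : Fin G.n → Fin G.n) (h : MVGoodW G mv)
    (hsumAlg : ∀ (target : ℤ) (k : ℕ) (c : List (ℤ × ℕ)), algGood target k c →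
      (c.map Prod.fst).sum = target) (e : Fin G.n × Fin G.n) (he : IsDart G e)
    (hne : ¬ G.faceNext.SameCycle e G.outer) : ((faceCyc G mv e).map Prod.fst).sum = -2 := by
  classical
  obtain ⟨d, hd, h1⟩ := h.2 e he
  rw [if_neg hne] at h1
  rw [← hsumAlg _ _ _ h1]
  exact ((faceCyc_isRotated mv hd).perm.map _).sum_eq

end Pool.Agent.FlatFold
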