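import Mathlib
import Pool.Agent.Lib.MP_b92007_lc.UnitFaces
import Pool.Agent.Lib.MP_b92007_lc.SortEnum

/-! From a folded state of the unit map to a sweep. -/

set_option linter.unusedSectionVars false
set_option linter.unusedVariables false

namespace Pool.Agent.FlatFold

open PlaneGraph

variable {G : PlaneGraph}

/-- the level of the tail of a unit dart -/
def lv (typ : Fin G.n → Bool) (X : Fin G.n → ℤ) (d : UD G) : ℤ :=
  X d.1.1.1 + if typ d.1.1.1 then (d.1.2 : ℤ) else -(d.1.2 : ℤ)

/-- the edge of a unit dart as (left end, right end) -/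
def ed (typ : Fin G.n → Bool) (d : UD G) : Fin G.n × Fin G.n :=
  if typ d.1.1.1 then d.1.1 else d.1.1.swap

/-- darts of direction `b` with tail level `x` -/
def DS (typ : Fin G.n → Bool) (X : Fin G.n → ℤ) (b : Bool) (x : ℤ) : Finset (UD G) :=
  Finset.univ.filter (fun d => typ d.1.1.1 = b ∧ lv typ X d = x)

/-- height with sign -/
def hb (b : Bool) (h : UD G → ℤ) (d : UD G) : ℤ := if b then h d else - h d

/-- the neighbours in counterclockwise order, the mountain is after the last one -/
def ordv (mv : Fin G.n → Fin G.n) (v : Fin G.n) : List (Fin G.n) :=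
  (G.nbr v).rotate ((G.nbr v).idxOf (mv v) + 1)

/-- first unit dart of a dart -/
def zd (v w : Fin G.n) (hw : w ∈ G.nbr v) : UD G := ⟨((v, w), 0), hw, G.len_pos _ _ hw⟩

theorem mem_ordv (mv : Fin G.n → Fin G.n) (v w : Fin G.n) : w ∈ ordv mv v ↔ w ∈ G.nbr v :=
  List.mem_rotate

/-- the unit darts at an original vertex in counterclockwise order -/
def blk (mv : Fin G.n → Fin G.n) (v : Fin G.n) : List (UD G) :=
  (ordv mv v).pmap (fun w hw => zd v w hw) (fun w hw => (mem_ordv mv v w).1 hw)

/-- the unit darts at an original vertex -/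
def clv (v : Fin G.n) : Finset (UD G) := Finset.univ.filter (fun d => d.1.2 = 0 ∧ d.1.1.1 = v)

theorem mem_clv {v : Fin G.n} {d : UD G} : d ∈ clv v ↔ d.1.2 = 0 ∧ d.1.1.1 = v := by
  simp [clv]

theorem mem_DS {typ : Fin G.n → Bool} {X : Fin G.n → ℤ} {b : Bool} {x : ℤ} {d : UD G} :
    d ∈ DS typ X b x ↔ typ d.1.1.1 = b ∧ lv typ X d = x := by
  simp [DS]

theorem ordv_isRotated (mv : Fin G.n → Fin G.n) (v : Fin G.n) : ordv mv v ~r G.nbr v := by
  apply List.IsRotated.symm
  exact ⟨_, rfl⟩

theorem ordv_nodup (mv : Fin G.n → Fin G.n) (v : Fin G.n) : (ordv mv v).Nodup :=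
  (ordv_isRotated mv v).symm.nodup_iff.1 (G.nodup v)

theorem ordv_getLast? (mv : Fin G.n → Fin G.n) (v : Fin G.n) (hv : mv v ∈ G.nbr v) :
    (ordv mv v).getLast? = some (mv v) := by
  have hlt : (G.nbr v).idxOf (mv v) < (G.nbr v).length := List.idxOf_lt_length_iff.2 hv
  unfold ordv
  rw [List.rotate_eq_drop_append_take (by omega), List.getLast?_append,
    List.getLast?_take]
  rw [if_neg (by omega)]
  simp only [Nat.add_sub_cancel]
  rw [List.getElem?_idxOf hv]
  rfl

variable {typ : Fin G.n → Bool} {X : Fin G.n → ℤ} {mv : Fin G.n → Fin G.n} {h : UD G → ℤ}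

theorem blk_ed (v : Fin G.n) : (blk mv v).map (ed typ) =
    (ordv mv v).map (fun w => if typ v then (v, w) else (w, v)) := by
  unfold blk
  rw [List.map_pmap, List.pmap_eq_map_attach]
  conv_rhs => rw [← List.attach_map_subtype_val (ordv mv v), List.map_map]
  apply List.map_congr_left
  intro w _
  rfl

theorem mem_blk (v : Fin G.n) (d : UD G) : d ∈ blk mv v ↔ d ∈ clv v := by
  unfold blk
  rw [List.mem_pmap, mem_clv]
  constructor
  · rintro ⟨w, hw, rfl⟩
    exact ⟨rfl, rfl⟩
  · rintro ⟨h1, h2⟩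
    refine ⟨d.1.1.2, ?_, ?_⟩
    · rw [mem_ordv, ← h2]
      exact d.2.1
    · apply Subtype.ext
      exact Prod.ext (Prod.ext h2.symm rfl) h1.symm

/-- keys and signed heights -/
theorem key_lt_iff_hb {b : Bool} (x y : UD G) (hx : typ x.1.1.1 = b) (hy : typ y.1.1.1 = b) :
    (unitMap G typ X mv).key h x < (unitMap G typ X mv).key h y ↔ hb b h x < hb b h y := by
  unfold UM.key UM.tt hb
  have h1 : (unitMap G typ X mv).dir x = b := hx
  have h2 : (unitMap G typ X mv).dir y = b := hy
  rw [h1, h2, Prod.Lex.toLex_lt_toLex]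
  cases b <;> simp

theorem blk_getElem (v : Fin G.n) (i : ℕ) (hi : i < (blk mv v).length)
    (hi' : i < (ordv mv v).length) : (blk mv v)[i] =
      zd v (ordv mv v)[i] ((mem_ordv mv v _).1 (List.getElem_mem _)) := by
  simp only [blk, List.getElem_pmap]

theorem blk_sorted (hX : IsLevel G typ X) (hmv : ∀ v, mv v ∈ G.nbr v)
    (hF : (unitMap G typ X mv).Folded h) (v : Fin G.n) :
    IsSorted (hb (typ v) h) (clv v) (blk mv v) := by
  have hP := unitMap_pre hX hmv
  refine ⟨?_, mem_blk v⟩
  haveI : Trans (fun a b : UD G => hb (typ v) h a < hb (typ v) h b)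
      (fun a b : UD G => hb (typ v) h a < hb (typ v) h b)
      (fun a b : UD G => hb (typ v) h a < hb (typ v) h b) := ⟨fun h1 h2 => h1.trans h2⟩
  rw [← List.isChain_iff_pairwise, List.isChain_iff_getElem]
  intro i hi
  have hlen : (blk mv v).length = (ordv mv v).length := by unfold blk; rw [List.length_pmap]
  have hi' : i + 1 < (ordv mv v).length := by omega
  have e1 := blk_getElem (mv := mv) v i (by omega) (by omega)
  have e2 := blk_getElem (mv := mv) v (i + 1) (by omega) hi'
  -- the rotation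
  have hsg : (unitMap G typ X mv).sg (zd v (ordv mv v)[i]
      ((mem_ordv mv v _).1 (List.getElem_mem _))) =
      zd v (ordv mv v)[i + 1] ((mem_ordv mv v _).1 (List.getElem_mem _)) := by
    apply Subtype.ext
    have h00 : (zd v (ordv mv v)[i] ((mem_ordv mv v _).1 (List.getElem_mem _))).1.2 = 0 := rfl
    rw [unitMap_sg_val, if_pos h00]
    show ((v, (G.nbr v).formPerm (ordv mv v)[i]), 0) = ((v, (ordv mv v)[i + 1]), 0)
    rw [← List.formPerm_eq_of_isRotated (ordv_nodup mv v) (ordv_isRotated mv v),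
      List.formPerm_apply_lt_getElem _ (ordv_nodup mv v) i hi']
  have hne : (ordv mv v)[i] ≠ mv v := by
    have hlast := ordv_getLast? mv v (hmv v)
    rw [List.getLast?_eq_getElem?] at hlast
    have hl2 : (ordv mv v).length - 1 < (ordv mv v).length := by omega
    rw [List.getElem?_eq_getElem hl2, Option.some.injEq] at hlast
    rw [← hlast]
    intro heq
    have := (ordv_nodup mv v).getElem_inj_iff.1 heq
    omega
  have hpp := UM.PP_sg hP hF (x := zd v (ordv mv v)[i]
    ((mem_ordv mv v _).1 (List.getElem_mem _))) (Finset.mem_univ _)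
  rw [hsg] at hpp
  have hA : (unitMap G typ X mv).A (zd v (ordv mv v)[i]
      ((mem_ordv mv v _).1 (List.getElem_mem _))) = 0 := by
    show (if 0 = 0 then (if (ordv mv v)[i] = mv v then 2 else 0) else 1) = 0
    rw [if_pos rfl, if_neg hne]
  rw [hA] at hpp
  rw [e1, e2]
  refine (key_lt_iff_hb (b := typ v) (X := X) (mv := mv) _ _ rfl rfl).1 ?_
  unfold UM.PP at hpp
  have htt : (unitMap G typ X mv).tt (zd v (ordv mv v)[i + 1]
      ((mem_ordv mv v _).1 (List.getElem_mem _))) =
      (unitMap G typ X mv).tt (zd v (ordv mv v)[i]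
      ((mem_ordv mv v _).1 (List.getElem_mem _))) := rfl
  rw [htt, sub_self, zero_add] at hpp
  by_contra hcon
  rw [not_lt] at hcon
  rw [if_pos hcon] at hpp
  norm_num at hpp

/-- injectivity of the signed height on a level -/
theorem hb_inj (hF : (unitMap G typ X mv).Folded h) (b : Bool) (x : ℤ) :
    ∀ d ∈ DS typ X b x, ∀ e ∈ DS typ X b x, hb b h d = hb b h e → d = e := by
  intro d hd e he heq
  rw [mem_DS] at hd he
  apply hF.inj d (Finset.mem_univ _) e (Finset.mem_univ _)
  · show typ d.1.1.1 = typ e.1.1.1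
    rw [hd.1, he.1]
  · show lv typ X d = lv typ X e
    rw [hd.2, he.2]
  · unfold hb at heq
    cases b <;> simpa using heq

/-- if a dart is between two darts of a vertex, then so are all darts of its vertex -/
theorem between (hF : (unitMap G typ X mv).Folded h) {b : Bool} {x : ℤ} {d1 d2 t t' : UD G}
    (h1 : d1 ∈ DS typ X b x) (h2 : d2 ∈ DS typ X b x) (ht : t ∈ DS typ X b x)
    (hv : nm G d1 = nm G d2) (hne : nm G t ≠ nm G d1) (hlt1 : hb b h d1 < hb b h t)
    (hlt2 : hb b h t < hb b h d2) (ht' : nm G t' = nm G t) (hlt' : lv typ X t' = x) :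
    typ t'.1.1.1 = b ∧ hb b h d1 < hb b h t' ∧ hb b h t' < hb b h d2 := by
  rw [mem_DS] at h1 h2 ht
  have k1 := (key_lt_iff_hb (X := X) (mv := mv) (h := h) _ _ h1.1 ht.1).2 hlt1
  have k2 := (key_lt_iff_hb (X := X) (mv := mv) (h := h) _ _ ht.1 h2.1).2 hlt2
  have hlev : ∀ {p q : UD G}, lv typ X p = x → lv typ X q = x →
      (unitMap G typ X mv).lev p = (unitMap G typ X mv).lev q := by
    intro p q hp hq
    show lv typ X p = lv typ X q
    rw [hp, hq]
  -- t' is after d1
  have g1 : (unitMap G typ X mv).key h d1 < (unitMap G typ X mv).key h t' := by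
    rcases lt_trichotomy ((unitMap G typ X mv).key h d1) ((unitMap G typ X mv).key h t')
      with h3 | h3 | h3
    · exact h3
    · exfalso
      have := UM.key_inj hF (Finset.mem_univ d1) (Finset.mem_univ t') (hlev h1.2 hlt') h3
      rw [← this] at ht'
      exact hne ht'.symm
    · exfalso
      have := hF.nc t' (Finset.mem_univ _) d1 (Finset.mem_univ _) t (Finset.mem_univ _) d2
        (Finset.mem_univ _) (hlev hlt' h1.2) h3 k1 k2 (vt_eq_iff _ _ |>.2 ht')
        (vt_eq_iff _ _ |>.2 hv)
      rw [vt_eq_iff] at this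
      exact hne (ht'.symm.trans this)
  have g2 : (unitMap G typ X mv).key h t' < (unitMap G typ X mv).key h d2 := by
    rcases lt_trichotomy ((unitMap G typ X mv).key h t') ((unitMap G typ X mv).key h d2)
      with h3 | h3 | h3
    · exact h3
    · exfalso
      have := UM.key_inj hF (Finset.mem_univ t') (Finset.mem_univ d2) (hlev hlt' h2.2) h3
      rw [this] at ht'
      exact hne (ht'.symm.trans hv.symm)
    · exfalso
      have := hF.nc d1 (Finset.mem_univ _) t (Finset.mem_univ _) d2 (Finset.mem_univ _) t'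
        (Finset.mem_univ _) (hlev h1.2 ht.2) k1 k2 h3 (vt_eq_iff _ _ |>.2 hv)
        (vt_eq_iff _ _ |>.2 ht'.symm)
      rw [vt_eq_iff] at this
      exact hne this.symm
  have hb' : typ t'.1.1.1 = b := by
    unfold UM.key UM.tt at g1 g2
    have e1 : (unitMap G typ X mv).dir d1 = b := h1.1
    have e2 : (unitMap G typ X mv).dir d2 = b := h2.1
    rw [e1] at g1
    rw [e2] at g2
    rw [Prod.Lex.toLex_lt_toLex] at g1 g2
    show (unitMap G typ X mv).dir t' = b
    cases b <;> cases h5 : (unitMap G typ X mv).dir t' <;> simp [h5] at g1 g2 ⊢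
  exact ⟨hb', (key_lt_iff_hb (X := X) (mv := mv) _ _ h1.1 hb').1 g1,
    (key_lt_iff_hb (X := X) (mv := mv) _ _ hb' h2.1).1 g2⟩

/-- peeling off vertices -/
inductive Peel (mv : Fin G.n → Fin G.n) :
    List (Fin G.n) → List (UD G) → List (UD G) → Prop
  | nil (l : List (UD G)) : Peel mv [] l l
  | cons (v : Fin G.n) (vs : List (Fin G.n)) (A C l' : List (UD G))
      (hp : Peel mv vs (A ++ C) l') : Peel mv (v :: vs) (A ++ blk mv v ++ C) l'

/-- darts of direction `b` and level `x` that are not at an original vertex outside `W` -/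
def SW (typ : Fin G.n → Bool) (X : Fin G.n → ℤ) (b : Bool) (x : ℤ) (W : Finset (Fin G.n)) :
    Finset (UD G) := (DS typ X b x).filter (fun d => d.1.2 ≠ 0 ∨ d.1.1.1 ∈ W)

theorem mem_SW {b : Bool} {x : ℤ} {W : Finset (Fin G.n)} {d : UD G} :
    d ∈ SW typ X b x W ↔ d ∈ DS typ X b x ∧ (d.1.2 ≠ 0 ∨ d.1.1.1 ∈ W) := by
  simp [SW]

/-- a passing vertex has a dart in the other direction -/
theorem passing_other (hX : IsLevel G typ X) (hmv : ∀ v, mv v ∈ G.nbr v) (t : UD G)
    (ht : t.1.2 ≠ 0) :
    nm G ((unitMap G typ X mv).sg t) = nm G t ∧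
      typ ((unitMap G typ X mv).sg t).1.1.1 = !typ t.1.1.1 ∧
      lv typ X ((unitMap G typ X mv).sg t) = lv typ X t ∧
      ((unitMap G typ X mv).sg t).1.2 ≠ 0 ∧
      (unitMap G typ X mv).sg ((unitMap G typ X mv).sg t) = t ∧
      ed typ ((unitMap G typ X mv).sg t) = ed typ t := by
  have hP := unitMap_pre hX hmv
  have hv : ((unitMap G typ X mv).sg t).1 = (t.1.1.swap, G.len t.1.1.1 t.1.1.2 - t.1.2) := by
    rw [unitMap_sg_val, if_neg ht]
  have h0 : nm G ((unitMap G typ X mv).sg t) = nm G t := by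
    rw [← vt_eq_iff (typ := typ) (X := X) (mv := mv)]
    exact UM.vt_sg hP (Finset.mem_univ t)
  have hty : typ t.1.1.2 = !typ t.1.1.1 := hX.typ_ne _ _ t.2.1
  have hlt := t.2.2
  refine ⟨h0, ?_, ?_, ?_, ?_, ?_⟩
  · rw [hv]; exact hty
  · exact hP.lev_vt _ (Finset.mem_univ _) _ (Finset.mem_univ _) (vt_eq_iff _ _ |>.2 h0)
  · rw [hv]; dsimp only; omega
  · apply Subtype.ext
    rw [unitMap_sg_val, if_neg (by rw [hv]; dsimp only; omega), hv]
    have := len_swap t.2.1
    dsimp only
    rw [this, Prod.swap_swap]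
    apply Prod.ext
    · rfl
    · dsimp only; omega
  · unfold ed
    rw [hv]
    dsimp only
    show (if typ t.1.1.2 then _ else _) = _
    rw [hty]
    cases typ t.1.1.1 <;> simp

theorem peel_exists (hX : IsLevel G typ X) (hmv : ∀ v, mv v ∈ G.nbr v)
    (hF : (unitMap G typ X mv).Folded h) (b : Bool) (x : ℤ) :
    ∀ (n : ℕ) (W : Finset (Fin G.n)), W.card = n → (∀ v ∈ W, typ v = b ∧ X v = x) →
      ∀ l0 lW, IsSorted (hb b h) (SW typ X b x ∅) l0 → IsSorted (hb b h) (SW typ X b x W) lW →
        ∃ vs : List (Fin G.n), vs.Nodup ∧ (∀ v, v ∈ vs ↔ v ∈ W) ∧ Peel mv vs lW l0 := by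
  intro n
  induction n with
  | zero =>
    intro W hW _ l0 lW h0 hlW
    rw [Finset.card_eq_zero] at hW
    subst hW
    refine ⟨[], List.nodup_nil, by simp, ?_⟩
    rw [hlW.unique h0]
    exact Peel.nil _
  | succ n ih =>
    intro W hW hWp l0 lW h0 hlW
    have hWne : W.Nonempty := by
      rw [← Finset.card_pos]; omega
    -- the darts between two darts of v
    let I : Fin G.n → Finset (UD G) := fun v => (DS typ X b x).filter
      (fun t => ∃ d1 ∈ clv v, ∃ d2 ∈ clv v, hb b h d1 ≤ hb b h t ∧ hb b h t ≤ hb b h d2)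
    obtain ⟨v, hvW, hmin⟩ := Finset.exists_min_image W (fun v => (I v).card) hWne
    have hclDS : ∀ v ∈ W, clv v ⊆ DS typ X b x := by
      intro v hv d hd
      rw [mem_clv] at hd
      rw [mem_DS, hd.2]
      refine ⟨(hWp v hv).1, ?_⟩
      unfold lv
      rw [hd.1, hd.2, (hWp v hv).2]
      simp
    have hclSW : clv v ⊆ SW typ X b x W := by
      intro d hd
      rw [mem_SW]
      refine ⟨hclDS v hvW hd, Or.inr ?_⟩
      rw [(mem_clv.1 hd).2]; exact hvW
    have hnmcl : ∀ (w : Fin G.n) (d e : UD G), d ∈ clv w → (e ∈ clv w ↔ nm G e = nm G d) := by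
      intro w d e hd
      rw [mem_clv] at hd ⊢
      rw [nm_eq_iff]
      constructor
      · rintro ⟨h1, h2⟩
        exact Or.inl ⟨h1, hd.1, by rw [h2, hd.2]⟩
      · rintro (⟨h1, h2, h3⟩ | ⟨h1, h2, h3⟩)
        · exact ⟨h1, by rw [h3, hd.2]⟩
        · exact absurd hd.1 h2
    have hconv : ∀ t ∈ SW typ X b x W, t ∉ clv v →
        (∀ i ∈ clv v, hb b h t < hb b h i) ∨ (∀ i ∈ clv v, hb b h i < hb b h t) := by
      intro t ht htv
      by_contra hcon
      rw [not_or] at hcon
      obtain ⟨hc1, hc2⟩ := hcon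
      push Not at hc1 hc2
      obtain ⟨d1, hd1, hlt1⟩ := hc1
      obtain ⟨d2, hd2, hlt2⟩ := hc2
      have htDS := (mem_SW.1 ht).1
      have hne1 : hb b h d1 ≠ hb b h t := by
        intro heq
        apply htv
        rw [← hb_inj hF b x d1 (hclDS v hvW hd1) t htDS heq]
        exact hd1
      have hne2 : hb b h t ≠ hb b h d2 := by
        intro heq
        apply htv
        rw [hb_inj hF b x t htDS d2 (hclDS v hvW hd2) heq]
        exact hd2
      have hlt1' : hb b h d1 < hb b h t := lt_of_le_of_ne hlt1 hne1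
      have hlt2' : hb b h t < hb b h d2 := lt_of_le_of_ne hlt2 hne2
      have hnm12 : nm G d1 = nm G d2 := (hnmcl v d2 d1 hd2).1 hd1
      have hnmt : nm G t ≠ nm G d1 := fun heq => htv ((hnmcl v d1 t hd1).2 heq)
      have hbtw := fun (t' : UD G) (h1 : nm G t' = nm G t) (h2 : lv typ X t' = x) =>
        between hF (hclDS v hvW hd1) (hclDS v hvW hd2) htDS hnm12 hnmt hlt1' hlt2' h1 h2
      have htlv := (mem_DS.1 htDS).2
      -- t is not passing
      have ht0 : t.1.2 = 0 := by
        by_contra hpass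
        obtain ⟨p1, p2, p3, p4, p5, p6⟩ := passing_other (mv := mv) hX hmv t hpass
        have := hbtw _ p1 (p3.trans htlv)
        rw [p2, (mem_DS.1 htDS).1] at this
        cases b <;> simp at this
      have htW : t.1.1.1 ∈ W := by
        rcases (mem_SW.1 ht).2 with h3 | h3
        · exact absurd ht0 h3
        · exact h3
      have htcl : t ∈ clv t.1.1.1 := mem_clv.2 ⟨ht0, rfl⟩
      have hsub : I t.1.1.1 ⊆ I v := by
        intro s hs
        simp only [I, Finset.mem_filter] at hs ⊢
        obtain ⟨hs1, e1, he1, e2, he2, hle1, hle2⟩ := hs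
        have b1 := hbtw e1 ((hnmcl _ t e1 htcl).1 he1) (mem_DS.1 (hclDS _ htW he1)).2
        have b2 := hbtw e2 ((hnmcl _ t e2 htcl).1 he2) (mem_DS.1 (hclDS _ htW he2)).2
        exact ⟨hs1, d1, hd1, d2, hd2, b1.2.1.le.trans hle1, hle2.trans b2.2.2.le⟩
      have hss : I t.1.1.1 ⊂ I v := by
        rw [Finset.ssubset_iff_of_subset hsub]
        refine ⟨d1, ?_, ?_⟩
        · simp only [I, Finset.mem_filter]
          exact ⟨hclDS v hvW hd1, d1, hd1, d1, hd1, le_rfl, le_rfl⟩
        · simp only [I, Finset.mem_filter, not_and, not_exists]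
          intro _ e1 he1 e2 he2 hle1
          have b1 := hbtw e1 ((hnmcl _ t e1 htcl).1 he1) (mem_DS.1 (hclDS _ htW he1)).2
          exact absurd (lt_of_lt_of_le b1.2.1 hle1) (lt_irrefl _)
      have := Finset.card_lt_card hss
      exact absurd this (not_lt.2 (hmin _ htW))
    have hclne : (clv v).Nonempty := by
      refine ⟨zd v (mv v) (hmv v), mem_clv.2 ⟨rfl, rfl⟩⟩
    obtain ⟨A, m, C, hl, hm, hAC⟩ := hlW.split (clv v) hclSW hclne hconv
    have hmb : m = blk mv v := by
      apply hm.unique
      have := blk_sorted hX hmv hF v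
      rwa [(hWp v hvW).1] at this
    have hSW' : SW typ X b x W \ clv v = SW typ X b x (W.erase v) := by
      ext d
      rw [Finset.mem_sdiff, mem_SW, mem_SW, mem_clv, Finset.mem_erase]
      constructor
      · rintro ⟨⟨h1, h2⟩, h3⟩
        refine ⟨h1, ?_⟩
        by_cases h4 : d.1.2 = 0
        · right
          refine ⟨fun h5 => h3 ⟨h4, h5⟩, ?_⟩
          rcases h2 with h2 | h2
          · exact absurd h4 h2
          · exact h2
        · exact Or.inl h4
      · rintro ⟨h1, h2⟩
        refine ⟨⟨h1, ?_⟩, ?_⟩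
        · rcases h2 with h2 | h2
          · exact Or.inl h2
          · exact Or.inr h2.2
        · rintro ⟨h3, h4⟩
          rcases h2 with h2 | h2
          · exact h2 h3
          · exact h2.1 h4
    rw [hSW'] at hAC
    obtain ⟨vs, hvs1, hvs2, hvs3⟩ := ih (W.erase v) (by rw [Finset.card_erase_of_mem hvW]; omega)
      (fun w hw => hWp w (Finset.mem_of_mem_erase hw)) l0 (A ++ C) h0 hAC
    refine ⟨v :: vs, ?_, ?_, ?_⟩
    · rw [List.nodup_cons]
      refine ⟨?_, hvs1⟩
      rw [hvs2]; simp
    · intro w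
      rw [List.mem_cons, hvs2, Finset.mem_erase]
      constructor
      · rintro (rfl | h1)
        · exact hvW
        · exact h1.2
      · intro h1
        by_cases h2 : w = v
        · exact Or.inl h2
        · exact Or.inr ⟨h2, h1⟩
    · rw [hl, hmb]
      exact Peel.cons v vs A C l0 hvs3

/-- peeling is closing (for left darts) -/
theorem Peel.close {vs : List (Fin G.n)} {l l' : List (UD G)} (hp : Peel mv vs l l')
    (hvs : ∀ v ∈ vs, typ v = false) (rest : List (Fin G.n)) (B' : List (Fin G.n × Fin G.n))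
    (hr : Run typ (ordv mv) rest (l'.reverse.map (ed typ)) B') :
    Run typ (ordv mv) (vs ++ rest) (l.reverse.map (ed typ)) B' := by
  induction hp with
  | nil l => exact hr
  | cons v vs A C l' hp ih =>
    have h1 := ih (fun w hw => hvs w (List.mem_cons_of_mem _ hw)) hr
    have hv := hvs v List.mem_cons_self
    rw [List.reverse_append, List.map_append] at h1
    have h2 := Run.cls v (vs ++ rest) _ _ B' hv h1
    rw [List.reverse_append, List.reverse_append, List.map_append, List.map_append,
      List.map_reverse (l := blk mv v), blk_ed, ← List.append_assoc]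
    have h3 : (ordv mv v).map (fun w => if typ v then (v, w) else (w, v)) =
        (ordv mv v).map (fun w => (w, v)) := by
      apply List.map_congr_left
      intro w _
      rw [hv]; simp
    rw [h3]
    exact h2

/-- peeling is opening backwards (for right darts) -/
theorem Peel.open {vs : List (Fin G.n)} {l l' : List (UD G)} (hp : Peel mv vs l l')
    (hvs : ∀ v ∈ vs, typ v = true) (rest : List (Fin G.n)) (B' : List (Fin G.n × Fin G.n))
    (hr : Run typ (ordv mv) rest (l.map (ed typ)) B') :
    Run typ (ordv mv) (vs.reverse ++ rest) (l'.map (ed typ)) B' := by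
  induction hp generalizing rest with
  | nil l => exact hr
  | cons v vs A C l' hp ih =>
    have hv := hvs v List.mem_cons_self
    rw [List.reverse_cons, List.append_assoc]
    apply ih (fun w hw => hvs w (List.mem_cons_of_mem _ hw))
    rw [List.map_append]
    have h3 : (ordv mv v).map (fun w => if typ v then (v, w) else (w, v)) =
        (ordv mv v).map (fun w => (v, w)) := by
      apply List.map_congr_left
      intro w _
      rw [hv]; simp
    apply Run.opn v rest _ _ B' hv
    rw [List.map_append, List.map_append, blk_ed, h3] at hr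
    exact hr

end Pool.Agent.FlatFold
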