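import Mathlib

/-! Gordan's alternative for finitely many linear functionals on `V → ℝ`. -/

namespace Pool.Agent.FlatFold

theorem gordan_vec {V κ : Type} [Fintype V] (K : Finset κ) (c : κ → V → ℝ) :
    (∃ y : V → ℝ, ∀ k ∈ K, 0 < ∑ v, c k v * y v) ∨
      (∃ μ : κ → ℝ, (∀ k ∈ K, 0 ≤ μ k) ∧ ∑ k ∈ K, μ k = 1 ∧ ∀ v, ∑ k ∈ K, μ k * c k v = 0) := by
  classical
  by_cases h0 : (0 : V → ℝ) ∈ convexHull ℝ (c '' (K : Set κ))
  · right
    rw [mem_convexHull_iff_exists_fintype] at h0
    obtain ⟨ι, hι, w, z, hw, hw1, hz, hsum⟩ := h0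
    choose k hkK hk using hz
    refine ⟨fun a => ∑ i ∈ Finset.univ.filter (fun i => k i = a), w i, ?_, ?_, ?_⟩
    · intro a _
      exact Finset.sum_nonneg (fun i _ => hw i)
    · rw [Finset.sum_fiberwise_of_maps_to (fun i _ => hkK i), hw1]
    · intro v
      have h1 : ∀ a ∈ K, (∑ i ∈ Finset.univ.filter (fun i => k i = a), w i) * c a v
          = ∑ i ∈ Finset.univ.filter (fun i => k i = a), w i * z i v := by
        intro a _
        rw [Finset.sum_mul]
        apply Finset.sum_congr rfl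
        intro i hi
        rw [Finset.mem_filter] at hi
        rw [← hk i, hi.2]
      rw [Finset.sum_congr rfl h1, Finset.sum_fiberwise_of_maps_to (fun i _ => hkK i)]
      have h2 := congrFun hsum v
      rw [Finset.sum_apply] at h2
      simpa using h2
  · left
    have hfin : (c '' (K : Set κ)).Finite := (K.finite_toSet).image c
    obtain ⟨f, u, hf0, hf⟩ := geometric_hahn_banach_point_closed (convex_convexHull ℝ _)
      (hfin.isClosed_convexHull ℝ) h0
    refine ⟨fun v => f (fun j => if v = j then 1 else 0), ?_⟩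
    intro k hk
    have h1 : u < f (c k) := hf _ (subset_convexHull ℝ _ ⟨k, hk, rfl⟩)
    have h2 := LinearMap.pi_apply_eq_sum_univ (f : (V → ℝ) →ₗ[ℝ] ℝ) (c k)
    rw [map_zero] at hf0
    have h3 : f (c k) = ∑ v, c k v * f (fun j => if v = j then 1 else 0) := by
      simpa using h2
    rw [← h3]
    linarith

theorem gordan {V κ : Type} [Fintype V] (K : Finset κ) (g : κ → (V → ℝ) →ₗ[ℝ] ℝ) :
    (∃ y : V → ℝ, ∀ k ∈ K, 0 < g k y) ∨
      (∃ μ : κ → ℝ, (∀ k ∈ K, 0 ≤ μ k) ∧ ∑ k ∈ K, μ k = 1 ∧ ∀ y, ∑ k ∈ K, μ k * g k y = 0) := by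
  classical
  have hg : ∀ k y, g k y = ∑ v, g k (fun j => if v = j then 1 else 0) * y v := by
    intro k y
    rw [LinearMap.pi_apply_eq_sum_univ (g k) y]
    apply Finset.sum_congr rfl
    intro v _
    rw [smul_eq_mul, mul_comm]
  rcases gordan_vec K (fun k v => g k (fun j => if v = j then 1 else 0)) with ⟨y, hy⟩ | ⟨μ, h1, h2, h3⟩
  · left
    refine ⟨y, ?_⟩
    intro k hk
    rw [hg]
    exact hy k hk
  · right
    refine ⟨μ, h1, h2, ?_⟩
    intro y
    have h4 : ∀ k ∈ K, μ k * g k y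
        = ∑ v, (μ k * g k (fun j => if v = j then 1 else 0)) * y v := by
      intro k _
      rw [hg k y, Finset.mul_sum]
      apply Finset.sum_congr rfl
      intro v _
      ring
    rw [Finset.sum_congr rfl h4, Finset.sum_comm]
    apply Finset.sum_eq_zero
    intro v _
    rw [← Finset.sum_mul, h3 v, zero_mul]

end Pool.Agent.FlatFold
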