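import Mathlib
import Pool.Agent.Lib.MP_b92007_lc.Sweep

/-!
Interface between the two halves of M2: heights compatible with a run.
-/

namespace Pool.Agent.FlatFold

/-- height at the abscissa `t` of the segment from the left end `e.1` to the right end `e.2` -/
noncomputable def segHt {V : Type} (x y : V → ℝ) (e : V × V) (t : ℝ) : ℝ :=
  y e.1 + (y e.2 - y e.1) * ((t - x e.1) / (x e.2 - x e.1))

/-- A run together with heights: at every event the vertex is strictly above the edges that pass
below it and strictly below the edges that pass above it. -/
inductive RunH {V : Type} (typ : V → Bool) (ord : V → List V) (x y : V → ℝ) :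
    List V → List (V × V) → List (V × V) → Prop
  | nil (B : List (V × V)) : RunH typ ord x y [] B B
  | opn (v : V) (vs : List V) (A C B' : List (V × V)) (hv : typ v = true)
      (hA : ∀ e ∈ A, segHt x y e (x v) < y v) (hC : ∀ e ∈ C, y v < segHt x y e (x v))
      (h : RunH typ ord x y vs (A ++ (ord v).map (fun w => (v, w)) ++ C) B') :
      RunH typ ord x y (v :: vs) (A ++ C) B'
  | cls (v : V) (vs : List V) (A C B' : List (V × V)) (hv : typ v = false)
      (hA : ∀ e ∈ A, segHt x y e (x v) < y v) (hC : ∀ e ∈ C, y v < segHt x y e (x v))
      (h : RunH typ ord x y vs (A ++ C) B') :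
      RunH typ ord x y (v :: vs) (A ++ ((ord v).map (fun w => (w, v))).reverse ++ C) B'

end Pool.Agent.FlatFold
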