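import Mathlib

/-!
Combinatorial part of the straightening argument: a discrete stress on a sweep vanishes.
-/

namespace Pool.Agent.FlatFold

section Trans

variable {α : Type}

/-- `e, f` bound a maximal run of cuts with `¬ Z` -/
def Bnd (B : List α) (Z : List α → Prop) (e f : α) : Prop :=
  ∃ U W D : List α, B = U ++ e :: (W ++ f :: D) ∧ Z U ∧ Z (U ++ e :: (W ++ [f])) ∧
    ∀ W₁ W₂, W = W₁ ++ W₂ → ¬ Z (U ++ e :: W₁)

/-- transition between two states -/
structure Trans (B B' A b b' C : List α) (Z Z' : List α → Prop) : Prop where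
  hB : B = A ++ (b ++ C)
  hB' : B' = A ++ (b' ++ C)
  z1 : ∀ U U₁, A = U ++ U₁ → (Z U ↔ Z' U)
  z2 : ∀ C₁ D, C = C₁ ++ D → (Z (A ++ (b ++ C₁)) ↔ Z' (A ++ (b' ++ C₁)))
  z3 : Z A ↔ Z (A ++ b)
  z4 : ¬ Z A → ∀ b₁ b₂, b = b₁ ++ b₂ → ¬ Z (A ++ b₁)
  z4' : ¬ Z A → ∀ b₁ b₂, b' = b₁ ++ b₂ → ¬ Z' (A ++ b₁)

theorem Trans.symm {B B' A b b' C : List α} {Z Z' : List α → Prop}
    (h : Trans B B' A b b' C Z Z') : Trans B' B A b' b C Z' Z := by
  have hA : Z A ↔ Z' A := h.z1 A [] (by simp)
  have hAb := h.z2 [] C (by simp)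
  simp only [List.append_nil] at hAb
  refine ⟨h.hB', h.hB, fun U U₁ hU => (h.z1 U U₁ hU).symm, fun C₁ D hC => (h.z2 C₁ D hC).symm,
    ?_, ?_, ?_⟩
  · rw [← hA, h.z3, hAb]
  · intro hn
    exact h.z4' (fun h' => hn (hA.1 h'))
  · intro hn
    exact h.z4 (fun h' => hn (hA.1 h'))

theorem Trans.step {B B' A b b' C : List α} {Z Z' : List α → Prop}
    (h : Trans B B' A b b' C Z Z') {e f : α} (hb : Bnd B Z e f) :
    (e ∈ b ∧ f ∈ b) ∨ Bnd B' Z' e f := by
  obtain ⟨U, W, D, hd, hU, hf, hW⟩ := hb
  rw [h.hB] at hd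
  rcases List.append_eq_append_iff.1 hd with ⟨U₁, hU1, h2⟩ | ⟨A₁, hA1, h2⟩
  · -- U = A ++ U₁
    rcases List.append_eq_append_iff.1 h2 with ⟨U₂, h3, h4⟩ | ⟨b₁, h3, h4⟩
    · -- U₁ = b ++ U₂, C = U₂ ++ e :: ...
      right
      refine ⟨A ++ (b' ++ U₂), W, D, ?_, ?_, ?_, ?_⟩
      · rw [h.hB', h4]
        simp
      · refine (h.z2 U₂ _ h4).1 ?_
        rw [← h3, ← hU1]
        exact hU
      · have h5 : C = (U₂ ++ e :: (W ++ [f])) ++ D := by rw [h4]; simp
        have h6 := h.z2 _ _ h5
        have h7 : A ++ (b ++ (U₂ ++ e :: (W ++ [f]))) = U ++ e :: (W ++ [f]) := by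
          rw [hU1, h3]; simp
        have h8 : A ++ (b' ++ (U₂ ++ e :: (W ++ [f]))) = A ++ (b' ++ U₂) ++ e :: (W ++ [f]) := by
          simp
        rw [h7, h8] at h6
        exact h6.1 hf
      · intro W₁ W₂ hW12
        have h5 : C = (U₂ ++ e :: W₁) ++ (W₂ ++ f :: D) := by rw [h4, hW12]; simp
        have h6 := h.z2 _ _ h5
        have h7 : A ++ (b ++ (U₂ ++ e :: W₁)) = U ++ e :: W₁ := by
          rw [hU1, h3]; simp
        have h8 : A ++ (b' ++ (U₂ ++ e :: W₁)) = A ++ (b' ++ U₂) ++ e :: W₁ := by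
          simp
        rw [h7, h8] at h6
        exact fun h9 => hW W₁ W₂ hW12 (h6.2 h9)
    · -- b = U₁ ++ b₁, e :: ... = b₁ ++ C
      cases b₁ with
      | nil =>
        -- then C = e :: ...
        rw [List.append_nil] at h3
        rw [List.nil_append] at h4
        right
        refine ⟨A ++ b', W, D, ?_, ?_, ?_, ?_⟩
        · rw [h.hB', ← h4]
          simp
        · have h5 := h.z2 [] C (by simp)
          simp only [List.append_nil] at h5
          refine h5.1 ?_
          rw [h3, ← hU1]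
          exact hU
        · have h5 : C = (e :: (W ++ [f])) ++ D := by rw [← h4]; simp
          have h6 := h.z2 _ _ h5
          have h7 : A ++ (b ++ (e :: (W ++ [f]))) = U ++ e :: (W ++ [f]) := by
            rw [hU1, h3]; simp
          have h8 : A ++ (b' ++ (e :: (W ++ [f]))) = A ++ b' ++ e :: (W ++ [f]) := by
            simp
          rw [h7, h8] at h6
          exact h6.1 hf
        · intro W₁ W₂ hW12
          have h5 : C = (e :: W₁) ++ (W₂ ++ f :: D) := by rw [← h4, hW12]; simp
          have h6 := h.z2 _ _ h5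
          have h7 : A ++ (b ++ (e :: W₁)) = U ++ e :: W₁ := by
            rw [hU1, h3]; simp
          have h8 : A ++ (b' ++ (e :: W₁)) = A ++ b' ++ e :: W₁ := by
            simp
          rw [h7, h8] at h6
          exact fun h9 => hW W₁ W₂ hW12 (h6.2 h9)
      | cons e' b₂ =>
        rw [List.cons_append, List.cons.injEq] at h4
        obtain ⟨rfl, h4⟩ := h4
        have hZA : Z A := by
          by_contra hn
          refine h.z4 hn U₁ (e :: b₂) h3 ?_
          rw [← hU1]
          exact hU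
        have hZAb : Z (A ++ b) := h.z3.1 hZA
        rcases List.append_eq_append_iff.1 h4 with ⟨b₃, h5, h6⟩ | ⟨W₁, h5, h6⟩
        · -- b₂ = W ++ b₃, f :: D = b₃ ++ C
          cases b₃ with
          | nil =>
            exfalso
            refine hW W [] (by simp) ?_
            rw [List.append_nil] at h5
            have h7 : A ++ b = U ++ e :: W := by rw [h3, hU1, h5]; simp
            rw [← h7]
            exact hZAb
          | cons f' b₄ =>
            rw [List.cons_append, List.cons.injEq] at h6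
            obtain ⟨rfl, h6⟩ := h6
            left
            rw [h3, h5]
            simp
        · -- W = b₂ ++ W₁
          exfalso
          refine hW b₂ W₁ h5 ?_
          have h7 : A ++ b = U ++ e :: b₂ := by rw [h3, hU1]; simp
          rw [← h7]
          exact hZAb
  · -- A = U ++ A₁
    cases A₁ with
    | nil =>
      -- A = U
      rw [List.append_nil] at hA1
      rw [List.nil_append] at h2
      cases b with
      | nil =>
        rw [List.nil_append] at h2
        right
        refine ⟨A ++ b', W, D, ?_, ?_, ?_, ?_⟩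
        · rw [h.hB', ← h2]
          simp
        · have h5 := h.z2 [] C (by simp)
          simp only [List.append_nil] at h5
          refine h5.1 ?_
          rw [hA1]
          exact hU
        · have h5 : C = (e :: (W ++ [f])) ++ D := by rw [← h2]; simp
          have h6 := h.z2 _ _ h5
          have h7 : A ++ ([] ++ (e :: (W ++ [f]))) = U ++ e :: (W ++ [f]) := by
            rw [hA1]; simp
          have h8 : A ++ (b' ++ (e :: (W ++ [f]))) = A ++ b' ++ e :: (W ++ [f]) := by
            simp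
          rw [h7, h8] at h6
          exact h6.1 hf
        · intro W₁ W₂ hW12
          have h5 : C = (e :: W₁) ++ (W₂ ++ f :: D) := by rw [← h2, hW12]; simp
          have h6 := h.z2 _ _ h5
          have h7 : A ++ ([] ++ (e :: W₁)) = U ++ e :: W₁ := by
            rw [hA1]; simp
          have h8 : A ++ (b' ++ (e :: W₁)) = A ++ b' ++ e :: W₁ := by
            simp
          rw [h7, h8] at h6
          exact fun h9 => hW W₁ W₂ hW12 (h6.2 h9)
      | cons e' b₂ =>
        rw [List.cons_append, List.cons.injEq] at h2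
        obtain ⟨rfl, h4⟩ := h2
        have hZA : Z A := by
          rw [hA1]
          exact hU
        have hZAb : Z (A ++ e :: b₂) := h.z3.1 hZA
        rcases List.append_eq_append_iff.1 h4 with ⟨b₃, h5, h6⟩ | ⟨W₁, h5, h6⟩
        · cases b₃ with
          | nil =>
            exfalso
            refine hW W [] (by simp) ?_
            rw [List.append_nil] at h5
            have h7 : A ++ e :: b₂ = U ++ e :: W := by rw [hA1, h5]
            rw [← h7]
            exact hZAb
          | cons f' b₄ =>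
            rw [List.cons_append, List.cons.injEq] at h6
            obtain ⟨rfl, h6⟩ := h6
            left
            rw [h5]
            simp
        · exfalso
          refine hW b₂ W₁ h5 ?_
          have h7 : A ++ e :: b₂ = U ++ e :: b₂ := by rw [hA1]
          rw [← h7]
          exact hZAb
    | cons e' A₂ =>
      rw [List.cons_append, List.cons.injEq] at h2
      obtain ⟨rfl, h4⟩ := h2
      -- W ++ f :: D = A₂ ++ (b ++ C)
      rcases List.append_eq_append_iff.1 h4 with ⟨A₃, h5, h6⟩ | ⟨W₁, h5, h6⟩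
      · -- A₂ = W ++ A₃
        cases A₃ with
        | nil =>
          -- A₂ = W, so the cut A is just before f: not Z
          rw [List.append_nil] at h5
          rw [List.nil_append] at h6
          have hnA : ¬ Z A := by
            rw [hA1, h5]
            exact hW W [] (by simp)
          cases b with
          | nil =>
            rw [List.nil_append] at h6
            right
            refine ⟨U, W ++ b', D, ?_, ?_, ?_, ?_⟩
            · rw [h.hB', ← h6, hA1, h5]
              simp
            · exact (h.z1 U _ hA1).1 hU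
            · have h7 : C = [f] ++ D := by rw [← h6]; simp
              have h8 := h.z2 _ _ h7
              have h9 : A ++ ([] ++ [f]) = U ++ e :: (W ++ [f]) := by rw [hA1, h5]; simp
              have h10 : A ++ (b' ++ [f]) = U ++ e :: (W ++ b' ++ [f]) := by rw [hA1, h5]; simp
              rw [h9, h10] at h8
              exact h8.1 hf
            · intro W₁ W₂ hW12
              rcases List.append_eq_append_iff.1 hW12 with ⟨X, h7, h8⟩ | ⟨X, h7, h8⟩
              · -- W₁ = W ++ X, b' = X ++ W₂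
                have h9 := h.z4' hnA X W₂ h8
                have h10 : U ++ e :: W₁ = A ++ X := by rw [hA1, h5, h7]; simp
                rw [h10]
                exact h9
              · -- W = W₁ ++ X
                have h9 := hW W₁ X h7
                have h10 : A = (U ++ e :: W₁) ++ X := by rw [hA1, h5, h7]; simp
                exact fun h11 => h9 ((h.z1 _ _ h10).2 h11)
          | cons f' b₂ =>
            rw [List.cons_append, List.cons.injEq] at h6
            obtain ⟨rfl, h6⟩ := h6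
            exfalso
            refine h.z4 hnA [f] b₂ (by simp) ?_
            have h9 : A ++ [f] = U ++ e :: (W ++ [f]) := by rw [hA1, h5]; simp
            rw [h9]
            exact hf
        | cons f' A₄ =>
          rw [List.cons_append, List.cons.injEq] at h6
          obtain ⟨rfl, h6⟩ := h6
          right
          refine ⟨U, W, A₄ ++ (b' ++ C), ?_, ?_, ?_, ?_⟩
          · rw [h.hB', hA1, h5]
            simp
          · exact (h.z1 U _ hA1).1 hU
          · have h7 : A = (U ++ e :: (W ++ [f])) ++ A₄ := by rw [hA1, h5]; simp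
            exact (h.z1 _ _ h7).1 hf
          · intro W₁ W₂ hW12
            have h7 : A = (U ++ e :: W₁) ++ (W₂ ++ f :: A₄) := by rw [hA1, h5, hW12]; simp
            exact fun h11 => hW W₁ W₂ hW12 ((h.z1 _ _ h7).2 h11)
      · -- W = A₂ ++ W₁, b ++ C = W₁ ++ f :: D
        have hnA : ¬ Z A := by
          rw [hA1]
          exact hW A₂ W₁ h5
        rcases List.append_eq_append_iff.1 h6 with ⟨W₂, h7, h8⟩ | ⟨b₂, h7, h8⟩
        · -- W₁ = b ++ W₂, C = W₂ ++ f :: D
          right
          refine ⟨U, A₂ ++ (b' ++ W₂), D, ?_, ?_, ?_, ?_⟩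
          · rw [h.hB', hA1, h8]
            simp
          · exact (h.z1 U _ hA1).1 hU
          · have h9 : C = (W₂ ++ [f]) ++ D := by rw [h8]; simp
            have h10 := h.z2 _ _ h9
            have h11 : A ++ (b ++ (W₂ ++ [f])) = U ++ e :: (W ++ [f]) := by
              rw [hA1, h5, h7]; simp
            have h12 : A ++ (b' ++ (W₂ ++ [f])) = U ++ e :: (A₂ ++ (b' ++ W₂) ++ [f]) := by
              rw [hA1]; simp
            rw [h11, h12] at h10
            exact h10.1 hf
          · intro X Y hXY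
            rcases List.append_eq_append_iff.1 hXY with ⟨X₁, h9, h10⟩ | ⟨X₁, h9, h10⟩
            · -- X = A₂ ++ X₁, b' ++ W₂ = X₁ ++ Y
              rcases List.append_eq_append_iff.1 h10 with ⟨X₂, h11, h12⟩ | ⟨X₂, h11, h12⟩
              · -- X₁ = b' ++ X₂, W₂ = X₂ ++ Y
                have h13 : C = X₂ ++ (Y ++ f :: D) := by rw [h8, h12]; simp
                have h14 := h.z2 _ _ h13
                have h15 : A ++ (b ++ X₂) = U ++ e :: (A₂ ++ (b ++ X₂)) := by rw [hA1]; simp
                have h16 : A ++ (b' ++ X₂) = U ++ e :: X := by rw [hA1, h9, h11]; simp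
                rw [h15, h16] at h14
                have h17 : W = (A₂ ++ (b ++ X₂)) ++ Y := by rw [h5, h7, h12]; simp
                exact fun h18 => hW _ _ h17 (h14.2 h18)
              · -- b' = X₁ ++ X₂
                have h13 := h.z4' hnA X₁ X₂ h11
                have h14 : U ++ e :: X = A ++ X₁ := by rw [hA1, h9]; simp
                rw [h14]
                exact h13
            · -- A₂ = X ++ X₁
              have h11 : A = (U ++ e :: X) ++ X₁ := by rw [hA1, h9]; simp
              have h12 : W = X ++ (X₁ ++ W₁) := by rw [h5, h9]; simp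
              exact fun h13 => hW _ _ h12 ((h.z1 _ _ h11).2 h13)
        · -- b = W₁ ++ b₂, f :: D = b₂ ++ C
          cases b₂ with
          | nil =>
            rw [List.append_nil] at h7
            rw [List.nil_append] at h8
            right
            refine ⟨U, A₂ ++ b', D, ?_, ?_, ?_, ?_⟩
            · rw [h.hB', hA1, ← h8]
              simp
            · exact (h.z1 U _ hA1).1 hU
            · have h9 : C = [f] ++ D := by rw [← h8]; simp
              have h10 := h.z2 _ _ h9
              have h11 : A ++ (b ++ [f]) = U ++ e :: (W ++ [f]) := by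
                rw [hA1, h5, h7]; simp
              have h12 : A ++ (b' ++ [f]) = U ++ e :: (A₂ ++ b' ++ [f]) := by
                rw [hA1]; simp
              rw [h11, h12] at h10
              exact h10.1 hf
            · intro X Y hXY
              rcases List.append_eq_append_iff.1 hXY with ⟨X₁, h9, h10⟩ | ⟨X₁, h9, h10⟩
              · have h13 := h.z4' hnA X₁ Y h10
                have h14 : U ++ e :: X = A ++ X₁ := by rw [hA1, h9]; simp
                rw [h14]
                exact h13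
              · have h11 : A = (U ++ e :: X) ++ X₁ := by rw [hA1, h9]; simp
                have h12 : W = X ++ (X₁ ++ W₁) := by rw [h5, h9]; simp
                exact fun h13 => hW _ _ h12 ((h.z1 _ _ h11).2 h13)
          | cons f' b₃ =>
            rw [List.cons_append, List.cons.injEq] at h8
            obtain ⟨rfl, h8⟩ := h8
            exfalso
            refine h.z4 hnA (W₁ ++ [f]) b₃ (by rw [h7]; simp) ?_
            have h9 : A ++ (W₁ ++ [f]) = U ++ e :: (W ++ [f]) := by rw [hA1, h5]; simp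
            rw [h9]
            exact hf

theorem first_non {Z : List α → Prop} (D : List α) : ∀ P : List α, Z P →
    (∃ X Y, D = X ++ Y ∧ ¬ Z (P ++ X)) →
    ∃ X e Y, D = X ++ e :: Y ∧ Z (P ++ X) ∧ ¬ Z (P ++ (X ++ [e])) := by
  induction D with
  | nil =>
    rintro P hP ⟨X, Y, h1, h2⟩
    have h3 : X = [] := (List.append_eq_nil_iff.1 h1.symm).1
    rw [h3, List.append_nil] at h2
    exact absurd hP h2
  | cons a D ih =>
    rintro P hP ⟨X, Y, h1, h2⟩
    by_cases ha : Z (P ++ [a])
    · cases X with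
      | nil =>
        rw [List.append_nil] at h2
        exact absurd hP h2
      | cons a' X =>
        rw [List.cons_append, List.cons.injEq] at h1
        obtain ⟨rfl, h1⟩ := h1
        obtain ⟨X', e, Y', h3, h4, h5⟩ := ih (P ++ [a]) ha ⟨X, Y, h1, by simpa using h2⟩
        refine ⟨a :: X', e, Y', by rw [h3]; rfl, by simpa using h4, by simpa using h5⟩
    · exact ⟨[], a, D, rfl, by simpa using hP, by simpa using ha⟩

theorem first_z {Z : List α → Prop} (D : List α) : ∀ P : List α, ¬ Z P → Z (P ++ D) →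
    ∃ X f Y, D = X ++ f :: Y ∧ Z (P ++ (X ++ [f])) ∧ ∀ X₁ X₂, X = X₁ ++ X₂ → ¬ Z (P ++ X₁) := by
  induction D with
  | nil =>
    intro P hP h
    rw [List.append_nil] at h
    exact absurd h hP
  | cons a D ih =>
    intro P hP h
    by_cases ha : Z (P ++ [a])
    · refine ⟨[], a, D, rfl, by simpa using ha, ?_⟩
      intro X₁ X₂ hX
      have : X₁ = [] := (List.append_eq_nil_iff.1 hX.symm).1
      rw [this, List.append_nil]
      exact hP
    · obtain ⟨X', f, Y', h3, h4, h5⟩ := ih (P ++ [a]) ha (by simpa using h)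
      refine ⟨a :: X', f, Y', by rw [h3]; rfl, by simpa using h4, ?_⟩
      intro X₁ X₂ hX
      cases X₁ with
      | nil =>
        rw [List.append_nil]
        exact hP
      | cons a' X₁ =>
        rw [List.cons_append, List.cons.injEq] at hX
        obtain ⟨rfl, hX⟩ := hX
        simpa using h5 X₁ X₂ hX

theorem exists_bnd {B : List α} {Z : List α → Prop} (h0 : Z []) (h1 : Z B) {U D : List α}
    (hB : B = U ++ D) (hn : ¬ Z U) : ∃ e f, Bnd B Z e f := by
  obtain ⟨X, e, Y, h2, h3, h4⟩ := first_non (Z := Z) B [] h0 ⟨U, D, hB, by simpa using hn⟩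
  rw [List.nil_append] at h3 h4
  have h5 : B = (X ++ [e]) ++ Y := by rw [h2]; simp
  obtain ⟨W, f, D', h6, h7, h8⟩ := first_z (Z := Z) Y (X ++ [e]) h4 (by rw [← h5]; exact h1)
  refine ⟨e, f, X, W, D', ?_, h3, ?_, ?_⟩
  · rw [h2, h6]
  · simpa using h7
  · intro W₁ W₂ hW
    simpa using h8 W₁ W₂ hW

end Trans

/-- a discrete stress on a sweep with `n` events; `B j` is the state between the times `j` and
`j + 1`, the event `j` takes place at the time `j + 1`; `m k e` is the bending moment of the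
edge `e` at the time `k` -/
structure StressData {α β : Type} (n : ℕ) (B A C b b' : ℕ → List α) (h : ℕ → ℝ) (m : ℕ → α → ℝ)
    (lf rt : α → β) : Prop where
  hB : ∀ j < n, B j = A j ++ (b j ++ C j)
  hB' : ∀ j < n, B (j + 1) = A j ++ (b' j ++ C j)
  B0 : B 0 = []
  Bn : B n = []
  hpos : ∀ j, 0 < h j
  t1 : ∀ j ≤ n, ((B j).map (m j)).sum = 0
  t2 : ∀ j ≤ n, ((B j).map (m (j + 1))).sum = 0
  b1 : ∀ j < n, ∀ e ∈ b j, m (j + 1) e = 0
  b2 : ∀ j < n, ∀ e ∈ b' j, m (j + 1) e = 0
  sA : ∀ j < n, ∀ e ∈ A j,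
    (m (j + 2) e - m (j + 1) e) / h (j + 1) ≤ (m (j + 1) e - m j e) / h j
  sC : ∀ j < n, ∀ e ∈ C j,
    (m (j + 1) e - m j e) / h j ≤ (m (j + 2) e - m (j + 1) e) / h (j + 1)
  nd : ∀ j ≤ n, (B j).Nodup
  r : ∀ j < n, ∀ e ∈ b j, ∀ f ∈ b j, rt e = rt f
  l : ∀ j < n, ∀ e ∈ b' j, ∀ f ∈ b' j, lf e = lf f
  inj : ∀ e f, lf e = lf f → rt e = rt f → e = f

section Stress

variable {α β : Type} {n : ℕ} {B A C b b' : ℕ → List α} {h : ℕ → ℝ} {m : ℕ → α → ℝ}
  {lf rt : α → β}

/-- sum of the moments at the time `k` over a list of edges -/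
def mSum (m : ℕ → α → ℝ) (k : ℕ) (U : List α) : ℝ := (U.map (m k)).sum

theorem mSum_append (m : ℕ → α → ℝ) (k : ℕ) (U V : List α) :
    mSum m k (U ++ V) = mSum m k U + mSum m k V := by
  unfold mSum
  rw [List.map_append, List.sum_append]

theorem mSum_nil (m : ℕ → α → ℝ) (k : ℕ) : mSum m k [] = 0 := by
  simp [mSum]

theorem mSum_zero (m : ℕ → α → ℝ) (k : ℕ) (U : List α) (hU : ∀ e ∈ U, m k e = 0) :
    mSum m k U = 0 := by
  unfold mSum
  induction U with
  | nil => simp
  | cons e U ih =>
    rw [List.map_cons, List.sum_cons, hU e List.mem_cons_self,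
      ih (fun f hf => hU f (List.mem_cons_of_mem _ hf)), add_zero]

/-- the cut `U` of `B j` persists as the cut `U'` of `B (j + 1)` -/
def Pers (A C b b' : ℕ → List α) (j : ℕ) (U U' : List α) : Prop :=
  (∃ U₁, A j = U ++ U₁ ∧ U' = U) ∨
  (∃ C₁ D, C j = C₁ ++ D ∧ U = A j ++ (b j ++ C₁) ∧ U' = A j ++ (b' j ++ C₁))

theorem slope_le (H : StressData n B A C b b' h m lf rt) {j : ℕ} (hj : j < n) (U : List α)
    (hU : ∀ e ∈ U, e ∈ A j) :
    (mSum m (j + 2) U - mSum m (j + 1) U) / h (j + 1) ≤ (mSum m (j + 1) U - mSum m j U) / h j := by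
  induction U with
  | nil => simp [mSum_nil]
  | cons e U ih =>
    have h1 := ih (fun f hf => hU f (List.mem_cons_of_mem _ hf))
    have h2 := H.sA j hj e (hU e List.mem_cons_self)
    have h3 : ∀ k, mSum m k (e :: U) = m k e + mSum m k U := by
      intro k; simp [mSum]
    rw [h3, h3, h3]
    have h4 : (m (j + 2) e + mSum m (j + 2) U - (m (j + 1) e + mSum m (j + 1) U)) / h (j + 1)
        = (m (j + 2) e - m (j + 1) e) / h (j + 1)
          + (mSum m (j + 2) U - mSum m (j + 1) U) / h (j + 1) := by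
      rw [← add_div]; congr 1; ring
    have h5 : (m (j + 1) e + mSum m (j + 1) U - (m j e + mSum m j U)) / h j
        = (m (j + 1) e - m j e) / h j + (mSum m (j + 1) U - mSum m j U) / h j := by
      rw [← add_div]; congr 1; ring
    rw [h4, h5]
    exact add_le_add h2 h1

theorem slope_ge (H : StressData n B A C b b' h m lf rt) {j : ℕ} (hj : j < n) (U : List α)
    (hU : ∀ e ∈ U, e ∈ C j) :
    (mSum m (j + 1) U - mSum m j U) / h j ≤ (mSum m (j + 2) U - mSum m (j + 1) U) / h (j + 1) := by
  induction U with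
  | nil => simp [mSum_nil]
  | cons e U ih =>
    have h1 := ih (fun f hf => hU f (List.mem_cons_of_mem _ hf))
    have h2 := H.sC j hj e (hU e List.mem_cons_self)
    have h3 : ∀ k, mSum m k (e :: U) = m k e + mSum m k U := by
      intro k; simp [mSum]
    rw [h3, h3, h3]
    have h4 : (m (j + 2) e + mSum m (j + 2) U - (m (j + 1) e + mSum m (j + 1) U)) / h (j + 1)
        = (m (j + 2) e - m (j + 1) e) / h (j + 1)
          + (mSum m (j + 2) U - mSum m (j + 1) U) / h (j + 1) := by
      rw [← add_div]; congr 1; ring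
    have h5 : (m (j + 1) e + mSum m (j + 1) U - (m j e + mSum m j U)) / h j
        = (m (j + 1) e - m j e) / h j + (mSum m (j + 1) U - mSum m j U) / h j := by
      rw [← add_div]; congr 1; ring
    rw [h4, h5]
    exact add_le_add h2 h1

theorem total1 (H : StressData n B A C b b' h m lf rt) {j : ℕ} (hj : j ≤ n) {U D : List α}
    (hU : B j = U ++ D) : mSum m j U = - mSum m j D := by
  have h1 := H.t1 j hj
  have h2 : mSum m j (B j) = 0 := h1
  rw [hU, mSum_append] at h2
  linarith

theorem total2 (H : StressData n B A C b b' h m lf rt) {j : ℕ} (hj : j ≤ n) {U D : List α}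
    (hU : B j = U ++ D) : mSum m (j + 1) U = - mSum m (j + 1) D := by
  have h1 := H.t2 j hj
  have h2 : mSum m (j + 1) (B j) = 0 := h1
  rw [hU, mSum_append] at h2
  linarith

theorem Pers.val (H : StressData n B A C b b' h m lf rt) {j : ℕ} (hj : j < n) {U U' : List α}
    (hp : Pers A C b b' j U U') : mSum m (j + 1) U = mSum m (j + 1) U' := by
  rcases hp with ⟨U₁, _, rfl⟩ | ⟨C₁, D, _, rfl, rfl⟩
  · rfl
  · rw [mSum_append, mSum_append, mSum_append, mSum_append, mSum_zero m _ _ (H.b1 j hj),
      mSum_zero m _ _ (H.b2 j hj)]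

theorem Pers.conc (H : StressData n B A C b b' h m lf rt) {j : ℕ} (hj : j < n) {U U' : List α}
    (hp : Pers A C b b' j U U') :
    (mSum m (j + 2) U' - mSum m (j + 1) U') / h (j + 1)
      ≤ (mSum m (j + 1) U - mSum m j U) / h j := by
  rcases hp with ⟨U₁, hU₁, rfl⟩ | ⟨C₁, D, hC, rfl, rfl⟩
  · refine slope_le H hj _ ?_
    intro e he
    rw [hU₁]
    exact List.mem_append_left _ he
  · have hd : B j = (A j ++ (b j ++ C₁)) ++ D := by rw [H.hB j hj, hC]; simp
    have hd' : B (j + 1) = (A j ++ (b' j ++ C₁)) ++ D := by rw [H.hB' j hj, hC]; simp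
    have h1 := slope_ge H hj D (by
      intro e he
      rw [hC]
      exact List.mem_append_right _ he)
    rw [total1 H hj.le hd, total2 H hj.le hd, total1 H hj hd', total2 H hj hd']
    have h2 : (- mSum m (j + 1 + 1) D - - mSum m (j + 1) D) / h (j + 1)
        = - ((mSum m (j + 2) D - mSum m (j + 1) D) / h (j + 1)) := by
      rw [← neg_div]; congr 1; ring
    have h3 : (- mSum m (j + 1) D - - mSum m j D) / h j
        = - ((mSum m (j + 1) D - mSum m j D) / h j) := by
      rw [← neg_div]; congr 1; ring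
    rw [h2, h3]
    exact neg_le_neg h1

theorem Pers.left {j : ℕ} {U U' : List α} (H : StressData n B A C b b' h m lf rt) (hj : j < n)
    (hp : Pers A C b b' j U U') : U <+: B j := by
  rcases hp with ⟨U₁, hU₁, rfl⟩ | ⟨C₁, D, hC, rfl, rfl⟩
  · exact ⟨U₁ ++ (b j ++ C j), by rw [H.hB j hj, hU₁]; simp⟩
  · exact ⟨D, by rw [H.hB j hj, hC]; simp⟩

theorem Pers.right {j : ℕ} {U U' : List α} (H : StressData n B A C b b' h m lf rt) (hj : j < n)
    (hp : Pers A C b b' j U U') : U' <+: B (j + 1) := by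
  rcases hp with ⟨U₁, hU₁, rfl⟩ | ⟨C₁, D, hC, rfl, rfl⟩
  · exact ⟨U₁ ++ (b' j ++ C j), by rw [H.hB' j hj, hU₁]; simp⟩
  · exact ⟨D, by rw [H.hB' j hj, hC]; simp⟩

theorem cut_cases (A b C : List α) (U : List α) (hU : U <+: A ++ (b ++ C)) :
    (∃ U₁, A = U ++ U₁) ∨ (∃ b₁ b₂, b = b₁ ++ b₂ ∧ U = A ++ b₁) ∨
      (∃ C₁ D, C = C₁ ++ D ∧ U = A ++ (b ++ C₁)) := by
  obtain ⟨D, hD⟩ := hU
  rcases List.append_eq_append_iff.1 hD with ⟨X, h1, h2⟩ | ⟨X, h1, h2⟩
  · exact Or.inl ⟨X, h1⟩
  · right
    rcases List.append_eq_append_iff.1 h2 with ⟨Y, h3, h4⟩ | ⟨Y, h3, h4⟩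
    · right
      exact ⟨Y, D, h4, by rw [h1, h3]⟩
    · left
      exact ⟨X, Y, h3, h1⟩

theorem cut_before (H : StressData n B A C b b' h m lf rt) {j : ℕ} (hj : j < n) {U : List α}
    (hU : U <+: B j) : ∃ V V', Pers A C b b' j V V' ∧ mSum m (j + 1) V = mSum m (j + 1) U := by
  rw [H.hB j hj] at hU
  rcases cut_cases _ _ _ _ hU with ⟨U₁, h1⟩ | ⟨b₁, b₂, h1, h2⟩ | ⟨C₁, D, h1, h2⟩
  · exact ⟨U, U, Or.inl ⟨U₁, h1, rfl⟩, rfl⟩
  · refine ⟨A j, A j, Or.inl ⟨[], by simp, rfl⟩, ?_⟩
    rw [h2, mSum_append, mSum_zero m _ b₁, add_zero]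
    intro e he
    exact H.b1 j hj e (by rw [h1]; exact List.mem_append_left _ he)
  · exact ⟨U, A j ++ (b' j ++ C₁), Or.inr ⟨C₁, D, h1, h2, rfl⟩, rfl⟩

theorem cut_after (H : StressData n B A C b b' h m lf rt) {j : ℕ} (hj : j < n) {U' : List α}
    (hU : U' <+: B (j + 1)) :
    ∃ V V', Pers A C b b' j V V' ∧ mSum m (j + 1) V' = mSum m (j + 1) U' := by
  rw [H.hB' j hj] at hU
  rcases cut_cases _ _ _ _ hU with ⟨U₁, h1⟩ | ⟨b₁, b₂, h1, h2⟩ | ⟨C₁, D, h1, h2⟩
  · exact ⟨U', U', Or.inl ⟨U₁, h1, rfl⟩, rfl⟩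
  · refine ⟨A j, A j, Or.inl ⟨[], by simp, rfl⟩, ?_⟩
    rw [h2, mSum_append, mSum_zero m _ b₁, add_zero]
    intro e he
    exact H.b2 j hj e (by rw [h1]; exact List.mem_append_left _ he)
  · exact ⟨A j ++ (b j ++ C₁), U', Or.inr ⟨C₁, D, h1, rfl, h2⟩, rfl⟩

/-- minimum principle -/
theorem cut_nonneg (H : StressData n B A C b b' h m lf rt) :
    ∀ j ≤ n, ∀ U, U <+: B j → 0 ≤ mSum m (j + 1) U := by
  classical
  let s : Finset ℝ := (Finset.range (n + 1)).biUnion
    (fun j => ((B j).inits.map (fun U => mSum m (j + 1) U)).toFinset)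
  have hs : ∀ z, z ∈ s ↔ ∃ j ≤ n, ∃ U, U <+: B j ∧ mSum m (j + 1) U = z := by
    intro z
    simp only [s, Finset.mem_biUnion, Finset.mem_range, List.mem_toFinset, List.mem_map,
      List.mem_inits, Nat.lt_succ_iff]
  have hne : s.Nonempty := ⟨0, (hs 0).2 ⟨0, Nat.zero_le _, [], List.nil_prefix, mSum_nil _ _⟩⟩
  obtain ⟨μ, hμ, hmin⟩ := s.exists_min_image id hne
  simp only [id] at hmin
  by_contra hcon
  push Not at hcon
  obtain ⟨j₁, hj₁, U₁, hU₁, hneg⟩ := hcon
  have hμneg : μ < 0 := lt_of_le_of_lt (hmin _ ((hs _).2 ⟨j₁, hj₁, U₁, hU₁, rfl⟩)) hneg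
  have hR : ∀ j ≤ n, ∀ U, U <+: B j → μ ≤ mSum m (j + 1) U :=
    fun j hj U hU => hmin _ ((hs _).2 ⟨j, hj, U, hU, rfl⟩)
  have hL : ∀ j ≤ n, ∀ U, U <+: B j → μ ≤ mSum m j U := by
    intro j hj U hU
    cases j with
    | zero =>
      rw [H.B0] at hU
      have : U = [] := List.prefix_nil.1 hU
      rw [this, mSum_nil]
      exact hμneg.le
    | succ i =>
      obtain ⟨V, V', h1, h2⟩ := cut_after H hj hU
      rw [← h2, ← h1.val H hj]
      exact hR i (Nat.le_of_lt hj) V (h1.left H hj)
  obtain ⟨j₀, hj₀, U₀, hU₀, hval⟩ := (hs μ).1 hμ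
  have key : ∀ k, j₀ ≤ k → k ≤ n → ∃ U, U <+: B k ∧ mSum m (k + 1) U = μ := by
    intro k hk
    induction k, hk using Nat.le_induction with
    | base => exact fun _ => ⟨U₀, hU₀, hval⟩
    | succ k hk ih =>
      intro hkn
      obtain ⟨U, hU, hUv⟩ := ih (Nat.le_of_lt hkn)
      obtain ⟨V, V', h1, h2⟩ := cut_before H hkn hU
      have h3 : mSum m (k + 1) V = μ := by rw [h2, hUv]
      have h4 : mSum m (k + 1) V' = μ := by rw [← h1.val H hkn, h3]
      have h5 := h1.conc H hkn
      have h6 := hL k (Nat.le_of_lt hkn) V (h1.left H hkn)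
      have h7 := hR (k + 1) hkn V' (h1.right H hkn)
      refine ⟨V', h1.right H hkn, le_antisymm ?_ h7⟩
      rw [h3, h4] at h5
      have h8 : (μ - mSum m k V) / h k ≤ 0 :=
        div_nonpos_of_nonpos_of_nonneg (by linarith) (H.hpos k).le
      have h9 : (mSum m (k + 2) V' - μ) / h (k + 1) ≤ 0 := h5.trans h8
      have h10 := (div_le_iff₀ (H.hpos (k + 1))).1 h9
      rw [zero_mul] at h10
      have h11 : k + 1 + 1 = k + 2 := rfl
      rw [h11]
      linarith
  obtain ⟨U, hU, hUv⟩ := key n hj₀ le_rfl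
  rw [H.Bn] at hU
  have : U = [] := List.prefix_nil.1 hU
  rw [this, mSum_nil] at hUv
  linarith

theorem cut_nonneg' (H : StressData n B A C b b' h m lf rt) :
    ∀ j ≤ n, ∀ U, U <+: B j → 0 ≤ mSum m j U := by
  intro j hj U hU
  cases j with
  | zero =>
    rw [H.B0] at hU
    have : U = [] := List.prefix_nil.1 hU
    rw [this, mSum_nil]
  | succ i =>
    obtain ⟨V, V', h1, h2⟩ := cut_after H hj hU
    rw [← h2, ← h1.val H hj]
    exact cut_nonneg H i (Nat.le_of_lt hj) V (h1.left H hj)

/-- the cut is zero on the whole slab -/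
def ZC (m : ℕ → α → ℝ) (j : ℕ) (U : List α) : Prop := mSum m j U = 0 ∧ mSum m (j + 1) U = 0

theorem Pers.z_iff (H : StressData n B A C b b' h m lf rt) {j : ℕ} (hj : j < n) {U U' : List α}
    (hp : Pers A C b b' j U U') :
    (ZC m j U ↔ mSum m (j + 1) U = 0) ∧ (ZC m (j + 1) U' ↔ mSum m (j + 1) U = 0) := by
  have hval := hp.val H hj
  have hmain : mSum m (j + 1) U = 0 → mSum m j U = 0 ∧ mSum m (j + 2) U' = 0 := by
    intro h0
    have h1 := hp.conc H hj
    rw [← hval, h0] at h1
    have h2 := cut_nonneg' H j hj.le U (hp.left H hj)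
    have h3 := cut_nonneg H (j + 1) hj U' (hp.right H hj)
    have h4 : 0 ≤ (mSum m (j + 2) U' - 0) / h (j + 1) :=
      div_nonneg (by simpa using h3) (H.hpos _).le
    have h5 : (0 - mSum m j U) / h j ≤ 0 :=
      div_nonpos_of_nonpos_of_nonneg (by linarith) (H.hpos j).le
    constructor
    · have h6 : 0 ≤ (0 - mSum m j U) / h j := h4.trans h1
      have h7 := (le_div_iff₀ (H.hpos j)).1 h6
      rw [zero_mul] at h7
      linarith
    · have h6 : (mSum m (j + 2) U' - 0) / h (j + 1) ≤ 0 := h1.trans h5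
      have h7 := (div_le_iff₀ (H.hpos (j + 1))).1 h6
      rw [zero_mul] at h7
      have h8 : 0 ≤ mSum m (j + 2) U' := h3
      linarith
  constructor
  · exact ⟨fun h1 => h1.2, fun h1 => ⟨(hmain h1).1, h1⟩⟩
  · constructor
    · intro h1
      rw [hval]
      exact h1.1
    · intro h1
      exact ⟨by rw [← hval]; exact h1, (hmain h1).2⟩

theorem stress_trans (H : StressData n B A C b b' h m lf rt) {j : ℕ} (hj : j < n) :
    Trans (B j) (B (j + 1)) (A j) (b j) (b' j) (C j) (ZC m j) (ZC m (j + 1)) := by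
  have hA : Pers A C b b' j (A j) (A j) := Or.inl ⟨[], by simp, rfl⟩
  have hAb : Pers A C b b' j (A j ++ (b j ++ [])) (A j ++ (b' j ++ [])) :=
    Or.inr ⟨[], C j, by simp, rfl, rfl⟩
  refine ⟨H.hB j hj, H.hB' j hj, ?_, ?_, ?_, ?_, ?_⟩
  · intro U U₁ hU
    have hp : Pers A C b b' j U U := Or.inl ⟨U₁, hU, rfl⟩
    rw [(hp.z_iff H hj).1, (hp.z_iff H hj).2]
  · intro C₁ D hC
    have hp : Pers A C b b' j (A j ++ (b j ++ C₁)) (A j ++ (b' j ++ C₁)) :=
      Or.inr ⟨C₁, D, hC, rfl, rfl⟩
    rw [(hp.z_iff H hj).1, (hp.z_iff H hj).2]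
  · rw [(hA.z_iff H hj).1]
    have h1 := (hAb.z_iff H hj).1
    rw [List.append_nil] at h1
    rw [h1, mSum_append, mSum_zero m _ (b j) (H.b1 j hj), add_zero]
  · intro hn b₁ b₂ hb hz
    apply hn
    rw [(hA.z_iff H hj).1]
    have h1 := hz.2
    rw [mSum_append, mSum_zero m _ b₁, add_zero] at h1
    · exact h1
    · intro e he
      exact H.b1 j hj e (by rw [hb]; exact List.mem_append_left _ he)
  · intro hn b₁ b₂ hb hz
    apply hn
    rw [(hA.z_iff H hj).1]
    have h1 := hz.1
    rw [mSum_append, mSum_zero m _ b₁, add_zero] at h1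
    · exact h1
    · intro e he
      exact H.b2 j hj e (by rw [hb]; exact List.mem_append_left _ he)

theorem bnd_right (H : StressData n B A C b b' h m lf rt) {e f : α} (d : ℕ) :
    ∀ j, j + d = n → Bnd (B j) (ZC m j) e f → rt e = rt f := by
  induction d with
  | zero =>
    intro j hj hb
    obtain ⟨U, W, D, h1, _⟩ := hb
    have : j = n := by omega
    rw [this, H.Bn] at h1
    simp at h1
  | succ d ih =>
    intro j hj hb
    have hjn : j < n := by omega
    rcases (stress_trans H hjn).step hb with ⟨h1, h2⟩ | h1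
    · exact H.r j hjn e h1 f h2
    · exact ih (j + 1) (by omega) h1

theorem bnd_left (H : StressData n B A C b b' h m lf rt) {e f : α} (j : ℕ) :
    j ≤ n → Bnd (B j) (ZC m j) e f → lf e = lf f := by
  induction j with
  | zero =>
    intro hj hb
    obtain ⟨U, W, D, h1, _⟩ := hb
    rw [H.B0] at h1
    simp at h1
  | succ j ih =>
    intro hj hb
    rcases (stress_trans H hj).symm.step hb with ⟨h1, h2⟩ | h1
    · exact H.l j hj e h1 f h2
    · exact ih (Nat.le_of_lt hj) h1

/-- a discrete stress vanishes -/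
theorem stress_zero (H : StressData n B A C b b' h m lf rt) :
    ∀ j ≤ n, ∀ e ∈ B j, m j e = 0 ∧ m (j + 1) e = 0 := by
  have hall : ∀ j ≤ n, ∀ U D, B j = U ++ D → ZC m j U := by
    intro j hj U D hU
    by_contra hn
    obtain ⟨e, f, hb⟩ := exists_bnd (Z := ZC m j) ⟨mSum_nil _ _, mSum_nil _ _⟩
      (show ZC m j (B j) from ⟨H.t1 j hj, H.t2 j hj⟩) hU hn
    have h1 := bnd_right H (n - j) j (by omega) hb
    have h2 := bnd_left H j hj hb
    have h3 := H.inj e f h2 h1
    obtain ⟨U', W, D', h4, _⟩ := hb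
    have h5 := H.nd j hj
    rw [h4, h3] at h5
    have h6 := (List.nodup_append.1 h5).2.1
    rw [List.nodup_cons] at h6
    exact h6.1 (by simp)
  intro j hj e he
  obtain ⟨U, D, hUD⟩ := List.append_of_mem he
  have h1 := hall j hj U (e :: D) hUD
  have h2 := hall j hj (U ++ [e]) D (by rw [hUD]; simp)
  have h3 : ∀ k, mSum m k (U ++ [e]) = mSum m k U + m k e := by
    intro k
    rw [mSum_append]
    simp [mSum]
  obtain ⟨h4, h5⟩ := h1
  obtain ⟨h6, h7⟩ := h2
  rw [h3] at h6 h7
  exact ⟨by linarith, by linarith⟩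

end Stress

end Pool.Agent.FlatFold
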