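import Mathlib
import Pool.Agent.Lib.MP_b92007_lc.HeightsDefs
import Pool.Agent.Lib.MP_b92007_lc.StressComb
import Pool.Agent.Lib.MP_b92007_lc.Gordan

namespace Pool.Agent.FlatFold

/-- a run as a sequence of states; `v₀` is a default vertex -/
structure RunSeq {V : Type} (typ : V → Bool) (ord : V → List V) (v₀ : V) (vs : List V)
    (B B' : List (V × V)) (Bs A C b b' : ℕ → List (V × V)) : Prop where
  zero : Bs 0 = B
  last : Bs vs.length = B'
  hB : ∀ j < vs.length, Bs j = A j ++ (b j ++ C j)
  hB' : ∀ j < vs.length, Bs (j + 1) = A j ++ (b' j ++ C j)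
  cases : ∀ j < vs.length,
    (typ (vs.getD j v₀) = true ∧ b j = [] ∧
      b' j = (ord (vs.getD j v₀)).map (fun w => (vs.getD j v₀, w))) ∨
    (typ (vs.getD j v₀) = false ∧
      b j = ((ord (vs.getD j v₀)).map (fun w => (w, vs.getD j v₀))).reverse ∧ b' j = [])

/-- prepend a value to a sequence -/
def consSeq {β : Type} (a : β) (f : ℕ → β) : ℕ → β
  | 0 => a
  | j + 1 => f j

theorem run_seq {V : Type} {typ : V → Bool} {ord : V → List V} (v₀ : V) {vs : List V}
    {B B' : List (V × V)} (run : Run typ ord vs B B') :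
    ∃ Bs A C b b', RunSeq typ ord v₀ vs B B' Bs A C b b' := by
  induction run with
  | nil B =>
    refine ⟨fun _ => B, fun _ => [], fun _ => [], fun _ => [], fun _ => [], rfl, rfl, ?_, ?_, ?_⟩ <;>
    · intro j hj
      simp at hj
  | opn v vs A₀ C₀ B' hv h ih =>
    obtain ⟨Bs, A, C, b, b', h1, h2, h3, h4, h5⟩ := ih
    refine ⟨consSeq (A₀ ++ C₀) Bs, consSeq A₀ A, consSeq C₀ C, consSeq [] b,
      consSeq ((ord v).map (fun w => (v, w))) b', rfl, ?_, ?_, ?_, ?_⟩
    · rw [List.length_cons]
      exact h2
    · intro j hj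
      cases j with
      | zero => simp [consSeq]
      | succ j =>
        rw [List.length_cons] at hj
        exact h3 j (by omega)
    · intro j hj
      cases j with
      | zero =>
        simp only [consSeq]
        rw [h1]
        simp
      | succ j =>
        rw [List.length_cons] at hj
        exact h4 j (by omega)
    · intro j hj
      cases j with
      | zero =>
        left
        simp only [consSeq, List.getD_cons_zero]
        refine ⟨hv, ?_, ?_⟩ <;> trivial
      | succ j =>
        rw [List.length_cons] at hj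
        simp only [consSeq, List.getD_cons_succ]
        exact h5 j (by omega)
  | cls v vs A₀ C₀ B' hv h ih =>
    obtain ⟨Bs, A, C, b, b', h1, h2, h3, h4, h5⟩ := ih
    refine ⟨consSeq (A₀ ++ ((ord v).map (fun w => (w, v))).reverse ++ C₀) Bs, consSeq A₀ A,
      consSeq C₀ C, consSeq (((ord v).map (fun w => (w, v))).reverse) b,
      consSeq [] b', rfl, ?_, ?_, ?_, ?_⟩
    · rw [List.length_cons]
      exact h2
    · intro j hj
      cases j with
      | zero => simp [consSeq]
      | succ j =>
        rw [List.length_cons] at hj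
        exact h3 j (by omega)
    · intro j hj
      cases j with
      | zero =>
        simp only [consSeq]
        rw [h1]
        simp
      | succ j =>
        rw [List.length_cons] at hj
        exact h4 j (by omega)
    · intro j hj
      cases j with
      | zero =>
        right
        simp only [consSeq, List.getD_cons_zero]
        refine ⟨hv, ?_, ?_⟩ <;> trivial
      | succ j =>
        rw [List.length_cons] at hj
        simp only [consSeq, List.getD_cons_succ]
        exact h5 j (by omega)

section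

variable {V : Type} {typ : V → Bool} {ord : V → List V} {v₀ : V} {vs : List V}
  {Bs A C b b' : ℕ → List (V × V)}

theorem RunSeq.new_left (S : RunSeq typ ord v₀ vs [] [] Bs A C b b') {j : ℕ}
    (hj : j < vs.length) {e : V × V} (he : e ∈ b' j) : e.1 = vs.getD j v₀ := by
  rcases S.cases j hj with ⟨_, _, h⟩ | ⟨_, _, h⟩
  · rw [h] at he
    obtain ⟨w, _, rfl⟩ := List.mem_map.1 he
    rfl
  · rw [h] at he
    simp at he

theorem RunSeq.old_right (S : RunSeq typ ord v₀ vs [] [] Bs A C b b') {j : ℕ}
    (hj : j < vs.length) {e : V × V} (he : e ∈ b j) : e.2 = vs.getD j v₀ := by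
  rcases S.cases j hj with ⟨_, h, _⟩ | ⟨_, h, _⟩
  · rw [h] at he
    simp at he
  · rw [h, List.mem_reverse] at he
    obtain ⟨w, _, rfl⟩ := List.mem_map.1 he
    rfl

theorem RunSeq.left_idx (S : RunSeq typ ord v₀ vs [] [] Bs A C b b') :
    ∀ j ≤ vs.length, ∀ e ∈ Bs j, ∃ i < j, e.1 = vs.getD i v₀ := by
  intro j
  induction j with
  | zero =>
    intro _ e he
    rw [S.zero] at he
    simp at he
  | succ j ih =>
    intro hj e he
    rw [S.hB' j hj, List.mem_append, List.mem_append] at he
    have hB := S.hB j hj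
    rcases he with he | he | he
    · obtain ⟨i, hi, h⟩ := ih (Nat.le_of_lt hj) e (by rw [hB]; simp [he])
      exact ⟨i, by omega, h⟩
    · exact ⟨j, by omega, S.new_left hj he⟩
    · obtain ⟨i, hi, h⟩ := ih (Nat.le_of_lt hj) e (by rw [hB]; simp [he])
      exact ⟨i, by omega, h⟩

theorem RunSeq.right_idx (S : RunSeq typ ord v₀ vs [] [] Bs A C b b') (d : ℕ) :
    ∀ j, j + d = vs.length → ∀ e ∈ Bs j, ∃ k, j ≤ k ∧ k < vs.length ∧ e.2 = vs.getD k v₀ := by
  induction d with
  | zero =>
    intro j hj e he
    have : j = vs.length := by omega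
    rw [this, S.last] at he
    simp at he
  | succ d ih =>
    intro j hj e he
    have hjn : j < vs.length := by omega
    rw [S.hB j hjn, List.mem_append, List.mem_append] at he
    have hB := S.hB' j hjn
    rcases he with he | he | he
    · obtain ⟨k, hk, hk2, h⟩ := ih (j + 1) (by omega) e (by rw [hB]; simp [he])
      exact ⟨k, by omega, hk2, h⟩
    · exact ⟨j, le_rfl, hjn, S.old_right hjn he⟩
    · obtain ⟨k, hk, hk2, h⟩ := ih (j + 1) (by omega) e (by rw [hB]; simp [he])
      exact ⟨k, by omega, hk2, h⟩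

/-- an edge present at `k` but not at `j < k` is created in between -/
theorem RunSeq.created (S : RunSeq typ ord v₀ vs [] [] Bs A C b b') {j : ℕ} {e : V × V}
    (hj : e ∉ Bs j) : ∀ k, j ≤ k → k ≤ vs.length → e ∈ Bs k →
      ∃ i, j ≤ i ∧ i < k ∧ e.1 = vs.getD i v₀ := by
  intro k hk
  induction k, hk using Nat.le_induction with
  | base => exact fun _ h => absurd h hj
  | succ k hk ih =>
    intro hkn he
    by_cases hek : e ∈ Bs k
    · obtain ⟨i, h1, h2, h3⟩ := ih (Nat.le_of_lt hkn) hek
      exact ⟨i, h1, by omega, h3⟩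
    · refine ⟨k, hk, by omega, S.new_left hkn ?_⟩
      rw [S.hB' k hkn, List.mem_append, List.mem_append] at he
      rw [S.hB k hkn, List.mem_append, List.mem_append] at hek
      tauto

/-- an edge present at `k` but not at `j > k` is removed in between -/
theorem RunSeq.removed (S : RunSeq typ ord v₀ vs [] [] Bs A C b b') {k : ℕ} {e : V × V}
    (hk : e ∈ Bs k) : ∀ j, k ≤ j → j ≤ vs.length → e ∉ Bs j →
      ∃ i, k ≤ i ∧ i < j ∧ e.2 = vs.getD i v₀ := by
  intro j hj
  induction j, hj using Nat.le_induction with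
  | base => exact fun _ h => absurd hk h
  | succ j hj ih =>
    intro hjn he
    by_cases hej : e ∈ Bs j
    · refine ⟨j, hj, by omega, S.old_right hjn ?_⟩
      rw [S.hB' j hjn, List.mem_append, List.mem_append] at he
      rw [S.hB j hjn, List.mem_append, List.mem_append] at hej
      tauto
    · obtain ⟨i, h1, h2, h3⟩ := ih (Nat.le_of_lt hjn) hej
      exact ⟨i, h1, by omega, h3⟩

theorem getD_x {x : V → ℝ} (hx : vs.Pairwise (fun u v => x u < x v)) {i j : ℕ} (hij : i < j)
    (hj : j < vs.length) : x (vs.getD i v₀) < x (vs.getD j v₀) := by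
  rw [List.getD_eq_getElem _ _ (hij.trans hj), List.getD_eq_getElem _ _ hj]
  exact List.pairwise_iff_getElem.1 hx i j (hij.trans hj) hj hij

theorem RunSeq.nodup (S : RunSeq typ ord v₀ vs [] [] Bs A C b b') {x : V → ℝ}
    (hx : vs.Pairwise (fun u v => x u < x v)) (hnd : ∀ v, (ord v).Nodup) :
    ∀ j ≤ vs.length, (Bs j).Nodup := by
  intro j
  induction j with
  | zero =>
    intro _
    rw [S.zero]
    exact List.nodup_nil
  | succ j ih =>
    intro hj
    have h1 := ih (Nat.le_of_lt hj)
    have hL := S.left_idx j (Nat.le_of_lt hj)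
    rw [S.hB j hj] at h1 hL
    rw [S.hB' j hj]
    rcases S.cases j hj with ⟨_, h2, h3⟩ | ⟨_, h2, h3⟩
    · rw [h2, List.nil_append] at h1 hL
      have h4 : (b' j).Nodup := by
        rw [h3]
        refine (hnd _).map ?_
        intro a b hab
        exact (Prod.mk.inj hab).2
      have h5 : ∀ e ∈ b' j, e ∉ A j ++ C j := by
        intro e he he'
        obtain ⟨i, hi, h6⟩ := hL e he'
        have h7 := S.new_left hj he
        have h8 := getD_x (v₀ := v₀) hx hi hj
        rw [← h6, ← h7] at h8
        exact lt_irrefl _ h8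
      obtain ⟨hA, hC, hAC⟩ := List.nodup_append.1 h1
      rw [List.nodup_append]
      refine ⟨hA, ?_, ?_⟩
      · rw [List.nodup_append]
        refine ⟨h4, hC, ?_⟩
        intro e he f hf hef
        rw [← hef] at hf
        exact h5 e he (List.mem_append_right _ hf)
      · intro e he f hf hef
        rw [← hef] at hf
        rcases List.mem_append.1 hf with hf | hf
        · exact h5 e hf (List.mem_append_left _ he)
        · exact hAC e he e hf rfl
    · rw [h3, List.nil_append]
      obtain ⟨hA, hbC, hAC⟩ := List.nodup_append.1 h1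
      rw [List.nodup_append]
      refine ⟨hA, (List.nodup_append.1 hbC).2.1, ?_⟩
      intro e he f hf hef
      exact hAC e he f (List.mem_append_right _ hf) hef

/-- from strict inequalities back to `RunH` -/
theorem RunSeq.runH (S : RunSeq typ ord v₀ vs [] [] Bs A C b b') {x y : V → ℝ}
    (hA : ∀ j < vs.length, ∀ e ∈ A j, segHt x y e (x (vs.getD j v₀)) < y (vs.getD j v₀))
    (hC : ∀ j < vs.length, ∀ e ∈ C j, y (vs.getD j v₀) < segHt x y e (x (vs.getD j v₀)))
    (d : ℕ) : ∀ j, j + d = vs.length → RunH typ ord x y (vs.drop j) (Bs j) [] := by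
  induction d with
  | zero =>
    intro j hj
    have h1 : j = vs.length := by omega
    rw [h1, S.last, List.drop_length]
    exact RunH.nil []
  | succ d ih =>
    intro j hj
    have hjn : j < vs.length := by omega
    have h1 := ih (j + 1) (by omega)
    rw [S.hB' j hjn] at h1
    rw [S.hB j hjn, List.drop_eq_getElem_cons hjn, ← List.getD_eq_getElem vs v₀ hjn]
    rcases S.cases j hjn with ⟨h2, h3, h4⟩ | ⟨h2, h3, h4⟩
    · rw [h3, List.nil_append]
      rw [h4, ← List.append_assoc] at h1
      exact RunH.opn _ _ _ _ _ h2 (hA j hjn) (hC j hjn) h1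
    · rw [h3, ← List.append_assoc]
      rw [h4, List.nil_append] at h1
      exact RunH.cls _ _ _ _ _ h2 (hA j hjn) (hC j hjn) h1

end

/-! ### the bending moments -/

/-- the contribution of a unit load at the abscissa `s` -/
noncomputable def Phi {V : Type} (x : V → ℝ) (e : V × V) (s T : ℝ) : ℝ :=
  max (T - s) 0 - (max (T - x e.1) 0 +
    (max (T - x e.2) 0 - max (T - x e.1) 0) * ((s - x e.1) / (x e.2 - x e.1)))

theorem Phi_left {V : Type} {x : V → ℝ} {e : V × V} {s T : ℝ} (h1 : x e.1 < s) (h2 : s < x e.2)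
    (hT : T ≤ x e.1) : Phi x e s T = 0 := by
  unfold Phi
  rw [max_eq_right (by linarith), max_eq_right (by linarith), max_eq_right (by linarith)]
  ring

theorem Phi_right {V : Type} {x : V → ℝ} {e : V × V} {s T : ℝ} (h1 : x e.1 < s) (h2 : s < x e.2)
    (hT : x e.2 ≤ T) : Phi x e s T = 0 := by
  unfold Phi
  rw [max_eq_left (by linarith), max_eq_left (by linarith), max_eq_left (by linarith)]
  have h3 : x e.2 - x e.1 ≠ 0 := by
    intro h
    linarith
  field_simp
  ring

theorem Phi_mid {V : Type} {x : V → ℝ} {e : V × V} {s T : ℝ} (h1 : x e.1 ≤ T) (h2 : T ≤ x e.2) :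
    Phi x e s T = max (T - s) 0 - (T - x e.1) * (1 - (s - x e.1) / (x e.2 - x e.1)) := by
  unfold Phi
  rw [max_eq_left (by linarith : (0 : ℝ) ≤ T - x e.1), max_eq_right (by linarith : T - x e.2 ≤ 0)]
  ring

/-- slope of `Phi` inside the edge -/
theorem Phi_slope {V : Type} {x : V → ℝ} {e : V × V} {s T₁ T₂ : ℝ} (h1 : x e.1 ≤ T₁)
    (h2 : T₂ ≤ x e.2) (h : T₁ < T₂) :
    (Phi x e s T₂ - Phi x e s T₁) / (T₂ - T₁) =
      (max (T₂ - s) 0 - max (T₁ - s) 0) / (T₂ - T₁)
        - (1 - (s - x e.1) / (x e.2 - x e.1)) := by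
  rw [Phi_mid (by linarith) h2, Phi_mid h1 (by linarith)]
  have h3 : T₂ - T₁ ≠ 0 := by
    intro h
    linarith
  generalize (s - x e.1) / (x e.2 - x e.1) = θ
  field_simp
  ring

theorem max_slope_before {s T₁ T₂ : ℝ} (h : T₁ < T₂) (hs : T₂ ≤ s) :
    (max (T₂ - s) 0 - max (T₁ - s) 0) / (T₂ - T₁) = 0 := by
  rw [max_eq_right (by linarith), max_eq_right (by linarith)]
  simp

theorem max_slope_after {s T₁ T₂ : ℝ} (h : T₁ < T₂) (hs : s ≤ T₁) :
    (max (T₂ - s) 0 - max (T₁ - s) 0) / (T₂ - T₁) = 1 := by
  rw [max_eq_left (by linarith), max_eq_left (by linarith)]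
  rw [div_eq_one_iff_eq (by intro h'; linarith)]
  ring

/-- the times: `tm 0` is before all events, `tm (j + 1)` is the abscissa of the event `j` -/
noncomputable def tm {V : Type} (x : V → ℝ) (v₀ : V) (vs : List V) : ℕ → ℝ
  | 0 => x (vs.getD 0 v₀) - 1
  | j + 1 => if j < vs.length then x (vs.getD j v₀)
      else x (vs.getD (vs.length - 1) v₀) + ((j + 1 - vs.length : ℕ) : ℝ)

theorem tm_succ {V : Type} {x : V → ℝ} {v₀ : V} {vs : List V} {j : ℕ} (hj : j < vs.length) :
    tm x v₀ vs (j + 1) = x (vs.getD j v₀) := by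
  rw [tm, if_pos hj]

theorem tm_strictMono {V : Type} {x : V → ℝ} {v₀ : V} {vs : List V}
    (hx : vs.Pairwise (fun u v => x u < x v)) (hne : 0 < vs.length) :
    StrictMono (tm x v₀ vs) := by
  apply strictMono_nat_of_lt_succ
  intro j
  cases j with
  | zero =>
    rw [tm_succ hne, tm]
    linarith
  | succ j =>
    by_cases h1 : j + 1 < vs.length
    · rw [tm_succ h1, tm_succ (by omega)]
      exact getD_x hx (Nat.lt_succ_self j) h1
    · rw [tm, tm, if_neg h1]
      by_cases h2 : j < vs.length
      · rw [if_pos h2]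
        have h3 : vs.length - 1 = j := by omega
        have h4 : j + 1 + 1 - vs.length = 1 := by omega
        rw [h3, h4]
        push_cast
        linarith
      · rw [if_neg h2]
        have h4 : j + 1 + 1 - vs.length = (j + 1 - vs.length) + 1 := by omega
        rw [h4]
        push_cast
        linarith

section

variable {V : Type} [Fintype V] [DecidableEq V] {typ : V → Bool} {ord : V → List V} {v₀ : V}
  {vs : List V} {Bs A C b b' : ℕ → List (V × V)} {x : V → ℝ}

/-- bending moment of the edge `e` at the abscissa `T` for the loads `w` -/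
noncomputable def bend (x : V → ℝ) (v₀ : V) (vs : List V) (w : ℕ → V × V → ℝ) (e : V × V)
    (T : ℝ) : ℝ :=
  - ∑ k ∈ Finset.range vs.length, w k e * Phi x e (x (vs.getD k v₀)) T

omit [Fintype V] [DecidableEq V] in
theorem RunSeq.pass (S : RunSeq typ ord v₀ vs [] [] Bs A C b b')
    (hx : vs.Pairwise (fun u v => x u < x v)) {k : ℕ} (hk : k < vs.length) {e : V × V}
    (he : e ∈ A k ∨ e ∈ C k) :
    (e ∈ Bs k ∧ e ∈ Bs (k + 1)) ∧ x e.1 ≤ tm x v₀ vs k ∧ tm x v₀ vs (k + 2) ≤ x e.2 := by
  have h1 : e ∈ Bs k := by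
    rw [S.hB k hk, List.mem_append, List.mem_append]
    tauto
  have h2 : e ∈ Bs (k + 1) := by
    rw [S.hB' k hk, List.mem_append, List.mem_append]
    tauto
  have hne : 0 < vs.length := by omega
  have hmono := (tm_strictMono (v₀ := v₀) hx hne).monotone
  obtain ⟨i, hi, h3⟩ := S.left_idx k hk.le e h1
  obtain ⟨j, hj, hj2, h4⟩ := S.right_idx (vs.length - (k + 1)) (k + 1) (by omega) e h2
  refine ⟨⟨h1, h2⟩, ?_, ?_⟩
  · rw [h3, ← tm_succ (x := x) (by omega : i < vs.length)]
    exact hmono (by omega)
  · rw [h4, ← tm_succ (x := x) hj2]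
    exact hmono (by omega)

theorem bend_zero (S : RunSeq typ ord v₀ vs [] [] Bs A C b b')
    (hx : vs.Pairwise (fun u v => x u < x v)) {w : ℕ → V × V → ℝ}
    (hw : ∀ k < vs.length, ∀ e, e ∉ A k → e ∉ C k → w k e = 0) {e : V × V} {T : ℝ}
    (h : ∀ k < vs.length, (e ∈ A k ∨ e ∈ C k) → T ≤ x e.1 ∨ x e.2 ≤ T) :
    bend x v₀ vs w e T = 0 := by
  unfold bend
  rw [neg_eq_zero]
  apply Finset.sum_eq_zero
  intro k hk
  rw [Finset.mem_range] at hk
  by_cases he : e ∈ A k ∨ e ∈ C k
  · have hne : 0 < vs.length := by omega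
    have hmono := tm_strictMono (v₀ := v₀) hx hne
    obtain ⟨_, h1, h2⟩ := S.pass hx hk he
    have h3 : tm x v₀ vs (k + 1) = x (vs.getD k v₀) := tm_succ hk
    have h4 := hmono (Nat.lt_succ_self k)
    have h5 := hmono (Nat.lt_succ_self (k + 1))
    have h6 : x e.1 < x (vs.getD k v₀) := by rw [← h3]; exact lt_of_le_of_lt h1 h4
    have h7 : x (vs.getD k v₀) < x e.2 := by rw [← h3]; exact lt_of_lt_of_le h5 h2
    rcases h k hk he with h8 | h8
    · rw [Phi_left h6 h7 h8, mul_zero]
    · rw [Phi_right h6 h7 h8, mul_zero]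
  · push Not at he
    rw [hw k hk e he.1 he.2, zero_mul]

/-- the moment of an edge that is not in the state `Bs j` vanishes on the slab `j` -/
theorem bend_absent (S : RunSeq typ ord v₀ vs [] [] Bs A C b b')
    (hx : vs.Pairwise (fun u v => x u < x v)) {w : ℕ → V × V → ℝ}
    (hw : ∀ k < vs.length, ∀ e, e ∉ A k → e ∉ C k → w k e = 0) {e : V × V} {j : ℕ}
    (hj : j ≤ vs.length) (he : e ∉ Bs j) {T : ℝ} (hT1 : tm x v₀ vs j ≤ T)
    (hT2 : T ≤ tm x v₀ vs (j + 1)) : bend x v₀ vs w e T = 0 := by
  refine bend_zero S hx hw ?_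
  intro k hk hek
  have hne : 0 < vs.length := by omega
  have hmono := (tm_strictMono (v₀ := v₀) hx hne).monotone
  obtain ⟨⟨h1, h2⟩, _, _⟩ := S.pass hx hk hek
  rcases Nat.lt_or_ge k j with hkj | hkj
  · right
    obtain ⟨i, h3, h4, h5⟩ := S.removed h2 j hkj hj he
    rw [h5, ← tm_succ (x := x) (by omega : i < vs.length)]
    exact (hmono (by omega)).trans hT1
  · left
    obtain ⟨i, h3, h4, h5⟩ := S.created he k hkj hk.le h1
    rw [h5, ← tm_succ (x := x) (by omega : i < vs.length)]
    exact hT2.trans (hmono (by omega))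

/-- second difference of the moment at an event passed by `e` -/
theorem bend_slope (S : RunSeq typ ord v₀ vs [] [] Bs A C b b')
    (hx : vs.Pairwise (fun u v => x u < x v)) (w : ℕ → V × V → ℝ) {e : V × V} {j : ℕ}
    (hj : j < vs.length) (he : e ∈ A j ∨ e ∈ C j) :
    (bend x v₀ vs w e (tm x v₀ vs (j + 2)) - bend x v₀ vs w e (tm x v₀ vs (j + 1))) /
        (tm x v₀ vs (j + 2) - tm x v₀ vs (j + 1))
      = (bend x v₀ vs w e (tm x v₀ vs (j + 1)) - bend x v₀ vs w e (tm x v₀ vs j)) /
        (tm x v₀ vs (j + 1) - tm x v₀ vs j) - w j e := by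
  have hne : 0 < vs.length := by omega
  have hmono := tm_strictMono (v₀ := v₀) hx hne
  obtain ⟨_, h1, h2⟩ := S.pass hx hj he
  have h3 : tm x v₀ vs j < tm x v₀ vs (j + 1) := hmono (by omega)
  have h4 : tm x v₀ vs (j + 1) < tm x v₀ vs (j + 2) := hmono (by omega)
  have key : ∀ T₁ T₂ : ℝ, (bend x v₀ vs w e T₂ - bend x v₀ vs w e T₁) / (T₂ - T₁)
      = - ∑ k ∈ Finset.range vs.length,
          w k e * ((Phi x e (x (vs.getD k v₀)) T₂ - Phi x e (x (vs.getD k v₀)) T₁) / (T₂ - T₁)) := by
    intro T₁ T₂
    unfold bend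
    rw [← neg_add_eq_sub, neg_neg, ← sub_eq_add_neg, ← Finset.sum_sub_distrib, Finset.sum_div,
      ← Finset.sum_neg_distrib]
    apply Finset.sum_congr rfl
    intro k _
    ring
  rw [key, key, neg_eq_iff_eq_neg, neg_sub, sub_neg_eq_add, ← sub_eq_iff_eq_add,
    ← Finset.sum_sub_distrib]
  rw [Finset.sum_eq_single_of_mem j (Finset.mem_range.2 hj)]
  · have h5 : tm x v₀ vs (j + 1) = x (vs.getD j v₀) := tm_succ hj
    rw [← h5, Phi_slope (by linarith) h2 h4, Phi_slope h1 (by linarith) h3,
      max_slope_after h4 le_rfl, max_slope_before h3 le_rfl]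
    ring
  · intro k hk hkj
    rw [Finset.mem_range] at hk
    have h5 : tm x v₀ vs (k + 1) = x (vs.getD k v₀) := tm_succ hk
    rw [← h5, Phi_slope (by linarith) h2 h4, Phi_slope h1 (by linarith) h3]
    rcases Nat.lt_or_gt_of_ne hkj with h7 | h7
    · have h8 := hmono.monotone (by omega : k + 1 ≤ j)
      rw [max_slope_after h4 (by linarith), max_slope_after h3 h8]
      ring
    · have h8 := hmono.monotone (by omega : j + 2 ≤ k + 1)
      rw [max_slope_before h4 h8, max_slope_before h3 (by linarith)]
      ring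

/-- the moments form a discrete stress -/
theorem bend_stress (S : RunSeq typ ord v₀ vs [] [] Bs A C b b')
    (hx : vs.Pairwise (fun u v => x u < x v)) (hne : 0 < vs.length)
    (hnd : ∀ v, (ord v).Nodup) {w : ℕ → V × V → ℝ}
    (hw : ∀ k < vs.length, ∀ e, e ∉ A k → e ∉ C k → w k e = 0)
    (hwA : ∀ k < vs.length, ∀ e ∈ A k, 0 ≤ w k e)
    (hwC : ∀ k < vs.length, ∀ e ∈ C k, w k e ≤ 0)
    (heq : ∀ T, ∑ e, bend x v₀ vs w e T = 0) :
    StressData vs.length Bs A C b b' (fun j => tm x v₀ vs (j + 1) - tm x v₀ vs j)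
      (fun k e => bend x v₀ vs w e (tm x v₀ vs k)) (fun e : V × V => e.1) (fun e => e.2) := by
  have hmono := tm_strictMono (v₀ := v₀) hx hne
  have htot : ∀ j ≤ vs.length, ∀ T, tm x v₀ vs j ≤ T → T ≤ tm x v₀ vs (j + 1) →
      ((Bs j).map (fun e => bend x v₀ vs w e T)).sum = 0 := by
    intro j hj T hT1 hT2
    rw [← List.sum_toFinset _ (S.nodup hx hnd j hj), ← heq T]
    apply Finset.sum_subset (Finset.subset_univ _)
    intro e _ he
    rw [List.mem_toFinset] at he
    exact bend_absent S hx hw hj he hT1 hT2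
  refine ⟨S.hB, S.hB', S.zero, S.last, ?_, ?_, ?_, ?_, ?_, ?_, ?_, S.nodup hx hnd, ?_, ?_, ?_⟩
  · intro j
    have : tm x v₀ vs j < tm x v₀ vs (j + 1) := hmono (Nat.lt_succ_self j)
    linarith
  · intro j hj
    exact htot j hj _ le_rfl (hmono (Nat.lt_succ_self j)).le
  · intro j hj
    exact htot j hj _ (hmono (Nat.lt_succ_self j)).le le_rfl
  · intro j hj e he
    refine bend_zero S hx hw ?_
    intro k _ _
    right
    rw [S.old_right hj he, tm_succ hj]
  · intro j hj e he
    refine bend_zero S hx hw ?_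
    intro k _ _
    left
    rw [S.new_left hj he, tm_succ hj]
  · intro j hj e he
    rw [bend_slope S hx w hj (Or.inl he)]
    have := hwA j hj e he
    linarith
  · intro j hj e he
    rw [bend_slope S hx w hj (Or.inr he)]
    have := hwC j hj e he
    linarith
  · intro j hj e he f hf
    rw [S.old_right hj he, S.old_right hj hf]
  · intro j hj e he f hf
    rw [S.new_left hj he, S.new_left hj hf]
  · intro e f h1 h2
    exact Prod.ext h1 h2

/-- an equilibrium stress with the right signs vanishes -/
theorem weights_zero (S : RunSeq typ ord v₀ vs [] [] Bs A C b b')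
    (hx : vs.Pairwise (fun u v => x u < x v)) (hne : 0 < vs.length)
    (hnd : ∀ v, (ord v).Nodup) {w : ℕ → V × V → ℝ}
    (hw : ∀ k < vs.length, ∀ e, e ∉ A k → e ∉ C k → w k e = 0)
    (hwA : ∀ k < vs.length, ∀ e ∈ A k, 0 ≤ w k e)
    (hwC : ∀ k < vs.length, ∀ e ∈ C k, w k e ≤ 0)
    (heq : ∀ T, ∑ e, bend x v₀ vs w e T = 0) :
    ∀ k < vs.length, ∀ e, w k e = 0 := by
  intro k hk e
  by_cases he : e ∈ A k ∨ e ∈ C k
  · have H := bend_stress S hx hne hnd hw hwA hwC heq
    obtain ⟨⟨h1, h2⟩, _, _⟩ := S.pass hx hk he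
    have h3 := stress_zero H k hk.le e h1
    have h4 := stress_zero H (k + 1) hk e h2
    have h5 := bend_slope S hx w hk he
    have h6 : k + 1 + 1 = k + 2 := rfl
    rw [h6] at h4
    rw [h3.1, h3.2, h4.2] at h5
    simp only [sub_self, zero_div, zero_sub] at h5
    linarith
  · push Not at he
    exact hw k hk e he.1 he.2

end

/-- the height functional of a constraint: vertex minus edge -/
noncomputable def gapL {V : Type} (x : V → ℝ) (e : V × V) (v : V) : (V → ℝ) →ₗ[ℝ] ℝ where
  toFun y := y v - segHt x y e (x v)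
  map_add' y z := by
    simp only [segHt, Pi.add_apply]
    ring
  map_smul' c y := by
    simp only [segHt, Pi.smul_apply, smul_eq_mul, RingHom.id_apply]
    ring

/-- M2a (stress part: Gordan / separation + minimum principle). -/
theorem exists_heights {V : Type} [Fintype V] [DecidableEq V] (typ : V → Bool) (ord : V → List V)
    (x : V → ℝ) (vs : List V) (hx : vs.Pairwise (fun u v => x u < x v)) (hall : ∀ v, v ∈ vs)
    (hnd : ∀ v, (ord v).Nodup) (run : Run typ ord vs [] []) :
    ∃ y : V → ℝ, RunH typ ord x y vs [] [] := by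
  cases hvs : vs with
  | nil =>
    exact ⟨fun _ => 0, RunH.nil []⟩
  | cons v₀ vs' =>
    rw [← hvs]
    have hne : 0 < vs.length := by rw [hvs]; simp
    obtain ⟨Bs, A, C, b, b', S⟩ := run_seq v₀ run
    -- the constraints
    let K : Finset (ℕ × (V × V) × Bool) :=
      ((Finset.range vs.length) ×ˢ (Finset.univ ×ˢ Finset.univ)).filter
        (fun k => if k.2.2 then k.2.1 ∈ A k.1 else k.2.1 ∈ C k.1)
    have hK : ∀ j e s, (j, e, s) ∈ K ↔ j < vs.length ∧ (if s = true then e ∈ A j else e ∈ C j) := by
      intro j e s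
      simp [K]
    let g : ℕ × (V × V) × Bool → (V → ℝ) →ₗ[ℝ] ℝ := fun k =>
      (if k.2.2 then (1 : ℝ) else -1) • gapL x k.2.1 (vs.getD k.1 v₀)
    have hg : ∀ j e s y, g (j, e, s) y
        = (if s = true then (1 : ℝ) else -1) *
          (y (vs.getD j v₀) - segHt x y e (x (vs.getD j v₀))) := by
      intro j e s y
      simp only [g, LinearMap.smul_apply, smul_eq_mul, gapL, LinearMap.coe_mk, AddHom.coe_mk]
    rcases gordan K g with ⟨y, hy⟩ | ⟨μ, hμ0, hμ1, hμ⟩
    · refine ⟨y, ?_⟩
      have h1 := S.runH (x := x) (y := y) (by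
        intro j hj e he
        have h2 := hy (j, e, true) ((hK j e true).2 ⟨hj, by simpa using he⟩)
        rw [hg, if_pos rfl] at h2
        linarith) (by
        intro j hj e he
        have h2 := hy (j, e, false) ((hK j e false).2 ⟨hj, by simpa using he⟩)
        rw [hg, if_neg (by simp)] at h2
        linarith) vs.length 0 (by omega)
      rw [List.drop_zero, S.zero] at h1
      exact h1
    · exfalso
      -- signed weights
      let w : ℕ → V × V → ℝ := fun j e =>
        (if (j, e, true) ∈ K then μ (j, e, true) else 0)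
          - (if (j, e, false) ∈ K then μ (j, e, false) else 0)
      have hAC : ∀ j < vs.length, ∀ e ∈ A j, e ∉ C j := by
        intro j hj e he he'
        have h1 := S.nodup hx hnd j hj.le
        rw [S.hB j hj] at h1
        exact (List.nodup_append.1 h1).2.2 e he e (List.mem_append_right _ he') rfl
      have hw : ∀ k < vs.length, ∀ e, e ∉ A k → e ∉ C k → w k e = 0 := by
        intro k hk e h1 h2
        simp only [w]
        rw [if_neg, if_neg, sub_zero]
        · rw [hK]; simp [h2]
        · rw [hK]; simp [h1]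
      have hwA : ∀ k < vs.length, ∀ e ∈ A k, w k e = μ (k, e, true) := by
        intro k hk e h1
        simp only [w]
        rw [if_pos, if_neg, sub_zero]
        · rw [hK]; simp [hAC k hk e h1]
        · rw [hK]; simp [h1, hk]
      have hwC : ∀ k < vs.length, ∀ e ∈ C k, w k e = - μ (k, e, false) := by
        intro k hk e h1
        simp only [w]
        rw [if_neg, if_pos, zero_sub]
        · rw [hK]; simp [h1, hk]
        · rw [hK]
          simp only [if_true, not_and]
          intro _ h2
          exact hAC k hk e h2 h1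
      have heq : ∀ y : V → ℝ, ∑ e, ∑ k ∈ Finset.range vs.length,
          w k e * (y (vs.getD k v₀) - segHt x y e (x (vs.getD k v₀))) = 0 := by
        intro y
        rw [← hμ y]
        simp only [K]
        rw [Finset.sum_filter, Finset.sum_product, Finset.sum_comm]
        apply Finset.sum_congr rfl
        intro j hj
        rw [Finset.mem_range] at hj
        rw [Finset.sum_product]
        apply Finset.sum_congr rfl
        intro e _
        rw [Fintype.sum_bool, hg, hg]
        simp only [w, hK, hj, true_and, if_true, Bool.false_eq_true, if_false]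
        by_cases h1 : e ∈ A j
        · have h2 := hAC j hj e h1
          simp only [h1, h2, if_true, if_false]
          ring
        · by_cases h2 : e ∈ C j
          · simp only [h1, h2, if_true, if_false]
            ring
          · simp only [h1, h2, if_false]
            ring
      have hz := weights_zero S hx hne hnd hw (fun k hk e he => by
          rw [hwA k hk e he]
          exact hμ0 _ ((hK _ _ _).2 ⟨hk, by simpa using he⟩)) (fun k hk e he => by
          rw [hwC k hk e he]
          have := hμ0 (k, e, false) ((hK _ _ _).2 ⟨hk, by simpa using he⟩)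
          linarith) (by
          intro T
          have h1 := heq (fun u => max (T - x u) 0)
          unfold bend
          rw [Finset.sum_neg_distrib, neg_eq_zero]
          exact h1)
      have h0 : ∑ k ∈ K, μ k = 0 := by
        apply Finset.sum_eq_zero
        rintro ⟨j, e, s⟩ hk
        have h1 := (hK j e s).1 hk
        cases s with
        | true =>
          have h2 : e ∈ A j := by simpa using h1.2
          rw [← hwA j h1.1 e h2]
          exact hz j h1.1 e
        | false =>
          have h2 : e ∈ C j := by simpa using h1.2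
          have h3 := hwC j h1.1 e h2
          rw [hz j h1.1 e] at h3
          linarith
      rw [h0] at hμ1
      exact zero_ne_one hμ1

end Pool.Agent.FlatFold
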