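import Mathlib
import Pool.Agent.Lib.MP_b92007_lc.Faces
import Pool.Agent.Lib.MP_b92007_lc.Euler

/-! Necessity: a sweep gives a mountain assignment for which all faces collapse. -/

namespace Pool.Agent.FlatFold
namespace Win

/-- an infinite chain of adjoint monotone maps `ℤ → ℤ` -/
def g (n x : ℤ) : ℤ := if n % 2 = 0 then 2 * x + n / 2 else (x - n / 2) / 2

theorem g_mono (n : ℤ) : Monotone (g n) := by
  intro x y h
  unfold g
  split_ifs <;> omega

theorem g_unit (n x : ℤ) : x ≤ g (n + 1) (g n x) := by
  unfold g
  split_ifs <;> omega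

theorem g_counit (n x : ℤ) : g n (g (n + 1) x) ≤ x := by
  unfold g
  split_ifs <;> omega

theorem g_inj (n m : ℤ) (h : ∀ x, g n x = g m x) : n = m := by
  have h0 := h 0
  have h1 := h 1
  have h2 := h 2
  have h3 := h (-1)
  have h4 := h (m/2)
  have h5 := h (n/2)
  unfold g at h0 h1 h2 h3 h4 h5
  split_ifs at h0 h1 h2 h3 h4 h5 <;> omega

theorem left_adj (t : ℤ) (h1 : ∀ x, x ≤ g 0 (g t x)) (h2 : ∀ x, g t (g 0 x) ≤ x) : t = -1 := by
  apply g_inj
  intro x
  have a1 : ∀ x, x ≤ g 0 (g (-1) x) := fun x => by simpa using g_unit (-1) x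
  have a2 : ∀ x, g (-1) (g 0 x) ≤ x := fun x => by simpa using g_counit (-1) x
  apply le_antisymm
  · calc g t x ≤ g t (g 0 (g (-1) x)) := g_mono t (a1 x)
      _ ≤ g (-1) x := h2 _
  · calc g (-1) x ≤ g (-1) (g 0 (g t x)) := g_mono (-1) (h1 x)
      _ ≤ g t x := a2 _

theorem right_adj (t : ℤ) (h1 : ∀ x, x ≤ g t (g 0 x)) (h2 : ∀ x, g 0 (g t x) ≤ x) : t = 1 := by
  apply g_inj
  intro x
  have a1 : ∀ x, x ≤ g 1 (g 0 x) := fun x => by simpa using g_unit 0 x
  have a2 : ∀ x, g 0 (g 1 x) ≤ x := fun x => by simpa using g_counit 0 x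
  apply le_antisymm
  · calc g t x ≤ g 1 (g 0 (g t x)) := a1 _
      _ ≤ g 1 x := g_mono 1 (h2 x)
  · calc g 1 x ≤ g t (g 0 (g 1 x)) := h1 _
      _ ≤ g t x := g_mono t (a2 x)

section

variable {V : Type} (Θ : V × V → Option ℤ)

/-- the map of a strand -/
def st (d : V × V) (x : ℤ) : ℤ :=
  match Θ d with
  | none => x
  | some n => g n x

theorem st_mono (d : V × V) : Monotone (st Θ d) := by
  intro x y h
  unfold st
  split
  · exact h
  · exact g_mono _ h

/-- composition, the last one outermost -/
def cup : List (V × V) → ℤ → ℤ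
  | [], x => x
  | d :: T, x => cup T (st Θ d x)

/-- composition, the first one outermost -/
def cdn : List (V × V) → ℤ → ℤ
  | [], x => x
  | d :: T, x => st Θ d (cdn T x)

theorem cup_mono (T : List (V × V)) : Monotone (cup Θ T) := by
  induction T with
  | nil => intro x y h; exact h
  | cons d T ih => intro x y h; exact ih (st_mono Θ d h)

theorem cdn_mono (T : List (V × V)) : Monotone (cdn Θ T) := by
  induction T with
  | nil => intro x y h; exact h
  | cons d T ih => intro x y h; exact st_mono Θ d (ih h)

theorem cup_append (S T : List (V × V)) (x : ℤ) : cup Θ (S ++ T) x = cup Θ T (cup Θ S x) := by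
  induction S generalizing x with
  | nil => rfl
  | cons d S ih => exact ih _

theorem cdn_append (S T : List (V × V)) (x : ℤ) : cdn Θ (S ++ T) x = cdn Θ S (cdn Θ T x) := by
  induction S with
  | nil => rfl
  | cons d S ih => simp only [List.cons_append, cdn, ih]

theorem cup_reverse (T : List (V × V)) (x : ℤ) : cup Θ T.reverse x = cdn Θ T x := by
  induction T generalizing x with
  | nil => rfl
  | cons d T ih => simp only [List.reverse_cons, cup_append, cdn, cup, ih]

theorem cdn_reverse (T : List (V × V)) (x : ℤ) : cdn Θ T.reverse x = cup Θ T x := by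
  rw [← cup_reverse, List.reverse_reverse]

/-- the strands of a list of edges, from bottom to top -/
def strands (B : List (V × V)) : List (V × V) := B.flatMap (fun e => [(e.2, e.1), e])

theorem strands_append (A B : List (V × V)) : strands (A ++ B) = strands A ++ strands B := by
  simp [strands]

theorem strands_cons (e : V × V) (B : List (V × V)) :
    strands (e :: B) = (e.2, e.1) :: e :: strands B := by
  simp [strands]

theorem strands_rotate (B : List (V × V)) :
    strands ((B.map Prod.swap).reverse) = (strands B).reverse := by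
  induction B with
  | nil => rfl
  | cons e B ih =>
    simp only [List.map_cons, List.reverse_cons, strands_append, ih, strands_cons,
      List.append_assoc]
    simp [strands, Prod.swap]

/-- a corner with incoming dart label `a` and outgoing dart label `b` and sign `s` -/
def CornerOK (a b : Option ℤ) (s : ℤ) : Prop :=
  (a = none ∧ b = none) ∨ ∃ n, a = some n ∧ b = some (n + s)

/-- all valley corners between consecutive neighbours in the list are fine -/
def ChainOK (v : V) (L : List V) : Prop :=
  L.IsChain (fun w w' => CornerOK (Θ (w', v)) (Θ (v, w)) (-1))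

/-- all corners at `v` are fine -/
def VertexOK (ord : V → List V) (v : V) : Prop :=
  ChainOK Θ v (ord v) ∧
    ∀ w w', (ord v).head? = some w → (ord v).getLast? = some w' →
      CornerOK (Θ (w, v)) (Θ (v, w')) 1

/-- strands of an opening block -/
def oblock (v : V) (L : List V) : List (V × V) := strands (L.map (fun w => (v, w)))

theorem cup_oblock (v : V) (L : List V) (hL : ChainOK Θ v L) (w w' : V)
    (hw : L.head? = some w) (hw' : L.getLast? = some w') (x : ℤ) :
    st Θ (v, w') (st Θ (w, v) x) ≤ cup Θ (oblock v L) x := by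
  induction L generalizing w x with
  | nil => simp at hw
  | cons a L ih =>
    cases L with
    | nil =>
      simp only [List.head?_cons, Option.some.injEq, List.getLast?_singleton] at hw hw'
      subst hw hw'
      simp [oblock, strands, cup]
    | cons b L =>
      simp only [List.head?_cons, Option.some.injEq] at hw
      subst hw
      have h1 : ChainOK Θ v (b :: L) := by
        unfold ChainOK at hL ⊢
        exact (List.isChain_cons_cons.mp hL).2
      have h2 : CornerOK (Θ (b, v)) (Θ (v, a)) (-1) := by
        unfold ChainOK at hL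
        exact (List.isChain_cons_cons.mp hL).1
      have hw2 : (b :: L).getLast? = some w' := by
        rw [← hw']
        simp [List.getLast?_cons_cons]
      have h3 := ih h1 b rfl hw2 (st Θ (v, a) (st Θ (a, v) x))
      have h4 : cup Θ (oblock v (a :: b :: L)) x =
          cup Θ (oblock v (b :: L)) (st Θ (v, a) (st Θ (a, v) x)) := by
        simp [oblock, strands, cup]
      rw [h4]
      refine le_trans ?_ h3
      apply st_mono
      rcases h2 with ⟨h5, h6⟩ | ⟨n, h5, h6⟩
      · simp [st, h5, h6]
      · have h7 : ∀ y, y ≤ st Θ (b, v) (st Θ (v, a) y) := by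
          intro y
          simp only [st, h5, h6]
          have := g_unit (n + -1) y
          rw [show n + -1 + 1 = n by ring] at this
          exact this
        exact h7 _

theorem cdn_oblock (v : V) (L : List V) (hL : ChainOK Θ v L) (w w' : V)
    (hw : L.head? = some w) (hw' : L.getLast? = some w') (x : ℤ) :
    cdn Θ (oblock v L) x ≤ st Θ (w, v) (st Θ (v, w') x) := by
  induction L generalizing w x with
  | nil => simp at hw
  | cons a L ih =>
    cases L with
    | nil =>
      simp only [List.head?_cons, Option.some.injEq, List.getLast?_singleton] at hw hw'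
      subst hw hw'
      simp [oblock, strands, cdn]
    | cons b L =>
      simp only [List.head?_cons, Option.some.injEq] at hw
      subst hw
      have h1 : ChainOK Θ v (b :: L) := by
        unfold ChainOK at hL ⊢
        exact (List.isChain_cons_cons.mp hL).2
      have h2 : CornerOK (Θ (b, v)) (Θ (v, a)) (-1) := by
        unfold ChainOK at hL
        exact (List.isChain_cons_cons.mp hL).1
      have hw2 : (b :: L).getLast? = some w' := by
        rw [← hw']
        simp [List.getLast?_cons_cons]
      have h3 := ih h1 b rfl hw2 x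
      have h4 : cdn Θ (oblock v (a :: b :: L)) x =
          st Θ (a, v) (st Θ (v, a) (cdn Θ (oblock v (b :: L)) x)) := by
        simp [oblock, strands, cdn]
      rw [h4]
      apply st_mono
      have h7 : ∀ y, st Θ (v, a) (st Θ (b, v) y) ≤ y := by
        intro y
        rcases h2 with ⟨h5, h6⟩ | ⟨n, h5, h6⟩
        · simp [st, h5, h6]
        · simp only [st, h5, h6]
          have := g_counit (n + -1) y
          rw [show n + -1 + 1 = n by ring] at this
          exact this
      exact (st_mono Θ _ h3).trans (h7 _)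

theorem cup_oblock_ge (ord : V → List V) (v : V) (h : VertexOK Θ ord v) (x : ℤ) :
    x ≤ cup Θ (oblock v (ord v)) x := by
  rcases hL : ord v with _ | ⟨a, L⟩
  · simp [oblock, strands, cup]
  · have hne : ord v ≠ [] := by rw [hL]; simp
    obtain ⟨w', hw'⟩ : ∃ w', (ord v).getLast? = some w' :=
      ⟨_, List.getLast?_eq_some_getLast hne⟩
    have hw : (ord v).head? = some a := by rw [hL]; rfl
    rw [← hL]
    refine le_trans ?_ (cup_oblock Θ v (ord v) h.1 a w' hw hw' x)
    rcases h.2 a w' hw hw' with ⟨h5, h6⟩ | ⟨n, h5, h6⟩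
    · simp [st, h5, h6]
    · simp only [st, h5, h6]
      exact g_unit n x

theorem cdn_oblock_le (ord : V → List V) (v : V) (h : VertexOK Θ ord v) (x : ℤ) :
    cdn Θ (oblock v (ord v)) x ≤ x := by
  rcases hL : ord v with _ | ⟨a, L⟩
  · simp [oblock, strands, cdn]
  · have hne : ord v ≠ [] := by rw [hL]; simp
    obtain ⟨w', hw'⟩ : ∃ w', (ord v).getLast? = some w' :=
      ⟨_, List.getLast?_eq_some_getLast hne⟩
    have hw : (ord v).head? = some a := by rw [hL]; rfl
    rw [← hL]
    refine le_trans (cdn_oblock Θ v (ord v) h.1 a w' hw hw' x) ?_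
    rcases h.2 a w' hw hw' with ⟨h5, h6⟩ | ⟨n, h5, h6⟩
    · simp [st, h5, h6]
    · simp only [st, h5, h6]
      exact g_counit n x

/-- strands of a closing block -/
theorem strands_cblock (v : V) (L : List V) :
    strands ((L.map (fun w => (w, v))).reverse) = (oblock v L).reverse := by
  have : (L.map (fun w => (w, v))).reverse = ((L.map (fun w => (v, w))).map Prod.swap).reverse := by
    rw [List.map_map]
    rfl
  rw [this, strands_rotate]
  rfl

theorem run_mono (typ : V → Bool) (ord : V → List V) (vs : List V) (B B' : List (V × V))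
    (h : Run typ ord vs B B') (hok : ∀ v ∈ vs, VertexOK Θ ord v) (x : ℤ) :
    cup Θ (strands B) x ≤ cup Θ (strands B') x ∧ cdn Θ (strands B') x ≤ cdn Θ (strands B) x := by
  induction h with
  | nil B => exact ⟨le_rfl, le_rfl⟩
  | opn v vs A C B' hv h ih =>
    have h1 := ih (fun v hv => hok v (List.mem_cons_of_mem _ hv))
    have h2 := hok v List.mem_cons_self
    constructor
    · refine le_trans ?_ h1.1
      simp only [strands_append, cup_append]
      apply cup_mono
      exact cup_oblock_ge Θ ord v h2 _
    · refine le_trans h1.2 ?_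
      simp only [strands_append, cdn_append]
      apply cdn_mono
      exact cdn_oblock_le Θ ord v h2 _
  | cls v vs A C B' hv h ih =>
    have h1 := ih (fun v hv => hok v (List.mem_cons_of_mem _ hv))
    have h2 := hok v List.mem_cons_self
    constructor
    · refine le_trans ?_ h1.1
      simp only [strands_append, cup_append, strands_cblock, cup_reverse]
      apply cup_mono
      exact cdn_oblock_le Θ ord v h2 _
    · refine le_trans h1.2 ?_
      simp only [strands_append, cdn_append, strands_cblock, cdn_reverse]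
      apply cdn_mono
      exact cup_oblock_ge Θ ord v h2 _

/-- strands without label do not matter -/
theorem cup_filter (T : List (V × V)) (p : V × V → Bool) (hp : ∀ d ∈ T, p d = false → Θ d = none)
    (x : ℤ) : cup Θ (T.filter p) x = cup Θ T x := by
  induction T generalizing x with
  | nil => rfl
  | cons d T ih =>
    have ih' := ih (fun d hd => hp d (List.mem_cons_of_mem _ hd))
    by_cases h : p d = true
    · rw [List.filter_cons_of_pos h]
      exact ih' _
    · rw [List.filter_cons_of_neg h, ih']
      have : Θ d = none := hp d List.mem_cons_self (by simpa using h)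
      simp [cup, st, this]

theorem cdn_filter (T : List (V × V)) (p : V × V → Bool) (hp : ∀ d ∈ T, p d = false → Θ d = none)
    (x : ℤ) : cdn Θ (T.filter p) x = cdn Θ T x := by
  induction T generalizing x with
  | nil => rfl
  | cons d T ih =>
    have ih' := ih (fun d hd => hp d (List.mem_cons_of_mem _ hd))
    by_cases h : p d = true
    · rw [List.filter_cons_of_pos h]
      simp only [cdn, ih']
    · rw [List.filter_cons_of_neg h, ih']
      have : Θ d = none := hp d List.mem_cons_self (by simpa using h)
      simp [cdn, st, this]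

end

section

variable {V : Type}

theorem run_append (typ : V → Bool) (ord : V → List V) (vs1 vs2 : List V) (B B' : List (V × V))
    (h : Run typ ord (vs1 ++ vs2) B B') : ∃ C, Run typ ord vs1 B C ∧ Run typ ord vs2 C B' := by
  induction vs1 generalizing B with
  | nil => exact ⟨B, Run.nil B, h⟩
  | cons v vs1 ih =>
    rw [List.cons_append] at h
    cases h with
    | opn _ _ A C _ hv h =>
      obtain ⟨D, h1, h2⟩ := ih _ h
      exact ⟨D, Run.opn v vs1 A C D hv h1, h2⟩
    | cls _ _ A C _ hv h =>
      obtain ⟨D, h1, h2⟩ := ih _ h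
      exact ⟨D, Run.cls v vs1 A C D hv h1, h2⟩

/-- the 180 degree rotation of a list of edges -/
def rotB (B : List (V × V)) : List (V × V) := (B.map Prod.swap).reverse

theorem rotB_append (A B : List (V × V)) : rotB (A ++ B) = rotB B ++ rotB A := by
  simp [rotB]

theorem rotB_rotB (B : List (V × V)) : rotB (rotB B) = B := by
  simp [rotB]

theorem run_snoc_opn (typ : V → Bool) (ord : V → List V) (vs : List V) (v : V)
    (B A C : List (V × V)) (hv : typ v = true) (h : Run typ ord vs B (A ++ C)) :
    Run typ ord (vs ++ [v]) B (A ++ (ord v).map (fun w => (v, w)) ++ C) := by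
  generalize hD : A ++ C = D at h
  induction h with
  | nil B =>
    subst hD
    exact Run.opn v [] A C _ hv (Run.nil _)
  | opn u vs A' C' B' hu h ih => exact Run.opn u _ A' C' _ hu (ih hD)
  | cls u vs A' C' B' hu h ih => exact Run.cls u _ A' C' _ hu (ih hD)

theorem run_snoc_cls (typ : V → Bool) (ord : V → List V) (vs : List V) (v : V)
    (B A C : List (V × V)) (hv : typ v = false)
    (h : Run typ ord vs B (A ++ ((ord v).map (fun w => (w, v))).reverse ++ C)) :
    Run typ ord (vs ++ [v]) B (A ++ C) := by
  generalize hD : A ++ ((ord v).map (fun w => (w, v))).reverse ++ C = D at h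
  induction h with
  | nil B =>
    subst hD
    exact Run.cls v [] A C _ hv (Run.nil _)
  | opn u vs A' C' B' hu h ih => exact Run.opn u _ A' C' _ hu (ih hD)
  | cls u vs A' C' B' hu h ih => exact Run.cls u _ A' C' _ hu (ih hD)

theorem run_rot (typ : V → Bool) (ord : V → List V) (vs : List V) (B B' : List (V × V))
    (h : Run typ ord vs B B') :
    Run (fun v => !(typ v)) ord vs.reverse (rotB B') (rotB B) := by
  induction h with
  | nil B => exact Run.nil _
  | opn v vs A C B' hv h ih =>
    rw [List.reverse_cons, rotB_append]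
    apply run_snoc_cls (fun v => !(typ v)) ord vs.reverse v _ _ _ (by simp [hv])
    rw [rotB_append, rotB_append] at ih
    have : rotB ((ord v).map (fun w => (v, w))) = ((ord v).map (fun w => (w, v))).reverse := by
      simp [rotB, Function.comp_def]
    rw [this, ← List.append_assoc] at ih
    exact ih
  | cls v vs A C B' hv h ih =>
    rw [List.reverse_cons, rotB_append, rotB_append]
    have : rotB ((ord v).map (fun w => (w, v))).reverse = (ord v).map (fun w => (v, w)) := by
      simp [rotB, Function.comp_def]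
    rw [this, ← List.append_assoc]
    apply run_snoc_opn (fun v => !(typ v)) ord vs.reverse v _ _ _ (by simp [hv])
    rw [rotB_append] at ih
    exact ih

/-- the state after processing the vertices `P` -/
def Inv (typ : V → Bool) (ord : V → List V) (P : List V) (B : List (V × V)) : Prop :=
  B.Nodup ∧ ∀ l r, (l, r) ∈ B ↔ l ∈ P ∧ typ l = true ∧ r ∈ ord l ∧ r ∉ P

theorem run_inv (typ : V → Bool) (ord : V → List V) (X : V → ℤ)
    (hsym : ∀ u v, v ∈ ord u → u ∈ ord v) (htyp : ∀ u v, v ∈ ord u → typ v = !(typ u))
    (hnd : ∀ v, (ord v).Nodup) (hX : ∀ u v, v ∈ ord u → typ u = true → X u < X v)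
    (vs : List V) (B B' : List (V × V)) (h : Run typ ord vs B B') :
    ∀ P, (P ++ vs).Nodup → (P ++ vs).Pairwise (fun u v => X u ≤ X v) → Inv typ ord P B →
      Inv typ ord (P ++ vs) B' := by
  induction h with
  | nil B =>
    intro P _ _ h
    simpa using h
  | opn v vs A C B' hv h ih =>
    intro P hn hp hI
    have e : P ++ v :: vs = (P ++ [v]) ++ vs := by simp
    rw [e] at hn hp ⊢
    apply ih (P ++ [v]) hn hp
    have hn' : (P ++ [v]).Nodup := (List.nodup_append.mp hn).1
    have hp' : (P ++ [v]).Pairwise (fun u v => X u ≤ X v) := (List.pairwise_append.mp hp).1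
    have hvP : v ∉ P := by
      intro hvP
      have := (List.nodup_append.mp hn').2.2 v hvP v (by simp)
      exact this rfl
    have hPv : ∀ u ∈ P, X u ≤ X v := by
      intro u hu
      exact (List.pairwise_append.mp hp').2.2 u hu v (by simp)
    have hperm : (A ++ (ord v).map (fun w => (v, w)) ++ C).Perm
        ((ord v).map (fun w => (v, w)) ++ (A ++ C)) := by
      rw [← List.append_assoc]
      exact List.Perm.append_right C List.perm_append_comm
    constructor
    · rw [hperm.nodup_iff, List.nodup_append]
      refine ⟨(hnd v).map (fun a b h => by simpa using h), hI.1, ?_⟩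
      intro a ha b hb hab
      subst hab
      rw [List.mem_map] at ha
      obtain ⟨w, _, rfl⟩ := ha
      exact hvP ((hI.2 v w).mp hb).1
    · intro l r
      rw [hperm.mem_iff, List.mem_append, List.mem_map]
      constructor
      · rintro (⟨w, hw, hwe⟩ | hlr)
        · simp only [Prod.mk.injEq] at hwe
          obtain ⟨rfl, rfl⟩ := hwe
          refine ⟨by simp, hv, hw, ?_⟩
          rw [List.mem_append]
          rintro (h1 | h1)
          · have := hPv _ h1
            have := hX _ _ hw hv
            omega
          · rw [List.mem_singleton] at h1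
            have := hX _ _ hw hv
            rw [h1] at this
            omega
        · obtain ⟨h1, h2, h3, h4⟩ := (hI.2 l r).mp hlr
          refine ⟨by simp [h1], h2, h3, ?_⟩
          rw [List.mem_append]
          rintro (h5 | h5)
          · exact h4 h5
          · rw [List.mem_singleton] at h5
            subst h5
            have := htyp _ _ h3
            rw [hv, h2] at this
            simp at this
      · rintro ⟨h1, h2, h3, h4⟩
        rw [List.mem_append, List.mem_singleton] at h1 h4
        rcases h1 with h1 | h1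
        · right
          exact (hI.2 l r).mpr ⟨h1, h2, h3, fun h => h4 (Or.inl h)⟩
        · left
          subst h1
          exact ⟨r, h3, rfl⟩
  | cls v vs A C B' hv h ih =>
    intro P hn hp hI
    have e : P ++ v :: vs = (P ++ [v]) ++ vs := by simp
    rw [e] at hn hp ⊢
    apply ih (P ++ [v]) hn hp
    have hperm : (A ++ ((ord v).map (fun w => (w, v))).reverse ++ C).Perm
        (((ord v).map (fun w => (w, v))).reverse ++ (A ++ C)) := by
      rw [← List.append_assoc]
      exact List.Perm.append_right C List.perm_append_comm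
    have hnB := (hperm.nodup_iff.mp hI.1)
    rw [List.nodup_append] at hnB
    refine ⟨hnB.2.1, ?_⟩
    intro l r
    have hB : (l, r) ∈ A ++ C ↔
        ((l, r) ∈ A ++ ((ord v).map (fun w => (w, v))).reverse ++ C ∧ r ≠ v) := by
      constructor
      · intro hlr
        have h1 : (l, r) ∈ A ++ ((ord v).map (fun w => (w, v))).reverse ++ C := by
          rw [hperm.mem_iff, List.mem_append]
          exact Or.inr hlr
        refine ⟨h1, ?_⟩
        rintro rfl
        have h2 := (hI.2 l r).mp h1
        have h3 : l ∈ ord r := hsym _ _ h2.2.2.1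
        have h4 : (l, r) ∈ ((ord r).map (fun w => (w, r))).reverse := by
          rw [List.mem_reverse, List.mem_map]
          exact ⟨l, h3, rfl⟩
        exact hnB.2.2 _ h4 _ hlr rfl
      · rintro ⟨h1, h2⟩
        rw [hperm.mem_iff, List.mem_append] at h1
        rcases h1 with h1 | h1
        · rw [List.mem_reverse, List.mem_map] at h1
          obtain ⟨w, _, hwe⟩ := h1
          simp only [Prod.mk.injEq] at hwe
          exact (h2 hwe.2.symm).elim
        · exact h1
    rw [hB, hI.2 l r]
    simp only [List.mem_append, List.mem_singleton, not_or]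
    constructor
    · rintro ⟨⟨h1, h2, h3, h4⟩, h5⟩
      exact ⟨Or.inl h1, h2, h3, h4, h5⟩
    · rintro ⟨h1, h2, h3, h4, h5⟩
      rcases h1 with h1 | h1
      · exact ⟨⟨h1, h2, h3, h4⟩, h5⟩
      · subst h1
        rw [hv] at h2
        simp at h2

end


/-! ### darts of a plane graph -/

open PlaneGraph

/-- a sweep without the condition on the outer face -/
structure PreSweep (G : PlaneGraph) where
  typ : Fin G.n → Bool
  X : Fin G.n → ℤ
  ord : Fin G.n → List (Fin G.n)
  vs : List (Fin G.n)
  isLevel : IsLevel G typ X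
  ord_rot : ∀ v, ord v ~r G.nbr v
  nodup : vs.Nodup
  complete : ∀ v, v ∈ vs
  sorted : vs.Pairwise (fun u v => X u ≤ X v)
  run : Run typ ord vs [] []

/-- forget the outer face -/
def ofSweep {G : PlaneGraph} (S : Sweep G) : PreSweep G :=
  ⟨S.typ, S.X, S.ord, S.vs, S.isLevel, S.ord_rot, S.nodup, S.complete, S.sorted, S.run⟩

/-- the rotated sweep -/
def PreSweep.rotate {G : PlaneGraph} (P : PreSweep G) : PreSweep G where
  typ v := !(P.typ v)
  X v := - P.X v
  ord := P.ord
  vs := P.vs.reverse
  isLevel := by
    constructor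
    · intro u v h
      rw [P.isLevel.typ_ne u v h]
    · intro u v h hu
      have h1 : P.typ v = true := by
        rw [P.isLevel.typ_ne u v h]
        exact hu
      have h2 := P.isLevel.level v u (G.symm _ _ h) h1
      rw [← G.len_symm u v h] at h2
      omega
  ord_rot := P.ord_rot
  nodup := List.nodup_reverse.mpr P.nodup
  complete v := List.mem_reverse.mpr (P.complete v)
  sorted := by
    rw [List.pairwise_reverse]
    exact P.sorted.imp (fun h => by omega)
  run := by
    have := run_rot P.typ P.ord P.vs [] [] P.run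
    exact this

section

variable {G : PlaneGraph}

theorem faceNext_apply (u v : Fin G.n) :
    G.faceNext (u, v) = (v, (G.nbr v).formPerm.symm u) := rfl

theorem faceNext_fst (d : Fin G.n × Fin G.n) : (G.faceNext d).1 = d.2 := rfl

theorem faceNext_dart (d : Fin G.n × Fin G.n) (h : d.2 ∈ G.nbr d.1) :
    (G.faceNext d).2 ∈ G.nbr (G.faceNext d).1 := by
  obtain ⟨u, v⟩ := d
  rw [faceNext_apply]
  have h1 : u ∈ G.nbr v := G.symm _ _ h
  have h2 : (G.nbr v).formPerm ((G.nbr v).formPerm.symm u) ∈ G.nbr v := by
    rw [Equiv.apply_symm_apply]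
    exact h1
  exact List.mem_of_formPerm_apply_mem h2

theorem faceNext_pow_dart (d : Fin G.n × Fin G.n) (h : d.2 ∈ G.nbr d.1) (k : ℕ) :
    ((G.faceNext ^ k) d).2 ∈ G.nbr ((G.faceNext ^ k) d).1 := by
  induction k with
  | zero => exact h
  | succ k ih =>
    rw [pow_succ', Equiv.Perm.mul_apply]
    exact faceNext_dart _ ih

theorem faceNext_ne (d : Fin G.n × Fin G.n) (h : d.2 ∈ G.nbr d.1) : G.faceNext d ≠ d := by
  intro h1
  have h2 : d.2 = d.1 := by
    have := congrArg Prod.fst h1
    rwa [faceNext_fst] at this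
  rw [h2] at h
  exact G.irrefl _ h

theorem mem_ord (P : PreSweep G) (v w : Fin G.n) : w ∈ P.ord v ↔ w ∈ G.nbr v :=
  (P.ord_rot v).mem_iff

theorem nodup_ord (P : PreSweep G) (v : Fin G.n) : (P.ord v).Nodup :=
  (P.ord_rot v).nodup_iff.mpr (G.nodup v)

theorem formPerm_ord (P : PreSweep G) (v : Fin G.n) :
    (P.ord v).formPerm = (G.nbr v).formPerm :=
  List.formPerm_eq_of_isRotated (nodup_ord P v) (P.ord_rot v)

theorem faceNext_ord (P : PreSweep G) (v w w' : Fin G.n) (h : (P.ord v).formPerm w = w') :
    G.faceNext (w', v) = (v, w) := by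
  rw [faceNext_apply, ← formPerm_ord P v, ← h, Equiv.symm_apply_apply]

/-- valley corners -/
theorem faceNext_ord_get (P : PreSweep G) (v : Fin G.n) (i : ℕ) (hi : i + 1 < (P.ord v).length) :
    G.faceNext ((P.ord v)[i + 1], v) = (v, (P.ord v)[i]) :=
  faceNext_ord P v _ _ (List.formPerm_apply_lt_getElem _ (nodup_ord P v) i hi)

/-- the mountain corner -/
theorem faceNext_ord_last (P : PreSweep G) (v w w' : Fin G.n) (hw : (P.ord v).head? = some w)
    (hw' : (P.ord v).getLast? = some w') : G.faceNext (w, v) = (v, w') := by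
  apply faceNext_ord P v
  rcases h : P.ord v with _ | ⟨a, L⟩
  · rw [h] at hw
    simp at hw
  · rw [h] at hw hw'
    simp only [List.head?_cons, Option.some.injEq] at hw
    subst hw
    rw [List.getLast?_eq_some_getLast (List.cons_ne_nil _ _), Option.some.injEq] at hw'
    rw [← hw']
    exact List.formPerm_apply_getLast a L

theorem ord_get_ne_last (P : PreSweep G) (v w' : Fin G.n) (hw' : (P.ord v).getLast? = some w')
    (i : ℕ) (hi : i + 1 < (P.ord v).length) : (P.ord v)[i] ≠ w' := by
  intro h
  have hne : P.ord v ≠ [] := by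
    intro h0
    rw [h0] at hi
    simp at hi
  rw [List.getLast?_eq_some_getLast hne, Option.some.injEq, List.getLast_eq_getElem] at hw'
  rw [← hw'] at h
  have := (nodup_ord P v).getElem_inj_iff.mp h
  omega

theorem vertexOK_of_corners (P : PreSweep G) (mv : Fin G.n → Fin G.n)
    (hmv : ∀ v, (P.ord v).getLast? = some (mv v)) (Θ : Fin G.n × Fin G.n → Option ℤ)
    (v : Fin G.n)
    (h : ∀ w ∈ G.nbr v, CornerOK (Θ (w, v)) (Θ (G.faceNext (w, v)))
      (sgn mv (G.faceNext (w, v)))) : VertexOK Θ P.ord v := by
  constructor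
  · unfold ChainOK
    rw [List.isChain_iff_getElem]
    intro i hi
    have h1 := h ((P.ord v)[i + 1]) ((mem_ord P v _).mp (List.getElem_mem _))
    rw [faceNext_ord_get P v i hi] at h1
    have h2 : sgn mv (v, (P.ord v)[i]) = -1 := by
      unfold sgn
      rw [if_neg]
      exact ord_get_ne_last P v _ (hmv v) i hi
    rw [h2] at h1
    exact h1
  · intro w w' hw hw'
    have h0 : w ∈ P.ord v := List.mem_of_mem_head? hw
    have h1 := h w ((mem_ord P v _).mp h0)
    rw [faceNext_ord_last P v w w' hw hw'] at h1
    have h2 : sgn mv (v, w') = 1 := by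
      unfold sgn
      rw [if_pos]
      have := hmv v
      rw [hw'] at this
      exact Option.some.inj this
    rw [h2] at h1
    exact h1

/-- labels of the darts of a walk -/
def lab (s : Fin G.n × Fin G.n → ℤ) (c : ℤ) (D : List (Fin G.n × Fin G.n))
    (d : Fin G.n × Fin G.n) : Option ℤ :=
  if d ∈ D then some (((D.take (D.idxOf d + 1)).map s).sum - c) else none

theorem lab_get (s : Fin G.n × Fin G.n → ℤ) (c : ℤ) (D : List (Fin G.n × Fin G.n))
    (hD : D.Nodup) (i : ℕ) (hi : i < D.length) :
    lab s c D D[i] = some (((D.take (i + 1)).map s).sum - c) := by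
  unfold lab
  rw [if_pos (List.getElem_mem hi), hD.idxOf_getElem i hi]

theorem lab_none (s : Fin G.n × Fin G.n → ℤ) (c : ℤ) (D : List (Fin G.n × Fin G.n))
    (d : Fin G.n × Fin G.n) (h : d ∉ D) : lab s c D d = none := by
  unfold lab
  rw [if_neg h]

/-- a walk along the boundary of a face -/
structure Walk (G : PlaneGraph) (D : List (Fin G.n × Fin G.n)) : Prop where
  nodup : D.Nodup
  next : ∀ i (hi : i + 1 < D.length), D[i + 1] = G.faceNext D[i]
  dart : ∀ d ∈ D, d.2 ∈ G.nbr d.1

theorem corner_of_walk (s : Fin G.n × Fin G.n → ℤ) (c : ℤ) (D : List (Fin G.n × Fin G.n))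
    (hD : Walk G D) (e : Fin G.n × Fin G.n)
    (h0 : ∀ d, D.head? = some d → G.faceNext e ≠ d)
    (hl : ∀ d, D.getLast? = some d → e ≠ d) :
    CornerOK (lab s c D e) (lab s c D (G.faceNext e)) (s (G.faceNext e)) := by
  by_cases he : e ∈ D
  · obtain ⟨i, hi, rfl⟩ := List.getElem_of_mem he
    have hi' : i + 1 < D.length := by
      by_contra hc
      have hi2 : i = D.length - 1 := by omega
      have hne : D ≠ [] := by
        intro h
        rw [h] at hi
        simp at hi
      apply hl (D.getLast hne) (List.getLast?_eq_some_getLast hne)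
      rw [List.getLast_eq_getElem]
      subst hi2
      rfl
    right
    refine ⟨_, lab_get s c D hD.nodup i hi, ?_⟩
    rw [← hD.next i hi', lab_get s c D hD.nodup (i + 1) hi']
    congr 1
    rw [List.take_succ_eq_append_getElem hi', List.map_append, List.sum_append]
    simp only [List.map_cons, List.map_nil, List.sum_cons, List.sum_nil]
    ring
  · left
    refine ⟨lab_none s c D e he, lab_none s c D _ ?_⟩
    intro h
    obtain ⟨j, hj, hj'⟩ := List.getElem_of_mem h
    rcases j with _ | j
    · apply h0 D[0] _ hj'.symm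
      rw [List.head?_eq_getElem?, List.getElem?_eq_getElem hj]
    · rw [hD.next j hj] at hj'
      have := G.faceNext.injective hj'
      apply he
      rw [← this]
      exact List.getElem_mem _

/-- vertices which are not the start or the end of the walk are fine -/
theorem vertexOK_of_walk (P : PreSweep G) (mv : Fin G.n → Fin G.n)
    (hmv : ∀ v, (P.ord v).getLast? = some (mv v)) (c : ℤ) (D : List (Fin G.n × Fin G.n))
    (hD : Walk G D) (v : Fin G.n)
    (h0 : ∀ d, D.head? = some d → d.1 ≠ v) (hl : ∀ d, D.getLast? = some d → d.2 ≠ v) :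
    VertexOK (lab (sgn mv) c D) P.ord v := by
  apply vertexOK_of_corners P mv hmv
  intro w _
  apply corner_of_walk (sgn mv) c D hD
  · intro d hd h
    apply h0 d hd
    rw [← h]
    rfl
  · intro d hd h
    apply hl d hd
    rw [← h]

theorem walk_toList (d : Fin G.n × Fin G.n) (hd : d.2 ∈ G.nbr d.1) :
    Walk G (G.faceNext.toList d) := by
  refine ⟨Equiv.Perm.nodup_toList _ _, ?_, ?_⟩
  · intro i hi
    rw [Equiv.Perm.getElem_toList, Equiv.Perm.getElem_toList, pow_succ', Equiv.Perm.mul_apply]
  · intro e he
    obtain ⟨i, hi, rfl⟩ := List.getElem_of_mem he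
    rw [Equiv.Perm.getElem_toList]
    exact faceNext_pow_dart d hd i

theorem walk_initial (A B : List (Fin G.n × Fin G.n)) (h : Walk G (A ++ B)) : Walk G A := by
  refine ⟨(List.nodup_append.mp h.nodup).1, ?_, ?_⟩
  · intro i hi
    have h1 := h.next i (by rw [List.length_append]; omega)
    rw [List.getElem_append_left hi, List.getElem_append_left (by omega)] at h1
    exact h1
  · intro d hd
    exact h.dart d (List.mem_append_left _ hd)

theorem walk_tail (a : Fin G.n × Fin G.n) (B : List (Fin G.n × Fin G.n))
    (h : Walk G (a :: B)) : Walk G B := by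
  refine ⟨(List.nodup_cons.mp h.nodup).2, ?_, ?_⟩
  · intro i hi
    have h1 := h.next (i + 1) (by simpa using hi)
    simpa using h1
  · intro d hd
    exact h.dart d (List.mem_cons_of_mem _ hd)

/-- heights along a walk -/
theorem heights_walk (P : PreSweep G) (c : ℤ) (D : List (Fin G.n × Fin G.n)) (hD : Walk G D) :
    ∀ (h : ℤ) (b : Bool), (∀ d, D.head? = some d → P.typ d.1 = b ∧ h = P.X d.1 - c) →
      heights h b (D.map (fun e => G.len e.1 e.2)) = D.map (fun e => P.X e.2 - c) := by
  induction D with
  | nil =>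
    intro h b _
    cases b <;> rfl
  | cons d D ih =>
    intro h b hh
    obtain ⟨h1, h2⟩ := hh d rfl
    have hdart : d.2 ∈ G.nbr d.1 := hD.dart d List.mem_cons_self
    have ht : P.typ d.2 = !(P.typ d.1) := P.isLevel.typ_ne _ _ hdart
    have hnext : ∀ e, D.head? = some e → e.1 = d.2 := by
      intro e he
      cases D with
      | nil => simp at he
      | cons e' D =>
        simp only [List.head?_cons, Option.some.injEq] at he
        subst he
        have h3 := hD.next 0 (by simp)
        simp only [List.getElem_cons_zero, List.getElem_cons_succ] at h3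
        rw [h3]
        rfl
    cases b with
    | true =>
      have h3 := P.isLevel.level _ _ hdart h1
      simp only [List.map_cons, heights]
      rw [ih (walk_tail _ _ hD) (h + (G.len d.1 d.2 : ℤ)) false ?_]
      · congr 1
        rw [h3, h2]
        ring
      · intro e he
        rw [hnext e he, ht, h1, h3, h2]
        refine ⟨rfl, by ring⟩
    | false =>
      have h4 : P.typ d.2 = true := by rw [ht, h1]; rfl
      have h3 := P.isLevel.level _ _ (G.symm _ _ hdart) h4
      rw [← G.len_symm _ _ hdart] at h3
      simp only [List.map_cons, heights]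
      rw [ih (walk_tail _ _ hD) (h - (G.len d.1 d.2 : ℤ)) true ?_]
      · congr 1
        rw [h2, h3]
        ring
      · intro e he
        rw [hnext e he, ht, h1, h2, h3]
        refine ⟨rfl, by ring⟩

end


section

variable {V : Type}

theorem sorted_split (X : V → ℤ) (vs : List V) (h : vs.Pairwise (fun u v => X u ≤ X v)) (a : ℤ) :
    vs = vs.filter (fun v => X v ≤ a) ++ vs.filter (fun v => a < X v) := by
  induction vs with
  | nil => rfl
  | cons v vs ih =>
    rw [List.pairwise_cons] at h
    have ih' := ih h.2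
    by_cases hv : X v ≤ a
    · rw [List.filter_cons_of_pos (by simpa using hv),
        List.filter_cons_of_neg (by simpa using hv), List.cons_append, ← ih']
    · have h1 : (v :: vs).filter (fun v => decide (X v ≤ a)) = [] := by
        rw [List.filter_eq_nil_iff]
        intro u hu
        rw [List.mem_cons] at hu
        rcases hu with rfl | hu
        · simpa using hv
        · have := h.1 u hu
          simp only [decide_eq_true_eq, not_le]
          omega
      have h2 : (v :: vs).filter (fun v => decide (a < X v)) = v :: vs := by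
        rw [List.filter_eq_self]
        intro u hu
        rw [List.mem_cons] at hu
        rcases hu with rfl | hu
        · simpa using hv
        · have := h.1 u hu
          simp only [decide_eq_true_eq]
          omega
      rw [h1, h2, List.nil_append]

theorem strands_perm (B : List (V × V)) : (strands B).Perm (B.map Prod.swap ++ B) := by
  induction B with
  | nil => exact List.Perm.refl _
  | cons e B ih =>
    rw [strands_cons, List.map_cons, List.cons_append]
    refine List.Perm.trans ?_ (List.Perm.cons _ List.perm_middle.symm)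
    exact List.Perm.cons _ (List.Perm.cons _ ih)

theorem mem_strands (B : List (V × V)) (d : V × V) : d ∈ strands B ↔ d.swap ∈ B ∨ d ∈ B := by
  rw [(strands_perm B).mem_iff, List.mem_append, List.mem_map]
  constructor
  · rintro (⟨e, he, rfl⟩ | h)
    · left
      simpa using he
    · exact Or.inr h
  · rintro (h | h)
    · exact Or.inl ⟨d.swap, h, by simp⟩
    · exact Or.inr h

theorem strands_nodup (B : List (V × V)) (h : B.Nodup) (h2 : ∀ e ∈ B, e.swap ∉ B) :
    (strands B).Nodup := by
  rw [(strands_perm B).nodup_iff, List.nodup_append]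
  refine ⟨h.map Prod.swap_injective, h, ?_⟩
  intro a ha b hb hab
  subst hab
  rw [List.mem_map] at ha
  obtain ⟨e, he, rfl⟩ := ha
  exact h2 e he hb

theorem two_list {α : Type} (T : List α) (a b : α) (hab : a ≠ b) (hn : T.Nodup)
    (h : ∀ x, x ∈ T ↔ x = a ∨ x = b) : T = [a, b] ∨ T = [b, a] := by
  rcases T with _ | ⟨x, _ | ⟨y, _ | ⟨z, T⟩⟩⟩
  · have := (h a).mpr (Or.inl rfl)
    simp at this
  · have h1 := (h a).mpr (Or.inl rfl)
    have h2 := (h b).mpr (Or.inr rfl)
    simp only [List.mem_singleton] at h1 h2
    exact (hab (h1.trans h2.symm)).elim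
  · have h1 := (h x).mp (by simp)
    have h2 := (h y).mp (by simp)
    have h3 : x ≠ y := by
      intro h3
      subst h3
      simp at hn
    rcases h1 with rfl | rfl <;> rcases h2 with rfl | rfl
    · exact (h3 rfl).elim
    · exact Or.inl rfl
    · exact Or.inr rfl
    · exact (h3 rfl).elim
  · exfalso
    have h1 := (h x).mp (by simp)
    have h2 := (h y).mp (by simp)
    have h3 := (h z).mp (by simp)
    simp only [List.nodup_cons, List.mem_cons, not_or] at hn
    rcases h1 with rfl | rfl <;> rcases h2 with rfl | rfl <;> rcases h3 with rfl | rfl <;> simp_all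

theorem one_list {α : Type} (T : List α) (a : α) (hn : T.Nodup)
    (h : ∀ x, x ∈ T ↔ x = a) : T = [a] := by
  rcases T with _ | ⟨x, _ | ⟨y, T⟩⟩
  · have := (h a).mpr rfl
    simp at this
  · have h1 := (h x).mp (by simp)
    rw [h1]
  · exfalso
    have h1 := (h x).mp (by simp)
    have h2 := (h y).mp (by simp)
    subst h1 h2
    simp at hn

end

section

variable {G : PlaneGraph}

theorem typ_of_lt (P : PreSweep G) (u v : Fin G.n) (h : v ∈ G.nbr u) (hlt : P.X u < P.X v) :
    P.typ u = true := by
  by_contra hc
  have h1 : P.typ v = true := by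
    rw [P.isLevel.typ_ne u v h]
    simpa using hc
  have h2 := P.isLevel.level v u (G.symm _ _ h) h1
  omega

theorem lt_of_typ (P : PreSweep G) (u v : Fin G.n) (h : v ∈ G.nbr u) (ht : P.typ u = true) :
    P.X u < P.X v := by
  have h2 := P.isLevel.level u v h ht
  have := G.len_pos u v h
  omega

theorem inv_of_run (P : PreSweep G) (vs1 vs2 : List (Fin G.n)) (hvs : P.vs = vs1 ++ vs2)
    (B : List (Fin G.n × Fin G.n)) (h : Run P.typ P.ord vs1 [] B) :
    Inv P.typ P.ord vs1 B := by
  have := run_inv P.typ P.ord P.X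
    (fun u v h => (mem_ord P v u).mpr (G.symm _ _ ((mem_ord P u v).mp h)))
    (fun u v h => P.isLevel.typ_ne u v ((mem_ord P u v).mp h))
    (nodup_ord P)
    (fun u v h ht => lt_of_typ P u v ((mem_ord P u v).mp h) ht)
    vs1 [] B h [] ?_ ?_ ?_
  · simpa using this
  · have := P.nodup
    rw [hvs] at this
    simpa using (List.nodup_append.mp this).1
  · have := P.sorted
    rw [hvs] at this
    simpa using (List.pairwise_append.mp this).1
  · constructor
    · simp
    · intro l r
      simp

/-- strands in a state belonging to a walk -/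
theorem mem_filter_strands (P : PreSweep G) (P1 : List (Fin G.n))
    (B : List (Fin G.n × Fin G.n)) (hI : Inv P.typ P.ord P1 B)
    (D : List (Fin G.n × Fin G.n)) (hD : ∀ d ∈ D, d.2 ∈ G.nbr d.1) (d : Fin G.n × Fin G.n) :
    d ∈ (strands B).filter (fun e => e ∈ D) ↔
      d ∈ D ∧ ((P.typ d.1 = true ∧ d.1 ∈ P1 ∧ d.2 ∉ P1) ∨
        (P.typ d.2 = true ∧ d.2 ∈ P1 ∧ d.1 ∉ P1)) := by
  rw [List.mem_filter, mem_strands]
  simp only [decide_eq_true_eq]
  constructor
  · rintro ⟨h1 | h1, h2⟩
    · refine ⟨h2, Or.inr ?_⟩
      have := (hI.2 d.2 d.1).mp h1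
      exact ⟨this.2.1, this.1, this.2.2.2⟩
    · refine ⟨h2, Or.inl ?_⟩
      have := (hI.2 d.1 d.2).mp h1
      exact ⟨this.2.1, this.1, this.2.2.2⟩
  · rintro ⟨h1, h2 | h2⟩
    · refine ⟨Or.inr ?_, h1⟩
      exact (hI.2 d.1 d.2).mpr ⟨h2.2.1, h2.1, (mem_ord P _ _).mpr (hD d h1), h2.2.2⟩
    · refine ⟨Or.inl ?_, h1⟩
      exact (hI.2 d.2 d.1).mpr ⟨h2.2.1, h2.1, (mem_ord P _ _).mpr (G.symm _ _ (hD d h1)), h2.2.2⟩

theorem strands_nodup_of_inv (P : PreSweep G) (P1 : List (Fin G.n))
    (B : List (Fin G.n × Fin G.n)) (hI : Inv P.typ P.ord P1 B) : (strands B).Nodup := by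
  apply strands_nodup B hI.1
  intro e he he'
  have h1 := (hI.2 e.1 e.2).mp he
  have h2 := (hI.2 e.2 e.1).mp he'
  have h3 := P.isLevel.typ_ne e.1 e.2 ((mem_ord P _ _).mp h1.2.2.1)
  rw [h1.2.1, h2.2.1] at h3
  simp at h3

theorem cup_filter_mem (s : Fin G.n × Fin G.n → ℤ) (c : ℤ) (D T : List (Fin G.n × Fin G.n))
    (x : ℤ) : cup (lab s c D) (T.filter (fun e => e ∈ D)) x = cup (lab s c D) T x := by
  apply cup_filter
  intro d _ hd
  apply lab_none
  simpa using hd

theorem cdn_filter_mem (s : Fin G.n × Fin G.n → ℤ) (c : ℤ) (D T : List (Fin G.n × Fin G.n))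
    (x : ℤ) : cdn (lab s c D) (T.filter (fun e => e ∈ D)) x = cdn (lab s c D) T x := by
  apply cdn_filter
  intro d _ hd
  apply lab_none
  simpa using hd

/-- consecutive darts in a walk -/
theorem walk_fst_snd (D : List (Fin G.n × Fin G.n)) (hD : Walk G D) (d0 : Fin G.n × Fin G.n)
    (h0 : D.head? = some d0) (d : Fin G.n × Fin G.n) (hd : d ∈ D) (hne : d ≠ d0) :
    ∃ e ∈ D.dropLast, e.2 = d.1 := by
  obtain ⟨i, hi, rfl⟩ := List.getElem_of_mem hd
  rcases i with _ | i
  · rw [List.head?_eq_getElem?, List.getElem?_eq_getElem hi, Option.some.injEq] at h0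
    exact (hne h0).elim
  · refine ⟨D[i], ?_, ?_⟩
    · have h1 : i < D.dropLast.length := by
        rw [List.length_dropLast]
        omega
      rw [← List.getElem_dropLast h1]
      exact List.getElem_mem h1
    · rw [hD.next i hi]
      rfl

theorem mem_dropLast_of_ne (D : List (Fin G.n × Fin G.n)) (dm : Fin G.n × Fin G.n)
    (hm : D.getLast? = some dm) (d : Fin G.n × Fin G.n) (hd : d ∈ D) (hne : d ≠ dm) :
    d ∈ D.dropLast := by
  have hne' : D ≠ [] := by
    intro h
    rw [h] at hd
    simp at hd
  rw [List.getLast?_eq_some_getLast hne', Option.some.injEq] at hm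
  have := List.dropLast_append_getLast hne'
  rw [← this, List.mem_append, List.mem_singleton] at hd
  rcases hd with hd | hd
  · exact hd
  · rw [hm] at hd
    exact (hne hd).elim

/-- the label of the first dart -/
theorem lab_head (s : Fin G.n × Fin G.n → ℤ) (D : List (Fin G.n × Fin G.n)) (hn : D.Nodup)
    (d0 : Fin G.n × Fin G.n) (h0 : D.head? = some d0) :
    lab s (s d0) D d0 = some 0 := by
  rcases D with _ | ⟨a, D⟩
  · simp at h0
  · simp only [List.head?_cons, Option.some.injEq] at h0
    subst h0
    have := lab_get s (s a) (a :: D) hn 0 (by simp)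
    simpa using this

/-- the label of the last dart -/
theorem lab_last (s : Fin G.n × Fin G.n → ℤ) (c : ℤ) (D : List (Fin G.n × Fin G.n)) (hn : D.Nodup)
    (dm : Fin G.n × Fin G.n) (hm : D.getLast? = some dm) :
    lab s c D dm = some ((D.map s).sum - c) := by
  have hne' : D ≠ [] := by
    intro h
    rw [h] at hm
    simp at hm
  rw [List.getLast?_eq_some_getLast hne', Option.some.injEq, List.getLast_eq_getElem] at hm
  rw [← hm, lab_get s c D hn _ _]
  have : D.length - 1 + 1 = D.length := by
    have := List.length_pos_iff.mpr hne'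
    omega
  rw [this, List.take_length]

theorem run_trans {V : Type} (typ : V → Bool) (ord : V → List V) (vs1 vs2 : List V)
    (B C D : List (V × V)) (h1 : Run typ ord vs1 B C) (h2 : Run typ ord vs2 C D) :
    Run typ ord (vs1 ++ vs2) B D := by
  induction h1 with
  | nil B => exact h2
  | opn v vs A C B' hv h ih => exact Run.opn v _ A C _ hv (ih h2)
  | cls v vs A C B' hv h ih => exact Run.cls v _ A C _ hv (ih h2)

theorem mem_of_head {α : Type} {D : List α} {d : α} (h : D.head? = some d) : d ∈ D :=
  List.mem_of_mem_head? h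

theorem mem_of_last {α : Type} {D : List α} {d : α} (h : D.getLast? = some d) : d ∈ D :=
  List.mem_of_mem_getLast? h

/-- crossing windows -/
theorem crossing (P : PreSweep G) (mv : Fin G.n → Fin G.n)
    (hmv : ∀ v, (P.ord v).getLast? = some (mv v)) (D : List (Fin G.n × Fin G.n))
    (hD : Walk G D) (d0 dm : Fin G.n × Fin G.n) (h0 : D.head? = some d0)
    (hm : D.getLast? = some dm) (hlow : ∀ d ∈ D.dropLast, P.X d0.1 < P.X d.2)
    (hhigh : ∀ d ∈ D.dropLast, P.X d.2 < P.X dm.2) (hlt : P.X d0.1 < P.X dm.2) :
    (D.map (sgn mv)).sum - sgn mv d0 = 0 := by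
  obtain ⟨a, ha⟩ : ∃ a, a = P.X d0.1 := ⟨_, rfl⟩
  obtain ⟨b, hb⟩ : ∃ b, b = P.X dm.2 - 1 := ⟨_, rfl⟩
  have e1 := sorted_split P.X P.vs P.sorted a
  have hs2 : (P.vs.filter (fun v => a < P.X v)).Pairwise (fun u v => P.X u ≤ P.X v) :=
    P.sorted.filter _
  have e2 := sorted_split P.X _ hs2 b
  obtain ⟨P1, hP1⟩ : ∃ P1, P1 = P.vs.filter (fun v => P.X v ≤ a) := ⟨_, rfl⟩
  obtain ⟨R, hR⟩ : ∃ R, R = P.vs.filter (fun v => a < P.X v) := ⟨_, rfl⟩
  rw [← hP1, ← hR] at e1
  rw [← hR] at e2
  obtain ⟨M, hM⟩ : ∃ M, M = R.filter (fun v => P.X v ≤ b) := ⟨_, rfl⟩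
  obtain ⟨N, hN⟩ : ∃ N, N = R.filter (fun v => b < P.X v) := ⟨_, rfl⟩
  rw [← hM, ← hN] at e2
  have hrun := P.run
  rw [e1, e2] at hrun
  obtain ⟨B1, r1, r2⟩ := run_append _ _ _ _ _ _ hrun
  obtain ⟨B2, r2, r3⟩ := run_append _ _ _ _ _ _ r2
  have I1 := inv_of_run P P1 (M ++ N) (by rw [e1, e2]) B1 r1
  have I2 := inv_of_run P (P1 ++ M) N (by rw [e1, e2, List.append_assoc]) B2
    (run_trans _ _ _ _ _ _ _ r1 r2)
  have m1 : ∀ v, v ∈ P1 ↔ P.X v ≤ a := by
    intro v
    rw [hP1, List.mem_filter]
    simp [P.complete v]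
  have mM : ∀ v, v ∈ M ↔ (a < P.X v ∧ P.X v ≤ b) := by
    intro v
    rw [hM, List.mem_filter, hR, List.mem_filter]
    simp [P.complete v]
  have m2 : ∀ v, v ∈ P1 ++ M ↔ P.X v ≤ b := by
    intro v
    rw [List.mem_append, m1, mM]
    omega
  have hd0 := mem_of_head h0
  have hdm := mem_of_last hm
  -- first ends
  have hfst : ∀ d ∈ D, d ≠ d0 → a < P.X d.1 ∧ P.X d.1 < P.X dm.2 := by
    intro d hd hne
    obtain ⟨e, he, he'⟩ := walk_fst_snd D hD d0 h0 d hd hne
    rw [← he']
    exact ⟨by rw [ha]; exact hlow e he, hhigh e he⟩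
  have hsnd : ∀ d ∈ D, a < P.X d.2 := by
    intro d hd
    by_cases hne : d = dm
    · rw [hne, ha]
      exact hlt
    · rw [ha]
      exact hlow d (mem_dropLast_of_ne D dm hm d hd hne)
  have T1 : (strands B1).filter (fun e => e ∈ D) = [d0] := by
    apply one_list
    · exact (strands_nodup_of_inv P P1 B1 I1).filter _
    · intro x
      rw [mem_filter_strands P P1 B1 I1 D hD.dart x]
      constructor
      · rintro ⟨hx, h⟩
        by_contra hne
        have h1 := hfst x hx hne
        have h2 := hsnd x hx
        rw [m1, m1] at h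
        omega
      · rintro rfl
        refine ⟨hd0, Or.inl ⟨?_, ?_, ?_⟩⟩
        · exact typ_of_lt P _ _ (hD.dart _ hd0) (by rw [← ha]; exact hsnd _ hd0)
        · rw [m1, ha]
        · rw [m1]
          have := hsnd _ hd0
          omega
  have T2 : (strands B2).filter (fun e => e ∈ D) = [dm] := by
    apply one_list
    · exact (strands_nodup_of_inv P _ B2 I2).filter _
    · intro x
      rw [mem_filter_strands P (P1 ++ M) B2 I2 D hD.dart x]
      have hfst' : ∀ d ∈ D, P.X d.1 < P.X dm.2 := by
        intro d hd
        by_cases hne : d = d0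
        · rw [hne]
          exact hlt
        · exact (hfst d hd hne).2
      constructor
      · rintro ⟨hx, h⟩
        by_contra hne
        have h1 := hfst' x hx
        have h2 := hhigh x (mem_dropLast_of_ne D dm hm x hx hne)
        rw [m2, m2] at h
        omega
      · rintro rfl
        refine ⟨hdm, Or.inl ⟨?_, ?_, ?_⟩⟩
        · exact typ_of_lt P _ _ (hD.dart _ hdm) (hfst' _ hdm)
        · rw [m2]
          have := hfst' _ hdm
          omega
        · rw [m2]
          omega
  have hmono := run_mono (lab (sgn mv) (sgn mv d0) D) P.typ P.ord M B1 B2 r2 (by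
    intro v hv
    rw [mM] at hv
    apply vertexOK_of_walk P mv hmv _ D hD v
    · intro d hd h
      rw [h0, Option.some.injEq] at hd
      subst hd
      rw [h] at ha
      omega
    · intro d hd h
      rw [hm, Option.some.injEq] at hd
      subst hd
      rw [h] at hb
      omega)
  have l0 := lab_head (sgn mv) D hD.nodup d0 h0
  have lm := lab_last (sgn mv) (sgn mv d0) D hD.nodup dm hm
  have c1 : ∀ y, cup (lab (sgn mv) (sgn mv d0) D) (strands B1) y = g 0 y := by
    intro y
    rw [← cup_filter_mem, T1]
    simp only [cup, st, l0]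
  have c2 : ∀ y, cup (lab (sgn mv) (sgn mv d0) D) (strands B2) y =
      g ((D.map (sgn mv)).sum - sgn mv d0) y := by
    intro y
    rw [← cup_filter_mem, T2]
    simp only [cup, st, lm]
  have c3 : ∀ y, cdn (lab (sgn mv) (sgn mv d0) D) (strands B1) y = g 0 y := by
    intro y
    rw [← cdn_filter_mem, T1]
    simp only [cdn, st, l0]
  have c4 : ∀ y, cdn (lab (sgn mv) (sgn mv d0) D) (strands B2) y =
      g ((D.map (sgn mv)).sum - sgn mv d0) y := by
    intro y
    rw [← cdn_filter_mem, T2]
    simp only [cdn, st, lm]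
  have : (0 : ℤ) = (D.map (sgn mv)).sum - sgn mv d0 := by
    apply g_inj
    intro x
    have h1 := (hmono x).1
    have h2 := (hmono x).2
    rw [c1, c2] at h1
    rw [c3, c4] at h2
    exact le_antisymm h1 h2
  exact this.symm

/-- excursion windows -/
theorem excursion (P : PreSweep G) (mv : Fin G.n → Fin G.n)
    (hmv : ∀ v, (P.ord v).getLast? = some (mv v)) (D : List (Fin G.n × Fin G.n))
    (hD : Walk G D) (d0 dm : Fin G.n × Fin G.n) (h0 : D.head? = some d0)
    (hm : D.getLast? = some dm) (hne0 : d0 ≠ dm) (hlow : ∀ d ∈ D.dropLast, P.X d0.1 < P.X d.2)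
    (hlow' : ∀ d ∈ D.dropLast, P.X dm.2 < P.X d.2) :
    |(D.map (sgn mv)).sum - sgn mv d0| = 1 := by
  obtain ⟨a, ha⟩ : ∃ a, a = max (P.X d0.1) (P.X dm.2) := ⟨_, rfl⟩
  have e1 := sorted_split P.X P.vs P.sorted a
  obtain ⟨P1, hP1⟩ : ∃ P1, P1 = P.vs.filter (fun v => P.X v ≤ a) := ⟨_, rfl⟩
  obtain ⟨R, hR⟩ : ∃ R, R = P.vs.filter (fun v => a < P.X v) := ⟨_, rfl⟩
  rw [← hP1, ← hR] at e1
  have hrun := P.run
  rw [e1] at hrun
  obtain ⟨B1, r1, r2⟩ := run_append _ _ _ _ _ _ hrun
  have I1 := inv_of_run P P1 R e1 B1 r1
  have m1 : ∀ v, v ∈ P1 ↔ P.X v ≤ a := by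
    intro v
    rw [hP1, List.mem_filter]
    simp [P.complete v]
  have mR : ∀ v, v ∈ R ↔ a < P.X v := by
    intro v
    rw [hR, List.mem_filter]
    simp [P.complete v]
  have hd0 := mem_of_head h0
  have hdm := mem_of_last hm
  have hfst : ∀ d ∈ D, d ≠ d0 → a < P.X d.1 := by
    intro d hd hne
    obtain ⟨e, he, he'⟩ := walk_fst_snd D hD d0 h0 d hd hne
    rw [← he', ha, max_lt_iff]
    exact ⟨hlow e he, hlow' e he⟩
  have hsnd : ∀ d ∈ D, d ≠ dm → a < P.X d.2 := by
    intro d hd hne
    rw [ha, max_lt_iff]
    exact ⟨hlow d (mem_dropLast_of_ne D dm hm d hd hne),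
      hlow' d (mem_dropLast_of_ne D dm hm d hd hne)⟩
  have hX0 : P.X d0.1 ≤ a := by rw [ha]; exact le_max_left _ _
  have hXm : P.X dm.2 ≤ a := by rw [ha]; exact le_max_right _ _
  have T1 : (strands B1).filter (fun e => e ∈ D) = [d0, dm] ∨
      (strands B1).filter (fun e => e ∈ D) = [dm, d0] := by
    apply two_list _ _ _ hne0
    · exact (strands_nodup_of_inv P P1 B1 I1).filter _
    · intro x
      rw [mem_filter_strands P P1 B1 I1 D hD.dart x]
      constructor
      · rintro ⟨hx, h⟩
        by_contra hne
        rw [not_or] at hne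
        have h1 := hfst x hx hne.1
        have h2 := hsnd x hx hne.2
        rw [m1, m1] at h
        omega
      · rintro (rfl | rfl)
        · have h2 := hsnd _ hd0 hne0
          refine ⟨hd0, Or.inl ⟨?_, ?_, ?_⟩⟩
          · exact typ_of_lt P _ _ (hD.dart _ hd0) (lt_of_le_of_lt hX0 h2)
          · rw [m1]
            exact hX0
          · rw [m1]
            omega
        · have h2 := hfst _ hdm (Ne.symm hne0)
          refine ⟨hdm, Or.inr ⟨?_, ?_, ?_⟩⟩
          · exact typ_of_lt P _ _ (G.symm _ _ (hD.dart _ hdm)) (lt_of_le_of_lt hXm h2)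
          · rw [m1]
            exact hXm
          · rw [m1]
            omega
  have hmono := run_mono (lab (sgn mv) (sgn mv d0) D) P.typ P.ord R B1 [] r2 (by
    intro v hv
    rw [mR] at hv
    apply vertexOK_of_walk P mv hmv _ D hD v
    · intro d hd h
      rw [h0, Option.some.injEq] at hd
      subst hd
      rw [h] at hX0
      omega
    · intro d hd h
      rw [hm, Option.some.injEq] at hd
      subst hd
      rw [h] at hXm
      omega)
  have l0 := lab_head (sgn mv) D hD.nodup d0 h0
  have lm := lab_last (sgn mv) (sgn mv d0) D hD.nodup dm hm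
  rcases T1 with T1 | T1
  · have c1 : ∀ y, cup (lab (sgn mv) (sgn mv d0) D) (strands B1) y =
        g ((D.map (sgn mv)).sum - sgn mv d0) (g 0 y) := by
      intro y
      rw [← cup_filter_mem, T1]
      simp only [cup, st, l0, lm]
    have c3 : ∀ y, cdn (lab (sgn mv) (sgn mv d0) D) (strands B1) y =
        g 0 (g ((D.map (sgn mv)).sum - sgn mv d0) y) := by
      intro y
      rw [← cdn_filter_mem, T1]
      simp only [cdn, st, l0, lm]
    have : (D.map (sgn mv)).sum - sgn mv d0 = -1 := by
      apply left_adj
      · intro x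
        have h2 := (hmono x).2
        rw [c3] at h2
        exact h2
      · intro x
        have h2 := (hmono x).1
        rw [c1] at h2
        exact h2
    rw [this]
    rfl
  · have c1 : ∀ y, cup (lab (sgn mv) (sgn mv d0) D) (strands B1) y =
        g 0 (g ((D.map (sgn mv)).sum - sgn mv d0) y) := by
      intro y
      rw [← cup_filter_mem, T1]
      simp only [cup, st, l0, lm]
    have c3 : ∀ y, cdn (lab (sgn mv) (sgn mv d0) D) (strands B1) y =
        g ((D.map (sgn mv)).sum - sgn mv d0) (g 0 y) := by
      intro y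
      rw [← cdn_filter_mem, T1]
      simp only [cdn, st, l0, lm]
    have : (D.map (sgn mv)).sum - sgn mv d0 = 1 := by
      apply right_adj
      · intro x
        have h2 := (hmono x).2
        rw [c3] at h2
        exact h2
      · intro x
        have h2 := (hmono x).1
        rw [c1] at h2
        exact h2
    rw [this]
    rfl

/-- the window condition for a walk starting at an opening vertex -/
theorem window_aux (P : PreSweep G) (mv : Fin G.n → Fin G.n)
    (hmv : ∀ v, (P.ord v).getLast? = some (mv v)) (d0 : Fin G.n × Fin G.n)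
    (M : List (Fin G.n × Fin G.n)) (hD : Walk G (d0 :: M)) (hM : M ≠ [])
    (ht : P.typ d0.1 = true)
    (hpos : ∀ h ∈ heights 0 true ((d0 :: M.dropLast).map (fun e => G.len e.1 e.2)), 0 < h) :
    ((∀ h ∈ heights 0 true ((d0 :: M.dropLast).map (fun e => G.len e.1 e.2)),
        h < (heights 0 true ((d0 :: M).map (fun e => G.len e.1 e.2))).getLastD 0) →
          (M.map (sgn mv)).sum = 0) ∧
    ((∀ h ∈ heights 0 true ((d0 :: M.dropLast).map (fun e => G.len e.1 e.2)),
        (heights 0 true ((d0 :: M).map (fun e => G.len e.1 e.2))).getLastD 0 < h) →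
          |(M.map (sgn mv)).sum| = 1) := by
  have hdl : (d0 :: M).dropLast = d0 :: M.dropLast := by
    cases M with
    | nil => exact (hM rfl).elim
    | cons a M => rfl
  have hD' : Walk G (d0 :: M.dropLast) := by
    have h1 : d0 :: M = (d0 :: M.dropLast) ++ [M.getLast hM] := by
      rw [List.cons_append, List.dropLast_append_getLast hM]
    rw [h1] at hD
    exact walk_initial _ _ hD
  have e1 := heights_walk P (P.X d0.1) _ hD' 0 true (by
    intro d hd
    simp only [List.head?_cons, Option.some.injEq] at hd
    subst hd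
    exact ⟨ht, by ring⟩)
  have e2 := heights_walk P (P.X d0.1) _ hD 0 true (by
    intro d hd
    simp only [List.head?_cons, Option.some.injEq] at hd
    subst hd
    exact ⟨ht, by ring⟩)
  obtain ⟨dm, hm⟩ : ∃ dm, (d0 :: M).getLast? = some dm :=
    ⟨_, List.getLast?_eq_some_getLast (List.cons_ne_nil _ _)⟩
  have e3 : (heights 0 true ((d0 :: M).map (fun e => G.len e.1 e.2))).getLastD 0 =
      P.X dm.2 - P.X d0.1 := by
    rw [e2, List.getLastD_eq_getLast?, List.getLast?_map, hm]
    rfl
  rw [e1] at hpos ⊢
  rw [e3]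
  have hlow : ∀ d ∈ (d0 :: M).dropLast, P.X d0.1 < P.X d.2 := by
    intro d hd
    rw [hdl] at hd
    have := hpos (P.X d.2 - P.X d0.1) (List.mem_map.mpr ⟨d, hd, rfl⟩)
    omega
  have e4 : ((d0 :: M).map (sgn mv)).sum - sgn mv d0 = (M.map (sgn mv)).sum := by
    simp
  have hne : d0 ≠ dm := by
    intro h
    subst h
    have h1 : d0 ∈ M := by
      cases M with
      | nil => exact (hM rfl).elim
      | cons a M =>
        rw [List.getLast?_cons_cons] at hm
        exact mem_of_last hm
    exact (List.nodup_cons.mp hD.nodup).1 h1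
  constructor
  · intro h
    rw [← e4]
    apply crossing P mv hmv (d0 :: M) hD d0 dm rfl hm hlow
    · intro d hd
      rw [hdl] at hd
      have := h (P.X d.2 - P.X d0.1) (List.mem_map.mpr ⟨d, hd, rfl⟩)
      omega
    · have h1 := hlow d0 (by rw [hdl]; exact List.mem_cons_self)
      have h2 := h (P.X d0.2 - P.X d0.1) (List.mem_map.mpr ⟨d0, List.mem_cons_self, rfl⟩)
      omega
  · intro h
    rw [← e4]
    apply excursion P mv hmv (d0 :: M) hD d0 dm rfl hm hne hlow
    intro d hd
    rw [hdl] at hd
    have := h (P.X d.2 - P.X d0.1) (List.mem_map.mpr ⟨d, hd, rfl⟩)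
    omega

theorem WC_of_pre (P : PreSweep G) (mv : Fin G.n → Fin G.n)
    (hmv : ∀ v, (P.ord v).getLast? = some (mv v)) (d : Fin G.n × Fin G.n)
    (hd : d.2 ∈ G.nbr d.1) : WC (faceCyc G mv d) := by
  intro s0 l0 m r hrot hm hpos
  obtain ⟨k, hk⟩ := hrot.symm
  unfold faceCyc at hk
  rw [← List.map_rotate, ← Equiv.Perm.toList_pow_apply_eq_rotate] at hk
  obtain ⟨d', hd'⟩ : ∃ d', d' = (G.faceNext ^ k) d := ⟨_, rfl⟩
  rw [← hd'] at hk
  have hdart : d'.2 ∈ G.nbr d'.1 := by
    rw [hd']
    exact faceNext_pow_dart d hd k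
  have hW := walk_toList d' hdart
  rw [List.map_eq_cons_iff] at hk
  obtain ⟨d0, MR, hMR, h0, hk⟩ := hk
  rw [List.map_eq_append_iff] at hk
  obtain ⟨M, R, rfl, hM, hR⟩ := hk
  rw [hMR, ← List.cons_append] at hW
  have hD := walk_initial _ _ hW
  simp only [Prod.mk.injEq] at h0
  obtain ⟨rfl, rfl⟩ := h0
  subst hM
  have hMne : M ≠ [] := by
    intro h
    apply hm
    rw [h]
    rfl
  have e1 : (G.len d0.1 d0.2 :: ((M.map (fun e => (sgn mv e, G.len e.1 e.2))).dropLast.map
      Prod.snd)) = (d0 :: M.dropLast).map (fun e => G.len e.1 e.2) := by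
    rw [← List.map_dropLast, List.map_map, List.map_cons]
    rfl
  have e2 : (G.len d0.1 d0.2 :: ((M.map (fun e => (sgn mv e, G.len e.1 e.2))).map
      Prod.snd)) = (d0 :: M).map (fun e => G.len e.1 e.2) := by
    rw [List.map_map, List.map_cons]
    rfl
  have e3 : ((M.map (fun e => (sgn mv e, G.len e.1 e.2))).map Prod.fst) = M.map (sgn mv) := by
    rw [List.map_map]
    rfl
  rw [e1] at hpos ⊢
  rw [e2, e3]
  by_cases ht : P.typ d0.1 = true
  · exact window_aux P mv hmv d0 M hD hMne ht hpos
  · exact window_aux P.rotate mv hmv d0 M hD hMne (by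
      change (!(P.typ d0.1)) = true
      simpa using ht) hpos

/-- face closing up -/
theorem toList_last (d : Fin G.n × Fin G.n) (hd : d.2 ∈ G.nbr d.1)
    (dm : Fin G.n × Fin G.n) (hm : (G.faceNext.toList d).getLast? = some dm) :
    G.faceNext dm = d := by
  have hs : d ∈ G.faceNext.support := Equiv.Perm.mem_support.mpr (faceNext_ne d hd)
  have hlen : (G.faceNext.toList d).length = (G.faceNext.cycleOf d).support.card :=
    Equiv.Perm.length_toList _ _
  have hpos : 0 < (G.faceNext.toList d).length :=
    Equiv.Perm.length_toList_pos_of_mem_support _ _ hs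
  have hne : G.faceNext.toList d ≠ [] := List.length_pos_iff.mp hpos
  rw [List.getLast?_eq_some_getLast hne, Option.some.injEq, List.getLast_eq_getElem,
    Equiv.Perm.getElem_toList] at hm
  rw [← hm, ← Equiv.Perm.mul_apply, ← pow_succ']
  have h1 : (G.faceNext.toList d).length - 1 + 1 = (G.faceNext.toList d).length := by omega
  rw [h1, hlen]
  have := Equiv.Perm.pow_mod_card_support_cycleOf_self_apply G.faceNext
    ((G.faceNext.cycleOf d).support.card) d
  rw [Nat.mod_self, pow_zero] at this
  exact this.symm

theorem toList_head (d : Fin G.n × Fin G.n) (hd : d.2 ∈ G.nbr d.1) :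
    (G.faceNext.toList d).head? = some d := by
  have hs : d ∈ G.faceNext.support := Equiv.Perm.mem_support.mpr (faceNext_ne d hd)
  have hpos : 0 < (G.faceNext.toList d).length :=
    Equiv.Perm.length_toList_pos_of_mem_support _ _ hs
  rw [List.head?_eq_getElem?, List.getElem?_eq_getElem hpos, Equiv.Perm.getElem_toList]
  rfl

theorem mem_toList (d e : Fin G.n × Fin G.n) (hd : d.2 ∈ G.nbr d.1) :
    e ∈ G.faceNext.toList d ↔ G.faceNext.SameCycle d e := by
  rw [Equiv.Perm.mem_toList_iff]
  have hs : d ∈ G.faceNext.support := Equiv.Perm.mem_support.mpr (faceNext_ne d hd)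
  simp [hs]

/-- the first vertex of a nonempty set of vertices in a list -/
theorem first_split {α : Type} (vs : List α) (p : α → Prop) [DecidablePred p]
    (h : ∃ v ∈ vs, p v) : ∃ vs1 v vs2, vs = vs1 ++ v :: vs2 ∧ p v ∧ ∀ u ∈ vs1, ¬ p u := by
  induction vs with
  | nil => simp at h
  | cons a vs ih =>
    by_cases ha : p a
    · exact ⟨[], a, vs, rfl, ha, by simp⟩
    · obtain ⟨v, hv, hpv⟩ := h
      rw [List.mem_cons] at hv
      rcases hv with rfl | hv
      · exact (ha hpv).elim
      · obtain ⟨vs1, w, vs2, h1, h2, h3⟩ := ih ⟨v, hv, hpv⟩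
        refine ⟨a :: vs1, w, vs2, by rw [h1]; rfl, h2, ?_⟩
        intro u hu
        rw [List.mem_cons] at hu
        rcases hu with rfl | hu
        · exact ha
        · exact h3 u hu

theorem cup_none (Θ : Fin G.n × Fin G.n → Option ℤ) (T : List (Fin G.n × Fin G.n))
    (h : ∀ d ∈ T, Θ d = none) (x : ℤ) : cup Θ T x = x := by
  induction T generalizing x with
  | nil => rfl
  | cons d T ih =>
    simp only [cup, st, h d List.mem_cons_self]
    exact ih (fun d hd => h d (List.mem_cons_of_mem _ hd)) x

theorem cdn_none (Θ : Fin G.n × Fin G.n → Option ℤ) (T : List (Fin G.n × Fin G.n))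
    (h : ∀ d ∈ T, Θ d = none) (x : ℤ) : cdn Θ T x = x := by
  induction T generalizing x with
  | nil => rfl
  | cons d T ih =>
    simp only [cdn, st, h d List.mem_cons_self]
    exact ih (fun d hd => h d (List.mem_cons_of_mem _ hd)) x

/-- valley corners of a walk at a vertex, for a part of the neighbours -/
theorem chain_of_walk (P : PreSweep G) (mv : Fin G.n → Fin G.n)
    (hmv : ∀ v, (P.ord v).getLast? = some (mv v)) (c : ℤ) (D : List (Fin G.n × Fin G.n))
    (hD : Walk G D) (v : Fin G.n) (L1 L L2 : List (Fin G.n)) (hL : P.ord v = L1 ++ L ++ L2)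
    (h0 : ∀ i (_ : i + 1 < L.length), ∀ d, D.head? = some d → (v, L[i]) ≠ d)
    (hl : ∀ i (_ : i + 1 < L.length), ∀ d, D.getLast? = some d → G.faceNext d ≠ (v, L[i])) :
    ChainOK (lab (sgn mv) c D) v L := by
  unfold ChainOK
  rw [List.isChain_iff_getElem]
  intro i hi
  have hlen : (P.ord v).length = L1.length + L.length + L2.length := by
    rw [hL, List.length_append, List.length_append]
  have hi' : L1.length + i + 1 < (P.ord v).length := by omega
  have g1 : (P.ord v)[L1.length + i] = L[i] := by
    have : (P.ord v)[L1.length + i]? = some L[i] := by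
      rw [hL, List.append_assoc, List.getElem?_append_right (by omega),
        List.getElem?_append_left (by omega)]
      rw [List.getElem?_eq_getElem (by omega)]
      congr 1
      congr 1
      omega
    rw [List.getElem?_eq_getElem (by omega), Option.some.injEq] at this
    exact this
  have g2 : (P.ord v)[L1.length + i + 1] = L[i + 1] := by
    have : (P.ord v)[L1.length + i + 1]? = some L[i + 1] := by
      rw [hL, List.append_assoc, List.getElem?_append_right (by omega),
        List.getElem?_append_left (by omega)]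
      rw [List.getElem?_eq_getElem (by omega)]
      congr 1
      congr 1
      omega
    rw [List.getElem?_eq_getElem (by omega), Option.some.injEq] at this
    exact this
  have h1 := faceNext_ord_get P v (L1.length + i) hi'
  rw [g1, g2] at h1
  have h2 := corner_of_walk (sgn mv) c D hD (L[i + 1], v) (by
    intro d hd
    rw [h1]
    exact h0 i hi d hd) (by
    intro d hd hc
    apply hl i hi d hd
    rw [← hc, h1])
  rw [h1] at h2
  have h3 : sgn mv (v, L[i]) = -1 := by
    unfold sgn
    rw [if_neg]
    rw [← g1]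
    exact ord_get_ne_last P v _ (hmv v) _ hi'
  rw [h3] at h2
  exact h2

theorem mem_toList_next (d e : Fin G.n × Fin G.n) (hd : d.2 ∈ G.nbr d.1)
    (he : e ∈ G.faceNext.toList d) : G.faceNext e ∈ G.faceNext.toList d := by
  rw [mem_toList d _ hd] at he ⊢
  exact Equiv.Perm.sameCycle_apply_right.mpr he

/-- the sum of the signs of a face, starting at a corner of its first vertex -/
theorem face_sum_first (P : PreSweep G) (mv : Fin G.n → Fin G.n)
    (hmv : ∀ v, (P.ord v).getLast? = some (mv v)) (d0 : Fin G.n × Fin G.n)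
    (hd0 : d0.2 ∈ G.nbr d0.1) (vs1 vs2 : List (Fin G.n)) (hvs : P.vs = vs1 ++ d0.1 :: vs2)
    (hfirst : ∀ e ∈ G.faceNext.toList d0, e.1 ∉ vs1) :
    (d0.2 = mv d0.1 → ((G.faceNext.toList d0).map (sgn mv)).sum = 2) ∧
    ((d0.1, mv d0.1) ∉ G.faceNext.toList d0 →
      ((G.faceNext.toList d0).map (sgn mv)).sum = -2) := by
  obtain ⟨D, hDdef⟩ : ∃ D, D = G.faceNext.toList d0 := ⟨_, rfl⟩
  have hW : Walk G D := by
    rw [hDdef]
    exact walk_toList d0 hd0
  have hh0 : D.head? = some d0 := by
    rw [hDdef]
    exact toList_head d0 hd0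
  have hDne : D ≠ [] := by
    intro h
    rw [h] at hh0
    simp at hh0
  obtain ⟨dm, hm⟩ : ∃ dm, D.getLast? = some dm := ⟨_, List.getLast?_eq_some_getLast hDne⟩
  have hdm : G.faceNext dm = d0 := toList_last d0 hd0 dm (by rw [← hDdef]; exact hm)
  have hnext : ∀ e ∈ D, G.faceNext e ∈ D := by
    intro e he
    rw [hDdef] at he ⊢
    exact mem_toList_next d0 e hd0 he
  rw [← hDdef] at hfirst ⊢
  clear hDdef
  obtain ⟨v, w⟩ := d0
  simp only at hvs hd0 ⊢
  have hsnd : ∀ e ∈ D, e.2 ∉ vs1 := by
    intro e he
    have := hfirst _ (hnext e he)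
    exact this
  have hdm2 : dm.2 = v := by
    have := congrArg Prod.fst hdm
    exact this
  have hd0mem : (v, w) ∈ D := mem_of_head hh0
  have hdmmem : dm ∈ D := mem_of_last hm
  have hrun := P.run
  rw [hvs] at hrun
  obtain ⟨B0, r1, r2⟩ := run_append _ _ _ _ _ _ hrun
  have I0 := inv_of_run P vs1 (v :: vs2) hvs B0 r1
  have hsorted := P.sorted
  rw [hvs, List.pairwise_append, List.pairwise_cons] at hsorted
  have hnodup := P.nodup
  rw [hvs, List.nodup_append, List.nodup_cons] at hnodup
  obtain ⟨t, ht⟩ : ∃ t, t = (D.map (sgn mv)).sum - sgn mv (v, w) := ⟨_, rfl⟩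
  have l0 : lab (sgn mv) (sgn mv (v, w)) D (v, w) = some 0 :=
    lab_head (sgn mv) D hW.nodup (v, w) hh0
  have lm : lab (sgn mv) (sgn mv (v, w)) D dm = some t := by
    rw [ht]
    exact lab_last (sgn mv) (sgn mv (v, w)) D hW.nodup dm hm
  have hnone : ∀ e ∈ strands B0, lab (sgn mv) (sgn mv (v, w)) D e = none := by
    intro e he
    apply lab_none
    intro heD
    rw [mem_strands] at he
    rcases he with he | he
    · exact hsnd e heD ((I0.2 e.2 e.1).mp he).1
    · exact hfirst e heD ((I0.2 e.1 e.2).mp he).1
  have hblock : ∀ x, cup (lab (sgn mv) (sgn mv (v, w)) D) (oblock v (P.ord v)) x ≤ x ∧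
      x ≤ cdn (lab (sgn mv) (sgn mv (v, w)) D) (oblock v (P.ord v)) x := by
    cases r2 with
    | opn _ _ A C _ hv r3 =>
      intro x
      have hmono := run_mono (lab (sgn mv) (sgn mv (v, w)) D) P.typ P.ord vs2 _ [] r3 (by
        intro u hu
        apply vertexOK_of_walk P mv hmv _ D hW u
        · intro d hd h
          rw [hh0, Option.some.injEq] at hd
          subst hd
          simp only at h
          subst h
          exact hnodup.2.1.1 hu
        · intro d hd h
          rw [hm, Option.some.injEq] at hd
          subst hd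
          rw [hdm2] at h
          subst h
          exact hnodup.2.1.1 hu) x
      have hA : ∀ e ∈ strands A, lab (sgn mv) (sgn mv (v, w)) D e = none := by
        intro e he
        apply hnone
        rw [strands_append, List.mem_append]
        exact Or.inl he
      have hC : ∀ e ∈ strands C, lab (sgn mv) (sgn mv (v, w)) D e = none := by
        intro e he
        apply hnone
        rw [strands_append, List.mem_append]
        exact Or.inr he
      simp only [strands_append, cup_append, cdn_append] at hmono
      rw [cup_none _ _ hC, cup_none _ _ hA, cdn_none _ _ hC, cdn_none _ _ hA] at hmono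
      exact hmono
    | cls _ _ A C _ hv r3 =>
      exfalso
      have h1 : P.typ w = true := by
        rw [P.isLevel.typ_ne v w hd0, hv]
        rfl
      have h2 := lt_of_typ P w v (G.symm _ _ hd0) h1
      have h3 : w ∈ P.vs := P.complete w
      rw [hvs, List.mem_append, List.mem_cons] at h3
      rcases h3 with h3 | h3 | h3
      · exact hsnd _ hd0mem h3
      · rw [h3] at h2
        omega
      · have := hsorted.2.1.1 w h3
        omega
  have hordne : P.ord v ≠ [] := by
    intro h
    have := (mem_ord P v w).mpr hd0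
    rw [h] at this
    simp at this
  obtain ⟨a, ha⟩ : ∃ a, (P.ord v).head? = some a := by
    rcases h : P.ord v with _ | ⟨a, L⟩
    · exact (hordne h).elim
    · exact ⟨a, rfl⟩
  constructor
  · intro hw
    -- cut at the mountain corner
    have hch : ChainOK (lab (sgn mv) (sgn mv (v, w)) D) v (P.ord v) := by
      apply chain_of_walk P mv hmv _ D hW v [] (P.ord v) [] (by simp)
      · intro i hi d hd
        rw [hh0, Option.some.injEq] at hd
        subst hd
        intro h
        simp only [Prod.mk.injEq, true_and] at h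
        exact ord_get_ne_last P v _ (hmv v) i hi (by rw [h, hw])
      · intro i hi d hd
        rw [hm, Option.some.injEq] at hd
        subst hd
        rw [hdm]
        intro h
        simp only [Prod.mk.injEq, true_and] at h
        exact ord_get_ne_last P v _ (hmv v) i hi (by rw [← h, hw])
    have hav : (a, v) = dm := by
      apply G.faceNext.injective
      rw [hdm, faceNext_ord_last P v a (mv v) ha (hmv v), hw]
    have ht1 : t = 1 := by
      apply right_adj
      · intro x
        have h1 := cdn_oblock _ v (P.ord v) hch a (mv v) ha (hmv v) x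
        have h2 := (hblock x).2
        rw [← hw, hav] at h1
        simp only [st, l0, lm] at h1
        exact h2.trans h1
      · intro x
        have h1 := cup_oblock _ v (P.ord v) hch a (mv v) ha (hmv v) x
        have h2 := (hblock x).1
        rw [← hw, hav] at h1
        simp only [st, l0, lm] at h1
        exact h1.trans h2
    have hs : sgn mv (v, w) = 1 := by
      unfold sgn
      rw [if_pos hw]
    rw [ht1, hs] at ht
    omega
  · intro hmount
    have hwne : w ≠ mv v := by
      rintro rfl
      exact hmount hd0mem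
    obtain ⟨L1, L2', hL⟩ := List.append_of_mem ((mem_ord P v w).mpr hd0)
    rcases L2' with _ | ⟨w', L2⟩
    · exfalso
      have := hmv v
      rw [hL] at this
      simp only [List.getLast?_append, List.getLast?_singleton, Option.some_or,
        Option.some.injEq] at this
      exact hwne this
    have hL' : P.ord v = (L1 ++ [w]) ++ (w' :: L2) := by rw [hL]; simp
    have hnd := nodup_ord P v
    rw [hL', List.nodup_append] at hnd
    have hch1 : ChainOK (lab (sgn mv) (sgn mv (v, w)) D) v (L1 ++ [w]) := by
      have hne : ∀ i (_ : i + 1 < (L1 ++ [w]).length), (L1 ++ [w])[i] ≠ w := by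
        intro i hi h
        have h1 : (L1 ++ [w])[L1.length] = w := by simp
        have h2 : (L1 ++ [w])[i] = (L1 ++ [w])[L1.length] := by rw [h, h1]
        have h3 := hnd.1.getElem_inj_iff.mp h2
        rw [List.length_append, List.length_singleton] at hi
        omega
      apply chain_of_walk P mv hmv _ D hW v [] (L1 ++ [w]) (w' :: L2) (by rw [hL']; simp)
      · intro i hi d hd
        rw [hh0, Option.some.injEq] at hd
        subst hd
        intro h
        simp only [Prod.mk.injEq, true_and] at h
        exact hne i hi h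
      · intro i hi d hd
        rw [hm, Option.some.injEq] at hd
        subst hd
        rw [hdm]
        intro h
        simp only [Prod.mk.injEq, true_and] at h
        exact hne i hi h.symm
    have hch2 : ChainOK (lab (sgn mv) (sgn mv (v, w)) D) v (w' :: L2) := by
      have hne : ∀ i (_ : i + 1 < (w' :: L2).length), (w' :: L2)[i] ≠ w := by
        intro i hi h
        exact hnd.2.2 w (by simp) ((w' :: L2)[i]) (List.getElem_mem _) h.symm
      apply chain_of_walk P mv hmv _ D hW v (L1 ++ [w]) (w' :: L2) [] (by rw [hL']; simp)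
      · intro i hi d hd
        rw [hh0, Option.some.injEq] at hd
        subst hd
        intro h
        simp only [Prod.mk.injEq, true_and] at h
        exact hne i hi h
      · intro i hi d hd
        rw [hm, Option.some.injEq] at hd
        subst hd
        rw [hdm]
        intro h
        simp only [Prod.mk.injEq, true_and] at h
        exact hne i hi h.symm
    have ha1 : (L1 ++ [w]).head? = some a := by
      rw [← ha, hL']
      cases L1 <;> simp
    have hl1 : (L1 ++ [w]).getLast? = some w := by simp
    have hl2 : (w' :: L2).getLast? = some (mv v) := by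
      rw [← hmv v, hL', List.getLast?_append_of_ne_nil _ (List.cons_ne_nil _ _)]
    have hwv : (w', v) = dm := by
      apply G.faceNext.injective
      rw [hdm]
      apply faceNext_ord P v
      have h1 : L1.length + 1 < (P.ord v).length := by
        rw [hL', List.length_append, List.length_append]
        simp
      have h2 := List.formPerm_apply_lt_getElem (P.ord v) (nodup_ord P v) L1.length h1
      have h3 : (P.ord v)[L1.length] = w := by
        simp [hL]
      have h4 : (P.ord v)[L1.length + 1] = w' := by
        have : (P.ord v)[L1.length + 1]? = some w' := by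
          rw [hL, List.getElem?_append_right (by omega)]
          simp
        rw [List.getElem?_eq_getElem h1, Option.some.injEq] at this
        exact this
      rw [h3, h4] at h2
      exact h2
    have n1 : lab (sgn mv) (sgn mv (v, w)) D (v, mv v) = none := lab_none _ _ _ _ hmount
    have n2 : lab (sgn mv) (sgn mv (v, w)) D (a, v) = none := by
      apply lab_none
      intro h
      apply hmount
      have := hnext _ h
      rw [faceNext_ord_last P v a (mv v) ha (hmv v)] at this
      exact this
    have hob : oblock v (P.ord v) = oblock v (L1 ++ [w]) ++ oblock v (w' :: L2) := by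
      unfold oblock
      rw [hL', List.map_append, strands_append]
    have ht1 : t = -1 := by
      apply left_adj
      · intro x
        have h2 := (hblock x).2
        rw [hob, cdn_append] at h2
        have h3 := cdn_oblock _ v _ hch1 a w ha1 hl1
          (cdn (lab (sgn mv) (sgn mv (v, w)) D) (oblock v (w' :: L2)) x)
        have h4 := cdn_oblock _ v _ hch2 w' (mv v) rfl hl2 x
        rw [hwv] at h4
        simp only [st, n1, lm] at h4
        simp only [st, n2, l0] at h3
        exact h2.trans (h3.trans (g_mono 0 h4))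
      · intro x
        have h2 := (hblock x).1
        rw [hob, cup_append] at h2
        have h3 := cup_oblock _ v _ hch1 a w ha1 hl1 x
        have h4 := cup_oblock _ v _ hch2 w' (mv v) rfl hl2
          (cup (lab (sgn mv) (sgn mv (v, w)) D) (oblock v (L1 ++ [w])) x)
        rw [hwv] at h4
        simp only [st, n1, lm] at h4
        simp only [st, n2, l0] at h3
        exact (g_mono t h3).trans (h4.trans h2)
    have hs : sgn mv (v, w) = -1 := by
      unfold sgn
      rw [if_neg hwne]
    rw [ht1, hs] at ht
    omega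

theorem sum_eq_of_sameCycle (f : Fin G.n × Fin G.n → ℤ) (d e : Fin G.n × Fin G.n)
    (h : G.faceNext.SameCycle d e) :
    ((G.faceNext.toList d).map f).sum = ((G.faceNext.toList e).map f).sum := by
  have h1 := Equiv.Perm.SameCycle.toList_isRotated h
  exact (h1.perm.map f).sum_eq

/-- every face has sum `2` or `-2` -/
theorem face_sum (P : PreSweep G) (mv : Fin G.n → Fin G.n)
    (hmv : ∀ v, (P.ord v).getLast? = some (mv v)) (d : Fin G.n × Fin G.n)
    (hd : d.2 ∈ G.nbr d.1) :
    ((G.faceNext.toList d).map (sgn mv)).sum = 2 ∨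
      ((G.faceNext.toList d).map (sgn mv)).sum = -2 := by
  classical
  have hself : d ∈ G.faceNext.toList d := mem_of_head (toList_head d hd)
  obtain ⟨vs1, v, vs2, hvs, ⟨e, he, hev⟩, hfirst⟩ := first_split P.vs
    (fun u => ∃ e ∈ G.faceNext.toList d, e.1 = u) ⟨d.1, P.complete _, d, hself, rfl⟩
  have hWd := walk_toList d hd
  have key : ∀ e' ∈ G.faceNext.toList d, e'.1 = v →
      (e'.2 = mv v → ((G.faceNext.toList d).map (sgn mv)).sum = 2) ∧
      ((v, mv v) ∉ G.faceNext.toList d →
        ((G.faceNext.toList d).map (sgn mv)).sum = -2) := by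
    intro e' he' hv
    have hsc : G.faceNext.SameCycle d e' := (mem_toList d e' hd).mp he'
    have hde' := hWd.dart e' he'
    have hmem : ∀ x, x ∈ G.faceNext.toList e' ↔ x ∈ G.faceNext.toList d := by
      intro x
      rw [mem_toList e' x hde', mem_toList d x hd]
      exact ⟨fun h => hsc.trans h, fun h => hsc.symm.trans h⟩
    have := face_sum_first P mv hmv e' hde' vs1 vs2 (by rw [hv]; exact hvs) (by
      intro x hx hx1
      exact hfirst x.1 hx1 ⟨x, (hmem x).mp hx, rfl⟩)
    rw [hv, hmem, ← sum_eq_of_sameCycle (sgn mv) d e' hsc] at this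
    exact this
  by_cases hmt : (v, mv v) ∈ G.faceNext.toList d
  · left
    exact (key (v, mv v) hmt rfl).1 rfl
  · right
    exact (key e he hev).2 hmt

/-- the face of the mountain corner of the first vertex has sum `2` -/
theorem face_sum_head (P : PreSweep G) (mv : Fin G.n → Fin G.n)
    (hmv : ∀ v, (P.ord v).getLast? = some (mv v)) (v : Fin G.n) (hv : P.vs.head? = some v)
    (hd : mv v ∈ G.nbr v) :
    ((G.faceNext.toList (v, mv v)).map (sgn mv)).sum = 2 := by
  rcases h : P.vs with _ | ⟨u, vs2⟩
  · rw [h] at hv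
    simp at hv
  · rw [h] at hv
    simp only [List.head?_cons, Option.some.injEq] at hv
    subst hv
    exact (face_sum_first P mv hmv (u, mv u) hd [] vs2 (by rw [h]; rfl) (by simp)).1 rfl

/-! ### counting -/

/-- the darts -/
abbrev Dt (G : PlaneGraph) := {d : Fin G.n × Fin G.n // d.2 ∈ G.nbr d.1}

theorem faceNext_dart_iff (d : Fin G.n × Fin G.n) :
    (G.faceNext d).2 ∈ G.nbr (G.faceNext d).1 ↔ d.2 ∈ G.nbr d.1 := by
  constructor
  · intro h
    obtain ⟨u, v⟩ := d
    rw [faceNext_apply] at h
    have h2 : (G.nbr v).formPerm ((G.nbr v).formPerm.symm u) ∈ G.nbr v :=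
      List.formPerm_apply_mem_of_mem h
    rw [Equiv.apply_symm_apply] at h2
    exact G.symm _ _ h2
  · exact faceNext_dart d

/-- the face permutation on darts -/
def phi (G : PlaneGraph) : Equiv.Perm (Dt G) := G.faceNext.subtypePerm faceNext_dart_iff

/-- reversal of darts -/
def alp (G : PlaneGraph) : Equiv.Perm (Dt G) where
  toFun d := ⟨d.1.swap, G.symm _ _ d.2⟩
  invFun d := ⟨d.1.swap, G.symm _ _ d.2⟩
  left_inv d := by simp
  right_inv d := by simp

theorem conn1 (v w w' : Fin G.n) (hw : w ∈ G.nbr v) (hw' : w' ∈ G.nbr v) :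
    Relation.ReflTransGen (fun a b : Dt G => b = phi G a ∨ b = alp G a) ⟨(v, w), hw⟩
      ⟨(v, w'), hw'⟩ := by
  have key : ∀ k : ℕ, ∀ u (hu : u ∈ G.nbr v), ((G.nbr v).formPerm ^ k) u = w →
      Relation.ReflTransGen (fun a b : Dt G => b = phi G a ∨ b = alp G a) ⟨(v, w), hw⟩
      ⟨(v, u), hu⟩ := by
    intro k
    induction k with
    | zero =>
      intro u hu h
      have : u = w := h
      subst this
      exact Relation.ReflTransGen.refl
    | succ k ih =>
      intro u hu h
      have hu' : (G.nbr v).formPerm u ∈ G.nbr v := List.formPerm_apply_mem_of_mem hu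
      have h1 := ih ((G.nbr v).formPerm u) hu' (by
        rw [← h, pow_succ, Equiv.Perm.mul_apply])
      refine Relation.ReflTransGen.tail (Relation.ReflTransGen.tail h1 (Or.inr rfl)) ?_
      left
      apply Subtype.ext
      change (v, u) = G.faceNext ((G.nbr v).formPerm u, v)
      rw [faceNext_apply, Equiv.symm_apply_apply]
  obtain ⟨i, hi, rfl⟩ := List.getElem_of_mem hw
  obtain ⟨j, hj, rfl⟩ := List.getElem_of_mem hw'
  apply key (i + (G.nbr v).length - j)
  rw [List.formPerm_pow_apply_getElem _ (G.nodup v)]
  congr 1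
  have : j + (i + (G.nbr v).length - j) = i + (G.nbr v).length := by omega
  rw [this, Nat.add_mod_right, Nat.mod_eq_of_lt hi]

theorem conn2 (u w v : Fin G.n) (hw : w ∈ G.nbr u)
    (h : Relation.ReflTransGen (fun a b => b ∈ G.nbr a) u v) :
    ∀ w' (hw' : w' ∈ G.nbr v),
    Relation.ReflTransGen (fun a b : Dt G => b = phi G a ∨ b = alp G a) ⟨(u, w), hw⟩
      ⟨(v, w'), hw'⟩ := by
  induction h with
  | refl =>
    intro w' hw'
    exact conn1 u w w' hw hw'
  | tail _ hbc ih =>
    intro w' hw'
    refine Relation.ReflTransGen.trans ?_ (conn1 _ _ w' (G.symm _ _ hbc) hw')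
    exact Relation.ReflTransGen.tail (ih _ hbc) (Or.inr rfl)

theorem conn_all (x y : Dt G) :
    Relation.ReflTransGen (fun a b : Dt G => b = phi G a ∨ b = alp G a) x y := by
  obtain ⟨⟨u, w⟩, hx⟩ := x
  obtain ⟨⟨v, w'⟩, hy⟩ := y
  exact conn2 u w v hx (G.connected u v) w' hy

theorem nbr_ne_nil (v : Fin G.n) : G.nbr v ≠ [] := by
  intro h
  rcases Relation.ReflTransGen.cases_head (G.connected v G.outer.1) with h1 | ⟨b, h1, _⟩
  · have := G.outer_mem
    rw [← h1, h] at this
    simp at this
  · rw [h] at h1
    simp at h1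

theorem numOrb_sigma (mv : Fin G.n → Fin G.n) (hmv : ∀ v, mv v ∈ G.nbr v) :
    G.n ≤ numOrb (alp G * (phi G)⁻¹) := by
  have hfst : ∀ x : Dt G, ((alp G * (phi G)⁻¹) x).1.1 = x.1.1 := by
    intro x
    obtain ⟨y, rfl⟩ := (phi G).surjective x
    have : (alp G * (phi G)⁻¹) (phi G y) = alp G y := by simp
    rw [this]
    rfl
  have hpow : ∀ (k : ℕ) (x : Dt G), (((alp G * (phi G)⁻¹) ^ k) x).1.1 = x.1.1 := by
    intro k
    induction k with
    | zero => intro x; rfl
    | succ k ih =>
      intro x
      rw [pow_succ', Equiv.Perm.mul_apply, hfst, ih]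
  have hsame : ∀ x y : Dt G, (alp G * (phi G)⁻¹).SameCycle x y → x.1.1 = y.1.1 := by
    intro x y h
    obtain ⟨k, rfl⟩ := h.exists_nat_pow_eq
    rw [hpow]
  let F : Quotient (Equiv.Perm.SameCycle.setoid (alp G * (phi G)⁻¹)) → Fin G.n :=
    Quotient.lift (fun x => x.1.1) hsame
  have hF : Function.Surjective F := by
    intro v
    exact ⟨Quotient.mk _ ⟨(v, mv v), hmv v⟩, rfl⟩
  have := Nat.card_le_card_of_surjective F hF
  rw [Nat.card_eq_fintype_card, Fintype.card_fin] at this
  exact this

open Classical in
theorem sum_sgn (mv : Fin G.n → Fin G.n) (hmv : ∀ v, mv v ∈ G.nbr v) :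
    ∑ x : Dt G, sgn mv x.1 = 2 * (G.n : ℤ) - (Fintype.card (Dt G) : ℤ) := by
  have h1 : ∀ x : Dt G, sgn mv x.1 = (if x.1.2 = mv x.1.1 then (2 : ℤ) else 0) - 1 := by
    intro x
    unfold sgn
    split_ifs <;> rfl
  rw [Finset.sum_congr rfl (fun x _ => h1 x), Finset.sum_sub_distrib]
  have h2 : ∑ x : Dt G, (if x.1.2 = mv x.1.1 then (2 : ℤ) else 0) = 2 * (G.n : ℤ) := by
    rw [← Finset.sum_filter, Finset.sum_const]
    have h3 : (Finset.univ.filter (fun x : Dt G => x.1.2 = mv x.1.1)).card = G.n := by
      refine Eq.trans ?_ (Finset.card_fin G.n)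
      symm
      apply Finset.card_bij (fun v _ => (⟨(v, mv v), hmv v⟩ : Dt G))
      · intro v _
        simp
      · intro u _ v _ h
        have := congrArg (fun x : Dt G => x.1.1) h
        exact this
      · intro x hx
        simp only [Finset.mem_filter, Finset.mem_univ, true_and] at hx
        refine ⟨x.1.1, Finset.mem_univ _, ?_⟩
        apply Subtype.ext
        change (x.1.1, mv x.1.1) = x.1
        rw [← hx]
    rw [h3, nsmul_eq_mul]
    ring
  rw [h2]
  simp

open Classical in
theorem orbit_sum (f : Fin G.n × Fin G.n → ℤ) (d : Dt G) :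
    ∑ x ∈ (Finset.univ : Finset (Dt G)).filter
      (fun x => (Quotient.mk (Equiv.Perm.SameCycle.setoid (phi G)) x) =
        Quotient.mk (Equiv.Perm.SameCycle.setoid (phi G)) d), f x.1 =
      ((G.faceNext.toList d.1).map f).sum := by
  rw [← List.sum_toFinset f (Equiv.Perm.nodup_toList G.faceNext d.1)]
  apply Finset.sum_bij (fun (x : Dt G) _ => x.1)
  · intro x hx
    simp only [Finset.mem_filter, Finset.mem_univ, true_and] at hx
    have h1 : (phi G).SameCycle x d := Quotient.exact hx
    have h2 : G.faceNext.SameCycle x.1 d.1 := Equiv.Perm.sameCycle_subtypePerm.mp h1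
    rw [List.mem_toFinset, mem_toList d.1 x.1 d.2]
    exact h2.symm
  · intro x _ y _ h
    exact Subtype.ext h
  · intro e he
    rw [List.mem_toFinset] at he
    have hdart : e.2 ∈ G.nbr e.1 := (walk_toList d.1 d.2).dart e he
    rw [mem_toList d.1 e d.2] at he
    refine ⟨⟨e, hdart⟩, ?_, rfl⟩
    simp only [Finset.mem_filter, Finset.mem_univ, true_and]
    apply Quotient.sound
    change (phi G).SameCycle ⟨e, hdart⟩ d
    exact Equiv.Perm.sameCycle_subtypePerm.mpr he.symm
  · intro x _
    rfl

/-- at most one face has sum `2` -/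
theorem unique_face (P : PreSweep G) (mv : Fin G.n → Fin G.n)
    (hmv : ∀ v, (P.ord v).getLast? = some (mv v)) (d e : Fin G.n × Fin G.n)
    (hd : d.2 ∈ G.nbr d.1) (he : e.2 ∈ G.nbr e.1)
    (sd : ((G.faceNext.toList d).map (sgn mv)).sum = 2)
    (se : ((G.faceNext.toList e).map (sgn mv)).sum = 2) : G.faceNext.SameCycle d e := by
  classical
  by_contra hne
  have hmv' : ∀ v, mv v ∈ G.nbr v := by
    intro v
    rw [← mem_ord P]
    exact mem_of_last (hmv v)
  have hE := euler_ineq (phi G) (alp G) (fun d => by simp [alp]) (fun d h => by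
    have h1 := congrArg (fun x : Dt G => x.1.1) h
    have h2 : d.1.2 = d.1.1 := h1
    have h3 := d.2
    rw [h2] at h3
    exact G.irrefl _ h3) conn_all
  have hV := numOrb_sigma mv hmv'
  have hS := sum_sgn mv hmv'
  let Q := Quotient (Equiv.Perm.SameCycle.setoid (phi G))
  let q : Dt G → Q := Quotient.mk _
  have h1 : ∑ x : Dt G, sgn mv x.1 = ∑ c : Q, ∑ x ∈ Finset.univ.filter
      (fun x => q x = c), sgn mv x.1 := by
    rw [Finset.sum_fiberwise]
  have h2 : ∀ c : Q, 0 ≤ ∑ x ∈ Finset.univ.filter (fun x => q x = c), sgn mv x.1 + 2 := by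
    intro c
    induction c using Quotient.inductionOn with
    | h y =>
      have := orbit_sum (sgn mv) y
      have h3 := face_sum P mv hmv y.1 y.2
      have h4 : ∑ x ∈ Finset.univ.filter (fun x => q x = Quotient.mk _ y), sgn mv x.1 =
        ((G.faceNext.toList y.1).map (sgn mv)).sum := this
      rw [h4]
      omega
  have hqne : q ⟨d, hd⟩ ≠ q ⟨e, he⟩ := by
    intro h
    apply hne
    have h3 : (phi G).SameCycle ⟨d, hd⟩ ⟨e, he⟩ := Quotient.exact h
    exact Equiv.Perm.sameCycle_subtypePerm.mp h3
  have h5 : (8 : ℤ) ≤ ∑ c : Q, (∑ x ∈ Finset.univ.filter (fun x => q x = c), sgn mv x.1 + 2) := by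
    have h6 : ∑ c ∈ ({q ⟨d, hd⟩, q ⟨e, he⟩} : Finset Q),
        (∑ x ∈ Finset.univ.filter (fun x => q x = c), sgn mv x.1 + 2) = 8 := by
      rw [Finset.sum_pair hqne]
      have h7 : ∑ x ∈ Finset.univ.filter (fun x => q x = q ⟨d, hd⟩), sgn mv x.1 = 2 := by
        rw [← sd]
        exact orbit_sum (sgn mv) ⟨d, hd⟩
      have h8 : ∑ x ∈ Finset.univ.filter (fun x => q x = q ⟨e, he⟩), sgn mv x.1 = 2 := by
        rw [← se]
        exact orbit_sum (sgn mv) ⟨e, he⟩
      rw [h7, h8]
      norm_num
    rw [← h6]
    apply Finset.sum_le_sum_of_subset_of_nonneg (Finset.subset_univ _)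
    intro c _ _
    exact h2 c
  rw [Finset.sum_add_distrib, ← h1, hS, Finset.sum_const, Finset.card_univ, nsmul_eq_mul] at h5
  have h9 : (numOrb (phi G) : ℤ) = (Fintype.card Q : ℤ) := by
    rw [numOrb, Nat.card_eq_fintype_card]
  rw [← h9] at h5
  have hE' : (2 : ℤ) * ((numOrb (alp G * (phi G)⁻¹) : ℤ) + (numOrb (phi G) : ℤ)) ≤
      (Fintype.card (Dt G) : ℤ) + 4 := by exact_mod_cast hE
  have hV' : (G.n : ℤ) ≤ (numOrb (alp G * (phi G)⁻¹) : ℤ) := by exact_mod_cast hV
  linarith

theorem typ_walk (P : PreSweep G) (D : List (Fin G.n × Fin G.n)) (hD : Walk G D)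
    (d : Fin G.n × Fin G.n) (h0 : D.head? = some d) (i : ℕ) (hi : i < D.length) :
    P.typ (D[i]).1 = if i % 2 = 0 then P.typ d.1 else !(P.typ d.1) := by
  induction i with
  | zero =>
    rw [List.head?_eq_getElem?, List.getElem?_eq_getElem hi, Option.some.injEq] at h0
    rw [h0]
    rfl
  | succ i ih =>
    have ih' := ih (by omega)
    have h1 : (D[i + 1]).1 = (D[i]).2 := by
      rw [hD.next i hi]
      rfl
    rw [h1, P.isLevel.typ_ne _ _ (hD.dart _ (List.getElem_mem (by omega))), ih']
    rcases Nat.mod_two_eq_zero_or_one i with h | h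
    · have h2 : (i + 1) % 2 = 1 := by omega
      simp [h, h2]
    · have h2 : (i + 1) % 2 = 0 := by omega
      simp [h, h2]

theorem balanced_aux (P : PreSweep G) (mv : Fin G.n → Fin G.n) (d : Fin G.n × Fin G.n)
    (hd : d.2 ∈ G.nbr d.1) (ht : P.typ d.1 = true) : Balanced (faceCyc G mv d) := by
  have hW := walk_toList d hd
  have hh := toList_head d hd
  have hne : G.faceNext.toList d ≠ [] := by
    intro h
    rw [h] at hh
    simp at hh
  obtain ⟨dm, hm⟩ : ∃ dm, (G.faceNext.toList d).getLast? = some dm :=
    ⟨_, List.getLast?_eq_some_getLast hne⟩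
  have hdm : dm.2 = d.1 := by
    have := congrArg Prod.fst (toList_last d hd dm hm)
    exact this
  constructor
  · unfold faceCyc
    rw [List.length_map]
    have hpos := List.length_pos_iff.mpr hne
    have h1 := typ_walk P _ hW d hh ((G.faceNext.toList d).length - 1) (by omega)
    have h2 : (G.faceNext.toList d)[(G.faceNext.toList d).length - 1] = dm := by
      rw [List.getLast?_eq_some_getLast hne, Option.some.injEq, List.getLast_eq_getElem] at hm
      exact hm
    rw [h2] at h1
    have h3 := P.isLevel.typ_ne _ _ (hW.dart dm (mem_of_last hm))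
    rw [hdm] at h3
    by_contra hc
    have h4 : ((G.faceNext.toList d).length - 1) % 2 = 0 := by omega
    rw [if_pos h4] at h1
    rw [h1] at h3
    cases h5 : P.typ d.1 <;> rw [h5] at h3 <;> simp at h3
  · have e1 : (faceCyc G mv d).map Prod.snd =
        (G.faceNext.toList d).map (fun e => G.len e.1 e.2) := by
      unfold faceCyc
      rw [List.map_map]
      rfl
    rw [e1, heights_walk P (P.X d.1) _ hW 0 true (by
      intro e he
      rw [hh, Option.some.injEq] at he
      subst he
      exact ⟨ht, by ring⟩), List.getLastD_eq_getLast?, List.getLast?_map, hm]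
    simp [hdm]

theorem balanced_face (P : PreSweep G) (mv : Fin G.n → Fin G.n) (d : Fin G.n × Fin G.n)
    (hd : d.2 ∈ G.nbr d.1) : Balanced (faceCyc G mv d) := by
  by_cases ht : P.typ d.1 = true
  · exact balanced_aux P mv d hd ht
  · exact balanced_aux P.rotate mv d hd (by
      change (!(P.typ d.1)) = true
      simpa using ht)

end

end Win

open PlaneGraph Win

/-- Module A1: window condition for the faces of a sweep -/
theorem WC_of_sweep (G : PlaneGraph) (S : Sweep G) (mv : Fin G.n → Fin G.n)
    (hmv : ∀ v, (S.ord v).getLast? = some (mv v)) (d : Fin G.n × Fin G.n)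
    (hd : d.2 ∈ G.nbr d.1) : WC (faceCyc G mv d) :=
  WC_of_pre (ofSweep S) mv hmv d hd

open Classical in
/-- Module A1: face sums of a sweep -/
theorem sum_of_sweep (G : PlaneGraph) (S : Sweep G) (mv : Fin G.n → Fin G.n)
    (hmv : ∀ v, (S.ord v).getLast? = some (mv v)) (d : Fin G.n × Fin G.n)
    (hd : d.2 ∈ G.nbr d.1) : ((faceCyc G mv d).map Prod.fst).sum =
      if G.faceNext.SameCycle d G.outer then 2 else -2 := by
  have e0 : (faceCyc G mv d).map Prod.fst = (G.faceNext.toList d).map (sgn mv) := by
    unfold faceCyc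
    rw [List.map_map]
    rfl
  rw [e0]
  obtain ⟨v, hv⟩ : ∃ v, S.vs.head? = some v := by
    rcases h : S.vs with _ | ⟨a, L⟩
    · have := S.complete d.1
      rw [h] at this
      simp at this
    · exact ⟨a, rfl⟩
  have hmvd : mv v ∈ G.nbr v := by
    rw [← mem_ord (ofSweep S)]
    exact mem_of_last (hmv v)
  have h1 := face_sum_head (ofSweep S) mv hmv v hv hmvd
  have h2 := S.outer v (mv v) hv (hmv v)
  split_ifs with h
  · rw [sum_eq_of_sameCycle (sgn mv) d (v, mv v) (h.trans h2.symm)]
    exact h1
  · rcases face_sum (ofSweep S) mv hmv d hd with h3 | h3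
    · exfalso
      apply h
      exact (unique_face (ofSweep S) mv hmv d (v, mv v) hd hmvd h3 h1).trans h2
    · exact h3

/-- Module A -/
theorem mvGood_of_sweep (G : PlaneGraph) (S : Sweep G) : ∃ mv, MVGood G mv := by
  have hne : ∀ v, S.ord v ≠ [] := by
    intro v h
    have h1 := (S.ord_rot v).perm.length_eq
    rw [h] at h1
    exact nbr_ne_nil v (List.length_eq_zero_iff.mp h1.symm)
  have hmv : ∀ v, (S.ord v).getLast? = some ((S.ord v).getLast (hne v)) := fun v =>
    List.getLast?_eq_some_getLast (hne v)
  obtain ⟨mv, hmv⟩ : ∃ mv : Fin G.n → Fin G.n, ∀ v, (S.ord v).getLast? = some (mv v) :=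
    ⟨_, hmv⟩
  refine ⟨mv, ?_, ?_⟩
  · intro v
    rw [← mem_ord (ofSweep S)]
    exact mem_of_last (hmv v)
  · intro d hd
    apply algGood_of_WC _ _ ?_ ?_ ?_ (balanced_face (ofSweep S) mv d hd)
      (WC_of_sweep G S mv hmv d hd) (sum_of_sweep G S mv hmv d hd) _ le_rfl
    · intro p hp
      unfold faceCyc at hp
      rw [List.mem_map] at hp
      obtain ⟨e, he, rfl⟩ := hp
      exact G.len_pos _ _ ((walk_toList d hd).dart e he)
    · intro p hp
      unfold faceCyc at hp
      rw [List.mem_map] at hp
      obtain ⟨e, he, rfl⟩ := hp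
      simp only [sgn]
      split_ifs
      · exact Or.inl rfl
      · exact Or.inr rfl
    · intro h
      unfold faceCyc at h
      rw [List.map_eq_nil_iff] at h
      have := toList_head d hd
      rw [h] at this
      simp at this

end Pool.Agent.FlatFold
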