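import Mathlib
import Pool.Agent.Lib.MP_b92007_lc.FoldedSweep
import Pool.Agent.Lib.MP_b92007_lc.Windows

/-! From a folded state of the unit map to a sweep, second part. -/

set_option linter.unusedSectionVars false
set_option linter.unusedVariables false

namespace Pool.Agent.FlatFold

open PlaneGraph

variable {G : PlaneGraph} {typ : Fin G.n → Bool} {X : Fin G.n → ℤ} {mv : Fin G.n → Fin G.n}
  {h : UD G → ℤ}

/-- the vertices of type `b` on level `x` -/
def WV (typ : Fin G.n → Bool) (X : Fin G.n → ℤ) (b : Bool) (x : ℤ) : Finset (Fin G.n) :=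
  Finset.univ.filter (fun v => typ v = b ∧ X v = x)

theorem SW_WV (b : Bool) (x : ℤ) : SW typ X b x (WV typ X b x) = DS typ X b x := by
  ext d
  rw [mem_SW]
  constructor
  · exact fun h => h.1
  · intro hd
    refine ⟨hd, ?_⟩
    by_cases h0 : d.1.2 = 0
    · right
      rw [mem_DS] at hd
      unfold WV
      rw [Finset.mem_filter]
      refine ⟨Finset.mem_univ _, hd.1, ?_⟩
      have := hd.2
      unfold lv at this
      rw [h0] at this
      simpa using this
    · exact Or.inl h0

theorem passing_eq (hX : IsLevel G typ X) (hmv : ∀ v, mv v ∈ G.nbr v)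
    (hF : (unitMap G typ X mv).Folded h) (x : ℤ) (lL lR : List (UD G))
    (hL : IsSorted (hb false h) (SW typ X false x ∅) lL)
    (hR : IsSorted (hb true h) (SW typ X true x ∅) lR) :
    lR.map (ed typ) = lL.reverse.map (ed typ) := by
  have hpass : ∀ (b : Bool) (d : UD G), d ∈ SW typ X b x ∅ →
      d.1.2 ≠ 0 ∧ (unitMap G typ X mv).sg d ∈ SW typ X (!b) x ∅ := by
    intro b d hd
    rw [mem_SW, mem_DS] at hd
    have h0 : d.1.2 ≠ 0 := by
      rcases hd.2 with h1 | h1
      · exact h1
      · simp at h1
    refine ⟨h0, ?_⟩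
    obtain ⟨p1, p2, p3, p4, p5, p6⟩ := passing_other (mv := mv) hX hmv d h0
    rw [mem_SW, mem_DS]
    exact ⟨⟨by rw [p2, hd.1.1], by rw [p3, hd.1.2]⟩, Or.inl p4⟩
  have hLr := hL.reverse
  have hmap : IsSorted (hb true h) (SW typ X true x ∅)
      (lL.reverse.map (unitMap G typ X mv).sg) := by
    apply hLr.map
    · intro a ha c hc hac
      -- noncrossing
      obtain ⟨ha0, ha'⟩ := hpass false a ha
      obtain ⟨hc0, hc'⟩ := hpass false c hc
      obtain ⟨p1, p2, p3, p4, p5, p6⟩ := passing_other (mv := mv) hX hmv a ha0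
      obtain ⟨q1, q2, q3, q4, q5, q6⟩ := passing_other (mv := mv) hX hmv c hc0
      have haDS := (mem_SW.1 ha).1
      have hcDS := (mem_SW.1 hc).1
      have haDS' := (mem_SW.1 ha').1
      have hcDS' := (mem_SW.1 hc').1
      by_contra hcon
      rw [not_lt] at hcon
      have hne : (unitMap G typ X mv).sg c ≠ (unitMap G typ X mv).sg a := by
        intro heq
        have := UM.sg_inj _ heq
        rw [this] at hac
        exact lt_irrefl _ hac
      have hlt : hb true h ((unitMap G typ X mv).sg c) < hb true h ((unitMap G typ X mv).sg a) := by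
        apply lt_of_le_of_ne hcon
        intro heq
        exact hne (hb_inj hF true x _ hcDS' _ haDS' heq)
      have k1 := (key_lt_iff_hb (b := true) (X := X) (mv := mv) (h := h) _ _
        (mem_DS.1 hcDS').1 (mem_DS.1 haDS').1).2 hlt
      have k3 : (unitMap G typ X mv).key h c < (unitMap G typ X mv).key h a := by
        apply (key_lt_iff_hb (b := false) (X := X) (mv := mv) (h := h) _ _
          (mem_DS.1 hcDS).1 (mem_DS.1 haDS).1).2
        simpa using hac
      have k2 : (unitMap G typ X mv).key h ((unitMap G typ X mv).sg a) <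
          (unitMap G typ X mv).key h c := by
        unfold UM.key UM.tt
        rw [Prod.Lex.toLex_lt_toLex]
        left
        have e1 : (unitMap G typ X mv).dir ((unitMap G typ X mv).sg a) = true :=
          (mem_DS.1 haDS').1
        have e2 : (unitMap G typ X mv).dir c = false := (mem_DS.1 hcDS).1
        rw [e1, e2]
        simp
      have hlev : (unitMap G typ X mv).lev ((unitMap G typ X mv).sg c) =
          (unitMap G typ X mv).lev ((unitMap G typ X mv).sg a) := by
        show lv typ X _ = lv typ X _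
        rw [(mem_DS.1 hcDS').2, (mem_DS.1 haDS').2]
      have hnc := hF.nc _ (Finset.mem_univ _) _ (Finset.mem_univ _) _ (Finset.mem_univ _) _
        (Finset.mem_univ _) hlev k1 k2 k3 ((vt_eq_iff _ _).2 q1) ((vt_eq_iff _ _).2 p1)
      rw [vt_eq_iff, q1, p1, nm_eq_iff] at hnc
      rcases hnc with ⟨h1, _⟩ | ⟨_, _, h1 | ⟨h1, h2⟩⟩
      · exact hc0 h1
      · rw [h1] at hac; exact lt_irrefl _ hac
      · have hty : typ a.1.1.2 = !typ a.1.1.1 := hX.typ_ne _ _ a.2.1
        have e1 : typ c.1.1.1 = false := (mem_DS.1 hcDS).1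
        have e2 : typ a.1.1.1 = false := (mem_DS.1 haDS).1
        rw [h1] at e1
        have e3 : typ a.1.1.2 = false := e1
        rw [hty, e2] at e3
        simp at e3
    · intro d'
      constructor
      · intro hd'
        obtain ⟨h0, h1⟩ := hpass true d' hd'
        obtain ⟨p1, p2, p3, p4, p5, p6⟩ := passing_other (mv := mv) hX hmv d' h0
        exact ⟨_, h1, p5⟩
      · rintro ⟨d, hd, rfl⟩
        exact (hpass false d hd).2
  rw [hR.unique hmap, List.map_map]
  apply List.map_congr_left
  intro d hd
  rw [List.mem_reverse, hL.mem] at hd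
  obtain ⟨h0, h1⟩ := hpass false d hd
  obtain ⟨p1, p2, p3, p4, p5, p6⟩ := passing_other (mv := mv) hX hmv d h0
  exact p6

theorem step_eq (hX : IsLevel G typ X) (hmv : ∀ v, mv v ∈ G.nbr v)
    (hF : (unitMap G typ X mv).Folded h) (x : ℤ) (lL lR : List (UD G))
    (hR : IsSorted (hb true h) (DS typ X true x) lR)
    (hL : IsSorted (hb false h) (DS typ X false (x + 1)) lL) :
    lL.reverse.map (ed typ) = lR.map (ed typ) := by
  have hP := unitMap_pre hX hmv
  have hLr := hL.reverse
  have hmap : IsSorted (fun d => - hb false h d) (DS typ X false (x + 1))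
      (lR.map (uα G)) := by
    apply hR.map
    · intro a _ c _ hac
      have e1 := hF.edge a (Finset.mem_univ _)
      have e2 := hF.edge c (Finset.mem_univ _)
      have e1' : h (uα G a) = h a := e1
      have e2' : h (uα G c) = h c := e2
      unfold hb at hac ⊢
      simp only [Bool.false_eq_true, if_false, neg_neg, if_true] at hac ⊢
      rw [e1', e2']; exact hac
    · intro d'
      have hkey : ∀ (d : UD G) (b : Bool) (y : ℤ), d ∈ DS typ X b y →
          uα G d ∈ DS typ X (!b) (y + if b then 1 else -1) := by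
        intro d b y hd
        rw [mem_DS] at hd ⊢
        have h1 : typ (uα G d).1.1.1 = !typ d.1.1.1 := hP.dir_α d (Finset.mem_univ _)
        have h2 : lv typ X (uα G d) = lv typ X d + (if typ d.1.1.1 then 1 else -1) :=
          hP.lev_α d (Finset.mem_univ _)
        rw [h1, h2, hd.1, hd.2]
        exact ⟨rfl, rfl⟩
      constructor
      · intro hd'
        refine ⟨uα G d', ?_, hP.α_α d' (Finset.mem_univ _)⟩
        have := hkey d' false (x + 1) hd'
        simpa using this
      · rintro ⟨d, hd, rfl⟩
        have := hkey d true x hd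
        simpa using this
  rw [hLr.unique hmap, List.map_map]
  apply List.map_congr_left
  intro d hd
  show ed typ (uα G d) = ed typ d
  unfold ed
  have hty : typ d.1.1.2 = !typ d.1.1.1 := hX.typ_ne _ _ d.2.1
  show (if typ d.1.1.2 then d.1.1.swap else d.1.1.swap.swap) = _
  rw [hty]
  cases typ d.1.1.1 <;> simp

theorem run_from (hX : IsLevel G typ X) (hmv : ∀ v, mv v ∈ G.nbr v)
    (hF : (unitMap G typ X mv).Folded h) (xmax : ℤ) (hmax : ∀ v, X v ≤ xmax) :
    ∀ (n : ℕ), ∃ vs : List (Fin G.n), vs.Nodup ∧ (∀ v, v ∈ vs ↔ xmax + 1 - n ≤ X v) ∧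
      vs.Pairwise (fun u v => X u ≤ X v) ∧
      ∀ L, IsSorted (hb false h) (DS typ X false (xmax + 1 - n)) L →
        Run typ (ordv mv) vs (L.reverse.map (ed typ)) [] := by
  intro n
  induction n with
  | zero =>
    refine ⟨[], List.nodup_nil, ?_, List.Pairwise.nil, ?_⟩
    · intro v
      have := hmax v
      simp only [List.not_mem_nil, false_iff, not_le]
      push_cast
      omega
    · intro L hL
      have hemp : DS typ X false (xmax + 1 - (0 : ℕ)) = ∅ := by
        rw [Finset.eq_empty_iff_forall_notMem]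
        intro d hd
        rw [mem_DS] at hd
        have h1 := hmax d.1.1.1
        have h2 := hd.2
        unfold lv at h2
        rw [hd.1] at h2
        simp at h2
        omega
      have : L = [] := by
        rw [List.eq_nil_iff_forall_not_mem]
        intro d hd
        rw [hL.mem, hemp] at hd
        simp at hd
      rw [this]
      exact Run.nil _
  | succ n ih =>
    obtain ⟨vs', hnd', hmem', hpw', hrun'⟩ := ih
    set x : ℤ := xmax + 1 - (n + 1 : ℕ) with hx
    have hx1 : xmax + 1 - (n : ℤ) = x + 1 := by rw [hx]; push_cast; ring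
    rw [hx1] at hmem' hrun'
    -- all the sorted lists
    have hinj : ∀ (b : Bool) (W : Finset (Fin G.n)), ∃ l, IsSorted (hb b h) (SW typ X b x W) l := by
      intro b W
      apply exists_sorted
      intro a ha c hc
      exact hb_inj hF b x a (mem_SW.1 ha).1 c (mem_SW.1 hc).1
    obtain ⟨l0L, h0L⟩ := hinj false ∅
    obtain ⟨l0R, h0R⟩ := hinj true ∅
    obtain ⟨RL, hRL⟩ := hinj true (WV typ X true x)
    obtain ⟨LL, hLL⟩ := hinj false (WV typ X false x)
    obtain ⟨L', hL'⟩ := exists_sorted (hb false h) (DS typ X false (x + 1))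
      (hb_inj hF false (x + 1))
    obtain ⟨vsL, hL1, hL2, hL3⟩ := peel_exists hX hmv hF true x _ (WV typ X true x) rfl
      (by intro v hv; exact (Finset.mem_filter.1 hv).2) l0R RL h0R hRL
    obtain ⟨vsR, hR1, hR2, hR3⟩ := peel_exists hX hmv hF false x _ (WV typ X false x) rfl
      (by intro v hv; exact (Finset.mem_filter.1 hv).2) l0L LL h0L hLL
    have hL2' : ∀ v, v ∈ vsL ↔ typ v = true ∧ X v = x := by
      intro v; rw [hL2]; simp [WV]
    have hR2' : ∀ v, v ∈ vsR ↔ typ v = false ∧ X v = x := by
      intro v; rw [hR2]; simp [WV]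
    refine ⟨vsR ++ (vsL.reverse ++ vs'), ?_, ?_, ?_, ?_⟩
    · rw [List.nodup_append, List.nodup_append]
      refine ⟨hR1, ⟨List.nodup_reverse.2 hL1, hnd', ?_⟩, ?_⟩
      · rintro a ha b hb rfl
        rw [List.mem_reverse, hL2'] at ha
        rw [hmem'] at hb
        omega
      · rintro a ha b hb rfl
        rw [hR2'] at ha
        rw [List.mem_append, List.mem_reverse, hL2', hmem'] at hb
        rcases hb with hb | hb
        · rw [ha.1] at hb; exact absurd hb.1 (by simp)
        · omega
    · intro v
      rw [List.mem_append, List.mem_append, List.mem_reverse, hL2', hR2', hmem']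
      constructor
      · rintro (h1 | h1 | h1)
        · omega
        · omega
        · omega
      · intro h1
        by_cases h2 : X v = x
        · cases htv : typ v
          · exact Or.inl ⟨rfl, h2⟩
          · exact Or.inr (Or.inl ⟨rfl, h2⟩)
        · right; right; omega
    · rw [List.pairwise_append, List.pairwise_append]
      refine ⟨?_, ⟨?_, hpw', ?_⟩, ?_⟩
      · apply List.Pairwise.imp_of_mem _ hR1
        intro a b ha hb _
        rw [hR2'] at ha hb
        omega
      · apply List.Pairwise.imp_of_mem _ (List.nodup_reverse.2 hL1)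
        intro a b ha hb _
        rw [List.mem_reverse, hL2'] at ha hb
        omega
      · intro a ha b hb
        rw [List.mem_reverse, hL2'] at ha
        rw [hmem'] at hb
        omega
      · intro a ha b hb
        rw [hR2'] at ha
        rw [List.mem_append, List.mem_reverse, hL2', hmem'] at hb
        omega
    · intro L hL
      rw [← SW_WV] at hL
      rw [hL.unique hLL]
      apply hR3.close (fun v hv => ((hR2' v).1 hv).1)
      rw [← passing_eq hX hmv hF x l0L l0R h0L h0R]
      apply hL3.open (fun v hv => ((hL2' v).1 hv).1)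
      rw [SW_WV] at hRL
      rw [← step_eq hX hmv hF x L' RL hRL hL']
      exact hrun' L' hL'

/-- the list of the vertices and the run -/
theorem exists_run (hX : IsLevel G typ X) (hmv : ∀ v, mv v ∈ G.nbr v)
    (hF : (unitMap G typ X mv).Folded h) :
    ∃ vs : List (Fin G.n), vs.Nodup ∧ (∀ v, v ∈ vs) ∧
      vs.Pairwise (fun u v => X u ≤ X v) ∧ Run typ (ordv mv) vs [] [] := by
  have hP := unitMap_pre hX hmv
  have hne : (Finset.univ : Finset (Fin G.n)).Nonempty := ⟨G.outer.1, Finset.mem_univ _⟩
  obtain ⟨vmax, _, hmax⟩ := Finset.exists_max_image Finset.univ X hne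
  obtain ⟨vmin, _, hmin⟩ := Finset.exists_min_image Finset.univ X hne
  obtain ⟨n, hn⟩ : ∃ n : ℕ, X vmax + 1 - n = X vmin := by
    refine ⟨(X vmax + 1 - X vmin).toNat, ?_⟩
    have := hmin vmax (Finset.mem_univ _)
    rw [Int.toNat_of_nonneg (by omega)]
    ring
  obtain ⟨vs, h1, h2, h3, h4⟩ := run_from hX hmv hF (X vmax) (fun v => hmax v (Finset.mem_univ _)) n
  rw [hn] at h2 h4
  refine ⟨vs, h1, fun v => (h2 v).2 (hmin v (Finset.mem_univ _)), h3, ?_⟩
  have hemp : DS typ X false (X vmin) = ∅ := by
    rw [Finset.eq_empty_iff_forall_notMem]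
    intro d hd
    rw [mem_DS] at hd
    have g1 : typ (uα G d).1.1.1 = !typ d.1.1.1 := hP.dir_α d (Finset.mem_univ _)
    have g2 : lv typ X (uα G d) = lv typ X d + (if typ d.1.1.1 then 1 else -1) :=
      hP.lev_α d (Finset.mem_univ _)
    rw [hd.1] at g1 g2
    rw [hd.2] at g2
    unfold lv at g2
    rw [g1] at g2
    have := hmin (uα G d).1.1.1 (Finset.mem_univ _)
    simp at g2
    omega
  have := h4 [] ⟨List.Pairwise.nil, by intro d; rw [hemp]; simp⟩
  simpa using this

/-- Module B -/
theorem sweep_of_mvGoodW (G : PlaneGraph) (typ : Fin G.n → Bool) (X : Fin G.n → ℤ)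
    (hX : IsLevel G typ X) (mv : Fin G.n → Fin G.n) (h : MVGoodW G mv)
    (hsumAlg : ∀ (target : ℤ) (k : ℕ) (c : List (ℤ × ℕ)), algGood target k c →
      (c.map Prod.fst).sum = target) : Nonempty (Sweep G) := by
  have hmv := h.1
  obtain ⟨hh, hF⟩ := exists_folded hX mv h hsumAlg
  obtain ⟨vs, h1, h2, h3, h4⟩ := exists_run hX hmv hF
  refine ⟨⟨typ, X, ordv mv, vs, hX, ordv_isRotated mv, h1, h2, h3, h4, ?_⟩⟩
  intro v w hv hw
  rw [ordv_getLast? mv v (hmv v), Option.some.injEq] at hw
  subst hw
  by_contra hcon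
  have hs1 := sum_faceCyc_of_mvGoodW mv h hsumAlg (v, mv v) (hmv v) hcon
  let G' : PlaneGraph := { G with outer := (v, mv v), outer_mem := hmv v }
  have hX' : IsLevel G' typ X := ⟨hX.typ_ne, hX.level⟩
  let S' : Sweep G' := ⟨typ, X, ordv mv, vs, hX', ordv_isRotated mv, h1, h2, h3, h4, by
    intro v' w' hv' hw'
    have hw'' : (ordv mv v').getLast? = some w' := hw'
    have e1 : v = v' := by
      rw [hv] at hv'
      exact Option.some.inj hv'
    subst e1
    rw [ordv_getLast? mv v (hmv v), Option.some.injEq] at hw''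
    subst hw''
    exact Equiv.Perm.SameCycle.refl _ _⟩
  have hs2 := sum_of_sweep G' S' mv (fun u => ordv_getLast? mv u (hmv u)) (v, mv v) (hmv v)
  rw [if_pos (Equiv.Perm.SameCycle.refl _ _)] at hs2
  have hs3 : ((faceCyc G mv (v, mv v)).map Prod.fst).sum = 2 := hs2
  rw [hs3] at hs1
  norm_num at hs1

end Pool.Agent.FlatFold
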