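import Mathlib
import Pool.Agent.Lib.MP_b92007_lc.HeightsDefs

/-! Separation of the edges of a run with heights. -/

namespace Pool.Agent.FlatFold

section

variable {V : Type}

/-- `e` starts below `e'` (or at the same vertex) -/
def Past (x y : V → ℝ) (e e' : V × V) : Prop :=
  e.1 = e'.1 ∨ segHt x y e (max (x e.1) (x e'.1)) < segHt x y e' (max (x e.1) (x e'.1))

/-- `e` ends below `e'` (or at the same vertex) -/
def Fut (x y : V → ℝ) (e e' : V × V) : Prop :=
  e.2 = e'.2 ∨ segHt x y e (min (x e.2) (x e'.2)) < segHt x y e' (min (x e.2) (x e'.2))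

/-- `e` is below `e'` -/
def SepE (x y : V → ℝ) (e e' : V × V) : Prop := Past x y e e' ∧ Fut x y e e'

theorem segHt_left (x y : V → ℝ) (e : V × V) : segHt x y e (x e.1) = y e.1 := by
  unfold segHt
  simp

theorem segHt_right (x y : V → ℝ) (e : V × V) (h : x e.1 < x e.2) :
    segHt x y e (x e.2) = y e.2 := by
  have h1 : x e.2 - x e.1 ≠ 0 := sub_ne_zero.2 h.ne'
  unfold segHt
  rw [div_self h1]
  ring

theorem segHt_comb (x y : V → ℝ) (e : V × V) (s t l : ℝ) :
    segHt x y e ((1 - l) * s + l * t) = (1 - l) * segHt x y e s + l * segHt x y e t := by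
  unfold segHt
  ring

theorem runH_facts {typ : V → Bool} {ord : V → List V} {x y : V → ℝ} {vs : List V}
    {B B' : List (V × V)} (h : RunH typ ord x y vs B B') (hB' : B' = [])
    (hs : vs.Pairwise (fun u v => x u < x v)) (hB : ∀ e ∈ B, ∀ v ∈ vs, x e.1 < x v)
    (hpast : B.Pairwise (Past x y)) :
    (∀ e ∈ B, e.2 ∈ vs) ∧ B.Pairwise (Fut x y) ∧
    (∀ e e' : V × V, (e ∈ B ∨ e.1 ∈ vs ∧ typ e.1 = true ∧ e.2 ∈ ord e.1) →
      (e' ∈ B ∨ e'.1 ∈ vs ∧ typ e'.1 = true ∧ e'.2 ∈ ord e'.1) → e ≠ e' →
      max (x e.1) (x e'.1) < min (x e.2) (x e'.2) → SepE x y e e' ∨ SepE x y e' e) ∧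
    (∀ v ∈ vs, typ v = true → ((ord v).map (fun w => (v, w))).Pairwise (Fut x y)) ∧
    (∀ v ∈ vs, typ v = false → (((ord v).map (fun w => (w, v))).reverse).Pairwise (Past x y)) := by
  induction h with
  | nil B =>
    subst hB'
    refine ⟨by simp, List.Pairwise.nil, ?_, by simp, by simp⟩
    intro e e' he
    simp at he
  | opn v vs A C B' hv hA hC h ih =>
    rw [List.pairwise_cons] at hs
    have hp1 := List.pairwise_append.1 hpast
    obtain ⟨i1, i2, i3, i4, i5⟩ := ih hB' hs.2 (by
      intro e he u hu
      rw [List.mem_append, List.mem_append, List.mem_map] at he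
      rcases he with (he | ⟨w, hw, rfl⟩) | he
      · exact hB e (by simp [he]) u (by simp [hu])
      · exact hs.1 u hu
      · exact hB e (by simp [he]) u (by simp [hu])) (by
      rw [List.pairwise_append, List.pairwise_append]
      refine ⟨⟨hp1.1, ?_, ?_⟩, hp1.2.1, ?_⟩
      · rw [List.pairwise_map]
        exact List.pairwise_of_forall (fun a b => Or.inl rfl)
      · intro a ha b hb
        obtain ⟨w, hw, rfl⟩ := List.mem_map.1 hb
        right
        have h1 := hB a (by simp [ha]) v (by simp)
        rw [max_eq_right h1.le]
        have h2 := segHt_left x y (v, w)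
        simp only at h2 ⊢
        rw [h2]
        exact hA a ha
      · intro a ha b hb
        rcases List.mem_append.1 ha with ha | ha
        · exact hp1.2.2 a ha b hb
        · obtain ⟨w, hw, rfl⟩ := List.mem_map.1 ha
          right
          have h1 := hB b (by simp [hb]) v (by simp)
          rw [max_eq_left h1.le]
          have h2 := segHt_left x y (v, w)
          simp only at h2 ⊢
          rw [h2]
          exact hC b hb)
    have i2' := List.pairwise_append.1 i2
    have i2'' := List.pairwise_append.1 i2'.1
    refine ⟨?_, ?_, ?_, ?_, ?_⟩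
    · intro e he
      refine List.mem_cons_of_mem _ (i1 e ?_)
      simp only [List.mem_append] at he ⊢
      tauto
    · rw [List.pairwise_append]
      exact ⟨i2''.1, i2'.2.1, fun a ha b hb => i2'.2.2 a (by simp [ha]) b hb⟩
    · have key : ∀ e : V × V, (e ∈ A ++ C ∨ e.1 ∈ v :: vs ∧ typ e.1 = true ∧ e.2 ∈ ord e.1) →
          (e ∈ A ++ List.map (fun w => (v, w)) (ord v) ++ C ∨
            e.1 ∈ vs ∧ typ e.1 = true ∧ e.2 ∈ ord e.1) := by
        rintro e (he | ⟨h1, h2, h3⟩)
        · left
          simp only [List.mem_append] at he ⊢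
          tauto
        · rcases List.mem_cons.1 h1 with h1 | h1
          · left
            rw [List.mem_append, List.mem_append, List.mem_map]
            left; right
            exact ⟨e.2, h1 ▸ h3, by rw [← h1]⟩
          · exact Or.inr ⟨h1, h2, h3⟩
      intro e e' he he' hne hov
      exact i3 e e' (key e he) (key e' he') hne hov
    · intro u hu htu
      rcases List.mem_cons.1 hu with rfl | hu
      · exact i2''.2.1
      · exact i4 u hu htu
    · intro u hu htu
      rcases List.mem_cons.1 hu with rfl | hu
      · rw [hv] at htu; exact Bool.noConfusion htu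
      · exact i5 u hu htu
  | cls v vs A C B' hv hA hC h ih =>
    rw [List.pairwise_cons] at hs
    have hp1 := List.pairwise_append.1 hpast
    have hp2 := List.pairwise_append.1 hp1.1
    obtain ⟨i1, i2, i3, i4, i5⟩ := ih hB' hs.2 (by
      intro e he u hu
      rw [List.mem_append] at he
      rcases he with he | he
      · exact hB e (by simp [he]) u (by simp [hu])
      · exact hB e (by simp [he]) u (by simp [hu])) (by
      rw [List.pairwise_append]
      exact ⟨hp2.1, hp1.2.1, fun a ha b hb => hp1.2.2 a (by simp [ha]) b hb⟩)
    have i2' := List.pairwise_append.1 i2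
    have hM : ∀ e ∈ ((ord v).map (fun w => (w, v))).reverse, e.2 = v := by
      intro e he
      rw [List.mem_reverse, List.mem_map] at he
      obtain ⟨w, _, rfl⟩ := he
      rfl
    have hfut : (A ++ ((ord v).map (fun w => (w, v))).reverse ++ C).Pairwise (Fut x y) := by
      rw [List.pairwise_append, List.pairwise_append]
      refine ⟨⟨i2'.1, ?_, ?_⟩, i2'.2.1, ?_⟩
      · refine List.Pairwise.imp_of_mem ?_ (List.pairwise_of_forall (R := fun _ _ => True)
          (fun _ _ => trivial))
        intro a b ha hb _
        left
        rw [hM a ha, hM b hb]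
      · intro a ha b hb
        right
        have h1 := i1 a (by simp [ha])
        have h2 := hs.1 _ h1
        have h3 := hM b hb
        have h4 := hB b (by simp only [List.mem_append]; tauto) v (by simp)
        have h5 := segHt_right x y b (by rw [h3]; exact h4)
        rw [h3] at h5 ⊢
        rw [min_eq_right h2.le, h5]
        exact hA a ha
      · intro a ha b hb
        rcases List.mem_append.1 ha with ha | ha
        · exact i2'.2.2 a ha b hb
        · right
          have h1 := i1 b (by simp [hb])
          have h2 := hs.1 _ h1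
          have h3 := hM a ha
          have h4 := hB a (by simp only [List.mem_append]; tauto) v (by simp)
          have h5 := segHt_right x y a (by rw [h3]; exact h4)
          rw [h3] at h5 ⊢
          rw [min_eq_left h2.le, h5]
          exact hC b hb
    have hboth : (A ++ ((ord v).map (fun w => (w, v))).reverse ++ C).Pairwise
        (fun e e' => SepE x y e e' ∨ SepE x y e' e) :=
      (hpast.and hfut).imp (fun h => Or.inl h)
    have : Std.Symm (fun e e' : V × V => SepE x y e e' ∨ SepE x y e' e) :=
      ⟨fun _ _ h => h.symm⟩
    refine ⟨?_, hfut, ?_, ?_, ?_⟩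
    · intro e he
      rcases List.mem_append.1 he with he | he
      · rcases List.mem_append.1 he with he | he
        · exact List.mem_cons_of_mem _ (i1 e (by simp [he]))
        · rw [hM e he]; simp
      · exact List.mem_cons_of_mem _ (i1 e (by simp [he]))
    · have key : ∀ e : V × V, (e ∈ A ++ ((ord v).map (fun w => (w, v))).reverse ++ C ∨
          e.1 ∈ v :: vs ∧ typ e.1 = true ∧ e.2 ∈ ord e.1) →
          (e ∈ A ++ C ∨ e.1 ∈ vs ∧ typ e.1 = true ∧ e.2 ∈ ord e.1) ∨
          (e ∈ A ++ ((ord v).map (fun w => (w, v))).reverse ++ C ∧ e.2 = v) := by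
        rintro e (he | ⟨h1, h2, h3⟩)
        · rcases List.mem_append.1 he with he' | he'
          · rcases List.mem_append.1 he' with he'' | he''
            · left; left; simp [he'']
            · right; exact ⟨he, hM e he''⟩
          · left; left; simp [he']
        · rcases List.mem_cons.1 h1 with h1 | h1
          · rw [h1, hv] at h2; exact Bool.noConfusion h2
          · left; right; exact ⟨h1, h2, h3⟩
      have key2 : ∀ e : V × V, (e ∈ A ++ ((ord v).map (fun w => (w, v))).reverse ++ C ∨
          e.1 ∈ v :: vs ∧ typ e.1 = true ∧ e.2 ∈ ord e.1) → x e.1 < x v →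
          e ∈ A ++ ((ord v).map (fun w => (w, v))).reverse ++ C := by
        rintro e (he | ⟨h1, h2, h3⟩) hlt
        · exact he
        · rcases List.mem_cons.1 h1 with h1 | h1
          · rw [h1] at hlt; exact absurd hlt (lt_irrefl _)
          · have := hs.1 _ h1
            linarith
      intro e e' he he' hne hov
      rcases key e he with k | k
      · rcases key e' he' with k' | k'
        · exact i3 e e' k k' hne hov
        · have h1 : x e.1 < x v := by
            have h2 := lt_of_le_of_lt (le_max_left _ _) (lt_of_lt_of_le hov (min_le_right _ _))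
            rwa [k'.2] at h2
          exact hboth.forall (key2 e he h1) k'.1 hne
      · have h1 : x e'.1 < x v := by
          have h2 := lt_of_le_of_lt (le_max_right _ _) (lt_of_lt_of_le hov (min_le_left _ _))
          rwa [k.2] at h2
        exact hboth.forall k.1 (key2 e' he' h1) hne
    · intro u hu htu
      rcases List.mem_cons.1 hu with rfl | hu
      · rw [hv] at htu; exact Bool.noConfusion htu
      · exact i4 u hu htu
    · intro u hu htu
      rcases List.mem_cons.1 hu with rfl | hu
      · exact hp2.2.1
      · exact i5 u hu htu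

end

end Pool.Agent.FlatFold
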