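import Mathlib
import Pool.Agent.Lib.MP_b92007_lc.Sweep
import Pool.Agent.Lib.MP_b92007_lc.Heights
import Pool.Agent.Lib.MP_b92007_lc.RunFacts
import Pool.Agent.Lib.MP_b92007_lc.DrawAux

/-! From a combinatorial sweep to approximations of a flat folded state (drawing part). -/

namespace Pool.Agent.FlatFold

open Real PlaneGraph

/-- polar form of a complex number with a nonzero real part -/
theorem polar_aux (a b : ℝ) (ha : a ≠ 0) (m : ℕ) :
    (⟨a, b⟩ : ℂ) = (‖(⟨a, b⟩ : ℂ)‖ : ℂ) * Complex.exp
      (((Real.arctan (b / a) + (if 0 < a then 0 else π) + 2 * π * m : ℝ) : ℂ) * Complex.I) := by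
  have hn : ‖(⟨a, b⟩ : ℂ)‖ = |a| * √(1 + (b / a) ^ 2) := by
    rw [Complex.norm_eq_sqrt_sq_add_sq]
    simp only
    have h1 : a ^ 2 + b ^ 2 = a ^ 2 * (1 + (b / a) ^ 2) := by field_simp
    rw [h1, Real.sqrt_mul (sq_nonneg a), Real.sqrt_sq_eq_abs]
  have hpos : 0 < √(1 + (b / a) ^ 2) := Real.sqrt_pos.2 (by positivity)
  have hc : Real.cos (Real.arctan (b / a) + (if 0 < a then 0 else π) + 2 * π * m) =
      (if 0 < a then 1 else -1) * (1 / √(1 + (b / a) ^ 2)) := by
    have h2 : Real.arctan (b / a) + (if 0 < a then 0 else π) + 2 * π * m =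
      Real.arctan (b / a) + (if 0 < a then 0 else π) + m * (2 * π) := by ring
    rw [h2, Real.cos_add_nat_mul_two_pi]
    split_ifs
    · rw [add_zero, Real.cos_arctan, one_mul]
    · rw [Real.cos_add_pi, Real.cos_arctan]; ring
  have hs : Real.sin (Real.arctan (b / a) + (if 0 < a then 0 else π) + 2 * π * m) =
      (if 0 < a then 1 else -1) * ((b / a) / √(1 + (b / a) ^ 2)) := by
    have h2 : Real.arctan (b / a) + (if 0 < a then 0 else π) + 2 * π * m =
      Real.arctan (b / a) + (if 0 < a then 0 else π) + m * (2 * π) := by ring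
    rw [h2, Real.sin_add_nat_mul_two_pi]
    split_ifs
    · rw [add_zero, Real.sin_arctan, one_mul]
    · rw [Real.sin_add_pi, Real.sin_arctan]; ring
  have hsgn : |a| * (if 0 < a then 1 else -1) = a := by
    split_ifs with h
    · rw [abs_of_pos h, mul_one]
    · rw [abs_of_nonpos (not_lt.1 h)]; ring
  apply Complex.ext
  · rw [Complex.re_ofReal_mul, Complex.exp_ofReal_mul_I_re, hc, hn]
    simp only
    calc a = |a| * (if 0 < a then 1 else -1) := hsgn.symm
      _ = _ := by field_simp
  · rw [Complex.im_ofReal_mul, Complex.exp_ofReal_mul_I_im, hs, hn]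
    simp only
    calc b = (|a| * (if 0 < a then 1 else -1)) * (b / a) := by rw [hsgn]; field_simp
      _ = _ := by field_simp

theorem abs_arctan_le (t : ℝ) : |Real.arctan t| ≤ |t| := by
  have key : ∀ s : ℝ, 0 ≤ s → Real.arctan s ≤ s := by
    intro s hs
    have h1 := Real.le_tan (Real.arctan_nonneg.2 hs) (Real.arctan_lt_pi_div_two s)
    rwa [Real.tan_arctan] at h1
  rcases le_total 0 t with h | h
  · rw [abs_of_nonneg h, abs_of_nonneg (Real.arctan_nonneg.2 h)]
    exact key t h
  · rw [abs_of_nonpos h, ← abs_neg, ← Real.arctan_neg,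
      abs_of_nonneg (Real.arctan_nonneg.2 (by linarith))]
    exact key _ (by linarith)

theorem div_mod_step (d m : ℕ) (hd : 0 < d) :
    (m % d + 1 < d ∧ (m + 1) % d = m % d + 1 ∧ (m + 1) / d = m / d) ∨
    (m % d + 1 = d ∧ (m + 1) % d = 0 ∧ (m + 1) / d = m / d + 1) := by
  have h1 := Nat.div_add_mod m d
  have h2 := Nat.mod_lt m hd
  generalize m / d = q at *
  generalize hr : m % d = r at *
  subst h1
  rcases Nat.lt_or_ge (r + 1) d with h | h
  · left
    refine ⟨h, ?_, ?_⟩
    · rw [add_assoc, Nat.mul_add_mod, Nat.mod_eq_of_lt h]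
    · rw [add_assoc, Nat.mul_add_div hd, Nat.div_eq_of_lt h, add_zero]
  · right
    have h3 : r + 1 = d := by omega
    refine ⟨h3, ?_, ?_⟩
    · rw [add_assoc, Nat.mul_add_mod, h3, Nat.mod_self]
    · rw [add_assoc, Nat.mul_add_div hd, h3, Nat.div_self hd]

section

variable {V : Type} {x y : V → ℝ}

theorem sepE_core {e e' : V × V} (he : x e.1 < x e.2) (he' : x e'.1 < x e'.2) (hne : e ≠ e')
    (hsep : SepE x y e e') {t : ℝ} (h1 : x e.1 ≤ t) (h2 : x e'.1 ≤ t) (h3 : t ≤ x e.2)
    (h4 : t ≤ x e'.2) (hov : max (x e.1) (x e'.1) < min (x e.2) (x e'.2))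
    (ht : segHt x y e t = segHt x y e' t) :
    (e.1 = e'.1 ∧ t = x e.1) ∨ (e.2 = e'.2 ∧ t = x e.2) := by
  set a := max (x e.1) (x e'.1) with ha
  set b := min (x e.2) (x e'.2) with hb
  have hat : a ≤ t := max_le h1 h2
  have htb : t ≤ b := le_min h3 h4
  have hba : 0 < b - a := sub_pos.2 hov
  set l := (t - a) / (b - a) with hl
  have hl0 : 0 ≤ l := div_nonneg (by linarith) hba.le
  have hl1 : l ≤ 1 := (div_le_one hba).2 (by linarith)
  have hlt : (1 - l) * a + l * b = t := by rw [hl]; field_simp; ring
  have k1 := segHt_comb x y e a b l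
  have k2 := segHt_comb x y e' a b l
  rw [hlt] at k1 k2
  rw [k1, k2] at ht
  obtain ⟨hp, hf⟩ := hsep
  unfold Past at hp
  unfold Fut at hf
  rw [← ha] at hp
  rw [← hb] at hf
  by_cases c1 : e.1 = e'.1
  · left
    have c2 : e.2 ≠ e'.2 := fun h => hne (Prod.ext c1 h)
    have hf' := hf.resolve_left c2
    have ea : a = x e.1 := by rw [ha, ← c1, max_self]
    have s1 : segHt x y e a = y e.1 := by rw [ea]; exact segHt_left x y e
    have s2 : segHt x y e' a = y e.1 := by rw [ea, c1]; exact segHt_left x y e'
    refine ⟨c1, ?_⟩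
    rw [s1, s2] at ht
    have hl00 : l = 0 := by
      by_contra hne0
      have : 0 < l := lt_of_le_of_ne hl0 (Ne.symm hne0)
      have := mul_lt_mul_of_pos_left hf' this
      linarith
    rw [hl00] at hlt
    rw [← hlt, ea]; ring
  · have hp' := hp.resolve_left c1
    by_cases c2 : e.2 = e'.2
    · right
      have eb : b = x e.2 := by rw [hb, ← c2, min_self]
      have s1 : segHt x y e b = y e.2 := by rw [eb]; exact segHt_right x y e he
      have s2 : segHt x y e' b = y e.2 := by rw [eb, c2]; exact segHt_right x y e' he'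
      refine ⟨c2, ?_⟩
      rw [s1, s2] at ht
      have hl11 : l = 1 := by
        by_contra hne1
        have : 0 < 1 - l := by
          have := lt_of_le_of_ne hl1 hne1
          linarith
        have := mul_lt_mul_of_pos_left hp' this
        linarith
      rw [hl11] at hlt
      rw [← hlt, eb]; ring
    · exfalso
      have hf' := hf.resolve_left c2
      rcases lt_or_eq_of_le hl0 with h | h
      · have q1 := mul_lt_mul_of_pos_left hf' h
        have q2 := mul_le_mul_of_nonneg_left hp'.le (sub_nonneg.2 hl1)
        linarith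
      · rw [← h] at ht
        linarith

end

section

variable (G : PlaneGraph) (S : Sweep G) (ε : ℝ) (x y : Fin G.n → ℝ)

theorem level_lt (hxX : ∀ v, |x v - S.X v| < ε / 4)
    (hx4 : ∀ v, |x v - S.X v| < 1 / 4) (u v : Fin G.n) (h : v ∈ G.nbr u)
    (ht : S.typ u = true) : 1 / 2 < x v - x u ∧ |x v - x u - G.len u v| < ε / 2 := by
  have h1 := S.isLevel.level u v h ht
  have h2 : (S.X v : ℝ) = S.X u + G.len u v := by rw [h1]; push_cast; ring
  have h3 : (1 : ℝ) ≤ G.len u v := by exact_mod_cast G.len_pos u v h
  have h4 := abs_lt.1 (hx4 u)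
  have h5 := abs_lt.1 (hx4 v)
  have h6 := abs_lt.1 (hxX u)
  have h7 := abs_lt.1 (hxX v)
  refine ⟨by linarith, ?_⟩
  rw [abs_lt]
  constructor <;> linarith

/-- M2b (drawing part): heights for slightly perturbed abscissas give the approximations.
`x` is strictly increasing along `vs` and `|x v - X v| < ε`-close (choose e.g.
`x v = X v + η * (index of v in vs)`), `y` comes from `exists_heights`;
the drawing is `p v = x v + I * δ * y v` with `δ` tiny. -/
theorem foldApprox_of_runH (hε : 0 < ε)
    (hx : S.vs.Pairwise (fun u v => x u < x v)) (hxX : ∀ v, |x v - S.X v| < ε / 4)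
    (hx4 : ∀ v, |x v - S.X v| < 1 / 4)
    (h : RunH S.typ S.ord x y S.vs [] []) : ∃ p θ, G.IsFoldApprox ε p θ := by
  obtain ⟨-, -, hsep, hfut, hpast⟩ := runH_facts h rfl hx (by simp) List.Pairwise.nil
  -- injectivity of `x`
  have hxinj : Function.Injective x := by
    intro u v huv
    by_contra hne
    have hsym : Std.Symm (fun u v => x u < x v ∨ x v < x u) := ⟨fun _ _ h => h.symm⟩
    have := (hx.imp (fun {a b} (h : x a < x b) => (Or.inl h : x a < x b ∨ x b < x a))).forall
      (S.complete u) (S.complete v) hne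
    rcases this with h | h <;> linarith
  have hmem : ∀ v w, w ∈ S.ord v ↔ w ∈ G.nbr v := fun v w => (S.ord_rot v).mem_iff
  have hlv := level_lt G S ε x hxX hx4
  have hright : ∀ u v, v ∈ G.nbr u → S.typ u = true → 1 / 2 < x v - x u :=
    fun u v h1 h2 => (hlv u v h1 h2).1
  have hleft : ∀ u v, v ∈ G.nbr u → S.typ u = false → 1 / 2 < x u - x v := by
    intro u v h1 h2
    refine (hlv v u (G.symm _ _ h1) ?_).1
    rw [S.isLevel.typ_ne u v h1, h2]; rfl
  have hne : ∀ u v, v ∈ G.nbr u → x v - x u ≠ 0 := by
    intro u v huv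
    rcases hb : S.typ u with _ | _
    · have := hleft u v huv hb
      intro h0; linarith
    · have := hright u v huv hb
      intro h0; linarith
  have hsgn : ∀ u v, v ∈ G.nbr u → (0 < x v - x u ↔ S.typ u = true) := by
    intro u v huv
    rcases hb : S.typ u with _ | _
    · have := hleft u v huv hb
      constructor
      · intro h0; linarith
      · intro h0; exact Bool.noConfusion h0
    · have := hright u v huv hb
      constructor
      · intro _; rfl
      · intro _; linarith
  have habs : ∀ u v, v ∈ G.nbr u → 1 / 2 < |x v - x u| := by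
    intro u v huv
    rcases hb : S.typ u with _ | _
    · have := hleft u v huv hb
      rw [abs_of_neg (by linarith)]; linarith
    · have := hright u v huv hb
      rw [abs_of_pos (by linarith)]; linarith
  -- choice of `δ`
  set Y : ℝ := ∑ v, |y v| with hY
  have hY0 : 0 ≤ Y := Finset.sum_nonneg (fun v _ => abs_nonneg _)
  have hYv : ∀ v, |y v| ≤ Y := fun v =>
    Finset.single_le_sum (f := fun v => |y v|) (fun v _ => abs_nonneg _) (Finset.mem_univ v)
  set δ : ℝ := ε / (8 * (Y + 1)) with hδ
  have hδ0 : 0 < δ := by positivity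
  have hδY : δ * (4 * Y) < ε / 2 := by
    have : δ * (8 * (Y + 1)) = ε := by rw [hδ]; field_simp
    nlinarith
  have hyd : ∀ u v, |δ * (y v - y u)| ≤ δ * (2 * Y) := by
    intro u v
    rw [abs_mul, abs_of_pos hδ0]
    apply mul_le_mul_of_nonneg_left _ hδ0.le
    have := abs_sub (y v) (y u)
    have := hYv u
    have := hYv v
    linarith
  -- slopes
  set σ : Fin G.n → Fin G.n → ℝ := fun v w => δ * (y w - y v) / (x w - x v) with hσ
  have hσb : ∀ v w, w ∈ G.nbr v → |σ v w| < ε / 2 := by
    intro v w hw
    have h1 := habs v w hw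
    have h2 := hyd v w
    rw [hσ]
    simp only
    rw [abs_div, div_lt_iff₀ (by linarith)]
    nlinarith
  set A : Fin G.n → Fin G.n → ℝ := fun v w => Real.arctan (σ v w) +
    (if S.typ v = true then 0 else π) with hA
  have hatan : ∀ v w, w ∈ G.nbr v → |Real.arctan (σ v w)| < ε / 2 := by
    intro v w hw
    refine lt_of_le_of_lt ?_ (hσb v w hw)
    exact abs_arctan_le _
  -- directions increase along `ord v`
  have hmono : ∀ v, (S.ord v).Pairwise (fun a b => A v a < A v b) := by
    intro v
    have hnd : (S.ord v).Nodup := (S.ord_rot v).perm.nodup_iff.2 (G.nodup v)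
    have key : (S.ord v).Pairwise (fun a b => σ v a < σ v b) := by
      rcases hb : S.typ v with _ | _
      · have h1 := hpast v (S.complete v) hb
        rw [List.pairwise_reverse, List.pairwise_map] at h1
        refine (List.Pairwise.imp_of_mem ?_ (h1.and hnd))
        rintro a b ha hb' ⟨h2, h3⟩
        rw [hmem] at ha hb'
        have h2' := h2.resolve_left (fun hh => h3 hh.symm)
        simp only at h2'
        have ka := hleft v a ha hb
        have kb := hleft v b hb' hb
        have hmax : max (x b) (x a) < x v := max_lt (by linarith) (by linarith)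
        set m := max (x b) (x a) with hm
        unfold segHt at h2'
        simp only at h2'
        have e1 : y b + (y v - y b) * ((m - x b) / (x v - x b)) =
            y v - (y v - y b) / (x v - x b) * (x v - m) := by
          have : x v - x b ≠ 0 := by linarith
          field_simp; ring
        have e2 : y a + (y v - y a) * ((m - x a) / (x v - x a)) =
            y v - (y v - y a) / (x v - x a) * (x v - m) := by
          have : x v - x a ≠ 0 := by linarith
          field_simp; ring
        rw [e1, e2] at h2'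
        have h4 : (y v - y a) / (x v - x a) < (y v - y b) / (x v - x b) := by
          have h5 : (y v - y a) / (x v - x a) * (x v - m) <
              (y v - y b) / (x v - x b) * (x v - m) := by linarith
          exact lt_of_mul_lt_mul_right h5 (by linarith)
        have e3 : σ v a = δ * ((y v - y a) / (x v - x a)) := by
          rw [hσ]
          simp only
          rw [← neg_div_neg_eq, neg_sub, mul_div_assoc', ← mul_neg, neg_sub]
        have e4 : σ v b = δ * ((y v - y b) / (x v - x b)) := by
          rw [hσ]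
          simp only
          rw [← neg_div_neg_eq, neg_sub, mul_div_assoc', ← mul_neg, neg_sub]
        rw [e3, e4]
        exact mul_lt_mul_of_pos_left h4 hδ0
      · have h1 := hfut v (S.complete v) hb
        rw [List.pairwise_map] at h1
        refine (List.Pairwise.imp_of_mem ?_ (h1.and hnd))
        rintro a b ha hb' ⟨h2, h3⟩
        rw [hmem] at ha hb'
        have h2' := h2.resolve_left h3
        simp only at h2'
        have ka := hright v a ha hb
        have kb := hright v b hb' hb
        have hmin : x v < min (x a) (x b) := lt_min (by linarith) (by linarith)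
        set m := min (x a) (x b) with hm
        unfold segHt at h2'
        simp only at h2'
        have e1 : (y a - y v) * ((m - x v) / (x a - x v)) =
            (y a - y v) / (x a - x v) * (m - x v) := by ring
        have e2 : (y b - y v) * ((m - x v) / (x b - x v)) =
            (y b - y v) / (x b - x v) * (m - x v) := by ring
        rw [e1, e2] at h2'
        have h4 : (y a - y v) / (x a - x v) < (y b - y v) / (x b - x v) := by
          have h5 : (y a - y v) / (x a - x v) * (m - x v) <
              (y b - y v) / (x b - x v) * (m - x v) := by linarith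
          exact lt_of_mul_lt_mul_right h5 (by linarith)
        rw [hσ]
        simp only
        rw [mul_div_assoc, mul_div_assoc]
        exact mul_lt_mul_of_pos_left h4 hδ0
    refine key.imp ?_
    intro a b hab
    have := Real.arctan_strictMono hab
    rw [hA]
    simp only
    linarith
  -- rotation numbers
  have hrot : ∀ v, ∃ k, (S.ord v).rotate k = G.nbr v := fun v => S.ord_rot v
  choose k hk using hrot
  have hlen : ∀ v, (G.nbr v).length = (S.ord v).length := fun v => (S.ord_rot v).perm.length_eq.symm
  have hd : ∀ v, 0 < (S.ord v).length := by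
    intro v
    obtain ⟨w, hw⟩ := G.exists_nbr v
    rw [← hlen]
    exact List.length_pos_of_mem hw
  set p : Fin G.n → ℂ := fun v => ⟨x v, δ * y v⟩ with hp
  set W : Fin G.n → ℕ → Fin G.n := fun v m => (S.ord v).getD (m % (S.ord v).length) v with hW
  have hWget : ∀ v m, W v m = (S.ord v)[m % (S.ord v).length]'(Nat.mod_lt _ (hd v)) := by
    intro v m
    rw [hW]
    simp only
    exact List.getD_eq_getElem _ _ (Nat.mod_lt _ (hd v))
  have hWmem : ∀ v m, W v m ∈ G.nbr v := by
    intro v m
    rw [← hmem, hWget]
    exact List.getElem_mem _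
  have hnbrW : ∀ v i (hi : i < (G.nbr v).length), (G.nbr v)[i] = W v (i + k v) := by
    intro v i hi
    rw [hWget]
    have : ∀ (l : List (Fin G.n)) (hl : l = G.nbr v) (hi' : i < l.length), (G.nbr v)[i] = l[i] := by
      intro l hl hi'
      subst hl
      rfl
    rw [this _ (hk v) (by rw [List.length_rotate, ← hlen]; exact hi), List.getElem_rotate]
  set θ : Fin G.n → ℕ → ℝ := fun v i => A v (W v (i + k v)) +
    2 * π * ((i + k v) / (S.ord v).length : ℕ) with hθ
  have hpi : (3 : ℝ) < π := Real.pi_gt_three
  -- one step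
  have hstep : ∀ v i, ((i + k v) % (S.ord v).length + 1 < (S.ord v).length ∧
        (θ v (i + 1) - θ v i < ε ∧ θ v i < θ v (i + 1)) ∧
        ((i + 1 + k v) / (S.ord v).length = (i + k v) / (S.ord v).length)) ∨
      ((i + k v) % (S.ord v).length + 1 = (S.ord v).length ∧
        (2 * π - ε < θ v (i + 1) - θ v i ∧ θ v i < θ v (i + 1))) := by
    intro v i
    have e0 : i + 1 + k v = (i + k v) + 1 := by ring
    rcases div_mod_step (S.ord v).length (i + k v) (hd v) with ⟨h1, h2, h3⟩ | ⟨h1, h2, h3⟩
    · left
      have e1 : θ v (i + 1) - θ v i = A v (W v (i + 1 + k v)) - A v (W v (i + k v)) := by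
        rw [hθ]
        simp only
        rw [e0, h3]; ring
      have e2 : A v (W v (i + k v)) < A v (W v (i + 1 + k v)) := by
        have hpw := List.pairwise_iff_getElem.1 (hmono v)
        rw [hWget, hWget]
        have := hpw ((i + k v) % (S.ord v).length) ((i + k v) % (S.ord v).length + 1)
          (Nat.mod_lt _ (hd v)) h1 (Nat.lt_succ_self _)
        have e3 : (i + 1 + k v) % (S.ord v).length = (i + k v) % (S.ord v).length + 1 := by
          rw [e0]; exact h2
        simp only [e3]
        exact this
      have e4 := abs_lt.1 (hatan v _ (hWmem v (i + k v)))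
      have e5 := abs_lt.1 (hatan v _ (hWmem v (i + 1 + k v)))
      refine ⟨h1, ⟨?_, ?_⟩, ?_⟩
      · rw [e1, hA]
        simp only
        linarith
      · linarith
      · rw [e0, h3]
    · right
      have e1 : θ v (i + 1) - θ v i = A v (W v (i + 1 + k v)) - A v (W v (i + k v)) + 2 * π := by
        rw [hθ]
        simp only
        rw [e0, h3]; push_cast; ring
      have e4 := abs_lt.1 (hatan v _ (hWmem v (i + k v)))
      have e5 := abs_lt.1 (hatan v _ (hWmem v (i + 1 + k v)))
      refine ⟨h1, ?_, ?_⟩
      · rw [e1, hA]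
        simp only
        linarith
      · have e6 := Real.arctan_lt_pi_div_two (σ v (W v (i + k v)))
        have e7 := Real.neg_pi_div_two_lt_arctan (σ v (W v (i + 1 + k v)))
        have : 0 < θ v (i + 1) - θ v i := by
          rw [e1, hA]
          simp only
          linarith
        linarith
  -- segments
  have hseg : ∀ e : Fin G.n × Fin G.n, x e.1 < x e.2 → ∀ z ∈ segment ℝ (p e.1) (p e.2),
      x e.1 ≤ z.re ∧ z.re ≤ x e.2 ∧ z.im = δ * segHt x y e z.re := by
    rintro e he z ⟨a, b, ha, hb, hab, rfl⟩
    have hre : (a • p e.1 + b • p e.2).re = a * x e.1 + b * x e.2 := by simp [hp]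
    have him : (a • p e.1 + b • p e.2).im = a * (δ * y e.1) + b * (δ * y e.2) := by simp [hp]
    rw [hre, him]
    have ha' : a = 1 - b := by linarith
    subst ha'
    have h0 : x e.2 - x e.1 ≠ 0 := by linarith
    refine ⟨by nlinarith, by nlinarith, ?_⟩
    unfold segHt
    field_simp
    ring
  have hplanar0 : ∀ e e' : Fin G.n × Fin G.n, S.typ e.1 = true → e.2 ∈ G.nbr e.1 →
      S.typ e'.1 = true → e'.2 ∈ G.nbr e'.1 → e ≠ e' → ∀ z, z ∈ segment ℝ (p e.1) (p e.2) →
      z ∈ segment ℝ (p e'.1) (p e'.2) → (e.1 = e'.1 ∧ z = p e.1) ∨ (e.2 = e'.2 ∧ z = p e.2) := by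
    intro e e' t1 m1 t2 m2 hee z hz hz'
    have he : x e.1 < x e.2 := by have := hright _ _ m1 t1; linarith
    have he' : x e'.1 < x e'.2 := by have := hright _ _ m2 t2; linarith
    obtain ⟨a1, a2, a3⟩ := hseg e he z hz
    obtain ⟨b1, b2, b3⟩ := hseg e' he' z hz'
    have hht : segHt x y e z.re = segHt x y e' z.re := by
      rw [a3] at b3
      exact mul_left_cancel₀ hδ0.ne' b3
    have ty1 : S.typ e.2 = false := by rw [S.isLevel.typ_ne _ _ m1, t1]; rfl
    have ty2 : S.typ e'.2 = false := by rw [S.isLevel.typ_ne _ _ m2, t2]; rfl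
    have hneq : ∀ u w, S.typ u = true → S.typ w = false → x u ≠ x w := by
      intro u w hu hw hh
      rw [hxinj hh, hw] at hu
      exact Bool.noConfusion hu
    have hov : max (x e.1) (x e'.1) < min (x e.2) (x e'.2) := by
      refine lt_of_le_of_ne (le_trans (max_le a1 b1) (le_min a2 b2)) ?_
      rcases max_choice (x e.1) (x e'.1) with h1 | h1 <;>
        rcases min_choice (x e.2) (x e'.2) with h2 | h2 <;> rw [h1, h2] <;>
        apply hneq <;> assumption
    have hfin : (e.1 = e'.1 ∧ z.re = x e.1) ∨ (e.2 = e'.2 ∧ z.re = x e.2) := by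
      rcases hsep e e' (Or.inr ⟨S.complete _, t1, (hmem _ _).2 m1⟩)
        (Or.inr ⟨S.complete _, t2, (hmem _ _).2 m2⟩) hee hov with hs | hs
      · exact sepE_core he he' hee hs a1 b1 a2 b2 hov hht
      · rw [max_comm, min_comm] at hov
        rcases sepE_core he' he hee.symm hs b1 a1 b2 a2 hov hht.symm with ⟨q1, q2⟩ | ⟨q1, q2⟩
        · left; exact ⟨q1.symm, by rw [q2, q1]⟩
        · right; exact ⟨q1.symm, by rw [q2, q1]⟩
    rcases hfin with ⟨q1, q2⟩ | ⟨q1, q2⟩
    · left
      refine ⟨q1, Complex.ext (by rw [q2]) ?_⟩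
      rw [a3, q2, segHt_left]
    · right
      refine ⟨q1, Complex.ext (by rw [q2]) ?_⟩
      rw [a3, q2, segHt_right _ _ _ he]
  refine ⟨p, θ, ?_, ?_, ?_, ?_, ?_, ?_, ?_, ?_, ?_⟩
  · -- inj
    intro u v huv
    apply hxinj
    exact congrArg Complex.re huv
  · -- planar
    intro u v a b huv hab hne z hz hz'
    have horient : ∀ u v, v ∈ G.nbr u → z ∈ segment ℝ (p u) (p v) →
        ∃ e : Fin G.n × Fin G.n, S.typ e.1 = true ∧ e.2 ∈ G.nbr e.1 ∧
          z ∈ segment ℝ (p e.1) (p e.2) ∧ s(e.1, e.2) = s(u, v) := by
      intro u v huv hz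
      rcases hb : S.typ u with _ | _
      · refine ⟨(v, u), ?_, G.symm _ _ huv, ?_, Sym2.eq_swap⟩
        · simp only
          rw [S.isLevel.typ_ne u v huv, hb]; rfl
        · rw [segment_symm]; exact hz
      · exact ⟨(u, v), hb, huv, hz, rfl⟩
    obtain ⟨e, e1, e2, e3, e4⟩ := horient u v huv hz
    obtain ⟨f, f1, f2, f3, f4⟩ := horient a b hab hz'
    have hef : e ≠ f := by
      rintro rfl
      exact hne (e4.symm.trans f4)
    rcases hplanar0 e f e1 e2 f1 f2 hef z e3 f3 with ⟨q1, q2⟩ | ⟨q1, q2⟩
    · refine ⟨e.1, ?_, ?_, q2⟩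
      · rw [← e4]; exact Sym2.mem_mk_left _ _
      · rw [← f4, q1]; exact Sym2.mem_mk_left _ _
    · refine ⟨e.2, ?_, ?_, q2⟩
      · rw [← e4]; exact Sym2.mem_mk_right _ _
      · rw [← f4, q1]; exact Sym2.mem_mk_right _ _
  · -- dir
    intro v i hi
    rw [hnbrW v i hi]
    have hm := hWmem v (i + k v)
    have hpz : p (W v (i + k v)) - p v =
        (⟨x (W v (i + k v)) - x v, δ * (y (W v (i + k v)) - y v)⟩ : ℂ) := by
      apply Complex.ext
      · simp [hp]
      · simp [hp]; ring
    rw [hpz]
    have hpol := polar_aux (x (W v (i + k v)) - x v) (δ * (y (W v (i + k v)) - y v))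
      (hne v _ hm) ((i + k v) / (S.ord v).length)
    have hif : (if 0 < x (W v (i + k v)) - x v then (0 : ℝ) else π) =
        (if S.typ v = true then 0 else π) := by
      rw [if_congr (hsgn v _ hm) rfl rfl]
    rw [hif] at hpol
    exact hpol
  · -- ccw
    intro v i _
    rcases hstep v i with ⟨_, ⟨_, h1⟩, _⟩ | ⟨_, _, h1⟩ <;> exact h1
  · -- full turn
    intro v
    rw [hθ]
    simp only
    have e1 : W v ((G.nbr v).length + k v) = W v (0 + k v) := by
      rw [hW]
      simp only
      rw [hlen, Nat.add_mod_left, zero_add]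
    rw [e1, hlen, Nat.add_div_left _ (hd v), zero_add]
    push_cast
    ring
  · -- outer
    intro v hmin i hi q h1 h2
    obtain ⟨w, hw⟩ := G.exists_nbr v
    have htv : S.typ v = true := by
      by_contra hcon
      have := hleft v w hw (by simpa using hcon)
      have := hmin w
      simp only [hp] at this
      linarith
    have hAv : ∀ m, |A v (W v m)| < π / 2 := by
      intro m
      rw [hA]
      simp only
      rw [if_pos htv, add_zero, abs_lt]
      exact ⟨Real.neg_pi_div_two_lt_arctan _, Real.arctan_lt_pi_div_two _⟩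
    have hlast : (i + k v) % (S.ord v).length + 1 = (S.ord v).length := by
      rcases hstep v i with ⟨g1, ⟨g2, g3⟩, g4⟩ | ⟨g1, _⟩
      · exfalso
        have b1 := abs_lt.1 (hAv (i + k v))
        have b2 := abs_lt.1 (hAv (i + 1 + k v))
        rw [hθ] at h1 h2
        simp only at h1 h2
        rw [g4] at h2
        set m : ℕ := (i + k v) / (S.ord v).length with hm
        have c1 : (2 * (m : ℝ) - 3 / 2) < 2 * q := by nlinarith
        have c2 : 2 * (q : ℝ) < 2 * m - 1 / 2 := by nlinarith
        have c3 : (2 * (m : ℤ) - 2) < 2 * q := by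
          have : (2 * (m : ℝ) - 2) < 2 * q := by linarith
          exact_mod_cast this
        have c4 : 2 * q < 2 * (m : ℤ) := by
          have : 2 * (q : ℝ) < 2 * m := by linarith
          exact_mod_cast this
        omega
      · exact g1
    have hvs : S.vs.head? = some v := by
      have hall := S.complete v
      cases hvs : S.vs with
      | nil => rw [hvs] at hall; simp at hall
      | cons a l =>
        rw [hvs] at hall hx
        rw [List.pairwise_cons] at hx
        rcases List.mem_cons.1 hall with h | h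
        · rw [h]; rfl
        · have h3 := hx.1 v h
          have h4 := hmin a
          simp only [hp] at h4
          linarith
    refine S.outer v _ hvs ?_
    rw [List.getLast?_eq_getElem?, hnbrW v i hi, hWget, List.getElem?_eq_getElem
      (by have := hd v; omega)]
    have hidx : (S.ord v).length - 1 = (i + k v) % (S.ord v).length := by omega
    congr 1
    simp only [hidx]
  · -- near_line
    intro v
    rw [hp]
    simp only
    rw [abs_mul, abs_of_pos hδ0]
    have := mul_le_mul_of_nonneg_left (hYv v) hδ0.le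
    nlinarith
  · -- near_len
    have key : ∀ u v, v ∈ G.nbr u → S.typ u = true → |‖p u - p v‖ - G.len u v| < ε := by
      intro u v huv htu
      obtain ⟨k1, k2⟩ := hlv u v huv htu
      have k2' := abs_lt.1 k2
      have h1 := Complex.abs_re_le_norm (p u - p v)
      have h2 := Complex.norm_le_abs_re_add_abs_im (p u - p v)
      have hre : (p u - p v).re = x u - x v := by simp [hp]
      have him : (p u - p v).im = δ * (y u - y v) := by simp [hp]; ring
      rw [hre, abs_of_neg (by linarith)] at h1
      rw [hre, him, abs_of_neg (by linarith)] at h2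
      have h3 := hyd v u
      rw [abs_lt]
      constructor <;> nlinarith
    intro u v huv
    rcases hb : S.typ u with _ | _
    · rw [norm_sub_rev, G.len_symm u v huv]
      refine key v u (G.symm _ _ huv) ?_
      rw [S.isLevel.typ_ne u v huv, hb]; rfl
    · exact key u v huv hb
  · -- no_flat
    intro v i _
    rcases hstep v i with ⟨_, ⟨h1, _⟩, _⟩ | ⟨_, h1, _⟩
    · exact Or.inl h1
    · exact Or.inr h1

end

/-- Module I.b -/
theorem flatFoldable_of_sweep (G : PlaneGraph) (S : Sweep G) : G.FlatFoldable := by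
  intro ε hε
  set η : ℝ := min (ε / 4) (1 / 4) / (G.n + 1) with hη
  have hm : 0 < min (ε / 4) (1 / 4 : ℝ) := lt_min (by linarith) (by norm_num)
  have hη0 : 0 < η := by positivity
  have hηn : η * (G.n + 1) = min (ε / 4) (1 / 4) := by rw [hη]; field_simp
  set x : Fin G.n → ℝ := fun v => S.X v + η * (S.vs.idxOf v : ℕ) with hx
  have hxX : ∀ v, |x v - S.X v| < min (ε / 4) (1 / 4) := by
    intro v
    have h1 : (S.vs.idxOf v) < S.vs.length := List.idxOf_lt_length_iff.2 (S.complete v)
    have h2 : S.vs.length ≤ G.n := by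
      have := S.nodup.length_le_card
      rwa [Fintype.card_fin] at this
    have h3 : ((S.vs.idxOf v : ℕ) : ℝ) < G.n + 1 := by
      have : S.vs.idxOf v < G.n + 1 := by omega
      exact_mod_cast this
    have h4 : x v - S.X v = η * (S.vs.idxOf v : ℕ) := by rw [hx]; simp
    rw [h4, abs_of_nonneg (by positivity), ← hηn]
    exact mul_lt_mul_of_pos_left h3 hη0
  have hpw : S.vs.Pairwise (fun u v => x u < x v) := by
    have h1 : S.vs.Pairwise (fun u v => S.vs.idxOf u < S.vs.idxOf v) := by
      rw [List.pairwise_iff_getElem]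
      intro i j hi hj hij
      rw [S.nodup.idxOf_getElem i hi, S.nodup.idxOf_getElem j hj]
      exact hij
    refine (S.sorted.and h1).imp ?_
    rintro u v ⟨h2, h3⟩
    have h4 : (S.X u : ℝ) ≤ S.X v := by exact_mod_cast h2
    have h5 : ((S.vs.idxOf u : ℕ) : ℝ) < (S.vs.idxOf v : ℕ) := by exact_mod_cast h3
    have h6 := mul_lt_mul_of_pos_left h5 hη0
    rw [hx]
    simp only
    linarith
  obtain ⟨y, hy⟩ := exists_heights S.typ S.ord x S.vs hpw S.complete
    (fun v => (S.ord_rot v).perm.nodup_iff.2 (G.nodup v)) S.run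
  exact foldApprox_of_runH G S ε x y hε hpw
    (fun v => lt_of_lt_of_le (hxX v) (min_le_left _ _))
    (fun v => lt_of_lt_of_le (hxX v) (min_le_right _ _)) hy

end Pool.Agent.FlatFold
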