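import Mathlib
import Pool.Agent.Lib.MP_b92007_lc.Algo
import Pool.Agent.Lib.MP_b92007_lc.DrawToSweep
import Pool.Agent.Lib.MP_b92007_lc.SweepToDraw
import Pool.Agent.Lib.MP_b92007_lc.SweepOfFolded

/-! The algorithm decides flat foldability. -/

namespace Pool.Agent.FlatFold

open PlaneGraph

/-- The combinatorial characterisation: a plane graph has a flat folded state without flat angles
iff it has a level function and a mountain assignment for which every face collapses. -/
theorem flatFoldable_iff (G : PlaneGraph) : G.FlatFoldable ↔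
    (∃ typ X, IsLevel G typ X) ∧ ∃ mv, MVGoodW G mv := by
  constructor
  · intro h
    obtain ⟨S⟩ := sweep_of_flatFoldable G h
    obtain ⟨mv, hmv⟩ := mvGood_of_sweep G S
    exact ⟨⟨S.typ, S.X, S.isLevel⟩, mv, hmv.weak⟩
  · rintro ⟨⟨typ, X, hX⟩, mv, hmv⟩
    obtain ⟨S⟩ := sweep_of_mvGoodW G typ X hX mv hmv sum_of_algGood
    exact flatFoldable_of_sweep G S

theorem algo_iff (G : PlaneGraph) : algo G.data = true ↔ G.FlatFoldable := by
  unfold algo
  rw [Bool.and_eq_true, levOK_iff]
  constructor
  · rintro ⟨hlev, hm⟩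
    rw [flatFoldable_iff]
    refine ⟨hlev, ?_⟩
    cases hs : slotsL G.data with
    | none => rw [hs] at hm; simp at hm
    | some p =>
      obtain ⟨L, q⟩ := p
      rw [hs] at hm
      dsimp only at hm
      rw [auction_iff _ _ (slots_lt G L q hs)] at hm
      exact mvGoodW_of_slots G L q hs hm
  · intro h
    obtain ⟨S⟩ := sweep_of_flatFoldable G h
    obtain ⟨mv, hmv⟩ := mvGood_of_sweep G S
    refine ⟨⟨S.typ, S.X, S.isLevel⟩, ?_⟩
    obtain ⟨L, q, hs, hsdr⟩ := slots_of_mvGood G mv hmv
    rw [hs]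
    dsimp only
    rw [auction_iff _ _ (slots_lt G L q hs)]
    exact hsdr

end Pool.Agent.FlatFold
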