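import Pool.Agent.Lib.MP_b92007_lc.Auction
import Pool.Agent.Lib.PolyTime.EqOps

/-! The auction algorithm runs in polynomial time. -/

set_option linter.unusedSimpArgs false

namespace Pool.Agent.FlatFold.PT

open Pool.Agent.Lib.PolyTime Function

instance : TEnc AState := ⟨fun s => enc (s.stack, s.price, s.owner, s.fail)⟩

theorem enc_AState (s : AState) : enc s = enc (s.stack, s.price, s.owner, s.fail) := rfl

theorem sz_AState (s : AState) : sz s = sz (s.stack, s.price, s.owner, s.fail) := rfl

section

variable {α : Type*} [TEnc α]

theorem polyF_stack {f : α → AState} (hf : PolyF f) : PolyF (fun x => (f x).stack) :=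
  (hf.of_enc (g := fun x => ((f x).stack, (f x).price, (f x).owner, (f x).fail)) (fun x => x)
    (fun _ => rfl) (fun _ => rfl)).fst

theorem polyF_price {f : α → AState} (hf : PolyF f) : PolyF (fun x => (f x).price) :=
  (hf.of_enc (g := fun x => ((f x).stack, (f x).price, (f x).owner, (f x).fail)) (fun x => x)
    (fun _ => rfl) (fun _ => rfl)).snd.fst

theorem polyF_owner {f : α → AState} (hf : PolyF f) : PolyF (fun x => (f x).owner) :=
  (hf.of_enc (g := fun x => ((f x).stack, (f x).price, (f x).owner, (f x).fail)) (fun x => x)
    (fun _ => rfl) (fun _ => rfl)).snd.snd.fst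

theorem polyF_fail {f : α → AState} (hf : PolyF f) : PolyF (fun x => (f x).fail) :=
  (hf.of_enc (g := fun x => ((f x).stack, (f x).price, (f x).owner, (f x).fail)) (fun x => x)
    (fun _ => rfl) (fun _ => rfl)).snd.snd.snd

theorem polyF_mk {a b c : α → List ℕ} {d : α → Bool} (ha : PolyF a) (hb : PolyF b)
    (hc : PolyF c) (hd : PolyF d) : PolyF (fun x => (⟨a x, b x, c x, d x⟩ : AState)) :=
  (ha.pair (hb.pair (hc.pair hd))).of_enc (fun x => x) (fun _ => rfl) (fun _ => rfl)

theorem polyF_getD {n : α → ℕ} {l : α → List ℕ} (hn : PolyF n) (hl : PolyF l) :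
    PolyF (fun x => (l x).getD (n x) 0) :=
  ((hn.getElem? hl).getD (PolyF.const 0)).congr fun x => by rw [List.getD_eq_getElem?_getD]

theorem polyF_getDnil {n : α → ℕ} {l : α → List (List ℕ)} (hn : PolyF n) (hl : PolyF l) :
    PolyF (fun x => (l x).getD (n x) []) :=
  ((hn.getElem? hl).getD (PolyF.const [])).congr fun x => by rw [List.getD_eq_getElem?_getD]

theorem cheapest_foldr (price : List ℕ) (l : List ℕ) :
    cheapest price l = l.foldr (fun x c => match c with
      | none => some x
      | some y => if price.getD y 0 < price.getD x 0 then some y else some x) none := by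
  induction l with
  | nil => rfl
  | cons x l ih => rw [List.foldr_cons, ← ih]; rfl

theorem polyF_cheapest {price l : α → List ℕ} (hp : PolyF price) (hl : PolyF l) :
    PolyF (fun x => cheapest (price x) (l x)) := by
  refine (PolyF.foldr_inv (l := l) (i := fun _ => (none : Option ℕ))
    (f := fun x a c => match c with
      | none => some a
      | some y => if (price x).getD y 0 < (price x).getD a 0 then some y else some a)
    hl (PolyF.const _) ?_ (fun x c => sz c ≤ sz (l x) + 1) (fun x => sz (l x) + 1)
    (hl.pbd.add (PBd.const 1)) (fun x => by simp) (fun x c b hb hc => ?_)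
    (fun x c hc => hc)).congr fun x => (cheapest_foldr _ _).symm
  · refine PolyF.optionCases (o := fun p : α × ℕ × Option ℕ => p.2.2)
      (g := fun p => some p.2.1)
      (h := fun q : (α × ℕ × Option ℕ) × ℕ =>
        if (price q.1.1).getD q.2 0 < (price q.1.1).getD q.1.2.1 0 then some q.2
          else some q.1.2.1) PolyF.snd'.snd PolyF.snd'.fst.some ?_ ?_ ?_
    · have h1 : PolyF (fun q : (α × ℕ × Option ℕ) × ℕ => price q.1.1) := hp.comp PolyF.fst'.fst
      exact PolyF.ite ((polyF_getD PolyF.snd' h1).natLt (polyF_getD PolyF.fst'.snd.fst h1))
        PolyF.snd'.some PolyF.fst'.snd.fst.some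
    · intro p hpn
      simp only [hpn]
    · intro p y hpn
      simp only [hpn]
  · have := sz_mem hb
    rcases c with _ | y
    · simp only [sz_some]
      omega
    · simp only
      split_ifs
      · exact hc
      · simp only [sz_some]
        omega

theorem polyF_auctionStep {L : α → List (List ℕ)} {s : α → AState} (hL : PolyF L)
    (hs : PolyF s) : PolyF (fun x => auctionStep (L x) (s x)) := by
  refine PolyF.listCases (l := fun x => (s x).stack) (g := s)
    (h := fun q : α × ℕ × List ℕ =>
      match cheapest (s q.1).price ((L q.1).getD q.2.1 []) with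
      | none => { s q.1 with fail := true, stack := [] }
      | some x =>
        if (s q.1).price.getD x 0 ≥ (L q.1).length + 1 then
          { s q.1 with fail := true, stack := [] }
        else
          { stack := if (s q.1).owner.getD x 0 = 0 then q.2.2
              else ((s q.1).owner.getD x 0 - 1) :: q.2.2
            price := (s q.1).price.set x ((s q.1).price.getD x 0 + 1)
            owner := (s q.1).owner.set x (q.2.1 + 1)
            fail := (s q.1).fail }) (polyF_stack hs) hs ?_ ?_ ?_
  · have hs1 : PolyF (fun q : α × ℕ × List ℕ => s q.1) := hs.comp PolyF.fst'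
    have hL1 : PolyF (fun q : α × ℕ × List ℕ => L q.1) := hL.comp PolyF.fst'
    refine PolyF.optionCases (o := fun q : α × ℕ × List ℕ =>
        cheapest (s q.1).price ((L q.1).getD q.2.1 []))
      (g := fun q => { s q.1 with fail := true, stack := [] })
      (h := fun r : (α × ℕ × List ℕ) × ℕ =>
        if (s r.1.1).price.getD r.2 0 ≥ (L r.1.1).length + 1 then
          { s r.1.1 with fail := true, stack := [] }
        else
          { stack := if (s r.1.1).owner.getD r.2 0 = 0 then r.1.2.2
              else ((s r.1.1).owner.getD r.2 0 - 1) :: r.1.2.2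
            price := (s r.1.1).price.set r.2 ((s r.1.1).price.getD r.2 0 + 1)
            owner := (s r.1.1).owner.set r.2 (r.1.2.1 + 1)
            fail := (s r.1.1).fail }) (polyF_cheapest (polyF_price hs1)
        (polyF_getDnil PolyF.snd'.fst hL1)) ?_ ?_ ?_ ?_
    · exact polyF_mk (PolyF.const _) (polyF_price hs1) (polyF_owner hs1) (PolyF.const _)
    · have hs2 : PolyF (fun r : (α × ℕ × List ℕ) × ℕ => s r.1.1) := hs.comp PolyF.fst'.fst
      have hL2 : PolyF (fun r : (α × ℕ × List ℕ) × ℕ => L r.1.1) := hL.comp PolyF.fst'.fst
      have hx : PolyF (fun r : (α × ℕ × List ℕ) × ℕ => r.2) := PolyF.snd'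
      have hi : PolyF (fun r : (α × ℕ × List ℕ) × ℕ => r.1.2.1) := PolyF.fst'.snd.fst
      have ht : PolyF (fun r : (α × ℕ × List ℕ) × ℕ => r.1.2.2) := PolyF.fst'.snd.snd
      have hpr := polyF_getD hx (polyF_price hs2)
      have how := polyF_getD hx (polyF_owner hs2)
      refine PolyF.ite (hL2.length.succ.natLe hpr)
        (polyF_mk (PolyF.const _) (polyF_price hs2) (polyF_owner hs2) (PolyF.const _)) ?_
      exact polyF_mk (PolyF.ite (how.natEq (PolyF.const 0)) ht (how.pred.cons ht))
        (hx.set (polyF_price hs2) hpr.succ) (hx.set (polyF_owner hs2) hi.succ) (polyF_fail hs2)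
    · intro q hq
      simp only [hq]
    · intro q b hq
      simp only [hq]
  · intro x hx
    unfold auctionStep
    simp only [hx]
  · intro x b t hx
    unfold auctionStep
    simp only [hx]
    cases cheapest (s x).price ((L x).getD b []) <;> rfl

end

/-- Size bounds preserved by the auction. -/
structure ABd (m N : ℕ) (s : AState) : Prop where
  stack_len : s.stack.length ≤ m
  stack_lt : ∀ i ∈ s.stack, i < m
  price_len : s.price.length = N
  price_le : ∀ x ∈ s.price, x ≤ m + 1
  owner_len : s.owner.length = N
  owner_le : ∀ x ∈ s.owner, x ≤ m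

theorem getD_of_forall {l : List ℕ} {m x : ℕ} (h : ∀ y ∈ l, y ≤ m) : l.getD x 0 ≤ m := by
  rw [List.getD_eq_getElem?_getD]
  rcases hx : l[x]? with _ | y
  · simp
  · simpa using h y (List.mem_of_getElem? hx)

theorem abd_step {L : List (List ℕ)} {N : ℕ} {s : AState} (h : ABd L.length N s) :
    ABd L.length N (auctionStep L s) := by
  unfold auctionStep
  rcases hst : s.stack with _ | ⟨i, st⟩
  · simpa only [hst] using h
  · rcases hc : cheapest s.price (L.getD i []) with _ | x
    · simp only [hst, hc]
      exact ⟨by simp, by simp, h.price_len, h.price_le, h.owner_len, h.owner_le⟩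
    · simp only [hst, hc]
      have h1 := h.stack_len
      have h2 := h.stack_lt
      rw [hst] at h1 h2
      simp only [List.length_cons] at h1
      split_ifs with h3 h4
      · exact ⟨by simp, by simp, h.price_len, h.price_le, h.owner_len, h.owner_le⟩
      · refine ⟨by dsimp only; omega, fun j hj => h2 j (List.mem_cons_of_mem _ hj),
          by simp [h.price_len], ?_, by simp [h.owner_len], ?_⟩
        · intro y hy
          rcases List.mem_or_eq_of_mem_set hy with hy | rfl
          · exact h.price_le y hy
          · omega
        · intro y hy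
          rcases List.mem_or_eq_of_mem_set hy with hy | rfl
          · exact h.owner_le y hy
          · have := h2 i List.mem_cons_self
            omega
      · refine ⟨by dsimp only; simp only [List.length_cons]; omega, ?_,
          by simp [h.price_len], ?_, by simp [h.owner_len], ?_⟩
        · intro j hj
          rcases List.mem_cons.1 hj with rfl | hj
          · have := getD_of_forall (x := x) h.owner_le
            omega
          · exact h2 j (List.mem_cons_of_mem _ hj)
        · intro y hy
          rcases List.mem_or_eq_of_mem_set hy with hy | rfl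
          · exact h.price_le y hy
          · omega
        · intro y hy
          rcases List.mem_or_eq_of_mem_set hy with hy | rfl
          · exact h.owner_le y hy
          · have := h2 i List.mem_cons_self
            omega

/-- Task P3: the auction runs in polynomial time. -/
theorem polyF_auction : PolyF (fun p : List (List ℕ) × ℕ => auction p.1 p.2) := by
  have hL : PolyF (fun p : List (List ℕ) × ℕ => p.1) := PolyF.fst'
  have hN : PolyF (fun p : List (List ℕ) × ℕ => p.2) := PolyF.snd'
  have hz : PolyF (fun p : List (List ℕ) × ℕ => List.replicate p.2 0) :=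
    (hN.range.map (h := fun _ _ => 0) (PolyF.const 0)).congr fun p => by simp
  have hit : PolyF (fun p : List (List ℕ) × ℕ =>
      (auctionStep p.1)^[(p.1.length + 2) * (p.2 + 1)]
        ⟨List.range p.1.length, List.replicate p.2 0, List.replicate p.2 0, false⟩) := by
    refine PolyF.natIterate (n := fun p : List (List ℕ) × ℕ => (p.1.length + 2) * (p.2 + 1))
      (f := fun p s => auctionStep p.1 s)
      (g := fun p => ⟨List.range p.1.length, List.replicate p.2 0, List.replicate p.2 0, false⟩)
      (hL.length.succ.succ.natMul hN.succ)
      (polyF_auctionStep PolyF.fst'.fst PolyF.snd')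
      (polyF_mk hL.length.range hz hz (PolyF.const _)) ?_
    refine ⟨1 + (Polynomial.X + 1) * Polynomial.X + (1 + (Polynomial.X + 1 + 1) * Polynomial.X +
      (1 + (Polynomial.X + 1) * Polynomial.X + 1)), fun p i _ => ?_⟩
    have hb : ∀ i, ABd p.1.length p.2 ((auctionStep p.1)^[i]
        ⟨List.range p.1.length, List.replicate p.2 0, List.replicate p.2 0, false⟩) := by
      intro i
      induction i with
      | zero =>
        refine ⟨by simp, by simp, by simp, ?_, by simp, ?_⟩
        · intro x hx
          have := List.eq_of_mem_replicate hx
          omega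
        · intro x hx
          have := List.eq_of_mem_replicate hx
          omega
      | succ i ih => rw [iterate_succ_apply']; exact abd_step ih
    have h := hb i
    generalize ((auctionStep p.1)^[i]
        ⟨List.range p.1.length, List.replicate p.2 0, List.replicate p.2 0, false⟩) = s at h
    have hl : p.1.length ≤ sz p := by
      have := length_le_sz p.1
      rw [sz_prod]
      omega
    have hn : p.2 ≤ sz p := by
      rw [sz_prod, sz_nat]
      omega
    have e1 : sz s.stack ≤ (sz p + 1) * sz p :=
      (sz_le_of_forall (M := sz p) fun j hj => by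
        have := h.stack_lt j hj
        rw [sz_nat]
        omega).trans (Nat.mul_le_mul_left _ (h.stack_len.trans hl))
    have e2 : sz s.price ≤ (sz p + 1 + 1) * sz p :=
      (sz_le_of_forall (M := sz p + 1) fun j hj => by
        have := h.price_le j hj
        rw [sz_nat]
        omega).trans (Nat.mul_le_mul_left _ (h.price_len.le.trans hn))
    have e3 : sz s.owner ≤ (sz p + 1) * sz p :=
      (sz_le_of_forall (M := sz p) fun j hj => by
        have := h.owner_le j hj
        rw [sz_nat]
        omega).trans (Nat.mul_le_mul_left _ (h.owner_len.le.trans hn))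
    have e4 := sz_bool_le s.fail
    rw [sz_AState, sz_prod, sz_prod, sz_prod]
    simp only [Polynomial.eval_add, Polynomial.eval_mul, Polynomial.eval_one, Polynomial.eval_X]
    omega
  exact PolyF.ite (p := fun p : List (List ℕ) × ℕ => p.1.length = p.2) (hL.length.natEq hN)
    (polyF_fail hit).not (PolyF.const false)

end Pool.Agent.FlatFold.PT
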