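import Pool.Agent.Lib.MP_b92007_lc.PolyOrbit

/-! Task P2: processing a face runs in polynomial time. -/

set_option linter.unusedSimpArgs false
set_option linter.unusedSectionVars false

namespace Pool.Agent.FlatFold.PT

open Pool.Agent.Lib.PolyTime Function

/-- the data of a view: `none` is `bad`, `some none` is `done` -/
abbrev VData : Type := Option (Option (ℕ × ℕ × List ℕ × ℕ × ℕ × ℕ × List (ℕ × ℕ)))

/-- the data of a view, with binary lengths -/
abbrev VDataB : Type := Option (Option (ℕ × NBin × List ℕ × NBin × ℕ × NBin × List (ℕ × NBin)))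

/-- from data to views -/
def VData.toView : VData → View ℕ
  | none => View.bad
  | some none => View.done
  | some (some (x, a, us, t, u, b, rest)) => View.red x a us t u b rest

/-- last part of `view` -/
def viewC (t x a : ℕ) (us : List ℕ) : List (ℕ × ℕ) → VData
  | [] => none
  | (u, b) :: rest => some (some (x, a, us, t, u, b, rest))

/-- middle part of `view` -/
def viewB (t : ℕ) : List (ℕ × ℕ) → VData
  | [] => none
  | (x, a) :: L => viewC t x a ((L.takeWhile (fun p => p.2 == t)).map Prod.fst)
      (L.dropWhile (fun p => p.2 == t))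

/-- `view` as data -/
def viewT (c : List (ℕ × ℕ)) : VData :=
  bif c.all (fun p => p.2 == minLen c) then some none else viewB (minLen c) (normRot (minLen c) c)

theorem view_eq (c : List (ℕ × ℕ)) : view c = (viewT c).toView := by
  unfold view viewT
  cases h : c.all (fun p => p.2 == minLen c)
  · simp only [h, cond_false, Bool.false_eq_true, if_false]
    rcases hr : normRot (minLen c) c with _ | ⟨⟨x, a⟩, L⟩
    · rfl
    · simp only [viewB]
      rcases hd : L.dropWhile (fun p => p.2 == minLen c) with _ | ⟨⟨u, b⟩, rest⟩ <;>
        simp only [hd] <;> rfl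
  · simp only [h, cond_true, if_true]
    rfl

/-- minimum of the lengths as an option -/
def minLenO (c : List (ℕ × ℕ)) : Option ℕ :=
  c.foldr (fun p m => m.elim (some p.2) (fun m => some (min p.2 m))) none

theorem minLenO_eq (c : List (ℕ × ℕ)) : (minLenO c).getD 0 = minLen c ∧ (c ≠ [] → minLenO c ≠ none) := by
  induction c with
  | nil => exact ⟨rfl, fun h => absurd rfl h⟩
  | cons p c ih =>
    rcases c with _ | ⟨p', c⟩
    · exact ⟨rfl, fun _ => by simp [minLenO]⟩
    · obtain ⟨i1, i2⟩ := ih
      have i3 := i2 (by simp)
      obtain ⟨m, hm⟩ := Option.ne_none_iff_exists'.1 i3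
      have e : minLenO (p :: p' :: c) = some (min p.2 m) := by
        show (minLenO (p' :: c)).elim _ _ = _
        rw [hm]
        rfl
      rw [hm] at i1
      rw [e]
      refine ⟨?_, fun _ => by simp⟩
      rw [minLen, ← i1]
      rfl

section

variable {α : Type*} [TEnc α]

theorem polyF_minLen {c : α → List (ℕ × NBin)} (hc : PolyF c) :
    PolyF (α := α) (β := NBin) (fun x => minLen (c x)) := by
  have h : PolyF (α := α) (β := Option NBin) (fun x => minLenO (c x)) := by
    refine PolyF.foldr_inv (β := ℕ × NBin) (γ := Option NBin) (l := c) (i := fun _ => none)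
      (f := fun _ p m => m.elim (some p.2) (fun m => some (@min ℕ _ p.2 m))) hc (PolyF.const _)
      ?_ (fun x m => sz m ≤ sz (c x)) (fun x => sz (c x)) hc.pbd (fun x => by simp)
      (fun x m p hp hm => ?_) (fun _ _ h => h)
    · exact PolyF.optionElim (α := α × (ℕ × NBin) × Option NBin) (β := NBin) (γ := Option NBin)
        (h := fun q (m : NBin) => some (@min ℕ _ q.2.1.2 m)) PolyF.snd'.snd PolyF.snd'.fst.snd.some
        (PolyF.nbMin PolyF.fst'.snd.fst.snd PolyF.snd').some
    · have h1 := sz_mem hp
      have h2 : sz p = 1 + sz p.1 + sz p.2 := sz_prod p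
      rcases m with _ | m
      · show sz (some p.2) ≤ _
        rw [sz_some]
        omega
      · have h5 : sz (α := Option NBin) (some (@min ℕ _ p.2 m)) =
          1 + sz (α := NBin) (@min ℕ _ p.2 m) := rfl
        show sz (α := Option NBin) (some (@min ℕ _ p.2 m)) ≤ _
        rw [sz_some] at hm
        rcases @min_choice ℕ _ p.2 m with h3 | h3
        · have h4 : sz (α := NBin) (@min ℕ _ p.2 m) = sz (α := NBin) p.2 := congrArg (sz (α := NBin)) h3
          omega
        · have h4 : sz (α := NBin) (@min ℕ _ p.2 m) = sz (α := NBin) m := congrArg (sz (α := NBin)) h3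
          omega
  exact (PolyF.getD (β := NBin) h (PolyF.nbConst 0)).congr fun x => (minLenO_eq (c x)).1

theorem polyF_isT {p : α → ℕ × NBin} {t : α → NBin} (hp : PolyF p) (ht : PolyF t) :
    PolyF (fun x => @BEq.beq ℕ _ (p x).2 (t x)) := PolyF.nbBeq hp.snd ht

theorem polyF_bne {p : α → ℕ × NBin} {t : α → NBin} (hp : PolyF p) (ht : PolyF t) :
    PolyF (fun x => @bne ℕ _ (p x).2 (t x)) := (PolyF.nbBeq hp.snd ht).not

theorem polyF_normRot {t : α → NBin} {c : α → List (ℕ × NBin)} (ht : PolyF t) (hc : PolyF c) :
    PolyF (α := α) (β := List (ℕ × NBin)) (fun x => normRot (t x) (c x)) := by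
  have hc1 : PolyF (α := α) (β := List (ℕ × NBin)) (fun x =>
      (c x).dropWhile (fun p => @BEq.beq ℕ _ p.2 (t x)) ++
      (c x).takeWhile (fun p => @BEq.beq ℕ _ p.2 (t x))) :=
    (hc.dropWhile (p := fun x (p : ℕ × NBin) => @BEq.beq ℕ _ p.2 (t x))
      (polyF_isT PolyF.snd' (ht.comp PolyF.fst'))).append
    (hc.takeWhile (p := fun x (p : ℕ × NBin) => @BEq.beq ℕ _ p.2 (t x))
      (polyF_isT PolyF.snd' (ht.comp PolyF.fst')))
  have hq := hc1.takeWhile (p := fun x (p : ℕ × NBin) => @bne ℕ _ p.2 (t x))
      (polyF_bne PolyF.snd' (ht.comp PolyF.fst'))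
  have hr := hc1.dropWhile (p := fun x (p : ℕ × NBin) => @bne ℕ _ p.2 (t x))
      (polyF_bne PolyF.snd' (ht.comp PolyF.fst'))
  exact PolyF.append (β := ℕ × NBin) (PolyF.append (β := ℕ × NBin)
    (PolyF.drop (β := ℕ × NBin) hq.length.pred hq) hr)
    (PolyF.take (β := ℕ × NBin) hq.length.pred hq)

theorem polyF_viewT {c : α → List (ℕ × NBin)} (hc : PolyF c) :
    PolyF (α := α) (β := VDataB) (fun x => viewT (c x)) := by
  have ht := polyF_minLen hc
  refine PolyF.cond (β := VDataB) (hc.all (p := fun x (p : ℕ × NBin) =>
    @BEq.beq ℕ _ p.2 (minLen (c x))) (polyF_isT PolyF.snd' (ht.comp PolyF.fst')))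
    (PolyF.const (some none)) ?_
  refine PolyF.listCases (α := α) (β := ℕ × NBin) (γ := VDataB)
    (l := fun x => normRot (minLen (c x)) (c x)) (g := fun _ => none)
    (h := fun q : α × (ℕ × NBin) × List (ℕ × NBin) =>
      viewC (minLen (c q.1)) q.2.1.1 q.2.1.2
        ((q.2.2.takeWhile (fun p => @BEq.beq ℕ _ p.2 (minLen (c q.1)))).map Prod.fst)
        (q.2.2.dropWhile (fun p => @BEq.beq ℕ _ p.2 (minLen (c q.1)))))
    (polyF_normRot ht hc) (PolyF.const _) ?_ (fun x hx => ?_) (fun x p L hx => ?_)
  · have ht' : PolyF (α := α × (ℕ × NBin) × List (ℕ × NBin)) (β := NBin)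
        (fun q => minLen (c q.1)) := ht.comp PolyF.fst'
    have hL : PolyF (α := α × (ℕ × NBin) × List (ℕ × NBin)) (β := List (ℕ × NBin))
        (fun q => q.2.2) := PolyF.snd'.snd
    have hus : PolyF (α := α × (ℕ × NBin) × List (ℕ × NBin)) (β := List ℕ) (fun q =>
        (q.2.2.takeWhile (fun p => @BEq.beq ℕ _ p.2 (minLen (c q.1)))).map Prod.fst) :=
      (hL.takeWhile (p := fun q (p : ℕ × NBin) => @BEq.beq ℕ _ p.2 (minLen (c q.1)))
        (polyF_isT PolyF.snd' (ht'.comp PolyF.fst'))).map (h := fun _ (p : ℕ × NBin) => p.1)
        PolyF.snd'.fst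
    refine PolyF.listCases (α := α × (ℕ × NBin) × List (ℕ × NBin)) (β := ℕ × NBin) (γ := VDataB)
      (l := fun q => q.2.2.dropWhile (fun p => @BEq.beq ℕ _ p.2 (minLen (c q.1))))
      (g := fun _ => none)
      (h := fun r : (α × (ℕ × NBin) × List (ℕ × NBin)) × (ℕ × NBin) × List (ℕ × NBin) =>
        some (some (r.1.2.1.1, r.1.2.1.2,
          (r.1.2.2.takeWhile (fun p => @BEq.beq ℕ _ p.2 (minLen (c r.1.1)))).map Prod.fst,
          minLen (c r.1.1), r.2.1.1, r.2.1.2, r.2.2)))
      (hL.dropWhile (p := fun q (p : ℕ × NBin) => @BEq.beq ℕ _ p.2 (minLen (c q.1)))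
        (polyF_isT PolyF.snd' (ht'.comp PolyF.fst'))) (PolyF.const _) ?_ (fun x hx => ?_)
      (fun x p L hx => ?_)
    · exact (PolyF.pair (β := ℕ) PolyF.fst'.snd.fst.fst
        (PolyF.pair (β := NBin) PolyF.fst'.snd.fst.snd
          (PolyF.pair (β := List ℕ) (hus.comp PolyF.fst')
            (PolyF.pair (β := NBin) (ht'.comp PolyF.fst')
              (PolyF.pair (β := ℕ) PolyF.snd'.fst.fst
                (PolyF.pair (β := NBin) PolyF.snd'.fst.snd PolyF.snd'.snd)))))).some.some
    · exact congrArg (viewC _ _ _ _) hx
    · exact congrArg (viewC _ _ _ _) hx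
  · exact congrArg (viewB _) hx
  · exact congrArg (viewB _) hx

end

/-- state of the face processing: next token, cyclic list, slots so far, result -/
abbrev PState : Type := ℕ × List (ℕ × ℕ) × List (List ℕ) × Option Bool

/-- the same with binary lengths -/
abbrev PStateB : Type := ℕ × List (ℕ × NBin) × List (List ℕ) × Option Bool

/-- one step, given the data of the view -/
def pfNext (outer : Bool) (s : PState) : VData → PState
  | none => (s.1, s.2.1, s.2.2.1, some false)
  | some none => bif decide (s.2.1.length % 2 = 0) then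
      (s.1, s.2.1, s.2.2.1 ++ List.replicate
        (bif outer then s.2.1.length / 2 + 1 else s.2.1.length / 2 - 1) (s.2.1.map Prod.fst),
        some true)
      else (s.1, s.2.1, s.2.2.1, some false)
  | some (some (x, a, us, t, u, b, rest)) => bif decide ((us.length + 1) % 2 = 0) then
      (s.1, (x, a + b - t) :: rest,
        s.2.2.1 ++ List.replicate ((us.length + 1) / 2) (us ++ [u]), none)
      else (s.1 + 1, (x, a) :: (s.1, b) :: rest,
        s.2.2.1 ++ List.replicate ((us.length + 2) / 2) (s.1 :: us ++ [u]), none)

/-- one step of the face processing -/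
def pfStep (outer : Bool) (s : PState) : PState :=
  bif s.2.2.2.isSome then s else pfNext outer s (viewT s.2.1)

/-- the result of the processing -/
def pfRes (s : PState) : Option (List (List ℕ) × ℕ) :=
  bif s.2.2.2.getD false then some (s.2.2.1, s.1) else none

theorem pfStep_done (outer : Bool) (s : PState) (h : s.2.2.2.isSome = true) (k : ℕ) :
    (pfStep outer)^[k] s = s := by
  induction k with
  | zero => rfl
  | succ k ih =>
    rw [iterate_succ_apply']
    rw [ih]
    unfold pfStep
    rw [h]
    rfl

theorem pfRes_eq (outer : Bool) (k : ℕ) : ∀ (q : ℕ) (c : List (ℕ × ℕ)) (acc : List (List ℕ)),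
    pfRes ((pfStep outer)^[k] (q, c, acc, none)) =
      (procFace outer k q c).map (fun p => (acc ++ p.1, p.2)) := by
  induction k with
  | zero => intro q c acc; rfl
  | succ k ih =>
    intro q c acc
    rw [iterate_succ_apply]
    have h1 : pfStep outer (q, c, acc, none) = pfNext outer (q, c, acc, none) (viewT c) := rfl
    rw [h1, procFace, view_eq]
    rcases hv : viewT c with _ | _ | ⟨x, a, us, t, u, b, rest⟩
    · rw [pfStep_done _ _ rfl]
      rfl
    · simp only [VData.toView, pfNext]
      by_cases h : c.length % 2 = 0
      · rw [if_pos h, decide_eq_true h, cond_true, pfStep_done _ _ rfl]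
        cases outer <;> rfl
      · rw [if_neg h, decide_eq_false h, cond_false, pfStep_done _ _ rfl]
        rfl
    · simp only [VData.toView, pfNext]
      by_cases h : (us.length + 1) % 2 = 0
      · rw [if_pos h, decide_eq_true h, cond_true, ih]
        rcases procFace outer k q ((x, a + b - t) :: rest) with _ | ⟨L, q'⟩
        · rfl
        · simp
      · rw [if_neg h, decide_eq_false h, cond_false, ih]
        rcases procFace outer k (q + 1) ((x, a) :: (q, b) :: rest) with _ | ⟨L, q'⟩
        · rfl
        · simp

/-! bounds -/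

theorem normRot_perm (t : ℕ) (c : List (ℕ × ℕ)) : (normRot t c).Perm c := by
  unfold normRot
  have h1 : (c.dropWhile (fun p => p.2 == t) ++ c.takeWhile (fun p => p.2 == t)).Perm c := by
    refine List.perm_append_comm.trans ?_
    rw [List.takeWhile_append_dropWhile]
  refine List.Perm.trans ?_ h1
  generalize c.dropWhile (fun p => p.2 == t) ++ c.takeWhile (fun p => p.2 == t) = c1
  simp only
  have h2 : c1.takeWhile (fun p => p.2 != t) ++ c1.dropWhile (fun p => p.2 != t) = c1 :=
    List.takeWhile_append_dropWhile
  refine List.Perm.trans ?_ (List.Perm.of_eq h2)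
  generalize c1.takeWhile (fun p => p.2 != t) = q
  generalize c1.dropWhile (fun p => p.2 != t) = r
  have h3 : (q.drop (q.length - 1) ++ q.take (q.length - 1)).Perm q := by
    refine List.perm_append_comm.trans ?_
    rw [List.take_append_drop]
  refine List.Perm.trans ?_ (List.Perm.append_right r h3)
  rw [List.append_assoc, List.append_assoc]
  exact List.Perm.append_left _ List.perm_append_comm

theorem viewT_perm {c : List (ℕ × ℕ)} {x a : ℕ} {us : List ℕ} {t u b : ℕ} {rest : List (ℕ × ℕ)}
    (h : viewT c = some (some (x, a, us, t, u, b, rest))) :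
    ((x, a) :: (us.map (fun v => (v, t)) ++ (u, b) :: rest)).Perm c := by
  unfold viewT at h
  cases hc : c.all (fun p => p.2 == minLen c)
  · rw [hc, cond_false] at h
    refine List.Perm.trans ?_ (normRot_perm (minLen c) c)
    rcases hr : normRot (minLen c) c with _ | ⟨⟨x', a'⟩, L⟩
    · rw [hr] at h
      simp [viewB] at h
    · rw [hr] at h
      simp only [viewB] at h
      rcases hd : L.dropWhile (fun p => p.2 == minLen c) with _ | ⟨⟨u', b'⟩, rest'⟩
      · rw [hd] at h
        simp [viewC] at h
      · rw [hd] at h
        simp only [viewC, Option.some.injEq, Prod.mk.injEq] at h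
        obtain ⟨rfl, rfl, rfl, rfl, rfl, rfl, rfl⟩ := h
        have h1 : ((L.takeWhile (fun p => p.2 == minLen c)).map Prod.fst).map
            (fun v => (v, minLen c)) = L.takeWhile (fun p => p.2 == minLen c) := by
          rw [List.map_map]
          conv_rhs => rw [← List.map_id (L.takeWhile (fun p => p.2 == minLen c))]
          refine List.map_congr_left fun p hp => ?_
          have := List.mem_takeWhile_imp hp
          simp only [beq_iff_eq] at this
          exact Prod.ext rfl this.symm
        rw [h1, ← hd, List.takeWhile_append_dropWhile]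
  · rw [hc, cond_true] at h
    simp at h

/-- size bounds for the states: `n` = length, `S` = sum of the lengths, `T` = tokens,
`i` = number of steps -/
structure PBound (n S T i : ℕ) (s : PState) : Prop where
  len : s.2.1.length ≤ n
  sum : (s.2.1.map Prod.snd).sum ≤ S
  tok : ∀ p ∈ s.2.1, p.1 ≤ T + i
  nxt : s.1 ≤ T + i
  slots : s.2.2.1.length ≤ i * (n + 1)
  slen : ∀ l ∈ s.2.2.1, l.length ≤ n + 1
  stok : ∀ l ∈ s.2.2.1, ∀ x ∈ l, x ≤ T + i

theorem PBound.step {n S T i : ℕ} {s : PState} (h : PBound n S T i s) (outer : Bool) :
    PBound n S T (i + 1) (pfStep outer s) := by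
  have hmono : PBound n S T (i + 1) s :=
    ⟨h.len, h.sum, fun p hp => (h.tok p hp).trans (by omega), h.nxt.trans (by omega),
      h.slots.trans (Nat.mul_le_mul_right _ (by omega)), h.slen,
      fun l hl x hx => (h.stok l hl x hx).trans (by omega)⟩
  have hmul : (i + 1) * (n + 1) = i * (n + 1) + (n + 1) := by ring
  unfold pfStep
  cases hs : s.2.2.2.isSome
  · rw [cond_false]
    rcases hv : viewT s.2.1 with _ | _ | ⟨x, a, us, t, u, b, rest⟩
    · exact ⟨hmono.len, hmono.sum, hmono.tok, hmono.nxt, hmono.slots, hmono.slen, hmono.stok⟩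
    · simp only [pfNext]
      have hlen := h.len
      by_cases hd : s.2.1.length % 2 = 0
      · rw [decide_eq_true hd, cond_true]
        refine ⟨hmono.len, hmono.sum, hmono.tok, hmono.nxt, ?_, ?_, ?_⟩
        · have h2 := h.slots
          simp only [List.length_append, List.length_replicate]
          cases outer
          · simp only [cond_false]; omega
          · simp only [cond_true]; omega
        · intro l hl
          rcases List.mem_append.1 hl with hl | hl
          · exact h.slen l hl
          · rw [List.eq_of_mem_replicate hl, List.length_map]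
            omega
        · intro l hl y hy
          rcases List.mem_append.1 hl with hl | hl
          · exact hmono.stok l hl y hy
          · rw [List.eq_of_mem_replicate hl] at hy
            obtain ⟨p, hp, rfl⟩ := List.mem_map.1 hy
            exact hmono.tok p hp
      · rw [decide_eq_false hd, cond_false]
        exact ⟨hmono.len, hmono.sum, hmono.tok, hmono.nxt, hmono.slots, hmono.slen, hmono.stok⟩
    · have hp := viewT_perm hv
      have hl := hp.length_eq
      have hsum := (hp.map Prod.snd).sum_eq
      simp only [List.length_cons, List.length_append, List.length_map] at hl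
      simp only [List.map_cons, List.map_append, List.sum_cons, List.sum_append] at hsum
      have hmem : ∀ p, p ∈ (x, a) :: (us.map (fun v => (v, t)) ++ (u, b) :: rest) → p.1 ≤ T + i :=
        fun p hp' => h.tok p (hp.mem_iff.1 hp')
      have hx : x ≤ T + i := hmem (x, a) (by simp)
      have hu : u ≤ T + i := hmem (u, b) (by simp)
      have hus : ∀ v ∈ us, v ≤ T + i := fun v hv' => hmem (v, t) (by simp [hv'])
      have hrest : ∀ p ∈ rest, p.1 ≤ T + i := fun p hp' => hmem p (by simp [hp'])
      have h1 := h.len
      have h2 := h.sum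
      have h3 := h.slots
      have h4 := h.nxt
      simp only [pfNext]
      by_cases hd : (us.length + 1) % 2 = 0
      · rw [decide_eq_true hd, cond_true]
        refine ⟨?_, ?_, ?_, ?_, ?_, ?_, ?_⟩
        · simp only [List.length_cons]; omega
        · simp only [List.map_cons, List.sum_cons]; omega
        · intro p hp'
          rcases List.mem_cons.1 hp' with rfl | hp'
          · simp only; omega
          · have := hrest p hp'; omega
        · simp only; omega
        · simp only [List.length_append, List.length_replicate]; omega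
        · intro l hl'
          rcases List.mem_append.1 hl' with hl' | hl'
          · exact h.slen l hl'
          · rw [List.eq_of_mem_replicate hl']
            simp only [List.length_append, List.length_cons, List.length_nil]
            omega
        · intro l hl' y hy
          rcases List.mem_append.1 hl' with hl' | hl'
          · exact hmono.stok l hl' y hy
          · rw [List.eq_of_mem_replicate hl'] at hy
            rcases List.mem_append.1 hy with hy | hy
            · have := hus y hy; omega
            · have := List.mem_singleton.1 hy; omega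
      · rw [decide_eq_false hd, cond_false]
        refine ⟨?_, ?_, ?_, ?_, ?_, ?_, ?_⟩
        · simp only [List.length_cons]; omega
        · simp only [List.map_cons, List.sum_cons]; omega
        · intro p hp'
          rcases List.mem_cons.1 hp' with rfl | hp'
          · simp only; omega
          rcases List.mem_cons.1 hp' with rfl | hp'
          · simp only; omega
          · have := hrest p hp'; omega
        · simp only; omega
        · simp only [List.length_append, List.length_replicate]; omega
        · intro l hl'
          rcases List.mem_append.1 hl' with hl' | hl'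
          · exact h.slen l hl'
          · rw [List.eq_of_mem_replicate hl']
            simp only [List.length_append, List.length_cons, List.length_nil, List.cons_append]
            omega
        · intro l hl' y hy
          rcases List.mem_append.1 hl' with hl' | hl'
          · exact hmono.stok l hl' y hy
          · rw [List.eq_of_mem_replicate hl'] at hy
            rcases List.mem_append.1 hy with hy | hy
            · rcases List.mem_cons.1 hy with rfl | hy
              · omega
              · have := hus y hy; omega
            · have := List.mem_singleton.1 hy; omega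
  · rw [cond_true]
    exact hmono

theorem PBound.iterate {n S T : ℕ} {s : PState} (h : PBound n S T 0 s) (outer : Bool) (k : ℕ) :
    PBound n S T k ((pfStep outer)^[k] s) := by
  induction k with
  | zero => exact h
  | succ k ih => rw [iterate_succ_apply']; exact ih.step outer

section

variable {α : Type*} [TEnc α]

theorem polyF_pfNext {outer : α → Bool} {s : α → PStateB} {v : α → VDataB} (ho : PolyF outer)
    (hs : PolyF s) (hv : PolyF v) :
    PolyF (α := α) (β := PStateB) (fun x => pfNext (outer x) (s x) (v x)) := by
  refine PolyF.optionCases (α := α) (γ := PStateB) (o := v)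
    (g := fun x => ((s x).1, (s x).2.1, (s x).2.2.1, some false))
    (h := fun q : α × Option (ℕ × NBin × List ℕ × NBin × ℕ × NBin × List (ℕ × NBin)) =>
      pfNext (outer q.1) (s q.1) (some q.2)) hv
    (hs.fst.pair (hs.snd.fst.pair (hs.snd.snd.fst.pair (PolyF.const (some false))))) ?_
    (fun x hx => ?_) (fun x b hx => ?_)
  · have hs1 : PolyF (fun q : α × Option (ℕ × NBin × List ℕ × NBin × ℕ × NBin ×
        List (ℕ × NBin)) => s q.1) := hs.comp PolyF.fst'
    have ho1 : PolyF (fun q : α × Option (ℕ × NBin × List ℕ × NBin × ℕ × NBin ×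
        List (ℕ × NBin)) => outer q.1) := ho.comp PolyF.fst'
    refine PolyF.optionCases (γ := PStateB)
      (o := fun q : α × Option (ℕ × NBin × List ℕ × NBin × ℕ × NBin × List (ℕ × NBin)) => q.2)
      (g := fun q => bif decide ((s q.1).2.1.length % 2 = 0) then
        ((s q.1).1, (s q.1).2.1, (s q.1).2.2.1 ++ List.replicate
          (bif outer q.1 then (s q.1).2.1.length / 2 + 1 else (s q.1).2.1.length / 2 - 1)
          ((s q.1).2.1.map Prod.fst), some true)
        else ((s q.1).1, (s q.1).2.1, (s q.1).2.2.1, some false))
      (h := fun r : (α × Option (ℕ × NBin × List ℕ × NBin × ℕ × NBin × List (ℕ × NBin))) ×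
          (ℕ × NBin × List ℕ × NBin × ℕ × NBin × List (ℕ × NBin)) =>
        bif decide ((r.2.2.2.1.length + 1) % 2 = 0) then
          ((s r.1.1).1, (r.2.1, @HSub.hSub ℕ ℕ ℕ instHSub (@HAdd.hAdd ℕ ℕ ℕ instHAdd
              r.2.2.1 r.2.2.2.2.2.2.1) r.2.2.2.2.1) :: r.2.2.2.2.2.2.2,
            (s r.1.1).2.2.1 ++ List.replicate ((r.2.2.2.1.length + 1) / 2)
              (r.2.2.2.1 ++ [r.2.2.2.2.2.1]), none)
          else ((s r.1.1).1 + 1, (r.2.1, r.2.2.1) ::
            ((s r.1.1).1, r.2.2.2.2.2.2.1) :: r.2.2.2.2.2.2.2,
            (s r.1.1).2.2.1 ++ List.replicate ((r.2.2.2.1.length + 2) / 2)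
              ((s r.1.1).1 :: r.2.2.2.1 ++ [r.2.2.2.2.2.1]), none))
      PolyF.snd' ?_ ?_ (fun x hx => ?_) (fun x b hx => ?_)
    · have hl := hs1.snd.fst.length
      have h2 := hl.natDiv (PolyF.const 2)
      exact PolyF.cond ((hl.natMod (PolyF.const 2)).natEq (PolyF.const 0))
        (hs1.fst.pair (hs1.snd.fst.pair ((hs1.snd.snd.fst.append (polyF_replicate
          (PolyF.cond ho1 h2.succ h2.pred)
          (hs1.snd.fst.map (h := fun _ (p : ℕ × NBin) => p.1) PolyF.snd'.fst))).pair
          (PolyF.const (some true)))))
        (hs1.fst.pair (hs1.snd.fst.pair (hs1.snd.snd.fst.pair (PolyF.const (some false)))))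
    · have hs2 : PolyF (fun r : (α × Option (ℕ × NBin × List ℕ × NBin × ℕ × NBin ×
          List (ℕ × NBin))) × (ℕ × NBin × List ℕ × NBin × ℕ × NBin × List (ℕ × NBin)) =>
          s r.1.1) := hs.comp PolyF.fst'.fst
      have hr : PolyF (fun r : (α × Option (ℕ × NBin × List ℕ × NBin × ℕ × NBin ×
          List (ℕ × NBin))) × (ℕ × NBin × List ℕ × NBin × ℕ × NBin × List (ℕ × NBin)) =>
          r.2) := PolyF.snd'
      have hx := hr.fst
      have ha := hr.snd.fst
      have hus := hr.snd.snd.fst
      have ht := hr.snd.snd.snd.fst
      have hu := hr.snd.snd.snd.snd.fst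
      have hb := hr.snd.snd.snd.snd.snd.fst
      have hrest := hr.snd.snd.snd.snd.snd.snd
      refine PolyF.cond (β := PStateB) ((hus.length.succ.natMod (PolyF.const 2)).natEq
        (PolyF.const 0)) ?_ ?_
      · refine PolyF.pair (β := ℕ) (γ := List (ℕ × NBin) × List (List ℕ) × Option Bool) hs2.fst
          (PolyF.pair (β := List (ℕ × NBin)) (γ := List (List ℕ) × Option Bool) ?_
            ((hs2.snd.snd.fst.append (polyF_replicate
              (hus.length.succ.natDiv (PolyF.const 2)) (hus.append hu.singleton))).pair
              (PolyF.const none)))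
        refine PolyF.cons (β := ℕ × NBin) (PolyF.pair (β := ℕ) (γ := NBin) hx ?_) hrest
        exact PolyF.nbSub (PolyF.nbAdd ha hb) ht
      · exact PolyF.pair (β := ℕ) (γ := List (ℕ × NBin) × List (List ℕ) × Option Bool)
          hs2.fst.succ
          (PolyF.pair (β := List (ℕ × NBin)) (γ := List (List ℕ) × Option Bool)
            (PolyF.cons (β := ℕ × NBin) (PolyF.pair (β := ℕ) (γ := NBin) hx ha)
              (PolyF.cons (β := ℕ × NBin) (PolyF.pair (β := ℕ) (γ := NBin) hs2.fst hb) hrest))
            ((hs2.snd.snd.fst.append (polyF_replicate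
              (hus.length.succ.succ.natDiv (PolyF.const 2))
              (PolyF.append (PolyF.cons hs2.fst hus) hu.singleton))).pair
              (PolyF.const none)))
    · exact congrArg (fun o => pfNext (outer x.1) (s x.1) (some o)) hx
    · exact congrArg (fun o => pfNext (outer x.1) (s x.1) (some o)) hx
  · exact congrArg (fun o => pfNext (outer x) (s x) o) hx
  · exact congrArg (fun o => pfNext (outer x) (s x) o) hx

theorem polyF_pfStep {outer : α → Bool} {s : α → PStateB} (ho : PolyF outer) (hs : PolyF s) :
    PolyF (α := α) (β := PStateB) (fun x => pfStep (outer x) (s x)) :=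
  PolyF.cond (β := PStateB) hs.snd.snd.snd.isSome hs
    (polyF_pfNext ho hs (polyF_viewT hs.snd.fst))

end

end Pool.Agent.FlatFold.PT
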