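import Pool.Agent.Lib.MP_b92007_lc.PolyOrbit

/-! Task P4: the computation of the levels runs in polynomial time. -/

set_option linter.unusedSimpArgs false

namespace Pool.Agent.FlatFold.PT

open Pool.Agent.Lib.PolyTime Function

/-- partial level functions with binary numbers -/
abbrev LevB : Type := List (Option (Bool × NBin × NBin))

/-- the rule to propagate a level along an edge -/
def levRule (p : ℕ × ℕ) (x : Bool × ℕ × ℕ) : Bool × ℕ × ℕ :=
  (!x.1, if x.1 then x.2.1 + p.2 else x.2.1, if x.1 then x.2.2 else x.2.2 + p.2)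

/-- the new entry of a vertex -/
def levVal (l : List (ℕ × ℕ)) (s : Lev) (o : Option (Bool × ℕ × ℕ)) : Option (Bool × ℕ × ℕ) :=
  match o with
  | some x => some x
  | none => l.findSome? (fun p => (s.getD p.1 none).map (levRule p))

theorem levStep_eq (A : List (List (ℕ × ℕ))) (s : Lev) :
    levStep A s = (List.range A.length).map (fun v => levVal (A.getD v []) s (s.getD v none)) :=
  rfl

section

variable {α : Type*} [TEnc α]

theorem polyF_levRule {p : α → ℕ × NBin} {x : α → Bool × NBin × NBin} (hp : PolyF p)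
    (hx : PolyF x) : PolyF (α := α) (β := Bool × NBin × NBin) (fun a => levRule (p a) (x a)) := by
  refine PolyF.pair (β := Bool) (γ := NBin × NBin) hx.fst.not
    (PolyF.pair (β := NBin) (γ := NBin) ?_ ?_)
  · exact PolyF.iteBool (β := NBin) hx.fst (hx.snd.fst.nbAdd hp.snd) hx.snd.fst
  · exact PolyF.iteBool (β := NBin) hx.fst hx.snd.snd (hx.snd.snd.nbAdd hp.snd)

theorem polyF_levGet {s : α → LevB} {n : α → ℕ} (hs : PolyF s) (hn : PolyF n) :
    PolyF (α := α) (β := Option (Bool × NBin × NBin)) (fun a => (s a).getD (n a) none) :=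
  polyF_getD_gen hn hs (PolyF.const none)

theorem polyF_levVal {l : α → List (ℕ × NBin)} {s : α → LevB}
    {o : α → Option (Bool × NBin × NBin)} (hl : PolyF l) (hs : PolyF s) (ho : PolyF o) :
    PolyF (α := α) (β := Option (Bool × NBin × NBin)) (fun a => levVal (l a) (s a) (o a)) := by
  have h1 : PolyF (α := α) (β := Option (Bool × NBin × NBin)) (fun a =>
      (l a).findSome? (fun p => ((s a).getD p.1 none).map (levRule p))) := by
    refine hl.findSome? (h := fun a (p : ℕ × NBin) =>
      (((s a).getD p.1 none).map (levRule p) : Option (Bool × NBin × NBin))) ?_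
    exact PolyF.optionMap (β := Bool × NBin × NBin) (γ := Bool × NBin × NBin)
      (h := fun (q : α × (ℕ × NBin)) (x : Bool × NBin × NBin) => levRule q.2 x)
      (polyF_levGet (hs.comp PolyF.fst') PolyF.snd'.fst) (polyF_levRule PolyF.fst'.snd PolyF.snd')
  refine PolyF.optionCases (o := o) (g := fun a =>
      (l a).findSome? (fun p => ((s a).getD p.1 none).map (levRule p)))
    (h := fun q : α × (Bool × NBin × NBin) => some q.2) ho h1 PolyF.snd'.some ?_ ?_
  · intro a ha
    show levVal (l a) (s a) (o a) = _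
    rw [ha]
    rfl
  · intro a b ha
    show levVal (l a) (s a) (o a) = _
    rw [ha]
    rfl

theorem polyF_levStep {A : α → AdjB} {s : α → LevB} (hA : PolyF A) (hs : PolyF s) :
    PolyF (α := α) (β := LevB) (fun a => levStep (A a) (s a)) := by
  have h : PolyF (α := α) (β := LevB) (fun a => (List.range (A a).length).map
      (fun v => levVal ((A a).getD v []) (s a) ((s a).getD v none))) :=
    hA.length.range.map (γ := Option (Bool × NBin × NBin)) (h := fun a v =>
      levVal ((A a).getD v []) (s a) ((s a).getD v none))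
      (polyF_levVal (polyF_getD_gen PolyF.snd' (hA.comp PolyF.fst') (PolyF.const []))
        (hs.comp PolyF.fst') (polyF_levGet (hs.comp PolyF.fst') PolyF.snd'))
  exact h

theorem polyF_levInit {A : α → AdjB} (hA : PolyF A) :
    PolyF (α := α) (β := LevB) (fun a => levInit (A a)) :=
  hA.length.range.map (h := fun _ v =>
    (if v = 0 then some ((true, 0, 0) : Bool × ℕ × ℕ) else none : Option (Bool × NBin × NBin)))
    (PolyF.ite (PolyF.snd'.natEq (PolyF.const 0)) (PolyF.const _) (PolyF.const _))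

end

/-- The numbers in a partial level function are below `2 ^ m`. -/
def LevBd (m : ℕ) (s : Lev) : Prop :=
  ∀ x, some x ∈ s → x.2.1 < 2 ^ m ∧ x.2.2 < 2 ^ m

theorem levBd_getD {m : ℕ} {s : Lev} (h : LevBd m s) {v : ℕ} {x : Bool × ℕ × ℕ}
    (hx : s.getD v none = some x) : x.2.1 < 2 ^ m ∧ x.2.2 < 2 ^ m := by
  rw [List.getD_eq_getElem?_getD] at hx
  rcases hv : s[v]? with _ | o
  · rw [hv] at hx
    simp at hx
  · rw [hv] at hx
    have : o = some x := hx
    subst this
    exact h x (List.mem_of_getElem? hv)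

theorem len_lt {A : AdjB} {l : List (ℕ × ℕ)} {p : ℕ × ℕ} (hl : l ∈ (A : List (List (ℕ × ℕ))))
    (hp : p ∈ l) : p.2 < 2 ^ sz A := by
  have h2 : 1 + sz (α := ℕ × NBin) p ≤ sz (α := List (ℕ × NBin)) l := sz_mem hp
  have h3 : 1 + sz (α := List (ℕ × NBin)) l ≤ sz A := sz_mem hl
  have h4 : sz (α := ℕ × NBin) p = 1 + sz p.1 + sz (α := NBin) p.2 := rfl
  have h5 := size_le_sz_nbin p.2
  exact (Nat.lt_size_self p.2).trans_le (Nat.pow_le_pow_right (by norm_num) (by omega))

theorem levBd_step {A : List (List (ℕ × ℕ))} {m : ℕ} {s : Lev}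
    (hA : ∀ l ∈ A, ∀ p ∈ l, p.2 < 2 ^ m) (h : LevBd m s) : LevBd (m + 1) (levStep A s) := by
  have hpow : 2 ^ (m + 1) = 2 ^ m + 2 ^ m := by rw [pow_succ]; ring
  intro x hx
  rw [levStep_eq] at hx
  obtain ⟨v, -, hv⟩ := List.mem_map.1 hx
  rcases ho : s.getD v none with _ | y
  · rw [ho] at hv
    have hv' : (A.getD v []).findSome? (fun p => (s.getD p.1 none).map (levRule p)) = some x := hv
    obtain ⟨p, hp, hpx⟩ := List.exists_of_findSome?_eq_some hv'
    obtain ⟨y, hy, rfl⟩ := Option.map_eq_some_iff.1 hpx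
    obtain ⟨h1, h2⟩ := levBd_getD h hy
    have hlt : p.2 < 2 ^ m := by
      rw [List.getD_eq_getElem?_getD] at hp
      rcases hu : A[v]? with _ | l
      · rw [hu] at hp
        simp at hp
      · rw [hu] at hp
        exact hA l (List.mem_of_getElem? hu) p hp
    simp only [levRule]
    constructor <;> split_ifs <;> omega
  · rw [ho] at hv
    have : y = x := by simpa [levVal] using hv
    subst this
    obtain ⟨h1, h2⟩ := levBd_getD h ho
    omega

theorem levBd_iterate (A : List (List (ℕ × ℕ))) (m : ℕ) (hA : ∀ l ∈ A, ∀ p ∈ l, p.2 < 2 ^ m)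
    (k : ℕ) : LevBd (m + k) ((levStep A)^[k] (levInit A)) ∧
      ((levStep A)^[k] (levInit A)).length = A.length := by
  induction k with
  | zero =>
    refine ⟨fun x hx => ?_, by simp [levInit]⟩
    obtain ⟨v, -, hv⟩ := List.mem_map.1 hx
    split_ifs at hv with h0
    have : x = (true, 0, 0) := by simpa using hv.symm
    subst this
    simp
  | succ k ih =>
    rw [iterate_succ_apply']
    refine ⟨levBd_step (fun l hl p hp => (hA l hl p hp).trans_le
      (Nat.pow_le_pow_right (by norm_num) (Nat.le_add_right _ _))) ih.1, ?_⟩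
    rw [levStep_eq]
    simp

theorem sz_lev {m : ℕ} {s : Lev} (h : LevBd m s) : sz (α := LevB) s ≤ (4 * m + 5) * s.length := by
  refine sz_le_of_forall (α := Option (Bool × NBin × NBin)) (M := 4 * m + 4) fun o ho => ?_
  rcases o with _ | x
  · simp
  · obtain ⟨h1, h2⟩ := h x ho
    have e1 := sz_nbin_le x.2.1
    have e2 := sz_nbin_le x.2.2
    have e3 := sz_bool_le x.1
    have e4 : Nat.size x.2.1 ≤ m := Nat.size_le.2 h1
    have e5 : Nat.size x.2.2 ≤ m := Nat.size_le.2 h2
    have e6 : sz (α := Option (Bool × NBin × NBin)) (some x) =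
      1 + (1 + sz x.1 + (1 + sz (α := NBin) x.2.1 + sz (α := NBin) x.2.2)) := rfl
    rw [e6]
    omega

section

variable {α : Type*} [TEnc α]

theorem polyF_levL {A : α → AdjB} (hA : PolyF A) :
    PolyF (α := α) (β := LevB) (fun a => levL (A a)) := by
  refine PolyF.natIterate (γ := LevB) (n := fun a => (A a).length)
    (f := fun a s => levStep (A a) s) (g := fun a => levInit (A a)) hA.length
    (polyF_levStep (hA.comp PolyF.fst') PolyF.snd') (polyF_levInit hA) ?_
  obtain ⟨B, hB⟩ := hA.pbd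
  refine ⟨(4 * (2 * B) + 5) * B, fun a k hk => ?_⟩
  have h1 : sz (A a) ≤ B.eval (sz a) := hB a
  have h2 : (A a).length ≤ sz (A a) := length_le_sz (A a)
  obtain ⟨b1, b2⟩ := levBd_iterate (A a) (sz (A a)) (fun l hl p hp => len_lt hl hp) k
  have b3 := sz_lev b1
  refine b3.trans ?_
  simp only [Polynomial.eval_add, Polynomial.eval_mul, Polynomial.eval_ofNat]
  exact Nat.mul_le_mul (by omega) (by rw [b2]; exact h2.trans h1)

/-- The check of one dart, given the entries of its ends. -/
def levCheck2 (n : ℕ) (ox oy : Option (Bool × ℕ × ℕ)) : Bool :=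
  match ox, oy with
  | some x, some y => (y.1 == !x.1) && (!x.1 || decide (y.2.1 + x.2.2 = x.2.1 + n + y.2.2))
  | _, _ => false

omit [TEnc α] in
theorem levCheck_eq (A : List (List (ℕ × ℕ))) (s : Lev) (d : ℕ × ℕ) :
    levCheck A s d = levCheck2 (lenL A d) (s.getD d.1 none) (s.getD d.2 none) := by
  unfold levCheck levCheck2
  cases s.getD d.1 none <;> cases s.getD d.2 none <;> rfl

theorem polyF_levCheck2 {n : α → NBin} {ox oy : α → Option (Bool × NBin × NBin)} (hn : PolyF n)
    (hx : PolyF ox) (hy : PolyF oy) : PolyF (fun a => levCheck2 (n a) (ox a) (oy a)) := by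
  refine PolyF.optionCases (o := ox) (g := fun _ => false)
    (h := fun q : α × (Bool × NBin × NBin) => levCheck2 (n q.1) (some q.2) (oy q.1)) hx
    (PolyF.const false) ?_ (fun a ha => ?_) (fun a x ha => ?_)
  · refine PolyF.optionCases (o := fun q : α × (Bool × NBin × NBin) => oy q.1)
      (g := fun _ => false)
      (h := fun r : (α × (Bool × NBin × NBin)) × (Bool × NBin × NBin) =>
        (r.2.1 == !r.1.2.1) &&
          (!r.1.2.1 || @decide (@Eq ℕ (@HAdd.hAdd ℕ ℕ ℕ instHAdd r.2.2.1 r.1.2.2.2)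
            (@HAdd.hAdd ℕ ℕ ℕ instHAdd (@HAdd.hAdd ℕ ℕ ℕ instHAdd r.1.2.2.1
              (n r.1.1)) r.2.2.2)) (instDecidableEqNat _ _)))
      (hy.comp PolyF.fst') (PolyF.const false) ?_ (fun q hq => ?_) (fun q y hq => ?_)
    · refine (PolyF.snd'.fst.beq PolyF.fst'.snd.fst.not).and (PolyF.fst'.snd.fst.not.or ?_)
      exact PolyF.nbEq (f := fun r : (α × (Bool × NBin × NBin)) × (Bool × NBin × NBin) =>
          @HAdd.hAdd ℕ ℕ ℕ instHAdd r.2.2.1 r.1.2.2.2)
        (PolyF.snd'.snd.fst.nbAdd PolyF.fst'.snd.snd.snd)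
        (PolyF.nbAdd (f := fun r : (α × (Bool × NBin × NBin)) × (Bool × NBin × NBin) =>
            @HAdd.hAdd ℕ ℕ ℕ instHAdd r.1.2.2.1 (n r.1.1))
          (PolyF.fst'.snd.snd.fst.nbAdd (hn.comp PolyF.fst'.fst)) PolyF.snd'.snd.snd)
    · exact (congrArg (fun o => levCheck2 (n q.1) (some q.2) o) hq).trans rfl
    · exact (congrArg (fun o => levCheck2 (n q.1) (some q.2) o) hq).trans rfl
  · refine (congrArg (fun o => levCheck2 (n a) o (oy a)) ha).trans ?_
    cases oy a <;> rfl
  · exact congrArg (fun o => levCheck2 (n a) o (oy a)) ha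

theorem polyF_levCheck {A : α → AdjB} {s : α → LevB} {d : α → ℕ × ℕ} (hA : PolyF A)
    (hs : PolyF s) (hd : PolyF d) : PolyF (fun a => levCheck (A a) (s a) (d a)) :=
  (polyF_levCheck2 (polyF_lenL hA hd) (polyF_levGet hs hd.fst) (polyF_levGet hs hd.snd)).congr
    fun a => (levCheck_eq (A a) (s a) (d a)).symm

theorem polyF_levOK {A : α → AdjB} (hA : PolyF A) : PolyF (fun a => levOK (A a)) :=
  (polyF_dartsL hA).all (p := fun a d => levCheck (A a) (levL (A a)) d)
    (polyF_levCheck (hA.comp PolyF.fst') ((polyF_levL hA).comp PolyF.fst') PolyF.snd')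

end

end Pool.Agent.FlatFold.PT
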