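import Pool.Agent.Lib.MP_b92007_lc.AlgoDefs
import Pool.Agent.Lib.PolyTime.NatBin

/-! Task P1: the list functions of the algorithm run in polynomial time. -/

set_option linter.unusedSimpArgs false

namespace Pool.Agent.FlatFold.PT

open Pool.Agent.Lib.PolyTime Function

/-- adjacency lists with binary lengths -/
abbrev AdjB : Type := List (List (ℕ × NBin))

section

variable {α β γ : Type*} [TEnc α] [TEnc β] [TEnc γ]

theorem polyF_getD_gen {n : α → ℕ} {l : α → List β} {d : α → β} (hn : PolyF n) (hl : PolyF l)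
    (hd : PolyF d) : PolyF (fun x => (l x).getD (n x) (d x)) :=
  ((hn.getElem? hl).getD hd).congr fun x => by rw [List.getD_eq_getElem?_getD]

theorem polyF_nbrL {A : α → AdjB} {u : α → ℕ} (hA : PolyF A) (hu : PolyF u) :
    PolyF (α := α) (β := List ℕ) (fun x => nbrL (A x) (u x)) :=
  (polyF_getD_gen hu hA (PolyF.const [])).map (h := fun _ (p : ℕ × NBin) => p.1) PolyF.snd'.fst

theorem polyF_dartsL {A : α → AdjB} (hA : PolyF A) :
    PolyF (α := α) (β := List (ℕ × ℕ)) (fun x => dartsL (A x)) :=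
  hA.length.range.flatMap (h := fun x u => (nbrL (A x) u).map (fun v => (u, v)))
    ((polyF_nbrL (hA.comp PolyF.fst') PolyF.snd').map (h := fun (q : α × ℕ) v => (q.2, v))
      (PolyF.fst'.snd.pair PolyF.snd'))

theorem polyF_lenL {A : α → AdjB} {d : α → ℕ × ℕ} (hA : PolyF A) (hd : PolyF d) :
    PolyF (α := α) (β := NBin) (fun x => lenL (A x) (d x)) :=
  ((PolyF.lookup (β := ℕ) (γ := NBin) hd.snd (polyF_getD_gen hd.fst hA (PolyF.const []))).getD
    (PolyF.nbConst 0))

theorem polyF_getLastD {l : α → List β} {d : α → β} (hl : PolyF l) (hd : PolyF d) :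
    PolyF (fun x => (l x).getLastD (d x)) :=
  (hl.getLast?.getD hd).congr fun x => by rw [List.getLastD_eq_getLast?]

theorem polyF_prevL {l : α → List ℕ} {u : α → ℕ} (hl : PolyF l) (hu : PolyF u) :
    PolyF (fun x => prevL (l x) (u x)) :=
  (hu.lookup (hl.zip ((polyF_getLastD hl (PolyF.const 0)).cons hl))).getD (PolyF.const 0)

theorem polyF_nextL {A : α → AdjB} {d : α → ℕ × ℕ} (hA : PolyF A) (hd : PolyF d) :
    PolyF (α := α) (β := ℕ × ℕ) (fun x => nextL (A x) (d x)) :=
  hd.snd.pair (polyF_prevL (polyF_nbrL hA hd.snd) hd.fst)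

theorem polyF_orbStep {A : α → AdjB} {d : α → ℕ × ℕ}
    {s : α → List (ℕ × ℕ) × (ℕ × ℕ) × Bool} (hA : PolyF A) (hd : PolyF d) (hs : PolyF s) :
    PolyF (α := α) (β := List (ℕ × ℕ) × (ℕ × ℕ) × Bool) (fun x => orbStep (A x) (d x) (s x)) := by
  have hn := polyF_nextL hA hs.snd.fst
  exact PolyF.iteBool hs.snd.snd hs ((hs.snd.fst.cons hs.fst).pair (hn.pair (hn.eq hd)))

theorem lookup_mem {l : List (ℕ × ℕ)} {u v : ℕ} (h : l.lookup u = some v) : (u, v) ∈ l := by
  induction l with
  | nil => simp at h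
  | cons p l ih =>
    obtain ⟨a, b⟩ := p
    rw [List.lookup_cons] at h
    by_cases hu : u = a
    · subst hu
      simp at h
      subst h
      simp
    · rw [beq_false_of_ne hu] at h
      exact List.mem_cons_of_mem _ (ih h)

theorem prevL_le {l : List ℕ} {u M : ℕ} (h : ∀ v ∈ l, v ≤ M) : prevL l u ≤ M := by
  unfold prevL
  rcases hx : (l.zip (l.getLastD 0 :: l)).lookup u with _ | v
  · simp
  · have h1 := List.of_mem_zip (lookup_mem hx)
    simp only [Option.getD_some]
    rcases List.mem_cons.1 h1.2 with h2 | h2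
    · rw [h2, List.getLastD_eq_getLast?]
      rcases hl : l.getLast? with _ | w
      · simp
      · exact h w (List.mem_of_getLast? hl)
    · exact h v h2

theorem nbrL_mem {A : List (List (ℕ × ℕ))} {u v : ℕ} (h : v ∈ nbrL A u) :
    ∃ l ∈ A, ∃ w, (v, w) ∈ l := by
  unfold nbrL at h
  obtain ⟨p, hp, rfl⟩ := List.mem_map.1 h
  rw [List.getD_eq_getElem?_getD] at hp
  rcases hu : A[u]? with _ | l
  · rw [hu] at hp
    simp at hp
  · rw [hu] at hp
    exact ⟨l, List.mem_of_getElem? hu, p.2, hp⟩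

theorem nbrL_le {A : AdjB} {u v : ℕ} (h : v ∈ nbrL A u) : v ≤ sz A := by
  obtain ⟨l, hl, w, hw⟩ := nbrL_mem h
  have h2 : 1 + sz (α := ℕ × NBin) (v, w) ≤ sz (α := List (ℕ × NBin)) l := sz_mem hw
  have h3 : 1 + sz (α := List (ℕ × NBin)) l ≤ sz A := sz_mem hl
  have h4 : sz (α := ℕ × NBin) (v, w) = 1 + sz v + sz (α := NBin) w := rfl
  have h5 : sz v = v := sz_nat _
  omega

/-- The states of the orbit computation stay small. -/
theorem orbStep_bound (A : AdjB) (d : ℕ × ℕ) (M : ℕ) (hA : sz A ≤ M) (h1 : d.1 ≤ M) (h2 : d.2 ≤ M)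
    (k : ℕ) : (∀ e ∈ ((orbStep A d)^[k] ([], d, false)).1, e.1 ≤ M ∧ e.2 ≤ M) ∧
      ((orbStep A d)^[k] ([], d, false)).1.length ≤ k ∧
      ((orbStep A d)^[k] ([], d, false)).2.1.1 ≤ M ∧
      ((orbStep A d)^[k] ([], d, false)).2.1.2 ≤ M := by
  induction k with
  | zero => exact ⟨by simp, by simp, h1, h2⟩
  | succ k ih =>
    rw [iterate_succ_apply']
    obtain ⟨i1, i2, i3, i4⟩ := ih
    generalize (orbStep A d)^[k] ([], d, false) = s at *
    unfold orbStep
    split_ifs with h
    · exact ⟨i1, by omega, i3, i4⟩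
    · refine ⟨?_, by simp only [List.length_cons]; omega, i4, ?_⟩
      · intro e he
        rcases List.mem_cons.1 he with rfl | he
        · exact ⟨i3, i4⟩
        · exact i1 e he
      · exact (prevL_le (M := M) fun v hv => (nbrL_le hv).trans hA)

theorem polyF_orbitL {A : α → AdjB} {d : α → ℕ × ℕ} (hA : PolyF A) (hd : PolyF d) :
    PolyF (α := α) (β := List (ℕ × ℕ)) (fun x => orbitL (A x) (d x)) := by
  have hn : PolyF (fun x => (dartsL (A x)).length) := (polyF_dartsL hA).length
  have hi : PolyF (α := α) (β := List (ℕ × ℕ) × (ℕ × ℕ) × Bool) (fun x =>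
      (orbStep (A x) (d x))^[(dartsL (A x)).length] ([], d x, false)) := by
    refine PolyF.natIterate (n := fun x => (dartsL (A x)).length)
      (f := fun x s => orbStep (A x) (d x) s) (g := fun x => (([] : List (ℕ × ℕ)), d x, false)) hn
      (polyF_orbStep (hA.comp PolyF.fst') (hd.comp PolyF.fst') PolyF.snd')
      ((PolyF.const _).pair (hd.pair (PolyF.const _))) ?_
    obtain ⟨B, hB⟩ := (hA.pbd.add hd.pbd).add hn.pbdNat
    refine ⟨4 + 2 * B + (2 * B + 2) * B, fun x k hk => ?_⟩
    have hBx := hB x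
    beta_reduce at hBx
    have e0 : sz (d x) = 1 + (d x).1 + (d x).2 := by rw [sz_prod, sz_nat, sz_nat]
    obtain ⟨i1, i2, i3, i4⟩ := orbStep_bound (A x) (d x) (B.eval (sz x)) (by omega) (by omega)
      (by omega) k
    generalize (orbStep (A x) (d x))^[k] ([], d x, false) = s at *
    have e1 : sz s.1 ≤ (2 * B.eval (sz x) + 1 + 1) * s.1.length :=
      sz_le_of_forall (M := 2 * B.eval (sz x) + 1) fun e he => by
        have := i1 e he
        rw [sz_prod, sz_nat, sz_nat]
        omega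
    have e2 : (2 * B.eval (sz x) + 1 + 1) * s.1.length ≤
        (2 * B.eval (sz x) + 1 + 1) * B.eval (sz x) :=
      Nat.mul_le_mul_left _ (i2.trans (hk.trans (by omega)))
    have e3 := sz_bool_le s.2.2
    show sz s ≤ _
    rw [sz_prod, sz_prod, sz_prod, sz_nat, sz_nat]
    simp only [Polynomial.eval_add, Polynomial.eval_mul, Polynomial.eval_ofNat]
    have e4 : (2 * B.eval (sz x) + 1 + 1) * B.eval (sz x) =
      (2 * B.eval (sz x) + 2) * B.eval (sz x) := rfl
    omega
  exact hi.fst.reverse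

theorem polyF_tokL {A : α → AdjB} {d : α → ℕ × ℕ} (hA : PolyF A) (hd : PolyF d) :
    PolyF (fun x => tokL (A x) (d x)) :=
  hd.idxOf (polyF_dartsL hA)

theorem polyF_isRep {A : α → AdjB} {d : α → ℕ × ℕ} (hA : PolyF A) (hd : PolyF d) :
    PolyF (fun x => isRep (A x) (d x)) :=
  (polyF_orbitL hA hd).all (p := fun x e => decide (tokL (A x) (d x) ≤ tokL (A x) e))
    ((polyF_tokL (hA.comp PolyF.fst') (hd.comp PolyF.fst')).natLe
      (polyF_tokL (hA.comp PolyF.fst') PolyF.snd'))

theorem polyF_repsL {A : α → AdjB} (hA : PolyF A) :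
    PolyF (α := α) (β := List (ℕ × ℕ)) (fun x => repsL (A x)) :=
  (polyF_dartsL hA).filter (p := fun x d => isRep (A x) d)
    (polyF_isRep (hA.comp PolyF.fst') PolyF.snd')

theorem polyF_faceL {A : α → AdjB} {d : α → ℕ × ℕ} (hA : PolyF A) (hd : PolyF d) :
    PolyF (α := α) (β := List (ℕ × NBin)) (fun x => faceL (A x) (d x)) :=
  (polyF_orbitL hA hd).map
    (h := fun x e => ((tokL (A x) e, lenL (A x) e) : ℕ × NBin))
    ((polyF_tokL (hA.comp PolyF.fst') PolyF.snd').pair (polyF_lenL (hA.comp PolyF.fst')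
      PolyF.snd'))

theorem polyF_replicate {n : α → ℕ} {b : α → β} (hn : PolyF n) (hb : PolyF b) :
    PolyF (fun x => List.replicate (n x) (b x)) :=
  (hn.range.map (h := fun x _ => b x) (hb.comp PolyF.fst')).congr fun x => by
    simp [List.map_const']

theorem polyF_vertSlots {A : α → AdjB} (hA : PolyF A) :
    PolyF (α := α) (β := List (List ℕ)) (fun x => vertSlots (A x)) := by
  have h1 : PolyF (α := α × ℕ) (β := List ℕ) (fun q => nbrL (A q.1) q.2) :=
    polyF_nbrL (hA.comp PolyF.fst') PolyF.snd'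
  refine hA.length.range.flatMap (h := fun x u => List.replicate ((nbrL (A x) u).length - 1)
    ((nbrL (A x) u).map (fun v => tokL (A x) (u, v)))) ?_
  refine polyF_replicate h1.length.pred (h1.map (h := fun (q : α × ℕ) v => tokL (A q.1) (q.2, v))
    (polyF_tokL (hA.comp PolyF.fst'.fst) (PolyF.fst'.snd.pair PolyF.snd')))

end

end Pool.Agent.FlatFold.PT
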