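import Pool.Agent.Lib.MP_b92007_lc.PolyFace
import Pool.Agent.Lib.MP_b92007_lc.PolyAuction
import Pool.Agent.Lib.MP_b92007_lc.PolyLev
import Pool.Agent.Lib.PolyTime.Bridge

/-! Task P2, second part: the whole algorithm runs in polynomial time. -/

set_option linter.unusedSimpArgs false
set_option linter.unusedSectionVars false

namespace Pool.Agent.FlatFold.PT

open Pool.Agent.Lib.PolyTime Function

theorem sum_lt_two_pow (c : List (ℕ × NBin)) :
    @LT.lt ℕ _ (@List.sum ℕ _ _ (c.map Prod.snd)) (2 ^ sz c) := by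
  induction c with
  | nil => exact Nat.one_pos
  | cons p c ih =>
    have h1 : @LT.lt ℕ _ p.2 (2 ^ sz p.2) :=
      lt_of_lt_of_le (Nat.lt_size_self p.2) (Nat.pow_le_pow_right (by norm_num)
        (size_le_sz_nbin p.2))
    have h2 : sz (p :: c) = 1 + (1 + sz p.1 + sz p.2) + sz c := rfl
    have h3 : @List.sum ℕ _ _ ((p :: c).map Prod.snd) =
      @HAdd.hAdd ℕ ℕ ℕ instHAdd p.2 (@List.sum ℕ _ _ (c.map Prod.snd)) := rfl
    rw [h3, h2]
    have h4 : 2 ^ (1 + (1 + sz p.1 + sz p.2) + sz c) =
      2 ^ (1 + sz p.1) * (2 * (2 ^ sz p.2 * 2 ^ sz c)) := by ring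
    have h5 : 1 ≤ 2 ^ (1 + sz p.1) := Nat.one_le_two_pow
    have h6 : 1 ≤ 2 ^ sz p.2 := Nat.one_le_two_pow
    have h7 : 1 ≤ 2 ^ sz c := Nat.one_le_two_pow
    have key : ∀ a b A B C : ℕ, a < A → b < B → 1 ≤ C → a + b < C * (2 * (A * B)) := by
      intro a b A B C ha hb hC
      have e1 : a + 1 ≤ A * B := by nlinarith
      have e2 : b + 1 ≤ A * B := by nlinarith
      nlinarith
    rw [h4]
    exact key _ _ _ _ _ h1 ih h5

/-- The size of a state of the face processing. -/
theorem PBound.sz_le {n S T i B M : ℕ} {s : PStateB} (h : PBound n S T i s) (hS : S < 2 ^ B)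
    (hM : T + i ≤ M) :
    sz s ≤ 5 + M + (M + 2 * B + 2) * n + ((M + 1) * (n + 1) + 1) * (i * (n + 1)) := by
  obtain ⟨q, c, L, o⟩ := s
  have e1 : sz (α := List (ℕ × NBin)) c ≤ (M + 2 * B + 1 + 1) * c.length := by
    refine sz_le_of_forall (α := ℕ × NBin) (M := M + 2 * B + 1) fun p hp => ?_
    have h1 : p.1 ≤ T + i := h.tok p hp
    have h2 : @LE.le ℕ _ p.2 (@List.sum ℕ _ _ (c.map Prod.snd)) :=
      List.single_le_sum (fun _ _ => Nat.zero_le _) _ (List.mem_map_of_mem (f := Prod.snd) hp)
    have h3 : @LT.lt ℕ _ p.2 (2 ^ B) := lt_of_le_of_lt (h2.trans h.sum) hS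
    have h4 : Nat.size p.2 ≤ B := Nat.size_le.2 h3
    have h5 := sz_nbin_le p.2
    rw [sz_prod, sz_nat]
    omega
  have e2 : sz L ≤ ((M + 1) * (n + 1) + 1) * L.length := by
    refine sz_le_of_forall fun l hl => ?_
    refine (sz_le_of_forall (M := M) fun x hx => ?_).trans (Nat.mul_le_mul_left _ (h.slen l hl))
    have := h.stok l hl x hx
    rw [sz_nat]
    omega
  have e3 : (M + 2 * B + 1 + 1) * c.length ≤ (M + 2 * B + 2) * n := Nat.mul_le_mul_left _ h.len
  have e4 : ((M + 1) * (n + 1) + 1) * L.length ≤ ((M + 1) * (n + 1) + 1) * (i * (n + 1)) :=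
    Nat.mul_le_mul_left _ h.slots
  have e5 : sz o ≤ 2 := by
    rcases o with _ | b
    · simp
    · have := sz_bool_le b
      rw [sz_some]
      omega
  have e6 : sz q ≤ M := by
    rw [sz_nat]
    exact (h.nxt).trans hM
  have e7 : sz (α := PStateB) (q, c, L, o) = 1 + sz q + (1 + sz (α := List (ℕ × NBin)) c +
    (1 + sz L + sz o)) := rfl
  rw [e7]
  omega

theorem PBound.init (q : ℕ) (c : List (ℕ × ℕ)) (n S T : ℕ) (hn : c.length ≤ n)
    (hS : (c.map Prod.snd).sum ≤ S) (hT : ∀ p ∈ c, p.1 ≤ T) (hq : q ≤ T) :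
    PBound n S T 0 (q, c, [], none) :=
  ⟨hn, hS, fun p hp => (hT p hp).trans (by omega), hq.trans (by omega), by simp, by simp, by simp⟩

section

variable {α : Type*} [TEnc α]

theorem polyF_procFace {outer : α → Bool} {k q : α → ℕ} {c : α → List (ℕ × NBin)}
    (ho : PolyF outer) (hk : PolyF k) (hq : PolyF q) (hc : PolyF c) :
    PolyF (α := α) (β := Option (List (List ℕ) × ℕ))
      (fun x => procFace (outer x) (k x) (q x) (c x)) := by
  have hi : PolyF (α := α) (β := PStateB)
      (fun x => (pfStep (outer x))^[k x] (q x, c x, [], none)) := by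
    refine PolyF.natIterate (γ := PStateB) (n := k) (f := fun x s => pfStep (outer x) s)
      (g := fun x => (q x, c x, [], none)) hk
      (polyF_pfStep (s := fun p : α × PStateB => p.2) (ho.comp PolyF.fst') PolyF.snd')
      (hq.pair (hc.pair ((PolyF.const []).pair (PolyF.const none)))) ?_
    obtain ⟨B, hB⟩ := ((hk.pbdNat.add hq.pbdNat).add hc.pbd)
    refine ⟨5 + B + (B + 2 * B + 2) * B + ((B + 1) * (B + 1) + 1) * (B * (B + 1)),
      fun x i hi => ?_⟩
    have hBx := hB x
    beta_reduce at hBx
    have h0 : PBound (c x).length (@List.sum ℕ _ _ ((c x).map Prod.snd)) (q x + sz (c x)) 0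
        (q x, c x, [], none) := by
      refine PBound.init _ _ _ _ _ le_rfl le_rfl (fun p hp => ?_) (Nat.le_add_right _ _)
      have h1 : 1 + sz (α := ℕ × NBin) p ≤ sz (c x) := sz_mem (α := ℕ × NBin) hp
      have h2 : sz (α := ℕ × NBin) p = 1 + sz p.1 + sz (α := NBin) p.2 := rfl
      have h3 : sz p.1 = p.1 := sz_nat _
      omega
    have h1 := h0.iterate (outer x) i
    have h2 := h1.sz_le (sum_lt_two_pow (c x)) (M := B.eval (sz x)) (by omega)
    refine h2.trans ?_
    simp only [Polynomial.eval_add, Polynomial.eval_mul, Polynomial.eval_ofNat,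
      Polynomial.eval_one]
    have h3 : (c x).length ≤ B.eval (sz x) := by
      have := length_le_sz (c x)
      omega
    have h4 : sz (c x) ≤ B.eval (sz x) := by omega
    have h5 : i ≤ B.eval (sz x) := by omega
    generalize B.eval (sz x) = b at *
    gcongr
  have h2 : PolyF (α := α) (β := Option (List (List ℕ) × ℕ))
      (fun x => pfRes ((pfStep (outer x))^[k x] (q x, c x, [], none))) :=
    PolyF.cond ((PolyF.snd (β := List (List ℕ)) (PolyF.snd (β := List (ℕ × NBin))
        (PolyF.snd (β := ℕ) hi))).getD (PolyF.const false))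
      ((PolyF.fst (β := List (List ℕ)) (PolyF.snd (β := List (ℕ × NBin))
        (PolyF.snd (β := ℕ) hi))).pair (PolyF.fst (β := ℕ)
          (γ := List (ℕ × NBin) × List (List ℕ) × Option Bool) hi)).some
      (PolyF.const none)
  refine h2.congr fun x => ?_
  refine (pfRes_eq (outer x) (k x) (q x) (c x) []).trans ?_
  rcases procFace (outer x) (k x) (q x) (c x) with _ | ⟨L, q'⟩ <;> rfl

end

/-- Bounds on the result of the processing of a face. -/
theorem procFace_bound {outer : Bool} {k q : ℕ} {c : List (ℕ × ℕ)} {L : List (List ℕ)} {q' : ℕ}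
    (h : procFace outer k q c = some (L, q')) {n T : ℕ} (hn : c.length ≤ n)
    (hT : ∀ p ∈ c, p.1 ≤ T) (hq : q ≤ T) :
    q' ≤ T + k ∧ L.length ≤ k * (n + 1) ∧ (∀ l ∈ L, l.length ≤ n + 1) ∧
      (∀ l ∈ L, ∀ x ∈ l, x ≤ T + k) := by
  have h1 := (PBound.init q c n _ T hn le_rfl hT hq).iterate outer k
  have h2 := pfRes_eq outer k q c []
  rw [h] at h2
  generalize (pfStep outer)^[k] (q, c, [], none) = s at h1 h2
  have h3 : s.2.2.1 = L ∧ s.1 = q' := by
    unfold pfRes at h2
    cases hs : s.2.2.2.getD false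
    · rw [hs] at h2
      simp at h2
    · rw [hs] at h2
      simpa using h2
  obtain ⟨rfl, rfl⟩ := h3
  exact ⟨h1.nxt, h1.slots, h1.slen, h1.stok⟩

/-- Bounds on the states of the computation of the slots. -/
def SBound (N j : ℕ) (s : Option (List (List ℕ) × ℕ)) : Prop :=
  ∀ L q, s = some (L, q) → q ≤ N + j * N ∧ L.length ≤ j * (N * (N + 1)) ∧
    (∀ l ∈ L, l.length ≤ N + 1) ∧ (∀ l ∈ L, ∀ x ∈ l, x ≤ N + j * N)

theorem orbitL_length_le (A : List (List (ℕ × ℕ))) (d : ℕ × ℕ) :
    (orbitL A d).length ≤ (dartsL A).length := by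
  have key : ∀ k, ((orbStep A d)^[k] ([], d, false)).1.length ≤ k := by
    intro k
    induction k with
    | zero => simp
    | succ k ih =>
      rw [iterate_succ_apply']
      generalize (orbStep A d)^[k] ([], d, false) = s at *
      unfold orbStep
      split_ifs with h
      · omega
      · simp only [List.length_cons]
        omega
  unfold orbitL
  rw [List.length_reverse]
  exact key _

theorem SBound.step {A : List (List (ℕ × ℕ))} {o : ℕ × ℕ} {j : ℕ}
    {s : Option (List (List ℕ) × ℕ)} (h : SBound (dartsL A).length j s) (d : ℕ × ℕ) :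
    SBound (dartsL A).length (j + 1) (slotStep A o s d) := by
  intro L q hs
  rcases s with _ | ⟨L0, q0⟩
  · simp [slotStep] at hs
  · obtain ⟨h1, h2, h3, h4⟩ := h L0 q0 rfl
    have hlen : (faceL A d).length ≤ (dartsL A).length := by
      unfold faceL
      rw [List.length_map]
      exact orbitL_length_le A d
    rcases hp : procFace (decide (o ∈ orbitL A d)) (faceL A d).length q0 (faceL A d) with
      _ | ⟨L', q'⟩
    · simp [slotStep, hp] at hs
    · simp only [slotStep, hp, Option.some.injEq, Prod.mk.injEq] at hs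
      obtain ⟨rfl, rfl⟩ := hs
      have hT : ∀ p ∈ faceL A d, p.1 ≤ (dartsL A).length + j * (dartsL A).length := by
        intro p hp'
        unfold faceL at hp'
        obtain ⟨e, he, rfl⟩ := List.mem_map.1 hp'
        have : tokL A e ≤ (dartsL A).length := List.idxOf_le_length
        exact this.trans (Nat.le_add_right _ _)
      obtain ⟨g1, g2, g3, g4⟩ := procFace_bound hp hlen hT h1
      · have e1 : (j + 1) * (dartsL A).length = j * (dartsL A).length + (dartsL A).length := by
          ring
        have e2 : (j + 1) * ((dartsL A).length * ((dartsL A).length + 1)) =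
          j * ((dartsL A).length * ((dartsL A).length + 1)) +
            (dartsL A).length * ((dartsL A).length + 1) := by ring
        have e3 : (faceL A d).length * ((dartsL A).length + 1) ≤
          (dartsL A).length * ((dartsL A).length + 1) := Nat.mul_le_mul_right _ hlen
        refine ⟨by omega, ?_, ?_, ?_⟩
        · rw [List.length_append]
          omega
        · intro l hl
          rcases List.mem_append.1 hl with hl | hl
          · exact h3 l hl
          · exact g3 l hl
        · intro l hl x hx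
          rcases List.mem_append.1 hl with hl | hl
          · have := h4 l hl x hx
            omega
          · have := g4 l hl x hx
            omega

theorem SBound.foldl {A : List (List (ℕ × ℕ))} {o : ℕ × ℕ} (l : List (ℕ × ℕ)) :
    ∀ (j : ℕ) (s : Option (List (List ℕ) × ℕ)), SBound (dartsL A).length j s →
      SBound (dartsL A).length (j + l.length) (l.foldl (slotStep A o) s) := by
  induction l with
  | nil => intro j s h; exact h
  | cons d l ih =>
    intro j s h
    have := ih (j + 1) _ (h.step (o := o) d)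
    rw [List.foldl_cons, List.length_cons]
    have e : j + (l.length + 1) = j + 1 + l.length := by ring
    rw [e]
    exact this

theorem SBound.sz_le {N j : ℕ} {s : Option (List (List ℕ) × ℕ)} (h : SBound N j s) :
    sz s ≤ 2 + (N + j * N) + ((N + j * N + 1) * (N + 1) + 1) * (j * (N * (N + 1))) := by
  rcases s with _ | ⟨L, q⟩
  · simp
  · obtain ⟨h1, h2, h3, h4⟩ := h L q rfl
    have e2 : sz L ≤ ((N + j * N + 1) * (N + 1) + 1) * L.length := by
      refine sz_le_of_forall fun l hl => ?_
      refine (sz_le_of_forall (M := N + j * N) fun x hx => ?_).trans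
        (Nat.mul_le_mul_left _ (h3 l hl))
      rw [sz_nat]
      exact h4 l hl x hx
    have e4 : ((N + j * N + 1) * (N + 1) + 1) * L.length ≤
      ((N + j * N + 1) * (N + 1) + 1) * (j * (N * (N + 1))) := Nat.mul_le_mul_left _ h2
    rw [sz_some, sz_prod, sz_nat]
    simp only
    omega

section

variable {α : Type*} [TEnc α]

theorem polyF_slotStep {A : α → AdjB} {o : α → ℕ × ℕ} {s : α → Option (List (List ℕ) × ℕ)}
    {d : α → ℕ × ℕ} (hA : PolyF A) (ho : PolyF o) (hs : PolyF s) (hd : PolyF d) :
    PolyF (α := α) (β := Option (List (List ℕ) × ℕ))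
      (fun x => slotStep (A x) (o x) (s x) (d x)) := by
  refine PolyF.optionCases (γ := Option (List (List ℕ) × ℕ)) (o := s) (g := fun _ => none)
    (h := fun q : α × (List (List ℕ) × ℕ) => slotStep (A q.1) (o q.1) (some q.2) (d q.1)) hs
    (PolyF.const none) ?_ (fun x hx => ?_) (fun x b hx => ?_)
  · have hA1 : PolyF (fun q : α × (List (List ℕ) × ℕ) => A q.1) := hA.comp PolyF.fst'
    have ho1 : PolyF (fun q : α × (List (List ℕ) × ℕ) => o q.1) := ho.comp PolyF.fst'
    have hd1 : PolyF (fun q : α × (List (List ℕ) × ℕ) => d q.1) := hd.comp PolyF.fst'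
    have hf := polyF_faceL hA1 hd1
    have hp : PolyF (α := α × (List (List ℕ) × ℕ)) (β := Option (List (List ℕ) × ℕ))
        (fun q => procFace (decide (o q.1 ∈ orbitL (A q.1) (d q.1)))
          (faceL (A q.1) (d q.1)).length q.2.2 (faceL (A q.1) (d q.1))) :=
      polyF_procFace (c := fun q : α × (List (List ℕ) × ℕ) => faceL (A q.1) (d q.1))
        (ho1.mem (polyF_orbitL hA1 hd1)) (PolyF.length (β := ℕ × NBin) hf) PolyF.snd'.snd hf
    refine PolyF.optionCases (γ := Option (List (List ℕ) × ℕ))
      (o := fun q : α × (List (List ℕ) × ℕ) => procFace (decide (o q.1 ∈ orbitL (A q.1) (d q.1)))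
          (faceL (A q.1) (d q.1)).length q.2.2 (faceL (A q.1) (d q.1)))
      (g := fun _ => none)
      (h := fun r : (α × (List (List ℕ) × ℕ)) × (List (List ℕ) × ℕ) =>
        some (r.1.2.1 ++ r.2.1, r.2.2)) hp (PolyF.const none) ?_ (fun x hx => ?_)
      (fun x b hx => ?_)
    · exact ((PolyF.fst'.snd.fst.append PolyF.snd'.fst).pair PolyF.snd'.snd).some
    · simp only [slotStep]
      rw [hx]
    · simp only [slotStep]
      rw [hx]
  · simp only [hx]
    rfl
  · simp only [hx]

theorem polyF_slotsL {I : α → AdjB × (ℕ × ℕ)} (hI : PolyF I) :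
    PolyF (α := α) (β := Option (List (List ℕ) × ℕ)) (fun x => slotsL (I x)) := by
  have hA : PolyF (fun x => (I x).1) := hI.fst
  have hn : PolyF (fun x => (dartsL (I x).1).length) := (polyF_dartsL hA).length
  obtain ⟨B, hB⟩ := hn.pbdNat
  refine PolyF.foldl (β := ℕ × ℕ) (γ := Option (List (List ℕ) × ℕ))
    (l := fun x => repsL (I x).1) (i := fun x => some ([], (dartsL (I x).1).length))
    (f := fun x s d => slotStep (I x).1 (I x).2 s d) (polyF_repsL hA)
    ((PolyF.const []).pair hn).some
    (polyF_slotStep (hA.comp PolyF.fst') (hI.snd.comp PolyF.fst') PolyF.snd'.fst PolyF.snd'.snd)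
    ⟨2 + (B + B * B) + ((B + B * B + 1) * (B + 1) + 1) * (B * (B * (B + 1))), fun x k hk => ?_⟩
  have h0 : SBound (dartsL (I x).1).length 0 (some ([], (dartsL (I x).1).length)) := by
    intro L q hs
    simp only [Option.some.injEq, Prod.mk.injEq] at hs
    obtain ⟨rfl, rfl⟩ := hs
    simp
  have h1 := (SBound.foldl (A := (I x).1) (o := (I x).2) ((repsL (I x).1).take k) 0 _ h0).sz_le
  refine h1.trans ?_
  have h2 : 0 + ((repsL (I x).1).take k).length ≤ B.eval (sz x) := by
    have e1 : ((repsL (I x).1).take k).length ≤ (repsL (I x).1).length := by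
      rw [List.length_take]
      exact min_le_right _ _
    have e2 : (repsL (I x).1).length ≤ (dartsL (I x).1).length := by
      unfold repsL
      exact List.length_filter_le _ _
    have e3 := hB x
    beta_reduce at e3
    omega
  have h3 : (dartsL (I x).1).length ≤ B.eval (sz x) := hB x
  simp only [Polynomial.eval_add, Polynomial.eval_mul, Polynomial.eval_ofNat,
    Polynomial.eval_one]
  generalize B.eval (sz x) = b at *
  gcongr

theorem polyF_algo {I : α → AdjB × (ℕ × ℕ)} (hI : PolyF I) :
    PolyF (α := α) (β := Bool) (fun x => algo (I x)) := by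
  have hA : PolyF (fun x => (I x).1) := hI.fst
  refine PolyF.and (polyF_levOK hA) ?_
  refine PolyF.optionCases (γ := Bool) (o := fun x => slotsL (I x)) (g := fun _ => false)
    (h := fun q : α × (List (List ℕ) × ℕ) => auction (vertSlots (I q.1).1 ++ q.2.1) q.2.2)
    (polyF_slotsL hI) (PolyF.const false) ?_ (fun x hx => ?_) (fun x b hx => ?_)
  · exact polyF_auction.comp (g := fun q : α × (List (List ℕ) × ℕ) =>
      ((vertSlots (I q.1).1 ++ q.2.1, q.2.2) : List (List ℕ) × ℕ))
      (((polyF_vertSlots (hA.comp PolyF.fst')).append PolyF.snd'.fst).pair PolyF.snd'.snd)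
  · simp only [hx]
  · simp only [hx]

end

/-- The algorithm runs in polynomial time on a Turing machine; the lengths are written in
binary. -/
theorem tm2_algo : Nonempty (Turing.TM2ComputableInPolyTime
    (fun I : AdjB × (ℕ × ℕ) => wd false true I) Computability.encodeBool
    (fun I => algo I)) :=
  (polyF_algo (I := fun I : AdjB × (ℕ × ℕ) => I) PolyF.id).tm2_word_bool

end Pool.Agent.FlatFold.PT
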